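import Pool.Agent.Lib.MP_8a819d_co.BD.Defs
import Pool.Agent.Lib.MP_8a819d_co.S5

/-!
# MP_8a819d_co: final steps

JOB Zf0: `many_low`. JOB Zf1: `tree_to_par`. JOB Zf2: `SSP_of`.

Zf0. `∑ i < n, pdeg i = 2 (n - 1)` (each `c ≥ 1` is counted once as a child and once for its parent edge), all degrees are `≥ 1` for `n ≥ 2` (`0` has the
child `1`, as `par 1 < 1`). If `a, b, c` are the numbers of vertices of degree `1`, `2`, `≥ 3`: `a + 2 b + 3 c ≤ 2 n - 2 = 2 a + 2 b + 2 c - 2`, so `c < a`, `n = a + b + c ≤ 2 a + b`;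
so `4 a ≥ n` or `4 b ≥ n` (otherwise `2a + b < n/2 + n/4`).
Zf1. `S5.lean` (namespace `SSq`) contains the rooted tree `toRt hG r` with parents `p` and depths `dep`, `toRt_adj`, `edge_par`, `simply_of_used`. Take `r = 0`. Sort the
vertices by depth: `σ = Tuple.sort dep : Perm (Fin n)`, `dep ∘ σ` is monotone; `σ 0 = r` (the only vertex of depth `0`). `par i = σ⁻¹ (p (σ i))` for `1 ≤ i < n` (as a natural
number), `par 0 = 0`. `par i < i` since `dep (p v) < dep v`. `pdeg n par i ≤` number of neighbours of `σ i` (children `c`: `σ c` are different neighbours; the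
parent is another neighbour). If `SSP n par` with `f`, let `g v = f (σ⁻¹ v)`; `used (toRt hG r) univ g` is the image of the items under `val par f` (`ad` is `dd`, `dd_natAbs`), it has
`2 n - 1` elements (injectivity; the items of `range n` are `n` vertices and `n - 1` edges) and is contained in `Icc 1 (2n-1)`, so it is equal to it.
Zf2. Given `Δ`: `ε` from the embedding theorem; `ζ, β, N₀` from the absorber theorem for `ε`; `n₀` from the embedding theorem for `ζ, β`. For `n` large let `N = 2n - 1`, `R` from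
the embedding theorem, `A, D` from the absorber theorem, then `Λ, u, f` from the embedding theorem. Let `T = range n \ Λ`, `Us = (items par T).image (val par f)`,
`J = Icc 1 N \ (A ∪ Us)`. `labs D ⊆ Us`: every `d ∈ D` is `u v`, and `d.1, d.2` are labels `f (par v)` or `f c` of vertices of `T`. So `J` is disjoint from `A` and `labs D`.
Cardinality: the items of `range n` are `2n - 1`; those which are not items of `T` are, for `v ∈ Λ`, `inl v`, `inr v` and `inr c` for the children `c` of `v`: `1 + t` items for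
each `v` (`pdeg v = t`, `v ≥ 1`), different for different `v` (a child of `v ∈ Λ` is not in `Λ`). So `|Us| = N - (t+1)|Λ|`, `|Λ| = |D|`, and `|J| + |A| = (t+1)|D|`.
Parity (`t = 1`): `∑ A + ∑ J + ∑ Us = ∑ Icc 1 N = N (N+1)/2 = n (2n-1) ≡ n`, `∑ Us + ∑ labs D + n ≡ 0`, so `∑ A + ∑ J + ∑ labs D ≡ 0`.
`Matchable t D (A ∪ J)`: blocks `b d`. For `v ∈ Λ` let `a_v` be the element `a` of the block `b (u v) = {a, dd a d.1, dd a d.2}`, `d = u v`. Define `f' = a_v` on `Λ`, `f` elsewhere. The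
labels of `inl v`, `inr v`, `inr c` are `a_v`, `dd a_v (f (par v))`, `dd a_v (f c)`: as `{f (par v)} ∪ f(children) = {d.1, d.2}` these are the elements of `b (u v)`, and they are
different since `b (u v)` has `t + 1` elements and there are `t + 1` items. Items of `T` keep their labels in `Us`; the blocks are disjoint subsets of `A ∪ J`, which is
disjoint from `Us`. All labels are in `[1, N]`.
-/

set_option autoImplicit false

namespace SSB

open Finset

private theorem zf0_sum (n : ℕ) (par : ℕ → ℕ) (hn : 1 ≤ n) (hpar : IsPar n par) :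
    ∑ i ∈ range n, pdeg n par i + 2 = 2 * n := by
  have h1 : ((range n).filter (fun c => 1 ≤ c)).card = ∑ i ∈ range n, (chs n par i).card := by
    have h := card_eq_sum_card_fiberwise (s := (range n).filter (fun c => 1 ≤ c)) (t := range n)
      (f := par) (by
        intro c hc
        rw [mem_coe, mem_filter, mem_range] at hc
        rw [mem_coe, mem_range]
        exact lt_trans (hpar c hc.2 hc.1) hc.1)
    rw [h]
    refine sum_congr rfl fun i _ => ?_
    unfold chs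
    rw [filter_filter]
  have h2 : ((range n).filter (fun c => 1 ≤ c)).card + 1 = n := by
    have h3 : (range n).filter (fun c => 1 ≤ c) = (range n).erase 0 := by
      ext c
      rw [mem_filter, mem_erase]
      constructor
      · rintro ⟨h4, h5⟩
        exact ⟨by omega, h4⟩
      · rintro ⟨h4, h5⟩
        exact ⟨h5, by omega⟩
    rw [h3, card_erase_of_mem (mem_range.2 (by omega)), card_range]
    omega
  have h3 : ∑ i ∈ range n, (if i = 0 then 0 else 1) + 1 = n := by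
    obtain ⟨m, rfl⟩ : ∃ m, n = m + 1 := ⟨n - 1, by omega⟩
    rw [sum_range_succ']
    have h4 : ∑ k ∈ range m, (if k + 1 = 0 then 0 else 1) = m := by
      rw [sum_congr rfl (g := fun _ => 1) (fun k _ => if_neg (by omega)), sum_const, card_range,
        smul_eq_mul, mul_one]
    rw [h4, if_pos rfl]
  unfold pdeg
  rw [sum_add_distrib, ← h1]
  omega

theorem many_low (n : ℕ) (par : ℕ → ℕ) (hn : 2 ≤ n) (hpar : IsPar n par) :
    n ≤ 4 * ((range n).filter (fun i => pdeg n par i = 1)).card ∨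
      n ≤ 4 * ((range n).filter (fun i => pdeg n par i = 2)).card := by
  have hs := zf0_sum n par (by omega) hpar
  have h1 : ∀ i ∈ range n, 3 ≤ pdeg n par i + 2 * (if pdeg n par i = 1 then 1 else 0) +
      (if pdeg n par i = 2 then 1 else 0) := by
    intro i hi
    rw [mem_range] at hi
    have h2 : 1 ≤ pdeg n par i := by
      by_cases h0 : i = 0
      · have h3 : 1 ∈ chs n par i := by
          rw [mem_chs]
          have := hpar 1 (le_refl 1) (by omega)
          exact ⟨by omega, le_refl 1, by omega⟩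
        have h4 : 0 < (chs n par i).card := card_pos.2 ⟨1, h3⟩
        unfold pdeg
        omega
      · unfold pdeg
        rw [if_neg h0]
        omega
    by_cases h3 : pdeg n par i = 1
    · rw [h3]
      simp
    · by_cases h4 : pdeg n par i = 2
      · rw [h4]
        simp
      · rw [if_neg h3, if_neg h4]
        omega
  have h2 := sum_le_sum h1
  rw [sum_add_distrib, sum_add_distrib, ← mul_sum, ← card_filter, ← card_filter, sum_const,
    card_range, smul_eq_mul] at h2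
  omega

/-- the parent array of a rooted tree on `Fin n` for an ordering of the vertices -/
private def zf1Par {n : ℕ} (T : SSq.Rt (Fin n)) (σ : Equiv.Perm (Fin n)) (i : ℕ) : ℕ :=
  if h : 1 ≤ i ∧ i < n then ((σ.symm (T.p (σ ⟨i, h.2⟩)) : Fin n) : ℕ) else 0

private theorem zf1_par {n : ℕ} (T : SSq.Rt (Fin n)) (σ : Equiv.Perm (Fin n)) (i : Fin n)
    (hi : 1 ≤ (i : ℕ)) : zf1Par T σ i = ((σ.symm (T.p (σ i)) : Fin n) : ℕ) := by
  unfold zf1Par
  rw [dif_pos ⟨hi, i.2⟩]

private theorem zf1_lt {n : ℕ} {T : SSq.Rt (Fin n)} {σ : Equiv.Perm (Fin n)}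
    (hmono : Monotone (T.dep ∘ σ)) (h0 : ∀ i : Fin n, σ i = T.r ↔ (i : ℕ) = 0) :
    IsPar n (zf1Par T σ) := by
  intro i h1 h2
  have h3 := zf1_par T σ ⟨i, h2⟩ h1
  have h4 : zf1Par T σ i = ((σ.symm (T.p (σ ⟨i, h2⟩)) : Fin n) : ℕ) := h3
  rw [h4]
  by_contra hc
  have h5 : (⟨i, h2⟩ : Fin n) ≤ σ.symm (T.p (σ ⟨i, h2⟩)) := by
    rw [Fin.le_def]
    exact not_lt.1 hc
  have h6 := hmono h5
  have h7 : T.dep (σ ⟨i, h2⟩) ≤ T.dep (σ (σ.symm (T.p (σ ⟨i, h2⟩)))) := h6
  rw [Equiv.apply_symm_apply] at h7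
  have h8 := T.dp (σ ⟨i, h2⟩) (fun h => by
    have h9 := (h0 ⟨i, h2⟩).1 h
    have h10 : i = 0 := h9
    omega)
  omega

private theorem zf1_items {n : ℕ} (par : ℕ → ℕ) (hn : 1 ≤ n) (hpar : IsPar n par) :
    (items par (range n)).card = 2 * n - 1 := by
  unfold items
  have h1 : (range n).filter (fun i => 1 ≤ i ∧ par i ∈ range n) = (range n).erase 0 := by
    ext c
    rw [mem_filter, mem_erase, mem_range, mem_range]
    constructor
    · rintro ⟨h4, h5, h6⟩
      exact ⟨by omega, h4⟩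
    · rintro ⟨h4, h5⟩
      have := hpar c (by omega) h5
      exact ⟨h5, by omega, by omega⟩
  rw [h1, card_union_of_disjoint, card_image_of_injective _ Sum.inl_injective,
    card_image_of_injective _ Sum.inr_injective, card_erase_of_mem (mem_range.2 (by omega)),
    card_range]
  · omega
  · rw [disjoint_left]
    intro x hx hx'
    obtain ⟨a, _, rfl⟩ := mem_image.1 hx
    obtain ⟨b, _, h⟩ := mem_image.1 hx'
    exact absurd h (by simp)

private theorem zf1_used {n : ℕ} {T : SSq.Rt (Fin n)} {σ : Equiv.Perm (Fin n)}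
    (h0 : ∀ i : Fin n, σ i = T.r ↔ (i : ℕ) = 0)
    (f : ℕ → ℕ) :
    SSq.used T univ (fun v => f (σ.symm v : Fin n)) =
      (items (zf1Par T σ) (range n)).image (val (zf1Par T σ) f) := by
  classical
  have had : ∀ a b : ℕ, SSq.ad a b = dd a b := fun a b => by
    rw [dd_natAbs]
    rfl
  ext x
  unfold SSq.used
  simp only [mem_union, mem_image, mem_univ, true_and, mem_erase, and_true]
  constructor
  · rintro (⟨v, rfl⟩ | ⟨v, hv, rfl⟩)
    · refine ⟨Sum.inl ((σ.symm v : Fin n) : ℕ), ?_, rfl⟩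
      rw [mem_items_inl, mem_range]
      exact (σ.symm v).2
    · have h1 : 1 ≤ ((σ.symm v : Fin n) : ℕ) := by
        by_contra hc
        apply hv
        have h2 := (h0 (σ.symm v)).2 (by omega)
        rwa [Equiv.apply_symm_apply] at h2
      have h2 := zf1_par T σ (σ.symm v) h1
      rw [Equiv.apply_symm_apply] at h2
      refine ⟨Sum.inr ((σ.symm v : Fin n) : ℕ), ?_, ?_⟩
      · rw [mem_items_inr, mem_range, mem_range, h2]
        exact ⟨(σ.symm v).2, h1, (σ.symm (T.p v)).2⟩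
      · rw [val_inr, h2, had]
  · rintro ⟨y, hy, rfl⟩
    rcases y with i | i
    · rw [mem_items_inl, mem_range] at hy
      refine Or.inl ⟨σ ⟨i, hy⟩, ?_⟩
      rw [Equiv.symm_apply_apply]
      rfl
    · rw [mem_items_inr, mem_range, mem_range] at hy
      obtain ⟨h1, h2, h3⟩ := hy
      refine Or.inr ⟨σ ⟨i, h1⟩, ?_, ?_⟩
      · intro h
        have h4 : i = 0 := (h0 ⟨i, h1⟩).1 h
        omega
      · have h4 : zf1Par T σ i = ((σ.symm (T.p (σ ⟨i, h1⟩)) : Fin n) : ℕ) :=
          zf1_par T σ ⟨i, h1⟩ h2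
        rw [Equiv.symm_apply_apply, val_inr, h4, had]

private theorem zf1_deg {n : ℕ} {G : SimpleGraph (Fin n)} (hG : G.IsTree) (r : Fin n)
    {σ : Equiv.Perm (Fin n)} (h0 : ∀ i : Fin n, σ i = r ↔ (i : ℕ) = 0) (i : Fin n) :
    pdeg n (zf1Par (SSq.toRt hG r) σ) i ≤ (G.neighborSet (σ i)).ncard := by
  classical
  obtain ⟨T, hT⟩ : ∃ T, T = SSq.toRt hG r := ⟨_, rfl⟩
  have hTr : T.r = r := by rw [hT]; rfl
  have hadj : ∀ v : Fin n, v ≠ r → G.Adj v (T.p v) := fun v hv => by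
    rw [hT]
    exact SSq.toRt_adj hG r hv
  rw [← hT]
  let φ : ℕ → Fin n := fun c => if h : c < n then σ ⟨c, h⟩ else r
  have hφ : ∀ (c : ℕ) (h : c < n), φ c = σ ⟨c, h⟩ := fun c h => dif_pos h
  have hch : ∀ c ∈ chs n (zf1Par T σ) i, ∃ h : c < n, T.p (σ ⟨c, h⟩) = σ i ∧ σ ⟨c, h⟩ ≠ r := by
    intro c hc
    rw [mem_chs] at hc
    obtain ⟨h1, h2, h3⟩ := hc
    have h4 : zf1Par T σ c = ((σ.symm (T.p (σ ⟨c, h1⟩)) : Fin n) : ℕ) :=
      zf1_par T σ ⟨c, h1⟩ h2
    rw [h4] at h3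
    refine ⟨h1, ?_, ?_⟩
    · rw [← Fin.ext h3, Equiv.apply_symm_apply]
    · intro h
      have h5 : c = 0 := (h0 ⟨c, h1⟩).1 h
      omega
  have hinj : Set.InjOn φ (chs n (zf1Par T σ) i : Set ℕ) := by
    intro c hc c' hc' h
    obtain ⟨h1, _⟩ := hch c (mem_coe.1 hc)
    obtain ⟨h2, _⟩ := hch c' (mem_coe.1 hc')
    rw [hφ c h1, hφ c' h2] at h
    have h3 := σ.injective h
    exact congrArg (fun x : Fin n => (x : ℕ)) h3
  have hnb : ∀ c ∈ chs n (zf1Par T σ) i, G.Adj (σ i) (φ c) := by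
    intro c hc
    obtain ⟨h1, h2, h3⟩ := hch c hc
    have h4 := hadj _ h3
    rw [h2] at h4
    rw [hφ c h1]
    exact h4.symm
  have hfin : (G.neighborSet (σ i)).Finite := Set.toFinite _
  by_cases hi : (i : ℕ) = 0
  · have h1 : ((chs n (zf1Par T σ) i).image φ : Set (Fin n)) ⊆ G.neighborSet (σ i) := by
      intro x hx
      rw [mem_coe, mem_image] at hx
      obtain ⟨c, hc, rfl⟩ := hx
      exact hnb c hc
    have h2 := Set.ncard_le_ncard h1 hfin
    rw [Set.ncard_coe_finset, card_image_of_injOn hinj] at h2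
    unfold pdeg
    rw [if_pos hi]
    exact h2
  · have hir : σ i ≠ r := fun h => hi ((h0 i).1 h)
    have hpn : T.p (σ i) ∉ (chs n (zf1Par T σ) i).image φ := by
      intro hx
      rw [mem_image] at hx
      obtain ⟨c, hc, h⟩ := hx
      obtain ⟨h1, h2, h3⟩ := hch c hc
      rw [hφ c h1] at h
      have d1 := T.dp (σ i) (by rw [hTr]; exact hir)
      have d2 := T.dp (σ ⟨c, h1⟩) (by rw [hTr]; exact h3)
      rw [h2, h] at d2
      omega
    have h1 : (insert (T.p (σ i)) ((chs n (zf1Par T σ) i).image φ) : Finset (Fin n)) ⊆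
        (G.neighborSet (σ i)).toFinset := by
      intro x hx
      rw [Set.mem_toFinset]
      rw [mem_insert, mem_image] at hx
      rcases hx with rfl | ⟨c, hc, rfl⟩
      · exact hadj _ hir
      · exact hnb c hc
    have h2 := card_le_card h1
    rw [card_insert_of_notMem hpn, card_image_of_injOn hinj, ← Set.ncard_eq_toFinset_card'] at h2
    unfold pdeg
    rw [if_neg hi]
    exact h2

theorem tree_to_par {n Δ : ℕ} {G : SimpleGraph (Fin n)} (hG : G.IsTree)
    (hΔ : ∀ v, (G.neighborSet v).ncard ≤ Δ) :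
    ∃ par : ℕ → ℕ, IsPar n par ∧ (∀ i < n, pdeg n par i ≤ Δ) ∧ (SSP n par → SSq.Simply G) := by
  classical
  have hne := hG.connected.nonempty
  have hn : 0 < n := Fin.pos hne.some
  obtain ⟨r, hr⟩ : ∃ r : Fin n, (r : ℕ) = 0 := ⟨⟨0, hn⟩, rfl⟩
  obtain ⟨T, hT⟩ : ∃ T, T = SSq.toRt hG r := ⟨_, rfl⟩
  have hTr : T.r = r := by rw [hT]; rfl
  obtain ⟨σ, hσ⟩ : ∃ σ : Equiv.Perm (Fin n), Monotone (T.dep ∘ σ) :=
    ⟨Tuple.sort T.dep, Tuple.monotone_sort T.dep⟩
  have hz : σ r = r := by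
    by_contra hc
    have h1 := T.dp (σ r) (by rw [hTr]; exact hc)
    have h2 : r ≤ σ.symm r := by
      rw [Fin.le_def, hr]
      exact Nat.zero_le _
    have h3 : T.dep (σ r) ≤ T.dep (σ (σ.symm r)) := hσ h2
    rw [Equiv.apply_symm_apply] at h3
    have h4 := T.dr
    rw [hTr] at h4
    omega
  have h0 : ∀ i : Fin n, σ i = r ↔ (i : ℕ) = 0 := by
    intro i
    constructor
    · intro h
      have h1 : σ i = σ r := by rw [h, hz]
      rw [σ.injective h1, hr]
    · intro h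
      have h1 : i = r := Fin.ext (by rw [h, hr])
      rw [h1, hz]
  have h0' : ∀ i : Fin n, σ i = T.r ↔ (i : ℕ) = 0 := by
    rw [hTr]
    exact h0
  have hpar := zf1_lt hσ h0'
  refine ⟨zf1Par T σ, hpar, ?_, ?_⟩
  · intro i hi
    have h1 := zf1_deg hG r h0 ⟨i, hi⟩
    rw [← hT] at h1
    exact h1.trans (hΔ _)
  · rintro ⟨f, hf1, hf2⟩
    have h1 := zf1_used h0' f
    have h2 : (items (zf1Par T σ) (range n)).image (val (zf1Par T σ) f) =
        Icc 1 (2 * n - 1) := by
      apply eq_of_subset_of_card_le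
      · intro x hx
        obtain ⟨y, hy, rfl⟩ := mem_image.1 hx
        exact mem_Icc.2 (hf2 y hy)
      · rw [card_image_of_injOn hf1, zf1_items _ hn hpar, Nat.card_Icc]
        omega
    rw [h2, hT] at h1
    refine SSq.simply_of_used hG r (fun v => f (σ.symm v : Fin n)) ?_
    rw [h1, Fintype.card_fin]

/-- the items which disappear with `v` -/
private def zf2X (n : ℕ) (par : ℕ → ℕ) (v : ℕ) : Finset (ℕ ⊕ ℕ) :=
  insert (Sum.inl v) (insert (Sum.inr v) ((chs n par v).image Sum.inr))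

private theorem zf2_inl {n : ℕ} {par : ℕ → ℕ} {v i : ℕ} : Sum.inl i ∈ zf2X n par v ↔ i = v := by
  simp [zf2X]

private theorem zf2_inr {n : ℕ} {par : ℕ → ℕ} {v i : ℕ} :
    Sum.inr i ∈ zf2X n par v ↔ i = v ∨ i ∈ chs n par v := by
  simp [zf2X]

private theorem zf2_card_X {n : ℕ} {par : ℕ → ℕ} (hpar : IsPar n par) {v : ℕ} (h1 : 1 ≤ v)
    (hv : v < n) : (zf2X n par v).card = pdeg n par v + 1 := by
  unfold zf2X pdeg
  rw [card_insert_of_notMem, card_insert_of_notMem, card_image_of_injective _ Sum.inr_injective,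
    if_neg (by omega)]
  · intro h
    rw [mem_image] at h
    obtain ⟨c, hc, hcv⟩ := h
    have h2 : c = v := Sum.inr_injective hcv
    rw [h2] at hc
    have h3 := (mem_chs.1 hc).2.2
    have h4 := hpar v h1 hv
    omega
  · simp

private theorem zf2_card_items {n : ℕ} {par : ℕ → ℕ} (hn : 1 ≤ n) (hpar : IsPar n par) :
    (items par (range n)).card = 2 * n - 1 := by
  unfold items
  rw [card_union_of_disjoint, card_image_of_injective _ Sum.inl_injective,
    card_image_of_injective _ Sum.inr_injective, card_range]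
  · have h1 : (range n).filter (fun i => 1 ≤ i ∧ par i ∈ range n) = (range n).erase 0 := by
      ext i
      simp only [mem_filter, mem_range, mem_erase]
      constructor
      · rintro ⟨h1, h2, -⟩
        exact ⟨by omega, h1⟩
      · rintro ⟨h1, h2⟩
        have h3 := hpar i (by omega) h2
        exact ⟨h2, by omega, by omega⟩
    rw [h1, card_erase_of_mem (mem_range.2 hn), card_range]
    omega
  · rw [disjoint_left]
    intro x hx hy
    rw [mem_image] at hx hy
    obtain ⟨i, -, rfl⟩ := hx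
    obtain ⟨j, -, hj⟩ := hy
    exact absurd hj (by simp)

private theorem zf2_split {n : ℕ} {par : ℕ → ℕ} {Λ : Finset ℕ} {t : ℕ} (hpar : IsPar n par)
    (hΛ : Λ ⊆ range n)
    (hv : ∀ v ∈ Λ, 1 ≤ v ∧ pdeg n par v = t ∧ par v ∉ Λ ∧ ∀ c ∈ chs n par v, c ∉ Λ) :
    items par (range n) = items par (range n \ Λ) ∪ Λ.biUnion (zf2X n par) := by
  ext x
  rw [mem_union, mem_biUnion]
  cases x with
  | inl i =>
    simp only [mem_items_inl, zf2_inl, mem_sdiff]
    constructor
    · intro h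
      by_cases hi : i ∈ Λ
      · exact Or.inr ⟨i, hi, rfl⟩
      · exact Or.inl ⟨h, hi⟩
    · rintro (h | ⟨v, hvΛ, rfl⟩)
      · exact h.1
      · exact hΛ hvΛ
  | inr i =>
    simp only [mem_items_inr, zf2_inr, mem_sdiff]
    constructor
    · rintro ⟨h1, h2, h3⟩
      by_cases hi : i ∈ Λ
      · exact Or.inr ⟨i, hi, Or.inl rfl⟩
      · by_cases hp : par i ∈ Λ
        · exact Or.inr ⟨par i, hp, Or.inr (mem_chs.2 ⟨mem_range.1 h1, h2, rfl⟩)⟩
        · exact Or.inl ⟨⟨h1, hi⟩, h2, h3, hp⟩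
    · rintro (⟨⟨h1, -⟩, h2, h3, -⟩ | ⟨v, hvΛ, rfl | hc⟩)
      · exact ⟨h1, h2, h3⟩
      · have h4 := mem_range.1 (hΛ hvΛ)
        have h5 := hpar i (hv i hvΛ).1 h4
        exact ⟨hΛ hvΛ, (hv i hvΛ).1, mem_range.2 (by omega)⟩
      · obtain ⟨h4, h5, h6⟩ := mem_chs.1 hc
        exact ⟨mem_range.2 h4, h5, by rw [h6]; exact hΛ hvΛ⟩

private theorem zf2_disj1 {n : ℕ} {par : ℕ → ℕ} {Λ : Finset ℕ} :
    Disjoint (items par (range n \ Λ)) (Λ.biUnion (zf2X n par)) := by
  rw [disjoint_left]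
  intro x hx hy
  rw [mem_biUnion] at hy
  obtain ⟨v, hvΛ, hy⟩ := hy
  cases x with
  | inl i =>
    rw [mem_items_inl, mem_sdiff] at hx
    rw [zf2_inl] at hy
    rw [hy] at hx
    exact hx.2 hvΛ
  | inr i =>
    rw [mem_items_inr, mem_sdiff, mem_sdiff] at hx
    rw [zf2_inr] at hy
    rcases hy with hy | hy
    · rw [hy] at hx
      exact hx.1.2 hvΛ
    · rw [(mem_chs.1 hy).2.2] at hx
      exact hx.2.2.2 hvΛ

private theorem zf2_disj2 {n : ℕ} {par : ℕ → ℕ} {Λ : Finset ℕ} {t : ℕ}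
    (hv : ∀ v ∈ Λ, 1 ≤ v ∧ pdeg n par v = t ∧ par v ∉ Λ ∧ ∀ c ∈ chs n par v, c ∉ Λ) :
    ∀ v ∈ Λ, ∀ w ∈ Λ, v ≠ w → Disjoint (zf2X n par v) (zf2X n par w) := by
  intro v hvΛ w hwΛ hne
  rw [disjoint_left]
  intro x hx hy
  cases x with
  | inl i =>
    rw [zf2_inl] at hx hy
    exact hne (hx.symm.trans hy)
  | inr i =>
    rw [zf2_inr] at hx hy
    rcases hx with hx | hx <;> rcases hy with hy | hy
    · exact hne (hx.symm.trans hy)
    · rw [hx] at hy
      exact (hv w hwΛ).2.2.2 v hy hvΛ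
    · rw [hy] at hx
      exact (hv v hvΛ).2.2.2 w hx hwΛ
    · exact hne ((mem_chs.1 hx).2.2.symm.trans (mem_chs.1 hy).2.2)

private theorem zf2_count {n : ℕ} {par : ℕ → ℕ} {Λ : Finset ℕ} {t : ℕ} (hn : 1 ≤ n) (hpar : IsPar n par)
    (hΛ : Λ ⊆ range n)
    (hv : ∀ v ∈ Λ, 1 ≤ v ∧ pdeg n par v = t ∧ par v ∉ Λ ∧ ∀ c ∈ chs n par v, c ∉ Λ) :
    (items par (range n \ Λ)).card + (t + 1) * Λ.card = 2 * n - 1 := by
  rw [← zf2_card_items hn hpar, zf2_split hpar hΛ hv, card_union_of_disjoint zf2_disj1,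
    card_biUnion (fun v hvΛ w hwΛ hne => zf2_disj2 hv v hvΛ w hwΛ hne)]
  congr 1
  have h1 : ∀ v ∈ Λ, (zf2X n par v).card = t + 1 := by
    intro v hvΛ
    rw [zf2_card_X hpar (hv v hvΛ).1 (mem_range.1 (hΛ hvΛ)), (hv v hvΛ).2.1]
  rw [Finset.sum_congr rfl h1, Finset.sum_const, smul_eq_mul, mul_comm]

/-- the labels of the items which disappear with `v` -/
private theorem zf2_image {n t : ℕ} {par f f' : ℕ → ℕ} {Λ : Finset ℕ} {v : ℕ} {d : ℕ × ℕ} {s : Finset ℕ}
    (hvΛ : v ∈ Λ)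
    (hv : ∀ v ∈ Λ, 1 ≤ v ∧ pdeg n par v = t ∧ par v ∉ Λ ∧ ∀ c ∈ chs n par v, c ∉ Λ)
    (hf' : ∀ i, i ∉ Λ → f' i = f i)
    (hd : insert (f (par v)) ((chs n par v).image f) = {d.1, d.2})
    (hs : s = {f' v, dd (f' v) d.1, dd (f' v) d.2}) :
    (zf2X n par v).image (val par f') = s := by
  have h1 : s = insert (f' v) (({d.1, d.2} : Finset ℕ).image (fun y => dd (f' v) y)) := by
    rw [hs, image_insert, image_singleton]
  rw [h1, ← hd]
  unfold zf2X
  rw [image_insert, image_insert, image_insert, image_image, image_image, val_inl, val_inr,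
    hf' _ (hv v hvΛ).2.2.1]
  congr 2
  refine Finset.image_congr fun c hc => ?_
  have hc' : c ∈ chs n par v := hc
  show val par f' (Sum.inr c) = dd (f' v) (f c)
  rw [val_inr, (mem_chs.1 hc').2.2, hf' c ((hv v hvΛ).2.2.2 c hc'), dd_comm]

theorem SSP_of (t : ℕ) (ht : t = 1 ∨ t = 2) (h1 : AbsStatement t) (h2 : EmbStatement t) (Δ : ℕ) :
    ∃ n₀ : ℕ, ∀ n : ℕ, n₀ ≤ n → ∀ par : ℕ → ℕ, IsPar n par → (∀ i < n, pdeg n par i ≤ Δ) →
      n ≤ 4 * ((range n).filter (fun i => pdeg n par i = t)).card → SSP n par := by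
  have _ := ht
  obtain ⟨ε, hε, h2'⟩ := h2 Δ
  obtain ⟨ζ, hζ, hζε, β, hβ, N₀, h1'⟩ := h1 ε hε
  obtain ⟨n₀, h2''⟩ := h2' ζ hζ hζε β hβ
  refine ⟨max (max n₀ N₀) 1, fun n hn par hpar hΔ hcard => ?_⟩
  have hn0 : n₀ ≤ n := (le_max_left _ _).trans ((le_max_left _ _).trans hn)
  have hnN : N₀ ≤ n := (le_max_right _ _).trans ((le_max_left _ _).trans hn)
  have hn1 : 1 ≤ n := (le_max_right _ _).trans hn
  obtain ⟨R, hR1, hR2, h3⟩ := h2'' n hn0
  obtain ⟨A, D, hAD, h4⟩ := h1' (2 * n - 1) (by omega) R hR1 hR2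
  obtain ⟨Λ, u, f, hΛ, hv, hu, hnb, hinj, hval, hpty⟩ := h3 A D hAD par hpar hΔ hcard
  obtain ⟨Us, hUs⟩ : ∃ Us : Finset ℕ, Us = (items par (range n \ Λ)).image (val par f) := ⟨_, rfl⟩
  obtain ⟨J, hJ⟩ : ∃ J : Finset ℕ, J = Icc 1 (2 * n - 1) \ (A ∪ Us) := ⟨_, rfl⟩
  have hUsI : Us ⊆ Icc 1 (2 * n - 1) := by
    intro y hy
    rw [hUs, mem_image] at hy
    obtain ⟨x, hx, rfl⟩ := hy
    exact mem_Icc.2 ⟨(hval x hx).1, (hval x hx).2.1⟩
  have hAUs : Disjoint A Us := by
    rw [disjoint_left]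
    intro y hyA hy
    rw [hUs, mem_image] at hy
    obtain ⟨x, hx, rfl⟩ := hy
    exact (hval x hx).2.2 hyA
  have hAI : A ⊆ Icc 1 (2 * n - 1) := hAD.A_sub
  have hAUI : A ∪ Us ⊆ Icc 1 (2 * n - 1) := union_subset hAI hUsI
  have hJI : J ⊆ Icc 1 (2 * n - 1) := by
    rw [hJ]
    exact sdiff_subset
  have hJA : Disjoint J A := by
    rw [disjoint_left]
    intro y hy hyA
    rw [hJ, mem_sdiff] at hy
    exact hy.2 (mem_union_left _ hyA)
  have hJU : Disjoint J Us := by
    rw [disjoint_left]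
    intro y hy hyU
    rw [hJ, mem_sdiff] at hy
    exact hy.2 (mem_union_right _ hyU)
  have hparT : ∀ v ∈ Λ, par v ∈ range n \ Λ := by
    intro v hvΛ
    have h5 := mem_range.1 (hΛ hvΛ)
    have h6 := hpar v (hv v hvΛ).1 h5
    exact mem_sdiff.2 ⟨mem_range.2 (by omega), (hv v hvΛ).2.2.1⟩
  have hlabs : labs D ⊆ Us := by
    intro y hy
    rw [mem_labs] at hy
    obtain ⟨d, hd, hyd⟩ := hy
    obtain ⟨v, hvΛ, rfl⟩ := hu.surjOn hd
    have hvΛ' : v ∈ Λ := hvΛ
    have h5 : y ∈ insert (f (par v)) ((chs n par v).image f) := by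
      rw [hnb v hvΛ', mem_insert, mem_singleton]
      exact hyd
    rw [hUs, mem_image]
    rw [mem_insert, mem_image] at h5
    rcases h5 with h5 | ⟨c, hc, h5⟩
    · exact ⟨Sum.inl (par v), mem_items_inl.2 (hparT v hvΛ'), h5.symm⟩
    · refine ⟨Sum.inl c, mem_items_inl.2 (mem_sdiff.2 ⟨mem_range.2 (mem_chs.1 hc).1,
        (hv v hvΛ').2.2.2 c hc⟩), h5⟩
  have hJL : Disjoint J (labs D) := disjoint_of_subset_right hlabs hJU
  -- cardinalities
  have hcardU : Us.card = (items par (range n \ Λ)).card := by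
    rw [hUs]
    exact card_image_of_injOn hinj
  have hcount := zf2_count hn1 hpar hΛ hv
  have hDΛ : D.card = Λ.card := by
    have h5 : D = Λ.image u := by
      have h6 := hu.image_eq
      rw [← coe_image] at h6
      exact (Finset.coe_injective h6).symm
    rw [h5]
    exact card_image_of_injOn hu.injOn
  have hcardAU : (A ∪ Us).card = A.card + Us.card := card_union_of_disjoint hAUs
  have hcardJ : J.card = (2 * n - 1) - (A ∪ Us).card := by
    rw [hJ, card_sdiff_of_subset hAUI, Nat.card_Icc]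
    omega
  have hcardle : (A ∪ Us).card ≤ 2 * n - 1 := by
    have h5 := card_le_card hAUI
    rwa [Nat.card_Icc, Nat.add_sub_cancel] at h5
  have hJcard : J.card + A.card = (t + 1) * D.card := by
    rw [hDΛ]
    omega
  have hparity : t = 1 → (∑ x ∈ A, x + ∑ x ∈ J, x + ∑ x ∈ labs D, x) % 2 = 0 := by
    intro ht1
    have h5 := hpty ht1
    have h6 : ∑ x ∈ items par (range n \ Λ), val par f x = ∑ y ∈ Us, y := by
      rw [hUs, Finset.sum_image hinj]
    rw [h6] at h5
    have h7 : ∑ y ∈ J, y + ∑ y ∈ A ∪ Us, y = ∑ y ∈ Icc 1 (2 * n - 1), y := by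
      rw [hJ]
      exact Finset.sum_sdiff hAUI
    rw [Finset.sum_union hAUs] at h7
    have h8 : ∑ y ∈ Icc 1 (2 * n - 1), y = n * (2 * n - 1) := by
      have h9 : (∑ y ∈ range (2 * n), y) * 2 = 2 * n * (2 * n - 1) := Finset.sum_range_id_mul_two _
      have h10 : ∑ y ∈ range (2 * n), y = ∑ y ∈ Icc 1 (2 * n - 1), y := by
        rw [← Finset.sum_subset (s₁ := Icc 1 (2 * n - 1)) (s₂ := range (2 * n))]
        · intro y hy
          rw [mem_Icc] at hy
          exact mem_range.2 (by omega)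
        · intro y hy hy'
          rw [mem_range] at hy
          rw [mem_Icc] at hy'
          omega
      rw [h10] at h9
      have h11 : 2 * n * (2 * n - 1) = n * (2 * n - 1) * 2 := by ring
      rw [h11] at h9
      exact Nat.eq_of_mul_eq_mul_right (by norm_num) h9
    have h12 : n * (2 * n - 1) % 2 = n % 2 := by
      obtain ⟨k, hk⟩ : ∃ k, 2 * n - 1 = 2 * k + 1 := ⟨n - 1, by omega⟩
      rw [hk, Nat.mul_mod]
      have h13 : (2 * k + 1) % 2 = 1 := by omega
      rw [h13, mul_one, Nat.mod_mod]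
    omega
  obtain ⟨b, hb1, hb2, hb3⟩ := h4 J hJI hJA hJL hJcard hparity
  -- the new labels
  have hb1' : ∀ v ∈ Λ, ∃ a, b (u v) = {a, dd a (u v).1, dd a (u v).2} := by
    intro v hvΛ
    obtain ⟨a, ha, -⟩ := hb1 (u v) (hu.mapsTo hvΛ)
    exact ⟨a, ha⟩
  choose! av hav using hb1'
  classical
  obtain ⟨f', hf'⟩ : ∃ f' : ℕ → ℕ, f' = fun i => if i ∈ Λ then av i else f i := ⟨_, rfl⟩
  have hf'1 : ∀ i, i ∉ Λ → f' i = f i := by
    intro i hi
    rw [hf']
    exact if_neg hi
  have hf'2 : ∀ i, i ∈ Λ → f' i = av i := by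
    intro i hi
    rw [hf']
    exact if_pos hi
  have hX : ∀ v ∈ Λ, (zf2X n par v).image (val par f') = b (u v) := by
    intro v hvΛ
    refine zf2_image hvΛ hv hf'1 (hnb v hvΛ) ?_
    rw [hf'2 v hvΛ]
    exact hav v hvΛ
  have hXinj : ∀ v ∈ Λ, Set.InjOn (val par f') (zf2X n par v) := by
    intro v hvΛ
    rw [← card_image_iff, hX v hvΛ, zf2_card_X hpar (hv v hvΛ).1 (mem_range.1 (hΛ hvΛ)),
      (hv v hvΛ).2.1]
    obtain ⟨a, -, -, h5⟩ := hb1 (u v) (hu.mapsTo hvΛ)
    exact h5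
  have hT : ∀ x ∈ items par (range n \ Λ), val par f' x = val par f x := by
    intro x hx
    cases x with
    | inl i =>
      rw [mem_items_inl, mem_sdiff] at hx
      rw [val_inl, val_inl, hf'1 i hx.2]
    | inr i =>
      rw [mem_items_inr, mem_sdiff, mem_sdiff] at hx
      rw [val_inr, val_inr, hf'1 i hx.1.2, hf'1 _ hx.2.2.2]
  have hTU : ∀ x ∈ items par (range n \ Λ), val par f' x ∈ Us := by
    intro x hx
    rw [hT x hx, hUs]
    exact mem_image_of_mem _ hx
  have hXb : ∀ v ∈ Λ, ∀ x ∈ zf2X n par v, val par f' x ∈ b (u v) := by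
    intro v hvΛ x hx
    rw [← hX v hvΛ]
    exact mem_image_of_mem _ hx
  have hbAJ : ∀ v ∈ Λ, b (u v) ⊆ A ∪ J := by
    intro v hvΛ
    rw [← hb3]
    exact subset_biUnion_of_mem b (hu.mapsTo hvΛ)
  have hbU : ∀ v ∈ Λ, Disjoint (b (u v)) Us := by
    intro v hvΛ
    refine disjoint_of_subset_left (hbAJ v hvΛ) ?_
    rw [disjoint_union_left]
    exact ⟨hAUs, hJU⟩
  refine ⟨f', ?_, ?_⟩
  · intro x hx y hy hxy
    rw [zf2_split hpar hΛ hv, mem_coe, mem_union, mem_biUnion] at hx hy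
    rcases hx with hx | ⟨v, hvΛ, hx⟩ <;> rcases hy with hy | ⟨w, hwΛ, hy⟩
    · rw [hT x hx, hT y hy] at hxy
      exact hinj hx hy hxy
    · exfalso
      have h5 := hTU x hx
      rw [hxy] at h5
      exact (disjoint_left.1 (hbU w hwΛ)) (hXb w hwΛ y hy) h5
    · exfalso
      have h5 := hTU y hy
      rw [← hxy] at h5
      exact (disjoint_left.1 (hbU v hvΛ)) (hXb v hvΛ x hx) h5
    · by_cases hvw : v = w
      · subst hvw
        exact hXinj v hvΛ hx hy hxy
      · exfalso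
        have h5 : u v ≠ u w := fun h => hvw (hu.injOn hvΛ hwΛ h)
        have h6 := hb2 (u v) (hu.mapsTo hvΛ) (u w) (hu.mapsTo hwΛ) h5
        have h7 := hXb v hvΛ x hx
        rw [hxy] at h7
        exact (disjoint_left.1 h6) h7 (hXb w hwΛ y hy)
  · intro x hx
    have h5 : val par f' x ∈ Icc 1 (2 * n - 1) := by
      rw [zf2_split hpar hΛ hv, mem_union, mem_biUnion] at hx
      rcases hx with hx | ⟨v, hvΛ, hx⟩
      · exact hUsI (hTU x hx)
      · exact (union_subset hAI hJI) (hbAJ v hvΛ (hXb v hvΛ x hx))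
    exact mem_Icc.1 h5

end SSB
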