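import Pool.Agent.Lib.MP_8a819d_co.BD.Em4
import Pool.Agent.Lib.MP_8a819d_co.BD.Late

/-!
# MP_8a819d_co: embedding, 5. Parity and the embedding theorem

JOB Em5: `parity_odd`. JOB Em6: `emb`.

Em5. (`t = 1`) All degrees are odd; `Λ` consists of vertices `v ≥ 1` without children; `v ↦ f (par v)` is a bijection of `Λ` to `labs D`. Let
`T = range n \ Λ`. The items of `T` are `inl v`, `v ∈ T`, and `inr v`, `v ∈ T`, `v ≥ 1` (`par v ∉ Λ` because the elements of `Λ` have no children), and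
`val (inr v) ≡ f v + f (par v)` mod 2. So `∑ items ≡ ∑ v ∈ T, f v (1 + [v ≥ 1]) + ∑ v ∈ T, v ≥ 1, f (par v)`. The last sum is
`∑ v ∈ range n, v ≥ 1, f (par v) - ∑ v ∈ Λ, f (par v) = ∑ u ∈ range n, |chs u| f u - ∑ labs D`, and `|chs u| = 0` for `u ∈ Λ`. Total
`≡ ∑ u ∈ T, f u (1 + pdeg u) - ∑ labs D ≡ ∑ labs D`. Also `∑ u, pdeg u = 2 (n - 1)` is even and congruent to `n` (all degrees odd), so `n` is even.
Em6. `ε_c` from `emb_core t ht Δ`, `ε = min ε_c (1 / (16 (Δ + 1)))`. Given `ζ ≤ ε`, `β`: `β' = min β ε_c`, `l, N₁` and `R` from `late Δ ζ β'`; `n₀` from `emb_core` for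
`β, l` (and `2 n₀ - 1 ≥ N₁`, `n₀ ≥ 1`). `R ⊆ Icc 1 N` (`x > ζ N ≥ 0`). `AbsData` with `ε` gives `AbsData` with `ε_c`. `v₀`: if `t = 1` and some vertex has even
degree, such a vertex; otherwise `v₀ = 0`. `emb_core` gives `S, ty, f, W, Λ`. Let `T = range n \ Λ`. `v₀ ∈ S`: `v₀ ∉ Λ` (`ty_S`), `v₀ ∉ W`. Use `late` (first
part, or the second part with `b = ∑ labs D + n` if `v₀` has even degree): `f'`. (`wdeg n par T v₀ = pdeg n par v₀`: the neighbours of `v₀ ∈ S` are not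
of type `U` by `TyOK.U1`, so they are in `T`.) `f' = f` on `W ∋ par v, c`. Conclusions with `u v = unitOf D (f' (par v))`:
`Λ ⊆ range n`; for `v ∈ Λ`: `1 ≤ v`, `pdeg = t` (`U1`), `par v`, children in `W`, so not in `Λ`. The values of items of `T`: those of `W` are in `[1, N] \ A`; the
others are in `R`, which is in `[1, N]` and disjoint from `A`. Parity for `t = 1`: `late` or `parity_odd` (`chs = ∅` for `v ∈ Λ` since `pdeg = 1`, `v ≥ 1`; `f' (par v)` is the
label of the unit: `BijOn (fun v => f' (par v)) Λ (labs D)` from the bijection with `unitOf` and `d.1 = d.2`).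
-/

set_option autoImplicit false

namespace SSB

open Finset

private theorem em5_dd (a b : ℕ) : ((dd a b : ℕ) : ZMod 2) = a + b := by
  have h1 : dd a b % 2 = (a + b) % 2 := by
    unfold dd
    omega
  have h2 : ((dd a b : ℕ) : ZMod 2) = ((a + b : ℕ) : ZMod 2) :=
    (ZMod.natCast_eq_natCast_iff' _ _ _).2 h1
  rw [h2, Nat.cast_add]

private theorem em5_chs {n : ℕ} {par : ℕ → ℕ} (hpar : IsPar n par) (G : ℕ → ZMod 2) :
    ∑ v ∈ (range n).filter (fun v => 1 ≤ v), G (par v) =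
      ∑ u ∈ range n, ((chs n par u).card : ZMod 2) * G u := by
  classical
  rw [← sum_fiberwise_of_maps_to (t := range n) (g := par) fun v hv => by
    rw [mem_filter, mem_range] at hv
    exact mem_range.2 ((hpar v hv.2 hv.1).trans hv.1)]
  refine sum_congr rfl fun u _ => ?_
  have h1 : ((range n).filter (fun v => 1 ≤ v)).filter (fun v => par v = u) = chs n par u := by
    ext v
    rw [mem_filter, mem_filter, mem_range, mem_chs, and_assoc]
  rw [h1]
  have h2 : ∑ v ∈ chs n par u, G (par v) = ∑ _v ∈ chs n par u, G u :=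
    sum_congr rfl fun v hv => by rw [(mem_chs.1 hv).2.2]
  rw [h2, sum_const, nsmul_eq_mul]

theorem parity_odd {n : ℕ} {par : ℕ → ℕ} (hpar : IsPar n par) (hn : 1 ≤ n)
    (hodd : ∀ i < n, pdeg n par i % 2 = 1) {Λ : Finset ℕ} (hΛ : Λ ⊆ range n)
    (hΛ1 : ∀ v ∈ Λ, 1 ≤ v ∧ chs n par v = ∅) {f : ℕ → ℕ} {Lb : Finset ℕ}
    (hbij : Set.BijOn (fun v => f (par v)) Λ Lb) :
    (∑ x ∈ items par (range n \ Λ), val par f x + ∑ c ∈ Lb, c + n) % 2 = 0 := by
  classical
  have hparT : ∀ v ∈ range n \ Λ, 1 ≤ v → par v ∈ range n \ Λ := fun v hv h1 => by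
    rw [mem_sdiff, mem_range] at hv ⊢
    refine ⟨(hpar v h1 hv.1).trans hv.1, fun hΛ' => ?_⟩
    have h2 : v ∈ chs n par (par v) := mem_chs.2 ⟨hv.1, h1, rfl⟩
    rw [(hΛ1 _ hΛ').2] at h2
    exact absurd h2 (notMem_empty v)
  -- the sum over the items
  have e1 : ((∑ x ∈ items par (range n \ Λ), val par f x : ℕ) : ZMod 2) =
      ∑ v ∈ range n \ Λ, (f v : ZMod 2) +
        ∑ v ∈ (range n \ Λ).filter (fun v => 1 ≤ v), ((f v : ZMod 2) + f (par v)) := by
    have h2 : (range n \ Λ).filter (fun i => 1 ≤ i ∧ par i ∈ range n \ Λ) =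
        (range n \ Λ).filter (fun v => 1 ≤ v) :=
      filter_congr fun v hv => ⟨fun h => h.1, fun h => ⟨h, hparT v hv h⟩⟩
    have h3 : Disjoint ((range n \ Λ).image Sum.inl : Finset (ℕ ⊕ ℕ))
        (((range n \ Λ).filter (fun v => 1 ≤ v)).image Sum.inr) := by
      rw [disjoint_left]
      intro x hx hx'
      obtain ⟨a, -, rfl⟩ := mem_image.1 hx
      obtain ⟨b, -, hb⟩ := mem_image.1 hx'
      exact absurd hb Sum.inr_ne_inl
    unfold items
    rw [h2, sum_union h3, sum_image (fun a _ b _ h => Sum.inl.inj h),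
      sum_image (fun a _ b _ h => Sum.inr.inj h), Nat.cast_add, Nat.cast_sum, Nat.cast_sum]
    refine congrArg₂ (· + ·) rfl (sum_congr rfl fun v _ => ?_)
    exact em5_dd _ _
  -- the sum of the labels
  have e2 : ((∑ c ∈ Lb, c : ℕ) : ZMod 2) = ∑ v ∈ Λ, (f (par v) : ZMod 2) := by
    rw [Nat.cast_sum]
    symm
    refine sum_bij (fun v _ => f (par v)) (fun v hv => ?_) (fun v hv w hw h => ?_)
      (fun c hc => ?_) (fun v hv => rfl)
    · exact mem_coe.1 (hbij.mapsTo (mem_coe.2 hv))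
    · exact hbij.injOn (mem_coe.2 hv) (mem_coe.2 hw) h
    · obtain ⟨v, hv, hvc⟩ := hbij.surjOn (mem_coe.2 hc)
      exact ⟨v, mem_coe.1 hv, hvc⟩
  -- the number of children
  have e3 : ∑ v ∈ (range n \ Λ).filter (fun v => 1 ≤ v), (f (par v) : ZMod 2) +
      ∑ v ∈ Λ, (f (par v) : ZMod 2) =
        ∑ u ∈ range n \ Λ, ((chs n par u).card : ZMod 2) * f u := by
    have h1 : (range n).filter (fun v => 1 ≤ v) =
        (range n \ Λ).filter (fun v => 1 ≤ v) ∪ Λ := by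
      ext v
      simp only [mem_filter, mem_union, mem_sdiff]
      constructor
      · rintro ⟨h1, h2⟩
        by_cases hv : v ∈ Λ
        · exact Or.inr hv
        · exact Or.inl ⟨⟨h1, hv⟩, h2⟩
      · rintro (⟨⟨h1, -⟩, h2⟩ | h)
        · exact ⟨h1, h2⟩
        · exact ⟨hΛ h, (hΛ1 v h).1⟩
    have h2 : Disjoint ((range n \ Λ).filter (fun v => 1 ≤ v)) Λ :=
      disjoint_of_subset_left (filter_subset _ _) sdiff_disjoint
    have h3 := em5_chs hpar (fun u => (f u : ZMod 2))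
    rw [h1, sum_union h2] at h3
    rw [h3, ← sum_sdiff hΛ, add_eq_left]
    refine sum_eq_zero fun u hu => ?_
    rw [(hΛ1 u hu).2, card_empty, Nat.cast_zero, zero_mul]
  -- the degrees
  have e4 : ∀ u < n, ((chs n par u).card : ZMod 2) + (if u = 0 then 0 else 1) = 1 := fun u hu => by
    have h1 := hodd u hu
    unfold pdeg at h1
    have h2 : (((chs n par u).card + (if u = 0 then 0 else 1) : ℕ) : ZMod 2) = ((1 : ℕ) : ZMod 2) :=
      (ZMod.natCast_eq_natCast_iff' _ _ _).2 h1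
    rw [Nat.cast_one, Nat.cast_add] at h2
    refine Eq.trans ?_ h2
    refine congrArg₂ (· + ·) rfl ?_
    by_cases hu0 : u = 0
    · rw [if_pos hu0, if_pos hu0, Nat.cast_zero]
    · rw [if_neg hu0, if_neg hu0, Nat.cast_one]
  have e5 : (n : ZMod 2) = 0 := by
    have h1 := em5_chs hpar (fun _ => (1 : ZMod 2))
    have h2 : ∑ u ∈ range n, (((chs n par u).card : ZMod 2) + (if u = 0 then 0 else 1)) =
        ∑ u ∈ range n, (1 : ZMod 2) := sum_congr rfl fun u hu => e4 u (mem_range.1 hu)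
    have h3 : ∑ v ∈ (range n).filter (fun v => 1 ≤ v), (1 : ZMod 2) =
        ∑ u ∈ range n, (if u = 0 then (0 : ZMod 2) else 1) := by
      rw [sum_filter]
      refine sum_congr rfl fun u _ => ?_
      by_cases hu : u = 0
      · rw [if_pos hu, if_neg (by omega)]
      · rw [if_neg hu, if_pos (by omega)]
    rw [sum_add_distrib, ← h3, h1] at h2
    simp only [mul_one] at h2
    rw [← two_mul, sum_const, card_range, nsmul_eq_mul, mul_one] at h2
    rw [← h2]
    have h4 : (2 : ZMod 2) = 0 := rfl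
    rw [h4, zero_mul]
  have e6 : ((∑ x ∈ items par (range n \ Λ), val par f x + ∑ c ∈ Lb, c + n : ℕ) : ZMod 2) =
      0 := by
    rw [Nat.cast_add, Nat.cast_add, e1, e2, e5, add_zero, sum_add_distrib, add_assoc, add_assoc,
      e3]
    have h1 : ∑ v ∈ (range n \ Λ).filter (fun v => 1 ≤ v), (f v : ZMod 2) =
        ∑ u ∈ range n \ Λ, (if u = 0 then (0 : ZMod 2) else 1) * f u := by
      rw [sum_filter]
      refine sum_congr rfl fun u _ => ?_
      by_cases hu : u = 0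
      · rw [if_pos hu, if_neg (by omega), zero_mul]
      · rw [if_neg hu, if_pos (by omega), one_mul]
    rw [h1, ← sum_add_distrib, ← sum_add_distrib]
    refine sum_eq_zero fun u hu => ?_
    have h2 := e4 u (mem_range.1 (mem_sdiff.1 hu).1)
    have h3 : (f u : ZMod 2) + ((if u = 0 then (0 : ZMod 2) else 1) * f u +
        ((chs n par u).card : ZMod 2) * f u) =
        (1 + (((chs n par u).card : ZMod 2) + (if u = 0 then 0 else 1))) * f u := by ring
    have h4 : (1 : ZMod 2) + 1 = 0 := rfl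
    rw [h3, h2, h4, zero_mul]
  have h7 := (ZMod.natCast_eq_zero_iff _ _).1 e6
  exact Nat.mod_eq_zero_of_dvd h7

private theorem em6_wdeg {n t : ℕ} {par : ℕ → ℕ} (hpar : IsPar n par) {S : Finset ℕ} {ty : ℕ → Ty}
    (hTy : TyOK n par t S ty) {Λ : Finset ℕ} (hΛ : ∀ v ∈ Λ, v < n ∧ ty v = Ty.U) {v₀ : ℕ}
    (hv : v₀ < n) (hS : v₀ ∈ S) : wdeg n par (range n \ Λ) v₀ = pdeg n par v₀ := by
  unfold wdeg pdeg
  have h1 : (chs n par v₀).filter (· ∈ range n \ Λ) = chs n par v₀ := by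
    refine filter_true_of_mem fun c hc => ?_
    obtain ⟨h1, h2, h3⟩ := mem_chs.1 hc
    rw [mem_sdiff, mem_range]
    refine ⟨h1, fun hcΛ => ?_⟩
    have h4 := (hTy.U1 c h1 (hΛ c hcΛ).2).2.2.2.1
    rw [h3] at h4
    exact h4 hS
  rw [h1]
  rcases Nat.eq_zero_or_pos v₀ with h0 | h0
  · rw [if_neg (by omega), if_pos h0]
  · rw [if_neg (by omega : ¬ v₀ = 0)]
    have h2 : par v₀ ∈ range n \ Λ := by
      rw [mem_sdiff, mem_range]
      have h3 := hpar v₀ h0 hv
      refine ⟨by omega, fun hc => ?_⟩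
      have h4 := (hTy.U1 (par v₀) (by omega) (hΛ _ hc).2).2.2.2.2.2 v₀
        (mem_chs.2 ⟨hv, h0, rfl⟩)
      exact h4.1 hS
    rw [if_pos ⟨h0, h2⟩]

private theorem em6_val {par : ℕ → ℕ} {W : Finset ℕ} {f f' : ℕ → ℕ} (h : ∀ i ∈ W, f' i = f i)
    {x : ℕ ⊕ ℕ} (hx : x ∈ items par W) : val par f' x = val par f x := by
  rcases x with i | i
  · rw [mem_items_inl] at hx
    exact h i hx
  · rw [mem_items_inr] at hx
    rw [val_inr, val_inr, h i hx.1, h _ hx.2.2]

private theorem em6_bij {D : Finset (ℕ × ℕ)} (hU : UnitOK 1 D) :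
    Set.BijOn (fun d : ℕ × ℕ => d.1) (D : Set (ℕ × ℕ)) (labs D : Finset ℕ) := by
  have h1 := hU.1 rfl
  refine ⟨fun d hd => ?_, fun d hd d' hd' h => ?_, fun x hx => ?_⟩
  · exact mem_coe.2 (mem_labs.2 ⟨d, mem_coe.1 hd, Or.inl rfl⟩)
  · have h2 := h1 d (mem_coe.1 hd)
    have h3 := h1 d' (mem_coe.1 hd')
    have h4 : d.1 = d'.1 := h
    exact Prod.ext h4 (by rw [← h2, ← h3, h4])
  · obtain ⟨d, hd, h2⟩ := mem_labs.1 (mem_coe.1 hx)
    refine ⟨d, mem_coe.2 hd, ?_⟩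
    have h3 := h1 d hd
    rcases h2 with h2 | h2
    · exact h2.symm
    · exact h3.trans h2.symm

theorem emb (t : ℕ) (ht : t = 1 ∨ t = 2) : EmbStatement t := by
  intro Δ
  obtain ⟨εc, hεc, hcore⟩ := emb_core t ht Δ
  have hΔ : (0 : ℝ) < 16 * ((Δ : ℝ) + 1) := by positivity
  refine ⟨min εc (1 / (16 * ((Δ : ℝ) + 1))), lt_min hεc (by positivity), ?_⟩
  intro ζ hζ hζε β hβ
  have hζ1 : ζ * (16 * ((Δ : ℝ) + 1)) ≤ 1 := by
    have h1 : ζ ≤ 1 / (16 * ((Δ : ℝ) + 1)) := hζε.trans (min_le_right _ _)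
    rwa [le_div_iff₀ hΔ] at h1
  obtain ⟨l, hl, N₁, hlate⟩ := late Δ ζ (min β εc) hζ hζ1 (lt_min hβ hεc)
  obtain ⟨n₁, hcore⟩ := hcore β hβ l hl
  refine ⟨max (max n₁ N₁) 1, fun n hn => ?_⟩
  have hn1 : n₁ ≤ n := le_trans (le_trans (le_max_left _ _) (le_max_left _ _)) hn
  have hN1 : N₁ ≤ n := le_trans (le_trans (le_max_right _ _) (le_max_left _ _)) hn
  have hn0 : 1 ≤ n := le_trans (le_max_right _ _) hn
  obtain ⟨R, hR1, hR2, hR3⟩ := hlate (2 * n - 1) (by omega)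
  have hN0 : (0 : ℝ) ≤ ((2 * n - 1 : ℕ) : ℝ) := Nat.cast_nonneg _
  have hRβ : (R.card : ℝ) ≤ β * ((2 * n - 1 : ℕ) : ℝ) :=
    hR2.trans (mul_le_mul_of_nonneg_right (min_le_left _ _) hN0)
  have hRε : (R.card : ℝ) ≤ εc * ((2 * n - 1 : ℕ) : ℝ) :=
    hR2.trans (mul_le_mul_of_nonneg_right (min_le_right _ _) hN0)
  refine ⟨R, hR1, hRβ, ?_⟩
  intro A D hAbs par hpar hdeg hcnt
  have hRI : R ⊆ Icc 1 (2 * n - 1) := by
    intro x hx
    obtain ⟨h1, h2⟩ := hR1 x hx
    rw [mem_Icc]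
    refine ⟨?_, h2⟩
    have h3 : (0 : ℝ) < x := lt_of_le_of_lt (mul_nonneg hζ.le hN0) h1
    exact_mod_cast h3
  have hAbs' : AbsData t (2 * n - 1) R A D εc β :=
    { A_sub := hAbs.A_sub
      D_sub := hAbs.D_sub
      AD := hAbs.AD
      AR := hAbs.AR
      DR := hAbs.DR
      unit := hAbs.unit
      A_le := hAbs.A_le.trans (mul_le_mul_of_nonneg_right (min_le_left _ _) hN0)
      D_le := hAbs.D_le.trans (mul_le_mul_of_nonneg_right (min_le_left _ _) hN0)
      gap := hAbs.gap }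
  obtain ⟨v₀, hv₀, hv₀e⟩ : ∃ v₀ < n, (pdeg n par v₀ % 2 = 0) ∨
      (t = 1 → ∀ i < n, pdeg n par i % 2 = 1) := by
    by_cases hev : ∃ i < n, pdeg n par i % 2 = 0
    · obtain ⟨i, hi, h⟩ := hev
      exact ⟨i, hi, Or.inl h⟩
    · refine ⟨0, by omega, Or.inr fun _ i hi => ?_⟩
      by_contra hc
      exact hev ⟨i, hi, by omega⟩
  obtain ⟨S, ty, f, W, Λ, hTy, hSn, hv₀S, hΛ, hdisj, hWS, hinj, hval, hnb, hbij, hins, hcard⟩ :=
    hcore n hn1 R A D hRI hRε hRβ hAbs' par hpar hdeg hcnt v₀ hv₀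
  have hWT : W ⊆ range n \ Λ := by
    intro x hx
    rw [mem_sdiff]
    exact ⟨(mem_sdiff.1 (hWS hx)).1, fun h => disjoint_left.1 hdisj hx h⟩
  have hTn : range n \ Λ ⊆ range n := sdiff_subset
  obtain ⟨hfst, hsnd⟩ := hR3 n par hpar hdeg (range n \ Λ) W f hWT hTn hinj
    (fun x hx => ⟨(hval x hx).1, (hval x hx).2.1, (hval x hx).2.2.2⟩) hcard
  have hΛn : Λ ⊆ range n := fun v hv => mem_range.2 (hΛ v hv).1
  have hU1 : ∀ v ∈ Λ, 1 ≤ v ∧ pdeg n par v = t := fun v hv => by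
    have := hTy.U1 v (hΛ v hv).1 (hΛ v hv).2
    exact ⟨this.1, this.2.2.1⟩
  -- the function with the right parity
  obtain ⟨f', hf'1, hf'2, hf'3, hpty⟩ : ∃ f' : ℕ → ℕ, (∀ i ∈ W, f' i = f i) ∧
      Set.InjOn (val par f') (items par (range n \ Λ)) ∧
      (∀ x ∈ items par (range n \ Λ), x ∉ items par W → val par f' x ∈ R) ∧
      (t = 1 → (∑ x ∈ items par (range n \ Λ), val par f' x + ∑ c ∈ labs D, c + n) % 2 = 0) := by
    rcases hv₀e with he | ho
    · have hv₀T : v₀ ∈ (range n \ Λ) \ W := by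
        rw [mem_sdiff, mem_sdiff, mem_range]
        refine ⟨⟨hv₀, fun hc => ?_⟩, fun hc => (mem_sdiff.1 (hWS hc)).2 hv₀S⟩
        have h1 := (hΛ v₀ hc).2
        rw [hTy.ty_S v₀ hv₀S] at h1
        cases h1
      have hw : wdeg n par (range n \ Λ) v₀ % 2 = 0 := by
        rw [em6_wdeg hpar hTy hΛ hv₀ hv₀S]
        exact he
      obtain ⟨f', h1, h2, h3, h4⟩ := hsnd v₀ hv₀T hw (∑ c ∈ labs D, c + n)
      refine ⟨f', h1, h2, h3, fun _ => ?_⟩
      rw [add_assoc]
      exact h4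
    · obtain ⟨f', h1, h2, h3⟩ := hfst
      refine ⟨f', h1, h2, h3, fun ht1 => ?_⟩
      have hch : ∀ v ∈ Λ, 1 ≤ v ∧ chs n par v = ∅ := by
        intro v hv
        obtain ⟨h4, h5⟩ := hU1 v hv
        refine ⟨h4, ?_⟩
        unfold pdeg at h5
        rw [if_neg (by omega : ¬ v = 0)] at h5
        exact card_eq_zero.1 (by omega)
      have hUn : UnitOK 1 D := ht1 ▸ hAbs.unit
      have hb1 : Set.BijOn (fun v => (unitOf D (f (par v))).1) (Λ : Set ℕ) (labs D : Finset ℕ) :=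
        (em6_bij hUn).comp hbij
      have hb2 : Set.BijOn (fun v => f' (par v)) (Λ : Set ℕ) (labs D : Finset ℕ) := by
        refine hb1.congr fun v hv => ?_
        have hvΛ := mem_coe.1 hv
        have h5 := hins v hvΛ
        rw [(hch v hvΛ).2, image_empty] at h5
        have h6 : (unitOf D (f (par v))).1 ∈
            ({(unitOf D (f (par v))).1, (unitOf D (f (par v))).2} : Finset ℕ) := by
          simp
        rw [← h5] at h6
        have h7 : (unitOf D (f (par v))).1 = f (par v) := by simpa using h6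
        show (unitOf D (f (par v))).1 = f' (par v)
        rw [h7, h1 _ (hnb v hvΛ).1]
      exact parity_odd hpar hn0 (ho ht1) hΛn hch hb2
  refine ⟨Λ, fun v => unitOf D (f' (par v)), f', hΛn, ?_, ?_, ?_, hf'2, ?_, hpty⟩
  · intro v hv
    refine ⟨(hU1 v hv).1, (hU1 v hv).2, fun hc => disjoint_left.1 hdisj (hnb v hv).1 hc,
      fun c hc hc' => disjoint_left.1 hdisj ((hnb v hv).2 c hc) hc'⟩
  · refine hbij.congr fun v hv => ?_
    show unitOf D (f (par v)) = unitOf D (f' (par v))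
    rw [hf'1 _ (hnb v (mem_coe.1 hv)).1]
  · intro v hv
    have h1 : f' (par v) = f (par v) := hf'1 _ (hnb v hv).1
    have h2 : (chs n par v).image f' = (chs n par v).image f :=
      image_congr fun c hc => hf'1 c ((hnb v hv).2 c (mem_coe.1 hc))
    show insert (f' (par v)) ((chs n par v).image f') =
      {(unitOf D (f' (par v))).1, (unitOf D (f' (par v))).2}
    rw [h1, h2]
    exact hins v hv
  · intro x hx
    by_cases hxW : x ∈ items par W
    · rw [em6_val hf'1 hxW]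
      exact ⟨(hval x hxW).1, (hval x hxW).2.1, (hval x hxW).2.2.1⟩
    · have h1 := hf'3 x hx hxW
      have h2 := mem_Icc.1 (hRI h1)
      exact ⟨h2.1, h2.2, fun hc => disjoint_left.1 hAbs.AR hc h1⟩

end SSB
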