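import Pool.Agent.Lib.MP_8a819d_co.BD.Ker1

/-!
# MP_8a819d_co: the exact kernel, 7. The base kernel

JOB Ker7 (all of this file). `k0 p = 2/N` on the allowed pairs with `N ≤ m p.1`.

* `k0_load`: let `a ∈ Q`, `|[1,N] \ Q| ≤ s N`. The load is
  `(ω/2) (2/N) n₁ + (2/N) n₂` with `n₁ = #{y : {a, y} allowed, N ≤ m min(a, y)}`,
  `n₂ = #{x : (x, x + a) allowed, N ≤ m x}`.
  `n₁`: the `y ∈ [1, N]` with `y > N - a` are `a` in number; `n₁` is at most that and at least that
  minus `s N` (`y ∉ Q`), minus `2 (s N + 1)` (`|a - y| ∉ Q`, including `y = a`; `0 ≤ |a-y| ≤ N`), minus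
  `N / m` (if `m a < N` remove all `a ≤ N/m` of them; otherwise those with `m y < N`).
  `n₂`: the `x ≥ 1` with `x + a ≤ N`, `2 x + a > N` are between `(N - a)/2 - 1` and `(N - a)/2 + 1` in
  number; remove at most `2 s N` (`x ∉ Q` or `x + a ∉ Q`) and `N / m` (`m x < N`).
  So the load differs from `ω a / N + (N - a) / N = 1 + (ω - 1) a / N` by at most
  `ω (3 s + 2/N + 1/m) + (4 s + 2/m + 2/N) ≤ 11 s + 4/m + 6/N` (`0 ≤ ω ≤ 101/100`).
* `deg_count`: for `x` with `N ≤ m x`, `x ≤ N`, the number of `y ∈ Q` with `y ≠ x`, `|x - y| ∈ Q`, `x + y > N`,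
  `N ≤ m y` is at least `N / (2 m)`, if `100 m s ≤ 1`, `m ≥ 100`, `N ≥ 100 m`: the `y ∈ (N - x, N]` are `x`
  in number; remove at most `3 s N + 2` for the membership conditions; those with `m y < N` are none if
  `x ≤ N/2` (then `y > N - x ≥ N/2`), and at most `N / m` if `x > N/2`.
-/

set_option autoImplicit false

namespace SSB

open Finset

open Classical in
noncomputable def k0 (N m : ℕ) (Q : Finset ℕ) : ℕ × ℕ → ℝ := fun p =>
  if p ∈ prs N Q ∧ N ≤ m * p.1 then 2 / N else 0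

private def ker7aY (N m : ℕ) (Q : Finset ℕ) (a : ℕ) : Finset ℕ :=
  (Ioc (N - a) N).filter (fun y => y ∈ Q ∧ y ≠ a ∧ dd a y ∈ Q ∧ N ≤ m * min a y)

private def ker7aZ (N m : ℕ) (Q : Finset ℕ) (a : ℕ) : Finset ℕ :=
  (Ioc ((N - a) / 2) (N - a)).filter (fun x => x ∈ Q ∧ x + a ∈ Q ∧ N ≤ m * x)

private theorem ker7a_c12 {N m : ℕ} {Q : Finset ℕ} (hQ : Q ⊆ Icc 1 N) {a : ℕ} (ha : a ∈ Q) :
    (((prs N Q).filter (fun p => N ≤ m * p.1)).filter (fun p => p.1 = a)).card +
      (((prs N Q).filter (fun p => N ≤ m * p.1)).filter (fun p => p.2 = a)).card =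
      (ker7aY N m Q a).card := by
  have ha1 := mem_Icc.1 (hQ ha)
  rw [← card_union_of_disjoint]
  · apply Finset.card_nbij' (fun p => p.1 + p.2 - a) (fun y => (min a y, max a y))
    · rintro ⟨x, y⟩ hp
      simp only [coe_union, coe_filter, Set.mem_union, Set.mem_ofPred_eq, prs, mem_filter,
        mem_product] at hp
      simp only [ker7aY, coe_filter, Set.mem_ofPred_eq, mem_Ioc]
      rcases hp with ⟨⟨⟨⟨hx, hy⟩, h1, h2, h3⟩, h4⟩, h5⟩ | ⟨⟨⟨⟨hx, hy⟩, h1, h2, h3⟩, h4⟩, h5⟩
      · subst h5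
        have hy1 := mem_Icc.1 (hQ hy)
        have e : x + y - x = y := by omega
        rw [e]
        refine ⟨⟨by omega, hy1.2⟩, hy, by omega, ?_, ?_⟩
        · have : dd x y = y - x := by unfold dd; omega
          rw [this]; exact h2
        · rw [min_eq_left h1.le]; exact h4
      · subst h5
        have hx1 := mem_Icc.1 (hQ hx)
        have e : x + y - y = x := by omega
        rw [e]
        refine ⟨⟨by omega, hx1.2⟩, hx, by omega, ?_, ?_⟩
        · have : dd y x = y - x := by unfold dd; omega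
          rw [this]; exact h2
        · rw [min_eq_right h1.le]; exact h4
    · intro y hy
      simp only [ker7aY, coe_filter, Set.mem_ofPred_eq, mem_Ioc] at hy
      obtain ⟨⟨h1, h2⟩, h3, h4, h5, h6⟩ := hy
      simp only [coe_union, coe_filter, Set.mem_union, Set.mem_ofPred_eq, prs, mem_filter,
        mem_product]
      rcases lt_or_gt_of_ne h4 with h | h
      · right
        rw [min_eq_right h.le, max_eq_left h.le]
        rw [min_eq_right h.le] at h6
        have : dd a y = a - y := by unfold dd; omega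
        rw [this] at h5
        exact ⟨⟨⟨⟨h3, ha⟩, h, h5, by omega⟩, h6⟩, rfl⟩
      · left
        rw [min_eq_left h.le, max_eq_right h.le]
        rw [min_eq_left h.le] at h6
        have : dd a y = y - a := by unfold dd; omega
        rw [this] at h5
        exact ⟨⟨⟨⟨ha, h3⟩, h, h5, by omega⟩, h6⟩, rfl⟩
    · rintro ⟨x, y⟩ hp
      simp only [coe_union, coe_filter, Set.mem_union, Set.mem_ofPred_eq, prs, mem_filter,
        mem_product] at hp
      rcases hp with ⟨⟨⟨⟨hx, hy⟩, h1, h2, h3⟩, h4⟩, h5⟩ | ⟨⟨⟨⟨hx, hy⟩, h1, h2, h3⟩, h4⟩, h5⟩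
      · subst h5
        have e : x + y - x = y := by omega
        simp only [e]
        rw [min_eq_left h1.le, max_eq_right h1.le]
      · subst h5
        have e : x + y - y = x := by omega
        simp only [e]
        rw [min_eq_right h1.le, max_eq_left h1.le]
    · intro y hy
      simp only
      rcases le_total a y with h | h
      · rw [min_eq_left h, max_eq_right h]; omega
      · rw [min_eq_right h, max_eq_left h]; omega
  · rw [disjoint_left]
    rintro ⟨x, y⟩ hp hq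
    simp only [prs, mem_filter, mem_product] at hp hq
    omega

private theorem ker7a_c3 {N m : ℕ} {Q : Finset ℕ} (hQ : Q ⊆ Icc 1 N) {a : ℕ} (ha : a ∈ Q) :
    (((prs N Q).filter (fun p => N ≤ m * p.1)).filter (fun p => p.2 - p.1 = a)).card =
      (ker7aZ N m Q a).card := by
  have ha1 := mem_Icc.1 (hQ ha)
  apply Finset.card_nbij' (fun p => p.1) (fun x => (x, x + a))
  · rintro ⟨x, y⟩ hp
    simp only [coe_filter, Set.mem_ofPred_eq, prs, mem_filter, mem_product] at hp
    simp only [ker7aZ, coe_filter, Set.mem_ofPred_eq, mem_Ioc]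
    obtain ⟨⟨⟨⟨hx, hy⟩, h1, h2, h3⟩, h4⟩, h5⟩ := hp
    have hy1 := mem_Icc.1 (hQ hy)
    have e : x + a = y := by omega
    refine ⟨⟨by omega, by omega⟩, hx, ?_, h4⟩
    rw [e]; exact hy
  · intro x hx
    simp only [ker7aZ, coe_filter, Set.mem_ofPred_eq, mem_Ioc] at hx
    simp only [coe_filter, Set.mem_ofPred_eq, prs, mem_filter, mem_product]
    obtain ⟨⟨h1, h2⟩, h3, h4, h5⟩ := hx
    have e : x + a - x = a := by omega
    rw [e]
    exact ⟨⟨⟨⟨h3, h4⟩, by omega, ha, by omega⟩, h5⟩, rfl⟩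
  · rintro ⟨x, y⟩ hp
    simp only [coe_filter, Set.mem_ofPred_eq, prs, mem_filter, mem_product] at hp
    simp only [Prod.mk.injEq, true_and]
    omega
  · intro x hx
    rfl

private theorem ker7a_Q {N : ℕ} {Q : Finset ℕ} (hQ : Q ⊆ Icc 1 N) :
    (Icc 1 N \ Q).card + Q.card = N := by
  rw [card_sdiff_add_card_eq_card hQ, Nat.card_Icc]
  omega

private theorem ker7a_Y_le {N m : ℕ} {Q : Finset ℕ} (a : ℕ) (haN : a ≤ N) :
    (ker7aY N m Q a).card ≤ a := by
  refine (card_filter_le _ _).trans ?_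
  rw [Nat.card_Ioc]
  omega

private theorem ker7a_Y_ge {N m : ℕ} (hm : 1 ≤ m) {Q : Finset ℕ} (hQ : Q ⊆ Icc 1 N) {a : ℕ}
    (ha : a ∈ Q) : a ≤ (ker7aY N m Q a).card + 3 * (Icc 1 N \ Q).card + 1 + N / m := by
  classical
  have ha1 := mem_Icc.1 (hQ ha)
  set W := Icc 1 N \ Q with hW
  have hB3 : ((Ioc (N - a) N).filter (fun y => m * min a y < N)).card ≤ N / m := by
    rcases lt_or_ge (m * a) N with h | h
    · have h1 : a ≤ N / m := by
        rw [Nat.le_div_iff_mul_le (by omega)]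
        rw [Nat.mul_comm]; exact h.le
      refine (card_filter_le _ _).trans ?_
      rw [Nat.card_Ioc]
      omega
    · have h1 : (Ioc (N - a) N).filter (fun y => m * min a y < N) ⊆ Icc 1 (N / m) := by
        intro y hy
        rw [mem_filter, mem_Ioc] at hy
        rw [mem_Icc, Nat.le_div_iff_mul_le (by omega)]
        refine ⟨by omega, ?_⟩
        rcases le_total a y with h2 | h2
        · rw [min_eq_left h2] at hy
          omega
        · rw [min_eq_right h2] at hy
          rw [Nat.mul_comm]; exact hy.2.le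
      refine (card_le_card h1).trans ?_
      rw [Nat.card_Icc, Nat.add_sub_cancel]
  have hsub : Ioc (N - a) N ⊆ ker7aY N m Q a ∪ (W ∪ (({a} ∪ (W.image (fun d => a - d) ∪
      W.image (fun d => a + d))) ∪ (Ioc (N - a) N).filter (fun y => m * min a y < N))) := by
    intro y hy
    have hy1 := mem_Ioc.1 hy
    simp only [mem_union, mem_singleton, mem_image, mem_filter, ker7aY, hW, mem_sdiff, mem_Icc]
    by_cases h1 : y ∈ Q
    · by_cases h2 : y = a
      · right; right; left; left; exact h2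
      · by_cases h3 : dd a y ∈ Q
        · by_cases h4 : N ≤ m * min a y
          · left; exact ⟨hy, h1, h2, h3, h4⟩
          · right; right; right; exact ⟨hy, by omega⟩
        · right; right; left; right
          rcases lt_or_gt_of_ne h2 with h | h
          · left
            have e : dd a y = a - y := by unfold dd; omega
            rw [e] at h3
            exact ⟨a - y, ⟨⟨by omega, by omega⟩, h3⟩, by omega⟩
          · right
            have e : dd a y = y - a := by unfold dd; omega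
            rw [e] at h3
            exact ⟨y - a, ⟨⟨by omega, by omega⟩, h3⟩, by omega⟩
    · right; left; exact ⟨⟨by omega, hy1.2⟩, h1⟩
  have h1 := card_le_card hsub
  rw [Nat.card_Ioc] at h1
  have h2 := card_union_le (ker7aY N m Q a) (W ∪ (({a} ∪ (W.image (fun d => a - d) ∪
      W.image (fun d => a + d))) ∪ (Ioc (N - a) N).filter (fun y => m * min a y < N)))
  have h3 := card_union_le W (({a} ∪ (W.image (fun d => a - d) ∪
      W.image (fun d => a + d))) ∪ (Ioc (N - a) N).filter (fun y => m * min a y < N))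
  have h4 := card_union_le ({a} ∪ (W.image (fun d => a - d) ∪
      W.image (fun d => a + d))) ((Ioc (N - a) N).filter (fun y => m * min a y < N))
  have h5 := card_union_le {a} (W.image (fun d => a - d) ∪ W.image (fun d => a + d))
  have h6 := card_union_le (W.image (fun d => a - d)) (W.image (fun d => a + d))
  have h7 : (W.image (fun d => a - d)).card ≤ W.card := card_image_le
  have h8 : (W.image (fun d => a + d)).card ≤ W.card := card_image_le
  rw [card_singleton] at h5
  omega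

private theorem ker7a_Z_le {N m : ℕ} {Q : Finset ℕ} (a : ℕ) :
    2 * (ker7aZ N m Q a).card ≤ (N - a) + 1 := by
  have : (ker7aZ N m Q a).card ≤ (N - a) - (N - a) / 2 := by
    refine (card_filter_le _ _).trans ?_
    rw [Nat.card_Ioc]
  omega

private theorem ker7a_Z_ge {N m : ℕ} (hm : 1 ≤ m) {Q : Finset ℕ} (hQ : Q ⊆ Icc 1 N) {a : ℕ}
    (ha : a ∈ Q) : N - a ≤ 2 * ((ker7aZ N m Q a).card + 2 * (Icc 1 N \ Q).card + N / m) := by
  classical
  have ha1 := mem_Icc.1 (hQ ha)
  set W := Icc 1 N \ Q with hW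
  have hsub : Ioc ((N - a) / 2) (N - a) ⊆ ker7aZ N m Q a ∪ (W ∪ (W.image (fun d => d - a) ∪
      Icc 1 (N / m))) := by
    intro x hx
    have hx1 := mem_Ioc.1 hx
    simp only [mem_union, mem_image, ker7aZ, hW, mem_sdiff, mem_Icc, mem_filter]
    by_cases h1 : x ∈ Q
    · by_cases h2 : x + a ∈ Q
      · by_cases h3 : N ≤ m * x
        · left; exact ⟨hx, h1, h2, h3⟩
        · right; right; right
          rw [Nat.le_div_iff_mul_le (by omega)]
          refine ⟨by omega, ?_⟩
          rw [Nat.mul_comm]; omega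
      · right; right; left
        exact ⟨x + a, ⟨⟨by omega, by omega⟩, h2⟩, by omega⟩
    · right; left; exact ⟨⟨by omega, by omega⟩, h1⟩
  have h1 := card_le_card hsub
  rw [Nat.card_Ioc] at h1
  have h2 := card_union_le (ker7aZ N m Q a) (W ∪ (W.image (fun d => d - a) ∪ Icc 1 (N / m)))
  have h3 := card_union_le W (W.image (fun d => d - a) ∪ Icc 1 (N / m))
  have h4 := card_union_le (W.image (fun d => d - a)) (Icc 1 (N / m))
  have h7 : (W.image (fun d => d - a)).card ≤ W.card := card_image_le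
  rw [Nat.card_Icc, Nat.add_sub_cancel] at h4
  omega

private theorem ker7a_ld {N m : ℕ} {Q : Finset ℕ} (hQ : Q ⊆ Icc 1 N) {ω : ℝ} {a : ℕ}
    (ha : a ∈ Q) : ld N Q ω (k0 N m Q) a =
      (2 / N) * ((ω / 2) * ((ker7aY N m Q a).card : ℝ) + ((ker7aZ N m Q a).card : ℝ)) := by
  classical
  rw [← ker7a_c12 hQ ha, ← ker7a_c3 hQ ha]
  have h1 : ld N Q ω (k0 N m Q) a = ∑ p ∈ (prs N Q).filter (fun p => N ≤ m * p.1),
      (2 / N : ℝ) * lp ω p a := by
    rw [Finset.sum_filter]
    unfold ld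
    refine Finset.sum_congr rfl fun p hp => ?_
    unfold k0
    by_cases h : N ≤ m * p.1
    · rw [if_pos ⟨hp, h⟩, if_pos h]
    · rw [if_neg (fun h' => h h'.2), if_neg h, zero_mul]
  rw [h1, ← Finset.mul_sum]
  congr 1
  unfold lp
  rw [Finset.sum_add_distrib, ← Finset.mul_sum, Finset.sum_add_distrib]
  simp only [Finset.sum_boole]
  push_cast
  ring

theorem k0_load {N m : ℕ} {Q : Finset ℕ} (hN : 1 ≤ N) (hm : 1 ≤ m) (hQ : Q ⊆ Icc 1 N) {s : ℝ}
    (hs : (N : ℝ) - Q.card ≤ s * N) {ω : ℝ} (hω : |ω - 1| ≤ 1 / 100) {a : ℕ} (ha : a ∈ Q) :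
    |ld N Q ω (k0 N m Q) a - 1| ≤ |ω - 1| + 11 * s + 4 / m + 6 / N := by
  have ha1 := mem_Icc.1 (hQ ha)
  rw [ker7a_ld hQ ha]
  have hNr : (0 : ℝ) < N := by exact_mod_cast hN
  have hmr : (0 : ℝ) < m := by exact_mod_cast hm
  have hW := ker7a_Q hQ
  have y1 := ker7a_Y_le (m := m) (Q := Q) a ha1.2
  have y2 := ker7a_Y_ge hm hQ ha
  have z1 := ker7a_Z_le (N := N) (m := m) (Q := Q) a
  have z2 := ker7a_Z_ge hm hQ ha
  set Y := (ker7aY N m Q a).card
  set Z := (ker7aZ N m Q a).card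
  set W := (Icc 1 N \ Q).card
  have hdiv : ((N / m : ℕ) : ℝ) ≤ N / m := Nat.cast_div_le
  have hWr : (W : ℝ) ≤ s * N := by
    have : (W : ℝ) + Q.card = N := by exact_mod_cast hW
    linarith
  have hs0 : 0 ≤ s := by
    by_contra hneg
    push Not at hneg
    have h1 : s * N < 0 := mul_neg_of_neg_of_pos hneg hNr
    have h2 : (0 : ℝ) ≤ W := Nat.cast_nonneg _
    linarith
  have haN : (a : ℝ) ≤ N := by exact_mod_cast ha1.2
  have ha0 : (0 : ℝ) ≤ a := Nat.cast_nonneg _
  have y1r : (Y : ℝ) ≤ a := by exact_mod_cast y1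
  have y2r : (a : ℝ) ≤ Y + 3 * W + 1 + ((N / m : ℕ) : ℝ) := by exact_mod_cast y2
  have z1r : 2 * (Z : ℝ) ≤ (N - a) + 1 := by
    have : 2 * Z + a ≤ N + 1 := by omega
    have h : 2 * (Z : ℝ) + a ≤ N + 1 := by exact_mod_cast this
    linarith
  have z2r : (N : ℝ) - a ≤ 2 * (Z + 2 * W + ((N / m : ℕ) : ℝ)) := by
    have : N ≤ a + 2 * (Z + 2 * W + N / m) := by omega
    have h : (N : ℝ) ≤ a + 2 * (Z + 2 * W + ((N / m : ℕ) : ℝ)) := by exact_mod_cast this
    linarith
  have hω1 := abs_le.1 hω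
  have hω0 : 0 ≤ ω := by linarith [hω1.1]
  have hω2 : ω ≤ 101 / 100 := by linarith [hω1.2]
  have hab := abs_le.1 (le_refl |ω - 1|)
  have hab0 := abs_nonneg (ω - 1)
  set δ := |ω - 1|
  have key : (2 / N : ℝ) * ((ω / 2) * Y + Z) = (ω * Y + 2 * Z) / N := by
    field_simp
  rw [key]
  have e1 : (ω - 1) * a ≤ δ * N := by
    calc (ω - 1) * a ≤ δ * a := mul_le_mul_of_nonneg_right hab.2 ha0
      _ ≤ δ * N := mul_le_mul_of_nonneg_left haN hab0
  have e2 : -(δ * N) ≤ (ω - 1) * a := by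
    have h1 : -δ * a ≤ (ω - 1) * a := mul_le_mul_of_nonneg_right hab.1 ha0
    have h2 : δ * a ≤ δ * N := mul_le_mul_of_nonneg_left haN hab0
    linarith
  have e3 : ω * Y ≤ ω * a := mul_le_mul_of_nonneg_left y1r hω0
  have hM : (0 : ℝ) ≤ N / m := by positivity
  have hsN : 0 ≤ s * N := mul_nonneg hs0 hNr.le
  have e4 : ω * (a - 3 * (s * N) - 1 - N / m) ≤ ω * Y :=
    mul_le_mul_of_nonneg_left (by linarith) hω0
  have e5 : ω * (3 * (s * N) + 1 + N / m) ≤ (101 / 100) * (3 * (s * N) + 1 + N / m) :=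
    mul_le_mul_of_nonneg_right hω2 (by linarith)
  have f1 : (ω * Y + 2 * Z) / N - 1 = (ω * Y + 2 * Z - N) / N := by
    field_simp
  have f2 : δ + 11 * s + 4 / m + 6 / N = (δ * N + 11 * (s * N) + 4 * (N / m) + 6) / N := by
    field_simp
  rw [f1, f2, abs_div, abs_of_pos hNr]
  apply div_le_div_of_nonneg_right _ hNr.le
  rw [abs_le]
  constructor
  · nlinarith
  · nlinarith

private theorem ker7b_compl {N : ℕ} {Q : Finset ℕ} (hQ : Q ⊆ Icc 1 N) {s : ℝ}
    (hs : (N : ℝ) - Q.card ≤ s * N) : ((Icc 1 N \ Q).card : ℝ) ≤ s * N := by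
  rw [card_sdiff_of_subset hQ, Nat.cast_sub (card_le_card hQ), Nat.card_Icc, Nat.add_sub_cancel]
  exact hs

theorem deg_count {N m : ℕ} {Q : Finset ℕ} (hm : 100 ≤ m) (hN : 100 * m ≤ N) (hQ : Q ⊆ Icc 1 N) {s : ℝ}
    (hs : (N : ℝ) - Q.card ≤ s * N) (hs2 : 100 * m * s ≤ 1) {x : ℕ} (hx : N ≤ m * x) (hx2 : x ≤ N) :
    (N : ℝ) / (2 * m) ≤
      ((Q.filter (fun y => y ≠ x ∧ dd x y ∈ Q ∧ N < x + y ∧ N ≤ m * y)).card : ℕ) := by
  classical
  have hc := ker7b_compl hQ hs
  obtain ⟨S, hS⟩ : ∃ S, S = Q.filter (fun y => y ≠ x ∧ dd x y ∈ Q ∧ N < x + y ∧ N ≤ m * y) :=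
    ⟨_, rfl⟩
  obtain ⟨B, hB⟩ : ∃ B, B = Ioc (N - x) N := ⟨_, rfl⟩
  obtain ⟨B1, hB1⟩ : ∃ B1, B1 = B.filter (fun y => y < x ∧ x - y ∉ Q) := ⟨_, rfl⟩
  obtain ⟨B2, hB2⟩ : ∃ B2, B2 = B.filter (fun y => x < y ∧ y - x ∉ Q) := ⟨_, rfl⟩
  obtain ⟨B3, hB3⟩ : ∃ B3, B3 = B.filter (fun y => m * y < N) := ⟨_, rfl⟩
  rw [← hS]
  have h1 : B ⊆ S ∪ ((Icc 1 N \ Q) ∪ ({x} ∪ (B1 ∪ (B2 ∪ B3)))) := by
    intro y hy
    have hy' := hy
    rw [hB, mem_Ioc] at hy'
    simp only [mem_union, mem_sdiff, mem_Icc, mem_singleton, hS, hB1, hB2, hB3, mem_filter]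
    by_cases hyQ : y ∈ Q
    · by_cases hyx : y = x
      · exact Or.inr (Or.inr (Or.inl hyx))
      · by_cases hmy : N ≤ m * y
        · rcases lt_or_gt_of_ne hyx with h | h
          · by_cases hd : x - y ∈ Q
            · left
              refine ⟨hyQ, hyx, ?_, by omega, hmy⟩
              have e : dd x y = x - y := by unfold dd; omega
              rw [e]
              exact hd
            · exact Or.inr (Or.inr (Or.inr (Or.inl ⟨hy, h, hd⟩)))
          · by_cases hd : y - x ∈ Q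
            · left
              refine ⟨hyQ, hyx, ?_, by omega, hmy⟩
              have e : dd x y = y - x := by unfold dd; omega
              rw [e]
              exact hd
            · exact Or.inr (Or.inr (Or.inr (Or.inr (Or.inl ⟨hy, h, hd⟩))))
        · exact Or.inr (Or.inr (Or.inr (Or.inr (Or.inr ⟨hy, not_le.1 hmy⟩))))
    · exact Or.inr (Or.inl ⟨⟨by omega, by omega⟩, hyQ⟩)
  have hBc : B.card = x := by
    rw [hB, Nat.card_Ioc]
    omega
  have c1 : B1.card ≤ (Icc 1 N \ Q).card := by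
    refine card_le_card_of_injOn (fun y => x - y) ?_ ?_
    · intro y hy
      have hy' : y ∈ B1 := hy
      rw [hB1, mem_filter, hB, mem_Ioc] at hy'
      obtain ⟨h2, h3, h4⟩ := hy'
      have h5 : x - y ∈ Icc 1 N \ Q := by
        rw [mem_sdiff, mem_Icc]
        exact ⟨⟨by omega, by omega⟩, h4⟩
      exact h5
    · intro y hy z hz hyz
      have hy' : y ∈ B1 := hy
      have hz' : z ∈ B1 := hz
      rw [hB1, mem_filter] at hy' hz'
      have h2 := hy'.2.1
      have h3 := hz'.2.1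
      have h4 : x - y = x - z := hyz
      omega
  have c2 : B2.card ≤ (Icc 1 N \ Q).card := by
    refine card_le_card_of_injOn (fun y => y - x) ?_ ?_
    · intro y hy
      have hy' : y ∈ B2 := hy
      rw [hB2, mem_filter, hB, mem_Ioc] at hy'
      obtain ⟨h2, h3, h4⟩ := hy'
      have h5 : y - x ∈ Icc 1 N \ Q := by
        rw [mem_sdiff, mem_Icc]
        exact ⟨⟨by omega, by omega⟩, h4⟩
      exact h5
    · intro y hy z hz hyz
      have hy' : y ∈ B2 := hy
      have hz' : z ∈ B2 := hz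
      rw [hB2, mem_filter] at hy' hz'
      have h2 := hy'.2.1
      have h3 := hz'.2.1
      have h4 : y - x = z - x := hyz
      omega
  have h2 : x ≤ S.card + ((Icc 1 N \ Q).card + (1 + (B1.card + (B2.card + B3.card)))) := by
    rw [← hBc]
    refine (card_le_card h1).trans ((card_union_le _ _).trans ?_)
    refine Nat.add_le_add_left ((card_union_le _ _).trans ?_) _
    refine Nat.add_le_add_left ((card_union_le _ _).trans ?_) _
    rw [card_singleton]
    refine Nat.add_le_add_left ((card_union_le _ _).trans ?_) _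
    exact Nat.add_le_add_left (card_union_le _ _) _
  have h3 : (x : ℝ) ≤ (S.card : ℝ) + ((Icc 1 N \ Q).card +
      (1 + ((B1.card : ℝ) + ((B2.card : ℝ) + (B3.card : ℝ))))) := by
    exact_mod_cast h2
  have c1' : (B1.card : ℝ) ≤ ((Icc 1 N \ Q).card : ℝ) := by exact_mod_cast c1
  have c2' : (B2.card : ℝ) ≤ ((Icc 1 N \ Q).card : ℝ) := by exact_mod_cast c2
  have hm' : (100 : ℝ) ≤ m := by exact_mod_cast hm
  have hm0 : (0 : ℝ) < m := by linarith
  have hN' : 100 * (m : ℝ) ≤ N := by exact_mod_cast hN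
  have hx' : (N : ℝ) ≤ m * x := by exact_mod_cast hx
  obtain ⟨u, hu⟩ : ∃ u : ℝ, u = (N : ℝ) / m := ⟨_, rfl⟩
  have hNu : (N : ℝ) = m * u := by rw [hu]; field_simp
  have hu100 : 100 ≤ u := by
    rw [hu, le_div_iff₀ hm0]
    exact hN'
  have hxu : u ≤ x := by
    rw [hu, div_le_iff₀ hm0]
    linarith
  have hsN : s * N ≤ u / 100 := by
    rw [hNu]
    have h4 : 100 * m * s * u ≤ 1 * u := mul_le_mul_of_nonneg_right hs2 (by linarith)
    nlinarith
  have hgoal : (N : ℝ) / (2 * m) = u / 2 := by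
    rw [hu]
    field_simp
  rw [hgoal]
  by_cases hxN : 2 * x ≤ N
  · have h4 : B3.card = 0 := by
      rw [card_eq_zero, hB3, filter_eq_empty_iff]
      intro y hy h5
      rw [hB, mem_Ioc] at hy
      have h6 : N ≤ 2 * y := by omega
      have h7 : 2 * y ≤ m * y := Nat.mul_le_mul_right y (by omega)
      omega
    rw [h4, Nat.cast_zero] at h3
    linarith
  · have h4 : B3 ⊆ Icc 1 (N / m) := by
      intro y hy
      rw [hB3, mem_filter, hB, mem_Ioc] at hy
      rw [mem_Icc, Nat.le_div_iff_mul_le (by omega), mul_comm y m]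
      exact ⟨by omega, hy.2.le⟩
    have h5 : (B3.card : ℝ) ≤ u := by
      have h6 : B3.card ≤ N / m := by
        refine (card_le_card h4).trans ?_
        rw [Nat.card_Icc, Nat.add_sub_cancel]
      have h7 : (B3.card : ℝ) ≤ ((N / m : ℕ) : ℝ) := by exact_mod_cast h6
      rw [hu]
      exact h7.trans Nat.cast_div_le
    have h6 : (N : ℝ) < 2 * x := by exact_mod_cast not_le.1 hxN
    have h7 : 100 * u ≤ (N : ℝ) := by
      rw [hNu]
      exact mul_le_mul_of_nonneg_right hm' (by linarith)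
    linarith

end SSB
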