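import Pool.Agent.Lib.MP_8a819d_co.BD.Ker6
import Pool.Agent.Lib.MP_8a819d_co.BD.Ker7

/-!
# MP_8a819d_co: the exact kernel (Lemma F)

JOB Ker8 (all of this file).

`s₀ = 10^-17`, `m = 10^14`, `C₀ = 4 * 10^14`, `N₀ = 10^20` (any such choice). Given `T`, let
`τ a = T a - ld (k0 N m Q) a`, so `|τ a| ≤ s₀ + (|ω - 1| + 11 s₀ + 4/m + 6/N) ≤ 13 s₀ + 4/m + 6/N =: t`
and `10^13 t ≤ 1`. Take `k₁` from `solve`; `|k₁ p| ≤ 1/N`. Put `κ p = k0 p + k₁ p` and
`k x y = κ (min x y, max x y)`. If `k₁ p ≠ 0` then `p ∈ prs`, `N ≤ 3 p.1 ≤ m p.1`, so `k0 p = 2/N`; hence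
`κ p ≥ 0` always, `κ p ≥ 1/N` for all allowed `p` with `N ≤ m p.1`, `κ p ≤ 3/N`, `κ p = 0` otherwise. Properties:
* `k x y ≠ 0` gives `(min, max) ∈ prs`: `x, y ∈ Q`, `x ≠ y`, `dd x y = max - min ∈ Q`.
* `x, y ≥ 0.6 N`: `x + y > N` (as `N > 0`) and `N ≤ m min`.
* `V x = ∑ y ∈ Q, k x y`: if `m x < N` every term is `0` (`min x y ≤ x`). Otherwise by `deg_count` at least
  `N/(2m)` values `y` have `k x y ≥ 1/N`, so `V x ≥ 1/(2m)`.
* load: `ld κ a = T a`. Convert: `ld κ a = ∑ p ∈ prs, κ p lp ω p a`; `∑ y ∈ Q, k a y` = sum over the pairs of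
  `prs` containing `a`; `∑ x ∈ Q, ∑ y ∈ Q, [dd x y = a] k x y = 2 ∑ p ∈ prs, [p.2 - p.1 = a] κ p` (each unordered
  pair twice; `k x x = 0`).
-/

set_option autoImplicit false

namespace SSB

open Finset

private theorem ker8_sum {N : ℕ} {Q : Finset ℕ} (H : ℕ → ℕ → ℝ)
    (hH : ∀ x y, (min x y, max x y) ∉ prs N Q → H x y = 0) :
    ∑ x ∈ Q, ∑ y ∈ Q, H x y = ∑ p ∈ prs N Q, (H p.1 p.2 + H p.2 p.1) := by
  classical
  have hmem : ∀ p ∈ prs N Q, p.1 ∈ Q ∧ p.2 ∈ Q ∧ p.1 < p.2 := by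
    intro p hp
    unfold prs at hp
    rw [mem_filter, mem_product] at hp
    exact ⟨hp.1.1, hp.1.2, hp.2.1⟩
  rw [← sum_product' Q Q (fun x y => H x y), sum_add_distrib]
  have h1 : ∑ p ∈ prs N Q, H p.2 p.1 = ∑ q ∈ (prs N Q).image Prod.swap, H q.1 q.2 := by
    rw [sum_image]
    · exact sum_congr rfl fun p _ => rfl
    · intro p _ q _ hpq
      exact Prod.swap_injective hpq
  have hdis : Disjoint (prs N Q) ((prs N Q).image Prod.swap) := by
    rw [disjoint_left]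
    intro p hp hq
    rw [mem_image] at hq
    obtain ⟨q, hq, rfl⟩ := hq
    have h2 := (hmem _ hp).2.2
    have h3 := (hmem _ hq).2.2
    have h4 : q.2 < q.1 := h2
    omega
  rw [h1, ← sum_union hdis]
  symm
  apply sum_subset
  · intro p hp
    rw [mem_union] at hp
    rw [mem_product]
    rcases hp with hp | hp
    · exact ⟨(hmem p hp).1, (hmem p hp).2.1⟩
    · rw [mem_image] at hp
      obtain ⟨q, hq, rfl⟩ := hp
      exact ⟨(hmem q hq).2.1, (hmem q hq).1⟩
  · intro p _ hp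
    refine hH p.1 p.2 fun h => hp ?_
    rw [mem_union, mem_image]
    rcases le_total p.1 p.2 with h2 | h2
    · left
      rw [min_eq_left h2, max_eq_right h2, Prod.mk.eta] at h
      exact h
    · right
      rw [min_eq_right h2, max_eq_left h2] at h
      exact ⟨(p.2, p.1), h, rfl⟩

theorem lemmaF : ∃ s₀ C₀ : ℝ, 0 < s₀ ∧ s₀ < 1 / 100 ∧ 1 ≤ C₀ ∧ ∃ N₀ : ℕ, ∀ N : ℕ, N₀ ≤ N →
    ∀ Q : Finset ℕ, Q ⊆ Icc 1 N → (N : ℝ) - Q.card ≤ s₀ * N →
    ∀ ω : ℝ, |ω - 1| ≤ s₀ → ∀ T : ℕ → ℝ, (∀ a ∈ Q, |T a - 1| ≤ s₀) →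
    ∃ k : ℕ → ℕ → ℝ,
      (∀ x y, 0 ≤ k x y) ∧ (∀ x y, k x y = k y x) ∧
      (∀ x y, k x y ≠ 0 → x ∈ Q ∧ y ∈ Q ∧ x ≠ y ∧ dd x y ∈ Q) ∧
      (∀ x y, k x y ≤ C₀ / N) ∧
      (∀ x y, x ∈ Q → y ∈ Q → x ≠ y → dd x y ∈ Q → 3 * N ≤ 5 * x → 3 * N ≤ 5 * y → 1 / N ≤ k x y) ∧
      (∀ x ∈ Q, (∑ y ∈ Q, k x y) ≠ 0 → 1 / C₀ ≤ ∑ y ∈ Q, k x y) ∧
      (∀ a ∈ Q, (ω / 2) * (∑ y ∈ Q, k a y) +
        (1 / 2) * (∑ x ∈ Q, ∑ y ∈ Q, if dd x y = a then k x y else 0) = T a) := by
  refine ⟨1 / 10 ^ 17, 4 * 10 ^ 14, by norm_num, by norm_num, by norm_num, 10 ^ 20, ?_⟩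
  intro N hN Q hQ hs ω hω T hT
  obtain ⟨m, hm⟩ : ∃ m : ℕ, m = 10 ^ 14 := ⟨_, rfl⟩
  have hm' : (m : ℝ) = 10 ^ 14 := by rw [hm]; norm_num
  have hN' : (10 : ℝ) ^ 20 ≤ N := by exact_mod_cast hN
  have hNpos : (0 : ℝ) < N := lt_of_lt_of_le (by norm_num) hN'
  have hN1 : 1 ≤ N := le_trans (by norm_num) hN
  have hm1 : 1 ≤ m := by rw [hm]; norm_num
  have hmN : 100 * m ≤ N := by rw [hm]; exact le_trans (by norm_num) hN
  have hω' : |ω - 1| ≤ 1 / 100 := hω.trans (by norm_num)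
  have hKH : KH N Q :=
    ⟨le_trans (by norm_num) hN, hQ, hs.trans (mul_le_mul_of_nonneg_right (by norm_num) hNpos.le)⟩
  have h6N : 6 / (N : ℝ) ≤ 6 / 10 ^ 20 :=
    div_le_div_of_nonneg_left (by norm_num) (by norm_num) hN'
  obtain ⟨k₁, hk1, hk2, hk3⟩ := solve hKH hω' (fun a => T a - ld N Q ω (k0 N m Q) a)
    (1 / 10 ^ 13) (by
      intro a ha
      have h1 := k0_load hN1 hm1 hQ hs hω' ha
      have h2 := hT a ha
      rw [hm'] at h1
      have h3 : T a - ld N Q ω (k0 N m Q) a = (T a - 1) - (ld N Q ω (k0 N m Q) a - 1) := by ring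
      change |T a - ld N Q ω (k0 N m Q) a| ≤ _
      rw [h3]
      refine (abs_sub _ _).trans ?_
      refine (add_le_add h2 h1).trans ?_
      have h4 : (13 : ℝ) * (1 / 10 ^ 17) + 4 / 10 ^ 14 + 6 / 10 ^ 20 ≤ 1 / 10 ^ 13 := by norm_num
      linarith)
  have hk3' : ∀ p, |k₁ p| ≤ 1 / N := by
    intro p
    refine (hk3 p).trans (le_of_eq ?_)
    norm_num
  have hk0 : ∀ p, p ∈ prs N Q → N ≤ m * p.1 → k0 N m Q p = 2 / N := by
    intro p h1 h2
    unfold k0
    exact if_pos ⟨h1, h2⟩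
  have hk0' : ∀ p, ¬ (p ∈ prs N Q ∧ N ≤ m * p.1) → k0 N m Q p = 0 := by
    intro p h1
    unfold k0
    exact if_neg h1
  have hk1' : ∀ p, k₁ p ≠ 0 → p ∈ prs N Q ∧ N ≤ m * p.1 := by
    intro p hp
    obtain ⟨h1, h2⟩ := hk1 p hp
    refine ⟨h1, h2.trans (Nat.mul_le_mul_right _ ?_)⟩
    rw [hm]
    norm_num
  obtain ⟨κ, hκ⟩ : ∃ κ : ℕ × ℕ → ℝ, κ = fun p => k0 N m Q p + k₁ p := ⟨_, rfl⟩
  have hκ0 : ∀ p, ¬ (p ∈ prs N Q ∧ N ≤ m * p.1) → κ p = 0 := by
    intro p hp
    have h1 : k₁ p = 0 := by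
      by_contra h
      exact hp (hk1' p h)
    rw [hκ]
    change k0 N m Q p + k₁ p = 0
    rw [hk0' p hp, h1, add_zero]
  have hκ1 : ∀ p, p ∈ prs N Q → N ≤ m * p.1 → 1 / N ≤ κ p ∧ κ p ≤ 3 / N := by
    intro p h1 h2
    have h3 := abs_le.1 (hk3' p)
    have h4 : κ p = 2 / N + k₁ p := by
      rw [hκ]
      change k0 N m Q p + k₁ p = _
      rw [hk0 p h1 h2]
    have h5 : (2 : ℝ) / N = 1 / N + 1 / N := by ring
    have h6 : (3 : ℝ) / N = 1 / N + 1 / N + 1 / N := by ring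
    rw [h4, h5, h6]
    constructor <;> linarith [h3.1, h3.2]
  have h1N : (0 : ℝ) < 1 / N := by positivity
  have hκn : ∀ p, 0 ≤ κ p := by
    intro p
    by_cases hp : p ∈ prs N Q ∧ N ≤ m * p.1
    · exact h1N.le.trans (hκ1 p hp.1 hp.2).1
    · rw [hκ0 p hp]
  have hκne : ∀ p, κ p ≠ 0 → p ∈ prs N Q ∧ N ≤ m * p.1 := by
    intro p hp
    by_contra h
    exact hp (hκ0 p h)
  have hprs : ∀ x y, x ∈ Q → y ∈ Q → x ≠ y → dd x y ∈ Q → N < x + y →
      (min x y, max x y) ∈ prs N Q := by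
    intro x y hx hy hxy hd hN
    unfold prs
    rw [mem_filter, mem_product]
    rcases lt_or_gt_of_ne hxy with h | h
    · rw [min_eq_left h.le, max_eq_right h.le]
      refine ⟨⟨hx, hy⟩, h, ?_, hN⟩
      have e : dd x y = y - x := by unfold dd; omega
      rw [e] at hd
      exact hd
    · rw [min_eq_right h.le, max_eq_left h.le]
      refine ⟨⟨hy, hx⟩, h, ?_, by omega⟩
      have e : dd x y = x - y := by unfold dd; omega
      rw [e] at hd
      exact hd
  have hprs' : ∀ x y, (min x y, max x y) ∈ prs N Q → x ∈ Q ∧ y ∈ Q ∧ x ≠ y ∧ dd x y ∈ Q := by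
    intro x y h
    unfold prs at h
    rw [mem_filter, mem_product] at h
    obtain ⟨⟨h1, h2⟩, h3, h4, -⟩ := h
    have h3' : min x y < max x y := h3
    have h1' : min x y ∈ Q := h1
    have h2' : max x y ∈ Q := h2
    have h4' : max x y - min x y ∈ Q := h4
    rcases le_total x y with h | h
    · rw [min_eq_left h] at h1' h3' h4'
      rw [max_eq_right h] at h2' h3' h4'
      refine ⟨h1', h2', by omega, ?_⟩
      have e : dd x y = y - x := by unfold dd; omega
      rw [e]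
      exact h4'
    · rw [min_eq_right h] at h1' h3' h4'
      rw [max_eq_left h] at h2' h3' h4'
      refine ⟨h2', h1', by omega, ?_⟩
      have e : dd x y = x - y := by unfold dd; omega
      rw [e]
      exact h4'
  refine ⟨fun x y => κ (min x y, max x y), fun x y => hκn _, ?_, ?_, ?_, ?_, ?_, ?_⟩
  · intro x y
    change κ (min x y, max x y) = κ (min y x, max y x)
    rw [min_comm, max_comm]
  · intro x y hxy
    exact hprs' x y (hκne _ hxy).1
  · intro x y
    change κ (min x y, max x y) ≤ 4 * 10 ^ 14 / N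
    by_cases hp : (min x y, max x y) ∈ prs N Q ∧ N ≤ m * (min x y, max x y).1
    · refine (hκ1 _ hp.1 hp.2).2.trans ?_
      exact div_le_div_of_nonneg_right (by norm_num) hNpos.le
    · rw [hκ0 _ hp]
      positivity
  · intro x y hx hy hxy hd h1 h2
    refine (hκ1 _ (hprs x y hx hy hxy hd (by omega)) ?_).1
    change N ≤ m * min x y
    have h3 : 3 * N ≤ 5 * min x y := by
      rcases le_total x y with h | h
      · rw [min_eq_left h]; exact h1
      · rw [min_eq_right h]; exact h2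
    have h4 : 5 * min x y ≤ m * min x y := Nat.mul_le_mul_right _ (by rw [hm]; norm_num)
    omega
  · intro x hx hne
    change (∑ y ∈ Q, κ (min x y, max x y)) ≠ 0 at hne
    change (1 : ℝ) / (4 * 10 ^ 14) ≤ ∑ y ∈ Q, κ (min x y, max x y)
    have hxN := mem_Icc.1 (hQ hx)
    have hxm : N ≤ m * x := by
      by_contra h
      apply hne
      refine sum_eq_zero fun y _ => hκ0 _ ?_
      rintro ⟨-, h2⟩
      apply h
      have h3 : N ≤ m * min x y := h2
      exact h3.trans (Nat.mul_le_mul_left m (min_le_left x y))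
    have hdc := deg_count (m := m) (by rw [hm]; norm_num) hmN hQ hs
      (by rw [hm']; norm_num) hxm hxN.2
    have h2 : ((Q.filter (fun y => y ≠ x ∧ dd x y ∈ Q ∧ N < x + y ∧ N ≤ m * y)).card : ℝ) *
        (1 / N) ≤ ∑ y ∈ Q, κ (min x y, max x y) := by
      refine le_trans ?_ (sum_le_sum_of_subset_of_nonneg (filter_subset
        (fun y => y ≠ x ∧ dd x y ∈ Q ∧ N < x + y ∧ N ≤ m * y) Q) (fun y _ _ => hκn _))
      rw [← nsmul_eq_mul]
      refine card_nsmul_le_sum _ _ _ fun y hy => ?_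
      rw [mem_filter] at hy
      obtain ⟨hyQ, hyx, hd, hNy, hmy⟩ := hy
      refine (hκ1 _ (hprs x y hx hyQ (Ne.symm hyx) hd hNy) ?_).1
      change N ≤ m * min x y
      rcases le_total x y with h | h
      · rw [min_eq_left h]; exact hxm
      · rw [min_eq_right h]; exact hmy
    refine le_trans ?_ h2
    refine le_trans ?_ (mul_le_mul_of_nonneg_right hdc h1N.le)
    rw [hm']
    have h3 : (N : ℝ) / (2 * 10 ^ 14) * (1 / N) = 1 / (2 * 10 ^ 14) := by
      field_simp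
    rw [h3]
    norm_num
  · intro a ha
    change (ω / 2) * (∑ y ∈ Q, κ (min a y, max a y)) +
        (1 / 2) * (∑ x ∈ Q, ∑ y ∈ Q, if dd x y = a then κ (min x y, max x y) else 0) = T a
    have hz : ∀ x y, (min x y, max x y) ∉ prs N Q → κ (min x y, max x y) = 0 :=
      fun x y h => hκ0 _ fun h' => h h'.1
    have hA : ∑ y ∈ Q, κ (min a y, max a y) =
        ∑ p ∈ prs N Q, κ p * ((if p.1 = a then 1 else 0) + (if p.2 = a then 1 else 0)) := by
      have e1 : ∑ x ∈ Q, ∑ y ∈ Q, (if x = a then κ (min x y, max x y) else 0) =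
          ∑ y ∈ Q, κ (min a y, max a y) := by
        refine (sum_eq_single a (fun x _ hxa => ?_) (fun h => absurd ha h)).trans ?_
        · exact sum_eq_zero fun y _ => if_neg hxa
        · exact sum_congr rfl fun y _ => if_pos rfl
      rw [← e1, ker8_sum (N := N) (Q := Q) (fun x y => if x = a then κ (min x y, max x y) else 0)
        (fun x y h => by
          change (if x = a then κ (min x y, max x y) else 0) = 0
          rw [hz x y h, ite_self])]
      refine sum_congr rfl fun p hp => ?_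
      have hlt : p.1 < p.2 := by
        unfold prs at hp
        exact (mem_filter.1 hp).2.1
      rw [min_eq_left hlt.le, max_eq_right hlt.le, min_eq_right hlt.le, max_eq_left hlt.le]
      rw [Prod.mk.eta]
      split_ifs <;> ring
    have hB : (∑ x ∈ Q, ∑ y ∈ Q, if dd x y = a then κ (min x y, max x y) else 0) =
        ∑ p ∈ prs N Q, κ p * (2 * (if p.2 - p.1 = a then 1 else 0)) := by
      rw [ker8_sum (N := N) (Q := Q) (fun x y => if dd x y = a then κ (min x y, max x y) else 0)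
        (fun x y h => by
          change (if dd x y = a then κ (min x y, max x y) else 0) = 0
          rw [hz x y h, ite_self])]
      refine sum_congr rfl fun p hp => ?_
      have hlt : p.1 < p.2 := by
        unfold prs at hp
        exact (mem_filter.1 hp).2.1
      have e1 : dd p.1 p.2 = p.2 - p.1 := by unfold dd; omega
      have e2 : dd p.2 p.1 = p.2 - p.1 := by unfold dd; omega
      rw [min_eq_left hlt.le, max_eq_right hlt.le, min_eq_right hlt.le, max_eq_left hlt.le, e1, e2]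
      rw [Prod.mk.eta]
      split_ifs <;> ring
    have hC : ld N Q ω κ a = T a := by
      have e1 : ld N Q ω κ a = ld N Q ω (k0 N m Q) a + ld N Q ω k₁ a := by
        unfold ld
        rw [← sum_add_distrib]
        refine sum_congr rfl fun p _ => ?_
        rw [hκ]
        change (k0 N m Q p + k₁ p) * lp ω p a = _
        ring
      rw [e1, hk2 a ha]
      ring
    rw [hA, hB, ← hC]
    unfold ld
    rw [mul_sum, mul_sum, ← sum_add_distrib]
    refine sum_congr rfl fun p _ => ?_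
    unfold lp
    ring

end SSB
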