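import Mathlib

/-!
# MP_8a819d_co: Markov chains on rooted trees

A rooted tree on `0, ..., k` is given by `par` with `par i < i` for `i ≠ 0`, `par 0 = 0`. The root gets a
state with the law `m`, every other vertex `i` a state with the law `κ i x ·` if its parent has the state
`x`. `cw φ` is the probability of the states `φ`; `Mg i` is the law of the state of `i`.

JOB Chn (all of this file).

Everything by induction on `k`, splitting off the last vertex: `φ : Fin (k + 2) → α` is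
`Fin.snoc φ' y` (`Fin.snocEquiv`, or `Fin.snocEquiv`-like reindexing of the sum over `φ`), the vertices
`i ≤ k` (`Fin.castSucc i`) have their parents among the `castSucc`, so the restriction is a tree `par'`,
and `cw φ = cw' φ' * κ (last) (φ' (par (last))) y`. Summing over `y` first:
* `cw_sum` and, more generally, `cw_last`: `∑ φ, cw φ * F (φ')  = ∑ φ', cw' φ' F φ'`.
* `cw_one`: `∑ cw φ g (φ j) = ∑ x, Mg j x * g x`: if `j` is not last use `cw_last` and the induction
  hypothesis, if `j` is last: `∑ φ', cw' φ' ∑ y κ (φ' (par last)) y g y = ∑ x, Mg (par last) x ∑ y κ x y g y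
  = ∑ y, Mg last y g y`.
* `cw_edge`: the same for a function of the states of `i` and its parent.
* `cw_two`: local functions `h`, `h' ≥ 0` at two different vertices `i ≠ j`: the value
  `h (φ (par i)) (φ i)` (`par 0 = 0`, so at the root it is `h (φ 0) (φ 0)`). If both are not last use
  `cw_last`; if `j` is last (`i` is not), the sum over `y` of `κ (φ' (par j)) y h' (φ' (par j)) y` is at most `b'`
  for every `φ'`, and the rest is `∑ φ', cw' φ' h (φ' (par i)) (φ' i) ≤ b` (a one vertex bound: `cw_hloc`).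
-/

set_option autoImplicit false

namespace SSB

open Finset

variable {α : Type} [Fintype α] [DecidableEq α]

noncomputable def cw {k : ℕ} (par : Fin (k + 1) → Fin (k + 1)) (m : α → ℝ)
    (κ : Fin (k + 1) → α → α → ℝ) (φ : Fin (k + 1) → α) : ℝ :=
  m (φ 0) * ∏ i : Fin k, κ i.succ (φ (par i.succ)) (φ i.succ)

/-- hypotheses on the chain -/
structure ChOK {k : ℕ} (par : Fin (k + 1) → Fin (k + 1)) (m : α → ℝ)
    (κ : Fin (k + 1) → α → α → ℝ) (Mg : Fin (k + 1) → α → ℝ) : Prop where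
  par_zero : par 0 = 0
  par_lt : ∀ i, i ≠ 0 → par i < i
  m_nn : ∀ x, 0 ≤ m x
  m_sum : ∑ x, m x = 1
  κ_nn : ∀ i x y, 0 ≤ κ i x y
  κ_sum : ∀ i, i ≠ 0 → ∀ x, ∑ y, κ i x y = 1
  root : Mg 0 = m
  cons : ∀ i, i ≠ 0 → ∀ y, ∑ x, Mg (par i) x * κ i x y = Mg i y

omit [Fintype α] [DecidableEq α] in
private theorem chn_cw {k : ℕ} {par : Fin (k + 2) → Fin (k + 2)} {m : α → ℝ}
    {κ : Fin (k + 2) → α → α → ℝ} {par' : Fin (k + 1) → Fin (k + 1)} {pl : Fin (k + 1)}
    (hp : ∀ i, (par' i).castSucc = par i.castSucc) (hl : pl.castSucc = par (Fin.last (k + 1)))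
    (φ : Fin (k + 2) → α) :
    cw par m κ φ = cw par' m (fun i => κ i.castSucc) (fun i => φ i.castSucc) *
      κ (Fin.last (k + 1)) (φ pl.castSucc) (φ (Fin.last (k + 1))) := by
  unfold cw
  rw [Fin.prod_univ_castSucc, mul_assoc]
  have e1 : ∀ i : Fin k, κ (Fin.castSucc i).succ (φ (par (Fin.castSucc i).succ))
      (φ (Fin.castSucc i).succ) = κ i.succ.castSucc (φ (par' i.succ).castSucc)
        (φ i.succ.castSucc) := by
    intro i
    rw [Fin.succ_castSucc, hp]
  rw [prod_congr rfl fun i _ => e1 i, Fin.succ_last, ← hl]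
  rfl

omit [DecidableEq α] in
private theorem chn_sum {k : ℕ} (F : (Fin (k + 2) → α) → ℝ) :
    ∑ φ, F φ = ∑ φ' : Fin (k + 1) → α, ∑ y, F (Fin.snoc (α := fun _ => α) φ' y) := by
  rw [← Equiv.sum_comp (Fin.snocEquiv (n := k + 1) fun _ => α), Fintype.sum_prod_type, sum_comm]
  rfl

omit [DecidableEq α] in
private theorem chn_split {k : ℕ} {par : Fin (k + 2) → Fin (k + 2)} {m : α → ℝ}
    {κ : Fin (k + 2) → α → α → ℝ} {par' : Fin (k + 1) → Fin (k + 1)} {pl : Fin (k + 1)}
    (hp : ∀ i, (par' i).castSucc = par i.castSucc) (hl : pl.castSucc = par (Fin.last (k + 1)))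
    (G : (Fin (k + 1) → α) → α → ℝ) :
    ∑ φ : Fin (k + 2) → α, cw par m κ φ * G (fun i => φ i.castSucc) (φ (Fin.last (k + 1))) =
      ∑ φ' : Fin (k + 1) → α, cw par' m (fun i => κ i.castSucc) φ' *
        ∑ y, κ (Fin.last (k + 1)) (φ' pl) y * G φ' y := by
  rw [chn_sum]
  refine sum_congr rfl fun φ' _ => ?_
  rw [mul_sum]
  refine sum_congr rfl fun y _ => ?_
  have e1 : (fun i : Fin (k + 1) => (Fin.snoc (α := fun _ => α) φ' y : Fin (k + 2) → α)
      i.castSucc) = φ' := by
    funext i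
    exact Fin.snoc_castSucc (α := fun _ => α) y φ' i
  have e2 : (Fin.snoc (α := fun _ => α) φ' y : Fin (k + 2) → α) (Fin.last (k + 1)) = y :=
    Fin.snoc_last (α := fun _ => α) y φ'
  have e3 : (Fin.snoc (α := fun _ => α) φ' y : Fin (k + 2) → α) pl.castSucc = φ' pl :=
    Fin.snoc_castSucc (α := fun _ => α) y φ' pl
  rw [chn_cw hp hl, e1, e2, e3]
  ring

omit [DecidableEq α] in
private theorem chn_exists {k : ℕ} {par : Fin (k + 2) → Fin (k + 2)} {m : α → ℝ}
    {κ : Fin (k + 2) → α → α → ℝ} {Mg : Fin (k + 2) → α → ℝ} (h : ChOK par m κ Mg) :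
    ∃ (par' : Fin (k + 1) → Fin (k + 1)) (pl : Fin (k + 1)),
      (∀ i, (par' i).castSucc = par i.castSucc) ∧ pl.castSucc = par (Fin.last (k + 1)) ∧
      ChOK par' m (fun i => κ i.castSucc) (fun i => Mg i.castSucc) := by
  have hlt : ∀ i : Fin (k + 1), (par i.castSucc : ℕ) < k + 1 := by
    intro i
    by_cases hi : i = 0
    · rw [hi, Fin.castSucc_zero, h.par_zero]
      exact Nat.succ_pos k
    · have h1 : par i.castSucc < i.castSucc := h.par_lt _ (fun h0 => hi (by
        apply Fin.castSucc_injective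
        rw [h0, Fin.castSucc_zero]))
      exact (Fin.lt_def.mp h1).trans i.2
  have hl : (par (Fin.last (k + 1)) : ℕ) < k + 1 := by
    have h1 : par (Fin.last (k + 1)) < Fin.last (k + 1) := h.par_lt _ (by
      intro h0
      have := congrArg Fin.val h0
      rw [Fin.val_last, Fin.val_zero] at this
      omega)
    exact Fin.lt_def.mp h1
  have hp : ∀ i : Fin (k + 1), (⟨par i.castSucc, hlt i⟩ : Fin (k + 1)).castSucc = par i.castSucc :=
    fun i => Fin.ext rfl
  have hne : ∀ i : Fin (k + 1), i ≠ 0 → i.castSucc ≠ 0 := fun i hi h0 => hi (by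
    apply Fin.castSucc_injective
    rw [h0, Fin.castSucc_zero])
  refine ⟨fun i => ⟨par i.castSucc, hlt i⟩, ⟨par (Fin.last (k + 1)), hl⟩, hp, Fin.ext rfl,
    ⟨?_, ?_, h.m_nn, h.m_sum, fun i => h.κ_nn i.castSucc, fun i hi => h.κ_sum _ (hne i hi), ?_, ?_⟩⟩
  · apply Fin.castSucc_injective
    rw [hp, Fin.castSucc_zero, h.par_zero]
  · intro i hi
    have h1 : par i.castSucc < i.castSucc := h.par_lt _ (hne i hi)
    exact Fin.lt_def.mpr (Fin.lt_def.mp h1)
  · show Mg (Fin.castSucc 0) = m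
    rw [Fin.castSucc_zero, h.root]
  · intro i hi y
    show ∑ x, Mg (⟨par i.castSucc, hlt i⟩ : Fin (k + 1)).castSucc x * κ i.castSucc x y =
      Mg i.castSucc y
    rw [hp]
    exact h.cons _ (hne i hi) y

omit [Fintype α] [DecidableEq α] in
private theorem chn_last_ne (k : ℕ) : Fin.last (k + 1) ≠ 0 := by
  intro h0
  have := congrArg Fin.val h0
  rw [Fin.val_last, Fin.val_zero] at this
  omega

omit [DecidableEq α] in
private theorem chn_zero (m : α → ℝ) (par : Fin 1 → Fin 1) (κ : Fin 1 → α → α → ℝ)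
    (G : α → ℝ) : ∑ φ : Fin 1 → α, cw (k := 0) par m κ φ * G (φ 0) = ∑ x, m x * G x := by
  rw [← Equiv.sum_comp (Equiv.funUnique (Fin 1) α)]
  refine sum_congr rfl fun φ _ => ?_
  unfold cw
  rw [Fin.prod_univ_zero, mul_one]
  rfl

theorem cw_nonneg {k : ℕ} {par : Fin (k + 1) → Fin (k + 1)} {m : α → ℝ}
    {κ : Fin (k + 1) → α → α → ℝ} {Mg : Fin (k + 1) → α → ℝ} (h : ChOK par m κ Mg)
    (φ : Fin (k + 1) → α) : 0 ≤ cw par m κ φ := by
  exact mul_nonneg (h.m_nn _) (prod_nonneg fun i _ => h.κ_nn _ _ _)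

theorem cw_sum {k : ℕ} {par : Fin (k + 1) → Fin (k + 1)} {m : α → ℝ}
    {κ : Fin (k + 1) → α → α → ℝ} {Mg : Fin (k + 1) → α → ℝ} (h : ChOK par m κ Mg) :
    ∑ φ, cw par m κ φ = 1 := by
  induction k with
  | zero =>
    have h1 := chn_zero m par κ (fun _ => 1)
    simp only [mul_one] at h1
    rw [h1, h.m_sum]
  | succ k ih =>
    obtain ⟨par', pl, hp, hl, h'⟩ := chn_exists h
    have h1 := chn_split (m := m) (κ := κ) hp hl (fun _ _ => 1)
    simp only [mul_one] at h1
    rw [h1, ← ih h']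
    refine sum_congr rfl fun φ' _ => ?_
    rw [h.κ_sum _ (chn_last_ne k), mul_one]

theorem cw_one {k : ℕ} {par : Fin (k + 1) → Fin (k + 1)} {m : α → ℝ}
    {κ : Fin (k + 1) → α → α → ℝ} {Mg : Fin (k + 1) → α → ℝ} (h : ChOK par m κ Mg)
    (j : Fin (k + 1)) (g : α → ℝ) : ∑ φ, cw par m κ φ * g (φ j) = ∑ x, Mg j x * g x := by
  induction k generalizing g with
  | zero =>
    have h0 : j = 0 := by
      apply Fin.ext
      have := j.2
      rw [Fin.val_zero]
      omega
    rw [h0, h.root]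
    exact chn_zero m par κ g
  | succ k ih =>
    obtain ⟨par', pl, hp, hl, h'⟩ := chn_exists h
    rcases Fin.eq_castSucc_or_eq_last j with ⟨j', rfl⟩ | rfl
    · refine (chn_split (m := m) (κ := κ) hp hl (fun φ' _ => g (φ' j'))).trans ?_
      rw [← ih h' j']
      refine sum_congr rfl fun φ' _ => ?_
      rw [← sum_mul, h.κ_sum _ (chn_last_ne k), one_mul]
    · refine (chn_split (m := m) (κ := κ) hp hl (fun _ y => g y)).trans ?_
      refine (ih h' pl (fun x => ∑ y, κ (Fin.last (k + 1)) x y * g y) ).trans ?_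
      have e1 : ∀ y, Mg (Fin.last (k + 1)) y * g y =
          ∑ x, Mg pl.castSucc x * (κ (Fin.last (k + 1)) x y * g y) := by
        intro y
        rw [← h.cons _ (chn_last_ne k) y, sum_mul, hl]
        exact sum_congr rfl fun x _ => mul_assoc _ _ _
      rw [sum_congr rfl fun y _ => e1 y, sum_comm]
      refine sum_congr rfl fun x _ => ?_
      rw [mul_sum]

theorem cw_edge {k : ℕ} {par : Fin (k + 1) → Fin (k + 1)} {m : α → ℝ}
    {κ : Fin (k + 1) → α → α → ℝ} {Mg : Fin (k + 1) → α → ℝ} (h : ChOK par m κ Mg)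
    (i : Fin (k + 1)) (hi : i ≠ 0) (g : α → α → ℝ) :
    ∑ φ, cw par m κ φ * g (φ (par i)) (φ i) = ∑ x, ∑ y, Mg (par i) x * κ i x y * g x y := by
  induction k with
  | zero =>
    refine absurd (Fin.ext ?_) hi
    have := i.2
    rw [Fin.val_zero]
    omega
  | succ k ih =>
    obtain ⟨par', pl, hp, hl, h'⟩ := chn_exists h
    rcases Fin.eq_castSucc_or_eq_last i with ⟨i', rfl⟩ | rfl
    · have hi' : i' ≠ 0 := by
        rintro rfl
        exact hi (Fin.castSucc_zero)
      rw [← hp i']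
      refine (chn_split (m := m) (κ := κ) hp hl (fun φ' _ => g (φ' (par' i')) (φ' i'))).trans ?_
      refine Eq.trans ?_ (ih h' i' hi')
      refine sum_congr rfl fun φ' _ => ?_
      rw [← sum_mul, h.κ_sum _ (chn_last_ne k), one_mul]
    · rw [← hl]
      refine (chn_split (m := m) (κ := κ) hp hl (fun φ' y => g (φ' pl) y)).trans ?_
      refine (cw_one h' pl (fun x => ∑ y, κ (Fin.last (k + 1)) x y * g x y)).trans ?_
      refine sum_congr rfl fun x _ => ?_
      rw [mul_sum]
      exact sum_congr rfl fun y _ => (mul_assoc _ _ _).symm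

/-- bound of a local function at one vertex -/
def LB {k : ℕ} (m : α → ℝ) (κ : Fin (k + 1) → α → α → ℝ) (i : Fin (k + 1)) (h : α → α → ℝ) (b : ℝ) :
    Prop :=
  (∀ x y, 0 ≤ h x y) ∧ (i = 0 → ∑ y, m y * h y y ≤ b) ∧ (i ≠ 0 → ∀ x, ∑ y, κ i x y * h x y ≤ b)

private theorem chn_Mg_sum {k : ℕ} {par : Fin (k + 1) → Fin (k + 1)} {m : α → ℝ}
    {κ : Fin (k + 1) → α → α → ℝ} {Mg : Fin (k + 1) → α → ℝ} (h : ChOK par m κ Mg)
    (j : Fin (k + 1)) : ∑ x, Mg j x = 1 := by
  have h1 := cw_one h j (fun _ => 1)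
  simp only [mul_one] at h1
  rw [← h1, cw_sum h]

private theorem chn_Mg_nonneg {k : ℕ} {par : Fin (k + 1) → Fin (k + 1)} {m : α → ℝ}
    {κ : Fin (k + 1) → α → α → ℝ} {Mg : Fin (k + 1) → α → ℝ} (h : ChOK par m κ Mg)
    (j : Fin (k + 1)) (x : α) : 0 ≤ Mg j x := by
  have h1 := cw_one h j (fun z => if z = x then 1 else 0)
  have h2 : ∑ z, Mg j z * (if z = x then (1 : ℝ) else 0) = Mg j x := by
    rw [sum_eq_single x]
    · rw [if_pos rfl, mul_one]
    · intro z _ hz
      rw [if_neg hz, mul_zero]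
    · intro hx
      exact absurd (mem_univ x) hx
  rw [← h2, ← h1]
  refine sum_nonneg fun φ _ => mul_nonneg (cw_nonneg h φ) ?_
  split_ifs
  · exact zero_le_one
  · exact le_rfl

theorem cw_hloc {k : ℕ} {par : Fin (k + 1) → Fin (k + 1)} {m : α → ℝ}
    {κ : Fin (k + 1) → α → α → ℝ} {Mg : Fin (k + 1) → α → ℝ} (h : ChOK par m κ Mg)
    {i : Fin (k + 1)} {f : α → α → ℝ} {b : ℝ} (hf : LB m κ i f b) :
    ∑ φ, cw par m κ φ * f (φ (par i)) (φ i) ≤ b := by
  by_cases hi : i = 0
  · subst hi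
    rw [h.par_zero]
    refine le_of_eq_of_le (cw_one h 0 (fun x => f x x)) ?_
    rw [h.root]
    exact hf.2.1 rfl
  · rw [cw_edge h i hi f]
    have h1 : ∀ x, ∑ y, Mg (par i) x * κ i x y * f x y ≤ Mg (par i) x * b := by
      intro x
      have h2 : ∑ y, Mg (par i) x * κ i x y * f x y = Mg (par i) x * ∑ y, κ i x y * f x y := by
        rw [mul_sum]
        exact sum_congr rfl fun y _ => mul_assoc _ _ _
      rw [h2]
      exact mul_le_mul_of_nonneg_left (hf.2.2 hi x) (chn_Mg_nonneg h _ _)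
    refine (sum_le_sum fun x _ => h1 x).trans (le_of_eq ?_)
    rw [← sum_mul, chn_Mg_sum h, one_mul]

omit [DecidableEq α] in
private theorem chn_LB_cast {k : ℕ} {m : α → ℝ} {κ : Fin (k + 2) → α → α → ℝ} {i : Fin (k + 1)}
    {f : α → α → ℝ} {b : ℝ} (hf : LB m κ i.castSucc f b) : LB m (fun i => κ i.castSucc) i f b := by
  refine ⟨hf.1, fun hi => hf.2.1 ?_, fun hi => hf.2.2 ?_⟩
  · rw [hi, Fin.castSucc_zero]
  · intro h0
    apply hi
    apply Fin.castSucc_injective
    rw [h0, Fin.castSucc_zero]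

omit [DecidableEq α] in
private theorem chn_LB_nonneg {k : ℕ} {par : Fin (k + 1) → Fin (k + 1)} {m : α → ℝ}
    {κ : Fin (k + 1) → α → α → ℝ} {Mg : Fin (k + 1) → α → ℝ} (h : ChOK par m κ Mg)
    {i : Fin (k + 1)} {f : α → α → ℝ} {b : ℝ} (hf : LB m κ i f b) : 0 ≤ b := by
  by_cases hi : i = 0
  · exact (sum_nonneg fun y _ => mul_nonneg (h.m_nn y) (hf.1 y y)).trans (hf.2.1 hi)
  · have hne : Nonempty α := by
      by_contra hcon
      rw [not_nonempty_iff] at hcon
      have h1 := h.m_sum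
      rw [Fintype.sum_empty] at h1
      exact zero_ne_one h1
    obtain ⟨x⟩ := hne
    exact (sum_nonneg fun y _ => mul_nonneg (h.κ_nn i x y) (hf.1 x y)).trans (hf.2.2 hi x)

theorem cw_two {k : ℕ} {par : Fin (k + 1) → Fin (k + 1)} {m : α → ℝ}
    {κ : Fin (k + 1) → α → α → ℝ} {Mg : Fin (k + 1) → α → ℝ} (h : ChOK par m κ Mg)
    {i j : Fin (k + 1)} (hij : i ≠ j) {f f' : α → α → ℝ} {b b' : ℝ} (hb : 0 ≤ b)
    (hf : LB m κ i f b) (hf' : LB m κ j f' b') :
    ∑ φ, cw par m κ φ * (f (φ (par i)) (φ i) * f' (φ (par j)) (φ j)) ≤ b * b' := by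
  induction k with
  | zero =>
    refine absurd (Fin.ext ?_) hij
    have := i.2
    have := j.2
    omega
  | succ k ih =>
    obtain ⟨par', pl, hp, hl, h'⟩ := chn_exists h
    rcases Fin.eq_castSucc_or_eq_last i with ⟨i', rfl⟩ | rfl
    · rcases Fin.eq_castSucc_or_eq_last j with ⟨j', rfl⟩ | rfl
      · rw [← hp i', ← hp j']
        refine le_of_eq_of_le (chn_split (m := m) (κ := κ) hp hl (fun φ' _ =>
          f (φ' (par' i')) (φ' i') * f' (φ' (par' j')) (φ' j'))) ?_
        refine le_of_eq_of_le ?_ (ih h' (fun h0 => hij (by rw [h0])) (chn_LB_cast hf)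
          (chn_LB_cast hf'))
        refine sum_congr rfl fun φ' _ => ?_
        rw [← sum_mul, h.κ_sum _ (chn_last_ne k), one_mul]
      · rw [← hp i', ← hl]
        refine le_of_eq_of_le (chn_split (m := m) (κ := κ) hp hl (fun φ' y =>
          f (φ' (par' i')) (φ' i') * f' (φ' pl) y)) ?_
        have h1 : ∀ φ' : Fin (k + 1) → α, cw par' m (fun i => κ i.castSucc) φ' *
            ∑ y, κ (Fin.last (k + 1)) (φ' pl) y * (f (φ' (par' i')) (φ' i') * f' (φ' pl) y) ≤
            cw par' m (fun i => κ i.castSucc) φ' * f (φ' (par' i')) (φ' i') * b' := by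
          intro φ'
          have h2 : ∑ y, κ (Fin.last (k + 1)) (φ' pl) y *
              (f (φ' (par' i')) (φ' i') * f' (φ' pl) y) =
              f (φ' (par' i')) (φ' i') * ∑ y, κ (Fin.last (k + 1)) (φ' pl) y * f' (φ' pl) y := by
            rw [mul_sum]
            exact sum_congr rfl fun y _ => by ring
          rw [h2, mul_assoc]
          exact mul_le_mul_of_nonneg_left (mul_le_mul_of_nonneg_left
            (hf'.2.2 (chn_last_ne k) _) (hf.1 _ _)) (cw_nonneg h' φ')
        refine (sum_le_sum fun φ' _ => h1 φ').trans ?_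
        rw [← sum_mul]
        exact mul_le_mul_of_nonneg_right (cw_hloc h' (chn_LB_cast hf)) (chn_LB_nonneg h hf')
    · rcases Fin.eq_castSucc_or_eq_last j with ⟨j', rfl⟩ | rfl
      · rw [← hp j', ← hl]
        refine le_of_eq_of_le (chn_split (m := m) (κ := κ) hp hl (fun φ' y =>
          f (φ' pl) y * f' (φ' (par' j')) (φ' j'))) ?_
        have h1 : ∀ φ' : Fin (k + 1) → α, cw par' m (fun i => κ i.castSucc) φ' *
            ∑ y, κ (Fin.last (k + 1)) (φ' pl) y * (f (φ' pl) y * f' (φ' (par' j')) (φ' j')) ≤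
            b * (cw par' m (fun i => κ i.castSucc) φ' * f' (φ' (par' j')) (φ' j')) := by
          intro φ'
          have h2 : ∑ y, κ (Fin.last (k + 1)) (φ' pl) y *
              (f (φ' pl) y * f' (φ' (par' j')) (φ' j')) =
              (∑ y, κ (Fin.last (k + 1)) (φ' pl) y * f (φ' pl) y) * f' (φ' (par' j')) (φ' j') := by
            rw [sum_mul]
            exact sum_congr rfl fun y _ => by ring
          rw [h2]
          have h3 := mul_le_mul_of_nonneg_left (mul_le_mul_of_nonneg_right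
            (hf.2.2 (chn_last_ne k) (φ' pl)) (hf'.1 (φ' (par' j')) (φ' j'))) (cw_nonneg h' φ')
          refine h3.trans (le_of_eq ?_)
          ring
        refine (sum_le_sum fun φ' _ => h1 φ').trans ?_
        rw [← mul_sum]
        exact mul_le_mul_of_nonneg_left (cw_hloc h' (chn_LB_cast hf')) hb
      · exact absurd rfl hij

end SSB
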