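import Pool.Agent.Lib.MP_8a819d_co.BD.Nib6

/-!
# MP_8a819d_co: the nibble theorem

JOB Nib7 (all of this file).

`nib_ind`: for `j` steps. Let `ρ_0 = 1`, `c_0 = 0`, `ρ_{j+1} = k ε^2 + ρ_j exp (-ε) + c_j θ`,
`c_{j+1} = ε + c_j exp (-ε)` where `θ` is an upper bound of
`η + 2 k exp (ε k) (nu k ε κ' / η^2)` for all `κ' ≤ κ exp (ε k j)`. Claim: for every state
(`NState S κ U w`) there is a matching `M` (edges with `w e ≠ 0`, `S e ⊆ U` follows) such that the
number of `v ∈ V0 ∩ U` not covered by `M` is at most `ρ_j |U| + c_j ∑ v ∈ V0 ∩ U, (1 - ndeg v)`.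
Induction on `j`: `j = 0` take `M = ∅`; step: `nib_step` with `ρ = ρ_j`, `c = c_j`, then the induction
hypothesis for `(U', w')`; the edges of the second matching lie inside `U'` (support), so they are
disjoint from those of the first. `nu` is increasing in `κ`.

`nibble`: we may assume `k ≥ 1` (if `k = 0` there are no edges at all as they are nonempty; then
`V0` must be empty if `κ < 1`). By induction `c_j ≤ ε / (1 - exp (-ε)) ≤ 2` for `ε ≤ 1` and
`ρ_j ≤ exp (-ε j) + (k ε^2 + 2 θ) / (1 - exp (-ε)) ≤ exp (-ε j) + 2 (k ε^2 + 2 θ) / ε`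
(`1 - exp (-ε) ≥ ε / 2` for `0 ≤ ε ≤ 1`). Choose
`ε = min 1 (μ / (8 k))`, then `j` with `exp (-ε j) ≤ μ / 4`, `η = ε μ / 32`, `θ = ε μ / 16`, and `κ`
so small that `2 k exp (ε k) nu k ε (κ exp (ε k j)) / η^2 ≤ ε μ / 32` (`nu k ε κ → 0` as `κ → 0`, `nu`
continuous) and `κ ≤ μ / 8`: then the number of uncovered vertices is at most
`(μ/4 + 2 k ε + 4 θ / ε) |V| + 2 κ |V0| ≤ μ |V|`.
-/

set_option autoImplicit false

namespace SSB

open Finset

private theorem nib7_nu_mono {k : ℕ} {ε κ κ' : ℝ} (hε : 0 ≤ ε) (h : κ ≤ κ') :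
    nu k ε κ ≤ nu k ε κ' := by
  unfold nu
  have h1 : 4 * ε * (k : ℝ) ^ 2 * κ ≤ 4 * ε * (k : ℝ) ^ 2 * κ' :=
    mul_le_mul_of_nonneg_left h (by positivity)
  have h2 := Real.exp_le_exp.2 h1
  have h3 : Real.exp (2 * ε * k) * k * κ ≤ Real.exp (2 * ε * k) * k * κ' :=
    mul_le_mul_of_nonneg_left h (by positivity)
  linarith

private theorem nib7_nu_zero (k : ℕ) (ε : ℝ) : nu k ε 0 = 0 := by
  unfold nu
  rw [mul_zero, mul_zero, Real.exp_zero]
  ring

private theorem nib7_nu_nonneg {k : ℕ} {ε κ : ℝ} (hε : 0 ≤ ε) (h : 0 ≤ κ) : 0 ≤ nu k ε κ := by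
  rw [← nib7_nu_zero k ε]
  exact nib7_nu_mono hε h

private theorem nib7_exp {ε : ℝ} (h0 : 0 ≤ ε) (h1 : ε ≤ 1) : Real.exp (-ε) ≤ 1 - ε / 2 := by
  have h2 := Real.add_one_le_exp ε
  have h3 : Real.exp (-ε) * Real.exp ε = 1 := by
    rw [← Real.exp_add, neg_add_cancel, Real.exp_zero]
  have h4 : Real.exp (-ε) * (ε + 1) ≤ 1 :=
    (mul_le_mul_of_nonneg_left h2 (Real.exp_pos _).le).trans (le_of_eq h3)
  have h5 : 1 ≤ (1 - ε / 2) * (ε + 1) := by nlinarith
  have h6 : 0 < ε + 1 := by linarith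
  exact le_of_mul_le_mul_right (h4.trans h5) h6

theorem nib_ind {V E : Type} [Fintype V] [Fintype E] [DecidableEq V] [DecidableEq E]
    {S : E → Finset V} {k : ℕ} (hk : 1 ≤ k) (hS : ∀ e, (S e).card ≤ k) (hS1 : ∀ e, (S e).Nonempty)
    {ε η θ : ℝ} (hε : 0 ≤ ε) (hη : 0 < η) (V0 : Finset V) (ρ c : ℕ → ℝ) (hρ0 : ρ 0 = 1) (hc0 : c 0 = 0)
    (hρ : ∀ j, ρ (j + 1) = k * ε ^ 2 + ρ j * Real.exp (-ε) + c j * θ)
    (hc : ∀ j, c (j + 1) = ε + c j * Real.exp (-ε)) :
    ∀ (j : ℕ) (κ : ℝ) (U : Finset V) (w : E → ℝ), 0 ≤ κ → NState S κ U w →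
      η + 2 * k * Real.exp (ε * k) * (nu k ε (κ * Real.exp (ε * k * j)) / η ^ 2) ≤ θ →
      ∃ M : Finset E, (∀ e ∈ M, w e ≠ 0) ∧ (∀ e ∈ M, ∀ f ∈ M, e ≠ f → Disjoint (S e) (S f)) ∧
        ((((V0 ∩ U).filter (fun v => ∀ e ∈ M, v ∉ S e)).card : ℕ) : ℝ) ≤
          ρ j * U.card + c j * ∑ v ∈ V0 ∩ U, (1 - ndeg S w v) := by
  intro j
  induction j with
  | zero =>
    intro κ U w _ _ _
    refine ⟨∅, fun e he => absurd he (Finset.notMem_empty e),
      fun e he => absurd he (Finset.notMem_empty e), ?_⟩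
    rw [hρ0, hc0, one_mul, zero_mul, add_zero]
    exact_mod_cast (Finset.card_filter_le _ _).trans (Finset.card_le_card Finset.inter_subset_right)
  | succ j ih =>
    intro κ U w hκ h hθ
    have hθ0 : 0 ≤ θ := by
      refine le_trans ?_ hθ
      have h1 : 0 ≤ nu k ε (κ * Real.exp (ε * k * (j + 1 : ℕ))) :=
        nib7_nu_nonneg hε (mul_nonneg hκ (Real.exp_pos _).le)
      positivity
    have hc1 : ∀ i, 0 ≤ c i := by
      intro i
      induction i with
      | zero => rw [hc0]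
      | succ i ihi =>
        rw [hc]
        exact add_nonneg hε (mul_nonneg ihi (Real.exp_pos _).le)
    have hρ1 : ∀ i, 0 ≤ ρ i := by
      intro i
      induction i with
      | zero => rw [hρ0]; exact zero_le_one
      | succ i ihi =>
        rw [hρ]
        have h1 := mul_nonneg ihi (Real.exp_pos (-ε)).le
        have h2 := mul_nonneg (hc1 i) hθ0
        positivity
    obtain ⟨M1, U', w', hU', hst, hw', hM1w, hM1d, hM1U, hb⟩ :=
      nib_step h hκ hk hS hS1 hε hη V0 (hρ1 j) (hc1 j)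
    have hκ' : 0 ≤ κ * Real.exp (ε * k) := mul_nonneg hκ (Real.exp_pos _).le
    have he : κ * Real.exp (ε * k) * Real.exp (ε * k * j) =
        κ * Real.exp (ε * k * (j + 1 : ℕ)) := by
      rw [mul_assoc, ← Real.exp_add]
      push_cast
      ring_nf
    obtain ⟨M2, hM2w, hM2d, hM2⟩ := ih (κ * Real.exp (ε * k)) U' w' hκ' hst (by rw [he]; exact hθ)
    have hM2U : ∀ e ∈ M2, S e ⊆ U' := fun e he => hst.supp e (hM2w e he)
    refine ⟨M1 ∪ M2, ?_, ?_, ?_⟩
    · intro e he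
      rcases Finset.mem_union.1 he with he | he
      · exact hM1w e he
      · exact hw' e (hM2w e he)
    · intro e he f hf hef
      rcases Finset.mem_union.1 he with he | he <;> rcases Finset.mem_union.1 hf with hf | hf
      · exact hM1d e he f hf hef
      · exact (hM1U e he).mono_right (hM2U f hf)
      · exact ((hM1U f hf).mono_right (hM2U e he)).symm
      · exact hM2d e he f hf hef
    · have hsub : (V0 ∩ U).filter (fun v => ∀ e ∈ M1 ∪ M2, v ∉ S e) ⊆
          (V0 ∩ U).filter (fun v => v ∉ U' ∧ ∀ e ∈ M1, v ∉ S e) ∪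
            (V0 ∩ U').filter (fun v => ∀ e ∈ M2, v ∉ S e) := by
        intro v hv
        rw [Finset.mem_filter, Finset.mem_inter] at hv
        rw [Finset.mem_union, Finset.mem_filter, Finset.mem_filter, Finset.mem_inter,
          Finset.mem_inter]
        by_cases hvU : v ∈ U'
        · exact Or.inr ⟨⟨hv.1.1, hvU⟩, fun e he => hv.2 e (Finset.mem_union_right _ he)⟩
        · exact Or.inl ⟨hv.1, hvU, fun e he => hv.2 e (Finset.mem_union_left _ he)⟩
      have hcard : ((((V0 ∩ U).filter (fun v => ∀ e ∈ M1 ∪ M2, v ∉ S e)).card : ℕ) : ℝ) ≤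
          ((((V0 ∩ U).filter (fun v => v ∉ U' ∧ ∀ e ∈ M1, v ∉ S e)).card : ℕ) : ℝ) +
            ((((V0 ∩ U').filter (fun v => ∀ e ∈ M2, v ∉ S e)).card : ℕ) : ℝ) := by
        exact_mod_cast (Finset.card_le_card hsub).trans (Finset.card_union_le _ _)
      have hκκ : κ ≤ κ * Real.exp (ε * k * (j + 1 : ℕ)) := by
        have h1 : 1 ≤ Real.exp (ε * k * (j + 1 : ℕ)) := Real.one_le_exp (by positivity)
        exact le_mul_of_one_le_right hκ h1
      have hnu := nib7_nu_mono (k := k) hε hκκ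
      have hθ' : η + 2 * k * Real.exp (ε * k) * (nu k ε κ / η ^ 2) ≤ θ := by
        refine le_trans ?_ hθ
        have h1 : nu k ε κ / η ^ 2 ≤ nu k ε (κ * Real.exp (ε * k * (j + 1 : ℕ))) / η ^ 2 :=
          div_le_div_of_nonneg_right hnu (by positivity)
        have h2 := mul_le_mul_of_nonneg_left h1
          (show 0 ≤ 2 * (k : ℝ) * Real.exp (ε * k) by positivity)
        linarith
      rw [hρ, hc]
      have h3 := mul_le_mul_of_nonneg_right (mul_le_mul_of_nonneg_left hθ' (hc1 j))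
        (Nat.cast_nonneg (α := ℝ) U.card)
      linarith

theorem nibble (k : ℕ) (μ : ℝ) (hμ : 0 < μ) : ∃ κ : ℝ, 0 < κ ∧
    ∀ (V E : Type) [Fintype V] [Fintype E] [DecidableEq V] [DecidableEq E]
      (S : E → Finset V) (w : E → ℝ) (V0 : Finset V),
      (∀ e, (S e).card ≤ k) → (∀ e, (S e).Nonempty) → (∀ e, 0 ≤ w e) →
      (∀ v, ∑ e with v ∈ S e, w e ≤ 1) →
      (∀ v ∈ V0, 1 - κ ≤ ∑ e with v ∈ S e, w e) →
      (∀ u v, u ≠ v → ∑ e with (u ∈ S e ∧ v ∈ S e), w e ≤ κ) →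
      ∃ M : Finset E, (∀ e ∈ M, 0 < w e) ∧ (∀ e ∈ M, ∀ f ∈ M, e ≠ f → Disjoint (S e) (S f)) ∧
        ((V0.filter (fun v => ∀ e ∈ M, v ∉ S e)).card : ℝ) ≤ μ * Fintype.card V := by
  rcases Nat.eq_zero_or_pos k with hk | hk
  · refine ⟨1 / 2, by norm_num, ?_⟩
    intro V E _ _ _ _ S w V0 hS hS1 _ _ hV0 _
    refine ⟨∅, fun e he => absurd he (Finset.notMem_empty e),
      fun e he => absurd he (Finset.notMem_empty e), ?_⟩
    have hV : V0 = ∅ := by
      rw [Finset.eq_empty_iff_forall_notMem]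
      intro v hv
      have h1 := hV0 v hv
      have h2 : ∑ e with v ∈ S e, w e = 0 := by
        refine Finset.sum_eq_zero fun e _ => ?_
        have h3 := hS e
        rw [hk] at h3
        exact absurd (hS1 e) (by
          rw [Finset.card_eq_zero.1 (Nat.le_zero.1 h3)]
          exact Finset.not_nonempty_empty)
      rw [h2] at h1
      norm_num at h1
    rw [hV, Finset.filter_empty, Finset.card_empty, Nat.cast_zero]
    positivity
  · have hk' : (0 : ℝ) < k := Nat.cast_pos.2 hk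
    obtain ⟨ε, hε0, hε1, hε2⟩ : ∃ ε : ℝ, 0 < ε ∧ ε ≤ 1 ∧ ε ≤ μ / (8 * k) :=
      ⟨min 1 (μ / (8 * k)), lt_min one_pos (by positivity), min_le_left _ _, min_le_right _ _⟩
    have hkε : 8 * k * ε ≤ μ := by
      rw [le_div_iff₀ (by positivity)] at hε2
      linarith
    have hexp := nib7_exp hε0.le hε1
    have hexp0 := Real.exp_pos (-ε)
    obtain ⟨j, hj⟩ : ∃ j : ℕ, Real.exp (-ε) ^ j < μ / 4 :=
      exists_pow_lt_of_lt_one (by positivity) (by linarith)
    set η : ℝ := ε * μ / 32 with hη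
    have hη0 : 0 < η := by positivity
    set θ : ℝ := ε * μ / 16 with hθ
    have hθ0 : 0 < θ := by positivity
    obtain ⟨κ, hκ0, hκ1, hκ2⟩ : ∃ κ : ℝ, 0 < κ ∧ κ ≤ μ / 8 ∧
        2 * k * Real.exp (ε * k) * (nu k ε (κ * Real.exp (ε * k * j)) / η ^ 2) ≤ ε * μ / 32 := by
      have hcont : Continuous fun κ : ℝ =>
          2 * k * Real.exp (ε * k) * (nu k ε (κ * Real.exp (ε * k * j)) / η ^ 2) := by
        unfold nu
        fun_prop
      have h0 : 2 * k * Real.exp (ε * k) * (nu k ε (0 * Real.exp (ε * k * j)) / η ^ 2) <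
          ε * μ / 32 := by
        rw [zero_mul, nib7_nu_zero, zero_div, mul_zero]
        positivity
      have h1 := (hcont.tendsto 0).eventually (gt_mem_nhds h0)
      have h2 : ∀ᶠ κ : ℝ in nhds 0, κ < μ / 8 := gt_mem_nhds (by positivity)
      have h3 := (h1.and h2).filter_mono (nhdsWithin_le_nhds (s := Set.Ioi (0 : ℝ)))
      obtain ⟨κ, hκ⟩ := (h3.and (self_mem_nhdsWithin (a := (0 : ℝ)) (s := Set.Ioi 0))).exists
      exact ⟨κ, hκ.2, hκ.1.2.le, hκ.1.1.le⟩
    refine ⟨κ, hκ0, ?_⟩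
    intro V E _ _ _ _ S w V0 hS hS1 hw hdeg hV0 hco
    obtain ⟨c, hc0, hc⟩ : ∃ c : ℕ → ℝ, c 0 = 0 ∧ ∀ i, c (i + 1) = ε + c i * Real.exp (-ε) :=
      ⟨fun i => Nat.rec 0 (fun _ x => ε + x * Real.exp (-ε)) i, rfl, fun _ => rfl⟩
    obtain ⟨ρ, hρ0, hρ⟩ : ∃ ρ : ℕ → ℝ, ρ 0 = 1 ∧
        ∀ i, ρ (i + 1) = k * ε ^ 2 + ρ i * Real.exp (-ε) + c i * θ :=
      ⟨fun i => Nat.rec 1 (fun i x => k * ε ^ 2 + x * Real.exp (-ε) + c i * θ) i, rfl,
        fun _ => rfl⟩
    have hst : NState S κ Finset.univ w :=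
      ⟨hw, fun e _ => Finset.subset_univ _, hdeg, hco⟩
    obtain ⟨M, hM1, hM2, hM3⟩ := nib_ind hk hS hS1 hε0.le hη0 V0 ρ c hρ0 hc0 hρ hc j κ
      Finset.univ w hκ0.le hst (by linarith)
    refine ⟨M, fun e he => lt_of_le_of_ne (hw e) (hM1 e he).symm, hM2, ?_⟩
    rw [Finset.inter_univ, Finset.card_univ] at hM3
    have hc2 : ∀ i, c i ≤ 2 := by
      intro i
      induction i with
      | zero => rw [hc0]; norm_num
      | succ i ihi =>
        rw [hc]
        have h1 := mul_le_mul_of_nonneg_right ihi hexp0.le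
        linarith
    have hcn : ∀ i, 0 ≤ c i := by
      intro i
      induction i with
      | zero => rw [hc0]
      | succ i ihi =>
        rw [hc]
        exact add_nonneg hε0.le (mul_nonneg ihi hexp0.le)
    have hρ2 : ∀ i, ρ i ≤ Real.exp (-ε) ^ i + (2 * k * ε + μ / 4) := by
      intro i
      induction i with
      | zero =>
        rw [hρ0, pow_zero]
        have : 0 ≤ 2 * k * ε + μ / 4 := by positivity
        linarith
      | succ i ihi =>
        rw [hρ, pow_succ (Real.exp (-ε)) i]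
        have h1 := mul_le_mul_of_nonneg_right ihi hexp0.le
        have h2 := mul_le_mul_of_nonneg_right (hc2 i) hθ0.le
        have h3 := mul_le_mul_of_nonneg_left hexp (show 0 ≤ 2 * k * ε + μ / 4 by positivity)
        have h4 : (2 * k * ε + μ / 4) * (1 - ε / 2) =
            2 * k * ε + μ / 4 - k * ε ^ 2 - 2 * θ := by
          rw [hθ]
          ring
        have h5 : (Real.exp (-ε) ^ i + (2 * k * ε + μ / 4)) * Real.exp (-ε) =
            Real.exp (-ε) ^ i * Real.exp (-ε) + (2 * k * ε + μ / 4) * Real.exp (-ε) := by ring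
        linarith
    have hsum : ∑ v ∈ V0, (1 - ndeg S w v) ≤ κ * Fintype.card V := by
      have h1 : ∑ v ∈ V0, (1 - ndeg S w v) ≤ ∑ v ∈ V0, κ := by
        refine Finset.sum_le_sum fun v hv => ?_
        have h2 := hV0 v hv
        unfold ndeg
        linarith
      refine h1.trans ?_
      rw [Finset.sum_const, nsmul_eq_mul, mul_comm]
      refine mul_le_mul_of_nonneg_left ?_ hκ0.le
      exact_mod_cast Finset.card_le_univ V0
    have hsn : 0 ≤ ∑ v ∈ V0, (1 - ndeg S w v) :=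
      Finset.sum_nonneg fun v _ => sub_nonneg.2 (hdeg v)
    have hV : (0 : ℝ) ≤ Fintype.card V := Nat.cast_nonneg _
    have h1 : ρ j ≤ 3 * μ / 4 := by
      have := hρ2 j
      linarith
    have h2 := mul_le_mul_of_nonneg_right h1 hV
    have h3 : c j * ∑ v ∈ V0, (1 - ndeg S w v) ≤ 2 * (μ / 8 * Fintype.card V) := by
      refine mul_le_mul (hc2 j) (hsum.trans (mul_le_mul_of_nonneg_right hκ1 hV)) hsn (by norm_num)
    have h4 : 3 * μ / 4 * (Fintype.card V : ℝ) + 2 * (μ / 8 * Fintype.card V) =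
        μ * Fintype.card V := by ring
    exact hM3.trans ((add_le_add h2 h3).trans (le_of_eq h4))

end SSB
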