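import Pool.Agent.Lib.MP_8a819d_co.BD.Dc1

/-!
# MP_8a819d_co: decomposition of the tree, 2. Units and types

`nbh n par X`: `X` and its neighbours. Units: vertices of degree `t`, at distance at least `3` from `S`, with pairwise distances at
least `4`.

JOB Dc2a: `nbh_card`, `nbh_mono`, `choose_units`. JOB Dc2b: `types` (`ty_facts`).

Dc2a. `|nbh X| ≤ (Δ + 1)|X|` if all degrees are at most `Δ`. `choose_units`: take a maximal subset `V ⊆ cand` such that different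
elements `u, v` satisfy `v ∉ nbh (nbh (nbh {u}))`; by maximality every `c ∈ cand` lies in `nbh^3 {u}` for some `u ∈ V` (membership in `nbh^3` is
symmetric), so `|cand| ≤ |V| (Δ + 1)^3`.
Dc2b. `Ut` the set of units, `ty v = U` if `v ∈ Ut`, `P` if `v ∈ nbh Ut \ Ut`, `O` otherwise. Facts:
* a unit `v` is not in `nbh (nbh S)`: so `v ∉ S`, `v ≠ 0` (`0 ∈ S`), its neighbours are not in `nbh S`, in particular not in `S`; they are
  of type `P` (no two units are adjacent).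
* a vertex `p` of type `P` is adjacent to a unit `v`; `p ∉ nbh S` (otherwise `v ∈ nbh (nbh S)`), so `p ∉ S`, `p ≠ 0`, `par p ∉ S`. It is adjacent
  to no second unit `v'` (`v' ∈ nbh (nbh {v})`). No two vertices `p, p'` of type `P` are adjacent: if their units `v, v'` are different,
  `v' ∈ nbh^3 {v}`; if they are equal there would be a triangle `v, p, p'`; say `p = par p'`; `v` is adjacent to `p'`, so (`v ≠ p`)
  `par v = p'`; `v` is adjacent to `p`: `par v = p` (impossible) or `par p = v`, but `p < p' < v`: impossible.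
* so a non unit neighbour of `p` of type `P` is of type `O`; if `ty (par p) ≠ U` then the unit is a child of `p`, the only one, and `par p` is
  of type `O`.
* elements of `S` are of type `O`.
* `ty_ok`: for `i ∉ S`, `i ≥ 1`, `par i ∉ S`: `okTy (ty (par i)) (ty i)`.
-/

set_option autoImplicit false

namespace SSB

open Finset

def nbh (n : ℕ) (par : ℕ → ℕ) (X : Finset ℕ) : Finset ℕ :=
  X ∪ ((X.filter (fun i => 1 ≤ i ∧ i < n)).image par) ∪ X.biUnion (chs n par)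

theorem mem_nbh {n : ℕ} {par : ℕ → ℕ} {X : Finset ℕ} {v : ℕ} :
    v ∈ nbh n par X ↔ v ∈ X ∨ (∃ i ∈ X, 1 ≤ i ∧ i < n ∧ par i = v) ∨ (v < n ∧ 1 ≤ v ∧ par v ∈ X) := by
  unfold nbh
  rw [Finset.mem_union, Finset.mem_union, Finset.mem_image, Finset.mem_biUnion, or_assoc]
  refine or_congr Iff.rfl (or_congr ?_ ?_)
  · constructor
    · rintro ⟨i, hi, h⟩
      rw [Finset.mem_filter] at hi
      exact ⟨i, hi.1, hi.2.1, hi.2.2, h⟩
    · rintro ⟨i, hi, h1, h2, h⟩
      exact ⟨i, Finset.mem_filter.2 ⟨hi, h1, h2⟩, h⟩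
  · constructor
    · rintro ⟨i, hi, h⟩
      rw [chs, Finset.mem_filter, Finset.mem_range] at h
      exact ⟨h.1, h.2.1, by rw [h.2.2]; exact hi⟩
    · rintro ⟨h1, h2, h3⟩
      refine ⟨par v, h3, ?_⟩
      rw [chs, Finset.mem_filter, Finset.mem_range]
      exact ⟨h1, h2, rfl⟩

private theorem dc2a_mem {n : ℕ} {par : ℕ → ℕ} {X : Finset ℕ} {v : ℕ} :
    v ∈ nbh n par X ↔ ∃ u ∈ X, v ∈ nbh n par {u} := by
  constructor
  · intro h
    rcases mem_nbh.1 h with h | ⟨i, hi, h1, h2, h3⟩ | ⟨h1, h2, h3⟩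
    · exact ⟨v, h, mem_nbh.2 (Or.inl (Finset.mem_singleton_self v))⟩
    · exact ⟨i, hi, mem_nbh.2 (Or.inr (Or.inl ⟨i, Finset.mem_singleton_self i, h1, h2, h3⟩))⟩
    · exact ⟨par v, h3, mem_nbh.2 (Or.inr (Or.inr ⟨h1, h2, Finset.mem_singleton_self _⟩))⟩
  · rintro ⟨u, hu, h⟩
    rcases mem_nbh.1 h with h | ⟨i, hi, h1, h2, h3⟩ | ⟨h1, h2, h3⟩
    · rw [Finset.mem_singleton] at h
      rw [h]
      exact mem_nbh.2 (Or.inl hu)
    · rw [Finset.mem_singleton] at hi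
      rw [hi] at h1 h2 h3
      exact mem_nbh.2 (Or.inr (Or.inl ⟨u, hu, h1, h2, h3⟩))
    · rw [Finset.mem_singleton] at h3
      exact mem_nbh.2 (Or.inr (Or.inr ⟨h1, h2, by rw [h3]; exact hu⟩))

private theorem dc2a_symm {n : ℕ} {par : ℕ → ℕ} {u v : ℕ} (h : v ∈ nbh n par {u}) :
    u ∈ nbh n par {v} := by
  rcases mem_nbh.1 h with h | ⟨i, hi, h1, h2, h3⟩ | ⟨h1, h2, h3⟩
  · rw [Finset.mem_singleton] at h
    rw [h]
    exact mem_nbh.2 (Or.inl (Finset.mem_singleton_self u))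
  · rw [Finset.mem_singleton] at hi
    rw [hi] at h1 h2 h3
    exact mem_nbh.2 (Or.inr (Or.inr ⟨h2, h1, Finset.mem_singleton.2 h3⟩))
  · rw [Finset.mem_singleton] at h3
    exact mem_nbh.2 (Or.inr (Or.inl ⟨v, Finset.mem_singleton_self v, h2, h1, h3⟩))

private theorem dc2a_symm3 {n : ℕ} {par : ℕ → ℕ} {u v : ℕ}
    (h : v ∈ nbh n par (nbh n par (nbh n par {u}))) :
    u ∈ nbh n par (nbh n par (nbh n par {v})) := by
  obtain ⟨y, hy, hv⟩ := dc2a_mem.1 h
  obtain ⟨x, hx, hy'⟩ := dc2a_mem.1 hy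
  exact dc2a_mem.2 ⟨x, dc2a_mem.2 ⟨y, dc2a_symm hv, dc2a_symm hy'⟩, dc2a_symm hx⟩

private theorem dc2a_self {n : ℕ} {par : ℕ → ℕ} {X : Finset ℕ} {v : ℕ} (h : v ∈ X) :
    v ∈ nbh n par X := mem_nbh.2 (Or.inl h)

theorem nbh_card {n Δ : ℕ} {par : ℕ → ℕ} (hdeg : ∀ i < n, pdeg n par i ≤ Δ) {X : Finset ℕ}
    (hX : X ⊆ range n) : (nbh n par X).card ≤ (Δ + 1) * X.card := by
  have hsub : nbh n par X ⊆ X.biUnion fun i =>
      insert i ((if i = 0 then ∅ else {par i}) ∪ chs n par i) := by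
    intro v hv
    rw [Finset.mem_biUnion]
    rcases mem_nbh.1 hv with h | ⟨i, hi, h1, h2, h3⟩ | ⟨h1, h2, h3⟩
    · exact ⟨v, h, Finset.mem_insert_self _ _⟩
    · refine ⟨i, hi, Finset.mem_insert_of_mem (Finset.mem_union_left _ ?_)⟩
      rw [if_neg (by omega), Finset.mem_singleton]
      exact h3.symm
    · refine ⟨par v, h3, Finset.mem_insert_of_mem (Finset.mem_union_right _ ?_)⟩
      rw [chs, Finset.mem_filter, Finset.mem_range]
      exact ⟨h1, h2, rfl⟩
  refine (Finset.card_le_card hsub).trans ?_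
  rw [mul_comm]
  refine Finset.card_biUnion_le_card_mul _ _ _ fun i hi => ?_
  have hin : i < n := Finset.mem_range.1 (hX hi)
  have h1 := hdeg i hin
  unfold pdeg at h1
  have h2 := Finset.card_insert_le i ((if i = 0 then (∅ : Finset ℕ) else {par i}) ∪ chs n par i)
  have h3 := Finset.card_union_le (if i = 0 then (∅ : Finset ℕ) else {par i}) (chs n par i)
  have h4 : (if i = 0 then (∅ : Finset ℕ) else {par i}).card = if i = 0 then 0 else 1 := by
    split_ifs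
    · exact Finset.card_empty
    · exact Finset.card_singleton _
  rw [h4] at h3
  omega

theorem nbh_sub {n : ℕ} {par : ℕ → ℕ} (hpar : IsPar n par) {X : Finset ℕ} (hX : X ⊆ range n) :
    nbh n par X ⊆ range n := by
  intro v hv
  rw [Finset.mem_range]
  rcases mem_nbh.1 hv with h | ⟨i, hi, h1, h2, h3⟩ | ⟨h1, h2, h3⟩
  · exact Finset.mem_range.1 (hX h)
  · have h4 := hpar i h1 h2
    omega
  · exact h1

theorem choose_units {n Δ : ℕ} {par : ℕ → ℕ} (hpar : IsPar n par) (hdeg : ∀ i < n, pdeg n par i ≤ Δ)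
    (cand : Finset ℕ) (hc : cand ⊆ range n) :
    ∃ V ⊆ cand, cand.card ≤ (Δ + 1) ^ 3 * V.card ∧
      ∀ u ∈ V, ∀ v ∈ V, u ≠ v → v ∉ nbh n par (nbh n par (nbh n par {u})) := by
  classical
  let R : Finset (Finset ℕ) := cand.powerset.filter fun V =>
    ∀ u ∈ V, ∀ v ∈ V, u ≠ v → v ∉ nbh n par (nbh n par (nbh n par {u}))
  have hR : R.Nonempty := by
    refine ⟨∅, Finset.mem_filter.2 ⟨Finset.empty_mem_powerset _, fun u hu => ?_⟩⟩
    exact absurd hu (Finset.notMem_empty u)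
  obtain ⟨V, hV, hmax⟩ := Finset.exists_max_image R Finset.card hR
  rw [Finset.mem_filter, Finset.mem_powerset] at hV
  obtain ⟨hVc, hVP⟩ := hV
  refine ⟨V, hVc, ?_, hVP⟩
  have hcov : cand ⊆ V.biUnion fun u => nbh n par (nbh n par (nbh n par {u})) := by
    intro c hcc
    rw [Finset.mem_biUnion]
    by_cases hcV : c ∈ V
    · exact ⟨c, hcV, dc2a_self (dc2a_self (dc2a_self (Finset.mem_singleton_self c)))⟩
    · by_contra hno
      have hins : insert c V ∈ R := by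
        refine Finset.mem_filter.2 ⟨Finset.mem_powerset.2
          (Finset.insert_subset hcc hVc), fun u hu v hv huv hmem => ?_⟩
        rw [Finset.mem_insert] at hu hv
        rcases hu with rfl | hu
        · rcases hv with rfl | hv
          · exact huv rfl
          · exact hno ⟨v, hv, dc2a_symm3 hmem⟩
        · rcases hv with rfl | hv
          · exact hno ⟨u, hu, hmem⟩
          · exact hVP u hu v hv huv hmem
      have h1 := hmax _ hins
      rw [Finset.card_insert_of_notMem hcV] at h1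
      omega
  refine (Finset.card_le_card hcov).trans ?_
  rw [mul_comm]
  refine Finset.card_biUnion_le_card_mul _ _ _ fun u hu => ?_
  have h0 : ({u} : Finset ℕ) ⊆ range n := Finset.singleton_subset_iff.2 (hc (hVc hu))
  have s1 := nbh_sub hpar h0
  have s2 := nbh_sub hpar s1
  have c1 := nbh_card hdeg h0
  have c2 := nbh_card hdeg s1
  have c3 := nbh_card hdeg s2
  rw [Finset.card_singleton, mul_one] at c1
  calc (nbh n par (nbh n par (nbh n par {u}))).card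
      ≤ (Δ + 1) * (nbh n par (nbh n par {u})).card := c3
    _ ≤ (Δ + 1) * ((Δ + 1) * (nbh n par {u}).card) := Nat.mul_le_mul_left _ c2
    _ ≤ (Δ + 1) * ((Δ + 1) * (Δ + 1)) :=
        Nat.mul_le_mul_left _ (Nat.mul_le_mul_left _ c1)
    _ = (Δ + 1) ^ 3 := by ring

/-- properties of the types -/
structure TyOK (n : ℕ) (par : ℕ → ℕ) (t : ℕ) (S : Finset ℕ) (ty : ℕ → Ty) : Prop where
  ty_S : ∀ v ∈ S, ty v = Ty.O
  U1 : ∀ v < n, ty v = Ty.U → 1 ≤ v ∧ v ∉ S ∧ pdeg n par v = t ∧ par v ∉ S ∧ ty (par v) = Ty.P ∧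
    ∀ c ∈ chs n par v, c ∉ S ∧ ty c = Ty.P
  P1 : ∀ v < n, ty v = Ty.P → 1 ≤ v ∧ v ∉ S ∧ par v ∉ S ∧
    ((ty (par v) = Ty.U ∧ ∀ c ∈ chs n par v, ty c ≠ Ty.U) ∨
      (ty (par v) = Ty.O ∧ ∃ c ∈ chs n par v, ty c = Ty.U ∧ ∀ c' ∈ chs n par v, ty c' = Ty.U → c' = c))
  ok : ∀ v < n, 1 ≤ v → v ∉ S → par v ∉ S → okTy (ty (par v)) (ty v) = true

private def dc2bA (n : ℕ) (par : ℕ → ℕ) (u v : ℕ) : Prop :=
  (1 ≤ u ∧ u < n ∧ par u = v) ∨ (1 ≤ v ∧ v < n ∧ par v = u)

private theorem dc2b_symm {n : ℕ} {par : ℕ → ℕ} {u v : ℕ} (h : dc2bA n par u v) : dc2bA n par v u :=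
  h.symm

private theorem dc2b_mem {n : ℕ} {par : ℕ → ℕ} {X : Finset ℕ} {v : ℕ} :
    v ∈ nbh n par X ↔ v ∈ X ∨ ∃ u ∈ X, dc2bA n par u v := by
  rw [mem_nbh]
  constructor
  · rintro (h | ⟨i, hi, h1, h2, h3⟩ | ⟨h1, h2, h3⟩)
    · exact Or.inl h
    · exact Or.inr ⟨i, hi, Or.inl ⟨h1, h2, h3⟩⟩
    · exact Or.inr ⟨par v, h3, Or.inr ⟨h2, h1, rfl⟩⟩
  · rintro (h | ⟨u, hu, ⟨h1, h2, h3⟩ | ⟨h1, h2, h3⟩⟩)
    · exact Or.inl h
    · exact Or.inr (Or.inl ⟨u, hu, h1, h2, h3⟩)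
    · exact Or.inr (Or.inr ⟨h2, h1, h3 ▸ hu⟩)

private theorem dc2b_ne {n : ℕ} {par : ℕ → ℕ} (hpar : IsPar n par) {u v : ℕ}
    (h : dc2bA n par u v) : u ≠ v := by
  rcases h with ⟨h1, h2, h3⟩ | ⟨h1, h2, h3⟩
  · have := hpar u h1 h2
    omega
  · have := hpar v h1 h2
    omega

private theorem dc2b_tri {n : ℕ} {par : ℕ → ℕ} (hpar : IsPar n par) {u v w : ℕ}
    (h1 : dc2bA n par u v) (h2 : dc2bA n par v w) (h3 : dc2bA n par w u) : False := by
  have h4 : ∀ x y : ℕ, dc2bA n par x y → (par x = y ∧ y < x) ∨ (par y = x ∧ x < y) := by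
    rintro x y (⟨a, b, c⟩ | ⟨a, b, c⟩)
    · have := hpar x a b
      exact Or.inl ⟨c, by omega⟩
    · have := hpar y a b
      exact Or.inr ⟨c, by omega⟩
  have h5 := h4 u v h1
  have h6 := h4 v w h2
  have h7 := h4 w u h3
  omega

theorem ty_facts {n t : ℕ} {par : ℕ → ℕ} (hpar : IsPar n par) {S : Finset ℕ} (hS : S ⊆ range n)
    (h0 : 0 ∈ S) {V : Finset ℕ} (hV : V ⊆ range n) (hVt : ∀ v ∈ V, pdeg n par v = t)
    (hVS : ∀ v ∈ V, v ∉ nbh n par (nbh n par S))
    (hVV : ∀ u ∈ V, ∀ v ∈ V, u ≠ v → v ∉ nbh n par (nbh n par (nbh n par {u}))) :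
    ∃ ty : ℕ → Ty, TyOK n par t S ty ∧ ∀ v, ty v = Ty.U ↔ v ∈ V := by
  classical
  have sub : ∀ X : Finset ℕ, ∀ v ∈ X, v ∈ nbh n par X := fun X v hv => dc2b_mem.2 (Or.inl hv)
  have adj : ∀ (X : Finset ℕ) (u v : ℕ), u ∈ X → dc2bA n par u v → v ∈ nbh n par X :=
    fun X u v hu h => dc2b_mem.2 (Or.inr ⟨u, hu, h⟩)
  have F1 : ∀ v ∈ V, v ∉ S ∧ 1 ≤ v ∧ v < n := by
    intro v hv
    have h1 : v ∉ S := fun h => hVS v hv (sub _ _ (sub _ _ h))
    refine ⟨h1, ?_, mem_range.1 (hV hv)⟩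
    rcases Nat.eq_zero_or_pos v with h | h
    · exact absurd (h ▸ h0) h1
    · exact h
  have F2 : ∀ v ∈ V, ∀ q, dc2bA n par v q → q ∉ nbh n par S := fun v hv q h hc =>
    hVS v hv (adj _ q v hc (dc2b_symm h))
  have F2a : ∀ v ∈ V, ∀ q, dc2bA n par v q → q ∉ S := fun v hv q h hc => F2 v hv q h (sub _ _ hc)
  have F2b : ∀ v ∈ V, ∀ q, dc2bA n par v q → ∀ r, dc2bA n par q r → r ∉ S :=
    fun v hv q h r hr hc => F2 v hv q h (adj _ r q hc (dc2b_symm hr))
  have F3 : ∀ v ∈ V, ∀ q, dc2bA n par v q → q ∉ V := fun v hv q h hq =>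
    hVV v hv q hq (dc2b_ne hpar h) (sub _ _ (sub _ _ (adj _ v q (mem_singleton_self v) h)))
  have F4 : ∀ v ∈ V, ∀ v' ∈ V, ∀ q, dc2bA n par v q → dc2bA n par q v' → v = v' := by
    intro v hv v' hv' q h h'
    by_contra hne
    exact hVV v hv v' hv' hne (sub _ _ (adj _ q v' (adj _ v q (mem_singleton_self v) h) h'))
  have F5 : ∀ v ∈ V, ∀ v' ∈ V, ∀ q q', dc2bA n par v q → dc2bA n par q q' → dc2bA n par q' v' →
      False := by
    intro v hv v' hv' q q' h h' h''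
    by_cases hne : v = v'
    · subst hne
      exact dc2b_tri hpar h h' h''
    · exact hVV v hv v' hv' hne
        (adj _ q' v' (adj _ q q' (adj _ v q (mem_singleton_self v) h) h') h'')
  let ty : ℕ → Ty := fun v => if v ∈ V then Ty.U else if v ∈ nbh n par V then Ty.P else Ty.O
  have tU : ∀ v, ty v = Ty.U ↔ v ∈ V := by
    intro v
    by_cases h1 : v ∈ V
    · simp [ty, h1]
    · by_cases h2 : v ∈ nbh n par V
      · simp [ty, h1, h2]
      · simp [ty, h1, h2]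
  have tP : ∀ v, ty v = Ty.P ↔ v ∉ V ∧ ∃ u ∈ V, dc2bA n par u v := by
    intro v
    by_cases h1 : v ∈ V
    · simp [ty, h1]
    · have h3 : v ∈ nbh n par V ↔ ∃ u ∈ V, dc2bA n par u v := by
        rw [dc2b_mem]
        exact ⟨fun h => h.resolve_left h1, Or.inr⟩
      by_cases h2 : v ∈ nbh n par V
      · have h4 := h3.1 h2
        simp [ty, h1, h2, h4]
      · have h4 : ¬ ∃ u ∈ V, dc2bA n par u v := fun hc => h2 (h3.2 hc)
        simp [ty, h1, h2, h4]
  have tO : ∀ v, v ∉ V → (¬ ∃ u ∈ V, dc2bA n par u v) → ty v = Ty.O := by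
    intro v h1 h2
    have h3 : ¬ ty v = Ty.U := fun h => h1 ((tU v).1 h)
    have h4 : ¬ ty v = Ty.P := fun h => h2 ((tP v).1 h).2
    cases h : ty v with
    | O => rfl
    | P => exact absurd h h4
    | U => exact absurd h h3
  have Up : ∀ v, 1 ≤ v → v < n → dc2bA n par v (par v) := fun v h1 h2 => Or.inl ⟨h1, h2, rfl⟩
  have Dn : ∀ v, ∀ c ∈ chs n par v, dc2bA n par v c := fun v c hc => by
    obtain ⟨h1, h2, h3⟩ := mem_chs.1 hc
    exact Or.inr ⟨h2, h1, h3⟩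
  refine ⟨ty, ⟨?_, ?_, ?_, ?_⟩, tU⟩
  · intro v hv
    refine tO v (fun h => (F1 v h).1 hv) ?_
    rintro ⟨u, hu, h⟩
    exact F2a u hu v h hv
  · intro v hvn hv
    have hvV := (tU v).1 hv
    obtain ⟨h1, h2, h3⟩ := F1 v hvV
    have h4 := Up v h2 h3
    refine ⟨h2, h1, hVt v hvV, F2a v hvV _ h4, (tP _).2 ⟨F3 v hvV _ h4, v, hvV, h4⟩, ?_⟩
    intro c hc
    have h5 := Dn v c hc
    exact ⟨F2a v hvV _ h5, (tP _).2 ⟨F3 v hvV _ h5, v, hvV, h5⟩⟩
  · intro v hvn hv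
    obtain ⟨h1, u, hu, hA⟩ := (tP v).1 hv
    have h2 := F2a u hu v hA
    have h3 : 1 ≤ v := by
      rcases Nat.eq_zero_or_pos v with h | h
      · exact absurd (h ▸ h0) h2
      · exact h
    have h4 := Up v h3 hvn
    have h5 := hpar v h3 hvn
    refine ⟨h3, h2, F2b u hu v hA _ h4, ?_⟩
    rcases hA with ⟨a, b, c⟩ | ⟨a, b, c⟩
    · right
      have hA : dc2bA n par u v := Or.inl ⟨a, b, c⟩
      have h6 := hpar u a b
      refine ⟨tO _ ?_ ?_, u, mem_chs.2 ⟨b, a, c⟩, (tU u).2 hu, ?_⟩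
      · intro hc
        have := F4 u hu (par v) hc v hA h4
        omega
      · rintro ⟨u', hu', h'⟩
        exact F5 u hu u' hu' v (par v) hA h4 (dc2b_symm h')
      · intro c' hc' hc'U
        exact (F4 u hu c' ((tU c').1 hc'U) v hA (Dn v c' hc')).symm
    · left
      have hA : dc2bA n par u v := Or.inr ⟨a, b, c⟩
      refine ⟨(tU _).2 (c ▸ hu), ?_⟩
      intro c' hc' hc'U
      have h7 := F4 u hu c' ((tU c').1 hc'U) v hA (Dn v c' hc')
      obtain ⟨h8, h9, h10⟩ := mem_chs.1 hc'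
      have := hpar c' h9 h8
      omega
  · intro v hvn hv1 hvS hpS
    have h4 := Up v hv1 hvn
    by_cases hU : ty v = Ty.U
    · have hvV := (tU v).1 hU
      have : ty (par v) = Ty.P := (tP _).2 ⟨F3 v hvV _ h4, v, hvV, h4⟩
      rw [hU, this]
      rfl
    · by_cases hU' : ty (par v) = Ty.U
      · have hvV := (tU _).1 hU'
        have : ty v = Ty.P := (tP _).2 ⟨F3 _ hvV _ (dc2b_symm h4), par v, hvV, dc2b_symm h4⟩
        rw [hU', this]
        rfl
      · by_cases hP : ty v = Ty.P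
        · by_cases hP' : ty (par v) = Ty.P
          · obtain ⟨_, u, hu, hA⟩ := (tP _).1 hP
            obtain ⟨_, u', hu', hA'⟩ := (tP _).1 hP'
            exact (F5 u hu u' hu' v (par v) hA h4 (dc2b_symm hA')).elim
          · cases h : ty (par v) with
            | O => rw [hP]; rfl
            | P => exact absurd h hP'
            | U => exact absurd h hU'
        · cases h' : ty v with
          | P => exact absurd h' hP
          | U => exact absurd h' hU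
          | O =>
            cases h : ty (par v) with
            | O => rfl
            | P => rfl
            | U => exact absurd h hU'

end SSB
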