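import Pool.Agent.Lib.MP_8a819d_co.BD.Af

/-!
# MP_8a819d_co: the absorber, 3. Gadgets for `t = 1`

JOB G1 (all of this file): `GadgetStatement 1 5`, with `ε = 1/1000`.

Let `w0, w1, w2` be the ports, all of parity `σ`. Choose `c`, then `s`.
* `c ∈ [1, N/60]`, `c ∉ F`, `2 c ≠ |w0 - w1|`, `2 c ≠ w0 + w1` (possible, `|F| + 2 < N/60 - 1`).
* `s ∈ I = {s ∈ [N/10, N/5] : s ≡ σ mod 2}` (`|I| ≥ N/20 - 2`) by `affine_avoid` with the multiplier `2`, the set
  `F' = F ∪ {c, 0}` and the 13 forms (slope, constant): labels `(2,-2c), (2,2c), (2,0), (6,0), (6,4c), (2,-4c),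
  (3,w0), (3,w1+2c), (1,w2-2c)`, parents `(4,2c), (3,-w0), (3,2c-w1), (1,-2c-w2)`. The slopes are positive; equal
  slopes have different constants: slope 2: `-2c, 2c, 0, -4c`; slope 6: `0, 4c`; slope 3: `w0, w1+2c, -w0, 2c-w1`
  (by the choice of `c` and `w ≥ 1`); slope 1: `w2-2c, -2c-w2`.
Labels of the gadget: `s-c, s+c, s`, `t0 = 3s`, `t1 = 3s+2c`, `t2 = s-2c`, `m0 = (w0+t0)/2`, `m1 = (w1+t1)/2`,
`m2 = (w2+t2)/2`; units (the pair of the same number twice): `2s+c`, `c`, `p_i = |w_i - t_i|/2` (`i = 0, 1, 2`). All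
`t_i` have parity `σ`, so these are integers; all 14 numbers are distinct, nonzero, at most `N`, not in `F`.
Blocks (a block of the unit `(p, p)` is a pair `{a, |a - p|}`): `{m_i, w_i}` and `{m_i, t_i}` are blocks of
`p_i` (the larger of `w_i, t_i` is `m_i + p_i`, the smaller is `m_i - p_i`); `{3s, s-c}` of `2s+c` with `{s, s+c}` of `c`
(port 0: the hub takes `t0`); `{3s+2c, s+c}` of `2s+c` with `{s-c, s}` of `c` (port 1); `{s, s+c}` of `2s+c` (`|s - (2s+c)| =
s+c`) with `{s-2c, s-c}` of `c` (port 2). For the port `i`: link `i` takes `{m_i, w_i}`, the links `j ≠ i` take `{m_j, t_j}`,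
the hub takes `t_i` and `s-c, s, s+c`.
-/

set_option autoImplicit false

namespace SSB

open Finset

/-- the labels `0, ..., 8` and the units `9, ..., 12` -/
private def g1_x (w0 w1 w2 s c : ℕ) : Fin 13 → ℕ :=
  ![s - c, s + c, s, 3 * s, 3 * s + 2 * c, s - 2 * c, (w0 + 3 * s) / 2, (w1 + (3 * s + 2 * c)) / 2,
    (w2 + (s - 2 * c)) / 2, 2 * s + c, dd w0 (3 * s) / 2, dd w1 (3 * s + 2 * c) / 2,
    dd w2 (s - 2 * c) / 2]

private def g1_α : Fin 13 → ℤ := ![2, 2, 2, 6, 6, 2, 3, 3, 1, 4, 3, 3, 1]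

private def g1_β (w0 w1 w2 c : ℕ) : Fin 13 → ℤ :=
  ![-2 * c, 2 * c, 0, 0, 4 * c, -4 * c, w0, w1 + 2 * c, w2 - 2 * c, 2 * c, -w0, 2 * c - w1,
    -2 * c - w2]

private theorem g1_abs {a : ℕ} {z : ℤ} (h : z = 2 * a ∨ z = -(2 * a)) : ((2 * a : ℕ) : ℤ) = |z| := by
  rcases h with h | h
  · rw [h, abs_of_nonneg (by positivity)]
    push_cast
    rfl
  · rw [h, abs_neg, abs_of_nonneg (by positivity)]
    push_cast
    rfl

private theorem g1_val {w0 w1 w2 s c : ℕ} (h1 : w0 % 2 = s % 2) (h2 : w1 % 2 = s % 2)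
    (h3 : w2 % 2 = s % 2) (hc : 2 * c ≤ s) (i : Fin 13) :
    ((2 * g1_x w0 w1 w2 s c i : ℕ) : ℤ) = |g1_α i * (s : ℤ) + g1_β w0 w1 w2 c i| := by
  apply g1_abs
  fin_cases i <;>
    simp only [g1_x, g1_α, g1_β, dd, Fin.zero_eta, Fin.mk_one, Fin.reduceFinMk, Matrix.cons_val] <;>
    omega

private theorem g1_ne {w0 w1 w2 c : ℕ} (h0 : 1 ≤ w0) (h1 : 1 ≤ w1) (h2 : 1 ≤ w2) (hc : 1 ≤ c)
    (hc1 : 2 * c ≠ dd w0 w1) (hc2 : 2 * c ≠ w0 + w1) (i j : Fin 13) (hij : i ≠ j) :
    (g1_α i = g1_α j → g1_β w0 w1 w2 c i ≠ g1_β w0 w1 w2 c j) ∧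
      (g1_α i = -g1_α j → g1_β w0 w1 w2 c i ≠ -g1_β w0 w1 w2 c j) := by
  unfold dd at hc1
  have hpos : ∀ l : Fin 13, 0 < g1_α l := by
    intro l
    fin_cases l <;> simp [g1_α]
  refine ⟨?_, fun h => absurd h (by have := hpos i; have := hpos j; omega)⟩
  fin_cases i <;> fin_cases j <;>
    first
    | exact absurd rfl hij
    | (intro h
       simp only [g1_α, g1_β, Fin.zero_eta, Fin.mk_one, Fin.reduceFinMk, Matrix.cons_val] at h ⊢
       omega)

private theorem g1_core (N w0 w1 w2 : ℕ) (hN : 10 ^ 6 ≤ N) (h0 : 1 ≤ w0) (h1 : 1 ≤ w1)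
    (h2 : 1 ≤ w2) (h01 : w0 % 2 = w1 % 2) (h02 : w0 % 2 = w2 % 2) (F : Finset ℕ)
    (hF : 1000 * F.card ≤ N) :
    ∃ s c : ℕ, 1 ≤ c ∧ 60 * c ≤ N ∧ N ≤ 10 * s ∧ 5 * s ≤ N ∧ w0 % 2 = s % 2 ∧ c ∉ F ∧
      Function.Injective (g1_x w0 w1 w2 s c) ∧
      ∀ i, g1_x w0 w1 w2 s c i ∉ F ∧ g1_x w0 w1 w2 s c i ≠ c ∧ g1_x w0 w1 w2 s c i ≠ 0 := by
  -- the choice of `c`
  obtain ⟨c, hcI, hcB⟩ : ∃ c ∈ Icc 1 (N / 60), c ∉ insert (dd w0 w1 / 2) (insert ((w0 + w1) / 2) F) := by
    apply Finset.exists_mem_notMem_of_card_lt_card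
    rw [Nat.card_Icc]
    have e1 := Finset.card_insert_le (dd w0 w1 / 2) (insert ((w0 + w1) / 2) F)
    have e2 := Finset.card_insert_le ((w0 + w1) / 2) F
    omega
  rw [Finset.mem_Icc] at hcI
  have hcF : c ∉ F := fun h =>
    hcB (Finset.mem_insert_of_mem (Finset.mem_insert_of_mem h))
  have hc1 : 2 * c ≠ dd w0 w1 := by
    intro h
    apply hcB
    rw [Finset.mem_insert]
    left
    omega
  have hc2 : 2 * c ≠ w0 + w1 := by
    intro h
    apply hcB
    rw [Finset.mem_insert, Finset.mem_insert]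
    right
    left
    omega
  -- the choice of `s`
  have hI : 2 * 13 * (insert 0 (insert c F)).card + 2 * 13 ^ 2 <
      ((Icc (N / 20 + 1) (N / 10 - 1)).image (fun k => 2 * k + w0 % 2)).card := by
    rw [Finset.card_image_of_injective _ (fun a b h => by
      have h' : 2 * a + w0 % 2 = 2 * b + w0 % 2 := h
      omega), Nat.card_Icc]
    have e1 := Finset.card_insert_le 0 (insert c F)
    have e2 := Finset.card_insert_le c F
    omega
  obtain ⟨s, hs, hs1, hs2⟩ := affine_avoid 2 g1_α (g1_β w0 w1 w2 c)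
    (fun i => by fin_cases i <;> simp [g1_α])
    (g1_ne h0 h1 h2 hcI.1 hc1 hc2) _ _ hI
  rw [Finset.mem_image] at hs
  obtain ⟨m, hm, hms⟩ := hs
  rw [Finset.mem_Icc] at hm
  have hsc : 2 * c ≤ s := by omega
  have hval := g1_val (w0 := w0) (w1 := w1) (w2 := w2) (s := s) (c := c) (by omega) (by omega)
    (by omega) hsc
  refine ⟨s, c, hcI.1, by omega, by omega, by omega, by omega, hcF, ?_, ?_⟩
  · intro i j hij
    by_contra hne
    refine hs2 i j hne ?_
    rw [← hval i, ← hval j, hij]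
  · intro i
    refine ⟨fun h => ?_, fun h => ?_, fun h => ?_⟩
    · exact hs1 i _ (Finset.mem_insert_of_mem (Finset.mem_insert_of_mem h)) (hval i)
    · refine hs1 i c (Finset.mem_insert_of_mem (Finset.mem_insert_self c F)) ?_
      rw [← hval i, h]
    · refine hs1 i 0 (Finset.mem_insert_self 0 _) ?_
      rw [← hval i, h]

private theorem g1_match {y : Fin 10 → ℕ} (hy : Function.Injective y) (hy0 : ∀ j, y j ≠ 0)
    {u : Fin 5 → ℕ} (hu : Function.Injective u) (a b : Fin 5 → Fin 10) (hab : ∀ j, a j ≠ b j)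
    (hdisj : ∀ j j', j ≠ j' → a j ≠ a j' ∧ a j ≠ b j' ∧ b j ≠ a j' ∧ b j ≠ b j')
    (hun : ∀ z, ∃ j, z = a j ∨ z = b j) (hd : ∀ j, dd (y (a j)) (u j) = y (b j) ∨ dd (y (b j)) (u j) = y (a j)) :
    Matchable 1 (Finset.univ.image (fun j : Fin 5 => (u j, u j))) (Finset.univ.image y) := by
  have h1 : Matchable 1 ((Finset.univ : Finset (Fin 5)).biUnion (fun j => {(u j, u j)}))
      ((Finset.univ : Finset (Fin 5)).biUnion (fun j => {y (a j), y (b j)})) := by
    refine matchable_biUnion _ _ _ ?_ ?_ ?_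
    · intro j _
      have q1 : (0 : ℕ) ∉ ({y (a j), y (b j)} : Finset ℕ) := by
        rw [Finset.mem_insert, Finset.mem_singleton]
        rintro (h | h)
        · exact hy0 _ h.symm
        · exact hy0 _ h.symm
      have q2 : ({y (a j), y (b j)} : Finset ℕ).card = 1 + 1 := by
        rw [Finset.card_pair (hy.ne (hab j))]
      rcases hd j with h | h
      · refine matchable_single ⟨y (a j), ?_, q1, q2⟩
        change ({y (a j), y (b j)} : Finset ℕ) = {y (a j), dd (y (a j)) (u j), dd (y (a j)) (u j)}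
        rw [h, Finset.pair_eq_singleton]
      · refine matchable_single ⟨y (b j), ?_, q1, q2⟩
        change ({y (a j), y (b j)} : Finset ℕ) = {y (b j), dd (y (b j)) (u j), dd (y (b j)) (u j)}
        rw [h, Finset.pair_eq_singleton, Finset.pair_comm]
    · intro i _ j _ hij
      rw [Finset.disjoint_singleton]
      intro h
      exact hij (hu (Prod.ext_iff.mp h).1)
    · intro i _ j _ hij
      obtain ⟨e1, e2, e3, e4⟩ := hdisj i j hij
      rw [Finset.disjoint_insert_left, Finset.disjoint_singleton_left, Finset.mem_insert,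
        Finset.mem_singleton, Finset.mem_insert, Finset.mem_singleton]
      refine ⟨?_, ?_⟩
      · rintro (h | h)
        · exact e1 (hy h)
        · exact e2 (hy h)
      · rintro (h | h)
        · exact e3 (hy h)
        · exact e4 (hy h)
  have e1 : (Finset.univ : Finset (Fin 5)).biUnion (fun j => {(u j, u j)}) =
      Finset.univ.image (fun j : Fin 5 => (u j, u j)) := Finset.biUnion_singleton
  have e2 : (Finset.univ : Finset (Fin 5)).biUnion (fun j => {y (a j), y (b j)}) =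
      Finset.univ.image y := by
    ext z
    simp only [Finset.mem_biUnion, Finset.mem_univ, true_and, Finset.mem_insert,
      Finset.mem_singleton, Finset.mem_image]
    constructor
    · rintro ⟨j, rfl | rfl⟩
      · exact ⟨_, rfl⟩
      · exact ⟨_, rfl⟩
    · rintro ⟨i, rfl⟩
      obtain ⟨j, hj | hj⟩ := hun i
      · exact ⟨j, Or.inl (by rw [hj])⟩
      · exact ⟨j, Or.inr (by rw [hj])⟩
  rw [e1, e2] at h1
  exact h1

theorem gadget1 : GadgetStatement 1 5 := by
  refine ⟨1 / 1000, by norm_num, 10 ^ 6, fun N hN w hw hcls F hF hwF => ?_⟩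
  have hcl : ∀ i j, w i % 2 = w j % 2 := by
    intro i j
    have h := hcls i j
    unfold cls at h
    rw [if_pos rfl, if_pos rfl] at h
    exact h
  have hFc : 1000 * F.card ≤ N := by
    have h1 : (1000 * F.card : ℝ) ≤ N := by linarith
    exact_mod_cast h1
  have hw1 : ∀ i, 1 ≤ w i ∧ w i ≤ N := fun i => Finset.mem_Icc.mp (hw i)
  obtain ⟨s, c, hc1, hcN, hsN, hsN', hpar, hcF, hinj, hx⟩ := g1_core N (w 0) (w 1) (w 2) hN
    (hw1 0).1 (hw1 1).1 (hw1 2).1 (hcl 0 1) (hcl 0 2) F hFc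
  have b0 := hw1 0
  have b1 := hw1 1
  have b2 := hw1 2
  have p1 := hcl 0 1
  have p2 := hcl 0 2
  have hxN : ∀ i, g1_x (w 0) (w 1) (w 2) s c i ≤ N := by
    intro i
    fin_cases i <;>
      simp only [g1_x, dd, Fin.zero_eta, Fin.mk_one, Fin.reduceFinMk, Matrix.cons_val] <;> omega
  -- the labels and the units
  let xl : Fin 9 → ℕ := fun j => g1_x (w 0) (w 1) (w 2) s c (Fin.castLE (by omega) j)
  let xu : Fin 4 → ℕ := fun j => g1_x (w 0) (w 1) (w 2) s c (Fin.natAdd 9 j)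
  have hxl : Function.Injective xl := fun a b h => Fin.castLE_injective _ (hinj h)
  have hxu : Function.Injective xu := fun a b h => Fin.natAdd_injective 4 9 (hinj h)
  have hlu : ∀ a b, xl a ≠ xu b := by
    intro a b h
    have h1 := hinj h
    have h2 := congrArg Fin.val h1
    rw [Fin.val_castLE, Fin.val_natAdd] at h2
    omega
  let u : Fin 5 → ℕ := Fin.cons c xu
  have hu : Function.Injective u := by
    refine Fin.cons_injective_iff.mpr ⟨?_, hxu⟩
    rintro ⟨j, hj⟩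
    exact (hx _).2.1 hj
  have hlabs : labs (Finset.univ.image (fun j : Fin 5 => (u j, u j))) = Finset.univ.image u := by
    ext z
    rw [mem_labs, Finset.mem_image]
    constructor
    · rintro ⟨d, hd, h⟩
      obtain ⟨j, _, rfl⟩ := Finset.mem_image.mp hd
      exact ⟨j, Finset.mem_univ j, by rcases h with h | h <;> exact h.symm⟩
    · rintro ⟨j, _, rfl⟩
      exact ⟨(u j, u j), Finset.mem_image_of_mem _ (Finset.mem_univ j), Or.inl rfl⟩
  have huinj : Function.Injective (fun j : Fin 5 => (u j, u j)) := by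
    intro a b h
    exact hu (Prod.ext_iff.mp h).1
  have humem : ∀ j, u j ∉ F ∧ 1 ≤ u j ∧ u j ≤ N := by
    intro j
    refine Fin.cases ?_ (fun j => ?_) j
    · exact ⟨hcF, hc1, by
        change c ≤ N
        omega⟩
    · exact ⟨(hx (Fin.natAdd 9 j)).1, Nat.one_le_iff_ne_zero.mpr (hx (Fin.natAdd 9 j)).2.2,
        hxN (Fin.natAdd 9 j)⟩
  have hlu' : ∀ a j, xl a ≠ u j := by
    intro a j
    refine Fin.cases ?_ (fun j => ?_) j
    · exact (hx _).2.1
    · exact hlu a j
  refine ⟨Finset.univ.image xl, Finset.univ.image (fun j : Fin 5 => (u j, u j)), ?_, ?_, ?_, ?_, ?_,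
    ?_, ?_, ?_, ?_⟩
  · intro z hz
    obtain ⟨j, _, rfl⟩ := Finset.mem_image.mp hz
    exact Finset.mem_Icc.mpr ⟨Nat.one_le_iff_ne_zero.mpr (hx _).2.2, hxN _⟩
  · rw [hlabs]
    intro z hz
    obtain ⟨j, _, rfl⟩ := Finset.mem_image.mp hz
    exact Finset.mem_Icc.mpr (humem j).2
  · rw [hlabs, Finset.disjoint_left]
    intro z hz hz'
    obtain ⟨a, _, rfl⟩ := Finset.mem_image.mp hz
    obtain ⟨j, _, hj⟩ := Finset.mem_image.mp hz'
    exact hlu' a j hj.symm
  · rw [Finset.disjoint_left]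
    intro z hz
    obtain ⟨a, _, rfl⟩ := Finset.mem_image.mp hz
    exact (hx _).1
  · rw [hlabs, Finset.disjoint_left]
    intro z hz
    obtain ⟨j, _, rfl⟩ := Finset.mem_image.mp hz
    exact (humem j).1
  · refine ⟨fun _ d hd => ?_, ?_⟩
    · obtain ⟨j, _, rfl⟩ := Finset.mem_image.mp hd
      rfl
    · rw [hlabs, Finset.card_image_of_injective _ hu, Finset.card_image_of_injective _ huinj, one_mul]
  · rw [Finset.card_image_of_injective _ huinj, Finset.card_univ, Fintype.card_fin]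
  · rw [Finset.card_image_of_injective _ hxl, Finset.card_univ, Fintype.card_fin]
  -- the matchings
  · intro i
    have hy : Function.Injective (Fin.cons (w i) xl : Fin 10 → ℕ) := by
      refine Fin.cons_injective_iff.mpr ⟨?_, hxl⟩
      rintro ⟨j, hj⟩
      exact (hx _).1 (hj ▸ hwF i)
    have hy0 : ∀ j, (Fin.cons (w i) xl : Fin 10 → ℕ) j ≠ 0 := by
      intro j
      refine Fin.cases ?_ (fun j => ?_) j
      · have := (hw1 i).1
        change w i ≠ 0
        omega
      · exact (hx (Fin.castLE (by omega) j)).2.2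
    have himg : insert (w i) (Finset.univ.image xl) =
        Finset.univ.image (Fin.cons (w i) xl : Fin 10 → ℕ) := by
      ext z
      rw [Finset.mem_insert, Finset.mem_image, Finset.mem_image]
      constructor
      · rintro (rfl | ⟨j, _, rfl⟩)
        · exact ⟨0, Finset.mem_univ _, rfl⟩
        · exact ⟨j.succ, Finset.mem_univ _, rfl⟩
      · rintro ⟨j, _, rfl⟩
        refine Fin.cases ?_ (fun j => ?_) j
        · exact Or.inl rfl
        · exact Or.inr ⟨j, Finset.mem_univ _, rfl⟩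
    rw [himg]
    fin_cases i
    · -- port 0
      refine g1_match hy hy0 hu ![1 + 1, 3 + 1, 6 + 1, 7 + 1, 8 + 1] ![2 + 1, 0 + 1, 0, 4 + 1, 5 + 1]
        (by decide) (by decide) (by decide) ?_
      intro j
      fin_cases j
      · change dd (s + c) c = s ∨ dd s c = (s + c)
        unfold dd
        omega
      · change dd (3 * s) (2 * s + c) = (s - c) ∨ dd (s - c) (2 * s + c) = (3 * s)
        unfold dd
        omega
      · change dd ((w 0 + 3 * s) / 2) (dd (w 0) (3 * s) / 2) = (w 0) ∨ dd (w 0) (dd (w 0) (3 * s) / 2) = ((w 0 + 3 * s) / 2)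
        unfold dd
        omega
      · change dd ((w 1 + (3 * s + 2 * c)) / 2) (dd (w 1) (3 * s + 2 * c) / 2) = (3 * s + 2 * c) ∨ dd (3 * s + 2 * c) (dd (w 1) (3 * s + 2 * c) / 2) = ((w 1 + (3 * s + 2 * c)) / 2)
        unfold dd
        omega
      · change dd ((w 2 + (s - 2 * c)) / 2) (dd (w 2) (s - 2 * c) / 2) = (s - 2 * c) ∨ dd (s - 2 * c) (dd (w 2) (s - 2 * c) / 2) = ((w 2 + (s - 2 * c)) / 2)
        unfold dd
        omega
    · -- port 1
      refine g1_match hy hy0 hu ![2 + 1, 4 + 1, 6 + 1, 7 + 1, 8 + 1] ![0 + 1, 1 + 1, 3 + 1, 0, 5 + 1]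
        (by decide) (by decide) (by decide) ?_
      intro j
      fin_cases j
      · change dd s c = (s - c) ∨ dd (s - c) c = s
        unfold dd
        omega
      · change dd (3 * s + 2 * c) (2 * s + c) = (s + c) ∨ dd (s + c) (2 * s + c) = (3 * s + 2 * c)
        unfold dd
        omega
      · change dd ((w 0 + 3 * s) / 2) (dd (w 0) (3 * s) / 2) = (3 * s) ∨ dd (3 * s) (dd (w 0) (3 * s) / 2) = ((w 0 + 3 * s) / 2)
        unfold dd
        omega
      · change dd ((w 1 + (3 * s + 2 * c)) / 2) (dd (w 1) (3 * s + 2 * c) / 2) = (w 1) ∨ dd (w 1) (dd (w 1) (3 * s + 2 * c) / 2) = ((w 1 + (3 * s + 2 * c)) / 2)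
        unfold dd
        omega
      · change dd ((w 2 + (s - 2 * c)) / 2) (dd (w 2) (s - 2 * c) / 2) = (s - 2 * c) ∨ dd (s - 2 * c) (dd (w 2) (s - 2 * c) / 2) = ((w 2 + (s - 2 * c)) / 2)
        unfold dd
        omega
    · -- port 2
      refine g1_match hy hy0 hu ![0 + 1, 2 + 1, 6 + 1, 7 + 1, 8 + 1] ![5 + 1, 1 + 1, 3 + 1, 4 + 1, 0]
        (by decide) (by decide) (by decide) ?_
      intro j
      fin_cases j
      · change dd (s - c) c = (s - 2 * c) ∨ dd (s - 2 * c) c = (s - c)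
        unfold dd
        omega
      · change dd s (2 * s + c) = (s + c) ∨ dd (s + c) (2 * s + c) = s
        unfold dd
        omega
      · change dd ((w 0 + 3 * s) / 2) (dd (w 0) (3 * s) / 2) = (3 * s) ∨ dd (3 * s) (dd (w 0) (3 * s) / 2) = ((w 0 + 3 * s) / 2)
        unfold dd
        omega
      · change dd ((w 1 + (3 * s + 2 * c)) / 2) (dd (w 1) (3 * s + 2 * c) / 2) = (3 * s + 2 * c) ∨ dd (3 * s + 2 * c) (dd (w 1) (3 * s + 2 * c) / 2) = ((w 1 + (3 * s + 2 * c)) / 2)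
        unfold dd
        omega
      · change dd ((w 2 + (s - 2 * c)) / 2) (dd (w 2) (s - 2 * c) / 2) = (w 2) ∨ dd (w 2) (dd (w 2) (s - 2 * c) / 2) = ((w 2 + (s - 2 * c)) / 2)
        unfold dd
        omega

end SSB
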