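import Pool.Agent.Lib.MP_8a819d_co.BD.Af

/-!
# MP_8a819d_co: the absorber, 3. Gadgets for `t = 2`

JOB G2a: `link3`, `link4`, `hub2`. JOB G2b: `choose_z`. JOB G2c: `gadget2` (from these): `GadgetStatement 2 8`.

A block of the unit `(c, c')` is `{a, |a-c|, |a-c'|}` (three different nonzero numbers).
* `link3`: `w ≠ z`, `w ≡ z mod 3`, `p = (w+2z)/3`, `q = (2w+z)/3`, unit `(2|w-z|/3, |w-z|/3)`: both `{w, p, q}` and
  `{z, p, q}` are blocks: if the smaller of `w, z` is `y` and the larger `y + 3e` then `{p, q} = {y+e, y+2e}`, the unit is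
  `(2e, e)`; `a = y+3e` gives `{y+3e, y+e, y+2e}`, `a = y+2e` gives `{y+2e, y, y+e}`.
* `link4`: `z < t`, `z ≡ t mod 4`, `t = z + 4e`: `p = z+2e`, `q = e`, unit `(2e, z+3e)`: `a = p`: `{z+2e, z, e}`; `a = t`:
  `{t, z+2e, e}`.
* `hub2`: units `(b+3r, 2b)`, `(4r, 2r)`, labels `b, 3r, b+2r, b+4r, b+6r`, `t0 = 2b-3r`, `t1 = 2b+3r`, `t2 = b-6r` (`6r < b`):
  `t0`: `{3r, b, 2b-3r}` (`a = 3r`) and `{b+6r, b+2r, b+4r}` (`a = b+6r`); `t1`: `{2b+3r, b, 3r}` (`a = 2b+3r`) and the same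
  second block; `t2`: `{b+4r, b, b+2r}` of `(4r, 2r)` (`a = b+4r`) and `{b+6r, 3r, b-6r}` of `(b+3r, 2b)` (`a = b+6r`).
* `choose_z`: given `w`, `t` with `t ≥ N/100` and a forbidden set `F` (containing `0`): a number `z < t`, `z ≡ w mod 3`,
  `z ≡ t mod 4` such that the nine numbers `z, (w+2z)/3, (2w+z)/3, 2|w-z|/3, |w-z|/3, (z+t)/2, (t-z)/4, (t-z)/2,
  (z+3t)/4` are distinct and not in `F`. `affine_avoid` with multiplier 12, forms `(12,0), (8,4w), (4,8w), (8,-8w),
  (4,-4w), (6,6t), (3,-3t), (6,-6t), (3,9t)`, `I = {z : 1 ≤ z < t, z ≡ z₀ mod 12}`, `|I| ≥ t/12 - 1`.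
* `gadget2`: `ε = 1/50000`. Choose `r ∈ [N/60, N/50]` with `2r, 3r, 4r ∉ F` (affine_avoid, multiplier 1), then
  `b ∈ [13N/100, 15N/100]` (affine_avoid, multiplier 1, forms `(1,0), (1,2r), (1,4r), (1,6r), (1,3r), (2,0), (2,-3r), (2,3r),
  (1,-6r)`, forbidden `F ∪ {2r,3r,4r}`), then `z0, z1, z2` with `choose_z` for `(w_i, t_i)`, the forbidden set growing
  (at most `|F| + 60` elements; `t2 ≥ 0.01 N`). Labels: the hub labels, the three `t_i`, the three `z_i`, the `p, q` of the six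
  links (23 labels), 8 units (16 labels). For the port `i`: link3 `i` takes `{w_i, p, q}`, link4 `i` takes `{z_i, p', q'}`; for
  `j ≠ i` link3 takes `z_j`, link4 takes `t_j`; the hub takes `t_i`.
-/

set_option autoImplicit false

namespace SSB

open Finset

private theorem g2a_mk {x y z d1 d2 : ℕ} (a : ℕ) (hx : x ≠ 0) (hy : y ≠ 0) (hz : z ≠ 0)
    (hxy : x ≠ y) (hxz : x ≠ z) (hyz : y ≠ z)
    (h : ∀ u, (u = x ∨ u = y ∨ u = z) ↔ (u = a ∨ u = dd a d1 ∨ u = dd a d2)) :
    IsBlock 2 (d1, d2) {x, y, z} := by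
  refine ⟨a, ?_, ?_, ?_⟩
  · ext u
    simp only [mem_insert, mem_singleton]
    exact h u
  · simp only [mem_insert, mem_singleton]
    omega
  · exact Finset.card_eq_three.2 ⟨x, y, z, hxy, hxz, hyz, rfl⟩

theorem link3 {w z : ℕ} (hw : 1 ≤ w) (hz : 1 ≤ z) (hne : w ≠ z) (h3 : w % 3 = z % 3) :
    IsBlock 2 (2 * dd w z / 3, dd w z / 3) {w, (w + 2 * z) / 3, (2 * w + z) / 3} ∧
      IsBlock 2 (2 * dd w z / 3, dd w z / 3) {z, (w + 2 * z) / 3, (2 * w + z) / 3} := by
  rcases lt_or_gt_of_ne hne with h | h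
  · obtain ⟨e, rfl⟩ : ∃ e, z = w + 3 * e := ⟨(z - w) / 3, by omega⟩
    have e1 : 2 * dd w (w + 3 * e) / 3 = 2 * e := by unfold dd; omega
    have e2 : dd w (w + 3 * e) / 3 = e := by unfold dd; omega
    have e3 : (w + 2 * (w + 3 * e)) / 3 = w + 2 * e := by omega
    have e4 : (2 * w + (w + 3 * e)) / 3 = w + e := by omega
    rw [e1, e2, e3, e4]
    constructor
    · refine g2a_mk (w + 2 * e) (by omega) (by omega) (by omega) (by omega) (by omega) (by omega) ?_
      intro u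
      unfold dd
      omega
    · refine g2a_mk (w + 3 * e) (by omega) (by omega) (by omega) (by omega) (by omega) (by omega) ?_
      intro u
      unfold dd
      omega
  · obtain ⟨e, rfl⟩ : ∃ e, w = z + 3 * e := ⟨(w - z) / 3, by omega⟩
    have e1 : 2 * dd (z + 3 * e) z / 3 = 2 * e := by unfold dd; omega
    have e2 : dd (z + 3 * e) z / 3 = e := by unfold dd; omega
    have e3 : (z + 3 * e + 2 * z) / 3 = z + e := by omega
    have e4 : (2 * (z + 3 * e) + z) / 3 = z + 2 * e := by omega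
    rw [e1, e2, e3, e4]
    constructor
    · refine g2a_mk (z + 3 * e) (by omega) (by omega) (by omega) (by omega) (by omega) (by omega) ?_
      intro u
      unfold dd
      omega
    · refine g2a_mk (z + 2 * e) (by omega) (by omega) (by omega) (by omega) (by omega) (by omega) ?_
      intro u
      unfold dd
      omega

/-- (the condition `h` excludes a coincidence in the first block) -/
theorem link4 {z t : ℕ} (hz : 1 ≤ z) (hlt : z < t) (h4 : z % 4 = t % 4) (h : z ≠ (t - z) / 4) :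
    IsBlock 2 ((t - z) / 2, (z + 3 * t) / 4) {z, (z + t) / 2, (t - z) / 4} ∧
      IsBlock 2 ((t - z) / 2, (z + 3 * t) / 4) {t, (z + t) / 2, (t - z) / 4} := by
  obtain ⟨e, rfl⟩ : ∃ e, t = z + 4 * e := ⟨(t - z) / 4, by omega⟩
  have e1 : (z + 4 * e - z) / 2 = 2 * e := by omega
  have e2 : (z + 3 * (z + 4 * e)) / 4 = z + 3 * e := by omega
  have e3 : (z + (z + 4 * e)) / 2 = z + 2 * e := by omega
  have e4 : (z + 4 * e - z) / 4 = e := by omega
  rw [e4] at h
  rw [e1, e2, e3, e4]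
  constructor
  · refine g2a_mk (z + 2 * e) (by omega) (by omega) (by omega) (by omega) (by omega) (by omega) ?_
    intro u
    unfold dd
    omega
  · refine g2a_mk (z + 4 * e) (by omega) (by omega) (by omega) (by omega) (by omega) (by omega) ?_
    intro u
    unfold dd
    omega

theorem hub2 {b r : ℕ} (hr : 1 ≤ r) (hb : 6 * r < b)
    (hnd : ({b, 3 * r, b + 2 * r, b + 4 * r, b + 6 * r, 2 * b - 3 * r, 2 * b + 3 * r, b - 6 * r} :
      Finset ℕ).card = 8) :
    (IsBlock 2 (b + 3 * r, 2 * b) {2 * b - 3 * r, b, 3 * r} ∧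
      IsBlock 2 (4 * r, 2 * r) {b + 2 * r, b + 4 * r, b + 6 * r}) ∧
    (IsBlock 2 (b + 3 * r, 2 * b) {2 * b + 3 * r, b, 3 * r} ∧
      IsBlock 2 (4 * r, 2 * r) {b + 2 * r, b + 4 * r, b + 6 * r}) ∧
    (IsBlock 2 (4 * r, 2 * r) {b, b + 2 * r, b + 4 * r} ∧
      IsBlock 2 (b + 3 * r, 2 * b) {b - 6 * r, 3 * r, b + 6 * r}) := by
  have hne : b - 6 * r ≠ 3 * r := by
    intro h0
    have h1 : ({b, 3 * r, b + 2 * r, b + 4 * r, b + 6 * r, 2 * b - 3 * r, 2 * b + 3 * r, b - 6 * r} :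
      Finset ℕ) = {b, b + 2 * r, b + 4 * r, b + 6 * r, 2 * b - 3 * r, 2 * b + 3 * r, b - 6 * r} := by
      ext u
      simp only [mem_insert, mem_singleton]
      omega
    rw [h1] at hnd
    have h2 : ({b, b + 2 * r, b + 4 * r, b + 6 * r, 2 * b - 3 * r, 2 * b + 3 * r, b - 6 * r} :
      Finset ℕ).card ≤ 7 := by
      refine (card_insert_le _ _).trans (Nat.succ_le_succ ?_)
      refine (card_insert_le _ _).trans (Nat.succ_le_succ ?_)
      refine (card_insert_le _ _).trans (Nat.succ_le_succ ?_)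
      refine (card_insert_le _ _).trans (Nat.succ_le_succ ?_)
      refine (card_insert_le _ _).trans (Nat.succ_le_succ ?_)
      refine (card_insert_le _ _).trans (Nat.succ_le_succ ?_)
      rw [card_singleton]
    omega
  have hB : IsBlock 2 (4 * r, 2 * r) {b + 2 * r, b + 4 * r, b + 6 * r} := by
    refine g2a_mk (b + 6 * r) (by omega) (by omega) (by omega) (by omega) (by omega) (by omega) ?_
    intro u
    unfold dd
    omega
  refine ⟨⟨?_, hB⟩, ⟨?_, hB⟩, ?_, ?_⟩
  · refine g2a_mk (3 * r) (by omega) (by omega) (by omega) (by omega) (by omega) (by omega) ?_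
    intro u
    unfold dd
    omega
  · refine g2a_mk (2 * b + 3 * r) (by omega) (by omega) (by omega) (by omega) (by omega) (by omega) ?_
    intro u
    unfold dd
    omega
  · refine g2a_mk (b + 4 * r) (by omega) (by omega) (by omega) (by omega) (by omega) (by omega) ?_
    intro u
    unfold dd
    omega
  · refine g2a_mk (b + 6 * r) (by omega) (by omega) (by omega) hne (by omega) (by omega) ?_
    intro u
    unfold dd
    omega

/-- the nine numbers of the two links between `w` and `t` through `z` -/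
def nine (w t z : ℕ) : Finset ℕ :=
  {z, (w + 2 * z) / 3, (2 * w + z) / 3, 2 * dd w z / 3, dd w z / 3, (z + t) / 2, (t - z) / 4,
    (t - z) / 2, (z + 3 * t) / 4}

private def g2b_al : Fin 9 → ℤ := ![12, 8, 4, 8, 4, 6, 3, 6, 3]

private def g2b_a : Fin 9 → ℤ := ![0, 4, 8, -8, -4, 0, 0, 0, 0]

private def g2b_b : Fin 9 → ℤ := ![0, 0, 0, 0, 0, 6, -3, -6, 9]

private theorem g2b_ne : ∀ i j : Fin 9, i ≠ j → g2b_al i = g2b_al j →
    (g2b_a i ≠ g2b_a j ∧ g2b_b i = g2b_b j) ∨ (g2b_a i = g2b_a j ∧ g2b_b i ≠ g2b_b j) := by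
  decide

private theorem g2b_pos : ∀ i : Fin 9, 0 < g2b_al i := by
  decide

private def g2b_v (w t z : ℕ) : Fin 9 → ℕ :=
  ![z, (w + 2 * z) / 3, (2 * w + z) / 3, 2 * dd w z / 3, dd w z / 3, (z + t) / 2, (t - z) / 4,
    (t - z) / 2, (z + 3 * t) / 4]

private theorem g2b_key {w t z : ℕ} (hlt : z < t) (h3 : z % 3 = w % 3) (h4 : z % 4 = t % 4) (i : Fin 9) :
    ((12 * g2b_v w t z i : ℕ) : ℤ) = |g2b_al i * (z : ℤ) + (g2b_a i * w + g2b_b i * t)| := by
  have hd : dd w z = (w - z) + (z - w) := rfl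
  have e0 : ((12 * z : ℕ) : ℤ) = |12 * (z : ℤ) + (0 * w + 0 * t)| := by
    rcases abs_cases (12 * (z : ℤ) + (0 * w + 0 * t)) with ⟨h, h'⟩ | ⟨h, h'⟩ <;> omega
  have e1 : ((12 * ((w + 2 * z) / 3) : ℕ) : ℤ) = |8 * (z : ℤ) + (4 * w + 0 * t)| := by
    rcases abs_cases (8 * (z : ℤ) + (4 * w + 0 * t)) with ⟨h, h'⟩ | ⟨h, h'⟩ <;> omega
  have e2 : ((12 * ((2 * w + z) / 3) : ℕ) : ℤ) = |4 * (z : ℤ) + (8 * w + 0 * t)| := by
    rcases abs_cases (4 * (z : ℤ) + (8 * w + 0 * t)) with ⟨h, h'⟩ | ⟨h, h'⟩ <;> omega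
  have e3 : ((12 * (2 * dd w z / 3) : ℕ) : ℤ) = |8 * (z : ℤ) + (-8 * w + 0 * t)| := by
    rcases abs_cases (8 * (z : ℤ) + (-8 * w + 0 * t)) with ⟨h, h'⟩ | ⟨h, h'⟩ <;> omega
  have e4 : ((12 * (dd w z / 3) : ℕ) : ℤ) = |4 * (z : ℤ) + (-4 * w + 0 * t)| := by
    rcases abs_cases (4 * (z : ℤ) + (-4 * w + 0 * t)) with ⟨h, h'⟩ | ⟨h, h'⟩ <;> omega
  have e5 : ((12 * ((z + t) / 2) : ℕ) : ℤ) = |6 * (z : ℤ) + (0 * w + 6 * t)| := by
    rcases abs_cases (6 * (z : ℤ) + (0 * w + 6 * t)) with ⟨h, h'⟩ | ⟨h, h'⟩ <;> omega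
  have e6 : ((12 * ((t - z) / 4) : ℕ) : ℤ) = |3 * (z : ℤ) + (0 * w + -3 * t)| := by
    rcases abs_cases (3 * (z : ℤ) + (0 * w + -3 * t)) with ⟨h, h'⟩ | ⟨h, h'⟩ <;> omega
  have e7 : ((12 * ((t - z) / 2) : ℕ) : ℤ) = |6 * (z : ℤ) + (0 * w + -6 * t)| := by
    rcases abs_cases (6 * (z : ℤ) + (0 * w + -6 * t)) with ⟨h, h'⟩ | ⟨h, h'⟩ <;> omega
  have e8 : ((12 * ((z + 3 * t) / 4) : ℕ) : ℤ) = |3 * (z : ℤ) + (0 * w + 9 * t)| := by
    rcases abs_cases (3 * (z : ℤ) + (0 * w + 9 * t)) with ⟨h, h'⟩ | ⟨h, h'⟩ <;> omega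
  fin_cases i
  · exact e0
  · exact e1
  · exact e2
  · exact e3
  · exact e4
  · exact e5
  · exact e6
  · exact e7
  · exact e8

private theorem g2b_img (w t z : ℕ) : (univ : Finset (Fin 9)).image (g2b_v w t z) = nine w t z := by
  ext x
  simp only [mem_image, mem_univ, true_and, nine, mem_insert, mem_singleton]
  constructor
  · rintro ⟨i, rfl⟩
    fin_cases i <;> simp [g2b_v]
  · rintro (h | h | h | h | h | h | h | h | h)
    · exact ⟨0, h.symm⟩
    · exact ⟨1, h.symm⟩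
    · exact ⟨2, h.symm⟩
    · exact ⟨3, h.symm⟩
    · exact ⟨4, h.symm⟩
    · exact ⟨5, h.symm⟩
    · exact ⟨6, h.symm⟩
    · exact ⟨7, h.symm⟩
    · exact ⟨8, h.symm⟩

private theorem g2b_z0 (w t : ℕ) : ∃ z₀ < 12, z₀ % 3 = w % 3 ∧ z₀ % 4 = t % 4 := by
  have h : ∀ a < 3, ∀ b < 4, ∃ z₀ < 12, z₀ % 3 = a ∧ z₀ % 4 = b := by decide
  exact h (w % 3) (Nat.mod_lt _ (by norm_num)) (t % 4) (Nat.mod_lt _ (by norm_num))

theorem choose_z {N w t : ℕ} (hw : 1 ≤ w) (ht : N ≤ 100 * t) (F : Finset ℕ) (h0 : 0 ∈ F)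
    (hF : 30000 * (F.card + 20) ≤ N) :
    ∃ z, 1 ≤ z ∧ z < t ∧ z % 3 = w % 3 ∧ z % 4 = t % 4 ∧ (nine w t z).card = 9 ∧
      Disjoint (nine w t z) F := by
  have ht1 : 6000 + 300 * F.card ≤ t := by omega
  obtain ⟨z₀, hz₀, hz3, hz4⟩ := g2b_z0 w t
  set K : ℕ := (t - 13) / 12 with hK
  have hKc : 18 * F.card + 162 < K := by omega
  set I : Finset ℕ := (range K).image (fun k => 12 * (k + 1) + z₀) with hI
  have hIc : I.card = K := by
    rw [hI, card_image_of_injective _ (fun a b (h : 12 * (a + 1) + z₀ = 12 * (b + 1) + z₀) => by omega), card_range]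
  obtain ⟨z, hzI, hzF, hzne⟩ := affine_avoid 12 g2b_al (fun i => g2b_a i * w + g2b_b i * t)
    (fun i => (g2b_pos i).ne') (by
      intro i j hij
      refine ⟨fun h1 (h2 : g2b_a i * (w : ℤ) + g2b_b i * t = g2b_a j * w + g2b_b j * t) => ?_,
        fun h1 => ?_⟩
      · have hw0 : (w : ℤ) ≠ 0 := by
          have : w ≠ 0 := by omega
          exact_mod_cast this
        have ht0 : (t : ℤ) ≠ 0 := by
          have : t ≠ 0 := by omega
          exact_mod_cast this
        rcases g2b_ne i j hij h1 with ⟨h3, h4⟩ | ⟨h3, h4⟩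
        · rw [h4] at h2
          exact h3 (mul_right_cancel₀ hw0 (by linarith))
        · rw [h3] at h2
          exact h4 (mul_right_cancel₀ ht0 (by linarith))
      · have h2 := g2b_pos i
        have h3 := g2b_pos j
        omega) I F (by rw [hIc]; omega)
  rw [hI, mem_image] at hzI
  obtain ⟨k, hk, hkz⟩ := hzI
  rw [mem_range] at hk
  have hz1 : 1 ≤ z := by omega
  have hzt : z < t := by omega
  have h3 : z % 3 = w % 3 := by omega
  have h4 : z % 4 = t % 4 := by omega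
  refine ⟨z, hz1, hzt, h3, h4, ?_, ?_⟩
  · rw [← g2b_img, card_image_of_injective, card_univ, Fintype.card_fin]
    intro i j hij
    by_contra hne
    apply hzne i j hne
    rw [← g2b_key hzt h3 h4 i, ← g2b_key hzt h3 h4 j, hij]
  · rw [← g2b_img, disjoint_left]
    intro x hx hxF
    rw [mem_image] at hx
    obtain ⟨i, _, hi⟩ := hx
    apply hzF i x hxF
    rw [← g2b_key hzt h3 h4 i, hi]

private theorem g2c_s1 (w p q z p' q' : ℕ) : (({w, p, q} : Finset ℕ) ∪ {z, p', q'}) =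
    insert w ({z, p, q, p', q'} : Finset ℕ) := by
  ext x
  simp only [mem_union, mem_insert, mem_singleton, or_left_comm, or_comm]

private theorem g2c_s2 (z p q t p' q' : ℕ) : (({z, p, q} : Finset ℕ) ∪ {t, p', q'}) =
    insert t ({z, p, q, p', q'} : Finset ℕ) := by
  ext x
  simp only [mem_union, mem_insert, mem_singleton, or_left_comm, or_comm]

private theorem g2c_s3 (a b c d e f g h i : ℕ) :
    (({a, b, c, f, g} : Finset ℕ) ∪ {d, h, e, i}) = {a, b, c, d, e, f, g, h, i} := by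
  ext x
  simp only [mem_union, mem_insert, mem_singleton, or_left_comm, or_comm]

private theorem g2c_s4 (a b c d e f g h : ℕ) :
    ({a, b, c, d, e, f, g, h} : Finset ℕ) = ({a, b, c, d, e} : Finset ℕ) ∪ {f, g, h} := by
  ext x
  simp only [mem_union, mem_insert, mem_singleton, or_left_comm, or_comm]

private theorem g2c_s5 (t b c d e f : ℕ) : (({t, b, c} : Finset ℕ) ∪ {d, e, f}) =
    insert t ({b, c, d, e, f} : Finset ℕ) := by
  ext x
  simp only [mem_union, mem_insert, mem_singleton, or_left_comm, or_comm]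

private theorem g2c_s6 (t b c d e f : ℕ) : (({t, c, f} : Finset ℕ) ∪ {b, d, e}) =
    insert t ({b, c, d, e, f} : Finset ℕ) := by
  ext x
  simp only [mem_union, mem_insert, mem_singleton, or_left_comm, or_comm]

private theorem g2c_two {d d' : ℕ × ℕ} {s s' W : Finset ℕ} (h : IsBlock 2 d s)
    (h' : IsBlock 2 d' s') (hd : d ≠ d') (hW : s ∪ s' = W) (hc : W.card = 6) :
    Matchable 2 {d, d'} W := by
  have hs : s.card = 3 := by
    obtain ⟨a, -, -, h⟩ := h
    exact h
  have hs' : s'.card = 3 := by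
    obtain ⟨a, -, -, h⟩ := h'
    exact h
  have hdis : Disjoint s s' := by
    rw [← card_union_eq_card_add_card, hW, hc, hs, hs']
  have h1 := matchable_union (matchable_single h) (matchable_single h')
    (disjoint_singleton.2 hd) hdis
  rw [hW] at h1
  exact h1

private theorem g2c_labs (a b c d : ℕ) :
    labs ({(a, b), (c, d)} : Finset (ℕ × ℕ)) = ({a, c, b, d} : Finset ℕ) := by
  ext x
  rw [mem_labs]
  simp only [mem_insert, mem_singleton]
  constructor
  · rintro ⟨e, rfl | rfl, h | h⟩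
    · exact Or.inl h
    · exact Or.inr (Or.inr (Or.inl h))
    · exact Or.inr (Or.inl h)
    · exact Or.inr (Or.inr (Or.inr h))
  · rintro (h | h | h | h)
    · exact ⟨(a, b), Or.inl rfl, Or.inl h⟩
    · exact ⟨(c, d), Or.inr rfl, Or.inl h⟩
    · exact ⟨(a, b), Or.inl rfl, Or.inr h⟩
    · exact ⟨(c, d), Or.inr rfl, Or.inr h⟩

/-- two units with four different labels -/
private theorem g2c_unit {a b c d : ℕ} (h : (labs ({(a, b), (c, d)} : Finset (ℕ × ℕ))).card = 4) :
    UnitOK 2 {(a, b), (c, d)} ∧ ({(a, b), (c, d)} : Finset (ℕ × ℕ)).card = 2 ∧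
      ((a, b) : ℕ × ℕ) ≠ (c, d) := by
  have h1 : (labs ({(a, b), (c, d)} : Finset (ℕ × ℕ))).card ≤
      2 * ({(a, b), (c, d)} : Finset (ℕ × ℕ)).card := by
    unfold labs
    refine (card_union_le _ _).trans ?_
    have h2 := card_image_le (s := ({(a, b), (c, d)} : Finset (ℕ × ℕ))) (f := Prod.fst)
    have h3 := card_image_le (s := ({(a, b), (c, d)} : Finset (ℕ × ℕ))) (f := Prod.snd)
    omega
  have h2 := card_le_two (a := ((a, b) : ℕ × ℕ)) (b := (c, d))
  refine ⟨⟨fun h3 => by omega, by omega⟩, by omega, fun h3 => ?_⟩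
  rw [h3, pair_eq_singleton, card_singleton] at h1
  rw [h3, pair_eq_singleton] at h
  omega

/-- the labels of the two links between `w` and `t` through `z` -/
private def g2c_L (w t z : ℕ) : Finset ℕ :=
  {z, (w + 2 * z) / 3, (2 * w + z) / 3, (z + t) / 2, (t - z) / 4}

/-- the units of the two links between `w` and `t` through `z` -/
private def g2c_D (w t z : ℕ) : Finset (ℕ × ℕ) :=
  {(2 * dd w z / 3, dd w z / 3), ((t - z) / 2, (z + 3 * t) / 4)}

private theorem g2c_link {w t z : ℕ} (hw : 1 ≤ w) (hz : 1 ≤ z) (hlt : z < t)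
    (h3 : z % 3 = w % 3) (h4 : z % 4 = t % 4) (h9 : (nine w t z).card = 9)
    (hwn : w ∉ nine w t z) (htn : t ∉ nine w t z) :
    g2c_L w t z ∪ labs (g2c_D w t z) = nine w t z ∧
      Disjoint (g2c_L w t z) (labs (g2c_D w t z)) ∧ (g2c_D w t z).card = 2 ∧
      UnitOK 2 (g2c_D w t z) ∧ Matchable 2 (g2c_D w t z) (insert w (g2c_L w t z)) ∧
      Matchable 2 (g2c_D w t z) (insert t (g2c_L w t z)) := by
  have hlab : labs (g2c_D w t z) =
      {2 * dd w z / 3, (t - z) / 2, dd w z / 3, (z + 3 * t) / 4} := g2c_labs _ _ _ _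
  have hun : g2c_L w t z ∪ labs (g2c_D w t z) = nine w t z := by
    rw [hlab]
    unfold g2c_L nine
    exact g2c_s3 _ _ _ _ _ _ _ _ _
  have hL5 : (g2c_L w t z).card ≤ 5 := card_le_five
  have hD4 : (labs (g2c_D w t z)).card ≤ 4 := by
    rw [hlab]
    exact card_le_four
  have hle := card_union_le (g2c_L w t z) (labs (g2c_D w t z))
  rw [hun, h9] at hle
  have hL : (g2c_L w t z).card = 5 := by omega
  have hD : (labs (g2c_D w t z)).card = 4 := by omega
  have hdis : Disjoint (g2c_L w t z) (labs (g2c_D w t z)) := by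
    rw [← card_union_eq_card_add_card, hun, h9, hL, hD]
  obtain ⟨hu1, hu2, hu3⟩ := g2c_unit hD
  have hLn : g2c_L w t z ⊆ nine w t z := by
    rw [← hun]
    exact subset_union_left
  have hwL : w ∉ g2c_L w t z := fun h => hwn (hLn h)
  have htL : t ∉ g2c_L w t z := fun h => htn (hLn h)
  have hwz : w ≠ z := by
    rintro rfl
    exact hwL (mem_insert_self _ _)
  have hz4 : z ≠ (t - z) / 4 := by
    intro h
    have h5 : g2c_L w t z ⊆ ({z, (w + 2 * z) / 3, (2 * w + z) / 3, (z + t) / 2} : Finset ℕ) := by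
      intro x hx
      unfold g2c_L at hx
      simp only [mem_insert, mem_singleton] at hx ⊢
      rcases hx with h6 | h6 | h6 | h6 | h6
      · exact Or.inl h6
      · exact Or.inr (Or.inl h6)
      · exact Or.inr (Or.inr (Or.inl h6))
      · exact Or.inr (Or.inr (Or.inr h6))
      · exact Or.inl (h6.trans h.symm)
    have h6 := (card_le_card h5).trans card_le_four
    omega
  obtain ⟨b1, b2⟩ := link3 hw hz hwz h3.symm
  obtain ⟨b3, b4⟩ := link4 hz hlt h4 hz4
  refine ⟨hun, hdis, hu2, hu1, ?_, ?_⟩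
  · refine g2c_two b1 b3 hu3 ?_ ?_
    · unfold g2c_L
      exact g2c_s1 _ _ _ _ _ _
    · rw [card_insert_of_notMem hwL, hL]
  · refine g2c_two b2 b4 hu3 ?_ ?_
    · unfold g2c_L
      exact g2c_s2 _ _ _ _ _ _
    · rw [card_insert_of_notMem htL, hL]

/-- the labels of the hub -/
private def g2c_H (b r : ℕ) : Finset ℕ := {b, 3 * r, b + 2 * r, b + 4 * r, b + 6 * r}

/-- the units of the hub -/
private def g2c_E (b r : ℕ) : Finset (ℕ × ℕ) := {(b + 3 * r, 2 * b), (4 * r, 2 * r)}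

/-- the ports of the hub -/
private def g2c_t (b r : ℕ) : Fin 3 → ℕ := ![2 * b - 3 * r, 2 * b + 3 * r, b - 6 * r]

/-- all the numbers of the hub -/
private def g2c_U (b r : ℕ) : Finset ℕ :=
  ({b, 3 * r, b + 2 * r, b + 4 * r, b + 6 * r, 2 * b - 3 * r, 2 * b + 3 * r, b - 6 * r} :
    Finset ℕ) ∪ labs (g2c_E b r)

private theorem g2c_hub {b r : ℕ} (hr : 1 ≤ r) (hb : 6 * r < b) (hU : 12 ≤ (g2c_U b r).card) :
    g2c_H b r ⊆ g2c_U b r ∧ labs (g2c_E b r) ⊆ g2c_U b r ∧ (∀ i, g2c_t b r i ∈ g2c_U b r) ∧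
      (∀ i, g2c_t b r i ∉ g2c_H b r) ∧ Function.Injective (g2c_t b r) ∧
      Disjoint (g2c_H b r) (labs (g2c_E b r)) ∧ (∀ i, g2c_t b r i ∉ labs (g2c_E b r)) ∧
      (g2c_E b r).card = 2 ∧ UnitOK 2 (g2c_E b r) ∧
      ∀ i, Matchable 2 (g2c_E b r) (insert (g2c_t b r i) (g2c_H b r)) := by
  obtain ⟨S, hS⟩ : ∃ S : Finset ℕ, S =
    {b, 3 * r, b + 2 * r, b + 4 * r, b + 6 * r, 2 * b - 3 * r, 2 * b + 3 * r, b - 6 * r} := ⟨_, rfl⟩
  have hUS : g2c_U b r = S ∪ labs (g2c_E b r) := by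
    rw [hS]
    rfl
  have hlab : labs (g2c_E b r) = {b + 3 * r, 4 * r, 2 * b, 2 * r} := g2c_labs _ _ _ _
  have hTT : (univ.image (g2c_t b r)) = {2 * b - 3 * r, 2 * b + 3 * r, b - 6 * r} := by
    unfold g2c_t
    ext x
    simp only [mem_image, mem_univ, true_and, mem_insert, mem_singleton]
    constructor
    · rintro ⟨i, rfl⟩
      fin_cases i
      · exact Or.inl rfl
      · exact Or.inr (Or.inl rfl)
      · exact Or.inr (Or.inr rfl)
    · rintro (rfl | rfl | rfl)
      · exact ⟨0, rfl⟩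
      · exact ⟨1, rfl⟩
      · exact ⟨2, rfl⟩
  have hSH : S = g2c_H b r ∪ univ.image (g2c_t b r) := by
    rw [hTT, hS]
    unfold g2c_H
    exact g2c_s4 _ _ _ _ _ _ _ _
  have hH5 : (g2c_H b r).card ≤ 5 := card_le_five
  have hT3 : (univ.image (g2c_t b r)).card ≤ 3 := by
    rw [hTT]
    exact card_le_three
  have hE4 : (labs (g2c_E b r)).card ≤ 4 := by
    rw [hlab]
    exact card_le_four
  have h1 := card_union_le S (labs (g2c_E b r))
  rw [← hUS] at h1
  have h2 := card_union_le (g2c_H b r) (univ.image (g2c_t b r))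
  rw [← hSH] at h2
  have hH : (g2c_H b r).card = 5 := by omega
  have hT : (univ.image (g2c_t b r)).card = 3 := by omega
  have hE : (labs (g2c_E b r)).card = 4 := by omega
  have hS8 : S.card = 8 := by omega
  have hdHT : Disjoint (g2c_H b r) (univ.image (g2c_t b r)) := by
    rw [← card_union_eq_card_add_card, ← hSH, hH, hT, hS8]
  have hdSE : Disjoint S (labs (g2c_E b r)) := by
    rw [← card_union_eq_card_add_card, ← hUS, hS8, hE]
    omega
  have hinj : Function.Injective (g2c_t b r) := by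
    have h3 : (univ.image (g2c_t b r)).card = (univ : Finset (Fin 3)).card := by
      rw [hT, card_univ, Fintype.card_fin]
    have h4 := card_image_iff.1 h3
    intro i j hij
    exact h4 (mem_coe.2 (mem_univ i)) (mem_coe.2 (mem_univ j)) hij
  have htm : ∀ i, g2c_t b r i ∈ univ.image (g2c_t b r) := fun i =>
    mem_image_of_mem _ (mem_univ i)
  have htS : ∀ i, g2c_t b r i ∈ S := fun i => by
    rw [hSH]
    exact mem_union_right _ (htm i)
  have htH : ∀ i, g2c_t b r i ∉ g2c_H b r := fun i h => disjoint_left.1 hdHT h (htm i)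
  obtain ⟨hu1, hu2, hu3⟩ := g2c_unit hE
  obtain ⟨⟨a1, a2⟩, ⟨a3, a4⟩, ⟨a5, a6⟩⟩ := hub2 hr hb (by rw [← hS]; exact hS8)
  have hcard : ∀ i, (insert (g2c_t b r i) (g2c_H b r)).card = 6 := fun i => by
    rw [card_insert_of_notMem (htH i), hH]
  refine ⟨?_, ?_, ?_, htH, hinj, ?_, ?_, hu2, hu1, ?_⟩
  · rw [hUS, hSH]
    exact subset_union_left.trans subset_union_left
  · rw [hUS]
    exact subset_union_right
  · intro i
    rw [hUS]
    exact mem_union_left _ (htS i)
  · refine hdSE.mono_left ?_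
    rw [hSH]
    exact subset_union_left
  · exact fun i h => disjoint_left.1 hdSE (htS i) h
  · intro i
    have hc := hcard i
    fin_cases i
    · refine g2c_two a1 a2 hu3 ?_ hc
      show _ = insert (2 * b - 3 * r) (g2c_H b r)
      unfold g2c_H
      exact g2c_s5 _ _ _ _ _ _
    · refine g2c_two a3 a4 hu3 ?_ hc
      show _ = insert (2 * b + 3 * r) (g2c_H b r)
      unfold g2c_H
      exact g2c_s5 _ _ _ _ _ _
    · refine g2c_two a6 a5 hu3 ?_ hc
      show _ = insert (b - 6 * r) (g2c_H b r)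
      unfold g2c_H
      exact g2c_s6 _ _ _ _ _ _

private def g2c_al : Fin 9 → ℤ := ![1, 1, 1, 1, 1, 2, 2, 2, 1]
private def g2c_ga : Fin 9 → ℤ := ![0, 2, 4, 6, 3, 0, -3, 3, -6]
private def g2c_v (b r : ℕ) : Fin 9 → ℕ :=
  ![b, b + 2 * r, b + 4 * r, b + 6 * r, b + 3 * r, 2 * b, 2 * b - 3 * r, 2 * b + 3 * r, b - 6 * r]

private theorem g2c_val {b r : ℕ} (hb : 6 * r < b) (i : Fin 9) :
    |g2c_al i * (b : ℤ) + g2c_ga i * r| = ((g2c_v b r i : ℕ) : ℤ) := by
  fin_cases i
  · show |(1 : ℤ) * b + 0 * r| = ((b : ℕ) : ℤ)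
    rw [abs_of_nonneg] <;> omega
  · show |(1 : ℤ) * b + 2 * r| = ((b + 2 * r : ℕ) : ℤ)
    rw [abs_of_nonneg] <;> omega
  · show |(1 : ℤ) * b + 4 * r| = ((b + 4 * r : ℕ) : ℤ)
    rw [abs_of_nonneg] <;> omega
  · show |(1 : ℤ) * b + 6 * r| = ((b + 6 * r : ℕ) : ℤ)
    rw [abs_of_nonneg] <;> omega
  · show |(1 : ℤ) * b + 3 * r| = ((b + 3 * r : ℕ) : ℤ)
    rw [abs_of_nonneg] <;> omega
  · show |(2 : ℤ) * b + 0 * r| = ((2 * b : ℕ) : ℤ)
    rw [abs_of_nonneg] <;> omega
  · show |(2 : ℤ) * b + -3 * r| = ((2 * b - 3 * r : ℕ) : ℤ)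
    rw [abs_of_nonneg] <;> omega
  · show |(2 : ℤ) * b + 3 * r| = ((2 * b + 3 * r : ℕ) : ℤ)
    rw [abs_of_nonneg] <;> omega
  · show |(1 : ℤ) * b + -6 * r| = ((b - 6 * r : ℕ) : ℤ)
    rw [abs_of_nonneg] <;> omega

private theorem g2c_al_ne (i : Fin 9) : g2c_al i ≠ 0 := by
  revert i
  decide

private theorem g2c_al_neg (i j : Fin 9) : g2c_al i ≠ -g2c_al j := by
  revert i j
  decide

private theorem g2c_ga_ne (i j : Fin 9) (h : i ≠ j) (h2 : g2c_al i = g2c_al j) :
    g2c_ga i ≠ g2c_ga j := by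
  revert i j
  decide

/-- the choice of `r` -/
private theorem g2c_r {N : ℕ} (hN : 10 ^ 7 ≤ N) (F : Finset ℕ) (hF : 40000 * F.card ≤ N) :
    ∃ r, 1 ≤ r ∧ N ≤ 60 * r ∧ 50 * r ≤ N ∧ 2 * r ∉ F ∧ 3 * r ∉ F ∧ 4 * r ∉ F := by
  obtain ⟨r, hrI, h1, -⟩ := affine_avoid (m := 3) 1 ![2, 3, 4] (fun _ => 0) (by decide)
    (fun i j hij => ⟨fun h => absurd h (by revert i j; decide),
      fun h => absurd h (by revert i j; decide)⟩) (Icc (N / 60 + 1) (N / 50)) F (by
        rw [Nat.card_Icc]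
        omega)
  have hr := mem_Icc.1 hrI
  refine ⟨r, by omega, by omega, by omega, fun h => ?_, fun h => ?_, fun h => ?_⟩
  · refine h1 0 _ h ?_
    show ((1 * (2 * r) : ℕ) : ℤ) = |(2 : ℤ) * r + 0|
    rw [abs_of_nonneg] <;> omega
  · refine h1 1 _ h ?_
    show ((1 * (3 * r) : ℕ) : ℤ) = |(3 : ℤ) * r + 0|
    rw [abs_of_nonneg] <;> omega
  · refine h1 2 _ h ?_
    show ((1 * (4 * r) : ℕ) : ℤ) = |(4 : ℤ) * r + 0|
    rw [abs_of_nonneg] <;> omega

private theorem g2c_memU {b r x : ℕ} : x ∈ g2c_U b r ↔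
    (∃ i, x = g2c_v b r i) ∨ (x = 2 * r ∨ x = 3 * r ∨ x = 4 * r) := by
  unfold g2c_U g2c_E
  rw [g2c_labs]
  simp only [mem_union, mem_insert, mem_singleton]
  constructor
  · rintro ((h | h | h | h | h | h | h | h) | (h | h | h | h))
    · exact Or.inl ⟨0, h⟩
    · exact Or.inr (Or.inr (Or.inl h))
    · exact Or.inl ⟨1, h⟩
    · exact Or.inl ⟨2, h⟩
    · exact Or.inl ⟨3, h⟩
    · exact Or.inl ⟨6, h⟩
    · exact Or.inl ⟨7, h⟩
    · exact Or.inl ⟨8, h⟩
    · exact Or.inl ⟨4, h⟩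
    · exact Or.inr (Or.inr (Or.inr h))
    · exact Or.inl ⟨5, h⟩
    · exact Or.inr (Or.inl h)
  · rintro (⟨i, h⟩ | h | h | h)
    · fin_cases i
      · exact Or.inl (Or.inl h)
      · exact Or.inl (Or.inr (Or.inr (Or.inl h)))
      · exact Or.inl (Or.inr (Or.inr (Or.inr (Or.inl h))))
      · exact Or.inl (Or.inr (Or.inr (Or.inr (Or.inr (Or.inl h)))))
      · exact Or.inr (Or.inl h)
      · exact Or.inr (Or.inr (Or.inr (Or.inl h)))
      · exact Or.inl (Or.inr (Or.inr (Or.inr (Or.inr (Or.inr (Or.inl h))))))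
      · exact Or.inl (Or.inr (Or.inr (Or.inr (Or.inr (Or.inr (Or.inr (Or.inl h)))))))
      · exact Or.inl (Or.inr (Or.inr (Or.inr (Or.inr (Or.inr (Or.inr (Or.inr h)))))))
    · exact Or.inr (Or.inr (Or.inr (Or.inr h)))
    · exact Or.inl (Or.inr (Or.inl h))
    · exact Or.inr (Or.inr (Or.inl h))

/-- the choice of the hub -/
private theorem g2c_choose {N : ℕ} (hN : 10 ^ 7 ≤ N) (F : Finset ℕ)
    (hF : 40000 * F.card ≤ N) :
    ∃ b r, 1 ≤ r ∧ 6 * r < b ∧ N ≤ 100 * (b - 6 * r) ∧ 2 * b + 3 * r ≤ N ∧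
      12 ≤ (g2c_U b r).card ∧ Disjoint (g2c_U b r) F := by
  obtain ⟨r, hr1, hr2, hr3, hf2, hf3, hf4⟩ := g2c_r hN F hF
  have hcard : (({2 * r, 3 * r, 4 * r} : Finset ℕ) ∪ F).card ≤ F.card + 3 := by
    refine (card_union_le _ _).trans ?_
    have := card_le_three (a := 2 * r) (b := 3 * r) (c := 4 * r)
    omega
  obtain ⟨b, hbI, h1, h2⟩ := affine_avoid (m := 9) 1 g2c_al (fun i => g2c_ga i * r) g2c_al_ne
    (fun i j hij => ⟨fun h h' => g2c_ga_ne i j hij h
      (mul_right_cancel₀ (by omega : (r : ℤ) ≠ 0) h'), fun h => absurd h (g2c_al_neg i j)⟩)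
    (Icc (13 * N / 100 + 1) (15 * N / 100)) (({2 * r, 3 * r, 4 * r} : Finset ℕ) ∪ F) (by
      rw [Nat.card_Icc]
      omega)
  have hb := mem_Icc.1 hbI
  have hb6 : 6 * r < b := by omega
  have hv : ∀ i, g2c_v b r i ∉ (({2 * r, 3 * r, 4 * r} : Finset ℕ) ∪ F) := by
    intro i hi
    refine h1 i _ hi ?_
    show ((1 * g2c_v b r i : ℕ) : ℤ) = |g2c_al i * (b : ℤ) + g2c_ga i * r|
    rw [g2c_val hb6 i, one_mul]
  have hinj : Function.Injective (g2c_v b r) := by
    intro i j hij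
    by_contra hne
    refine h2 i j hne ?_
    show |g2c_al i * (b : ℤ) + g2c_ga i * r| = |g2c_al j * (b : ℤ) + g2c_ga j * r|
    rw [g2c_val hb6 i, g2c_val hb6 j, hij]
  refine ⟨b, r, hr1, hb6, by omega, by omega, ?_, ?_⟩
  · have h3 : ({2 * r, 3 * r, 4 * r} : Finset ℕ).card = 3 := by
      rw [card_eq_three]
      exact ⟨_, _, _, by omega, by omega, by omega, rfl⟩
    have h4 : (univ.image (g2c_v b r)).card = 9 := by
      rw [card_image_of_injective _ hinj, card_univ, Fintype.card_fin]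
    have h5 : Disjoint (univ.image (g2c_v b r)) ({2 * r, 3 * r, 4 * r} : Finset ℕ) := by
      rw [disjoint_left]
      intro x hx hx'
      obtain ⟨i, -, rfl⟩ := mem_image.1 hx
      exact hv i (mem_union_left _ hx')
    have h6 : univ.image (g2c_v b r) ∪ ({2 * r, 3 * r, 4 * r} : Finset ℕ) ⊆ g2c_U b r := by
      intro x hx
      rw [g2c_memU]
      rcases mem_union.1 hx with h | h
      · obtain ⟨i, -, rfl⟩ := mem_image.1 h
        exact Or.inl ⟨i, rfl⟩
      · right
        rw [mem_insert, mem_insert, mem_singleton] at h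
        exact h
    have h7 := card_le_card h6
    rw [card_union_of_disjoint h5, h3, h4] at h7
    exact h7
  · rw [disjoint_left]
    intro x hx hxF
    rw [g2c_memU] at hx
    rcases hx with ⟨i, rfl⟩ | rfl | rfl | rfl
    · exact hv i (mem_union_right _ hxF)
    · exact hf2 hxF
    · exact hf3 hxF
    · exact hf4 hxF

private theorem g2c_U_le {b r x : ℕ} (hb : 6 * r < b) (h : x ∈ g2c_U b r) : x ≤ 2 * b + 3 * r := by
  rw [g2c_memU] at h
  rcases h with ⟨i, rfl⟩ | h | h | h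
  · fin_cases i
    · show b ≤ _
      omega
    · show b + 2 * r ≤ _
      omega
    · show b + 4 * r ≤ _
      omega
    · show b + 6 * r ≤ _
      omega
    · show b + 3 * r ≤ _
      omega
    · show 2 * b ≤ _
      omega
    · show 2 * b - 3 * r ≤ _
      omega
    · show 2 * b + 3 * r ≤ _
      omega
    · show b - 6 * r ≤ _
      omega
  all_goals omega

private theorem g2c_U_card (b r : ℕ) : (g2c_U b r).card ≤ 12 := by
  have h : g2c_U b r ⊆ univ.image (g2c_v b r) ∪ ({2 * r, 3 * r, 4 * r} : Finset ℕ) := by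
    intro x hx
    rw [g2c_memU] at hx
    rcases hx with ⟨i, rfl⟩ | h
    · exact mem_union_left _ (mem_image_of_mem _ (mem_univ i))
    · refine mem_union_right _ ?_
      rw [mem_insert, mem_insert, mem_singleton]
      exact h
  have h2 := (card_le_card h).trans (card_union_le _ _)
  have h3 : (univ.image (g2c_v b r)).card ≤ (univ : Finset (Fin 9)).card := card_image_le
  rw [card_univ, Fintype.card_fin] at h3
  have h4 := card_le_three (a := 2 * r) (b := 3 * r) (c := 4 * r)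
  omega

private theorem g2c_nine_le {N w t z x : ℕ} (hw : w ≤ N) (ht : t ≤ N) (hz : z < t)
    (h : x ∈ nine w t z) : x ≤ N := by
  have hd : dd w z ≤ N := by
    unfold dd
    omega
  unfold nine at h
  simp only [mem_insert, mem_singleton] at h
  rcases h with h | h | h | h | h | h | h | h | h <;> omega

private theorem g2c_disj {a b : ℕ} {s t : Finset ℕ} (hab : a ≠ b) (ha : a ∉ t) (hb : b ∉ s)
    (hst : Disjoint s t) : Disjoint (insert a s) (insert b t) := by
  rw [disjoint_insert_left, disjoint_insert_right, mem_insert]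
  exact ⟨fun h => h.elim hab ha, hb, hst⟩

private theorem g2c_tN {N b r : ℕ} (hb : 6 * r < b) (hbN : N ≤ 100 * (b - 6 * r)) (i : Fin 3) :
    N ≤ 100 * g2c_t b r i := by
  fin_cases i
  · show N ≤ 100 * (2 * b - 3 * r)
    omega
  · show N ≤ 100 * (2 * b + 3 * r)
    omega
  · show N ≤ 100 * (b - 6 * r)
    omega

/-- the data of the links -/
private theorem g2c_links {N : ℕ} (hN : 10 ^ 7 ≤ N) (w t : Fin 3 → ℕ) (hw : ∀ i, 1 ≤ w i)
    (ht : ∀ i, N ≤ 100 * t i) (G : Finset ℕ) (hG : 50000 * G.card ≤ N + 50000 * 13)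
    (h0 : 0 ∈ G) (hwG : ∀ i, w i ∈ G) (htG : ∀ i, t i ∈ G) :
    ∃ z : Fin 3 → ℕ, (∀ i, z i < t i) ∧ (∀ i, Disjoint (nine (w i) (t i) (z i)) G) ∧
      (∀ i j, i ≠ j → Disjoint (nine (w i) (t i) (z i)) (nine (w j) (t j) (z j))) ∧
      ∀ i, g2c_L (w i) (t i) (z i) ∪ labs (g2c_D (w i) (t i) (z i)) = nine (w i) (t i) (z i) ∧
        Disjoint (g2c_L (w i) (t i) (z i)) (labs (g2c_D (w i) (t i) (z i))) ∧
        (g2c_D (w i) (t i) (z i)).card = 2 ∧ UnitOK 2 (g2c_D (w i) (t i) (z i)) ∧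
        Matchable 2 (g2c_D (w i) (t i) (z i)) (insert (w i) (g2c_L (w i) (t i) (z i))) ∧
        Matchable 2 (g2c_D (w i) (t i) (z i)) (insert (t i) (g2c_L (w i) (t i) (z i))) := by
  obtain ⟨o, o1, o2, o3, -⟩ := greedy (ι := Fin 3) (Obj := ℕ × ℕ × ℕ)
    (fun o => nine o.1 o.2.1 o.2.2)
    (fun i o => o.1 = w i ∧ o.2.1 = t i ∧ 1 ≤ o.2.2 ∧ o.2.2 < t i ∧ o.2.2 % 3 = w i % 3 ∧
      o.2.2 % 4 = t i % 4 ∧ (nine (w i) (t i) o.2.2).card = 9) 9 (G.card + 27) G univ
    (by
      intro i _ F' hGF hF'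
      obtain ⟨z, a1, a2, a3, a4, a5, a6⟩ := choose_z (N := N) (hw i) (ht i) F' (hGF h0) (by omega)
      exact ⟨(w i, t i, z), ⟨rfl, rfl, a1, a2, a3, a4, a5⟩, a6, le_of_eq a5⟩)
    (by
      rw [card_univ, Fintype.card_fin])
  have e : ∀ i, nine (o i).1 (o i).2.1 (o i).2.2 = nine (w i) (t i) (o i).2.2 := fun i => by
    obtain ⟨a1, a2, -⟩ := o1 i (mem_univ i)
    rw [a1, a2]
  have p2 : ∀ i, Disjoint (nine (w i) (t i) (o i).2.2) G := fun i => by
    rw [← e i]
    exact o2 i (mem_univ i)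
  refine ⟨fun i => (o i).2.2, fun i => (o1 i (mem_univ i)).2.2.2.1, p2, ?_, ?_⟩
  · intro i j hij
    show Disjoint (nine (w i) (t i) (o i).2.2) (nine (w j) (t j) (o j).2.2)
    rw [← e i, ← e j]
    exact o3 i (mem_univ i) j (mem_univ j) hij
  · intro i
    obtain ⟨-, -, a3, a4, a5, a6, a7⟩ := o1 i (mem_univ i)
    exact g2c_link (hw i) a3 a4 a5 a6 a7 (fun h => disjoint_left.1 (p2 i) h (hwG i))
      (fun h => disjoint_left.1 (p2 i) h (htG i))

/-- the assembly of the gadget -/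
private theorem g2c_main {N : ℕ} (w t : Fin 3 → ℕ) (H : Finset ℕ) (E : Finset (ℕ × ℕ))
    (U : Finset ℕ) (A L : Fin 3 → Finset ℕ) (D : Fin 3 → Finset (ℕ × ℕ)) (F1 F : Finset ℕ)
    (h01 : 0 ∈ F1) (hFF1 : F ⊆ F1) (hwF : ∀ i, w i ∈ F)
    (q1 : H ⊆ U) (q2 : labs E ⊆ U) (q3 : ∀ i, t i ∈ U) (q4 : ∀ i, t i ∉ H)
    (q5 : Function.Injective t) (q6 : Disjoint H (labs E)) (q7 : ∀ i, t i ∉ labs E)
    (q8 : E.card = 2) (q9 : UnitOK 2 E) (q10 : ∀ i, Matchable 2 E (insert (t i) H))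
    (hUF : Disjoint U F1) (hUN : ∀ x ∈ U, x ≤ N) (hAN : ∀ i, ∀ x ∈ A i, x ≤ N)
    (hAF : ∀ i, Disjoint (A i) F1) (hAU : ∀ i, Disjoint (A i) U)
    (hAA : ∀ i j, i ≠ j → Disjoint (A i) (A j))
    (z4 : ∀ i, L i ∪ labs (D i) = A i ∧ Disjoint (L i) (labs (D i)) ∧ (D i).card = 2 ∧
      UnitOK 2 (D i) ∧ Matchable 2 (D i) (insert (w i) (L i)) ∧
      Matchable 2 (D i) (insert (t i) (L i))) :
    ∃ (L : Finset ℕ) (D : Finset (ℕ × ℕ)), L ⊆ Icc 1 N ∧ labs D ⊆ Icc 1 N ∧
      Disjoint L (labs D) ∧ Disjoint L F ∧ Disjoint (labs D) F ∧ UnitOK 2 D ∧ D.card = 8 ∧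
      L.card + 1 = (2 + 1) * 8 ∧ ∀ i, Matchable 2 D (insert (w i) L) := by
  have hwU : ∀ i, w i ∉ U := fun i h => disjoint_left.1 hUF h (hFF1 (hwF i))
  have hwA : ∀ i j, w i ∉ A j := fun i j h => disjoint_left.1 (hAF j) h (hFF1 (hwF i))
  have htA : ∀ i j, t i ∉ A j := fun i j h => disjoint_left.1 (hAU j) h (q3 i)
  have hLA : ∀ i, L i ⊆ A i := fun i => by
    rw [← (z4 i).1]
    exact subset_union_left
  have hDA : ∀ i, labs (D i) ⊆ A i := fun i => by
    rw [← (z4 i).1]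
    exact subset_union_right
  obtain ⟨X, hX⟩ : ∃ X : Option (Fin 3) → Finset ℕ, X = fun o => o.elim U A := ⟨_, rfl⟩
  obtain ⟨DD, hDD⟩ : ∃ DD : Option (Fin 3) → Finset (ℕ × ℕ), DD = fun o => o.elim E D := ⟨_, rfl⟩
  obtain ⟨LL, hLL⟩ : ∃ LL : Option (Fin 3) → Finset ℕ,
    LL = fun o => o.elim (H ∪ univ.image t) L := ⟨_, rfl⟩
  have hXX : ∀ o o', o ≠ o' → Disjoint (X o) (X o') := by
    rw [hX]
    intro o o' hoo
    rcases o with _ | i
    · rcases o' with _ | j
      · exact absurd rfl hoo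
      · exact (hAU j).symm
    · rcases o' with _ | j
      · exact hAU i
      · exact hAA i j (fun h => hoo (congrArg some h))
  have hDX : ∀ o, labs (DD o) ⊆ X o := by
    rw [hX, hDD]
    intro o
    rcases o with _ | i
    · exact q2
    · exact hDA i
  have hLX : ∀ o, LL o ⊆ X o := by
    rw [hX, hLL]
    intro o
    rcases o with _ | i
    · refine union_subset q1 ?_
      intro x hx
      obtain ⟨i, -, rfl⟩ := mem_image.1 hx
      exact q3 i
    · exact hLA i
  have hXN : ∀ o, X o ⊆ Icc 1 N := by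
    intro o x hx
    have hx0 : x ≤ N ∧ x ∉ F1 := by
      rw [hX] at hx
      rcases o with _ | i
      · exact ⟨hUN x hx, fun h => disjoint_left.1 hUF hx h⟩
      · exact ⟨hAN i x hx, fun h => disjoint_left.1 (hAF i) hx h⟩
    have hx1 : x ≠ 0 := by
      rintro rfl
      exact hx0.2 h01
    exact mem_Icc.2 ⟨by omega, hx0.1⟩
  have hXF : ∀ o, Disjoint (X o) F := by
    rw [hX]
    intro o
    rcases o with _ | i
    · exact hUF.mono_right hFF1
    · exact (hAF i).mono_right hFF1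
  have hLD : ∀ o, Disjoint (LL o) (labs (DD o)) := by
    rw [hLL, hDD]
    intro o
    rcases o with _ | i
    · refine disjoint_union_left.2 ⟨q6, ?_⟩
      rw [disjoint_left]
      intro x hx hx'
      obtain ⟨i, -, rfl⟩ := mem_image.1 hx
      exact q7 i hx'
    · exact (z4 i).2.1
  have hDun : ∀ o, UnitOK 2 (DD o) := by
    rw [hDD]
    intro o
    rcases o with _ | i
    · exact q9
    · exact (z4 i).2.2.2.1
  have hDc : ∀ o, (DD o).card = 2 := by
    rw [hDD]
    intro o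
    rcases o with _ | i
    · exact q8
    · exact (z4 i).2.2.1
  have hDdl : ∀ o o', o ≠ o' → Disjoint (labs (DD o)) (labs (DD o')) := fun o o' h =>
    (hXX o o' h).mono (hDX o) (hDX o')
  have hDd : ∀ o o', o ≠ o' → Disjoint (DD o) (DD o') := fun o o' h =>
    disjoint_of_labs (hDdl o o' h)
  have hLsub : univ.biUnion LL ⊆ Icc 1 N := biUnion_subset.2 fun o _ => (hLX o).trans (hXN o)
  have hlab : labs (univ.biUnion DD) = univ.biUnion (fun o => labs (DD o)) := labs_biUnion _ _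
  have hLF : Disjoint (univ.biUnion LL) F :=
    (disjoint_biUnion_left _ _ _).2 fun o _ => (hXF o).mono_left (hLX o)
  have hcard : (univ.biUnion DD).card = 8 := by
    rw [card_biUnion (fun o _ o' _ h => hDd o o' h), sum_congr rfl (fun o _ => hDc o),
      sum_const, card_univ, Fintype.card_option, Fintype.card_fin]
    rfl
  have hM : ∀ i, Matchable 2 (univ.biUnion DD) (insert (w i) (univ.biUnion LL)) := by
    intro i
    obtain ⟨a, ha⟩ : ∃ a : Fin 3 → ℕ, a = fun j => if j = i then w i else t j := ⟨_, rfl⟩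
    have hai : a i = w i := by
      rw [ha]
      exact if_pos rfl
    have haj : ∀ j, j ≠ i → a j = t j := by
      intro j hj
      rw [ha]
      exact if_neg hj
    have haA : ∀ j k, a j ∉ A k := by
      intro j k
      by_cases hj : j = i
      · rw [hj, hai]
        exact hwA i k
      · rw [haj j hj]
        exact htA j k
    have haa : ∀ j k, j ≠ k → a j ≠ a k := by
      intro j k hjk h
      by_cases hj : j = i
      · have hk : k ≠ i := fun h2 => hjk (hj.trans h2.symm)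
        rw [hj, hai, haj k hk] at h
        exact hwU i (h ▸ q3 k)
      · rw [haj j hj] at h
        by_cases hk : k = i
        · rw [hk, hai] at h
          exact hwU i (h ▸ q3 j)
        · rw [haj k hk] at h
          exact hjk (q5 h)
    have hta : ∀ j, t i ≠ a j := by
      intro j h
      by_cases hj : j = i
      · rw [hj, hai] at h
        exact hwU i (h ▸ q3 i)
      · rw [haj j hj] at h
        exact hj (q5 h).symm
    have haH : ∀ j, a j ∉ H := by
      intro j h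
      by_cases hj : j = i
      · rw [hj, hai] at h
        exact hwU i (q1 h)
      · rw [haj j hj] at h
        exact q4 j h
    obtain ⟨WW, hWW⟩ : ∃ WW : Option (Fin 3) → Finset ℕ,
      WW = fun o => o.elim (insert (t i) H) (fun j => insert (a j) (L j)) := ⟨_, rfl⟩
    have hW1 : ∀ o, Matchable 2 (DD o) (WW o) := by
      rw [hWW, hDD]
      intro o
      rcases o with _ | j
      · exact q10 i
      · show Matchable 2 (D j) (insert (a j) (L j))
        by_cases hj : j = i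
        · rw [hj, hai]
          exact (z4 i).2.2.2.2.1
        · rw [haj j hj]
          exact (z4 j).2.2.2.2.2
    have hHA : ∀ j, Disjoint H (L j) := fun j => ((hAU j).symm.mono_left q1).mono_right (hLA j)
    have hW2 : ∀ o o', o ≠ o' → Disjoint (WW o) (WW o') := by
      rw [hWW]
      intro o o' hoo
      rcases o with _ | j
      · rcases o' with _ | k
        · exact absurd rfl hoo
        · exact g2c_disj (hta k) (fun h => htA i k (hLA k h)) (haH k) (hHA k)
      · rcases o' with _ | k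
        · exact (g2c_disj (hta j) (fun h => htA i j (hLA j h)) (haH j) (hHA j)).symm
        · have hjk : j ≠ k := fun h => hoo (congrArg some h)
          exact g2c_disj (haa j k hjk) (fun h => haA j k (hLA k h)) (fun h => haA k j (hLA j h))
            ((hAA j k hjk).mono (hLA j) (hLA k))
    have hW3 : univ.biUnion WW = insert (w i) (univ.biUnion LL) := by
      ext x
      rw [mem_insert, mem_biUnion, mem_biUnion]
      constructor
      · rintro ⟨o, -, hx⟩
        rw [hWW] at hx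
        rcases o with _ | j
        · rcases mem_insert.1 hx with h | h
          · refine Or.inr ⟨none, mem_univ _, ?_⟩
            rw [hLL, h]
            exact mem_union_right _ (mem_image_of_mem _ (mem_univ i))
          · refine Or.inr ⟨none, mem_univ _, ?_⟩
            rw [hLL]
            exact mem_union_left _ h
        · rcases mem_insert.1 hx with h | h
          · by_cases hj : j = i
            · rw [hj, hai] at h
              exact Or.inl h
            · rw [haj j hj] at h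
              refine Or.inr ⟨none, mem_univ _, ?_⟩
              rw [hLL, h]
              exact mem_union_right _ (mem_image_of_mem _ (mem_univ j))
          · refine Or.inr ⟨some j, mem_univ _, ?_⟩
            rw [hLL]
            exact h
      · rintro (h | ⟨o, -, hx⟩)
        · refine ⟨some i, mem_univ _, ?_⟩
          rw [hWW]
          show x ∈ insert (a i) (L i)
          rw [hai, h]
          exact mem_insert_self _ _
        · rw [hLL] at hx
          rcases o with _ | j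
          · rcases mem_union.1 hx with h | h
            · refine ⟨none, mem_univ _, ?_⟩
              rw [hWW]
              exact mem_insert_of_mem h
            · obtain ⟨j, -, rfl⟩ := mem_image.1 h
              by_cases hj : j = i
              · refine ⟨none, mem_univ _, ?_⟩
                rw [hWW, hj]
                exact mem_insert_self _ _
              · refine ⟨some j, mem_univ _, ?_⟩
                rw [hWW]
                show t j ∈ insert (a j) (L j)
                rw [haj j hj]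
                exact mem_insert_self _ _
          · refine ⟨some j, mem_univ _, ?_⟩
            rw [hWW]
            exact mem_insert_of_mem hx
    rw [← hW3]
    exact matchable_biUnion univ DD WW (fun o _ => hW1 o) (fun o _ o' _ h => hDd o o' h)
      (fun o _ o' _ h => hW2 o o' h)
  refine ⟨univ.biUnion LL, univ.biUnion DD, hLsub, ?_, ?_, hLF, ?_, ?_, hcard, ?_, hM⟩
  · rw [hlab]
    exact biUnion_subset.2 fun o _ => (hDX o).trans (hXN o)
  · rw [hlab]
    refine (disjoint_biUnion_left _ _ _).2 fun o _ => (disjoint_biUnion_right _ _ _).2 fun o' _ => ?_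
    by_cases h : o = o'
    · rw [← h]
      exact hLD o
    · exact (hXX o o' h).mono (hLX o) (hDX o')
  · rw [hlab]
    exact (disjoint_biUnion_left _ _ _).2 fun o _ => (hXF o).mono_left (hDX o)
  · exact unitOK_biUnion univ DD (fun o _ => hDun o) (fun o _ o' _ h => hDdl o o' h)
  · have h1 := block_card (hM 0)
    rw [card_insert_of_notMem (fun h => disjoint_left.1 hLF h (hwF 0)), hcard] at h1
    exact h1

theorem gadget2 : GadgetStatement 2 8 := by
  refine ⟨1 / 50000, by norm_num, 10 ^ 7, fun N hN w hw _ F hF hwF => ?_⟩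
  have hF' : 50000 * F.card ≤ N := by
    have h1 : (50000 : ℝ) * F.card ≤ N := by linarith
    exact_mod_cast h1
  obtain ⟨F1, hF1⟩ : ∃ F1 : Finset ℕ, F1 = insert 0 F := ⟨_, rfl⟩
  have hc1 : F1.card ≤ F.card + 1 := by
    rw [hF1]
    exact card_insert_le _ _
  have h01 : 0 ∈ F1 := by
    rw [hF1]
    exact mem_insert_self _ _
  have hFF1 : F ⊆ F1 := by
    rw [hF1]
    exact subset_insert _ _
  obtain ⟨b, r, hr, hb, hbN, hbN', hU12, hUF⟩ := g2c_choose hN F1 (by omega)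
  obtain ⟨q1, q2, q3, q4, q5, q6, q7, q8, q9, q10⟩ := g2c_hub hr hb hU12
  have hUc := g2c_U_card b r
  have hGc := card_union_le F1 (g2c_U b r)
  have hw1 : ∀ i, 1 ≤ w i := fun i => (mem_Icc.1 (hw i)).1
  have hwN : ∀ i, w i ≤ N := fun i => (mem_Icc.1 (hw i)).2
  have hwF1 : ∀ i, w i ∈ F1 := fun i => hFF1 (hwF i)
  have hwU : ∀ i, w i ∉ g2c_U b r := fun i h => disjoint_left.1 hUF h (hwF1 i)
  have htN : ∀ i, g2c_t b r i ≤ N := fun i => (g2c_U_le hb (q3 i)).trans hbN'
  obtain ⟨z, z1, z2, z3, z4⟩ := g2c_links hN w (g2c_t b r) hw1 (g2c_tN hb hbN) (F1 ∪ g2c_U b r)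
    (by omega) (mem_union_left _ h01) (fun i => mem_union_left _ (hwF1 i))
    (fun i => mem_union_right _ (q3 i))
  obtain ⟨t, ht⟩ : ∃ t : Fin 3 → ℕ, t = g2c_t b r := ⟨_, rfl⟩
  obtain ⟨H, hH⟩ : ∃ H : Finset ℕ, H = g2c_H b r := ⟨_, rfl⟩
  obtain ⟨E, hE⟩ : ∃ E : Finset (ℕ × ℕ), E = g2c_E b r := ⟨_, rfl⟩
  obtain ⟨U, hU⟩ : ∃ U : Finset ℕ, U = g2c_U b r := ⟨_, rfl⟩
  have hUN : ∀ x ∈ U, x ≤ N := by
    intro x hx
    rw [hU] at hx
    exact (g2c_U_le hb hx).trans hbN'
  rw [← ht] at q3 q4 q5 q7 q10 z1 z2 z3 z4 htN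
  rw [← hH] at q1 q4 q6 q10
  rw [← hE] at q2 q6 q7 q8 q9 q10
  rw [← hU] at q1 q2 q3 z2 hUF hwU
  obtain ⟨A, hA⟩ : ∃ A : Fin 3 → Finset ℕ, ∀ i, A i = nine (w i) (t i) (z i) := ⟨_, fun _ => rfl⟩
  obtain ⟨L, hL⟩ : ∃ L : Fin 3 → Finset ℕ, ∀ i, L i = g2c_L (w i) (t i) (z i) := ⟨_, fun _ => rfl⟩
  obtain ⟨D, hD⟩ : ∃ D : Fin 3 → Finset (ℕ × ℕ), ∀ i, D i = g2c_D (w i) (t i) (z i) :=
    ⟨_, fun _ => rfl⟩
  have hAN : ∀ i, ∀ x ∈ A i, x ≤ N := by
    intro i x hx
    rw [hA] at hx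
    exact g2c_nine_le (hwN i) (htN i) (z1 i) hx
  simp only [← hA] at z2 z3 z4
  simp only [← hL] at z4
  simp only [← hD] at z4
  exact g2c_main w t H E U A L D F1 F h01 hFF1 hwF q1 q2 q3 q4 q5 q6 q7 q8 q9 q10 hUF hUN hAN
    (fun i => (disjoint_union_right.1 (z2 i)).1) (fun i => (disjoint_union_right.1 (z2 i)).2) z3 z4

end SSB
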