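import Pool.Agent.Lib.MP_8a819d_co.BD.Af

/-!
# MP_8a819d_co: the absorber, 5. The junk system

`Sys`: units `DG` and labels `Z1 σ` (one set for every class `σ < s`, `s = 2` for `t = 1`, `s = 1` for `t = 2`) such that
every label `u > ζ N` can be combined with `t` labels of `Z1 (class of u)` to a block of many units of `DG`.

JOB Sy1: `sys1`. JOB Sy2: `sys2`. JOB Dfl: `dflt1`, `dflt2`, `tiny`.

Construction. `ζ = min ε (1/100) / 10`, `I = {x : 3N < 10x, 10x ≤ 3N + 10 ζ N}` (about `ζ N` integers), `h = ⌈100/ζ⌉`,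
`β = ζ / (1000 h)`, `N` large.
`t = 1`: `DG = {(c, c) : c = 2 h i, 3N/10 + ζN < c ≤ N, c ∉ R}`; `Z1 σ` (`σ = 0, 1`) a subset with exactly
`z1 = ⌊ζ N / 2 - 2 β N⌋` elements of the labels of parity `σ` in `I \ R` (there are at least
`ζN/2 - 2 - βN` of them).
`t = 2`: `DG = {(c, c+1) : c = h i, 3N/10 + ζN < c, c+1 ≤ N, c, c+1 ∉ R}` (`h ≥ 2`), `Z1 0 ⊆ I \ R` with `z1 = ⌊ζN - 2βN⌋`
elements.
`|DG| ≤ N/h + 1`, so `3 |DG| ≤ z1` and `|DG| ≤ ε N`; `|DG| ≥ 0.69 N/(2h) - 2 - |R| ≥ 10 β N + 10`.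
Junk property. Let `u > ζ N`. If `20 u ≤ 13 N` take `c` with `z = c - u ∈ I` (then `c > 3N/10 + ζN`, `c ≤ 0.95 N + ζN`);
otherwise take `c` with `z = u - c ∈ I` (then `c ≥ 0.65N - 0.3N - ζN > 0.3N + ζN`, `c ≤ 0.7 N`). The number of multiples `c` of
`2h` (resp. `h`) in this interval of length `ζ N` is at least `ζN/(2h) - 2 ≥ 400 β N` (large `N`). Bad `c`: `c ∈ R` (or `c + 1 ∈ R`):
at most `2 β N`; `z ∉ Z1 (class of u)` (the class of `z` is that of `u` as `c` is even for `t = 1`): at most the number of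
elements of `I` of this class not in `Z1`, at most `4 β N + 4`; for `t = 2` also `z' = z ± 1 ∉ Z1`: again `4 β N + 4` (and one more
at the end of `I`); `(c, c) ∈ FD`, `z ∈ FZ` (`z' ∈ FZ`): at most `|FD| + 2 |FZ| ≤ 16 β N`; `z = u` or `z' = u`: at most `2`.
Total less than `400 β N`. The block: `a = u`: `{u, |u - c|} = {u, z}`; `t = 2`: `{u, |u-c|, |u-c-1|}`.

`dflt1`: `c` even, `N` large, `σ ∈ {0,1}`, `F` with at most `N/100` elements, `c ≥ 3N/10`: the numbers `b < c/2` of parity `σ` with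
`b`, `c - b ∉ F`: block `{b, c - b}` (`a = b`: `|b - c| = c - b`), both of parity `σ`. `dflt2`: `(c, c+1)`, `c ≥ 3N/10`: `a < c/2`,
`{a, c - a, c + 1 - a}` not meeting `F`.
`tiny`: for every `u ∈ [1, N]` and `F` (`|F| ≤ N/1000`) there are a unit `d` and a set `s` of `t` labels with `IsBlock t d (insert u s)`,
`d.1, d.2`, `s` in `[1, N]`, not in `F`, disjoint from each other and from `{u}`. `t = 1`: `s = {b}`, `d = (c, c)` with `c = |b - u|` (`a` the
larger one of `u`, `b`): `b` must avoid `F`, `|b - u|` must avoid `F` (two `b` for each), `b ≠ u`, `b ≠ |b - u|` (`u = 2b`),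
`|b - u| ≠ u` (`b = 2u`). `t = 2`: `s = {a, b}`, `a` the largest of the three numbers (or: choose `a ≠ u` with `|a - u| ∉ F ∪ {u, a}`,
then `b` with `|a - b|` ok), `d = (|a - u|, |a - b|)`; if `u < a` then `|a - (a - u)| = u`. So choose `a > u` if `u ≤ N/2`; if
`u > N/2` use the block `{u, u - c, u - c'}` with `a = u`, `d = (c, c')`, `s = {u - c, u - c'}`, `c < c' < N/2`.
-/

set_option autoImplicit false

namespace SSB

open Finset

structure Sys (t s N : ℕ) (R : Finset ℕ) (DG : Finset (ℕ × ℕ)) (Z1 : ℕ → Finset ℕ) (z1 : ℕ)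
    (ζ β ε : ℝ) : Prop where
  DG_sub : labs DG ⊆ Icc 1 N
  DG_ok : UnitOK t DG
  DG_R : Disjoint (labs DG) R
  DG_big : ∀ d ∈ DG, 3 * N ≤ 10 * d.1 ∧ (t = 1 → d.2 = d.1 ∧ d.1 % 2 = 0) ∧ (t = 2 → d.2 = d.1 + 1)
  Z1_sub : ∀ σ < s, Z1 σ ⊆ Icc 1 N
  Z1_cls : ∀ σ < s, ∀ x ∈ Z1 σ, cls t x = σ
  Z1_card : ∀ σ < s, (Z1 σ).card = z1
  Z1_R : ∀ σ < s, Disjoint (Z1 σ) R
  Z1_DG : ∀ σ < s, Disjoint (Z1 σ) (labs DG)
  Z1_big : ∀ σ < s, ∀ x ∈ Z1 σ, ζ * N < x
  DG_lab : ∀ x ∈ labs DG, ζ * N < x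
  DG_le : (DG.card : ℝ) ≤ ε * N
  z1_le : (z1 : ℝ) ≤ ε * N
  z1_pos : 1 ≤ z1
  DG_z1 : 3 * DG.card ≤ z1
  DG_ge : 10 * β * N + 10 ≤ DG.card
  junk : ∀ u ∈ Icc 1 N, ζ * N < u → ∀ (FD : Finset (ℕ × ℕ)) (FZ : Finset ℕ), FD ⊆ DG →
    (FD.card : ℝ) + FZ.card ≤ 8 * β * N →
    ∃ d ∈ DG \ FD, ∃ z ⊆ Z1 (cls t u) \ FZ, z.card = t ∧ u ∉ z ∧ IsBlock t d (insert u z)

private theorem sy1_mult {m : ℕ} (hm : 0 < m) (x y : ℕ) :
    ((Ioc x y).filter (fun c => m ∣ c)).card = y / m - x / m := by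
  have h1 : (Ioc x y).filter (fun c => m ∣ c) = (Ioc (x / m) (y / m)).image (fun i => m * i) := by
    ext c
    simp only [mem_filter, mem_Ioc, mem_image]
    constructor
    · rintro ⟨⟨h1, h2⟩, i, rfl⟩
      refine ⟨i, ⟨?_, ?_⟩, rfl⟩
      · rw [Nat.div_lt_iff_lt_mul hm, mul_comm]
        exact h1
      · rw [Nat.le_div_iff_mul_le hm, mul_comm]
        exact h2
    · rintro ⟨i, ⟨h1, h2⟩, rfl⟩
      rw [Nat.div_lt_iff_lt_mul hm, mul_comm] at h1
      rw [Nat.le_div_iff_mul_le hm, mul_comm] at h2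
      exact ⟨⟨h1, h2⟩, dvd_mul_right _ _⟩
  rw [h1, Finset.card_image_of_injective _ (fun a b h => Nat.eq_of_mul_eq_mul_left hm h),
    Nat.card_Ioc]

private theorem sy1_par (a w σ : ℕ) (hσ : σ < 2) :
    ((Ioc a (a + w)).filter (fun x => x % 2 = σ)).card = (a + w + σ) / 2 - (a + σ) / 2 := by
  induction w with
  | zero => simp
  | succ w ih =>
    have h1 : Ioc a (a + (w + 1)) = insert (a + (w + 1)) (Ioc a (a + w)) := by
      ext x
      simp only [mem_Ioc, mem_insert]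
      omega
    rw [h1, filter_insert]
    split_ifs with h
    · rw [card_insert_of_notMem (by simp), ih]
      omega
    · rw [ih]
      omega

private theorem sy1_pick {C R T FZ : Finset ℕ} {FD : Finset (ℕ × ℕ)} {zf : ℕ → ℕ} {u : ℕ}
    (hinj : Set.InjOn zf C)
    (hcard : R.card + T.card + FD.card + FZ.card + 1 < C.card) :
    ∃ c ∈ C, c ∉ R ∧ zf c ∉ T ∧ (c, c) ∉ FD ∧ zf c ∉ FZ ∧ zf c ≠ u := by
  by_contra hcon
  have hsub : C ⊆ R ∪ (C.filter (fun c => zf c ∈ T)) ∪ (C.filter (fun c => (c, c) ∈ FD)) ∪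
      (C.filter (fun c => zf c ∈ FZ)) ∪ (C.filter (fun c => zf c ∈ ({u} : Finset ℕ))) := by
    intro c hc
    by_contra h
    simp only [mem_union, mem_filter, mem_singleton, not_or, not_and] at h
    obtain ⟨⟨⟨⟨h1, h2⟩, h3⟩, h4⟩, h5⟩ := h
    exact hcon ⟨c, hc, h1, h2 hc, h3 hc, h4 hc, h5 hc⟩
  have hT : ∀ T' : Finset ℕ, (C.filter (fun c => zf c ∈ T')).card ≤ T'.card := by
    intro T'
    refine Finset.card_le_card_of_injOn zf (fun c hc => (mem_filter.1 hc).2) ?_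
    intro a ha b hb hab
    exact hinj (mem_filter.1 ha).1 (mem_filter.1 hb).1 hab
  have hD : (C.filter (fun c => (c, c) ∈ FD)).card ≤ FD.card := by
    refine Finset.card_le_card_of_injOn (fun c => (c, c)) (fun c hc => (mem_filter.1 hc).2) ?_
    intro a _ b _ hab
    exact (Prod.mk.inj hab).1
  have h1 := Finset.card_le_card hsub
  have h2 := Finset.card_union_le (R ∪ (C.filter (fun c => zf c ∈ T)) ∪
    (C.filter (fun c => (c, c) ∈ FD)) ∪ (C.filter (fun c => zf c ∈ FZ)))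
    (C.filter (fun c => zf c ∈ ({u} : Finset ℕ)))
  have h3 := Finset.card_union_le (R ∪ (C.filter (fun c => zf c ∈ T)) ∪
    (C.filter (fun c => (c, c) ∈ FD))) (C.filter (fun c => zf c ∈ FZ))
  have h4 := Finset.card_union_le (R ∪ (C.filter (fun c => zf c ∈ T)))
    (C.filter (fun c => (c, c) ∈ FD))
  have h5 := Finset.card_union_le R (C.filter (fun c => zf c ∈ T))
  have h6 := hT T
  have h7 := hT FZ
  have h8 := hT {u}
  rw [card_singleton] at h8
  omega

/-- numerical facts -/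
private theorem sy1_num {k N : ℕ} (hk : 100 ≤ k) (hN : 10 ^ 5 * k ^ 2 ≤ N) :
    ∃ X Y : ℝ, 1000 ≤ X ∧ 10000 * X ≤ Y ∧ 100 * Y ≤ N ∧ Y = 1 / (k : ℝ) * N ∧
      1 / (10 ^ 5 * (k : ℝ) ^ 2) * N = X / 1000 ∧
      ((N / (10 ^ 5 * k ^ 2) : ℕ) : ℝ) ≤ X / 1000 ∧
      Y - 1 < ((N / k : ℕ) : ℝ) ∧ ((N / k : ℕ) : ℝ) ≤ Y ∧
      X / 2 - 2 < ((N / k / (200 * k) : ℕ) : ℝ) ∧
      ((N / (200 * k) : ℕ) : ℝ) ≤ Y / 200 ∧ Y / 200 - 1 < ((N / (200 * k) : ℕ) : ℝ) ∧
      (((3 * N / 10 + N / k) / (200 * k) : ℕ) : ℝ) ≤ 31 / 100 * Y / 200 := by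
  have hk0 : (0 : ℝ) < k := by
    have : 0 < k := by omega
    exact_mod_cast this
  have hk1 : (100 : ℝ) ≤ k := by exact_mod_cast hk
  have hN1 : (10 : ℝ) ^ 5 * (k : ℝ) ^ 2 ≤ N := by exact_mod_cast hN
  have hN0 : (0 : ℝ) ≤ N := Nat.cast_nonneg N
  have hY1 : ((N / k : ℕ) : ℝ) ≤ 1 / (k : ℝ) * N := by
    have := Nat.cast_div_le (m := N) (n := k) (α := ℝ)
    rw [one_div, inv_mul_eq_div]
    exact this
  have hY2 : 1 / (k : ℝ) * N - 1 < ((N / k : ℕ) : ℝ) := by
    have h1 : N < k * (N / k + 1) := Nat.lt_mul_div_succ N (by omega)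
    have h2 : (N : ℝ) < k * (((N / k : ℕ) : ℝ) + 1) := by exact_mod_cast h1
    have h3 : 1 / (k : ℝ) * N < ((N / k : ℕ) : ℝ) + 1 := by
      rw [one_div, inv_mul_lt_iff₀ hk0]
      exact h2
    linarith
  have hXY : (N : ℝ) / (100 * (k : ℝ) ^ 2) = (1 / (k : ℝ) * N) / (100 * k) := by
    field_simp
  refine ⟨N / (100 * (k : ℝ) ^ 2), 1 / (k : ℝ) * N, ?_, ?_, ?_, rfl, ?_, ?_, hY2, hY1, ?_, ?_, ?_,
    ?_⟩
  · rw [le_div_iff₀ (by positivity)]
    linarith
  · rw [hXY, mul_div_assoc', div_le_iff₀ (by positivity)]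
    have h1 : 0 ≤ 1 / (k : ℝ) * N := by positivity
    nlinarith
  · rw [one_div, ← mul_assoc, mul_comm (100 : ℝ), mul_assoc, inv_mul_le_iff₀ hk0]
    nlinarith
  · field_simp
    ring
  · have := Nat.cast_div_le (m := N) (n := 10 ^ 5 * k ^ 2) (α := ℝ)
    refine this.trans (le_of_eq ?_)
    push_cast
    field_simp
    ring
  · have h1 : N / k < (200 * k) * (N / k / (200 * k) + 1) := Nat.lt_mul_div_succ _ (by omega)
    have h2 : ((N / k : ℕ) : ℝ) < (200 * k) * (((N / k / (200 * k) : ℕ) : ℝ) + 1) := by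
      exact_mod_cast h1
    have h3 : (1 / (k : ℝ) * N - 1) / (200 * k) < ((N / k / (200 * k) : ℕ) : ℝ) + 1 := by
      rw [div_lt_iff₀ (by positivity)]
      linarith
    have h4 : (1 / (k : ℝ) * N - 1) / (200 * k) =
        N / (100 * (k : ℝ) ^ 2) / 2 - 1 / (200 * k) := by
      field_simp
      ring
    have h5 : 1 / (200 * (k : ℝ)) ≤ 1 := by
      rw [div_le_one (by positivity)]
      linarith
    linarith
  · have := Nat.cast_div_le (m := N) (n := 200 * k) (α := ℝ)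
    refine this.trans (le_of_eq ?_)
    push_cast
    field_simp
  · have h1 : N < (200 * k) * (N / (200 * k) + 1) := Nat.lt_mul_div_succ _ (by omega)
    have h2 : (N : ℝ) < (200 * k) * (((N / (200 * k) : ℕ) : ℝ) + 1) := by exact_mod_cast h1
    have h3 : (N : ℝ) / (200 * k) < ((N / (200 * k) : ℕ) : ℝ) + 1 := by
      rw [div_lt_iff₀ (by positivity)]
      linarith
    have h4 : (N : ℝ) / (200 * k) = 1 / (k : ℝ) * N / 200 := by field_simp
    linarith
  · have h1 := Nat.cast_div_le (m := 3 * N / 10 + N / k) (n := 200 * k) (α := ℝ)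
    refine h1.trans ?_
    have h2 : ((3 * N / 10 + N / k : ℕ) : ℝ) ≤ 31 / 100 * N := by
      have h3 : ((3 * N / 10 : ℕ) : ℝ) ≤ 3 * N / 10 := by
        have := Nat.cast_div_le (m := 3 * N) (n := 10) (α := ℝ)
        push_cast at this
        exact this
      have h4 : 1 / (k : ℝ) * N ≤ 1 / 100 * N := by
        refine mul_le_mul_of_nonneg_right ?_ hN0
        exact one_div_le_one_div_of_le (by norm_num) hk1
      push_cast
      linarith
    have h3 : 31 / 100 * (1 / (k : ℝ) * N) / 200 = 31 / 100 * N / (200 * k) := by field_simp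
    rw [h3]
    push_cast
    push_cast at h2
    exact div_le_div_of_nonneg_right h2 (by positivity)
private theorem sy2_mult (h b L : ℕ) (hh : 0 < h) :
    L / h ≤ ((Ico b (b + L)).filter (fun c => h ∣ c)).card := by
  have hk : b ≤ h * ((b + h - 1) / h) ∧ h * ((b + h - 1) / h) < b + h := by
    have h1 := Nat.div_add_mod (b + h - 1) h
    have h2 := Nat.mod_lt (b + h - 1) hh
    constructor <;> omega
  obtain ⟨k, hk0⟩ : ∃ k, k = (b + h - 1) / h := ⟨_, rfl⟩
  rw [← hk0] at hk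
  have h3 : (range (L / h)).card ≤ ((Ico b (b + L)).filter (fun c => h ∣ c)).card := by
    apply Finset.card_le_card_of_injOn (fun i => h * (k + i))
    · intro i hi
      have hi' : i + 1 ≤ L / h := by
        have := Finset.mem_range.1 (Finset.mem_coe.1 hi)
        omega
      have h4 : h * (i + 1) ≤ L := by
        calc h * (i + 1) ≤ h * (L / h) := Nat.mul_le_mul_left h hi'
          _ ≤ L := Nat.mul_div_le L h
      simp only [Finset.coe_filter, Finset.mem_Ico, Set.mem_ofPred_eq]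
      refine ⟨⟨?_, ?_⟩, Dvd.intro _ rfl⟩
      · nlinarith [hk.1, Nat.zero_le (h * i)]
      · nlinarith [hk.2]
    · intro i _ j _ hij
      have h5 : h * (k + i) = h * (k + j) := hij
      have h6 := Nat.eq_of_mul_eq_mul_left hh h5
      omega
  simpa using h3

private theorem sy2_junk {N h L r a b u : ℕ} (hh : 2 ≤ h) (hL : h * (20 * r + 20) ≤ L)
    (ha : 1 ≤ a) (hu : 1 ≤ u) (R Z FZ : Finset ℕ) (DG FD : Finset (ℕ × ℕ))
    (hR : R.card ≤ r) (hZ : ((Ico a (a + L)) \ Z).card ≤ r)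
    (hF : FD.card + FZ.card ≤ 8 * r + 8)
    (hDG : ∀ c, h ∣ c → a + L ≤ c → c < N → c ∉ R → c + 1 ∉ R → (c, c + 1) ∈ DG)
    (hb1 : a + L ≤ b) (hb2 : b + L ≤ N)
    (h1 : ∀ c, b ≤ c → c < b + L → dd u c ∈ Ico a (a + L))
    (h2 : ∀ c, b ≤ c → c + 1 < b + L → dd u (c + 1) ∈ Ico a (a + L))
    (h3 : ∀ c c', b ≤ c → c < b + L → b ≤ c' → c' < b + L → dd u c = dd u c' → c = c')
    (h4 : ∀ c c', b ≤ c → c < b + L → b ≤ c' → c' < b + L →
      dd u (c + 1) = dd u (c' + 1) → c = c') :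
    ∃ d ∈ DG \ FD, ∃ z ⊆ Z \ FZ, z.card = 2 ∧ u ∉ z ∧ IsBlock 2 d (insert u z) := by
  have hX := sy2_mult h b L (by omega)
  have hX2 : 20 * r + 20 ≤ L / h := by
    rw [Nat.le_div_iff_mul_le (by omega)]
    calc (20 * r + 20) * h = h * (20 * r + 20) := mul_comm _ _
      _ ≤ L := hL
  obtain ⟨J, hJ⟩ : ∃ J, J = Ico b (b + L) := ⟨_, rfl⟩
  obtain ⟨I, hI⟩ : ∃ I, I = Ico a (a + L) := ⟨_, rfl⟩
  rw [← hJ] at hX
  rw [← hI] at hZ h1 h2
  have memJ : ∀ c, c ∈ J ↔ b ≤ c ∧ c < b + L := by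
    intro c; rw [hJ, Finset.mem_Ico]
  have k1 : (R.image (fun x => x - 1)).card ≤ r := Finset.card_image_le.trans hR
  have k2 : (FD.image Prod.fst).card ≤ FD.card := Finset.card_image_le
  have k3 : ({b + L - 1, 2 * u, 2 * u - 1} : Finset ℕ).card ≤ 3 := Finset.card_le_three
  have i1 : ∀ p : ℕ → Prop, ∀ _ : DecidablePred p, Set.InjOn (fun c => dd u c)
      ((J.filter p : Finset ℕ) : Set ℕ) := by
    intro p _ c hc c' hc' he
    have hc1 := (memJ c).1 (Finset.mem_filter.1 (Finset.mem_coe.1 hc)).1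
    have hc2 := (memJ c').1 (Finset.mem_filter.1 (Finset.mem_coe.1 hc')).1
    exact h3 c c' hc1.1 hc1.2 hc2.1 hc2.2 he
  have i2 : ∀ p : ℕ → Prop, ∀ _ : DecidablePred p, Set.InjOn (fun c => dd u (c + 1))
      ((J.filter p : Finset ℕ) : Set ℕ) := by
    intro p _ c hc c' hc' he
    have hc1 := (memJ c).1 (Finset.mem_filter.1 (Finset.mem_coe.1 hc)).1
    have hc2 := (memJ c').1 (Finset.mem_filter.1 (Finset.mem_coe.1 hc')).1
    exact h4 c c' hc1.1 hc1.2 hc2.1 hc2.2 he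
  have k4 : (J.filter (fun c => dd u c ∈ I \ Z)).card ≤ r :=
    (Finset.card_le_card_of_injOn (fun c => dd u c)
      (fun c hc => (Finset.mem_filter.1 (Finset.mem_coe.1 hc)).2) (i1 _ _)).trans hZ
  have k5 : (J.filter (fun c => dd u (c + 1) ∈ I \ Z)).card ≤ r :=
    (Finset.card_le_card_of_injOn (fun c => dd u (c + 1))
      (fun c hc => (Finset.mem_filter.1 (Finset.mem_coe.1 hc)).2) (i2 _ _)).trans hZ
  have k6 : (J.filter (fun c => dd u c ∈ FZ)).card ≤ FZ.card :=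
    Finset.card_le_card_of_injOn (fun c => dd u c)
      (fun c hc => (Finset.mem_filter.1 (Finset.mem_coe.1 hc)).2) (i1 _ _)
  have k7 : (J.filter (fun c => dd u (c + 1) ∈ FZ)).card ≤ FZ.card :=
    Finset.card_le_card_of_injOn (fun c => dd u (c + 1))
      (fun c hc => (Finset.mem_filter.1 (Finset.mem_coe.1 hc)).2) (i2 _ _)
  obtain ⟨B, hB⟩ : ∃ B : Finset ℕ, B = R ∪ (R.image (fun x => x - 1) ∪ (FD.image Prod.fst ∪
    ({b + L - 1, 2 * u, 2 * u - 1} ∪ (J.filter (fun c => dd u c ∈ I \ Z) ∪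
    (J.filter (fun c => dd u (c + 1) ∈ I \ Z) ∪ (J.filter (fun c => dd u c ∈ FZ) ∪
    J.filter (fun c => dd u (c + 1) ∈ FZ))))))) := ⟨_, rfl⟩
  have hBc : B.card < (J.filter (fun c => h ∣ c)).card := by
    have e1 := Finset.card_union_le (J.filter (fun c => dd u c ∈ FZ))
      (J.filter (fun c => dd u (c + 1) ∈ FZ))
    have e2 := Finset.card_union_le (J.filter (fun c => dd u (c + 1) ∈ I \ Z))
      (J.filter (fun c => dd u c ∈ FZ) ∪ J.filter (fun c => dd u (c + 1) ∈ FZ))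
    have e3 := Finset.card_union_le (J.filter (fun c => dd u c ∈ I \ Z))
      (J.filter (fun c => dd u (c + 1) ∈ I \ Z) ∪ (J.filter (fun c => dd u c ∈ FZ) ∪
        J.filter (fun c => dd u (c + 1) ∈ FZ)))
    have e4 := Finset.card_union_le ({b + L - 1, 2 * u, 2 * u - 1} : Finset ℕ)
      (J.filter (fun c => dd u c ∈ I \ Z) ∪
      (J.filter (fun c => dd u (c + 1) ∈ I \ Z) ∪ (J.filter (fun c => dd u c ∈ FZ) ∪
        J.filter (fun c => dd u (c + 1) ∈ FZ))))
    have e5 := Finset.card_union_le (FD.image Prod.fst)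
      ({b + L - 1, 2 * u, 2 * u - 1} ∪ (J.filter (fun c => dd u c ∈ I \ Z) ∪
      (J.filter (fun c => dd u (c + 1) ∈ I \ Z) ∪ (J.filter (fun c => dd u c ∈ FZ) ∪
        J.filter (fun c => dd u (c + 1) ∈ FZ)))))
    have e6 := Finset.card_union_le (R.image (fun x => x - 1)) (FD.image Prod.fst ∪
      ({b + L - 1, 2 * u, 2 * u - 1} ∪ (J.filter (fun c => dd u c ∈ I \ Z) ∪
      (J.filter (fun c => dd u (c + 1) ∈ I \ Z) ∪ (J.filter (fun c => dd u c ∈ FZ) ∪
        J.filter (fun c => dd u (c + 1) ∈ FZ))))))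
    have e7 := Finset.card_union_le R (R.image (fun x => x - 1) ∪ (FD.image Prod.fst ∪
      ({b + L - 1, 2 * u, 2 * u - 1} ∪ (J.filter (fun c => dd u c ∈ I \ Z) ∪
      (J.filter (fun c => dd u (c + 1) ∈ I \ Z) ∪ (J.filter (fun c => dd u c ∈ FZ) ∪
        J.filter (fun c => dd u (c + 1) ∈ FZ)))))))
    rw [← hB] at e7
    omega
  obtain ⟨c, hcX, hcB⟩ := Finset.exists_mem_notMem_of_card_lt_card hBc
  rw [Finset.mem_filter] at hcX
  obtain ⟨hcJ, hcd⟩ := hcX
  have hcJ' := (memJ c).1 hcJ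
  rw [hB] at hcB
  simp only [Finset.mem_union, not_or] at hcB
  obtain ⟨b1, b2, b3, b4, b5, b6, b7, b8⟩ := hcB
  simp only [Finset.mem_insert, Finset.mem_singleton, not_or] at b4
  obtain ⟨b41, b42, b43⟩ := b4
  have hc1R : c + 1 ∉ R := by
    intro hm
    exact b2 (Finset.mem_image.2 ⟨c + 1, hm, by omega⟩)
  have hm1 : dd u c ∈ I := h1 c hcJ'.1 hcJ'.2
  have hm2 : dd u (c + 1) ∈ I := h2 c hcJ'.1 (by omega)
  have hz1 : dd u c ∈ Z := by
    by_contra hn
    exact b5 (Finset.mem_filter.2 ⟨hcJ, Finset.mem_sdiff.2 ⟨hm1, hn⟩⟩)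
  have hz2 : dd u (c + 1) ∈ Z := by
    by_contra hn
    exact b6 (Finset.mem_filter.2 ⟨hcJ, Finset.mem_sdiff.2 ⟨hm2, hn⟩⟩)
  have hf1 : dd u c ∉ FZ := fun hn => b7 (Finset.mem_filter.2 ⟨hcJ, hn⟩)
  have hf2 : dd u (c + 1) ∉ FZ := fun hn => b8 (Finset.mem_filter.2 ⟨hcJ, hn⟩)
  have hcN : c < N := by omega
  have hcDG : (c, c + 1) ∈ DG := hDG c hcd (by omega) hcN b1 hc1R
  have hcFD : (c, c + 1) ∉ FD := fun hn => b3 (Finset.mem_image.2 ⟨(c, c + 1), hn, rfl⟩)
  have hm1' : 1 ≤ dd u c := by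
    rw [hI, Finset.mem_Ico] at hm1; omega
  have hm2' : 1 ≤ dd u (c + 1) := by
    rw [hI, Finset.mem_Ico] at hm2; omega
  have hne : dd u c ≠ dd u (c + 1) := by unfold dd; omega
  have hu1 : u ≠ dd u c := by unfold dd; omega
  have hu2 : u ≠ dd u (c + 1) := by unfold dd; omega
  refine ⟨(c, c + 1), Finset.mem_sdiff.2 ⟨hcDG, hcFD⟩, {dd u c, dd u (c + 1)}, ?_, ?_, ?_, ?_⟩
  · intro x hx
    simp only [Finset.mem_insert, Finset.mem_singleton] at hx
    rcases hx with rfl | rfl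
    · exact Finset.mem_sdiff.2 ⟨hz1, hf1⟩
    · exact Finset.mem_sdiff.2 ⟨hz2, hf2⟩
  · exact Finset.card_pair hne
  · simp only [Finset.mem_insert, Finset.mem_singleton, not_or]
    exact ⟨hu1, hu2⟩
  · refine ⟨u, rfl, ?_, ?_⟩
    · simp only [Finset.mem_insert, Finset.mem_singleton, not_or]
      omega
    · rw [Finset.card_insert_of_notMem (by
        simp only [Finset.mem_insert, Finset.mem_singleton, not_or]
        exact ⟨hu1, hu2⟩), Finset.card_pair hne]

private theorem sy2_sys {N h L r a : ℕ} {ζ β ε : ℝ} (hN : 40 * L + 60 ≤ N)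
    (hh : 2 ≤ h) (hL : h * (20 * r + 20) ≤ L) (hLr : 3 * (N / h) + r + 1 ≤ L)
    (ha : a = 3 * N / 10 + 1) (hL1 : (L : ℝ) ≤ ζ * N) (hL2 : ζ * N < L + 1)
    (hr : β * N < r + 1) (hζε : ζ ≤ ε) (R : Finset ℕ) (hR : R.card ≤ r) :
    ∃ (DG : Finset (ℕ × ℕ)) (Z1 : ℕ → Finset ℕ) (z1 : ℕ), Sys 2 1 N R DG Z1 z1 ζ β ε := by
  obtain ⟨I, hI⟩ : ∃ I, I = Ico a (a + L) := ⟨_, rfl⟩
  have hIc : I.card = L := by rw [hI]; simp
  have hIR : L - r ≤ (I \ R).card := by
    have := Finset.le_card_sdiff R I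
    omega
  obtain ⟨Z, hZ1, hZ2⟩ := Finset.exists_subset_card_eq hIR
  have hZI : Z ⊆ I := fun x hx => (Finset.mem_sdiff.1 (hZ1 hx)).1
  have hZR : Disjoint Z R := by
    rw [Finset.disjoint_left]
    intro x hx
    exact (Finset.mem_sdiff.1 (hZ1 hx)).2
  have hIZ : (I \ Z).card ≤ r := by
    rw [Finset.card_sdiff_of_subset hZI]
    omega
  obtain ⟨Cs, hCs⟩ : ∃ Cs, Cs = (Ico (a + L) N).filter (fun c => h ∣ c ∧ c ∉ R ∧ c + 1 ∉ R) :=
    ⟨_, rfl⟩
  have memCs : ∀ c, c ∈ Cs ↔ (a + L ≤ c ∧ c < N) ∧ h ∣ c ∧ c ∉ R ∧ c + 1 ∉ R := by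
    intro c; rw [hCs, Finset.mem_filter, Finset.mem_Ico]
  obtain ⟨DG, hDG⟩ : ∃ DG : Finset (ℕ × ℕ), DG = Cs.image (fun c => (c, c + 1)) := ⟨_, rfl⟩
  have memDG : ∀ d : ℕ × ℕ, d ∈ DG ↔ d.1 ∈ Cs ∧ d.2 = d.1 + 1 := by
    intro d
    rw [hDG, Finset.mem_image]
    constructor
    · rintro ⟨c, hc, rfl⟩
      exact ⟨hc, rfl⟩
    · rintro ⟨h1, h2⟩
      exact ⟨d.1, h1, Prod.ext rfl h2.symm⟩
  have hDGc : DG.card = Cs.card := by
    rw [hDG]
    apply Finset.card_image_of_injective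
    intro x y hxy
    exact congrArg Prod.fst hxy
  have hCs_le : Cs.card ≤ N / h := by
    have h1 : Cs ⊆ (Ioc 0 N).filter (fun c => h ∣ c) := by
      intro c hc
      rw [memCs] at hc
      rw [Finset.mem_filter, Finset.mem_Ioc]
      exact ⟨⟨by omega, by omega⟩, hc.2.1⟩
    calc Cs.card ≤ ((Ioc 0 N).filter (fun c => h ∣ c)).card := Finset.card_le_card h1
      _ = N / h := Nat.Ioc_filter_dvd_card_eq_div N h
  have hCs_ge : 10 * r + 20 ≤ Cs.card := by
    have h1 := sy2_mult h (a + L) L (by omega)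
    have h2 : 20 * r + 20 ≤ L / h := by
      rw [Nat.le_div_iff_mul_le (by omega)]
      calc (20 * r + 20) * h = h * (20 * r + 20) := mul_comm _ _
        _ ≤ L := hL
    have h3 : (Ico (a + L) (a + L + L)).filter (fun c => h ∣ c) ⊆
        Cs ∪ (R ∪ R.image (fun x => x - 1)) := by
      intro c hc
      rw [Finset.mem_filter, Finset.mem_Ico] at hc
      rw [Finset.mem_union, Finset.mem_union]
      by_cases hc1 : c ∈ R
      · exact Or.inr (Or.inl hc1)
      by_cases hc2 : c + 1 ∈ R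
      · exact Or.inr (Or.inr (Finset.mem_image.2 ⟨c + 1, hc2, by omega⟩))
      · refine Or.inl ((memCs c).2 ⟨⟨hc.1.1, ?_⟩, hc.2, hc1, hc2⟩)
        omega
    have h4 := Finset.card_le_card h3
    have h5 := Finset.card_union_le Cs (R ∪ R.image (fun x => x - 1))
    have h6 := Finset.card_union_le R (R.image (fun x => x - 1))
    have h7 : (R.image (fun x => x - 1)).card ≤ R.card := Finset.card_image_le
    omega
  have memlabs : ∀ x, x ∈ labs DG ↔ x ∈ Cs ∨ ∃ c ∈ Cs, x = c + 1 := by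
    intro x
    rw [mem_labs]
    constructor
    · rintro ⟨d, hd, rfl | rfl⟩
      · exact Or.inl ((memDG d).1 hd).1
      · exact Or.inr ⟨d.1, ((memDG d).1 hd).1, ((memDG d).1 hd).2⟩
    · rintro (hx | ⟨c, hc, rfl⟩)
      · exact ⟨(x, x + 1), (memDG _).2 ⟨hx, rfl⟩, Or.inl rfl⟩
      · exact ⟨(c, c + 1), (memDG _).2 ⟨hc, rfl⟩, Or.inr rfl⟩
  have hlabs : labs DG = Cs ∪ Cs.image (fun c => c + 1) := by
    ext x
    rw [memlabs, Finset.mem_union, Finset.mem_image]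
    constructor
    · rintro (hx | ⟨c, hc, rfl⟩)
      · exact Or.inl hx
      · exact Or.inr ⟨c, hc, rfl⟩
    · rintro (hx | ⟨c, hc, rfl⟩)
      · exact Or.inl hx
      · exact Or.inr ⟨c, hc, rfl⟩
  have hlabs_ge : ∀ x ∈ labs DG, a + L ≤ x ∧ x ≤ N ∧ x ∉ R := by
    intro x hx
    rw [memlabs] at hx
    rcases hx with hx | ⟨c, hc, rfl⟩
    · rw [memCs] at hx
      exact ⟨hx.1.1, by omega, hx.2.2.1⟩
    · rw [memCs] at hc
      exact ⟨by omega, by omega, hc.2.2.2⟩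
  have hNr : (0 : ℝ) ≤ (N : ℝ) := Nat.cast_nonneg N
  have hZmem : ∀ x ∈ Z, a ≤ x ∧ x < a + L := by
    intro x hx
    have := hZI hx
    rwa [hI, Finset.mem_Ico] at this
  have hbig : ∀ x : ℕ, a ≤ x → ζ * N < x := by
    intro x hx
    have h1 : L + 1 ≤ x := by omega
    have h2 : ((L + 1 : ℕ) : ℝ) ≤ (x : ℝ) := by exact_mod_cast h1
    push_cast at h2
    linarith
  refine ⟨DG, fun _ => Z, L - r, ?_⟩
  constructor
  · intro x hx
    have := hlabs_ge x hx
    rw [Finset.mem_Icc]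
    omega
  · refine ⟨fun h => absurd h (by norm_num), ?_⟩
    rw [hlabs, Finset.card_union_of_disjoint, Finset.card_image_of_injective, hDGc]
    · ring
    · intro x y hxy
      have : x + 1 = y + 1 := hxy
      omega
    · rw [Finset.disjoint_left]
      intro x hx hx'
      rw [Finset.mem_image] at hx'
      obtain ⟨c, hc, rfl⟩ := hx'
      rw [memCs] at hx hc
      have h1 : h ∣ 1 := (Nat.dvd_add_right hc.2.1).1 hx.2.1
      have h2 := Nat.le_of_dvd one_pos h1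
      omega
  · rw [Finset.disjoint_left]
    intro x hx
    exact (hlabs_ge x hx).2.2
  · intro d hd
    have h1 := (memDG d).1 hd
    have h2 := (memCs d.1).1 h1.1
    refine ⟨by omega, fun h => absurd h (by norm_num), fun _ => h1.2⟩
  · intro σ _ x hx
    have := hZmem x hx
    rw [Finset.mem_Icc]
    omega
  · intro σ hσ x _
    have : σ = 0 := by omega
    rw [this]
    rfl
  · intro σ _
    exact hZ2
  · intro σ _
    exact hZR
  · intro σ _
    rw [Finset.disjoint_left]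
    intro x hx hx'
    have h1 := hZmem x hx
    have h2 := hlabs_ge x hx'
    omega
  · intro σ _ x hx
    exact hbig x (hZmem x hx).1
  · intro x hx
    exact hbig x (by have := hlabs_ge x hx; omega)
  · have h1 : DG.card ≤ L := by omega
    have h2 : (DG.card : ℝ) ≤ (L : ℝ) := by exact_mod_cast h1
    have h3 : ζ * N ≤ ε * N := by gcongr
    linarith
  · have h1 : L - r ≤ L := Nat.sub_le _ _
    have h2 : ((L - r : ℕ) : ℝ) ≤ (L : ℝ) := by exact_mod_cast h1
    have h3 : ζ * N ≤ ε * N := by gcongr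
    linarith
  · omega
  · omega
  · have h1 : 10 * r + 20 ≤ DG.card := by omega
    have h2 : ((10 * r + 20 : ℕ) : ℝ) ≤ (DG.card : ℝ) := by exact_mod_cast h1
    push_cast at h2
    linarith
  · intro u hu huζ FD FZ _ hF
    rw [Finset.mem_Icc] at hu
    have hF' : FD.card + FZ.card ≤ 8 * r + 8 := by
      have h1 : (FD.card : ℝ) + FZ.card ≤ ((8 * r + 8 : ℕ) : ℝ) := by
        push_cast
        linarith
      exact_mod_cast h1
    have huL : L + 1 ≤ u := by
      have h1 : (L : ℝ) < (u : ℝ) := by linarith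
      have h2 : L < u := by exact_mod_cast h1
      exact h2
    have hDG' : ∀ c, h ∣ c → a + L ≤ c → c < N → c ∉ R → c + 1 ∉ R → (c, c + 1) ∈ DG := by
      intro c h1 h2 h3 h4 h5
      exact (memDG _).2 ⟨(memCs c).2 ⟨⟨h2, h3⟩, h1, h4, h5⟩, rfl⟩
    have hIZ' : (Ico a (a + L) \ Z).card ≤ r := by rw [← hI]; exact hIZ
    show ∃ d ∈ DG \ FD, ∃ z ⊆ Z \ FZ, z.card = 2 ∧ u ∉ z ∧ IsBlock 2 d (insert u z)
    by_cases hcase : 20 * u ≤ 13 * N
    · refine sy2_junk (N := N) (b := u + a) hh hL (by omega) hu.1 R Z FZ DG FD hR hIZ' hF' hDG'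
        (by omega) (by omega) ?_ ?_ ?_ ?_
      · intro c h1 h2
        rw [Finset.mem_Ico]; unfold dd; omega
      · intro c h1 h2
        rw [Finset.mem_Ico]; unfold dd; omega
      · intro c c' h1 h2 h3 h4
        unfold dd; omega
      · intro c c' h1 h2 h3 h4
        unfold dd; omega
    · refine sy2_junk (N := N) (b := u + 1 - a - L) hh hL (by omega) hu.1 R Z FZ DG FD hR hIZ' hF'
        hDG' (by omega) (by omega) ?_ ?_ ?_ ?_
      · intro c h1 h2
        rw [Finset.mem_Ico]; unfold dd; omega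
      · intro c h1 h2
        rw [Finset.mem_Ico]; unfold dd; omega
      · intro c c' h1 h2 h3 h4
        unfold dd; omega
      · intro c c' h1 h2 h3 h4
        unfold dd; omega

theorem sys1 (ε : ℝ) (hε : 0 < ε) : ∃ ζ β : ℝ, 0 < ζ ∧ ζ ≤ ε ∧ 0 < β ∧ β ≤ ζ ∧ ∃ N₀ : ℕ, ∀ N : ℕ, N₀ ≤ N →
    ∀ R : Finset ℕ, (∀ x ∈ R, ζ * N < x ∧ x ≤ N) → (R.card : ℝ) ≤ β * N →
      ∃ (DG : Finset (ℕ × ℕ)) (Z1 : ℕ → Finset ℕ) (z1 : ℕ), Sys 1 2 N R DG Z1 z1 ζ β ε := by
  obtain ⟨k0, hk0⟩ := exists_nat_gt (1 / ε)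
  set k : ℕ := max k0 100 with hkdef
  have hk : 100 ≤ k := le_max_right _ _
  have hkε : 1 / (k : ℝ) ≤ ε := by
    have h1 : (k0 : ℝ) ≤ k := by exact_mod_cast le_max_left k0 100
    have h2 : 1 / ε < k := hk0.trans_le h1
    have h3 : 0 < 1 / ε := by positivity
    rw [div_le_iff₀ (h3.trans h2)]
    rw [div_lt_iff₀ hε] at h2
    linarith
  have hkr : (0 : ℝ) < k := by
    have : 0 < k := by omega
    exact_mod_cast this
  have hk1 : (100 : ℝ) ≤ k := by exact_mod_cast hk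
  refine ⟨1 / k, 1 / (10 ^ 5 * (k : ℝ) ^ 2), by positivity, hkε, by positivity, ?_,
    10 ^ 5 * k ^ 2, ?_⟩
  · refine one_div_le_one_div_of_le hkr ?_
    nlinarith
  intro N hN R hR hRc
  obtain ⟨X, Y, hX, hXY, hYN, hY, hβ, hρ, hw1, hw2, hW, hD1, hD1', hD2⟩ := sy1_num hk hN
  set ρ : ℕ := N / (10 ^ 5 * k ^ 2) with hρdef
  set w : ℕ := N / k with hwdef
  set b : ℕ := 3 * N / 10 with hbdef
  have hN0 : (0 : ℝ) ≤ N := Nat.cast_nonneg N
  -- cardinality of R
  have hRρ : R.card ≤ ρ := by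
    rw [hρdef, Nat.le_div_iff_mul_le (by positivity)]
    have h1 : (R.card : ℝ) * (10 ^ 5 * (k : ℝ) ^ 2) ≤ N := by
      rw [one_div, inv_mul_eq_div, le_div_iff₀ (by positivity)] at hRc
      exact hRc
    exact_mod_cast h1
  have hwN : 100 * w ≤ N := by
    have h1 : (100 : ℝ) * w ≤ N := by linarith
    exact_mod_cast h1
  have hb1 : 10 * b ≤ 3 * N := by omega
  have hb2 : 3 * N < 10 * b + 10 := by omega
  have hkey : 3 * (N / (200 * k)) + ρ ≤ w / 2 := by
    have h1 : ((w : ℕ) : ℝ) ≤ 2 * ((w / 2 : ℕ) : ℝ) + 1 := by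
      have : w ≤ 2 * (w / 2) + 1 := by omega
      exact_mod_cast this
    have h2 : (3 * ((N / (200 * k) : ℕ) : ℝ) + (ρ : ℝ)) ≤ ((w / 2 : ℕ) : ℝ) := by linarith
    exact_mod_cast h2
  -- the sets
  have hZex : ∀ σ : ℕ, ∃ Z : Finset ℕ, σ < 2 →
      (Z ⊆ (Ioc b (b + w)).filter (fun x => x % 2 = σ ∧ x ∉ R) ∧ Z.card = w / 2 - ρ) := by
    intro σ
    by_cases hσ : σ < 2
    · have h1 := sy1_par b w σ hσ
      have h2 : (Ioc b (b + w)).filter (fun x => x % 2 = σ) ⊆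
          (Ioc b (b + w)).filter (fun x => x % 2 = σ ∧ x ∉ R) ∪ R := by
        intro x hx
        rw [mem_filter] at hx
        rw [mem_union, mem_filter]
        by_cases hxR : x ∈ R
        · exact Or.inr hxR
        · exact Or.inl ⟨hx.1, hx.2, hxR⟩
      have h3 := (Finset.card_le_card h2).trans (Finset.card_union_le _ _)
      have h4 : w / 2 - ρ ≤ ((Ioc b (b + w)).filter (fun x => x % 2 = σ ∧ x ∉ R)).card := by
        omega
      obtain ⟨Z, hZ1, hZ2⟩ := Finset.exists_subset_card_eq h4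
      exact ⟨Z, fun _ => ⟨hZ1, hZ2⟩⟩
    · exact ⟨∅, fun h => absurd h hσ⟩
  choose Z1 hZ1 using hZex
  set Dc : Finset ℕ := (Ioc (b + w) N).filter (fun c => 200 * k ∣ c ∧ c ∉ R) with hDc
  have hinjD : Function.Injective (fun c : ℕ => (c, c)) := fun a b h => (Prod.mk.inj h).1
  have hlabs : labs (Dc.image fun c => (c, c)) = Dc := by
    ext x
    rw [mem_labs]
    constructor
    · rintro ⟨d, hd, h⟩
      obtain ⟨c, hc, rfl⟩ := mem_image.1 hd
      rcases h with rfl | rfl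
      · exact hc
      · exact hc
    · intro hx
      exact ⟨(x, x), mem_image.2 ⟨x, hx, rfl⟩, Or.inl rfl⟩
  have hDcard : (Dc.image fun c => (c, c)).card = Dc.card := card_image_of_injective _ hinjD
  have hDc_mem : ∀ c ∈ Dc, b + w < c ∧ c ≤ N ∧ c % 2 = 0 ∧ c ∉ R := by
    intro c hc
    rw [hDc, mem_filter, mem_Ioc] at hc
    obtain ⟨⟨h1, h2⟩, ⟨i, hi⟩, h4⟩ := hc
    refine ⟨h1, h2, ?_, h4⟩
    have : c = 2 * (100 * k * i) := by rw [hi]; ring
    omega
  have hDup : Dc.card ≤ N / (200 * k) := by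
    have h1 : Dc ⊆ (Ioc (b + w) N).filter (fun c => 200 * k ∣ c) := by
      intro c hc
      rw [hDc, mem_filter] at hc
      rw [mem_filter]
      exact ⟨hc.1, hc.2.1⟩
    have h2 := Finset.card_le_card h1
    rw [sy1_mult (by omega)] at h2
    exact h2.trans (Nat.sub_le _ _)
  have hDlow : N / (200 * k) - (b + w) / (200 * k) ≤ Dc.card + R.card := by
    have h1 : (Ioc (b + w) N).filter (fun c => 200 * k ∣ c) ⊆ Dc ∪ R := by
      intro c hc
      rw [mem_filter] at hc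
      rw [mem_union]
      by_cases hcR : c ∈ R
      · exact Or.inr hcR
      · refine Or.inl ?_
        rw [hDc, mem_filter]
        exact ⟨hc.1, hc.2, hcR⟩
    have h2 := (Finset.card_le_card h1).trans (Finset.card_union_le _ _)
    rw [sy1_mult (by omega)] at h2
    exact h2
  have hDlow' : (N / (200 * k) : ℕ) ≤ Dc.card + ρ + (b + w) / (200 * k) := by omega
  have hDlowR : ((N / (200 * k) : ℕ) : ℝ) ≤ Dc.card + ρ + (((b + w) / (200 * k) : ℕ) : ℝ) := by
    exact_mod_cast hDlow'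
  have hz1 : w / 2 - ρ + ρ = w / 2 := by omega
  have hZmem : ∀ σ < 2, ∀ x ∈ Z1 σ, b < x ∧ x ≤ b + w ∧ x % 2 = σ ∧ x ∉ R := by
    intro σ hσ x hx
    have h1 := (hZ1 σ hσ).1 hx
    rw [mem_filter, mem_Ioc] at h1
    exact ⟨h1.1.1, h1.1.2, h1.2.1, h1.2.2⟩
  have hbig : ∀ x : ℕ, b < x → 1 / (k : ℝ) * N < x := by
    intro x hx
    rw [← hY]
    have h1 : (3 * (N : ℝ)) < 10 * x := by
      have : 3 * N < 10 * x := by omega
      exact_mod_cast this
    linarith
  refine ⟨Dc.image fun c => (c, c), Z1, w / 2 - ρ, ?_⟩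
  constructor
  · -- DG_sub
    rw [hlabs]
    intro c hc
    obtain ⟨h1, h2, _, _⟩ := hDc_mem c hc
    rw [mem_Icc]
    omega
  · -- DG_ok
    refine ⟨fun _ d hd => ?_, ?_⟩
    · obtain ⟨c, _, rfl⟩ := mem_image.1 hd
      rfl
    · rw [hlabs, hDcard, one_mul]
  · -- DG_R
    rw [hlabs, Finset.disjoint_left]
    intro c hc
    exact (hDc_mem c hc).2.2.2
  · -- DG_big
    intro d hd
    obtain ⟨c, hc, rfl⟩ := mem_image.1 hd
    obtain ⟨h1, h2, h3, _⟩ := hDc_mem c hc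
    refine ⟨?_, fun _ => ⟨rfl, h3⟩, fun h => ?_⟩
    · show 3 * N ≤ 10 * c
      omega
    · omega
  · -- Z1_sub
    intro σ hσ x hx
    obtain ⟨h1, h2, _, _⟩ := hZmem σ hσ x hx
    rw [mem_Icc]
    omega
  · -- Z1_cls
    intro σ hσ x hx
    have h1 : cls 1 x = x % 2 := if_pos rfl
    rw [h1]
    exact (hZmem σ hσ x hx).2.2.1
  · intro σ hσ
    exact (hZ1 σ hσ).2
  · intro σ hσ
    rw [Finset.disjoint_left]
    intro x hx
    exact (hZmem σ hσ x hx).2.2.2
  · intro σ hσ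
    rw [hlabs, Finset.disjoint_left]
    intro x hx hx'
    have h1 := (hZmem σ hσ x hx).2.1
    have h2 := (hDc_mem x hx').1
    omega
  · intro σ hσ x hx
    exact hbig x (hZmem σ hσ x hx).1
  · rw [hlabs]
    intro x hx
    refine hbig x ?_
    have h2 := (hDc_mem x hx).1
    omega
  · -- DG_le
    rw [hDcard]
    have h1 : (Dc.card : ℝ) ≤ ((N / (200 * k) : ℕ) : ℝ) := by exact_mod_cast hDup
    have h2 : Y ≤ ε * N := by
      rw [hY]
      exact mul_le_mul_of_nonneg_right hkε hN0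
    linarith
  · -- z1_le
    have h1 : ((w / 2 - ρ : ℕ) : ℝ) ≤ w := by
      have : w / 2 - ρ ≤ w := by omega
      exact_mod_cast this
    have h2 : Y ≤ ε * N := by
      rw [hY]
      exact mul_le_mul_of_nonneg_right hkε hN0
    linarith
  · -- z1_pos
    have h1 : (1 : ℝ) + (ρ : ℝ) ≤ ((w / 2 : ℕ) : ℝ) := by
      have h2 : ((w : ℕ) : ℝ) ≤ 2 * ((w / 2 : ℕ) : ℝ) + 1 := by
        have : w ≤ 2 * (w / 2) + 1 := by omega
        exact_mod_cast this
      linarith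
    have h2 : 1 + ρ ≤ w / 2 := by exact_mod_cast h1
    omega
  · -- DG_z1
    rw [hDcard]
    omega
  · -- DG_ge
    rw [hDcard]
    have h1 : 10 * (1 / (10 ^ 5 * (k : ℝ) ^ 2)) * N = X / 100 := by
      have h2 : 10 * (1 / (10 ^ 5 * (k : ℝ) ^ 2)) * N =
          10 * (1 / (10 ^ 5 * (k : ℝ) ^ 2) * N) := by ring
      rw [h2, hβ]
      ring
    rw [h1]
    linarith
  · -- junk
    intro u hu hζu FD FZ hFD hF
    rw [mem_Icc] at hu
    have hcls : cls 1 u = u % 2 := if_pos rfl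
    rw [hcls]
    have hσ : u % 2 < 2 := Nat.mod_lt _ (by norm_num)
    have huw : w < u := by
      have h1 : (w : ℝ) < u := by
        rw [← hY] at hζu
        linarith
      exact_mod_cast h1
    set T : Finset ℕ := (Ioc b (b + w)).filter (fun x => x % 2 = u % 2) \ Z1 (u % 2) with hT
    have hZT : Z1 (u % 2) ⊆ (Ioc b (b + w)).filter (fun x => x % 2 = u % 2) := by
      intro x hx
      obtain ⟨h1, h2, h3, _⟩ := hZmem _ hσ x hx
      rw [mem_filter, mem_Ioc]
      exact ⟨⟨h1, h2⟩, h3⟩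
    have hTc : T.card ≤ ρ + 1 := by
      rw [hT, card_sdiff_of_subset hZT, (hZ1 _ hσ).2, sy1_par b w _ hσ]
      omega
    have hFr : (FD.card : ℝ) + FZ.card ≤ 8 * X / 1000 := by
      have h2 : 8 * (1 / (10 ^ 5 * (k : ℝ) ^ 2)) * N =
          8 * (1 / (10 ^ 5 * (k : ℝ) ^ 2) * N) := by ring
      rw [h2, hβ] at hF
      linarith
    have hcount : ∀ lo : ℕ, R.card + T.card + FD.card + FZ.card + 1 <
        ((Ioc lo (lo + w)).filter (fun c => 200 * k ∣ c)).card := by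
      intro lo
      rw [sy1_mult (by omega)]
      have h1 : lo / (200 * k) + w / (200 * k) ≤ (lo + w) / (200 * k) := Nat.div_add_div_le_add_div
      have h2 : (R.card : ℝ) + T.card + FD.card + FZ.card + 1 < ((w / (200 * k) : ℕ) : ℝ) := by
        have h3 : (R.card : ℝ) ≤ ρ := by exact_mod_cast hRρ
        have h4 : (T.card : ℝ) ≤ ρ + 1 := by exact_mod_cast hTc
        linarith
      have h3 : R.card + T.card + FD.card + FZ.card + 1 < w / (200 * k) := by
        exact_mod_cast h2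
      omega
    -- finishing
    have hfin : ∀ (c z : ℕ), b + w < c → c ≤ N → 200 * k ∣ c → c ∉ R → b < z → z ≤ b + w →
        z % 2 = u % 2 → z ∉ T → (c, c) ∉ FD → z ∉ FZ → z ≠ u → dd u c = z →
        ∃ d ∈ (Dc.image fun c => (c, c)) \ FD, ∃ z ⊆ Z1 (u % 2) \ FZ, z.card = 1 ∧ u ∉ z ∧
          IsBlock 1 d (insert u z) := by
      intro c z h1 h2 h3 h4 h5 h6 h7 h8 h9 h10 h11 h12
      refine ⟨(c, c), mem_sdiff.2 ⟨mem_image.2 ⟨c, ?_, rfl⟩, h9⟩, {z}, ?_, card_singleton z, ?_, ?_⟩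
      · rw [hDc, mem_filter, mem_Ioc]
        exact ⟨⟨h1, h2⟩, h3, h4⟩
      · rw [singleton_subset_iff, mem_sdiff]
        refine ⟨?_, h10⟩
        by_contra hz
        refine h8 ?_
        rw [hT, mem_sdiff, mem_filter, mem_Ioc]
        exact ⟨⟨⟨h5, h6⟩, h7⟩, hz⟩
      · rw [mem_singleton]
        exact h11.symm
      · refine ⟨u, ?_, ?_, ?_⟩
        · show ({u, z} : Finset ℕ) = {u, dd u c, dd u c}
          rw [h12, pair_eq_singleton]
        · rw [mem_insert, mem_singleton]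
          omega
        · rw [card_pair h11.symm]
    by_cases hcase : 20 * u ≤ 13 * N
    · obtain ⟨c, hc, h1, h2, h3, h4, h5⟩ := sy1_pick (C := (Ioc (u + b) (u + b + w)).filter
        (fun c => 200 * k ∣ c)) (R := R) (T := T) (FZ := FZ) (FD := FD)
        (zf := fun c => c - u) (u := u) (by
          intro x hx y hy hxy
          have hx1 := (mem_filter.1 hx).1
          have hy1 := (mem_filter.1 hy).1
          rw [mem_Ioc] at hx1 hy1
          dsimp only at hxy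
          omega) (hcount (u + b))
      rw [mem_filter, mem_Ioc] at hc
      obtain ⟨⟨hc1, hc2⟩, hc3⟩ := hc
      have hc4 : c % 2 = 0 := by
        obtain ⟨i, hi⟩ := hc3
        have : c = 2 * (100 * k * i) := by rw [hi]; ring
        omega
      refine hfin c (c - u) (by omega) (by omega) hc3 h1 (by omega) (by omega) (by omega) h2 h3 h4
        h5 ?_
      unfold dd
      omega
    · obtain ⟨c, hc, h1, h2, h3, h4, h5⟩ := sy1_pick
        (C := (Ioc (u - b - w - 1) (u - b - w - 1 + w)).filter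
        (fun c => 200 * k ∣ c)) (R := R) (T := T) (FZ := FZ) (FD := FD)
        (zf := fun c => u - c) (u := u) (by
          intro x hx y hy hxy
          have hx1 := (mem_filter.1 hx).1
          have hy1 := (mem_filter.1 hy).1
          rw [mem_Ioc] at hx1 hy1
          dsimp only at hxy
          omega) (hcount (u - b - w - 1))
      rw [mem_filter, mem_Ioc] at hc
      obtain ⟨⟨hc1, hc2⟩, hc3⟩ := hc
      have hc4 : c % 2 = 0 := by
        obtain ⟨i, hi⟩ := hc3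
        have : c = 2 * (100 * k * i) := by rw [hi]; ring
        omega
      refine hfin c (u - c) (by omega) (by omega) hc3 h1 (by omega) (by omega) (by omega) h2 h3 h4
        h5 ?_
      unfold dd
      omega

theorem sys2 (ε : ℝ) (hε : 0 < ε) : ∃ ζ β : ℝ, 0 < ζ ∧ ζ ≤ ε ∧ 0 < β ∧ β ≤ ζ ∧ ∃ N₀ : ℕ, ∀ N : ℕ, N₀ ≤ N →
    ∀ R : Finset ℕ, (∀ x ∈ R, ζ * N < x ∧ x ≤ N) → (R.card : ℝ) ≤ β * N →
      ∃ (DG : Finset (ℕ × ℕ)) (Z1 : ℕ → Finset ℕ) (z1 : ℕ), Sys 2 1 N R DG Z1 z1 ζ β ε := by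
  obtain ⟨ζ, hζ⟩ : ∃ ζ : ℝ, ζ = min ε (1 / 100) / 10 := ⟨_, rfl⟩
  have hζ0 : 0 < ζ := by rw [hζ]; positivity
  have hζε : ζ ≤ ε := by
    have h1 : min ε (1 / 100) ≤ ε := min_le_left _ _
    have h2 : 0 < min ε (1 / 100) := by positivity
    rw [hζ]; linarith
  have hζ1 : ζ ≤ 1 / 1000 := by
    have h1 : min ε (1 / 100) ≤ 1 / 100 := min_le_right _ _
    rw [hζ]; linarith
  obtain ⟨h, hh⟩ : ∃ h : ℕ, h = ⌈100 / ζ⌉₊ := ⟨_, rfl⟩
  have hh1 : 100 / ζ ≤ (h : ℝ) := by rw [hh]; exact Nat.le_ceil _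
  have hh2 : 100 ≤ (h : ℝ) * ζ := by
    rwa [div_le_iff₀ hζ0] at hh1
  have hh0 : (0 : ℝ) < (h : ℝ) := lt_of_lt_of_le (by positivity) hh1
  have hh3 : (2 : ℝ) ≤ (h : ℝ) := by nlinarith
  obtain ⟨β, hβ⟩ : ∃ β : ℝ, β = ζ / (1000 * h) := ⟨_, rfl⟩
  have hβ0 : 0 < β := by rw [hβ]; positivity
  have hβh : (h : ℝ) * β = ζ / 1000 := by rw [hβ]; field_simp
  have hβζ : β ≤ ζ / 1000 := by nlinarith
  refine ⟨ζ, β, hζ0, hζε, hβ0, by linarith, ⌈(100 * h + 1000) / ζ⌉₊, ?_⟩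
  intro N hN R _ hR
  have hN1 : (100 * h + 1000) / ζ ≤ (N : ℝ) := (Nat.le_ceil _).trans (by exact_mod_cast hN)
  have hN2 : 100 * h + 1000 ≤ ζ * (N : ℝ) := by
    rw [div_le_iff₀ hζ0] at hN1
    linarith [mul_comm ζ (N : ℝ)]
  have hNr : (0 : ℝ) ≤ (N : ℝ) := Nat.cast_nonneg N
  have hN3 : ζ * (N : ℝ) ≤ N / 1000 := by
    have := mul_le_mul_of_nonneg_right hζ1 hNr
    linarith
  have hβN : β * (N : ℝ) ≤ ζ * N / 1000 := by
    have := mul_le_mul_of_nonneg_right hβζ hNr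
    linarith
  obtain ⟨L, hL⟩ : ∃ L : ℕ, L = ⌊ζ * (N : ℝ)⌋₊ := ⟨_, rfl⟩
  obtain ⟨r, hr⟩ : ∃ r : ℕ, r = ⌊β * (N : ℝ)⌋₊ := ⟨_, rfl⟩
  have hL1 : (L : ℝ) ≤ ζ * N := by rw [hL]; exact Nat.floor_le (by positivity)
  have hL2 : ζ * N < (L : ℝ) + 1 := by rw [hL]; exact Nat.lt_floor_add_one _
  have hr1 : (r : ℝ) ≤ β * N := by rw [hr]; exact Nat.floor_le (by positivity)
  have hr2 : β * N < (r : ℝ) + 1 := by rw [hr]; exact Nat.lt_floor_add_one _
  have hRr : R.card ≤ r := by rw [hr]; exact Nat.le_floor hR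
  have c1 : 40 * L + 60 ≤ N := by
    have : ((40 * L + 60 : ℕ) : ℝ) ≤ (N : ℝ) := by
      push_cast
      linarith
    exact_mod_cast this
  have c2 : 2 ≤ h := by exact_mod_cast hh3
  have c3 : h * (20 * r + 20) ≤ L := by
    have e1 : (h : ℝ) * r ≤ ζ * N / 1000 := by
      calc (h : ℝ) * r ≤ h * (β * N) := by gcongr
        _ = (h * β) * N := by ring
        _ = ζ * N / 1000 := by rw [hβh]; ring
    have : ((h * (20 * r + 20) : ℕ) : ℝ) ≤ (L : ℝ) := by
      push_cast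
      nlinarith
    exact_mod_cast this
  have c4 : 3 * (N / h) + r + 1 ≤ L := by
    have e1 : ((N / h : ℕ) : ℝ) ≤ (N : ℝ) / h := Nat.cast_div_le
    have e2 : (N : ℝ) / h ≤ ζ * N / 100 := by
      rw [div_le_iff₀ hh0]
      nlinarith
    have : ((3 * (N / h) + r + 1 : ℕ) : ℝ) ≤ (L : ℝ) := by
      push_cast
      linarith
    exact_mod_cast this
  exact sy2_sys (a := 3 * N / 10 + 1) c1 c2 c3 c4 rfl hL1 hL2 hr2 hζε R hRr

theorem dflt1 {N : ℕ} (hN : 1000 ≤ N) {c σ : ℕ} (hc : 3 * N ≤ 10 * c) (hcN : c ≤ N) (hc2 : c % 2 = 0)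
    (hσ : σ < 2) (F : Finset ℕ) (hF : 100 * F.card ≤ N) :
    ∃ s ⊆ Icc 1 N, IsBlock 1 (c, c) s ∧ Disjoint s F ∧ ∀ x ∈ s, cls 1 x = σ := by
  obtain ⟨k, hk, h1, -⟩ := affine_avoid 1 (m := 2) ![2, -2] ![(σ : ℤ), (c : ℤ) - σ]
    (by
      intro i
      fin_cases i
      · show (2 : ℤ) ≠ 0
        norm_num
      · show (-2 : ℤ) ≠ 0
        norm_num)
    (by
      intro i j hij
      fin_cases i <;> fin_cases j
      · exact absurd rfl hij
      · refine ⟨fun h => ?_, fun _ => ?_⟩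
        · change (2 : ℤ) = -2 at h
          omega
        · change (σ : ℤ) ≠ -((c : ℤ) - σ)
          omega
      · refine ⟨fun h => ?_, fun _ => ?_⟩
        · change (-2 : ℤ) = 2 at h
          omega
        · change (c : ℤ) - σ ≠ -(σ : ℤ)
          omega
      · exact absurd rfl hij)
    (Icc 1 (c / 4 - 1)) F (by
      rw [Nat.card_Icc]
      omega)
  rw [mem_Icc] at hk
  have hv : ∀ i : Fin 2, ∀ w : ℕ, (w : ℤ) = |(![2, -2] : Fin 2 → ℤ) i * k +
      (![(σ : ℤ), (c : ℤ) - σ] : Fin 2 → ℤ) i| → w ∉ F := fun i w hw hF =>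
    h1 i w hF (by rw [one_mul]; exact hw)
  have hb1 : 2 * k + σ ∉ F := hv 0 _ (by
    change ((2 * k + σ : ℕ) : ℤ) = |2 * (k : ℤ) + (σ : ℤ)|
    rw [abs_of_nonneg (by omega)]
    omega)
  have hb2 : c - (2 * k + σ) ∉ F := hv 1 _ (by
    change ((c - (2 * k + σ) : ℕ) : ℤ) = |-2 * (k : ℤ) + ((c : ℤ) - σ)|
    rw [abs_of_nonneg (by omega)]
    omega)
  have hdd : dd (2 * k + σ) c = c - (2 * k + σ) := by
    unfold dd
    omega
  refine ⟨{2 * k + σ, c - (2 * k + σ)}, ?_, ⟨2 * k + σ, ?_, ?_, ?_⟩, ?_, ?_⟩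
  · intro x hx
    rw [mem_insert, mem_singleton] at hx
    rw [mem_Icc]
    omega
  · rw [hdd, pair_eq_singleton]
  · intro hx
    rw [mem_insert, mem_singleton] at hx
    omega
  · rw [card_pair (by omega)]
  · rw [disjoint_left]
    intro x hx
    rw [mem_insert, mem_singleton] at hx
    rcases hx with rfl | rfl
    · exact hb1
    · exact hb2
  · intro x hx
    rw [mem_insert, mem_singleton] at hx
    unfold cls
    rw [if_pos rfl]
    omega

theorem dflt2 {N : ℕ} (hN : 1000 ≤ N) {c : ℕ} (hc : 3 * N ≤ 10 * c) (hcN : c + 1 ≤ N)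
    (F : Finset ℕ) (hF : 100 * F.card ≤ N) :
    ∃ s ⊆ Icc 1 N, IsBlock 2 (c, c + 1) s ∧ Disjoint s F := by
  obtain ⟨k, hk, h1, -⟩ := affine_avoid 1 (m := 3) ![1, -1, -1] ![(0 : ℤ), (c : ℤ), (c : ℤ) + 1]
    (by
      intro i
      fin_cases i
      · show (1 : ℤ) ≠ 0
        norm_num
      · show (-1 : ℤ) ≠ 0
        norm_num
      · show (-1 : ℤ) ≠ 0
        norm_num)
    (by
      intro i j hij
      fin_cases i <;> fin_cases j
      · exact absurd rfl hij
      · refine ⟨fun h => ?_, fun _ => ?_⟩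
        · change (1 : ℤ) = -1 at h
          omega
        · change (0 : ℤ) ≠ -(c : ℤ)
          omega
      · refine ⟨fun h => ?_, fun _ => ?_⟩
        · change (1 : ℤ) = -1 at h
          omega
        · change (0 : ℤ) ≠ -((c : ℤ) + 1)
          omega
      · refine ⟨fun h => ?_, fun _ => ?_⟩
        · change (-1 : ℤ) = 1 at h
          omega
        · change (c : ℤ) ≠ -0
          omega
      · exact absurd rfl hij
      · refine ⟨fun _ => ?_, fun h => ?_⟩
        · change (c : ℤ) ≠ (c : ℤ) + 1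
          omega
        · change (-1 : ℤ) = - -1 at h
          omega
      · refine ⟨fun h => ?_, fun _ => ?_⟩
        · change (-1 : ℤ) = 1 at h
          omega
        · change (c : ℤ) + 1 ≠ -0
          omega
      · refine ⟨fun _ => ?_, fun h => ?_⟩
        · change (c : ℤ) + 1 ≠ (c : ℤ)
          omega
        · change (-1 : ℤ) = - -1 at h
          omega
      · exact absurd rfl hij)
    (Icc 1 (c / 2 - 1)) F (by
      rw [Nat.card_Icc]
      omega)
  rw [mem_Icc] at hk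
  have hv : ∀ i : Fin 3, ∀ w : ℕ, (w : ℤ) = |(![1, -1, -1] : Fin 3 → ℤ) i * k +
      (![(0 : ℤ), (c : ℤ), (c : ℤ) + 1] : Fin 3 → ℤ) i| → w ∉ F := fun i w hw hF =>
    h1 i w hF (by rw [one_mul]; exact hw)
  have hb1 : k ∉ F := hv 0 _ (by
    change (k : ℤ) = |1 * (k : ℤ) + 0|
    rw [abs_of_nonneg (by omega)]
    omega)
  have hb2 : c - k ∉ F := hv 1 _ (by
    change ((c - k : ℕ) : ℤ) = |-1 * (k : ℤ) + (c : ℤ)|
    rw [abs_of_nonneg (by omega)]
    omega)
  have hb3 : c + 1 - k ∉ F := hv 2 _ (by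
    change ((c + 1 - k : ℕ) : ℤ) = |-1 * (k : ℤ) + ((c : ℤ) + 1)|
    rw [abs_of_nonneg (by omega)]
    omega)
  have hd1 : dd k c = c - k := by
    unfold dd
    omega
  have hd2 : dd k (c + 1) = c + 1 - k := by
    unfold dd
    omega
  refine ⟨{k, c - k, c + 1 - k}, ?_, ⟨k, ?_, ?_, ?_⟩, ?_⟩
  · intro x hx
    rw [mem_insert, mem_insert, mem_singleton] at hx
    rw [mem_Icc]
    omega
  · rw [hd1, hd2]
  · intro hx
    rw [mem_insert, mem_insert, mem_singleton] at hx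
    omega
  · rw [card_insert_of_notMem, card_pair (by omega)]
    rw [mem_insert, mem_singleton]
    omega
  · rw [disjoint_left]
    intro x hx
    rw [mem_insert, mem_insert, mem_singleton] at hx
    rcases hx with rfl | rfl | rfl
    · exact hb1
    · exact hb2
    · exact hb3

private theorem dfl_labs {c c' x : ℕ} : x ∈ labs {(c, c')} ↔ x = c ∨ x = c' := by
  rw [mem_labs]
  constructor
  · rintro ⟨d, hd, h⟩
    rw [mem_singleton] at hd
    rw [hd] at h
    exact h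
  · intro h
    exact ⟨(c, c'), mem_singleton_self _, h⟩

private theorem dfl_labs_eq (c c' : ℕ) : labs {(c, c')} = {c, c'} := by
  ext x
  rw [dfl_labs, mem_insert, mem_singleton]

private theorem dfl_dd (a b : ℕ) : ((dd a b : ℕ) : ℤ) = |(a : ℤ) - (b : ℤ)| := by
  rw [dd_natAbs, Int.natCast_natAbs]

private theorem dfl_two {N u x y c c' : ℕ} {F : Finset ℕ}
    (hN : x ≤ N ∧ y ≤ N ∧ c ≤ N ∧ c' ≤ N) (h0 : x ≠ 0 ∧ y ≠ 0 ∧ c ≠ 0 ∧ c' ≠ 0)
    (hu : u ≠ 0 ∧ x ≠ u ∧ y ≠ u ∧ c ≠ u ∧ c' ≠ u)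
    (hd : x ≠ y ∧ x ≠ c ∧ x ≠ c' ∧ y ≠ c ∧ y ≠ c' ∧ c ≠ c')
    (hF : x ∉ F ∧ y ∉ F ∧ c ∉ F ∧ c' ∉ F) (a : ℕ)
    (ha : ({u, x, y} : Finset ℕ) = {a, dd a c, dd a c'}) :
    ∃ (d : ℕ × ℕ) (s : Finset ℕ), s.card = 2 ∧ u ∉ s ∧ IsBlock 2 d (insert u s) ∧ s ⊆ Icc 1 N ∧
      labs {d} ⊆ Icc 1 N ∧ UnitOK 2 {d} ∧ Disjoint s F ∧ Disjoint (labs {d}) F ∧
      Disjoint (insert u s) (labs {d}) := by
  have hus : u ∉ ({x, y} : Finset ℕ) := by
    rw [mem_insert, mem_singleton]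
    omega
  have hs2 : ({x, y} : Finset ℕ).card = 2 := card_pair hd.1
  refine ⟨(c, c'), {x, y}, hs2, hus, ⟨a, ha, ?_, ?_⟩, ?_, ?_, ⟨fun h => ?_, ?_⟩, ?_, ?_, ?_⟩
  · intro h
    rw [mem_insert, mem_insert, mem_singleton] at h
    omega
  · rw [card_insert_of_notMem hus, hs2]
  · intro z hz
    rw [mem_insert, mem_singleton] at hz
    rw [mem_Icc]
    omega
  · intro z hz
    rw [dfl_labs] at hz
    rw [mem_Icc]
    omega
  · omega
  · rw [dfl_labs_eq, card_pair hd.2.2.2.2.2, card_singleton]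
  · rw [disjoint_left]
    intro z hz
    rw [mem_insert, mem_singleton] at hz
    rcases hz with rfl | rfl
    · exact hF.1
    · exact hF.2.1
  · rw [disjoint_left]
    intro z hz
    rw [dfl_labs] at hz
    rcases hz with rfl | rfl
    · exact hF.2.2.1
    · exact hF.2.2.2
  · rw [disjoint_left]
    intro z hz hz'
    rw [mem_insert, mem_insert, mem_singleton] at hz
    rw [dfl_labs] at hz'
    omega

private theorem dfl_F {F : Finset ℕ} {u w : ℕ} (h : w ∉ insert 0 (insert u F)) :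
    w ≠ 0 ∧ w ≠ u ∧ w ∉ F := by
  rw [mem_insert, mem_insert] at h
  push Not at h
  exact h

theorem tiny {t : ℕ} (ht : t = 1 ∨ t = 2) {N : ℕ} (hN : 10 ^ 5 ≤ N) {u : ℕ} (hu : u ∈ Icc 1 N)
    (F : Finset ℕ) (hF : 1000 * F.card ≤ N) :
    ∃ (d : ℕ × ℕ) (s : Finset ℕ), s.card = t ∧ u ∉ s ∧ IsBlock t d (insert u s) ∧ s ⊆ Icc 1 N ∧
      labs {d} ⊆ Icc 1 N ∧ UnitOK t {d} ∧ Disjoint s F ∧ Disjoint (labs {d}) F ∧
      Disjoint (insert u s) (labs {d}) := by
  rw [mem_Icc] at hu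
  have hcF : (insert 0 (insert u F)).card ≤ F.card + 2 := by
    have e1 := card_insert_le 0 (insert u F)
    have e2 := card_insert_le u F
    omega
  rcases ht with rfl | rfl
  · obtain ⟨b, hb, h1, h2⟩ := affine_avoid 1 (m := 2) ![1, 1] ![(0 : ℤ), -(u : ℤ)]
      (by
        intro i
        fin_cases i
        · show (1 : ℤ) ≠ 0
          norm_num
        · show (1 : ℤ) ≠ 0
          norm_num)
      (by
        intro i j hij
        fin_cases i <;> fin_cases j <;> first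
          | exact absurd rfl hij
          | (refine ⟨fun h => ?_, fun h => ?_⟩ <;> simp at h ⊢ <;> omega))
      (Icc 1 N) (insert 0 (insert u F)) (by
        rw [Nat.card_Icc]
        omega)
    rw [mem_Icc] at hb
    have hv : ∀ i : Fin 2, ∀ w : ℕ, (w : ℤ) = |(![1, 1] : Fin 2 → ℤ) i * b +
        (![(0 : ℤ), -(u : ℤ)] : Fin 2 → ℤ) i| → w ∉ insert 0 (insert u F) := fun i w hw hF =>
      h1 i w hF (by rw [one_mul]; exact hw)
    have e1 : (b : ℤ) = |1 * (b : ℤ) + 0| := by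
      rw [abs_of_nonneg (by omega)]
      omega
    have e2 : ((dd b u : ℕ) : ℤ) = |1 * (b : ℤ) + -(u : ℤ)| := by
      rw [dfl_dd, one_mul, sub_eq_add_neg]
    obtain ⟨hb0, hbu, hbF⟩ := dfl_F (hv 0 b e1)
    obtain ⟨hc0, hcu, hcF'⟩ := dfl_F (hv 1 _ e2)
    have hbc : b ≠ dd b u := fun h => h2 0 1 (by decide) (by
      change |1 * (b : ℤ) + 0| = |1 * (b : ℤ) + -(u : ℤ)|
      rw [← e1, ← e2, ← h])
    obtain ⟨c, hc⟩ : ∃ c, c = dd b u := ⟨_, rfl⟩
    rw [← hc] at hc0 hcu hcF' hbc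
    have hcN : c ≤ N := by
      rw [hc]
      unfold dd
      omega
    refine ⟨(c, c), {b}, card_singleton b, ?_, ?_, ?_, ?_, ⟨fun _ d hd => ?_, ?_⟩, ?_, ?_, ?_⟩
    · rw [mem_singleton]
      exact hbu.symm
    · refine ⟨if b < u then u else b, ?_, ?_, ?_⟩
      · by_cases h : b < u
        · have e3 : dd u c = b := by
            rw [hc]
            unfold dd
            omega
          rw [if_pos h]
          show ({u, b} : Finset ℕ) = {u, dd u c, dd u c}
          rw [e3, pair_eq_singleton]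
        · have e3 : dd b c = u := by
            rw [hc]
            unfold dd
            omega
          rw [if_neg h]
          show ({u, b} : Finset ℕ) = {b, dd b c, dd b c}
          rw [e3, pair_eq_singleton, pair_comm]
      · intro h
        rw [mem_insert, mem_singleton] at h
        omega
      · exact card_pair hbu.symm
    · intro z hz
      rw [mem_singleton] at hz
      rw [mem_Icc]
      omega
    · intro z hz
      rw [dfl_labs] at hz
      rw [mem_Icc]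
      omega
    · rw [mem_singleton] at hd
      rw [hd]
    · rw [dfl_labs_eq, pair_eq_singleton, card_singleton, card_singleton]
    · rw [disjoint_left]
      intro z hz
      rw [mem_singleton] at hz
      rw [hz]
      exact hbF
    · rw [disjoint_left]
      intro z hz
      rw [dfl_labs] at hz
      rcases hz with rfl | rfl
      · exact hcF'
      · exact hcF'
    · rw [disjoint_left]
      intro z hz hz'
      rw [mem_insert, mem_singleton] at hz
      rw [dfl_labs] at hz'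
      omega
  · by_cases hu2 : 2 * u ≤ N
    · obtain ⟨k, hk, h1, h2⟩ := affine_avoid 1 (m := 4) ![1, 1, 1, 2] ![(u : ℤ), -(u : ℤ), 0, 0]
        (by
          intro i
          fin_cases i
          · show (1 : ℤ) ≠ 0
            norm_num
          · show (1 : ℤ) ≠ 0
            norm_num
          · show (1 : ℤ) ≠ 0
            norm_num
          · show (2 : ℤ) ≠ 0
            norm_num)
        (by
          intro i j hij
          fin_cases i <;> fin_cases j <;> first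
            | exact absurd rfl hij
            | (refine ⟨fun h => ?_, fun h => ?_⟩ <;> simp at h ⊢ <;> omega))
        (Icc 1 (N / 2)) (insert 0 (insert u F)) (by
          rw [Nat.card_Icc]
          omega)
      rw [mem_Icc] at hk
      have hv : ∀ i : Fin 4, ∀ w : ℕ, (w : ℤ) = |(![1, 1, 1, 2] : Fin 4 → ℤ) i * k +
          (![(u : ℤ), -(u : ℤ), 0, 0] : Fin 4 → ℤ) i| → w ∉ insert 0 (insert u F) :=
        fun i w hw hF => h1 i w hF (by rw [one_mul]; exact hw)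
      have e1 : ((u + k : ℕ) : ℤ) = |1 * (k : ℤ) + (u : ℤ)| := by
        rw [abs_of_nonneg (by omega)]
        omega
      have e2 : ((dd u k : ℕ) : ℤ) = |1 * (k : ℤ) + -(u : ℤ)| := by
        rw [dd_comm, dfl_dd, one_mul, sub_eq_add_neg]
      have e3 : (k : ℤ) = |1 * (k : ℤ) + 0| := by
        rw [abs_of_nonneg (by omega)]
        omega
      have e4 : ((2 * k : ℕ) : ℤ) = |2 * (k : ℤ) + 0| := by
        rw [abs_of_nonneg (by omega)]
        omega
      have g1 := dfl_F (hv 0 _ e1)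
      have g2 := dfl_F (hv 1 _ e2)
      have g3 := dfl_F (hv 2 _ e3)
      have g4 := dfl_F (hv 3 _ e4)
      have d01 : u + k ≠ dd u k := fun h => h2 0 1 (by decide) (by
        change |1 * (k : ℤ) + (u : ℤ)| = |1 * (k : ℤ) + -(u : ℤ)|
        rw [← e1, ← e2, ← h])
      have d12 : dd u k ≠ k := fun h => h2 1 2 (by decide) (by
        change |1 * (k : ℤ) + -(u : ℤ)| = |1 * (k : ℤ) + 0|
        rw [← e2, ← e3, h])
      have d13 : dd u k ≠ 2 * k := fun h => h2 1 3 (by decide) (by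
        change |1 * (k : ℤ) + -(u : ℤ)| = |2 * (k : ℤ) + 0|
        rw [← e2, ← e4, ← h])
      have d03 : u + k ≠ 2 * k := fun h => h2 0 3 (by decide) (by
        change |1 * (k : ℤ) + (u : ℤ)| = |2 * (k : ℤ) + 0|
        rw [← e1, ← e4, ← h])
      have hdN : dd u k ≤ N := by
        unfold dd
        omega
      refine dfl_two (x := u + k) (y := dd u k) (c := k) (c' := 2 * k)
        ⟨by omega, hdN, by omega, by omega⟩ ⟨g1.1, g2.1, g3.1, g4.1⟩
        ⟨by omega, g1.2.1, g2.2.1, g3.2.1, g4.2.1⟩ ⟨d01, by omega, d03, d12, d13, by omega⟩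
        ⟨g1.2.2, g2.2.2, g3.2.2, g4.2.2⟩ (u + k) ?_
      have e5 : dd (u + k) k = u := by
        unfold dd
        omega
      have e6 : dd (u + k) (2 * k) = dd u k := by
        unfold dd
        omega
      rw [e5, e6, Finset.insert_comm]
    · obtain ⟨k, hk, h1, h2⟩ := affine_avoid 1 (m := 4) ![1, 2, -1, -2] ![0, 0, (u : ℤ), (u : ℤ)]
        (by
          intro i
          fin_cases i
          · show (1 : ℤ) ≠ 0
            norm_num
          · show (2 : ℤ) ≠ 0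
            norm_num
          · show (-1 : ℤ) ≠ 0
            norm_num
          · show (-2 : ℤ) ≠ 0
            norm_num)
        (by
          intro i j hij
          fin_cases i <;> fin_cases j <;> first
            | exact absurd rfl hij
            | (refine ⟨fun h => ?_, fun h => ?_⟩ <;> simp at h ⊢ <;> omega))
        (Icc 1 (N / 4)) (insert 0 (insert u F)) (by
          rw [Nat.card_Icc]
          omega)
      rw [mem_Icc] at hk
      have hv : ∀ i : Fin 4, ∀ w : ℕ, (w : ℤ) = |(![1, 2, -1, -2] : Fin 4 → ℤ) i * k +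
          (![0, 0, (u : ℤ), (u : ℤ)] : Fin 4 → ℤ) i| → w ∉ insert 0 (insert u F) :=
        fun i w hw hF => h1 i w hF (by rw [one_mul]; exact hw)
      have e1 : (k : ℤ) = |1 * (k : ℤ) + 0| := by
        rw [abs_of_nonneg (by omega)]
        omega
      have e2 : ((2 * k : ℕ) : ℤ) = |2 * (k : ℤ) + 0| := by
        rw [abs_of_nonneg (by omega)]
        omega
      have e3 : ((u - k : ℕ) : ℤ) = |-1 * (k : ℤ) + (u : ℤ)| := by
        rw [abs_of_nonneg (by omega)]
        omega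
      have e4 : ((u - 2 * k : ℕ) : ℤ) = |-2 * (k : ℤ) + (u : ℤ)| := by
        rw [abs_of_nonneg (by omega)]
        omega
      have g1 := dfl_F (hv 0 _ e1)
      have g2 := dfl_F (hv 1 _ e2)
      have g3 := dfl_F (hv 2 _ e3)
      have g4 := dfl_F (hv 3 _ e4)
      have d02 : u - k ≠ k := fun h => h2 2 0 (by decide) (by
        change |-1 * (k : ℤ) + (u : ℤ)| = |1 * (k : ℤ) + 0|
        rw [← e1, ← e3, h])
      have d12 : u - k ≠ 2 * k := fun h => h2 2 1 (by decide) (by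
        change |-1 * (k : ℤ) + (u : ℤ)| = |2 * (k : ℤ) + 0|
        rw [← e2, ← e3, h])
      have d03 : u - 2 * k ≠ k := fun h => h2 3 0 (by decide) (by
        change |-2 * (k : ℤ) + (u : ℤ)| = |1 * (k : ℤ) + 0|
        rw [← e1, ← e4, h])
      have d13 : u - 2 * k ≠ 2 * k := fun h => h2 3 1 (by decide) (by
        change |-2 * (k : ℤ) + (u : ℤ)| = |2 * (k : ℤ) + 0|
        rw [← e2, ← e4, h])
      refine dfl_two (x := u - k) (y := u - 2 * k) (c := k) (c' := 2 * k)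
        ⟨by omega, by omega, by omega, by omega⟩ ⟨g3.1, g4.1, g1.1, g2.1⟩
        ⟨by omega, g3.2.1, g4.2.1, g1.2.1, g2.2.1⟩ ⟨by omega, d02, d12, d03, d13, by omega⟩
        ⟨g3.2.2, g4.2.2, g1.2.2, g2.2.2⟩ u ?_
      have e5 : dd u k = u - k := by
        unfold dd
        omega
      have e6 : dd u (2 * k) = u - 2 * k := by
        unfold dd
        omega
      rw [e5, e6]

end SSB
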