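import Pool.Agent.Lib.MP_8a819d_co.BD.TMd
import Pool.Agent.Lib.MP_8a819d_co.BD.Sy
import Pool.Agent.Lib.MP_8a819d_co.BD.G1
import Pool.Agent.Lib.MP_8a819d_co.BD.G2

/-!
# MP_8a819d_co: the absorber, 6. The absorber theorem

JOB Ab0: `junk_assign`, `block_parity`. JOB Ab1: `abs1` (t = 1). JOB Ab2: `abs2` (t = 2).

Ab0 (`junk_assign`, `block_parity`). `junk_assign`: induction on `J` (`Finset.induction`): for the new `u` apply `Sys.junk` with `FD` the units used so far,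
`FZ` the labels used so far: `|FD| + |FZ| ≤ (t + 1)|J| ≤ 8 β N`.

Construction (both cases). Given `ε` (we may assume `ε ≤ 1/100`); let `C, ε₁` be the constants of `TModStatement t`
(`tmod gadget1`, `tmod gadget2`); choose `ε' > 0` small with respect to `ε, ε₁, 1/C` (e.g. `ε' = min(ε, ε₁) / (10^4 (C + 1))`) and apply
`sys1` / `sys2` with `ε'`: `ζ ≤ ε'`, `β ≤ ζ`. Let `j = 2 ⌈β N⌉` (so `2βN ≤ j ≤ 2βN + 2 ≤ 3 β N` for large `N`), `g = |DG|`.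
Tiny labels `T = {x ≥ 1 : x ≤ ζ N}`. By `greedy` and `tiny`: for every `u ∈ T` a unit `d_u` and a set `s_u` (footprint
`s_u ∪ labs {d_u}`), disjoint from `F₀ = R ∪ T ∪ labs DG ∪ ⋃ Z1 σ` and from each other. By `greedy` and `dflt1`/`dflt2`: default blocks
`π σ d` (`σ < s`, `d ∈ DG`), disjoint, avoiding everything so far (all sets have at most `10^-3 N` elements in total).
`Z σ = Z1 σ ∪ ⋃ d ∈ DG, π σ d`, all of class `σ`, `|Z σ| = z1 + (t+1) g`.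
`M`: for `t = 2` (`s = 1`): `M = z1 + j`, `|Z 0| = z1 + 3g ≤ 2 z1 ≤ 2M`. For `t = 1` (`s = 2`): `M = g + z1 + j/2`, `|Z σ| = z1 + 2g ≤ 2M`.
`TModStatement` for `Z σ` (forbidden: everything so far): `A_σ, D_σ`; `(t+1)|D_σ| = |A_σ| + M`.
`A = T ∪ ⋃ s_u ∪ ⋃ Z σ ∪ ⋃ A_σ`, `D = {d_u} ∪ DG ∪ ⋃ D_σ`. Then `(t+1)|D| - |A| = (t+1) g + s M - s (z1 + (t+1) g) = j`
(`t = 2`: `3g + z1 + j - z1 - 3g`; `t = 1`: `2g + 2g + 2 z1 + j - 2 z1 - 4g`). `AbsData`: clear from the construction (`gap`: `j ≥ 2βN`).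
Given `J` (`|J| = j`; `J ∩ A = ∅`, so all elements of `J` are `> ζN`): `junk_assign` gives `d : J → DG`, `z u ⊆ Z1 (class of u)`. The unused
units `DG' = DG \ d(J)`, `g - j` of them.
`t = 2`: every `d ∈ DG'` takes `π 0 d`. The rest of `Z 0`: `Z' = Z 0 \ (⋃ z u ∪ ⋃ d ∈ DG', π 0 d)` has `z1 + 3g - 2j - 3(g - j) = z1 + j = M`
elements; `D_0` takes `A_0 ∪ Z'`.
`t = 1`: let `j_σ` be the number of `u ∈ J` of parity `σ`, `r = g - j/2`. Claim: `r ≡ j_σ mod 2` for both `σ`. Indeed `j_0 + j_1 = j` is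
even, so it suffices to treat `j_1`. Parities: every block of a unit `(c, c)` has an even sum of `a + |a - c| + c`; so the blocks of
`T`: `∑ (T ∪ ⋃ s_u) + ∑ labs {d_u} ≡ 0`. `labs DG` are even. For `A_σ, D_σ`: take any `Z'' ⊆ Z σ` with `M` elements; `A_σ ∪ Z''` is matchable
to `D_σ`, so `∑ A_σ + ∑ Z'' + ∑ labs D_σ ≡ 0`, `∑ Z'' ≡ M σ`. So `∑ A_σ + ∑ labs D_σ ≡ M σ`, and `∑ Z σ ≡ σ (z1 + 2g)`. The hypothesis
`∑ A + ∑ J + ∑ labs D ≡ 0` gives `M + z1 + j_1 ≡ 0`, i.e. `g + j/2 + j_1 ≡ 0`. Now `y_σ = (r - j_σ)/2 ≥ 0` (`r ≥ j` as `g ≥ 10 β N + 10 ≥ 3j/2`)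
and `y_0 + y_1 = (2r - j)/2 = g - j = |DG'|`. Split `DG' = DG'_0 ∪ DG'_1` with `|DG'_σ| = y_σ`; `d ∈ DG'_σ` takes `π σ d`. The rest of `Z σ`:
`z1 + 2g - j_σ - 2 y_σ = z1 + 2g - r = M` elements; `D_σ` takes it together with `A_σ`.
In both cases everything in `A ∪ J` is used exactly once (`matchable_union`, `matchable_biUnion`; disjoint label sets of units give
disjoint sets of units; subsets of `DG`: `unitOK_disj` is not needed for disjointness of sets of units).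
`block_parity`: if `Matchable 1 D W` and `UnitOK 1 D` then `(∑ W + ∑ labs D) % 2 = 0`.
-/

set_option autoImplicit false

namespace SSB

open Finset

theorem junk_assign {t s N : ℕ} {R : Finset ℕ} {DG : Finset (ℕ × ℕ)} {Z1 : ℕ → Finset ℕ} {z1 : ℕ}
    {ζ β ε : ℝ} (h : Sys t s N R DG Z1 z1 ζ β ε) (J : Finset ℕ) (hJ : J ⊆ Icc 1 N)
    (hJ2 : ∀ u ∈ J, ζ * N < u) (hJ3 : ((t : ℝ) + 1) * J.card ≤ 8 * β * N) :
    ∃ (d : ℕ → ℕ × ℕ) (z : ℕ → Finset ℕ), (∀ u ∈ J, d u ∈ DG) ∧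
      (∀ u ∈ J, ∀ v ∈ J, u ≠ v → d u ≠ d v) ∧
      (∀ u ∈ J, z u ⊆ Z1 (cls t u) ∧ (z u).card = t ∧ u ∉ z u ∧ IsBlock t (d u) (insert u (z u))) ∧
      (∀ u ∈ J, ∀ v ∈ J, u ≠ v → Disjoint (z u) (z v)) := by
  induction J using Finset.induction_on with
  | empty =>
    exact ⟨fun _ => (0, 0), fun _ => ∅, by simp, by simp, by simp, by simp⟩
  | insert u J hu ih =>
    have hc : (J.card : ℝ) ≤ (insert u J).card := by
      rw [Finset.card_insert_of_notMem hu]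
      push_cast
      linarith
    have ht0 : (0 : ℝ) ≤ (t : ℝ) + 1 := by positivity
    have hJ4 : ((t : ℝ) + 1) * J.card ≤ 8 * β * N := (mul_le_mul_of_nonneg_left hc ht0).trans hJ3
    obtain ⟨d, z, h1, h2, h3, h4⟩ := ih (fun x hx => hJ (Finset.mem_insert_of_mem hx))
      (fun v hv => hJ2 v (Finset.mem_insert_of_mem hv)) hJ4
    have hFD : J.image d ⊆ DG := by
      intro x hx
      obtain ⟨v, hv, rfl⟩ := Finset.mem_image.1 hx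
      exact h1 v hv
    have hFZ : (J.biUnion z).card ≤ J.card * t := by
      refine Finset.card_biUnion_le_card_mul _ _ _ fun v hv => ?_
      exact (h3 v hv).2.1.le
    have hFD2 : (J.image d).card ≤ J.card := Finset.card_image_le
    have hle : ((J.image d).card : ℝ) + (J.biUnion z).card ≤ 8 * β * N := by
      have k1 : ((J.image d).card : ℝ) ≤ J.card := by exact_mod_cast hFD2
      have k2 : ((J.biUnion z).card : ℝ) ≤ J.card * t := by exact_mod_cast hFZ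
      linarith
    obtain ⟨d0, hd0, z0, hz0, hz1, hz2, hz3⟩ := h.junk u (hJ (Finset.mem_insert_self _ _))
      (hJ2 u (Finset.mem_insert_self _ _)) (J.image d) (J.biUnion z) hFD hle
    rw [Finset.mem_sdiff] at hd0
    have hne : ∀ v ∈ J, v ≠ u := fun v hv hvu => hu (hvu ▸ hv)
    have hd1 : ∀ v ∈ J, d0 ≠ d v := fun v hv hvu =>
      hd0.2 (Finset.mem_image.2 ⟨v, hv, hvu.symm⟩)
    have hz4 : ∀ v ∈ J, Disjoint z0 (z v) := by
      intro v hv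
      rw [Finset.disjoint_left]
      intro x hx hx2
      exact (Finset.mem_sdiff.1 (hz0 hx)).2 (Finset.mem_biUnion.2 ⟨v, hv, hx2⟩)
    refine ⟨Function.update d u d0, Function.update z u z0, ?_, ?_, ?_, ?_⟩
    · intro v hv
      rcases Finset.mem_insert.1 hv with rfl | hv
      · rw [Function.update_self]
        exact hd0.1
      · rw [Function.update_of_ne (hne v hv)]
        exact h1 v hv
    · intro v hv w hw hvw
      rcases Finset.mem_insert.1 hv with rfl | hv1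
      · rcases Finset.mem_insert.1 hw with rfl | hw1
        · exact absurd rfl hvw
        · rw [Function.update_self, Function.update_of_ne (hne w hw1)]
          exact hd1 w hw1
      · rcases Finset.mem_insert.1 hw with rfl | hw1
        · rw [Function.update_self, Function.update_of_ne (hne v hv1)]
          exact (hd1 v hv1).symm
        · rw [Function.update_of_ne (hne w hw1), Function.update_of_ne (hne v hv1)]
          exact h2 v hv1 w hw1 hvw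
    · intro v hv
      rcases Finset.mem_insert.1 hv with rfl | hv
      · rw [Function.update_self, Function.update_self]
        exact ⟨hz0.trans Finset.sdiff_subset, hz1, hz2, hz3⟩
      · rw [Function.update_of_ne (hne v hv), Function.update_of_ne (hne v hv)]
        exact h3 v hv
    · intro v hv w hw hvw
      rcases Finset.mem_insert.1 hv with rfl | hv1
      · rcases Finset.mem_insert.1 hw with rfl | hw1
        · exact absurd rfl hvw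
        · rw [Function.update_self, Function.update_of_ne (hne w hw1)]
          exact hz4 w hw1
      · rcases Finset.mem_insert.1 hw with rfl | hw1
        · rw [Function.update_self, Function.update_of_ne (hne v hv1)]
          exact (hz4 v hv1).symm
        · rw [Function.update_of_ne (hne w hw1), Function.update_of_ne (hne v hv1)]
          exact h4 v hv1 w hw1 hvw

theorem block_parity {D : Finset (ℕ × ℕ)} {W : Finset ℕ} (hD : UnitOK 1 D) (h : Matchable 1 D W) :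
    (∑ x ∈ W, x + ∑ x ∈ labs D, x) % 2 = 0 := by
  obtain ⟨β, hβ, hdis, hW⟩ := h
  obtain ⟨h1, h2⟩ := hD
  have h3 : D.image Prod.snd = D.image Prod.fst :=
    Finset.image_congr fun d hd => (h1 rfl d hd).symm
  have h4 : labs D = D.image Prod.fst := by
    unfold labs
    rw [h3, Finset.union_self]
  have h5 : Set.InjOn Prod.fst (D : Set (ℕ × ℕ)) := by
    rw [← Finset.card_image_iff, ← h4, h2, one_mul]
  have h6 : ∑ x ∈ labs D, x = ∑ d ∈ D, d.1 := by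
    rw [h4, Finset.sum_image h5]
  have h7 : ∑ x ∈ W, x = ∑ d ∈ D, ∑ x ∈ β d, x := by
    rw [← hW, Finset.sum_biUnion]
    exact fun d hd d' hd' hne => hdis d hd d' hd' hne
  have h8 : ∀ d ∈ D, 2 ∣ ∑ x ∈ β d, x + d.1 := by
    intro d hd
    obtain ⟨a, ha, -, hc⟩ := hβ d hd
    rw [← h1 rfl d hd, Finset.pair_eq_singleton] at ha
    have hne : a ≠ dd a d.1 := by
      intro hne
      rw [ha, ← hne, Finset.pair_eq_singleton, Finset.card_singleton] at hc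
      omega
    rw [ha, Finset.sum_pair hne]
    unfold dd
    omega
  rw [h6, h7, ← Finset.sum_add_distrib]
  exact Nat.mod_eq_zero_of_dvd (Finset.dvd_sum h8)

/-- the construction for `t = 1` -/
structure ab1Cfg (N : ℕ) (R T AT : Finset ℕ) (DT DG : Finset (ℕ × ℕ)) (Z1 : ℕ → Finset ℕ)
    (π : ℕ → ℕ × ℕ → Finset ℕ) (P A' : ℕ → Finset ℕ) (D' : ℕ → Finset (ℕ × ℕ)) (z1 h M : ℕ)
    (ζ β ε : ℝ) : Prop where
  sys : Sys 1 2 N R DG Z1 z1 ζ β ε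
  T_mem : ∀ x, x ∈ T ↔ x ∈ Icc 1 N ∧ (x : ℝ) ≤ ζ * N
  DT_m : Matchable 1 DT (T ∪ AT)
  DT_ok : UnitOK 1 DT
  AT_card : AT.card = T.card
  AT_sub : AT ⊆ Icc 1 N
  DT_sub : labs DT ⊆ Icc 1 N
  π_blk : ∀ σ < 2, ∀ d ∈ DG, IsBlock 1 d (π σ d)
  π_dis : ∀ σ < 2, ∀ d ∈ DG, ∀ d' ∈ DG, d ≠ d' → Disjoint (π σ d) (π σ d')
  π_cls : ∀ σ < 2, ∀ d ∈ DG, ∀ x ∈ π σ d, cls 1 x = σ
  P_eq : ∀ σ < 2, P σ = DG.biUnion (π σ)
  P_sub : ∀ σ < 2, P σ ⊆ Icc 1 N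
  A_sub : ∀ σ < 2, A' σ ⊆ Icc 1 N
  D_sub : ∀ σ < 2, labs (D' σ) ⊆ Icc 1 N
  D_ok : ∀ σ < 2, UnitOK 1 (D' σ)
  D_card : ∀ σ < 2, 2 * (D' σ).card = (A' σ).card + M
  D_m : ∀ σ < 2, ∀ Z' ⊆ Z1 σ ∪ P σ, Z'.card = M → Matchable 1 (D' σ) (A' σ ∪ Z')
  M_eq : M = DG.card + z1 + h
  h_ge : β * N ≤ h
  h_le : 3 * h ≤ DG.card
  h_le' : 4 * (h : ℝ) ≤ 8 * β * N
  c1 : Disjoint (T) (R)
  c2 : Disjoint (labs DG) (R ∪ T)
  c3 : Disjoint (Z1 0) (R ∪ T ∪ labs DG)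
  c4 : Disjoint (Z1 1) (R ∪ T ∪ labs DG ∪ Z1 0)
  c5 : Disjoint (AT) (R ∪ T ∪ labs DG ∪ Z1 0 ∪ Z1 1)
  c6 : Disjoint (labs DT) (R ∪ T ∪ labs DG ∪ Z1 0 ∪ Z1 1 ∪ AT)
  c7 : Disjoint (P 0) (R ∪ T ∪ labs DG ∪ Z1 0 ∪ Z1 1 ∪ AT ∪ labs DT)
  c8 : Disjoint (P 1) (R ∪ T ∪ labs DG ∪ Z1 0 ∪ Z1 1 ∪ AT ∪ labs DT ∪ P 0)
  c9 : Disjoint (A' 0) (R ∪ T ∪ labs DG ∪ Z1 0 ∪ Z1 1 ∪ AT ∪ labs DT ∪ P 0 ∪ P 1)
  c10 : Disjoint (labs (D' 0)) (R ∪ T ∪ labs DG ∪ Z1 0 ∪ Z1 1 ∪ AT ∪ labs DT ∪ P 0 ∪ P 1 ∪ A' 0)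
  c11 : Disjoint (A' 1) (R ∪ T ∪ labs DG ∪ Z1 0 ∪ Z1 1 ∪ AT ∪ labs DT ∪ P 0 ∪ P 1 ∪ A' 0 ∪ labs (D' 0))
  c12 : Disjoint (labs (D' 1)) (R ∪ T ∪ labs DG ∪ Z1 0 ∪ Z1 1 ∪ AT ∪ labs DT ∪ P 0 ∪ P 1 ∪ A' 0 ∪ labs (D' 0) ∪ A' 1)

/-- all the labels of the absorber -/
private def ab1_A (T AT : Finset ℕ) (Z1 P A' : ℕ → Finset ℕ) : Finset ℕ :=
  T ∪ AT ∪ (Z1 0 ∪ P 0) ∪ (Z1 1 ∪ P 1) ∪ A' 0 ∪ A' 1

/-- all the units of the absorber -/
private def ab1_D (DT DG : Finset (ℕ × ℕ)) (D' : ℕ → Finset (ℕ × ℕ)) : Finset (ℕ × ℕ) :=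
  DT ∪ DG ∪ D' 0 ∪ D' 1

private theorem ab1_cls (x : ℕ) : cls 1 x = x % 2 := if_pos rfl

private theorem ab1_par {X : Finset ℕ} {σ : ℕ} (h : ∀ x ∈ X, cls 1 x = σ) :
    (∑ x ∈ X, x) % 2 = (σ * X.card) % 2 := by
  rw [Finset.sum_nat_mod]
  have h1 : ∑ x ∈ X, x % 2 = X.card * σ := by
    rw [sum_congr rfl (fun x hx => (ab1_cls x).symm.trans (h x hx)), sum_const, smul_eq_mul]
  rw [h1, mul_comm]

section ab1

variable {N : ℕ} {R T AT : Finset ℕ} {DT DG : Finset (ℕ × ℕ)} {Z1 : ℕ → Finset ℕ}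
  {π : ℕ → ℕ × ℕ → Finset ℕ} {P A' : ℕ → Finset ℕ} {D' : ℕ → Finset (ℕ × ℕ)} {z1 h M : ℕ}
  {ζ β ε : ℝ}

private theorem ab1_sing (E : Finset (ℕ × ℕ)) : E.biUnion (fun d => {d}) = E := by
  ext d
  simp

private theorem ab1_E (c : ab1Cfg N R T AT DT DG Z1 π P A' D' z1 h M ζ β ε) {σ : ℕ} (hσ : σ < 2)
    {E : Finset (ℕ × ℕ)} (hE : E ⊆ DG) : Matchable 1 E (E.biUnion (π σ)) ∧
      (E.biUnion (π σ)).card = 2 * E.card ∧ E.biUnion (π σ) ⊆ P σ := by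
  have h1 : Matchable 1 (E.biUnion (fun d => {d})) (E.biUnion (π σ)) := by
    refine matchable_biUnion E _ _ (fun d hd => matchable_single (c.π_blk σ hσ d (hE hd))) ?_ ?_
    · intro d _ d' _ hne
      exact disjoint_singleton.2 hne
    · intro d hd d' hd' hne
      exact c.π_dis σ hσ d (hE hd) d' (hE hd') hne
  rw [ab1_sing] at h1
  refine ⟨h1, block_card h1, ?_⟩
  rw [c.P_eq σ hσ]
  exact biUnion_subset_biUnion_of_subset_left _ hE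

private theorem ab1_P (c : ab1Cfg N R T AT DT DG Z1 π P A' D' z1 h M ζ β ε) {σ : ℕ} (hσ : σ < 2) :
    (P σ).card = 2 * DG.card ∧ ∀ x ∈ P σ, cls 1 x = σ := by
  have h1 := ab1_E c hσ (Subset.refl DG)
  rw [← c.P_eq σ hσ] at h1
  refine ⟨h1.2.1, fun x hx => ?_⟩
  rw [c.P_eq σ hσ] at hx
  obtain ⟨d, hd, hx⟩ := mem_biUnion.1 hx
  exact c.π_cls σ hσ d hd x hx

/-- the cardinality of the set of labels -/
private theorem ab1_cardA (c : ab1Cfg N R T AT DT DG Z1 π P A' D' z1 h M ζ β ε) :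
    (ab1_A T AT Z1 P A').card = T.card + AT.card + (z1 + 2 * DG.card) + (z1 + 2 * DG.card) +
      (A' 0).card + (A' 1).card := by
  have d_T_R := c.c1
  have cc2 := c.c2
  simp only [disjoint_union_right] at cc2
  obtain ⟨d_LG_R, d_LG_T⟩ := cc2
  have cc3 := c.c3
  simp only [disjoint_union_right] at cc3
  obtain ⟨⟨d_Z0_R, d_Z0_T⟩, d_Z0_LG⟩ := cc3
  have cc4 := c.c4
  simp only [disjoint_union_right] at cc4
  obtain ⟨⟨⟨d_Z1_R, d_Z1_T⟩, d_Z1_LG⟩, d_Z1_Z0⟩ := cc4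
  have cc5 := c.c5
  simp only [disjoint_union_right] at cc5
  obtain ⟨⟨⟨⟨d_AT_R, d_AT_T⟩, d_AT_LG⟩, d_AT_Z0⟩, d_AT_Z1⟩ := cc5
  have cc6 := c.c6
  simp only [disjoint_union_right] at cc6
  obtain ⟨⟨⟨⟨⟨d_LT_R, d_LT_T⟩, d_LT_LG⟩, d_LT_Z0⟩, d_LT_Z1⟩, d_LT_AT⟩ := cc6
  have cc7 := c.c7
  simp only [disjoint_union_right] at cc7
  obtain ⟨⟨⟨⟨⟨⟨d_P0_R, d_P0_T⟩, d_P0_LG⟩, d_P0_Z0⟩, d_P0_Z1⟩, d_P0_AT⟩, d_P0_LT⟩ := cc7
  have cc8 := c.c8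
  simp only [disjoint_union_right] at cc8
  obtain ⟨⟨⟨⟨⟨⟨⟨d_P1_R, d_P1_T⟩, d_P1_LG⟩, d_P1_Z0⟩, d_P1_Z1⟩, d_P1_AT⟩, d_P1_LT⟩, d_P1_P0⟩ := cc8
  have cc9 := c.c9
  simp only [disjoint_union_right] at cc9
  obtain ⟨⟨⟨⟨⟨⟨⟨⟨d_A0_R, d_A0_T⟩, d_A0_LG⟩, d_A0_Z0⟩, d_A0_Z1⟩, d_A0_AT⟩, d_A0_LT⟩, d_A0_P0⟩, d_A0_P1⟩ := cc9
  have cc10 := c.c10
  simp only [disjoint_union_right] at cc10
  obtain ⟨⟨⟨⟨⟨⟨⟨⟨⟨d_L0_R, d_L0_T⟩, d_L0_LG⟩, d_L0_Z0⟩, d_L0_Z1⟩, d_L0_AT⟩, d_L0_LT⟩, d_L0_P0⟩, d_L0_P1⟩, d_L0_A0⟩ := cc10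
  have cc11 := c.c11
  simp only [disjoint_union_right] at cc11
  obtain ⟨⟨⟨⟨⟨⟨⟨⟨⟨⟨d_A1_R, d_A1_T⟩, d_A1_LG⟩, d_A1_Z0⟩, d_A1_Z1⟩, d_A1_AT⟩, d_A1_LT⟩, d_A1_P0⟩, d_A1_P1⟩, d_A1_A0⟩, d_A1_L0⟩ := cc11
  have cc12 := c.c12
  simp only [disjoint_union_right] at cc12
  obtain ⟨⟨⟨⟨⟨⟨⟨⟨⟨⟨⟨d_L1_R, d_L1_T⟩, d_L1_LG⟩, d_L1_Z0⟩, d_L1_Z1⟩, d_L1_AT⟩, d_L1_LT⟩, d_L1_P0⟩, d_L1_P1⟩, d_L1_A0⟩, d_L1_L0⟩, d_L1_A1⟩ := cc12
  unfold ab1_A
  rw [card_union_of_disjoint (disjoint_union_left.2 ⟨(disjoint_union_left.2 ⟨(disjoint_union_left.2 ⟨(disjoint_union_left.2 ⟨d_A1_T.symm, d_A1_AT.symm⟩), (disjoint_union_left.2 ⟨d_A1_Z0.symm, d_A1_P0.symm⟩)⟩), (disjoint_union_left.2 ⟨d_A1_Z1.symm, d_A1_P1.symm⟩)⟩), d_A1_A0.symm⟩),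
    card_union_of_disjoint (disjoint_union_left.2 ⟨(disjoint_union_left.2 ⟨(disjoint_union_left.2 ⟨d_A0_T.symm, d_A0_AT.symm⟩), (disjoint_union_left.2 ⟨d_A0_Z0.symm, d_A0_P0.symm⟩)⟩), (disjoint_union_left.2 ⟨d_A0_Z1.symm, d_A0_P1.symm⟩)⟩),
    card_union_of_disjoint (disjoint_union_left.2 ⟨(disjoint_union_left.2 ⟨(disjoint_union_right.2 ⟨d_Z1_T.symm, d_P1_T.symm⟩), (disjoint_union_right.2 ⟨d_AT_Z1, d_P1_AT.symm⟩)⟩), (disjoint_union_left.2 ⟨(disjoint_union_right.2 ⟨d_Z1_Z0.symm, d_P1_Z0.symm⟩), (disjoint_union_right.2 ⟨d_P0_Z1, d_P1_P0.symm⟩)⟩)⟩),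
    card_union_of_disjoint (disjoint_union_left.2 ⟨(disjoint_union_right.2 ⟨d_Z0_T.symm, d_P0_T.symm⟩), (disjoint_union_right.2 ⟨d_AT_Z0, d_P0_AT.symm⟩)⟩),
    card_union_of_disjoint d_AT_T.symm,
    card_union_of_disjoint d_P0_Z0.symm,
    card_union_of_disjoint d_P1_Z1.symm,
    (ab1_P c (σ := 0) (by norm_num)).1, (ab1_P c (σ := 1) (by norm_num)).1,
    c.sys.Z1_card 0 (by norm_num), c.sys.Z1_card 1 (by norm_num)]

private theorem ab1_disD (c : ab1Cfg N R T AT DT DG Z1 π P A' D' z1 h M ζ β ε) :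
    Disjoint DT DG ∧ Disjoint (DT ∪ DG) (D' 0) ∧ Disjoint (DT ∪ DG ∪ D' 0) (D' 1) ∧
    Disjoint DT (D' 0) ∧ Disjoint DT (D' 1) ∧ Disjoint DG (D' 0) ∧ Disjoint DG (D' 1) ∧
    Disjoint (D' 0) (D' 1) := by
  have d_T_R := c.c1
  have cc2 := c.c2
  simp only [disjoint_union_right] at cc2
  obtain ⟨d_LG_R, d_LG_T⟩ := cc2
  have cc3 := c.c3
  simp only [disjoint_union_right] at cc3
  obtain ⟨⟨d_Z0_R, d_Z0_T⟩, d_Z0_LG⟩ := cc3
  have cc4 := c.c4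
  simp only [disjoint_union_right] at cc4
  obtain ⟨⟨⟨d_Z1_R, d_Z1_T⟩, d_Z1_LG⟩, d_Z1_Z0⟩ := cc4
  have cc5 := c.c5
  simp only [disjoint_union_right] at cc5
  obtain ⟨⟨⟨⟨d_AT_R, d_AT_T⟩, d_AT_LG⟩, d_AT_Z0⟩, d_AT_Z1⟩ := cc5
  have cc6 := c.c6
  simp only [disjoint_union_right] at cc6
  obtain ⟨⟨⟨⟨⟨d_LT_R, d_LT_T⟩, d_LT_LG⟩, d_LT_Z0⟩, d_LT_Z1⟩, d_LT_AT⟩ := cc6
  have cc7 := c.c7
  simp only [disjoint_union_right] at cc7
  obtain ⟨⟨⟨⟨⟨⟨d_P0_R, d_P0_T⟩, d_P0_LG⟩, d_P0_Z0⟩, d_P0_Z1⟩, d_P0_AT⟩, d_P0_LT⟩ := cc7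
  have cc8 := c.c8
  simp only [disjoint_union_right] at cc8
  obtain ⟨⟨⟨⟨⟨⟨⟨d_P1_R, d_P1_T⟩, d_P1_LG⟩, d_P1_Z0⟩, d_P1_Z1⟩, d_P1_AT⟩, d_P1_LT⟩, d_P1_P0⟩ := cc8
  have cc9 := c.c9
  simp only [disjoint_union_right] at cc9
  obtain ⟨⟨⟨⟨⟨⟨⟨⟨d_A0_R, d_A0_T⟩, d_A0_LG⟩, d_A0_Z0⟩, d_A0_Z1⟩, d_A0_AT⟩, d_A0_LT⟩, d_A0_P0⟩, d_A0_P1⟩ := cc9
  have cc10 := c.c10
  simp only [disjoint_union_right] at cc10
  obtain ⟨⟨⟨⟨⟨⟨⟨⟨⟨d_L0_R, d_L0_T⟩, d_L0_LG⟩, d_L0_Z0⟩, d_L0_Z1⟩, d_L0_AT⟩, d_L0_LT⟩, d_L0_P0⟩, d_L0_P1⟩, d_L0_A0⟩ := cc10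
  have cc11 := c.c11
  simp only [disjoint_union_right] at cc11
  obtain ⟨⟨⟨⟨⟨⟨⟨⟨⟨⟨d_A1_R, d_A1_T⟩, d_A1_LG⟩, d_A1_Z0⟩, d_A1_Z1⟩, d_A1_AT⟩, d_A1_LT⟩, d_A1_P0⟩, d_A1_P1⟩, d_A1_A0⟩, d_A1_L0⟩ := cc11
  have cc12 := c.c12
  simp only [disjoint_union_right] at cc12
  obtain ⟨⟨⟨⟨⟨⟨⟨⟨⟨⟨⟨d_L1_R, d_L1_T⟩, d_L1_LG⟩, d_L1_Z0⟩, d_L1_Z1⟩, d_L1_AT⟩, d_L1_LT⟩, d_L1_P0⟩, d_L1_P1⟩, d_L1_A0⟩, d_L1_L0⟩, d_L1_A1⟩ := cc12
  have e1 := disjoint_of_labs d_LT_LG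
  have e2 := disjoint_of_labs d_L0_LT.symm
  have e3 := disjoint_of_labs d_L1_LT.symm
  have e4 := disjoint_of_labs d_L0_LG.symm
  have e5 := disjoint_of_labs d_L1_LG.symm
  have e6 := disjoint_of_labs d_L1_L0.symm
  exact ⟨e1, disjoint_union_left.2 ⟨e2, e4⟩, disjoint_union_left.2 ⟨disjoint_union_left.2 ⟨e3, e5⟩, e6⟩,
    e2, e3, e4, e5, e6⟩

private theorem ab1_cardD (c : ab1Cfg N R T AT DT DG Z1 π P A' D' z1 h M ζ β ε) :
    (ab1_D DT DG D').card = DT.card + DG.card + (D' 0).card + (D' 1).card ∧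
    T.card + AT.card = 2 * DT.card := by
  have d_T_R := c.c1
  have cc2 := c.c2
  simp only [disjoint_union_right] at cc2
  obtain ⟨d_LG_R, d_LG_T⟩ := cc2
  have cc3 := c.c3
  simp only [disjoint_union_right] at cc3
  obtain ⟨⟨d_Z0_R, d_Z0_T⟩, d_Z0_LG⟩ := cc3
  have cc4 := c.c4
  simp only [disjoint_union_right] at cc4
  obtain ⟨⟨⟨d_Z1_R, d_Z1_T⟩, d_Z1_LG⟩, d_Z1_Z0⟩ := cc4
  have cc5 := c.c5
  simp only [disjoint_union_right] at cc5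
  obtain ⟨⟨⟨⟨d_AT_R, d_AT_T⟩, d_AT_LG⟩, d_AT_Z0⟩, d_AT_Z1⟩ := cc5
  have cc6 := c.c6
  simp only [disjoint_union_right] at cc6
  obtain ⟨⟨⟨⟨⟨d_LT_R, d_LT_T⟩, d_LT_LG⟩, d_LT_Z0⟩, d_LT_Z1⟩, d_LT_AT⟩ := cc6
  have cc7 := c.c7
  simp only [disjoint_union_right] at cc7
  obtain ⟨⟨⟨⟨⟨⟨d_P0_R, d_P0_T⟩, d_P0_LG⟩, d_P0_Z0⟩, d_P0_Z1⟩, d_P0_AT⟩, d_P0_LT⟩ := cc7
  have cc8 := c.c8
  simp only [disjoint_union_right] at cc8
  obtain ⟨⟨⟨⟨⟨⟨⟨d_P1_R, d_P1_T⟩, d_P1_LG⟩, d_P1_Z0⟩, d_P1_Z1⟩, d_P1_AT⟩, d_P1_LT⟩, d_P1_P0⟩ := cc8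
  have cc9 := c.c9
  simp only [disjoint_union_right] at cc9
  obtain ⟨⟨⟨⟨⟨⟨⟨⟨d_A0_R, d_A0_T⟩, d_A0_LG⟩, d_A0_Z0⟩, d_A0_Z1⟩, d_A0_AT⟩, d_A0_LT⟩, d_A0_P0⟩, d_A0_P1⟩ := cc9
  have cc10 := c.c10
  simp only [disjoint_union_right] at cc10
  obtain ⟨⟨⟨⟨⟨⟨⟨⟨⟨d_L0_R, d_L0_T⟩, d_L0_LG⟩, d_L0_Z0⟩, d_L0_Z1⟩, d_L0_AT⟩, d_L0_LT⟩, d_L0_P0⟩, d_L0_P1⟩, d_L0_A0⟩ := cc10
  have cc11 := c.c11
  simp only [disjoint_union_right] at cc11
  obtain ⟨⟨⟨⟨⟨⟨⟨⟨⟨⟨d_A1_R, d_A1_T⟩, d_A1_LG⟩, d_A1_Z0⟩, d_A1_Z1⟩, d_A1_AT⟩, d_A1_LT⟩, d_A1_P0⟩, d_A1_P1⟩, d_A1_A0⟩, d_A1_L0⟩ := cc11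
  have cc12 := c.c12
  simp only [disjoint_union_right] at cc12
  obtain ⟨⟨⟨⟨⟨⟨⟨⟨⟨⟨⟨d_L1_R, d_L1_T⟩, d_L1_LG⟩, d_L1_Z0⟩, d_L1_Z1⟩, d_L1_AT⟩, d_L1_LT⟩, d_L1_P0⟩, d_L1_P1⟩, d_L1_A0⟩, d_L1_L0⟩, d_L1_A1⟩ := cc12
  obtain ⟨e1, e2, e3, -⟩ := ab1_disD c
  refine ⟨?_, ?_⟩
  · unfold ab1_D
    rw [card_union_of_disjoint e3, card_union_of_disjoint e2, card_union_of_disjoint e1]
  · have h1 := block_card c.DT_m
    rw [card_union_of_disjoint d_AT_T.symm] at h1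
    omega

private theorem ab1_2card (c : ab1Cfg N R T AT DT DG Z1 π P A' D' z1 h M ζ β ε) :
    2 * (ab1_D DT DG D').card = (ab1_A T AT Z1 P A').card + 2 * h := by
  obtain ⟨h1, h2⟩ := ab1_cardD c
  have h3 := ab1_cardA c
  have h4 := c.D_card 0 (by norm_num)
  have h5 := c.D_card 1 (by norm_num)
  have h6 := c.M_eq
  omega

private theorem ab1_labs (DT DG : Finset (ℕ × ℕ)) (D' : ℕ → Finset (ℕ × ℕ)) :
    labs (ab1_D DT DG D') = labs DT ∪ labs DG ∪ labs (D' 0) ∪ labs (D' 1) := by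
  unfold ab1_D
  rw [labs_union, labs_union, labs_union]

private theorem ab1_unit (c : ab1Cfg N R T AT DT DG Z1 π P A' D' z1 h M ζ β ε) :
    UnitOK 1 (ab1_D DT DG D') := by
  have d_T_R := c.c1
  have cc2 := c.c2
  simp only [disjoint_union_right] at cc2
  obtain ⟨d_LG_R, d_LG_T⟩ := cc2
  have cc3 := c.c3
  simp only [disjoint_union_right] at cc3
  obtain ⟨⟨d_Z0_R, d_Z0_T⟩, d_Z0_LG⟩ := cc3
  have cc4 := c.c4
  simp only [disjoint_union_right] at cc4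
  obtain ⟨⟨⟨d_Z1_R, d_Z1_T⟩, d_Z1_LG⟩, d_Z1_Z0⟩ := cc4
  have cc5 := c.c5
  simp only [disjoint_union_right] at cc5
  obtain ⟨⟨⟨⟨d_AT_R, d_AT_T⟩, d_AT_LG⟩, d_AT_Z0⟩, d_AT_Z1⟩ := cc5
  have cc6 := c.c6
  simp only [disjoint_union_right] at cc6
  obtain ⟨⟨⟨⟨⟨d_LT_R, d_LT_T⟩, d_LT_LG⟩, d_LT_Z0⟩, d_LT_Z1⟩, d_LT_AT⟩ := cc6
  have cc7 := c.c7
  simp only [disjoint_union_right] at cc7
  obtain ⟨⟨⟨⟨⟨⟨d_P0_R, d_P0_T⟩, d_P0_LG⟩, d_P0_Z0⟩, d_P0_Z1⟩, d_P0_AT⟩, d_P0_LT⟩ := cc7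
  have cc8 := c.c8
  simp only [disjoint_union_right] at cc8
  obtain ⟨⟨⟨⟨⟨⟨⟨d_P1_R, d_P1_T⟩, d_P1_LG⟩, d_P1_Z0⟩, d_P1_Z1⟩, d_P1_AT⟩, d_P1_LT⟩, d_P1_P0⟩ := cc8
  have cc9 := c.c9
  simp only [disjoint_union_right] at cc9
  obtain ⟨⟨⟨⟨⟨⟨⟨⟨d_A0_R, d_A0_T⟩, d_A0_LG⟩, d_A0_Z0⟩, d_A0_Z1⟩, d_A0_AT⟩, d_A0_LT⟩, d_A0_P0⟩, d_A0_P1⟩ := cc9
  have cc10 := c.c10
  simp only [disjoint_union_right] at cc10
  obtain ⟨⟨⟨⟨⟨⟨⟨⟨⟨d_L0_R, d_L0_T⟩, d_L0_LG⟩, d_L0_Z0⟩, d_L0_Z1⟩, d_L0_AT⟩, d_L0_LT⟩, d_L0_P0⟩, d_L0_P1⟩, d_L0_A0⟩ := cc10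
  have cc11 := c.c11
  simp only [disjoint_union_right] at cc11
  obtain ⟨⟨⟨⟨⟨⟨⟨⟨⟨⟨d_A1_R, d_A1_T⟩, d_A1_LG⟩, d_A1_Z0⟩, d_A1_Z1⟩, d_A1_AT⟩, d_A1_LT⟩, d_A1_P0⟩, d_A1_P1⟩, d_A1_A0⟩, d_A1_L0⟩ := cc11
  have cc12 := c.c12
  simp only [disjoint_union_right] at cc12
  obtain ⟨⟨⟨⟨⟨⟨⟨⟨⟨⟨⟨d_L1_R, d_L1_T⟩, d_L1_LG⟩, d_L1_Z0⟩, d_L1_Z1⟩, d_L1_AT⟩, d_L1_LT⟩, d_L1_P0⟩, d_L1_P1⟩, d_L1_A0⟩, d_L1_L0⟩, d_L1_A1⟩ := cc12
  unfold ab1_D
  refine unitOK_union (unitOK_union (unitOK_union c.DT_ok c.sys.DG_ok ?_) (c.D_ok 0 (by norm_num)) ?_)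
    (c.D_ok 1 (by norm_num)) ?_
  · exact d_LT_LG
  · rw [labs_union]
    exact (disjoint_union_left.2 ⟨d_L0_LT.symm, d_L0_LG.symm⟩)
  · rw [labs_union, labs_union]
    exact (disjoint_union_left.2 ⟨(disjoint_union_left.2 ⟨d_L1_LT.symm, d_L1_LG.symm⟩), d_L1_L0.symm⟩)

private theorem ab1_dis (c : ab1Cfg N R T AT DT DG Z1 π P A' D' z1 h M ζ β ε) :
    Disjoint (ab1_A T AT Z1 P A') (labs (ab1_D DT DG D')) ∧ Disjoint (ab1_A T AT Z1 P A') R ∧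
      Disjoint (labs (ab1_D DT DG D')) R := by
  have d_T_R := c.c1
  have cc2 := c.c2
  simp only [disjoint_union_right] at cc2
  obtain ⟨d_LG_R, d_LG_T⟩ := cc2
  have cc3 := c.c3
  simp only [disjoint_union_right] at cc3
  obtain ⟨⟨d_Z0_R, d_Z0_T⟩, d_Z0_LG⟩ := cc3
  have cc4 := c.c4
  simp only [disjoint_union_right] at cc4
  obtain ⟨⟨⟨d_Z1_R, d_Z1_T⟩, d_Z1_LG⟩, d_Z1_Z0⟩ := cc4
  have cc5 := c.c5
  simp only [disjoint_union_right] at cc5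
  obtain ⟨⟨⟨⟨d_AT_R, d_AT_T⟩, d_AT_LG⟩, d_AT_Z0⟩, d_AT_Z1⟩ := cc5
  have cc6 := c.c6
  simp only [disjoint_union_right] at cc6
  obtain ⟨⟨⟨⟨⟨d_LT_R, d_LT_T⟩, d_LT_LG⟩, d_LT_Z0⟩, d_LT_Z1⟩, d_LT_AT⟩ := cc6
  have cc7 := c.c7
  simp only [disjoint_union_right] at cc7
  obtain ⟨⟨⟨⟨⟨⟨d_P0_R, d_P0_T⟩, d_P0_LG⟩, d_P0_Z0⟩, d_P0_Z1⟩, d_P0_AT⟩, d_P0_LT⟩ := cc7
  have cc8 := c.c8
  simp only [disjoint_union_right] at cc8
  obtain ⟨⟨⟨⟨⟨⟨⟨d_P1_R, d_P1_T⟩, d_P1_LG⟩, d_P1_Z0⟩, d_P1_Z1⟩, d_P1_AT⟩, d_P1_LT⟩, d_P1_P0⟩ := cc8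
  have cc9 := c.c9
  simp only [disjoint_union_right] at cc9
  obtain ⟨⟨⟨⟨⟨⟨⟨⟨d_A0_R, d_A0_T⟩, d_A0_LG⟩, d_A0_Z0⟩, d_A0_Z1⟩, d_A0_AT⟩, d_A0_LT⟩, d_A0_P0⟩, d_A0_P1⟩ := cc9
  have cc10 := c.c10
  simp only [disjoint_union_right] at cc10
  obtain ⟨⟨⟨⟨⟨⟨⟨⟨⟨d_L0_R, d_L0_T⟩, d_L0_LG⟩, d_L0_Z0⟩, d_L0_Z1⟩, d_L0_AT⟩, d_L0_LT⟩, d_L0_P0⟩, d_L0_P1⟩, d_L0_A0⟩ := cc10
  have cc11 := c.c11
  simp only [disjoint_union_right] at cc11
  obtain ⟨⟨⟨⟨⟨⟨⟨⟨⟨⟨d_A1_R, d_A1_T⟩, d_A1_LG⟩, d_A1_Z0⟩, d_A1_Z1⟩, d_A1_AT⟩, d_A1_LT⟩, d_A1_P0⟩, d_A1_P1⟩, d_A1_A0⟩, d_A1_L0⟩ := cc11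
  have cc12 := c.c12
  simp only [disjoint_union_right] at cc12
  obtain ⟨⟨⟨⟨⟨⟨⟨⟨⟨⟨⟨d_L1_R, d_L1_T⟩, d_L1_LG⟩, d_L1_Z0⟩, d_L1_Z1⟩, d_L1_AT⟩, d_L1_LT⟩, d_L1_P0⟩, d_L1_P1⟩, d_L1_A0⟩, d_L1_L0⟩, d_L1_A1⟩ := cc12
  rw [ab1_labs]
  unfold ab1_A
  exact ⟨(disjoint_union_left.2 ⟨(disjoint_union_left.2 ⟨(disjoint_union_left.2 ⟨(disjoint_union_left.2 ⟨(disjoint_union_left.2 ⟨(disjoint_union_right.2 ⟨(disjoint_union_right.2 ⟨(disjoint_union_right.2 ⟨d_LT_T.symm, d_LG_T.symm⟩), d_L0_T.symm⟩), d_L1_T.symm⟩), (disjoint_union_right.2 ⟨(disjoint_union_right.2 ⟨(disjoint_union_right.2 ⟨d_LT_AT.symm, d_AT_LG⟩), d_L0_AT.symm⟩), d_L1_AT.symm⟩)⟩), (disjoint_union_left.2 ⟨(disjoint_union_right.2 ⟨(disjoint_union_right.2 ⟨(disjoint_union_right.2 ⟨d_LT_Z0.symm, d_Z0_LG⟩), d_L0_Z0.symm⟩), d_L1_Z0.symm⟩), (disjoint_union_right.2 ⟨(disjoint_union_right.2 ⟨(disjoint_union_right.2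 ⟨d_P0_LT, d_P0_LG⟩), d_L0_P0.symm⟩), d_L1_P0.symm⟩)⟩)⟩), (disjoint_union_left.2 ⟨(disjoint_union_right.2 ⟨(disjoint_union_right.2 ⟨(disjoint_union_right.2 ⟨d_LT_Z1.symm, d_Z1_LG⟩), d_L0_Z1.symm⟩), d_L1_Z1.symm⟩), (disjoint_union_right.2 ⟨(disjoint_union_right.2 ⟨(disjoint_union_right.2 ⟨d_P1_LT, d_P1_LG⟩), d_L0_P1.symm⟩), d_L1_P1.symm⟩)⟩)⟩), (disjoint_union_right.2 ⟨(disjoint_union_right.2 ⟨(disjoint_union_right.2 ⟨d_A0_LT, d_A0_LG⟩), d_L0_A0.symm⟩), d_L1_A0.symm⟩)⟩), (disjoint_union_right.2 ⟨(disjoint_union_right.2 ⟨(disjoint_union_right.2 ⟨d_A1_LT, d_A1_LG⟩), d_A1_L0⟩), d_L1_A1.symm⟩)⟩),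
    (disjoint_union_left.2 ⟨(disjoint_union_left.2 ⟨(disjoint_union_left.2 ⟨(disjoint_union_left.2 ⟨(disjoint_union_left.2 ⟨d_T_R, d_AT_R⟩), (disjoint_union_left.2 ⟨d_Z0_R, d_P0_R⟩)⟩), (disjoint_union_left.2 ⟨d_Z1_R, d_P1_R⟩)⟩), d_A0_R⟩), d_A1_R⟩),
    (disjoint_union_left.2 ⟨(disjoint_union_left.2 ⟨(disjoint_union_left.2 ⟨d_LT_R, d_LG_R⟩), d_L0_R⟩), d_L1_R⟩)⟩

private theorem ab1_sub (c : ab1Cfg N R T AT DT DG Z1 π P A' D' z1 h M ζ β ε) :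
    ab1_A T AT Z1 P A' ⊆ Icc 1 N ∧ labs (ab1_D DT DG D') ⊆ Icc 1 N := by
  rw [ab1_labs]
  unfold ab1_A
  refine ⟨union_subset (union_subset (union_subset (union_subset (union_subset ?_ c.AT_sub)
    (union_subset (c.sys.Z1_sub 0 (by norm_num)) (c.P_sub 0 (by norm_num))))
    (union_subset (c.sys.Z1_sub 1 (by norm_num)) (c.P_sub 1 (by norm_num))))
    (c.A_sub 0 (by norm_num))) (c.A_sub 1 (by norm_num)),
    union_subset (union_subset (union_subset c.DT_sub c.sys.DG_sub) (c.D_sub 0 (by norm_num)))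
      (c.D_sub 1 (by norm_num))⟩
  exact fun x hx => ((c.T_mem x).1 hx).1

/-- parity of the robust absorbers -/
private theorem ab1_parD (c : ab1Cfg N R T AT DT DG Z1 π P A' D' z1 h M ζ β ε) {σ : ℕ} (hσ : σ < 2)
    (hd : Disjoint (A' σ) (Z1 σ ∪ P σ)) (hd' : Disjoint (Z1 σ) (P σ)) :
    (∑ x ∈ A' σ, x + ∑ x ∈ labs (D' σ), x + σ * M) % 2 = 0 := by
  have h1 : M ≤ (Z1 σ ∪ P σ).card := by
    rw [card_union_of_disjoint hd', (ab1_P c hσ).1, c.sys.Z1_card σ hσ]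
    have h2 := c.M_eq
    have h3 := c.h_le
    omega
  obtain ⟨Z', hZ', hc⟩ := exists_subset_card_eq h1
  have h2 := block_parity (c.D_ok σ hσ) (c.D_m σ hσ Z' hZ' hc)
  rw [sum_union (hd.mono_right hZ')] at h2
  have h3 : (∑ x ∈ Z', x) % 2 = (σ * Z'.card) % 2 := by
    refine ab1_par fun x hx => ?_
    rcases mem_union.1 (hZ' hx) with hx | hx
    · exact c.sys.Z1_cls σ hσ x hx
    · exact (ab1_P c hσ).2 x hx
  rw [hc] at h3
  generalize σ * M = q at h3 ⊢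
  omega

/-- parity of the numbers of odd and even elements of `J` -/
private theorem ab1_parJ (c : ab1Cfg N R T AT DT DG Z1 π P A' D' z1 h M ζ β ε) (J : Finset ℕ)
    (hpar : (∑ x ∈ ab1_A T AT Z1 P A', x + ∑ x ∈ J, x + ∑ x ∈ labs (ab1_D DT DG D'), x) % 2 = 0) :
    ((J.filter (fun u => cls 1 u = 1)).card + DG.card + h) % 2 = 0 := by
  have d_T_R := c.c1
  have cc2 := c.c2
  simp only [disjoint_union_right] at cc2
  obtain ⟨d_LG_R, d_LG_T⟩ := cc2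
  have cc3 := c.c3
  simp only [disjoint_union_right] at cc3
  obtain ⟨⟨d_Z0_R, d_Z0_T⟩, d_Z0_LG⟩ := cc3
  have cc4 := c.c4
  simp only [disjoint_union_right] at cc4
  obtain ⟨⟨⟨d_Z1_R, d_Z1_T⟩, d_Z1_LG⟩, d_Z1_Z0⟩ := cc4
  have cc5 := c.c5
  simp only [disjoint_union_right] at cc5
  obtain ⟨⟨⟨⟨d_AT_R, d_AT_T⟩, d_AT_LG⟩, d_AT_Z0⟩, d_AT_Z1⟩ := cc5
  have cc6 := c.c6
  simp only [disjoint_union_right] at cc6
  obtain ⟨⟨⟨⟨⟨d_LT_R, d_LT_T⟩, d_LT_LG⟩, d_LT_Z0⟩, d_LT_Z1⟩, d_LT_AT⟩ := cc6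
  have cc7 := c.c7
  simp only [disjoint_union_right] at cc7
  obtain ⟨⟨⟨⟨⟨⟨d_P0_R, d_P0_T⟩, d_P0_LG⟩, d_P0_Z0⟩, d_P0_Z1⟩, d_P0_AT⟩, d_P0_LT⟩ := cc7
  have cc8 := c.c8
  simp only [disjoint_union_right] at cc8
  obtain ⟨⟨⟨⟨⟨⟨⟨d_P1_R, d_P1_T⟩, d_P1_LG⟩, d_P1_Z0⟩, d_P1_Z1⟩, d_P1_AT⟩, d_P1_LT⟩, d_P1_P0⟩ := cc8
  have cc9 := c.c9
  simp only [disjoint_union_right] at cc9
  obtain ⟨⟨⟨⟨⟨⟨⟨⟨d_A0_R, d_A0_T⟩, d_A0_LG⟩, d_A0_Z0⟩, d_A0_Z1⟩, d_A0_AT⟩, d_A0_LT⟩, d_A0_P0⟩, d_A0_P1⟩ := cc9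
  have cc10 := c.c10
  simp only [disjoint_union_right] at cc10
  obtain ⟨⟨⟨⟨⟨⟨⟨⟨⟨d_L0_R, d_L0_T⟩, d_L0_LG⟩, d_L0_Z0⟩, d_L0_Z1⟩, d_L0_AT⟩, d_L0_LT⟩, d_L0_P0⟩, d_L0_P1⟩, d_L0_A0⟩ := cc10
  have cc11 := c.c11
  simp only [disjoint_union_right] at cc11
  obtain ⟨⟨⟨⟨⟨⟨⟨⟨⟨⟨d_A1_R, d_A1_T⟩, d_A1_LG⟩, d_A1_Z0⟩, d_A1_Z1⟩, d_A1_AT⟩, d_A1_LT⟩, d_A1_P0⟩, d_A1_P1⟩, d_A1_A0⟩, d_A1_L0⟩ := cc11
  have cc12 := c.c12
  simp only [disjoint_union_right] at cc12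
  obtain ⟨⟨⟨⟨⟨⟨⟨⟨⟨⟨⟨d_L1_R, d_L1_T⟩, d_L1_LG⟩, d_L1_Z0⟩, d_L1_Z1⟩, d_L1_AT⟩, d_L1_LT⟩, d_L1_P0⟩, d_L1_P1⟩, d_L1_A0⟩, d_L1_L0⟩, d_L1_A1⟩ := cc12
  have p0 := ab1_parD c (σ := 0) (by norm_num) (disjoint_union_right.2 ⟨d_A0_Z0, d_A0_P0⟩) d_P0_Z0.symm
  have p1 := ab1_parD c (σ := 1) (by norm_num) (disjoint_union_right.2 ⟨d_A1_Z1, d_A1_P1⟩) d_P1_Z1.symm
  have pT := block_parity c.DT_ok c.DT_m
  rw [sum_union d_AT_T.symm] at pT
  have pG : (∑ x ∈ labs DG, x) % 2 = (0 * (labs DG).card) % 2 := by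
    refine ab1_par fun x hx => ?_
    obtain ⟨d, hd, hx⟩ := mem_labs.1 hx
    have h1 := (c.sys.DG_big d hd).2.1 rfl
    rw [ab1_cls]
    rcases hx with rfl | rfl
    · exact h1.2
    · rw [h1.1]
      exact h1.2
  have pz0 := ab1_par (c.sys.Z1_cls 0 (by norm_num))
  have pz1 := ab1_par (c.sys.Z1_cls 1 (by norm_num))
  have pp0 := ab1_par (ab1_P c (σ := 0) (by norm_num)).2
  have pp1 := ab1_par (ab1_P c (σ := 1) (by norm_num)).2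
  rw [c.sys.Z1_card 0 (by norm_num)] at pz0
  rw [c.sys.Z1_card 1 (by norm_num)] at pz1
  rw [(ab1_P c (σ := 0) (by norm_num)).1] at pp0
  rw [(ab1_P c (σ := 1) (by norm_num)).1] at pp1
  have pJ : (∑ x ∈ J, x) % 2 = (J.filter (fun u => cls 1 u = 1)).card % 2 := by
    rw [← sum_filter_add_sum_filter_not J (fun u => cls 1 u = 1)]
    have h1 := ab1_par (X := J.filter (fun u => cls 1 u = 1)) (σ := 1) fun x hx => (mem_filter.1 hx).2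
    have h2 := ab1_par (X := J.filter (fun u => ¬ cls 1 u = 1)) (σ := 0) fun x hx => by
      have h3 := (mem_filter.1 hx).2
      rw [ab1_cls] at h3 ⊢
      omega
    rw [one_mul] at h1
    rw [zero_mul] at h2
    omega
  rw [ab1_labs] at hpar
  unfold ab1_A at hpar
  rw [sum_union (disjoint_union_left.2 ⟨(disjoint_union_left.2 ⟨(disjoint_union_left.2 ⟨(disjoint_union_left.2 ⟨d_A1_T.symm, d_A1_AT.symm⟩), (disjoint_union_left.2 ⟨d_A1_Z0.symm, d_A1_P0.symm⟩)⟩), (disjoint_union_left.2 ⟨d_A1_Z1.symm, d_A1_P1.symm⟩)⟩), d_A1_A0.symm⟩),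
    sum_union (disjoint_union_left.2 ⟨(disjoint_union_left.2 ⟨(disjoint_union_left.2 ⟨d_A0_T.symm, d_A0_AT.symm⟩), (disjoint_union_left.2 ⟨d_A0_Z0.symm, d_A0_P0.symm⟩)⟩), (disjoint_union_left.2 ⟨d_A0_Z1.symm, d_A0_P1.symm⟩)⟩),
    sum_union (disjoint_union_left.2 ⟨(disjoint_union_left.2 ⟨(disjoint_union_right.2 ⟨d_Z1_T.symm, d_P1_T.symm⟩), (disjoint_union_right.2 ⟨d_AT_Z1, d_P1_AT.symm⟩)⟩), (disjoint_union_left.2 ⟨(disjoint_union_right.2 ⟨d_Z1_Z0.symm, d_P1_Z0.symm⟩), (disjoint_union_right.2 ⟨d_P0_Z1, d_P1_P0.symm⟩)⟩)⟩),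
    sum_union (disjoint_union_left.2 ⟨(disjoint_union_right.2 ⟨d_Z0_T.symm, d_P0_T.symm⟩), (disjoint_union_right.2 ⟨d_AT_Z0, d_P0_AT.symm⟩)⟩),
    sum_union d_AT_T.symm,
    sum_union d_P0_Z0.symm,
    sum_union d_P1_Z1.symm,
    sum_union (disjoint_union_left.2 ⟨(disjoint_union_left.2 ⟨d_L1_LT.symm, d_L1_LG.symm⟩), d_L1_L0.symm⟩),
    sum_union (disjoint_union_left.2 ⟨d_L0_LT.symm, d_L0_LG.symm⟩),
    sum_union d_LT_LG] at hpar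
  have hM := c.M_eq
  generalize ∑ x ∈ T, x = s1 at *
  generalize ∑ x ∈ AT, x = s2 at *
  generalize ∑ x ∈ labs DT, x = s3 at *
  generalize ∑ x ∈ labs DG, x = s4 at *
  generalize ∑ x ∈ Z1 0, x = s5 at *
  generalize ∑ x ∈ Z1 1, x = s6 at *
  generalize ∑ x ∈ P 0, x = s7 at *
  generalize ∑ x ∈ P 1, x = s8 at *
  generalize ∑ x ∈ A' 0, x = s9 at *
  generalize ∑ x ∈ A' 1, x = s10 at *
  generalize ∑ x ∈ labs (D' 0), x = s11 at *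
  generalize ∑ x ∈ labs (D' 1), x = s12 at *
  generalize ∑ x ∈ J, x = s13 at *
  generalize (J.filter (fun u => cls 1 u = 1)).card = j1 at *
  have q0 : (s9 + s11) % 2 = 0 := by rw [zero_mul, add_zero] at p0; exact p0
  have q1 : (s10 + s12 + M) % 2 = 0 := by rw [one_mul] at p1; exact p1
  have q2 : s5 % 2 = 0 := by rw [zero_mul] at pz0; exact pz0
  have q3 : s7 % 2 = 0 := by rw [zero_mul] at pp0; exact pp0
  have q4 : s4 % 2 = 0 := by rw [zero_mul] at pG; exact pG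
  have q5 : s6 % 2 = z1 % 2 := by rw [one_mul] at pz1; exact pz1
  have q6 : s8 % 2 = 0 := by
    rw [one_mul] at pp1
    omega
  have q7 : (s1 + s2 + s3 + (s5 + s7) + (s6 + s8) + (s9 + s11) + (s10 + s12) + s4 + s13) % 2 = 0 := by
    clear p0 p1 pz0 pz1 pp0 pp1 pG q0 q1 q2 q3 q4 q5 q6 pJ pT
    omega
  have q8 : (s5 + s7) % 2 = 0 := by clear q7 hpar; omega
  have q9 : (s6 + s8) % 2 = z1 % 2 := by clear q7 hpar; omega
  clear hpar p0 p1 pz0 pz1 pp0 pp1 pG q2 q3 q5 q6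
  generalize s5 + s7 = a1 at *
  generalize s6 + s8 = a2 at *
  generalize s9 + s11 = a3 at *
  generalize s10 + s12 = a4 at *
  generalize s1 + s2 + s3 = a5 at *
  omega


private theorem ab1_match (c : ab1Cfg N R T AT DT DG Z1 π P A' D' z1 h M ζ β ε) (J : Finset ℕ)
    (hJ : J ⊆ Icc 1 N) (hJA : Disjoint J (ab1_A T AT Z1 P A'))
    (hcard : J.card + (ab1_A T AT Z1 P A').card = 2 * (ab1_D DT DG D').card)
    (hpar : (∑ x ∈ ab1_A T AT Z1 P A', x + ∑ x ∈ J, x + ∑ x ∈ labs (ab1_D DT DG D'), x) % 2 = 0) :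
    Matchable 1 (ab1_D DT DG D') (ab1_A T AT Z1 P A' ∪ J) := by
  have d_T_R := c.c1
  have cc2 := c.c2
  simp only [disjoint_union_right] at cc2
  obtain ⟨d_LG_R, d_LG_T⟩ := cc2
  have cc3 := c.c3
  simp only [disjoint_union_right] at cc3
  obtain ⟨⟨d_Z0_R, d_Z0_T⟩, d_Z0_LG⟩ := cc3
  have cc4 := c.c4
  simp only [disjoint_union_right] at cc4
  obtain ⟨⟨⟨d_Z1_R, d_Z1_T⟩, d_Z1_LG⟩, d_Z1_Z0⟩ := cc4
  have cc5 := c.c5
  simp only [disjoint_union_right] at cc5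
  obtain ⟨⟨⟨⟨d_AT_R, d_AT_T⟩, d_AT_LG⟩, d_AT_Z0⟩, d_AT_Z1⟩ := cc5
  have cc6 := c.c6
  simp only [disjoint_union_right] at cc6
  obtain ⟨⟨⟨⟨⟨d_LT_R, d_LT_T⟩, d_LT_LG⟩, d_LT_Z0⟩, d_LT_Z1⟩, d_LT_AT⟩ := cc6
  have cc7 := c.c7
  simp only [disjoint_union_right] at cc7
  obtain ⟨⟨⟨⟨⟨⟨d_P0_R, d_P0_T⟩, d_P0_LG⟩, d_P0_Z0⟩, d_P0_Z1⟩, d_P0_AT⟩, d_P0_LT⟩ := cc7
  have cc8 := c.c8
  simp only [disjoint_union_right] at cc8
  obtain ⟨⟨⟨⟨⟨⟨⟨d_P1_R, d_P1_T⟩, d_P1_LG⟩, d_P1_Z0⟩, d_P1_Z1⟩, d_P1_AT⟩, d_P1_LT⟩, d_P1_P0⟩ := cc8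
  have cc9 := c.c9
  simp only [disjoint_union_right] at cc9
  obtain ⟨⟨⟨⟨⟨⟨⟨⟨d_A0_R, d_A0_T⟩, d_A0_LG⟩, d_A0_Z0⟩, d_A0_Z1⟩, d_A0_AT⟩, d_A0_LT⟩, d_A0_P0⟩, d_A0_P1⟩ := cc9
  have cc10 := c.c10
  simp only [disjoint_union_right] at cc10
  obtain ⟨⟨⟨⟨⟨⟨⟨⟨⟨d_L0_R, d_L0_T⟩, d_L0_LG⟩, d_L0_Z0⟩, d_L0_Z1⟩, d_L0_AT⟩, d_L0_LT⟩, d_L0_P0⟩, d_L0_P1⟩, d_L0_A0⟩ := cc10
  have cc11 := c.c11
  simp only [disjoint_union_right] at cc11
  obtain ⟨⟨⟨⟨⟨⟨⟨⟨⟨⟨d_A1_R, d_A1_T⟩, d_A1_LG⟩, d_A1_Z0⟩, d_A1_Z1⟩, d_A1_AT⟩, d_A1_LT⟩, d_A1_P0⟩, d_A1_P1⟩, d_A1_A0⟩, d_A1_L0⟩ := cc11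
  have cc12 := c.c12
  simp only [disjoint_union_right] at cc12
  obtain ⟨⟨⟨⟨⟨⟨⟨⟨⟨⟨⟨d_L1_R, d_L1_T⟩, d_L1_LG⟩, d_L1_Z0⟩, d_L1_Z1⟩, d_L1_AT⟩, d_L1_LT⟩, d_L1_P0⟩, d_L1_P1⟩, d_L1_A0⟩, d_L1_L0⟩, d_L1_A1⟩ := cc12
  have hJ2h : J.card = 2 * h := by
    have h1 := ab1_2card c
    omega
  have hJA' := hJA
  unfold ab1_A at hJA'
  simp only [disjoint_union_right] at hJA'
  obtain ⟨⟨⟨⟨⟨dJ_T, dJ_AT⟩, dJ_Z0, dJ_P0⟩, dJ_Z1, dJ_P1⟩, dJ_A0⟩, dJ_A1⟩ := hJA'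
  obtain ⟨dj, zj, k1, k2, k3, k4⟩ := junk_assign c.sys J hJ (fun u hu => by
      by_contra hle
      exact disjoint_left.1 dJ_T hu ((c.T_mem u).2 ⟨hJ hu, not_lt.1 hle⟩)) (by
      rw [hJ2h]
      have h1 := c.h_le'
      push_cast
      linarith)
  have hcl : ∀ u, cls 1 u = 0 ∨ cls 1 u = 1 := fun u => by
    rw [ab1_cls]
    omega
  have hzJ : ∀ u ∈ J, ∀ v ∈ J, u ∉ zj v := by
    intro u hu v hv huv
    have h1 := (k3 v hv).1 huv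
    rcases hcl v with h2 | h2
    · rw [h2] at h1
      exact disjoint_left.1 dJ_Z0 hu h1
    · rw [h2] at h1
      exact disjoint_left.1 dJ_Z1 hu h1
  obtain ⟨J0, hJ0⟩ : ∃ J0, J0 = J.filter (fun u => cls 1 u = 0) := ⟨_, rfl⟩
  obtain ⟨J1, hJ1⟩ : ∃ J1, J1 = J.filter (fun u => cls 1 u = 1) := ⟨_, rfl⟩
  have hJ0s : J0 ⊆ J := by
    rw [hJ0]
    exact filter_subset _ _
  have hJ1s : J1 ⊆ J := by
    rw [hJ1]
    exact filter_subset _ _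
  have hj01 : J0.card + J1.card = 2 * h := by
    rw [← hJ2h, hJ0, hJ1, ← card_filter_add_card_filter_not (s := J) (fun u => cls 1 u = 0)]
    congr 2
    refine filter_congr fun u _ => ?_
    rcases hcl u with h1 | h1 <;> rw [h1] <;> norm_num
  have hcd : ∀ X ⊆ J, (X.biUnion zj).card = X.card := by
    intro X hX
    rw [card_biUnion]
    · rw [sum_congr rfl fun u hu => (k3 u (hX hu)).2.1, sum_const, smul_eq_mul, mul_one]
    · intro u hu v hv huv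
      exact k4 u (hX hu) v (hX hv) huv
  obtain ⟨W0, eW0⟩ : ∃ W0, W0 = J0.biUnion zj := ⟨_, rfl⟩
  obtain ⟨W1, eW1⟩ : ∃ W1, W1 = J1.biUnion zj := ⟨_, rfl⟩
  have cW0 : W0.card = J0.card := by
    rw [eW0]
    exact hcd J0 hJ0s
  have cW1 : W1.card = J1.card := by
    rw [eW1]
    exact hcd J1 hJ1s
  have hW0 : W0 ⊆ Z1 0 := by
    rw [eW0]
    refine biUnion_subset.2 fun u hu => ?_
    have h1 := (k3 u (hJ0s hu)).1
    rw [hJ0] at hu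
    rwa [(mem_filter.1 hu).2] at h1
  have hW1 : W1 ⊆ Z1 1 := by
    rw [eW1]
    refine biUnion_subset.2 fun u hu => ?_
    have h1 := (k3 u (hJ1s hu)).1
    rw [hJ1] at hu
    rwa [(mem_filter.1 hu).2] at h1
  obtain ⟨DJ, eDJ⟩ : ∃ DJ : Finset (ℕ × ℕ), DJ = J.biUnion (fun u => {dj u}) := ⟨_, rfl⟩
  have hDJ : DJ ⊆ DG := by
    rw [eDJ]
    exact biUnion_subset.2 fun u hu => singleton_subset_iff.2 (k1 u hu)
  have mJ : Matchable 1 DJ (J ∪ W0 ∪ W1) := by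
    have h1 : Matchable 1 (J.biUnion (fun u => {dj u})) (J.biUnion (fun u => insert u (zj u))) := by
      refine matchable_biUnion J _ _ (fun u hu => matchable_single (k3 u hu).2.2.2) ?_ ?_
      · intro u hu v hv huv
        exact disjoint_singleton.2 (k2 u hu v hv huv)
      · intro u hu v hv huv
        rw [disjoint_insert_left, disjoint_insert_right, mem_insert]
        exact ⟨fun h2 => h2.elim huv (hzJ u hu v hv), hzJ v hv u hu, k4 u hu v hv huv⟩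
    have h2 : J.biUnion (fun u => insert u (zj u)) = J ∪ W0 ∪ W1 := by
      ext x
      simp only [mem_biUnion, mem_insert, mem_union, eW0, eW1, hJ0, hJ1, mem_filter]
      constructor
      · rintro ⟨u, hu, rfl | hx⟩
        · exact Or.inl (Or.inl hu)
        · rcases hcl u with h3 | h3
          · exact Or.inl (Or.inr ⟨u, ⟨hu, h3⟩, hx⟩)
          · exact Or.inr ⟨u, ⟨hu, h3⟩, hx⟩
      · rintro ((hx | ⟨u, ⟨hu, -⟩, hx⟩) | ⟨u, ⟨hu, -⟩, hx⟩)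
        · exact ⟨x, hx, Or.inl rfl⟩
        · exact ⟨u, hu, Or.inr hx⟩
        · exact ⟨u, hu, Or.inr hx⟩
    rw [← eDJ, h2] at h1
    exact h1
  have cDJ : DJ.card = 2 * h := by
    have h1 := block_card mJ
    rw [card_union_of_disjoint (disjoint_union_left.2 ⟨(dJ_Z1.mono_right hW1), ((d_Z1_Z0.symm).mono hW0 hW1)⟩), card_union_of_disjoint (dJ_Z0.mono_right hW0), cW0, cW1] at h1
    omega
  have hp := ab1_parJ c J hpar
  rw [← hJ1] at hp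
  have hle := c.h_le
  have cDR : (DG \ DJ).card = DG.card - 2 * h := by rw [card_sdiff_of_subset hDJ, cDJ]
  obtain ⟨y0, hy0⟩ : ∃ y0, 2 * y0 + J0.card = DG.card - h :=
    ⟨(DG.card - h - J0.card) / 2, by omega⟩
  obtain ⟨E0, hE0R, cE0⟩ := exists_subset_card_eq (show y0 ≤ (DG \ DJ).card by omega)
  obtain ⟨E1, eE1⟩ : ∃ E1, E1 = (DG \ DJ) \ E0 := ⟨_, rfl⟩
  have cE1 : E1.card = DG.card - 2 * h - y0 := by rw [eE1, card_sdiff_of_subset hE0R, cDR, cE0]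
  have hE1R : E1 ⊆ DG \ DJ := by
    rw [eE1]
    exact sdiff_subset
  have hE0 : E0 ⊆ DG := hE0R.trans sdiff_subset
  have hE1 : E1 ⊆ DG := hE1R.trans sdiff_subset
  have hJE0 : Disjoint DJ E0 := disjoint_sdiff.mono_right hE0R
  have hJE1 : Disjoint DJ E1 := disjoint_sdiff.mono_right hE1R
  have hE01 : Disjoint E0 E1 := by
    rw [eE1]
    exact disjoint_sdiff
  obtain ⟨m0, cQ0, hQ0⟩ := ab1_E c (σ := 0) (by norm_num) hE0
  obtain ⟨m1, cQ1, hQ1⟩ := ab1_E c (σ := 1) (by norm_num) hE1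
  obtain ⟨Q0, eQ0⟩ : ∃ Q0, Q0 = E0.biUnion (π 0) := ⟨_, rfl⟩
  obtain ⟨Q1, eQ1⟩ : ∃ Q1, Q1 = E1.biUnion (π 1) := ⟨_, rfl⟩
  rw [← eQ0] at m0 cQ0 hQ0
  rw [← eQ1] at m1 cQ1 hQ1
  have cZ0 := c.sys.Z1_card 0 (by norm_num)
  have cZ1 := c.sys.Z1_card 1 (by norm_num)
  have cP0 := (ab1_P c (σ := 0) (by norm_num)).1
  have cP1 := (ab1_P c (σ := 1) (by norm_num)).1
  have hM := c.M_eq
  have hz1 := c.sys.DG_z1
  have lW0 := card_le_card hW0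
  have lW1 := card_le_card hW1
  have mV0 : Matchable 1 (D' 0) (A' 0 ∪ (Z1 0 \ W0 ∪ P 0 \ Q0)) := by
    refine c.D_m 0 (by norm_num) _ (union_subset_union sdiff_subset sdiff_subset) ?_
    rw [card_union_of_disjoint (d_P0_Z0.symm.mono sdiff_subset sdiff_subset),
      card_sdiff_of_subset hW0, card_sdiff_of_subset hQ0, cZ0, cP0, cQ0, cW0, cE0, hM]
    omega
  have mV1 : Matchable 1 (D' 1) (A' 1 ∪ (Z1 1 \ W1 ∪ P 1 \ Q1)) := by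
    refine c.D_m 1 (by norm_num) _ (union_subset_union sdiff_subset sdiff_subset) ?_
    rw [card_union_of_disjoint (d_P1_Z1.symm.mono sdiff_subset sdiff_subset),
      card_sdiff_of_subset hW1, card_sdiff_of_subset hQ1, cZ1, cP1, cQ1, cW1, cE1, hM]
    omega
  obtain ⟨e1, -, -, e2, e3, e4, e5, e6⟩ := ab1_disD c
  have n1 := matchable_union c.DT_m mJ (e1.mono_right hDJ)
    (disjoint_union_left.2 ⟨(disjoint_union_right.2 ⟨(disjoint_union_right.2 ⟨(dJ_T.symm.mono_left (Subset.refl _)), ((d_Z0_T.symm).mono (Subset.refl _) hW0)⟩), ((d_Z1_T.symm).mono (Subset.refl _) hW1)⟩), (disjoint_union_right.2 ⟨(disjoint_union_right.2 ⟨(dJ_AT.symm.mono_left (Subset.refl _)), ((d_AT_Z0).mono (Subset.refl _) hW0)⟩), ((d_AT_Z1).mono (Subset.refl _) hW1)⟩)⟩)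
  have n2 := matchable_union n1 m0 (disjoint_union_left.2 ⟨(e1.mono_right hE0), hJE0⟩)
    (disjoint_union_left.2 ⟨(disjoint_union_left.2 ⟨((d_P0_T.symm).mono (Subset.refl _) hQ0), ((d_P0_AT.symm).mono (Subset.refl _) hQ0)⟩), (disjoint_union_left.2 ⟨(disjoint_union_left.2 ⟨(dJ_P0.mono_right hQ0), ((d_P0_Z0.symm).mono hW0 hQ0)⟩), ((d_P0_Z1.symm).mono hW1 hQ0)⟩)⟩)
  have n3 := matchable_union n2 m1 (disjoint_union_left.2 ⟨(disjoint_union_left.2 ⟨(e1.mono_right hE1), hJE1⟩), hE01⟩)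
    (disjoint_union_left.2 ⟨(disjoint_union_left.2 ⟨(disjoint_union_left.2 ⟨((d_P1_T.symm).mono (Subset.refl _) hQ1), ((d_P1_AT.symm).mono (Subset.refl _) hQ1)⟩), (disjoint_union_left.2 ⟨(disjoint_union_left.2 ⟨(dJ_P1.mono_right hQ1), ((d_P1_Z0.symm).mono hW0 hQ1)⟩), ((d_P1_Z1.symm).mono hW1 hQ1)⟩)⟩), ((d_P1_P0.symm).mono hQ0 hQ1)⟩)
  have n4 := matchable_union n3 mV0 (disjoint_union_left.2 ⟨(disjoint_union_left.2 ⟨(disjoint_union_left.2 ⟨e2, (e4.mono_left hDJ)⟩), (e4.mono_left hE0)⟩), (e4.mono_left hE1)⟩)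
    (disjoint_union_left.2 ⟨(disjoint_union_left.2 ⟨(disjoint_union_left.2 ⟨(disjoint_union_left.2 ⟨(disjoint_union_right.2 ⟨((d_A0_T.symm).mono (Subset.refl _) (Subset.refl _)), (disjoint_union_right.2 ⟨((d_Z0_T.symm).mono (Subset.refl _) sdiff_subset), ((d_P0_T.symm).mono (Subset.refl _) sdiff_subset)⟩)⟩), (disjoint_union_right.2 ⟨((d_A0_AT.symm).mono (Subset.refl _) (Subset.refl _)), (disjoint_union_right.2 ⟨((d_AT_Z0).mono (Subset.refl _) sdiff_subset), ((d_P0_AT.symm).mono (Subset.refl _) sdiff_subset)⟩)⟩)⟩), (disjoint_union_left.2 ⟨(disjoint_union_left.2 ⟨(disjoint_union_right.2 ⟨(dJ_A0.mono_right (Subset.refl _)), (disjoint_union_right.2 ⟨(dJ_Z0.mono_right sdiff_subset), (dJ_P0.mono_right sdiff_subset)⟩)⟩), (disjoint_union_right.2 ⟨((d_A0_Z0.symm).mono hW0 (Subset.refl _)), (disjoint_union_right.2 ⟨disjoint_sdiff, ((d_P0_Z0.symm).mono hW0 sdiff_subset)⟩)⟩)⟩),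 (disjoint_union_right.2 ⟨((d_A0_Z1.symm).mono hW1 (Subset.refl _)), (disjoint_union_right.2 ⟨((d_Z1_Z0).mono hW1 sdiff_subset), ((d_P0_Z1.symm).mono hW1 sdiff_subset)⟩)⟩)⟩)⟩), (disjoint_union_right.2 ⟨((d_A0_P0.symm).mono hQ0 (Subset.refl _)), (disjoint_union_right.2 ⟨((d_P0_Z0).mono hQ0 sdiff_subset), disjoint_sdiff⟩)⟩)⟩), (disjoint_union_right.2 ⟨((d_A0_P1.symm).mono hQ1 (Subset.refl _)), (disjoint_union_right.2 ⟨((d_P1_Z0).mono hQ1 sdiff_subset), ((d_P1_P0).mono hQ1 sdiff_subset)⟩)⟩)⟩)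
  have n5 := matchable_union n4 mV1 (disjoint_union_left.2 ⟨(disjoint_union_left.2 ⟨(disjoint_union_left.2 ⟨(disjoint_union_left.2 ⟨e3, (e5.mono_left hDJ)⟩), (e5.mono_left hE0)⟩), (e5.mono_left hE1)⟩), e6⟩)
    (disjoint_union_left.2 ⟨(disjoint_union_left.2 ⟨(disjoint_union_left.2 ⟨(disjoint_union_left.2 ⟨(disjoint_union_left.2 ⟨(disjoint_union_right.2 ⟨((d_A1_T.symm).mono (Subset.refl _) (Subset.refl _)), (disjoint_union_right.2 ⟨((d_Z1_T.symm).mono (Subset.refl _) sdiff_subset), ((d_P1_T.symm).mono (Subset.refl _) sdiff_subset)⟩)⟩), (disjoint_union_right.2 ⟨((d_A1_AT.symm).mono (Subset.refl _) (Subset.refl _)), (disjoint_union_right.2 ⟨((d_AT_Z1).mono (Subset.refl _) sdiff_subset), ((d_P1_AT.symm).mono (Subset.refl _) sdiff_subset)⟩)⟩)⟩), (disjoint_union_left.2 ⟨(disjoint_union_left.2 ⟨(disjoint_union_right.2 ⟨(dJ_A1.mono_right (Subset.refl _)), (disjoint_union_right.2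 ⟨(dJ_Z1.mono_right sdiff_subset), (dJ_P1.mono_right sdiff_subset)⟩)⟩), (disjoint_union_right.2 ⟨((d_A1_Z0.symm).mono hW0 (Subset.refl _)), (disjoint_union_right.2 ⟨((d_Z1_Z0.symm).mono hW0 sdiff_subset), ((d_P1_Z0.symm).mono hW0 sdiff_subset)⟩)⟩)⟩), (disjoint_union_right.2 ⟨((d_A1_Z1.symm).mono hW1 (Subset.refl _)), (disjoint_union_right.2 ⟨disjoint_sdiff, ((d_P1_Z1.symm).mono hW1 sdiff_subset)⟩)⟩)⟩)⟩), (disjoint_union_right.2 ⟨((d_A1_P0.symm).mono hQ0 (Subset.refl _)), (disjoint_union_right.2 ⟨((d_P0_Z1).mono hQ0 sdiff_subset), ((d_P1_P0.symm).mono hQ0 sdiff_subset)⟩)⟩)⟩), (disjoint_union_right.2 ⟨((d_A1_P1.symm).mono hQ1 (Subset.refl _)), (disjoint_union_right.2 ⟨((d_P1_Z1).mono hQ1 sdiff_subset), disjoint_sdiff⟩)⟩)⟩), (disjoint_union_left.2 ⟨(disjoint_union_right.2 ⟨((d_A1_A0.symm).mono (Subset.refl _) (Subset.refl _)), (disjoint_union_right.2 ⟨((d_A0_Z1).mono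 (Subset.refl _) sdiff_subset), ((d_A0_P1).mono (Subset.refl _) sdiff_subset)⟩)⟩), (disjoint_union_left.2 ⟨(disjoint_union_right.2 ⟨((d_A1_Z0.symm).mono sdiff_subset (Subset.refl _)), (disjoint_union_right.2 ⟨((d_Z1_Z0.symm).mono sdiff_subset sdiff_subset), ((d_P1_Z0.symm).mono sdiff_subset sdiff_subset)⟩)⟩), (disjoint_union_right.2 ⟨((d_A1_P0.symm).mono sdiff_subset (Subset.refl _)), (disjoint_union_right.2 ⟨((d_P0_Z1).mono sdiff_subset sdiff_subset), ((d_P1_P0.symm).mono sdiff_subset sdiff_subset)⟩)⟩)⟩)⟩)⟩)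
  have hDeq : DT ∪ DJ ∪ E0 ∪ E1 ∪ D' 0 ∪ D' 1 = ab1_D DT DG D' := by
    unfold ab1_D
    have h1 : DJ ∪ E0 ∪ E1 = DG := by
      rw [eE1, union_assoc, union_sdiff_of_subset hE0R, union_sdiff_of_subset hDJ]
    rw [← h1]
    simp only [union_assoc]
  have hWeq : T ∪ AT ∪ (J ∪ W0 ∪ W1) ∪ Q0 ∪ Q1 ∪ (A' 0 ∪ (Z1 0 \ W0 ∪ P 0 \ Q0)) ∪
      (A' 1 ∪ (Z1 1 \ W1 ∪ P 1 \ Q1)) = ab1_A T AT Z1 P A' ∪ J := by
    unfold ab1_A
    ext x
    have i1 : x ∈ W0 → x ∈ Z1 0 := fun hx => hW0 hx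
    have i2 : x ∈ W1 → x ∈ Z1 1 := fun hx => hW1 hx
    have i3 : x ∈ Q0 → x ∈ P 0 := fun hx => hQ0 hx
    have i4 : x ∈ Q1 → x ∈ P 1 := fun hx => hQ1 hx
    simp only [mem_union, mem_sdiff]
    generalize (x ∈ W0) = w0 at *
    generalize (x ∈ W1) = w1 at *
    generalize (x ∈ Q0) = q0 at *
    generalize (x ∈ Q1) = q1 at *
    generalize (x ∈ Z1 0) = a0 at *
    generalize (x ∈ Z1 1) = a1 at *
    generalize (x ∈ P 0) = b0 at *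
    generalize (x ∈ P 1) = b1 at *
    generalize (x ∈ T) = t0 at *
    generalize (x ∈ AT) = t1 at *
    generalize (x ∈ J) = t2 at *
    generalize (x ∈ A' 0) = t3 at *
    generalize (x ∈ A' 1) = t4 at *
    clear * - i1 i2 i3 i4
    by_cases u1 : w0 <;> by_cases u2 : w1 <;> by_cases u3 : q0 <;> by_cases u4 : q1 <;>
      simp only [u1, u2, u3, u4, true_imp_iff, not_true, not_false_eq_true, and_true,
        and_false, or_false, false_or, or_true, true_or] at * <;> tauto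
  rw [hDeq, hWeq] at n5
  exact n5

end ab1


section ab1e

variable {N : ℕ} {R : Finset ℕ} {DG : Finset (ℕ × ℕ)} {Z1 : ℕ → Finset ℕ} {z1 : ℕ} {ζ β ε : ℝ}

/-- the first stages: the tiny labels and the default blocks -/
private theorem ab1_stage (sys : Sys 1 2 N R DG Z1 z1 ζ β ε) (hβ : 0 < β) (hβζ : β ≤ ζ)
    (hζε : ζ ≤ ε) (hN : 10 ^ 5 ≤ N) (hεN : 10 ^ 4 * (ε * N) ≤ N)
    (hR : (R.card : ℝ) ≤ β * N) (hR' : ∀ x ∈ R, ζ * N < x) :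
    ∃ (T AT : Finset ℕ) (DT : Finset (ℕ × ℕ)) (π : ℕ → ℕ × ℕ → Finset ℕ) (P : ℕ → Finset ℕ),
      (∀ x, x ∈ T ↔ x ∈ Icc 1 N ∧ (x : ℝ) ≤ ζ * N) ∧ (T.card : ℝ) ≤ ε * N ∧
      Matchable 1 DT (T ∪ AT) ∧ UnitOK 1 DT ∧ AT.card = T.card ∧ AT ⊆ Icc 1 N ∧
      labs DT ⊆ Icc 1 N ∧ (labs DT).card ≤ T.card ∧
      (∀ σ < 2, ∀ d ∈ DG, IsBlock 1 d (π σ d)) ∧
      (∀ σ < 2, ∀ d ∈ DG, ∀ d' ∈ DG, d ≠ d' → Disjoint (π σ d) (π σ d')) ∧
      (∀ σ < 2, ∀ d ∈ DG, ∀ x ∈ π σ d, cls 1 x = σ) ∧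
      (∀ σ < 2, P σ = DG.biUnion (π σ)) ∧ (∀ σ < 2, P σ ⊆ Icc 1 N) ∧
      (∀ σ < 2, (P σ).card ≤ 2 * DG.card) ∧
      Disjoint T R ∧ Disjoint (labs DG) (R ∪ T) ∧ Disjoint (Z1 0) (R ∪ T ∪ labs DG) ∧
      Disjoint (Z1 1) (R ∪ T ∪ labs DG ∪ Z1 0) ∧
      Disjoint AT (R ∪ T ∪ labs DG ∪ Z1 0 ∪ Z1 1) ∧
      Disjoint (labs DT) (R ∪ T ∪ labs DG ∪ Z1 0 ∪ Z1 1 ∪ AT) ∧
      Disjoint (P 0) (R ∪ T ∪ labs DG ∪ Z1 0 ∪ Z1 1 ∪ AT ∪ labs DT) ∧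
      Disjoint (P 1) (R ∪ T ∪ labs DG ∪ Z1 0 ∪ Z1 1 ∪ AT ∪ labs DT ∪ P 0) := by
  have hζ0 : 0 < ζ := lt_of_lt_of_le hβ hβζ
  have hN0 : (0 : ℝ) < N := by
    have h1 : 0 < N := by omega
    exact_mod_cast h1
  have hζN : ζ * N ≤ ε * N := mul_le_mul_of_nonneg_right hζε hN0.le
  have hβN : β * N ≤ ζ * N := mul_le_mul_of_nonneg_right hβζ hN0.le
  obtain ⟨T, eT⟩ : ∃ T, T = (Icc 1 N).filter (fun x : ℕ => (x : ℝ) ≤ ζ * N) := ⟨_, rfl⟩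
  have hTm : ∀ x, x ∈ T ↔ x ∈ Icc 1 N ∧ (x : ℝ) ≤ ζ * N := fun x => by
    rw [eT, mem_filter]
  have hTc : (T.card : ℝ) ≤ ζ * N := by
    have h1 : T ⊆ Icc 1 ⌊ζ * N⌋₊ := by
      intro x hx
      obtain ⟨h2, h3⟩ := (hTm x).1 hx
      exact mem_Icc.2 ⟨(mem_Icc.1 h2).1, Nat.le_floor h3⟩
    have h2 := card_le_card h1
    rw [Nat.card_Icc, Nat.add_sub_cancel] at h2
    have h3 : (T.card : ℝ) ≤ (⌊ζ * N⌋₊ : ℝ) := by exact_mod_cast h2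
    exact h3.trans (Nat.floor_le (by positivity))
  have hbig : ∀ X : Finset ℕ, (∀ x ∈ X, ζ * N < x) → Disjoint X T := by
    intro X hX
    rw [disjoint_left]
    intro x hx hxT
    exact absurd ((hTm x).1 hxT).2 (not_le.2 (hX x hx))
  have cTR : Disjoint T R := (hbig R hR').symm
  have cG : Disjoint (labs DG) (R ∪ T) := disjoint_union_right.2 ⟨sys.DG_R, hbig _ sys.DG_lab⟩
  have cZ0 : Disjoint (Z1 0) (R ∪ T ∪ labs DG) :=
    disjoint_union_right.2 ⟨disjoint_union_right.2 ⟨sys.Z1_R 0 (by norm_num),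
      hbig _ (sys.Z1_big 0 (by norm_num))⟩, sys.Z1_DG 0 (by norm_num)⟩
  have cZ1 : Disjoint (Z1 1) (R ∪ T ∪ labs DG ∪ Z1 0) := by
    refine disjoint_union_right.2 ⟨disjoint_union_right.2 ⟨disjoint_union_right.2
      ⟨sys.Z1_R 1 (by norm_num), hbig _ (sys.Z1_big 1 (by norm_num))⟩,
      sys.Z1_DG 1 (by norm_num)⟩, ?_⟩
    rw [disjoint_left]
    intro x hx hx'
    have h1 := sys.Z1_cls 1 (by norm_num) x hx
    have h2 := sys.Z1_cls 0 (by norm_num) x hx'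
    omega
  have cLG : (labs DG).card = DG.card := by
    have h1 := sys.DG_ok.2
    rwa [one_mul] at h1
  obtain ⟨F0, eF0⟩ : ∃ F0, F0 = R ∪ T ∪ labs DG ∪ Z1 0 ∪ Z1 1 := ⟨_, rfl⟩
  have hF0 : F0.card ≤ R.card + T.card + DG.card + z1 + z1 := by
    rw [eF0, ← cLG, ← sys.Z1_card 0 (by norm_num)]
    refine (card_union_le _ _).trans ?_
    have h5 := sys.Z1_card 1 (by norm_num)
    have h6 := sys.Z1_card 0 (by norm_num)
    have h1 := card_union_le (R ∪ T ∪ labs DG) (Z1 0)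
    have h2 := card_union_le (R ∪ T) (labs DG)
    have h3 := card_union_le R T
    omega
  have hF0r : (F0.card : ℝ) ≤ 5 * (ε * N) := by
    have h1 : (F0.card : ℝ) ≤ R.card + T.card + DG.card + z1 + z1 := by exact_mod_cast hF0
    have h2 := sys.DG_le
    have h3 := sys.z1_le
    linarith
  have hB1 : F0.card + T.card * 2 ≤ N / 1000 := by
    rw [Nat.le_div_iff_mul_le (by norm_num)]
    have h1 : (((F0.card + T.card * 2) * 1000 : ℕ) : ℝ) ≤ N := by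
      push_cast
      linarith
    exact_mod_cast h1
  obtain ⟨o, o1, o2, o3, o4⟩ := greedy (ι := ℕ) (Obj := (ℕ × ℕ) × Finset ℕ)
    (fun o => o.2 ∪ labs {o.1})
    (fun u o => o.2.card = 1 ∧ u ∉ o.2 ∧ IsBlock 1 o.1 (insert u o.2) ∧ o.2 ⊆ Icc 1 N ∧
      labs {o.1} ⊆ Icc 1 N ∧ UnitOK 1 {o.1} ∧ Disjoint (insert u o.2) (labs {o.1})) 2 (N / 1000) F0 T
    (fun u hu F' _ hF' => by
      obtain ⟨d, s, t1, t2, t3, t4, t5, t6, t7, t8, t9⟩ := tiny (Or.inl rfl) hN ((hTm u).1 hu).1 F'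
        (by rw [Nat.le_div_iff_mul_le (by norm_num)] at hF'; linarith)
      refine ⟨(d, s), ⟨t1, t2, t3, t4, t5, t6, t9⟩, disjoint_union_left.2 ⟨t7, t8⟩, ?_⟩
      refine (card_union_le _ _).trans ?_
      have h1 := t6.2
      rw [card_singleton] at h1
      rw [t1, h1])
    hB1
  obtain ⟨AT, eAT⟩ : ∃ AT, AT = T.biUnion (fun u => (o u).2) := ⟨_, rfl⟩
  obtain ⟨DT, eDT⟩ : ∃ DT : Finset (ℕ × ℕ), DT = T.biUnion (fun u => {(o u).1}) := ⟨_, rfl⟩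
  have eLT : labs DT = T.biUnion (fun u => labs {(o u).1}) := by rw [eDT, labs_biUnion]
  have hTF : T ⊆ F0 := by
    rw [eF0]
    intro x hx
    simp only [mem_union]
    exact Or.inl (Or.inl (Or.inl (Or.inr hx)))
  have o2a : ∀ u ∈ T, Disjoint (o u).2 F0 := fun u hu => (disjoint_union_left.1 (o2 u hu)).1
  have o2b : ∀ u ∈ T, Disjoint (labs {(o u).1}) F0 := fun u hu => (disjoint_union_left.1 (o2 u hu)).2
  have o3a : ∀ u ∈ T, ∀ v ∈ T, u ≠ v → Disjoint (o u).2 (o v).2 := fun u hu v hv huv =>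
    (o3 u hu v hv huv).mono subset_union_left subset_union_left
  have o3b : ∀ u ∈ T, ∀ v ∈ T, u ≠ v → Disjoint (labs {(o u).1}) (labs {(o v).1}) :=
    fun u hu v hv huv => (o3 u hu v hv huv).mono subset_union_right subset_union_right
  have o3c : ∀ u ∈ T, ∀ v ∈ T, Disjoint (labs {(o u).1}) (o v).2 := by
    intro u hu v hv
    by_cases huv : u = v
    · rw [← huv]
      exact ((o1 u hu).2.2.2.2.2.2.mono_left (subset_insert _ _)).symm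
    · exact (o3 u hu v hv huv).mono subset_union_right subset_union_left
  have mT : Matchable 1 DT (T ∪ AT) := by
    have h1 : Matchable 1 (T.biUnion (fun u => {(o u).1})) (T.biUnion (fun u => insert u (o u).2)) := by
      refine matchable_biUnion T _ _ (fun u hu => matchable_single (o1 u hu).2.2.1) ?_ ?_
      · intro u hu v hv huv
        exact disjoint_of_labs (o3b u hu v hv huv)
      · intro u hu v hv huv
        rw [disjoint_insert_left, disjoint_insert_right, mem_insert]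
        refine ⟨fun h2 => h2.elim huv fun h3 => ?_, fun h3 => ?_, o3a u hu v hv huv⟩
        · exact disjoint_left.1 (o2a v hv) h3 (hTF hu)
        · exact disjoint_left.1 (o2a u hu) h3 (hTF hv)
    have h2 : T.biUnion (fun u => insert u (o u).2) = T ∪ AT := by
      ext x
      simp only [mem_biUnion, mem_insert, mem_union, eAT]
      constructor
      · rintro ⟨u, hu, rfl | hx⟩
        · exact Or.inl hu
        · exact Or.inr ⟨u, hu, hx⟩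
      · rintro (hx | ⟨u, hu, hx⟩)
        · exact ⟨x, hx, Or.inl rfl⟩
        · exact ⟨u, hu, Or.inr hx⟩
    rw [← eDT, h2] at h1
    exact h1
  have okT : UnitOK 1 DT := by
    rw [eDT]
    exact unitOK_biUnion T _ (fun u hu => (o1 u hu).2.2.2.2.2.1) o3b
  have cAT : AT.card = T.card := by
    rw [eAT, card_biUnion]
    · rw [sum_congr rfl fun u hu => (o1 u hu).1, sum_const, smul_eq_mul, mul_one]
    · intro u hu v hv huv
      exact o3a u hu v hv huv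
  have sAT : AT ⊆ Icc 1 N := by
    rw [eAT]
    exact biUnion_subset.2 fun u hu => (o1 u hu).2.2.2.1
  have sLT : labs DT ⊆ Icc 1 N := by
    rw [eLT]
    exact biUnion_subset.2 fun u hu => (o1 u hu).2.2.2.2.1
  have cLT : (labs DT).card ≤ T.card := by
    have h1 := okT.2
    rw [one_mul] at h1
    rw [h1, eDT]
    have h2 := card_biUnion_le_card_mul T (fun u => ({(o u).1} : Finset (ℕ × ℕ))) 1
      (fun u _ => (card_singleton _).le)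
    rwa [mul_one] at h2
  have c5 : Disjoint AT F0 := by
    rw [eAT]
    exact (disjoint_biUnion_left _ _ _).2 o2a
  have c6 : Disjoint (labs DT) (F0 ∪ AT) := by
    rw [eLT]
    refine (disjoint_biUnion_left _ _ _).2 fun u hu => disjoint_union_right.2 ⟨o2b u hu, ?_⟩
    rw [eAT]
    exact (disjoint_biUnion_right _ _ _).2 fun v hv => o3c u hu v hv
  obtain ⟨F1, eF1⟩ : ∃ F1, F1 = F0 ∪ AT ∪ labs DT := ⟨_, rfl⟩
  have hF1r : (F1.card : ℝ) ≤ 7 * (ε * N) := by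
    have h1 : F1.card ≤ F0.card + T.card + T.card := by
      rw [eF1]
      have h2 := card_union_le (F0 ∪ AT) (labs DT)
      have h3 := card_union_le F0 AT
      omega
    have h4 : (F1.card : ℝ) ≤ F0.card + T.card + T.card := by exact_mod_cast h1
    linarith
  have hB2 : F1.card + (range 2 ×ˢ DG).card * 2 ≤ N / 100 := by
    rw [Nat.le_div_iff_mul_le (by norm_num), card_product, card_range]
    have h1 : (((F1.card + 2 * DG.card * 2) * 100 : ℕ) : ℝ) ≤ N := by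
      push_cast
      have h2 := sys.DG_le
      linarith
    exact_mod_cast h1
  obtain ⟨q, q1, q2, q3, q4⟩ := greedy (ι := ℕ × (ℕ × ℕ)) (Obj := Finset ℕ)
    (fun s => s)
    (fun i s => s ⊆ Icc 1 N ∧ IsBlock 1 i.2 s ∧ ∀ x ∈ s, cls 1 x = i.1) 2 (N / 100) F1
    (range 2 ×ˢ DG)
    (fun i hi F' _ hF' => by
      obtain ⟨h1, h2⟩ := mem_product.1 hi
      obtain ⟨h3, h4, -⟩ := sys.DG_big i.2 h2
      obtain ⟨h5, h6⟩ := h4 rfl
      have h7 : i.2.1 ≤ N := (mem_Icc.1 (sys.DG_sub (mem_labs.2 ⟨i.2, h2, Or.inl rfl⟩))).2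
      obtain ⟨s, s1, s2, s3, s4⟩ := dflt1 (by omega) h3 h7 h6 (mem_range.1 h1) F'
        (by rw [Nat.le_div_iff_mul_le (by norm_num)] at hF'; linarith)
      have h8 : i.2 = (i.2.1, i.2.1) := Prod.ext rfl h5
      rw [← h8] at s2
      exact ⟨s, ⟨s1, s2, s4⟩, s3, s2.choose_spec.2.2.le⟩)
    hB2
  have hq : ∀ σ < 2, ∀ d ∈ DG, (σ, d) ∈ range 2 ×ˢ DG := fun σ hσ d hd =>
    mem_product.2 ⟨mem_range.2 hσ, hd⟩
  obtain ⟨P, eP⟩ : ∃ P : ℕ → Finset ℕ, P = fun σ => DG.biUnion (fun d => q (σ, d)) := ⟨_, rfl⟩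
  have eP' : ∀ σ, P σ = DG.biUnion (fun d => q (σ, d)) := fun σ => by rw [eP]
  have c7 : ∀ σ < 2, Disjoint (P σ) F1 := fun σ hσ => by
    rw [eP']
    exact (disjoint_biUnion_left _ _ _).2 fun d hd => q2 _ (hq σ hσ d hd)
  have c8 : Disjoint (P 1) (P 0) := by
    rw [eP', eP']
    refine (disjoint_biUnion_left _ _ _).2 fun d hd => (disjoint_biUnion_right _ _ _).2
      fun d' hd' => q3 _ (hq 1 (by norm_num) d hd) _ (hq 0 (by norm_num) d' hd') fun he => ?_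
    exact absurd (congrArg Prod.fst he) (by norm_num)
  refine ⟨T, AT, DT, fun σ d => q (σ, d), P, hTm, hTc.trans hζN, mT, okT, cAT, sAT, sLT, cLT,
    fun σ hσ d hd => (q1 _ (hq σ hσ d hd)).2.1,
    fun σ hσ d hd d' hd' hne => q3 _ (hq σ hσ d hd) _ (hq σ hσ d' hd') fun he =>
      hne (congrArg Prod.snd he),
    fun σ hσ d hd => (q1 _ (hq σ hσ d hd)).2.2, fun σ _ => eP' σ,
    fun σ hσ => by
      rw [eP']
      exact biUnion_subset.2 fun d hd => (q1 _ (hq σ hσ d hd)).1,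
    fun σ hσ => by
      rw [eP']
      have h1 := card_biUnion_le_card_mul DG (fun d => q (σ, d)) 2
        (fun d hd => q4 _ (hq σ hσ d hd))
      linarith,
    cTR, cG, cZ0, cZ1, ?_, ?_, ?_, ?_⟩
  · rw [← eF0]
    exact c5
  · rw [← eF0]
    exact c6
  · rw [← eF0, ← eF1]
    exact c7 0 (by norm_num)
  · rw [← eF0, ← eF1]
    exact disjoint_union_right.2 ⟨c7 1 (by norm_num), c8⟩

private theorem ab1_exists {C : ℕ} {ε₁ : ℝ} (sys : Sys 1 2 N R DG Z1 z1 ζ β ε) (hβ : 0 < β)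
    (hβζ : β ≤ ζ) (hζε : ζ ≤ ε) (hN : 10 ^ 5 ≤ N) (hεN : 10 ^ 4 * (ε * N) ≤ N)
    (hε1 : 10 ^ 4 * ((C : ℝ) + 1) * (ε * N) ≤ ε₁ * N) (hβN : 1 ≤ β * N)
    (hR : (R.card : ℝ) ≤ β * N) (hR' : ∀ x ∈ R, ζ * N < x)
    (htm : ∀ (σ M : ℕ) (Z F : Finset ℕ), 1 ≤ M →
      (M : ℝ) ≤ ε₁ * N → (F.card : ℝ) ≤ ε₁ * N → Z ⊆ F → Z ⊆ Icc 1 N → (∀ z ∈ Z, cls 1 z = σ) →
      Z.Nonempty → Z.card ≤ 2 * M →
      ∃ (A : Finset ℕ) (D : Finset (ℕ × ℕ)), A ⊆ Icc 1 N ∧ labs D ⊆ Icc 1 N ∧ Disjoint A (labs D) ∧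
        Disjoint A F ∧ Disjoint (labs D) F ∧ UnitOK 1 D ∧ A.card ≤ C * M ∧ D.card ≤ C * M ∧
        (1 + 1) * D.card = A.card + M ∧ ∀ Z' ⊆ Z, Z'.card = M → Matchable 1 D (A ∪ Z')) :
    ∃ (T AT : Finset ℕ) (DT : Finset (ℕ × ℕ)) (π : ℕ → ℕ × ℕ → Finset ℕ) (P A' : ℕ → Finset ℕ)
      (D' : ℕ → Finset (ℕ × ℕ)) (h M : ℕ),
      ab1Cfg N R T AT DT DG Z1 π P A' D' z1 h M ζ β ε ∧ (T.card : ℝ) ≤ ε * N ∧
      (h : ℝ) ≤ 2 * (ε * N) ∧ (M : ℝ) ≤ 4 * (ε * N) ∧ (A' 0).card ≤ C * M ∧ (A' 1).card ≤ C * M := by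
  obtain ⟨T, AT, DT, π, P, a1, a2, a3, a4, a5, a6, a7, a8, a9, a10, a11, a12, a13, a14, c2, c3, c4,
    c5, c6, c7, c8, c9⟩ := ab1_stage sys hβ hβζ hζε hN hεN hR hR'
  have hN0 : (0 : ℝ) < N := by
    have h1 : 0 < N := by omega
    exact_mod_cast h1
  have hζN : ζ * N ≤ ε * N := mul_le_mul_of_nonneg_right hζε hN0.le
  have hβN' : β * N ≤ ζ * N := mul_le_mul_of_nonneg_right hβζ hN0.le
  have he1 : 1 ≤ ε * N := by linarith
  obtain ⟨h, eh⟩ : ∃ h, h = ⌈β * N⌉₊ := ⟨_, rfl⟩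
  have h_ge : β * N ≤ h := by
    rw [eh]
    exact Nat.le_ceil _
  have h_le : (h : ℝ) ≤ β * N + 1 := by
    rw [eh]
    exact (Nat.ceil_lt_add_one (by positivity)).le
  obtain ⟨M, eM⟩ : ∃ M, M = DG.card + z1 + h := ⟨_, rfl⟩
  have hMr : (M : ℝ) = DG.card + z1 + h := by
    rw [eM]
    push_cast
    ring
  have hg := sys.DG_le
  have hz := sys.z1_le
  have hgg := sys.DG_ge
  have hM4 : (M : ℝ) ≤ 4 * (ε * N) := by linarith
  have hC0 : (0 : ℝ) ≤ C := Nat.cast_nonneg C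
  have hCe : 0 ≤ (C : ℝ) * (ε * N) := by positivity
  have hexp : 10 ^ 4 * ((C : ℝ) + 1) * (ε * N) = 10 ^ 4 * ((C : ℝ) * (ε * N)) + 10 ^ 4 * (ε * N) := by
    ring
  rw [hexp] at hε1
  have h3h : 3 * h ≤ DG.card := by
    have h1 : (((3 * h : ℕ)) : ℝ) ≤ DG.card := by
      push_cast
      linarith
    exact_mod_cast h1
  have hM1 : 1 ≤ M := by
    have h1 := sys.z1_pos
    omega
  have hCM : (C : ℝ) * M ≤ 4 * ((C : ℝ) * (ε * N)) := by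
    have h1 := mul_le_mul_of_nonneg_left hM4 hC0
    linarith
  have cP0 := a14 0 (by norm_num)
  have cP1 := a14 1 (by norm_num)
  have cZ0 := sys.Z1_card 0 (by norm_num)
  have cZ1 := sys.Z1_card 1 (by norm_num)
  have cLG : (labs DG).card = DG.card := by
    have h1 := sys.DG_ok.2
    rwa [one_mul] at h1
  obtain ⟨F2, eF2⟩ : ∃ F2, F2 = R ∪ T ∪ labs DG ∪ Z1 0 ∪ Z1 1 ∪ AT ∪ labs DT ∪ P 0 ∪ P 1 := ⟨_, rfl⟩
  have hF2 : F2.card ≤ R.card + T.card + DG.card + z1 + z1 + T.card + T.card + 2 * DG.card +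
      2 * DG.card := by
    rw [eF2]
    have t1 := card_union_le (R ∪ T ∪ labs DG ∪ Z1 0 ∪ Z1 1 ∪ AT ∪ labs DT ∪ P 0) (P 1)
    have t2 := card_union_le (R ∪ T ∪ labs DG ∪ Z1 0 ∪ Z1 1 ∪ AT ∪ labs DT) (P 0)
    have t3 := card_union_le (R ∪ T ∪ labs DG ∪ Z1 0 ∪ Z1 1 ∪ AT) (labs DT)
    have t4 := card_union_le (R ∪ T ∪ labs DG ∪ Z1 0 ∪ Z1 1) AT
    have t5 := card_union_le (R ∪ T ∪ labs DG ∪ Z1 0) (Z1 1)
    have t6 := card_union_le (R ∪ T ∪ labs DG) (Z1 0)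
    have t7 := card_union_le (R ∪ T) (labs DG)
    have t8 := card_union_le R T
    linarith
  have hF2r : (F2.card : ℝ) ≤ 11 * (ε * N) := by
    have h1 : (F2.card : ℝ) ≤ R.card + T.card + DG.card + z1 + z1 + T.card + T.card + 2 * DG.card +
      2 * DG.card := by exact_mod_cast hF2
    linarith
  have sZ : ∀ σ < 2, Z1 σ ∪ P σ ⊆ F2 := by
    intro σ hσ
    rw [eF2]
    intro x hx
    simp only [mem_union] at hx ⊢
    have h1 : σ = 0 ∨ σ = 1 := by omega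
    rcases h1 with rfl | rfl
    · rcases hx with hx | hx
      · exact Or.inl (Or.inl (Or.inl (Or.inl (Or.inl (Or.inr hx)))))
      · exact Or.inl (Or.inr hx)
    · rcases hx with hx | hx
      · exact Or.inl (Or.inl (Or.inl (Or.inl (Or.inr hx))))
      · exact Or.inr hx
  have sZN : ∀ σ < 2, Z1 σ ∪ P σ ⊆ Icc 1 N := fun σ hσ => union_subset (sys.Z1_sub σ hσ) (a13 σ hσ)
  have sZc : ∀ σ < 2, ∀ z ∈ Z1 σ ∪ P σ, cls 1 z = σ := by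
    intro σ hσ z hz'
    rcases mem_union.1 hz' with hz' | hz'
    · exact sys.Z1_cls σ hσ z hz'
    · rw [a12 σ hσ] at hz'
      obtain ⟨d, hd, hz'⟩ := mem_biUnion.1 hz'
      exact a11 σ hσ d hd z hz'
  have sZ1 : ∀ σ < 2, (Z1 σ ∪ P σ).Nonempty := by
    intro σ hσ
    have h1 : (Z1 σ).Nonempty := by
      rw [← card_pos, sys.Z1_card σ hσ]
      exact sys.z1_pos
    exact h1.mono subset_union_left
  have sZ2 : ∀ σ < 2, (Z1 σ ∪ P σ).card ≤ 2 * M := by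
    intro σ hσ
    refine (card_union_le _ _).trans ?_
    have h1 := a14 σ hσ
    have h2 := sys.Z1_card σ hσ
    omega
  obtain ⟨A0, D0, f1, f2, f3, f4, f5, f6, f7, f8, f9, f10⟩ := htm 0 M (Z1 0 ∪ P 0) F2 hM1
    (by linarith) (by linarith) (sZ 0 (by norm_num)) (sZN 0 (by norm_num)) (sZc 0 (by norm_num))
    (sZ1 0 (by norm_num)) (sZ2 0 (by norm_num))
  have cL0 : (labs D0).card = D0.card := by
    have h1 := f6.2
    rwa [one_mul] at h1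
  have hF3r : ((F2 ∪ A0 ∪ labs D0).card : ℝ) ≤ ε₁ * N := by
    have h1 : (F2 ∪ A0 ∪ labs D0).card ≤ F2.card + C * M + C * M := by
      have h2 := card_union_le (F2 ∪ A0) (labs D0)
      have h3 := card_union_le F2 A0
      linarith
    have h4 : ((F2 ∪ A0 ∪ labs D0).card : ℝ) ≤ F2.card + C * M + C * M := by exact_mod_cast h1
    linarith
  obtain ⟨A1, D1, g1, g2, g3, g4, g5, g6, g7, g8, g9, g10⟩ := htm 1 M (Z1 1 ∪ P 1)
    (F2 ∪ A0 ∪ labs D0) hM1 (by linarith) hF3r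
    ((sZ 1 (by norm_num)).trans (subset_union_left.trans subset_union_left)) (sZN 1 (by norm_num))
    (sZc 1 (by norm_num)) (sZ1 1 (by norm_num)) (sZ2 1 (by norm_num))
  have hcases : ∀ (p : ℕ → Prop), p 0 → p 1 → ∀ σ < 2, p σ := by
    intro p h0 h1 σ hσ
    have h2 : σ = 0 ∨ σ = 1 := by omega
    rcases h2 with rfl | rfl
    · exact h0
    · exact h1
  refine ⟨T, AT, DT, π, P, fun σ => Nat.casesOn (motive := fun _ => Finset ℕ) σ A0 fun _ => A1,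
    fun σ => Nat.casesOn (motive := fun _ => Finset (ℕ × ℕ)) σ D0 fun _ => D1, h, M,
    { sys := sys
      T_mem := a1
      DT_m := a3
      DT_ok := a4
      AT_card := a5
      AT_sub := a6
      DT_sub := a7
      π_blk := a9
      π_dis := a10
      π_cls := a11
      P_eq := a12
      P_sub := a13
      A_sub := hcases _ f1 g1
      D_sub := hcases _ f2 g2
      D_ok := hcases _ f6 g6
      D_card := hcases _ f9 g9
      D_m := hcases _ f10 g10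
      M_eq := eM
      h_ge := h_ge
      h_le := h3h
      h_le' := by linarith
      c1 := c2
      c2 := c3
      c3 := c4
      c4 := c5
      c5 := c6
      c6 := c7
      c7 := c8
      c8 := c9
      c9 := by
        rw [← eF2]
        exact f4
      c10 := by
        rw [← eF2]
        exact disjoint_union_right.2 ⟨f5, f3.symm⟩
      c11 := by
        rw [← eF2]
        exact g4
      c12 := by
        rw [← eF2]
        exact disjoint_union_right.2 ⟨g5, g3.symm⟩ }, a2, by linarith, hM4, f7, g7⟩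

end ab1e

theorem abs1 : AbsStatement 1 := by
  intro ε hε
  obtain ⟨C, ε₁, hε₁, N₁, htm⟩ := tmod (t := 1) (ug := 5) (by norm_num) gadget1
  have hC : (0 : ℝ) < 10 ^ 4 * ((C : ℝ) + 1) := by positivity
  obtain ⟨ε', eε⟩ : ∃ ε', ε' = min ε (min ε₁ 1) / (10 ^ 4 * ((C : ℝ) + 1)) := ⟨_, rfl⟩
  have hmin : 0 < min ε (min ε₁ 1) := lt_min hε (lt_min hε₁ one_pos)
  have hε' : 0 < ε' := by
    rw [eε]
    exact div_pos hmin hC
  have hmul : 10 ^ 4 * ((C : ℝ) + 1) * ε' = min ε (min ε₁ 1) := by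
    rw [eε]
    field_simp
  have hm1 : 10 ^ 4 * ((C : ℝ) + 1) * ε' ≤ ε := hmul.trans_le (min_le_left _ _)
  have hm2 : 10 ^ 4 * ((C : ℝ) + 1) * ε' ≤ ε₁ :=
    hmul.trans_le ((min_le_right _ _).trans (min_le_left _ _))
  have hm3 : 10 ^ 4 * ((C : ℝ) + 1) * ε' ≤ 1 :=
    hmul.trans_le ((min_le_right _ _).trans (min_le_right _ _))
  have hCε : 0 ≤ (C : ℝ) * ε' := by positivity
  have hexp : 10 ^ 4 * ((C : ℝ) + 1) * ε' = 10 ^ 4 * ((C : ℝ) * ε') + 10 ^ 4 * ε' := by ring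
  obtain ⟨ζ, β, hζ, hζε, hβ, hβζ, N₂, hsys⟩ := sys1 ε' hε'
  obtain ⟨N₃, hN₃⟩ := exists_nat_ge (1 / β)
  refine ⟨ζ, hζ, by linarith, β, hβ, max (10 ^ 5) (max N₁ (max N₂ N₃)), fun N hN R hR hRc => ?_⟩
  have hN1 : 10 ^ 5 ≤ N := (le_max_left _ _).trans hN
  have hN2 : max N₁ (max N₂ N₃) ≤ N := (le_max_right _ _).trans hN
  have hN3 : N₁ ≤ N := (le_max_left _ _).trans hN2
  have hN4 : max N₂ N₃ ≤ N := (le_max_right _ _).trans hN2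
  have hN5 : N₂ ≤ N := (le_max_left _ _).trans hN4
  have hN6 : N₃ ≤ N := (le_max_right _ _).trans hN4
  have hN0 : (0 : ℝ) < N := by
    have h1 : 0 < N := by omega
    exact_mod_cast h1
  have hβN : 1 ≤ β * N := by
    have h1 : (N₃ : ℝ) ≤ N := by exact_mod_cast hN6
    have h2 : 1 / β ≤ N := hN₃.trans h1
    rw [div_le_iff₀ hβ] at h2
    linarith
  obtain ⟨DG, Z1, z1, sys⟩ := hsys N hN5 R hR hRc
  have k1 : 10 ^ 4 * (ε' * N) ≤ N := by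
    have h1 : 10 ^ 4 * ε' ≤ 1 := by linarith
    have h2 := mul_le_mul_of_nonneg_right h1 hN0.le
    linarith
  have k2 : 10 ^ 4 * ((C : ℝ) + 1) * (ε' * N) ≤ ε₁ * N := by
    have h2 := mul_le_mul_of_nonneg_right hm2 hN0.le
    linarith
  have k3 : 10 ^ 4 * ((C : ℝ) + 1) * (ε' * N) ≤ ε * N := by
    have h2 := mul_le_mul_of_nonneg_right hm1 hN0.le
    linarith
  obtain ⟨T, AT, DT, π, P, A', D', h, M, c, b1, b2, b3, b4, b5⟩ := ab1_exists sys hβ hβζ hζε hN1 k1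
    k2 hβN hRc (fun x hx => (hR x hx).1) (htm N hN3)
  obtain ⟨d1, d2, d3⟩ := ab1_dis c
  obtain ⟨s1, s2⟩ := ab1_sub c
  have h2c := ab1_2card c
  have h2r : 2 * ((ab1_D DT DG D').card : ℝ) = (ab1_A T AT Z1 P A').card + 2 * h := by
    exact_mod_cast h2c
  have hAc : ((ab1_A T AT Z1 P A').card : ℝ) ≤ (8 + 8 * (C : ℝ)) * (ε' * N) := by
    have e1 := ab1_cardA c
    have e2 : ((ab1_A T AT Z1 P A').card : ℝ) = T.card + AT.card + (z1 + 2 * DG.card) +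
        (z1 + 2 * DG.card) + (A' 0).card + (A' 1).card := by exact_mod_cast e1
    have e3 : (AT.card : ℝ) = T.card := by exact_mod_cast c.AT_card
    have e4 : ((A' 0).card : ℝ) ≤ C * M := by exact_mod_cast b4
    have e5 : ((A' 1).card : ℝ) ≤ C * M := by exact_mod_cast b5
    have e6 : (C : ℝ) * M ≤ C * (4 * (ε' * N)) := mul_le_mul_of_nonneg_left b3 (Nat.cast_nonneg C)
    have e7 := sys.DG_le
    have e8 := sys.z1_le
    rw [e2, e3]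
    linarith
  have hεN0 : 0 ≤ ε' * N := by positivity
  have hCεN0 : 0 ≤ (C : ℝ) * (ε' * N) := by positivity
  have hk3 : 10 ^ 4 * ((C : ℝ) * (ε' * N)) + 10 ^ 4 * (ε' * N) ≤ ε * N := by linarith
  have hAc' : ((ab1_A T AT Z1 P A').card : ℝ) ≤ 8 * (ε' * N) + 8 * ((C : ℝ) * (ε' * N)) := by
    linarith
  refine ⟨ab1_A T AT Z1 P A', ab1_D DT DG D', ⟨s1, s2, d1, d2, d3, ab1_unit c, by linarith,
    by linarith, ?_⟩, fun J hJ hJA hJD hc hp => ?_⟩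
  · have h1 := c.h_ge
    push_cast
    linarith
  · exact ab1_match c J hJ hJA (by omega) (hp rfl)

private theorem ab2_T {N : ℕ} (hN : 10 ^ 5 ≤ N) (T F : Finset ℕ) (hT : T ⊆ Icc 1 N) (hTF : T ⊆ F)
    (hF : 1000 * (F.card + T.card * 4) ≤ N) :
    ∃ (A : Finset ℕ) (D : Finset (ℕ × ℕ)), T ⊆ A ∧ A ⊆ Icc 1 N ∧ labs D ⊆ Icc 1 N ∧ UnitOK 2 D ∧
      Disjoint A (labs D) ∧ Disjoint (A \ T) F ∧ Disjoint (labs D) F ∧ Matchable 2 D A ∧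
      D.card = T.card := by
  obtain ⟨o, ho1, ho2, ho3, ho4⟩ := greedy (ι := ℕ) (Obj := (ℕ × ℕ) × Finset ℕ)
    (fun o => o.2 ∪ labs {o.1})
    (fun u o => o.2.card = 2 ∧ u ∉ o.2 ∧ IsBlock 2 o.1 (insert u o.2) ∧ o.2 ⊆ Icc 1 N ∧
      labs {o.1} ⊆ Icc 1 N ∧ UnitOK 2 {o.1} ∧ Disjoint (insert u o.2) (labs {o.1}))
    4 (F.card + T.card * 4) F T (by
      intro u hu F' hFF' hF'
      obtain ⟨d, s, h1, h2, h3, h4, h5, h6, h7, h8, h9⟩ :=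
        tiny (t := 2) (Or.inr rfl) hN (hT hu) F' (by omega)
      refine ⟨(d, s), ⟨h1, h2, h3, h4, h5, h6, h9⟩, ?_, ?_⟩
      · exact Finset.disjoint_union_left.2 ⟨h7, h8⟩
      · have h10 : (labs {d}).card = 2 := by rw [h6.2, card_singleton]
        have h11 := card_union_le s (labs {d})
        change (s ∪ labs {d}).card ≤ 4
        omega) le_rfl
  have hl : ∀ u ∈ T, Disjoint (labs {(o u).1}) F := fun u hu =>
    (Finset.disjoint_union_left.1 (ho2 u hu)).2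
  have hs : ∀ u ∈ T, Disjoint (o u).2 F := fun u hu =>
    (Finset.disjoint_union_left.1 (ho2 u hu)).1
  have hll : ∀ u ∈ T, ∀ v ∈ T, u ≠ v → Disjoint (labs {(o u).1}) (labs {(o v).1}) :=
    fun u hu v hv huv => Finset.disjoint_of_subset_left subset_union_right
      (Finset.disjoint_of_subset_right subset_union_right (ho3 u hu v hv huv))
  have hss : ∀ u ∈ T, ∀ v ∈ T, u ≠ v → Disjoint (o u).2 (o v).2 :=
    fun u hu v hv huv => Finset.disjoint_of_subset_left subset_union_left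
      (Finset.disjoint_of_subset_right subset_union_left (ho3 u hu v hv huv))
  have hsl : ∀ u ∈ T, ∀ v ∈ T, u ≠ v → Disjoint (o u).2 (labs {(o v).1}) :=
    fun u hu v hv huv => Finset.disjoint_of_subset_left subset_union_left
      (Finset.disjoint_of_subset_right subset_union_right (ho3 u hu v hv huv))
  refine ⟨T.biUnion (fun u => insert u (o u).2), T.biUnion (fun u => {(o u).1}), ?_, ?_, ?_, ?_, ?_,
    ?_, ?_, ?_, ?_⟩
  · exact fun u hu => mem_biUnion.2 ⟨u, hu, mem_insert_self _ _⟩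
  · exact biUnion_subset.2 fun u hu => insert_subset (hT hu) (ho1 u hu).2.2.2.1
  · rw [labs_biUnion]
    exact biUnion_subset.2 fun u hu => (ho1 u hu).2.2.2.2.1
  · exact unitOK_biUnion T _ (fun u hu => (ho1 u hu).2.2.2.2.2.1) hll
  · rw [labs_biUnion, disjoint_biUnion_left]
    intro u hu
    rw [disjoint_biUnion_right]
    intro v hv
    by_cases huv : u = v
    · subst huv
      exact (ho1 u hu).2.2.2.2.2.2
    · exact disjoint_insert_left.2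
        ⟨fun hx => Finset.disjoint_left.1 (hl v hv) hx (hTF hu), hsl u hu v hv huv⟩
  · rw [Finset.disjoint_left]
    intro x hx hxF
    obtain ⟨hx1, hx2⟩ := mem_sdiff.1 hx
    obtain ⟨u, hu, hxu⟩ := mem_biUnion.1 hx1
    rcases mem_insert.1 hxu with h | h
    · exact hx2 (h ▸ hu)
    · exact Finset.disjoint_left.1 (hs u hu) h hxF
  · rw [labs_biUnion, disjoint_biUnion_left]
    exact hl
  · exact matchable_biUnion T _ _ (fun u hu => matchable_single (ho1 u hu).2.2.1)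
      (fun u hu v hv huv => disjoint_of_labs (hll u hu v hv huv))
      (fun u hu v hv huv => disjoint_insert_left.2
        ⟨fun hx => (mem_insert.1 hx).elim huv
          (fun hx => Finset.disjoint_left.1 (hs v hv) hx (hTF hu)),
        disjoint_insert_right.2
          ⟨fun hx => Finset.disjoint_left.1 (hs u hu) hx (hTF hv), hss u hu v hv huv⟩⟩)
  · rw [card_biUnion (fun u hu v hv huv => disjoint_of_labs (hll u hu v hv huv))]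
    simp

private theorem ab2_pi {N : ℕ} (hN : 1000 ≤ N) (DG : Finset (ℕ × ℕ)) (F : Finset ℕ)
    (hDG : labs DG ⊆ Icc 1 N) (hDG2 : ∀ d ∈ DG, 3 * N ≤ 10 * d.1 ∧ d.2 = d.1 + 1)
    (hF : 100 * (F.card + DG.card * 3) ≤ N) :
    ∃ π : ℕ × ℕ → Finset ℕ, (∀ d ∈ DG, π d ⊆ Icc 1 N ∧ IsBlock 2 d (π d) ∧ Disjoint (π d) F) ∧
      ∀ d ∈ DG, ∀ d' ∈ DG, d ≠ d' → Disjoint (π d) (π d') := by
  obtain ⟨o, ho1, ho2, ho3, ho4⟩ := greedy (ι := ℕ × ℕ) (Obj := Finset ℕ) (fun s => s)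
    (fun d s => s ⊆ Icc 1 N ∧ IsBlock 2 d s) 3 (F.card + DG.card * 3) F DG (by
      intro d hd F' hFF' hF'
      obtain ⟨c, c'⟩ := d
      obtain ⟨h1, h2⟩ := hDG2 _ hd
      simp only at h1 h2
      subst h2
      have h3 : c + 1 ∈ labs DG := mem_labs.2 ⟨_, hd, Or.inr rfl⟩
      obtain ⟨s, h4, h5, h6⟩ := dflt2 hN h1 (mem_Icc.1 (hDG h3)).2 F' (by omega)
      exact ⟨s, ⟨h4, h5⟩, h6, h5.choose_spec.2.2.le⟩) le_rfl
  exact ⟨o, fun d hd => ⟨(ho1 d hd).1, (ho1 d hd).2, ho2 d hd⟩, ho3⟩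

private theorem ab2_fin {N : ℕ} {R : Finset ℕ} {DG : Finset (ℕ × ℕ)} {Z1 : ℕ → Finset ℕ} {z1 : ℕ}
    {ζ β ε : ℝ} (h : Sys 2 1 N R DG Z1 z1 ζ β ε) {A₀ AT : Finset ℕ} {D₀ DT : Finset (ℕ × ℕ)}
    {π : ℕ × ℕ → Finset ℕ} {M j : ℕ}
    (hπ : ∀ d ∈ DG, IsBlock 2 d (π d))
    (hπ2 : ∀ d ∈ DG, ∀ d' ∈ DG, d ≠ d' → Disjoint (π d) (π d'))
    (hπZ : ∀ d ∈ DG, Disjoint (π d) (Z1 0))
    (hM : M = z1 + j)
    (hT : Matchable 2 DT AT)
    (hlT : ∀ x ∈ Icc 1 N, x ∉ AT → ζ * N < x)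
    (h0 : ∀ Z' ⊆ Z1 0 ∪ DG.biUnion π, Z'.card = M → Matchable 2 D₀ (A₀ ∪ Z'))
    (hd1 : Disjoint DT DG) (hd2 : Disjoint DT D₀) (hd3 : Disjoint DG D₀)
    (ha1 : Disjoint AT (Z1 0 ∪ DG.biUnion π)) (ha2 : Disjoint AT A₀)
    (ha3 : Disjoint A₀ (Z1 0 ∪ DG.biUnion π))
    (J : Finset ℕ) (hJ : J ⊆ Icc 1 N) (hJA : Disjoint J (AT ∪ (Z1 0 ∪ DG.biUnion π) ∪ A₀))
    (hJc : J.card = j) (hJ3 : (3 : ℝ) * j ≤ 8 * β * N) :
    Matchable 2 (DT ∪ DG ∪ D₀) (AT ∪ (Z1 0 ∪ DG.biUnion π) ∪ A₀ ∪ J) := by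
  have hJA' := Finset.disjoint_left.1 hJA
  obtain ⟨d, z, hd, hdi, hz, hzd⟩ := junk_assign h J hJ
    (fun u hu => hlT u (hJ hu) (fun hx => hJA' hu (mem_union_left _ (mem_union_left _ hx))))
    (by rw [hJc]; push_cast; linarith)
  have hcls : ∀ u, cls 2 u = 0 := fun u => by simp [cls]
  have hzZ : ∀ u ∈ J, z u ⊆ Z1 0 := fun u hu => by
    have h1 := (hz u hu).1
    rwa [hcls] at h1
  have hJZ : ∀ u ∈ J, u ∉ Z1 0 := fun u hu hx =>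
    hJA' hu (mem_union_left _ (mem_union_right _ (mem_union_left _ hx)))
  have hzs : J.biUnion z ⊆ Z1 0 := biUnion_subset.2 hzZ
  have hDJd : ∀ u ∈ J, ∀ v ∈ J, u ≠ v → Disjoint ({d u} : Finset (ℕ × ℕ)) {d v} :=
    fun u hu v hv huv => disjoint_singleton.2 (hdi u hu v hv huv)
  have hDJs : J.biUnion (fun u => {d u}) ⊆ DG :=
    biUnion_subset.2 fun u hu => singleton_subset_iff.2 (hd u hu)
  have hDJc : (J.biUnion (fun u => ({d u} : Finset (ℕ × ℕ)))).card = j := by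
    rw [card_biUnion hDJd, ← hJc]
    simp
  have hmJ : Matchable 2 (J.biUnion (fun u => {d u})) (J.biUnion (fun u => insert u (z u))) :=
    matchable_biUnion J _ _ (fun u hu => matchable_single (hz u hu).2.2.2) hDJd
      (fun u hu v hv huv => disjoint_insert_left.2
        ⟨fun hx => (mem_insert.1 hx).elim huv (fun hx => hJZ u hu (hzZ v hv hx)),
        disjoint_insert_right.2 ⟨fun hx => hJZ v hv (hzZ u hu hx), hzd u hu v hv huv⟩⟩)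
  have eJ : J.biUnion (fun u => insert u (z u)) = J ∪ J.biUnion z := by
    ext x
    simp only [mem_biUnion, mem_insert, mem_union]
    constructor
    · rintro ⟨u, hu, rfl | hx⟩
      · exact Or.inl hu
      · exact Or.inr ⟨u, hu, hx⟩
    · rintro (hx | ⟨u, hu, hx⟩)
      · exact ⟨x, hx, Or.inl rfl⟩
      · exact ⟨u, hu, Or.inr hx⟩
  rw [eJ] at hmJ
  have hmS : ∀ S ⊆ DG, Matchable 2 S (S.biUnion π) := by
    intro S hS
    have h1 := matchable_biUnion S (fun d => ({d} : Finset (ℕ × ℕ))) π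
      (fun d hd => matchable_single (hπ d (hS hd)))
      (fun d _ d' _ hdd => disjoint_singleton.2 hdd)
      (fun d hd d' hd' hdd => hπ2 d (hS hd) d' (hS hd') hdd)
    have h2 : S.biUnion (fun d => ({d} : Finset (ℕ × ℕ))) = S := by
      ext x
      simp
    rwa [h2] at h1
  set DJ := J.biUnion (fun u => ({d u} : Finset (ℕ × ℕ))) with hDJ
  have hmG := hmS (DG \ DJ) sdiff_subset
  have hGsub : (DG \ DJ).biUnion π ⊆ DG.biUnion π := biUnion_subset_biUnion_of_subset_left _ sdiff_subset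
  have hZP : ∀ S ⊆ DG, Disjoint (Z1 0) (S.biUnion π) := fun S hS =>
    (disjoint_biUnion_right _ _ _).2 fun d hd => (hπZ d (hS hd)).symm
  have hZ1c : (Z1 0).card = z1 := h.Z1_card 0 (by norm_num)
  have hZZc : (Z1 0 ∪ DG.biUnion π).card = z1 + 3 * DG.card := by
    rw [card_union_of_disjoint (hZP DG (Subset.refl _)), block_card (hmS DG (Subset.refl _)), hZ1c]
  have hzc : (J.biUnion z).card = 2 * j := by
    rw [card_biUnion hzd, sum_congr rfl (fun u hu => (hz u hu).2.1), sum_const, hJc, smul_eq_mul,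
      mul_comm]
  have hGc : (DG \ DJ).card + j = DG.card := by
    rw [← hDJc]
    exact card_sdiff_add_card_eq_card hDJs
  have hsub : J.biUnion z ∪ (DG \ DJ).biUnion π ⊆ Z1 0 ∪ DG.biUnion π :=
    union_subset_union hzs hGsub
  have hcc : (J.biUnion z ∪ (DG \ DJ).biUnion π).card = 2 * j + 3 * (DG \ DJ).card := by
    rw [card_union_of_disjoint (Finset.disjoint_of_subset_left hzs (hZP _ sdiff_subset)), hzc,
      block_card hmG]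
  have hZ'c : ((Z1 0 ∪ DG.biUnion π) \ (J.biUnion z ∪ (DG \ DJ).biUnion π)).card = M := by
    have h1 := card_sdiff_add_card_eq_card hsub
    omega
  have hm0 := h0 _ sdiff_subset hZ'c
  have e1 : DT ∪ DG ∪ D₀ = DT ∪ (DJ ∪ (DG \ DJ)) ∪ D₀ := by rw [union_sdiff_of_subset hDJs]
  have e2 : AT ∪ (Z1 0 ∪ DG.biUnion π) ∪ A₀ ∪ J = AT ∪ ((J ∪ J.biUnion z) ∪ (DG \ DJ).biUnion π) ∪
      (A₀ ∪ (Z1 0 ∪ DG.biUnion π) \ (J.biUnion z ∪ (DG \ DJ).biUnion π)) := by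
    ext x
    have h1 := @hsub x
    simp only [mem_union, mem_sdiff] at h1 ⊢
    tauto
  rw [e1, e2]
  have hJ1 : Disjoint J AT := Finset.disjoint_of_subset_right
    (subset_union_left.trans subset_union_left) hJA
  have hJ2 : Disjoint J (Z1 0 ∪ DG.biUnion π) := Finset.disjoint_of_subset_right
    (subset_union_right.trans subset_union_left) hJA
  have hJ3 : Disjoint J A₀ := Finset.disjoint_of_subset_right subset_union_right hJA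
  have hzs' : J.biUnion z ⊆ Z1 0 ∪ DG.biUnion π := hzs.trans subset_union_left
  have hGsub' : (DG \ DJ).biUnion π ⊆ Z1 0 ∪ DG.biUnion π := hGsub.trans subset_union_right
  refine matchable_union (matchable_union hT (matchable_union hmJ hmG disjoint_sdiff ?_) ?_ ?_) hm0
    ?_ ?_
  · exact Finset.disjoint_union_left.2 ⟨Finset.disjoint_of_subset_right hGsub' hJ2,
      Finset.disjoint_of_subset_left hzs (hZP _ sdiff_subset)⟩
  · rw [union_sdiff_of_subset hDJs]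
    exact hd1
  · exact Finset.disjoint_union_right.2 ⟨Finset.disjoint_union_right.2 ⟨hJ1.symm,
      Finset.disjoint_of_subset_right hzs' ha1⟩, Finset.disjoint_of_subset_right hGsub' ha1⟩
  · rw [union_sdiff_of_subset hDJs]
    exact Finset.disjoint_union_left.2 ⟨hd2, hd3⟩
  · refine Finset.disjoint_union_right.2 ⟨?_, ?_⟩
    · exact Finset.disjoint_union_left.2 ⟨ha2, Finset.disjoint_union_left.2
        ⟨Finset.disjoint_union_left.2 ⟨hJ3, (Finset.disjoint_of_subset_right hzs' ha3).symm⟩,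
        (Finset.disjoint_of_subset_right hGsub' ha3).symm⟩⟩
    · refine Finset.disjoint_union_left.2 ⟨Finset.disjoint_of_subset_right sdiff_subset ha1,
        Finset.disjoint_union_left.2 ⟨Finset.disjoint_union_left.2
        ⟨Finset.disjoint_of_subset_right sdiff_subset hJ2, ?_⟩, ?_⟩⟩
      · exact Finset.disjoint_of_subset_left subset_union_left disjoint_sdiff
      · exact Finset.disjoint_of_subset_left subset_union_right disjoint_sdiff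

theorem abs2 : AbsStatement 2 := by
  intro ε hε
  obtain ⟨C, ε₁, hε₁, N₁, hT⟩ := tmod (t := 2) (ug := 8) (by norm_num) gadget2
  have hC0 : (0 : ℝ) ≤ C := Nat.cast_nonneg C
  have hmin : 0 < min (min ε ε₁) 1 := lt_min (lt_min hε hε₁) one_pos
  obtain ⟨ε', hε'0, hε'C⟩ : ∃ ε' : ℝ, 0 < ε' ∧ 10 ^ 4 * (C + 1) * ε' = min (min ε ε₁) 1 :=
    ⟨min (min ε ε₁) 1 / (10 ^ 4 * (C + 1)), by positivity, by field_simp⟩
  have hC1 : 10 ^ 4 * (C + 1) * ε' ≤ ε := hε'C.trans_le ((min_le_left _ _).trans (min_le_left _ _))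
  have hC2 : 10 ^ 4 * (C + 1) * ε' ≤ ε₁ := hε'C.trans_le ((min_le_left _ _).trans (min_le_right _ _))
  have hC3 : 10 ^ 4 * (C + 1) * ε' ≤ 1 := hε'C.trans_le (min_le_right _ _)
  have hCE : 0 ≤ C * ε' := by positivity
  obtain ⟨ζ, β, hζ, hζε, hβ, hβζ, N₂, hS⟩ := sys2 ε' hε'0
  refine ⟨ζ, hζ, by nlinarith, β, hβ, max (max N₁ N₂) (max (10 ^ 5) ⌈3 / β⌉₊), ?_⟩
  intro N hN R hR hRc
  have hN1 : N₁ ≤ N := (le_max_left _ _).trans ((le_max_left _ _).trans hN)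
  have hN2 : N₂ ≤ N := (le_max_right _ _).trans ((le_max_left _ _).trans hN)
  have hN3 : 10 ^ 5 ≤ N := (le_max_left _ _).trans ((le_max_right _ _).trans hN)
  have hN4 : ⌈3 / β⌉₊ ≤ N := (le_max_right _ _).trans ((le_max_right _ _).trans hN)
  have hβN : 3 ≤ β * N := by
    have h1 : 3 / β ≤ N := (Nat.le_ceil _).trans (by exact_mod_cast hN4)
    rwa [div_le_iff₀ hβ, mul_comm] at h1
  obtain ⟨DG, Z1, z1, hSys⟩ := hS N hN2 R hR hRc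
  have hNpos : (0 : ℝ) ≤ N := Nat.cast_nonneg N
  obtain ⟨E, hE⟩ : ∃ E : ℝ, E = ε' * N := ⟨_, rfl⟩
  have hζE : ζ * N ≤ E := hE ▸ mul_le_mul_of_nonneg_right hζε hNpos
  have hβE : β * N ≤ E := hE ▸ mul_le_mul_of_nonneg_right (hβζ.trans hζε) hNpos
  have hgE : (DG.card : ℝ) ≤ E := hE ▸ hSys.DG_le
  have hzE : (z1 : ℝ) ≤ E := hE ▸ hSys.z1_le
  have hE0 : 3 ≤ E := hβN.trans hβE
  have hCE0 : 0 ≤ C * E := mul_nonneg hC0 (by linarith)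
  have hEε : 10 ^ 4 * (C + 1) * E ≤ ε * N := by
    have h1 := mul_le_mul_of_nonneg_right hC1 hNpos
    rw [hE]
    linarith
  have hEε₁ : 10 ^ 4 * (C + 1) * E ≤ ε₁ * N := by
    have h1 := mul_le_mul_of_nonneg_right hC2 hNpos
    rw [hE]
    linarith
  have hE1 : 10 ^ 4 * (C + 1) * E ≤ N := by
    have h1 := mul_le_mul_of_nonneg_right hC3 hNpos
    rw [hE]
    linarith
  have hEN : 10 ^ 4 * E ≤ N := by nlinarith
  obtain ⟨j, hj⟩ : ∃ j : ℕ, j = 2 * ⌈β * N⌉₊ := ⟨_, rfl⟩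
  have hj1 : 2 * β * N ≤ j := by
    have h1 := Nat.le_ceil (β * N)
    rw [hj]
    push_cast
    linarith
  have hj2 : (j : ℝ) ≤ 2 * (β * N) + 2 := by
    have h1 := Nat.ceil_lt_add_one (a := β * N) (by linarith)
    rw [hj]
    push_cast
    linarith
  obtain ⟨T, hTd⟩ : ∃ T : Finset ℕ, T = Icc 1 ⌊ζ * N⌋₊ := ⟨_, rfl⟩
  have hTmem : ∀ x, x ∈ T ↔ 1 ≤ x ∧ (x : ℝ) ≤ ζ * N := by
    intro x
    rw [hTd, mem_Icc, Nat.le_floor_iff (by positivity)]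
  have hTc : (T.card : ℝ) ≤ E := by
    rw [hTd, Nat.card_Icc, Nat.add_sub_cancel]
    exact (Nat.floor_le (by positivity)).trans hζE
  have hζN : ζ * N ≤ N := hζE.trans (by linarith)
  have hTN : T ⊆ Icc 1 N := by
    intro x hx
    obtain ⟨h1, h2⟩ := (hTmem x).1 hx
    exact mem_Icc.2 ⟨h1, by exact_mod_cast h2.trans hζN⟩
  have hlabc : (labs DG).card = 2 * DG.card := hSys.DG_ok.2
  have hZ1c : (Z1 0).card = z1 := hSys.Z1_card 0 (by norm_num)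
  have hRE : (R.card : ℝ) ≤ E := hRc.trans hβE
  -- the first forbidden set
  obtain ⟨F₀, hF₀⟩ : ∃ F₀ : Finset ℕ, F₀ = R ∪ T ∪ labs DG ∪ Z1 0 := ⟨_, rfl⟩
  have hF₀c : (F₀.card : ℝ) ≤ 5 * E := by
    have h1 := card_union_le (R ∪ T ∪ labs DG) (Z1 0)
    have h2 := card_union_le (R ∪ T) (labs DG)
    have h3 := card_union_le R T
    have h4 : F₀.card ≤ R.card + T.card + 2 * DG.card + z1 := by
      rw [hF₀]
      omega
    have h5 : (F₀.card : ℝ) ≤ R.card + T.card + 2 * DG.card + z1 := by exact_mod_cast h4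
    linarith
  have hF₀R : R ⊆ F₀ := by rw [hF₀]; intro x hx; simp [hx]
  have hF₀T : T ⊆ F₀ := by rw [hF₀]; intro x hx; simp [hx]
  have hF₀G : labs DG ⊆ F₀ := by rw [hF₀]; intro x hx; simp [hx]
  have hF₀Z : Z1 0 ⊆ F₀ := by rw [hF₀]; intro x hx; simp [hx]
  obtain ⟨AT, DT, hAT1, hAT2, hAT3, hAT4, hAT5, hAT6, hAT7, hAT8, hAT9⟩ := ab2_T hN3 T F₀ hTN hF₀T (by
    have h1 : (1000 : ℝ) * (F₀.card + T.card * 4) ≤ N := by linarith
    exact_mod_cast h1)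
  have hATc : AT.card = 3 * T.card := by rw [block_card hAT8, hAT9]
  have hDTl : (labs DT).card = 2 * T.card := by rw [hAT4.2, hAT9]
  -- the second forbidden set
  obtain ⟨F₁, hF₁⟩ : ∃ F₁ : Finset ℕ, F₁ = F₀ ∪ AT ∪ labs DT := ⟨_, rfl⟩
  have hF₁c : (F₁.card : ℝ) ≤ 10 * E := by
    have h1 := card_union_le (F₀ ∪ AT) (labs DT)
    have h2 := card_union_le F₀ AT
    have h4 : F₁.card ≤ F₀.card + 5 * T.card := by
      rw [hF₁]
      omega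
    have h5 : (F₁.card : ℝ) ≤ F₀.card + 5 * T.card := by exact_mod_cast h4
    linarith
  have hF₁0 : F₀ ⊆ F₁ := by rw [hF₁]; intro x hx; simp [hx]
  have hF₁A : AT ⊆ F₁ := by rw [hF₁]; intro x hx; simp [hx]
  have hF₁D : labs DT ⊆ F₁ := by rw [hF₁]; intro x hx; simp [hx]
  obtain ⟨π, hπ1, hπ2⟩ := ab2_pi (by omega) DG F₁ hSys.DG_sub
    (fun d hd => ⟨(hSys.DG_big d hd).1, (hSys.DG_big d hd).2.2 rfl⟩) (by
    have h1 : (100 : ℝ) * (F₁.card + DG.card * 3) ≤ N := by linarith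
    exact_mod_cast h1)
  have hPF : Disjoint (DG.biUnion π) F₁ := (disjoint_biUnion_left _ _ _).2 fun d hd => (hπ1 d hd).2.2
  have hPN : DG.biUnion π ⊆ Icc 1 N := biUnion_subset.2 fun d hd => (hπ1 d hd).1
  have hPm : Matchable 2 DG (DG.biUnion π) := by
    have h1 := matchable_biUnion DG (fun d => ({d} : Finset (ℕ × ℕ))) π
      (fun d hd => matchable_single (hπ1 d hd).2.1)
      (fun d _ d' _ hdd => disjoint_singleton.2 hdd) hπ2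
    have h2 : DG.biUnion (fun d => ({d} : Finset (ℕ × ℕ))) = DG := by
      ext x
      simp
    rwa [h2] at h1
  have hPc : (DG.biUnion π).card = 3 * DG.card := block_card hPm
  obtain ⟨ZZ, hZZ⟩ : ∃ ZZ : Finset ℕ, ZZ = Z1 0 ∪ DG.biUnion π := ⟨_, rfl⟩
  have hZZc : ZZ.card = z1 + 3 * DG.card := by
    rw [hZZ, card_union_of_disjoint (Finset.disjoint_of_subset_left (hF₀Z.trans hF₁0) hPF.symm),
      hZ1c, hPc]
  have hZ1N : Z1 0 ⊆ Icc 1 N := hSys.Z1_sub 0 (by norm_num)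
  have hZZN : ZZ ⊆ Icc 1 N := by rw [hZZ]; exact union_subset hZ1N hPN
  -- the third forbidden set
  obtain ⟨F₂, hF₂⟩ : ∃ F₂ : Finset ℕ, F₂ = F₁ ∪ DG.biUnion π := ⟨_, rfl⟩
  have hF₂1 : F₁ ⊆ F₂ := by rw [hF₂]; exact subset_union_left
  have hF₂Z : ZZ ⊆ F₂ := by
    rw [hZZ, hF₂]
    exact union_subset_union (hF₀Z.trans hF₁0) (Subset.refl _)
  have hF₂c : (F₂.card : ℝ) ≤ 13 * E := by
    have h1 := card_union_le F₁ (DG.biUnion π)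
    have h4 : F₂.card ≤ F₁.card + 3 * DG.card := by
      rw [hF₂]
      omega
    have h5 : (F₂.card : ℝ) ≤ F₁.card + 3 * DG.card := by exact_mod_cast h4
    linarith
  have hMc : ((z1 + j : ℕ) : ℝ) ≤ 4 * E := by
    push_cast
    linarith
  have hz1 := hSys.z1_pos
  have h3g := hSys.DG_z1
  obtain ⟨A₀, D₀, hA1, hA2, hA3, hA4, hA5, hA6, hA7, hA8, hA9, hA10⟩ := hT N hN1 0 (z1 + j) ZZ F₂
    (by omega) (hMc.trans (by nlinarith)) (hF₂c.trans (by nlinarith)) hF₂Z hZZN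
    (fun z _ => by simp [cls]) (card_pos.1 (by omega)) (by omega)
  have hA7' : (A₀.card : ℝ) ≤ 4 * (C * E) := by
    have h1 : (A₀.card : ℝ) ≤ C * ((z1 + j : ℕ) : ℝ) := by exact_mod_cast hA7
    have h2 := mul_le_mul_of_nonneg_left hMc hC0
    linarith
  have hA8' : (D₀.card : ℝ) ≤ 4 * (C * E) := by
    have h1 : (D₀.card : ℝ) ≤ C * ((z1 + j : ℕ) : ℝ) := by exact_mod_cast hA8
    have h2 := mul_le_mul_of_nonneg_left hMc hC0
    linarith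
  -- disjointness
  have hTG : Disjoint T (labs DG) := by
    rw [Finset.disjoint_left]
    intro x hx hx'
    have h1 := ((hTmem x).1 hx).2
    have h2 := hSys.DG_lab x hx'
    linarith
  have hTR : Disjoint T R := by
    rw [Finset.disjoint_left]
    intro x hx hx'
    have h1 := ((hTmem x).1 hx).2
    have h2 := (hR x hx').1
    linarith
  have hTZ : Disjoint T (Z1 0) := by
    rw [Finset.disjoint_left]
    intro x hx hx'
    have h1 := ((hTmem x).1 hx).2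
    have h2 := hSys.Z1_big 0 (by norm_num) x hx'
    linarith
  have hATF : ∀ S : Finset ℕ, S ⊆ F₀ → Disjoint T S → Disjoint AT S := by
    intro S hS hTS
    rw [Finset.disjoint_left]
    intro x hx hx'
    by_cases hxT : x ∈ T
    · exact Finset.disjoint_left.1 hTS hxT hx'
    · exact Finset.disjoint_left.1 hAT6 (mem_sdiff.2 ⟨hx, hxT⟩) (hS hx')
  have dAZ : Disjoint AT ZZ := by
    rw [hZZ]
    exact Finset.disjoint_union_right.2 ⟨hATF _ hF₀Z hTZ,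
      Finset.disjoint_of_subset_left hF₁A hPF.symm⟩
  have dA0 : Disjoint AT A₀ := (Finset.disjoint_of_subset_right (hF₁A.trans hF₂1) hA4).symm
  have dZ0 : Disjoint A₀ ZZ := Finset.disjoint_of_subset_right hF₂Z hA4
  have dTG : Disjoint (labs DT) (labs DG) := Finset.disjoint_of_subset_right hF₀G hAT7
  have dT0 : Disjoint (labs DT) (labs D₀) :=
    (Finset.disjoint_of_subset_right (hF₁D.trans hF₂1) hA5).symm
  have dG0 : Disjoint (labs DG) (labs D₀) :=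
    (Finset.disjoint_of_subset_right ((hF₀G.trans hF₁0).trans hF₂1) hA5).symm
  have dTG' := disjoint_of_labs dTG
  have dT0' := disjoint_of_labs dT0
  have dG0' := disjoint_of_labs dG0
  have hAc : (AT ∪ ZZ ∪ A₀).card = 3 * T.card + (z1 + 3 * DG.card) + A₀.card := by
    rw [card_union_of_disjoint (Finset.disjoint_union_left.2 ⟨dA0, dZ0.symm⟩),
      card_union_of_disjoint dAZ, hATc, hZZc]
  have hDc : (DT ∪ DG ∪ D₀).card = T.card + DG.card + D₀.card := by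
    rw [card_union_of_disjoint (Finset.disjoint_union_left.2 ⟨dT0', dG0'⟩),
      card_union_of_disjoint dTG', hAT9]
  have hkey : (2 + 1) * (DT ∪ DG ∪ D₀).card = (AT ∪ ZZ ∪ A₀).card + j := by
    rw [hAc, hDc]
    omega
  refine ⟨AT ∪ ZZ ∪ A₀, DT ∪ DG ∪ D₀, ?_, ?_⟩
  · refine ⟨?_, ?_, ?_, ?_, ?_, ?_, ?_, ?_, ?_⟩
    · exact union_subset (union_subset hAT2 hZZN) hA1
    · rw [labs_union, labs_union]
      exact union_subset (union_subset hAT3 hSys.DG_sub) hA2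
    · rw [labs_union, labs_union]
      have hZG : Disjoint ZZ (labs DG) := by
        rw [hZZ]
        exact Finset.disjoint_union_left.2 ⟨hSys.Z1_DG 0 (by norm_num),
          Finset.disjoint_of_subset_right (hF₀G.trans hF₁0) hPF⟩
      have hZT : Disjoint ZZ (labs DT) := by
        rw [hZZ]
        exact Finset.disjoint_union_left.2 ⟨(Finset.disjoint_of_subset_right hF₀Z hAT7).symm,
          Finset.disjoint_of_subset_right hF₁D hPF⟩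
      refine Finset.disjoint_union_right.2 ⟨Finset.disjoint_union_right.2 ⟨?_, ?_⟩, ?_⟩
      · exact Finset.disjoint_union_left.2 ⟨Finset.disjoint_union_left.2 ⟨hAT5, hZT⟩,
          Finset.disjoint_of_subset_right (hF₁D.trans hF₂1) hA4⟩
      · exact Finset.disjoint_union_left.2 ⟨Finset.disjoint_union_left.2 ⟨hATF _ hF₀G hTG, hZG⟩,
          Finset.disjoint_of_subset_right ((hF₀G.trans hF₁0).trans hF₂1) hA4⟩
      · exact Finset.disjoint_union_left.2 ⟨Finset.disjoint_union_left.2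
          ⟨(Finset.disjoint_of_subset_right (hF₁A.trans hF₂1) hA5).symm,
          (Finset.disjoint_of_subset_right hF₂Z hA5).symm⟩, hA3⟩
    · have hZR : Disjoint ZZ R := by
        rw [hZZ]
        exact Finset.disjoint_union_left.2 ⟨hSys.Z1_R 0 (by norm_num),
          Finset.disjoint_of_subset_right (hF₀R.trans hF₁0) hPF⟩
      exact Finset.disjoint_union_left.2 ⟨Finset.disjoint_union_left.2 ⟨hATF _ hF₀R hTR, hZR⟩,
        Finset.disjoint_of_subset_right ((hF₀R.trans hF₁0).trans hF₂1) hA4⟩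
    · rw [labs_union, labs_union]
      exact Finset.disjoint_union_left.2 ⟨Finset.disjoint_union_left.2
        ⟨Finset.disjoint_of_subset_right hF₀R hAT7, hSys.DG_R⟩,
        Finset.disjoint_of_subset_right ((hF₀R.trans hF₁0).trans hF₂1) hA5⟩
    · refine unitOK_union (unitOK_union hAT4 hSys.DG_ok dTG) hA6 ?_
      rw [labs_union]
      exact Finset.disjoint_union_left.2 ⟨dT0, dG0⟩
    · rw [hAc]
      push_cast
      nlinarith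
    · rw [hDc]
      push_cast
      nlinarith
    · have h1 : ((2 + 1 : ℕ) : ℝ) * (DT ∪ DG ∪ D₀).card = (AT ∪ ZZ ∪ A₀).card + j := by
        exact_mod_cast hkey
      push_cast at h1 ⊢
      linarith
  · intro J hJ hJA hJD hJc _
    have hJj : J.card = j := by
      rw [hkey] at hJc
      omega
    subst hZZ
    exact ab2_fin hSys (fun d hd => (hπ1 d hd).2.1) hπ2
      (fun d hd => Finset.disjoint_of_subset_right (hF₀Z.trans hF₁0) (hπ1 d hd).2.2) rfl hAT8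
      (fun x hx hx' => by
        by_contra hc
        exact hx' (hAT1 ((hTmem x).2 ⟨(mem_Icc.1 hx).1, not_lt.1 hc⟩)))
      hA10 dTG' dT0' dG0' dAZ dA0 dZ0 J hJ hJA hJj (by linarith)

end SSB
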