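import Pool.Agent.Lib.MP_8a819d_co.BD.Mt

/-!
# MP_8a819d_co: the absorber, 2. Avoiding values of affine forms; the gadget statement

JOB Af (`affine_avoid`).

For given `i` and `v ∈ F` at most two `s` satisfy `|α i s + β i| = c v` (`α i ≠ 0`); for given `i ≠ j` at most two `s`
satisfy `|α i s + β i| = |α j s + β j|`, i.e. `α i s + β i = ± (α j s + β j)` (if the slopes agree the constants
differ, so there is no solution; otherwise one solution; similarly with the minus sign). The total number of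
excluded `s` is at most `2 m |F| + 2 m^2 < |I|`.
-/

set_option autoImplicit false

namespace SSB

open Finset

private theorem af_one (a b : ℤ) (hab : a = 0 → b ≠ 0) (I : Finset ℕ) :
    (I.filter fun s : ℕ => a * (s : ℤ) + b = 0).card ≤ 1 := by
  rw [Finset.card_le_one]
  intro s hs t ht
  rw [Finset.mem_filter] at hs ht
  have h1 : a * ((s : ℤ) - t) = 0 := by linear_combination hs.2 - ht.2
  rcases mul_eq_zero.1 h1 with h2 | h2
  · exfalso
    apply hab h2
    have h3 := hs.2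
    rw [h2] at h3
    linarith
  · have h3 : (s : ℤ) = t := by linarith
    exact_mod_cast h3

theorem affine_avoid {m : ℕ} (c : ℕ) (α β : Fin m → ℤ) (hα : ∀ i, α i ≠ 0)
    (hne : ∀ i j, i ≠ j → (α i = α j → β i ≠ β j) ∧ (α i = -α j → β i ≠ -β j))
    (I F : Finset ℕ) (hI : 2 * m * F.card + 2 * m ^ 2 < I.card) :
    ∃ s ∈ I, (∀ i, ∀ v ∈ F, ((c * v : ℕ) : ℤ) ≠ |α i * s + β i|) ∧
      ∀ i j, i ≠ j → |α i * (s : ℤ) + β i| ≠ |α j * s + β j| := by
  classical
  by_contra hcon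
  let A : Fin m × ℕ → Finset ℕ := fun p =>
    (I.filter fun s : ℕ => α p.1 * (s : ℤ) + (β p.1 - ((c * p.2 : ℕ) : ℤ)) = 0) ∪
      (I.filter fun s : ℕ => α p.1 * (s : ℤ) + (β p.1 + ((c * p.2 : ℕ) : ℤ)) = 0)
  let B : Fin m × Fin m → Finset ℕ := fun p =>
    (I.filter fun s : ℕ => (α p.1 - α p.2) * (s : ℤ) + (β p.1 - β p.2) = 0) ∪
      (I.filter fun s : ℕ => (α p.1 + α p.2) * (s : ℤ) + (β p.1 + β p.2) = 0)
  let Q : Finset (Fin m × Fin m) := (univ ×ˢ univ).filter fun p => p.1 ≠ p.2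
  have hsub : I ⊆ ((univ : Finset (Fin m)) ×ˢ F).biUnion A ∪ Q.biUnion B := by
    intro s hs
    by_contra hno
    rw [Finset.mem_union, not_or, Finset.mem_biUnion, Finset.mem_biUnion] at hno
    obtain ⟨hn1, hn2⟩ := hno
    apply hcon
    refine ⟨s, hs, fun i v hv he => ?_, fun i j hij he => ?_⟩
    · apply hn1
      refine ⟨(i, v), Finset.mem_product.2 ⟨Finset.mem_univ _, hv⟩, ?_⟩
      rcases abs_choice (α i * (s : ℤ) + β i) with h | h
      · rw [h] at he
        refine Finset.mem_union_left _ (Finset.mem_filter.2 ⟨hs, ?_⟩)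
        show α i * (s : ℤ) + (β i - ((c * v : ℕ) : ℤ)) = 0
        rw [he]
        ring
      · rw [h] at he
        refine Finset.mem_union_right _ (Finset.mem_filter.2 ⟨hs, ?_⟩)
        show α i * (s : ℤ) + (β i + ((c * v : ℕ) : ℤ)) = 0
        rw [he]
        ring
    · apply hn2
      refine ⟨(i, j), Finset.mem_filter.2
        ⟨Finset.mem_product.2 ⟨Finset.mem_univ _, Finset.mem_univ _⟩, hij⟩, ?_⟩
      rcases abs_eq_abs.1 he with h | h
      · refine Finset.mem_union_left _ (Finset.mem_filter.2 ⟨hs, ?_⟩)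
        show (α i - α j) * (s : ℤ) + (β i - β j) = 0
        linear_combination h
      · refine Finset.mem_union_right _ (Finset.mem_filter.2 ⟨hs, ?_⟩)
        show (α i + α j) * (s : ℤ) + (β i + β j) = 0
        linear_combination h
  have hA : ∀ p ∈ (univ : Finset (Fin m)) ×ˢ F, (A p).card ≤ 2 := by
    intro p _
    exact (Finset.card_union_le _ _).trans (Nat.add_le_add
      (af_one _ _ (fun h => absurd h (hα p.1)) I) (af_one _ _ (fun h => absurd h (hα p.1)) I))
  have hB : ∀ p ∈ Q, (B p).card ≤ 2 := by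
    intro p hp
    have hp' : p.1 ≠ p.2 := (Finset.mem_filter.1 hp).2
    refine (Finset.card_union_le _ _).trans (Nat.add_le_add
      (af_one _ _ (fun h h' => ?_) I) (af_one _ _ (fun h h' => ?_) I))
    · exact (hne p.1 p.2 hp').1 (by linarith) (by linarith)
    · exact (hne p.1 p.2 hp').2 (by linarith) (by linarith)
  have h1 := Finset.card_le_card hsub
  have h2 := Finset.card_biUnion_le_card_mul _ A 2 hA
  have h3 := Finset.card_biUnion_le_card_mul _ B 2 hB
  have h4 := Finset.card_union_le (((univ : Finset (Fin m)) ×ˢ F).biUnion A) (Q.biUnion B)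
  have h5 : ((univ : Finset (Fin m)) ×ˢ F).card = m * F.card := by
    rw [Finset.card_product, Finset.card_univ, Fintype.card_fin]
  have h6 : Q.card ≤ m * m := by
    refine (Finset.card_filter_le _ _).trans ?_
    rw [Finset.card_product, Finset.card_univ, Fintype.card_fin]
  rw [h5] at h2
  have h7 : Q.card * 2 ≤ m * m * 2 := Nat.mul_le_mul_right 2 h6
  have h8 : m ^ 2 = m * m := sq m
  have h9 : 2 * m * F.card = m * F.card * 2 := by ring
  rw [h8, h9] at hI
  omega

/-- the class of a label: its parity if `t = 1`, trivial if `t = 2` -/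
def cls (t x : ℕ) : ℕ := if t = 1 then x % 2 else 0

/-- gadgets: units `D` and labels `L` such that `L ∪ {w i}` can be distributed to `D`, for three prescribed labels
`w 0`, `w 1`, `w 2` (the ports) of the same class; `F` is a set of forbidden labels -/
def GadgetStatement (t ug : ℕ) : Prop :=
  ∃ ε : ℝ, 0 < ε ∧ ∃ N₀ : ℕ, ∀ N : ℕ, N₀ ≤ N → ∀ w : Fin 3 → ℕ, (∀ i, w i ∈ Icc 1 N) →
    (∀ i j, cls t (w i) = cls t (w j)) → ∀ F : Finset ℕ, (F.card : ℝ) ≤ ε * N → (∀ i, w i ∈ F) →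
    ∃ (L : Finset ℕ) (D : Finset (ℕ × ℕ)), L ⊆ Icc 1 N ∧ labs D ⊆ Icc 1 N ∧ Disjoint L (labs D) ∧
      Disjoint L F ∧ Disjoint (labs D) F ∧ UnitOK t D ∧ D.card = ug ∧ L.card + 1 = (t + 1) * ug ∧
      ∀ i, Matchable t D (insert (w i) L)

/-- robust absorbers for a set `Z` of labels of one class -/
def TModStatement (t : ℕ) : Prop :=
  ∃ (C : ℕ) (ε : ℝ), 0 < ε ∧ ∃ N₀ : ℕ, ∀ N : ℕ, N₀ ≤ N → ∀ (σ M : ℕ) (Z F : Finset ℕ), 1 ≤ M →
    (M : ℝ) ≤ ε * N → (F.card : ℝ) ≤ ε * N → Z ⊆ F → Z ⊆ Icc 1 N → (∀ z ∈ Z, cls t z = σ) → Z.Nonempty →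
    Z.card ≤ 2 * M →
    ∃ (A : Finset ℕ) (D : Finset (ℕ × ℕ)), A ⊆ Icc 1 N ∧ labs D ⊆ Icc 1 N ∧ Disjoint A (labs D) ∧
      Disjoint A F ∧ Disjoint (labs D) F ∧ UnitOK t D ∧ A.card ≤ C * M ∧ D.card ≤ C * M ∧
      (t + 1) * D.card = A.card + M ∧ ∀ Z' ⊆ Z, Z'.card = M → Matchable t D (A ∪ Z')

end SSB
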