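import Pool.Agent.Lib.MP_8a819d_co.BD.Piece0

/-!
# MP_8a819d_co: the data of the typed Markov chain (interface)
-/

set_option autoImplicit false

namespace SSB

open Finset

/-- probability that the label `z` is used by a child of type `b` of a vertex of type `a` -/
noncomputable def UU (N : ℕ) (Q : Finset ℕ) (rp : ℕ → ℕ) (M : Ty → ℕ → ℝ) (K : Ty → Ty → ℕ → ℕ → ℝ)
    (a b : Ty) (z : ℕ) : ℝ :=
  ∑ x ∈ range (N + 1), ∑ y ∈ range (N + 1), if z ∈ us Q rp a b x y then M a x * K a b x y else 0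

/-- the properties of the laws `M a` (of the label of a vertex of type `a`) and of the transition
probabilities `K a b x y`; `np` is the number of roots, `c a b` the number of edges of type `(a, b)` -/
structure ChainData (N : ℕ) (Q L : Finset ℕ) (rp prt : ℕ → ℕ) (np : ℝ) (c : Ty → Ty → ℝ) (C : ℝ)
    (M : Ty → ℕ → ℝ) (K : Ty → Ty → ℕ → ℕ → ℝ) : Prop where
  C_pos : 0 < C
  M_nn : ∀ a x, 0 ≤ M a x
  M_sum : ∀ a, ∑ x ∈ range (N + 1), M a x = 1
  M_O : ∀ x, M Ty.O x ≠ 0 → x ∈ Q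
  K_nn : ∀ a b x y, 0 ≤ K a b x y
  K_sum : ∀ a b x, okTy a b = true → ∑ y ∈ range (N + 1), K a b x y = 1
  cons : ∀ a b y, okTy a b = true → y ≤ N → ∑ x ∈ range (N + 1), M a x * K a b x y = M b y
  rule : ∀ a b x y, okTy a b = true → M a x * K a b x y ≠ 0 → rule Q L prt a b x y
  bdM : ∀ a x, M a x ≤ C / N
  bdK : ∀ a b x z, okTy a b = true →
    ∑ y ∈ range (N + 1), (if z ∈ us Q rp a b x y then K a b x y else 0) ≤ C / N
  bdJ : ∀ a b z z', okTy a b = true → z ≠ z' →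
    ∑ x ∈ range (N + 1), ∑ y ∈ range (N + 1),
      (if z ∈ us Q rp a b x y ∧ z' ∈ us Q rp a b x y then M a x * K a b x y else 0) ≤ C / (N : ℝ) ^ 2
  bdS : ∀ a b, okTy a b = true →
    ∑ x ∈ range (N + 1), ∑ y ∈ range (N + 1),
      (if y ∈ Q ∧ y = dd x y then M a x * K a b x y else 0) ≤ C / N
  load : ∀ z ∈ Q, np * M Ty.O z + (c Ty.O Ty.O * UU N Q rp M K Ty.O Ty.O z +
    c Ty.O Ty.P * UU N Q rp M K Ty.O Ty.P z + c Ty.P Ty.O * UU N Q rp M K Ty.P Ty.O z +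
    c Ty.P Ty.U * UU N Q rp M K Ty.P Ty.U z + c Ty.U Ty.P * UU N Q rp M K Ty.U Ty.P z) ≤ 1
  rep : ∀ r ∈ L.image rp, c Ty.O Ty.P * UU N Q rp M K Ty.O Ty.P r = 1
  zero : ∀ a b z, okTy a b = true → z ∉ Q → (z ∈ L.image rp → ¬ (a = Ty.O ∧ b = Ty.P)) →
    UU N Q rp M K a b z = 0

end SSB
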