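import Pool.Agent.Lib.MP_8a819d_co.BD.Dc2

/-!
# MP_8a819d_co: decomposition of the tree, 3. Pieces

JOB Dc3: `pieces_exist`. JOB Dc4: `deco_exists`.

Dc3. The roots are `Rt = {r < n : r ∉ S, par r ∈ S}` (`r ≥ 1` as `0 ∈ S`); every `v < n`, `v ∉ S` has its top in `Rt` (`par_topv`, `topv_notMem`,
`topv_le`) and `comp n par S r ∋ r` for `r ∈ Rt`. Enumerate `Rt` (e.g. `Rt.equivFin` or `orderEmbOfFin`), `np = |Rt|`. For the root `r` let
`C = comp n par S r`, `k = |C| - 1`, `emb` the increasing enumeration `C.orderEmbOfFin` (cardinality `k + 1`) of `C`. The smallest element of `C` is `r`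
(`topv_le`), so `emb 0 = r`. For `i ≠ 0`, `v = emb i ≠ r`: `par v ∉ S` (otherwise `topv v = v ≠ r`), `par v < v`, `topv (par v) = topv v = r`, so
`par v ∈ C`: let `par' i` be its index, `par' i < i` by monotonicity; `par' 0 = 0`. `ty' i = ty (emb i)`. The root has type `O`: it is not of type `P` or
`U` because their parents are outside `S`.
Dc4. `δ = 1 / (16 (Δ + 1)^3)`, `K₀ = 64 (Δ + 1)^2`, `n₀ = 4 K + 16`. `S = S₀ ∪ {0, v₀}` with `S₀` from `small_comps`: `|S| K ≤ n + 2 K ≤ 2 n`. Candidates: the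
vertices of degree `t` not in `nbh (nbh S)`: at least `n/4 - (Δ+1)^2 |S| ≥ n/4 - 2 n (Δ+1)^2 / K ≥ n/8`. `choose_units`, `ty_facts`,
`pieces_exist`.
-/

set_option autoImplicit false

namespace SSB

open Finset

/-- decomposition of the tree without `S` into pieces -/
structure Deco (n : ℕ) (par : ℕ → ℕ) (t : ℕ) (S : Finset ℕ) (ty : ℕ → Ty) (np : ℕ)
    (pc : Fin np → Piece) (emb : (p : Fin np) → Fin ((pc p).k + 1) → ℕ) : Prop where
  S_sub : S ⊆ range n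
  zero_mem : 0 ∈ S
  tyok : TyOK n par t S ty
  wf : ∀ p, (pc p).WF
  emb_lt : ∀ p i, emb p i < n
  emb_S : ∀ p i, emb p i ∉ S
  emb_inj : Function.Injective (fun x : (Σ p : Fin np, Fin ((pc p).k + 1)) => emb x.1 x.2)
  emb_surj : ∀ v < n, v ∉ S → ∃ p i, emb p i = v
  emb_par : ∀ p i, i ≠ 0 → par (emb p i) = emb p ((pc p).par i)
  emb_root : ∀ p, 1 ≤ emb p 0 ∧ par (emb p 0) ∈ S
  emb_ty : ∀ p i, (pc p).ty i = ty (emb p i)

/-- the piece with a given root -/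
private theorem dc3_one {n t : ℕ} {par : ℕ → ℕ} (hpar : IsPar n par) {S : Finset ℕ} (h0 : 0 ∈ S)
    {ty : ℕ → Ty} (hty : TyOK n par t S ty) {r : ℕ} (hrn : r < n) (hrS : r ∉ S)
    (hrp : par r ∈ S) :
    ∃ (pc : Piece) (emb : Fin (pc.k + 1) → ℕ), pc.WF ∧ pc.k + 1 = (comp n par S r).card ∧
      Function.Injective emb ∧ (∀ i, emb i ∈ comp n par S r) ∧
      (∀ v ∈ comp n par S r, ∃ i, emb i = v) ∧ emb 0 = r ∧
      (∀ i, i ≠ 0 → par (emb i) = emb (pc.par i)) ∧ ∀ i, pc.ty i = ty (emb i) := by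
  have hmem : ∀ v, v ∈ comp n par S r ↔ v < n ∧ v ∉ S ∧ topv par S v = r := fun v => by
    unfold comp
    rw [mem_filter, mem_range]
  have hr : r ∈ comp n par S r := (hmem r).2 ⟨hrn, hrS, topv_stop hrp⟩
  obtain ⟨k, hk⟩ : ∃ k, (comp n par S r).card = k + 1 :=
    ⟨_, (Nat.succ_pred_eq_of_pos (card_pos.2 ⟨r, hr⟩)).symm⟩
  obtain ⟨e, he⟩ : ∃ e : Fin (k + 1) ↪o ℕ, e = (comp n par S r).orderEmbOfFin hk := ⟨_, rfl⟩
  have he1 : ∀ i, e i ∈ comp n par S r := fun i => by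
    rw [he]
    exact orderEmbOfFin_mem _ _ _
  have he2 : ∀ v ∈ comp n par S r, ∃ i, e i = v := fun v hv => by
    have h1 : v ∈ Set.range ((comp n par S r).orderEmbOfFin hk) := by
      rw [range_orderEmbOfFin]
      exact hv
    rw [← he] at h1
    exact h1
  have he0 : e 0 = r := by
    obtain ⟨j, hj⟩ := he2 r hr
    have h1 : e 0 ≤ e j := e.monotone (Fin.zero_le j)
    have h2 := ((hmem _).1 (he1 0)).2.2
    have h3 := topv_le par S (e 0)
    omega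
  have hstep : ∀ i, i ≠ 0 → 1 ≤ e i ∧ par (e i) ∉ S ∧ ∃ j, e j = par (e i) ∧ j < i := by
    intro i hi
    obtain ⟨h1, h2, h3⟩ := (hmem _).1 (he1 i)
    have hne : e i ≠ r := fun h => hi (e.injective (h.trans he0.symm))
    have h4 : 1 ≤ e i := by
      rcases Nat.eq_zero_or_pos (e i) with h | h
      · rw [h] at h2
        exact absurd h0 h2
      · exact h
    have h5 : par (e i) ∉ S := fun h => hne (by
      rw [topv_stop h] at h3
      exact h3)
    have h6 : par (e i) < e i := hpar _ h4 h1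
    rw [topv_step h6 h5] at h3
    obtain ⟨j, hj⟩ := he2 (par (e i)) ((hmem _).2 ⟨by omega, h5, h3⟩)
    refine ⟨h4, h5, j, hj, ?_⟩
    rw [← e.lt_iff_lt, hj]
    exact h6
  have hex : ∀ i, ∃ j, (i ≠ 0 → e j = par (e i) ∧ j < i) ∧ (i = 0 → j = 0) := by
    intro i
    by_cases hi : i = 0
    · exact ⟨0, fun h => absurd hi h, fun _ => rfl⟩
    · obtain ⟨-, -, j, hj⟩ := hstep i hi
      exact ⟨j, fun _ => hj, fun h => absurd h hi⟩
  choose pr hpr1 hpr2 using hex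
  refine ⟨⟨k, pr, fun i => ty (e i)⟩, fun i => e i, ⟨hpr2 0 rfl, fun i hi => (hpr1 i hi).2, ?_,
    fun i hi => ?_⟩, hk.symm, e.injective, he1, he2, he0, fun i hi => (hpr1 i hi).1.symm,
    fun i => rfl⟩
  · show ty (e 0) = Ty.O
    rw [he0]
    cases h : ty r with
    | O => rfl
    | P => exact absurd hrp (hty.P1 r hrn h).2.2.1
    | U => exact absurd hrp (hty.U1 r hrn h).2.2.2.1
  · show okTy (ty (e (pr i))) (ty (e i)) = true
    rw [(hpr1 i hi).1]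
    obtain ⟨h1, h2, -⟩ := hstep i hi
    obtain ⟨h3, h4, -⟩ := (hmem _).1 (he1 i)
    exact hty.ok _ h3 h1 h4 h2

theorem pieces_exist {n t : ℕ} {par : ℕ → ℕ} (hpar : IsPar n par) {S : Finset ℕ} (hS : S ⊆ range n)
    (h0 : 0 ∈ S) {ty : ℕ → Ty} (hty : TyOK n par t S ty) {K : ℕ}
    (hK : ∀ r, (comp n par S r).card < K) :
    ∃ (np : ℕ) (pc : Fin np → Piece) (emb : (p : Fin np) → Fin ((pc p).k + 1) → ℕ),
      Deco n par t S ty np pc emb ∧ ∀ p, (pc p).k + 1 ≤ K := by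
  have hmem : ∀ r v, v ∈ comp n par S r ↔ v < n ∧ v ∉ S ∧ topv par S v = r := fun r v => by
    unfold comp
    rw [mem_filter, mem_range]
  obtain ⟨Rt, hRt⟩ : ∃ Rt : Finset ℕ, Rt = (range n).filter (fun r => r ∉ S ∧ par r ∈ S) := ⟨_, rfl⟩
  have hRm : ∀ r, r ∈ Rt ↔ r < n ∧ r ∉ S ∧ par r ∈ S := fun r => by
    rw [hRt, mem_filter, mem_range]
  obtain ⟨en⟩ : Nonempty (Fin Rt.card ≃ Rt) := ⟨Rt.equivFin.symm⟩
  choose pc emb hwf hcard hinj hcomp hsurj hzero hparr htyy using fun p : Fin Rt.card =>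
    dc3_one hpar h0 hty ((hRm _).1 (en p).2).1 ((hRm _).1 (en p).2).2.1 ((hRm _).1 (en p).2).2.2
  refine ⟨Rt.card, pc, emb, ⟨hS, h0, hty, hwf, fun p i => ((hmem _ _).1 (hcomp p i)).1,
    fun p i => ((hmem _ _).1 (hcomp p i)).2.1, ?_, ?_, hparr, fun p => ?_, htyy⟩, fun p => ?_⟩
  · rintro ⟨p, i⟩ ⟨q, j⟩ h
    change emb p i = emb q j at h
    have h1 := ((hmem _ _).1 (hcomp p i)).2.2
    have h2 := ((hmem _ _).1 (hcomp q j)).2.2
    rw [h] at h1
    have h3 : p = q := en.injective (Subtype.ext (h1.symm.trans h2))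
    subst h3
    rw [hinj p h]
  · intro v hv hvS
    obtain ⟨h1, h2⟩ := par_topv hpar h0 hv hvS
    have h3 : topv par S v ∈ Rt := (hRm _).2 ⟨lt_of_le_of_lt (topv_le par S v) hv,
      topv_notMem hvS, h2⟩
    have h4 : ((en (en.symm ⟨_, h3⟩) : Rt) : ℕ) = topv par S v := by
      rw [Equiv.apply_symm_apply]
    refine ⟨en.symm ⟨_, h3⟩, hsurj _ v ?_⟩
    rw [hmem, h4]
    exact ⟨hv, hvS, rfl⟩
  · obtain ⟨h1, h2, h3⟩ := (hRm _).1 (en p).2
    rw [hzero]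
    refine ⟨?_, h3⟩
    rcases Nat.eq_zero_or_pos ((en p : Rt) : ℕ) with h | h
    · rw [h] at h2
      exact absurd h0 h2
    · exact h
  · rw [hcard]
    exact (hK _).le

theorem deco_exists (Δ : ℕ) : ∃ δ : ℝ, 0 < δ ∧ ∃ K₀ : ℕ, ∀ K : ℕ, K₀ ≤ K → ∃ n₀ : ℕ, ∀ n : ℕ, n₀ ≤ n →
    ∀ (par : ℕ → ℕ) (t : ℕ), IsPar n par → (∀ i < n, pdeg n par i ≤ Δ) →
      n ≤ 4 * ((range n).filter (fun i => pdeg n par i = t)).card → ∀ v₀ < n,
      ∃ (S : Finset ℕ) (ty : ℕ → Ty) (np : ℕ) (pc : Fin np → Piece)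
        (emb : (p : Fin np) → Fin ((pc p).k + 1) → ℕ),
        Deco n par t S ty np pc emb ∧ (∀ p, (pc p).k + 1 ≤ K) ∧ v₀ ∈ S ∧ S.card * K ≤ 2 * n ∧
        δ * n ≤ (((range n).filter (fun v => ty v = Ty.U)).card : ℝ) := by
  refine ⟨1 / (16 * ((Δ : ℝ) + 1) ^ 3), by positivity, 64 * (Δ + 1) ^ 2, ?_⟩
  intro K hK
  refine ⟨4 * K + 16, ?_⟩
  intro n hn par t hpar hdeg hcnt v₀ hv₀
  have hΔ : 1 ≤ (Δ + 1) ^ 2 := Nat.one_le_pow _ _ (Nat.succ_pos _)
  have hK1 : 1 ≤ K := by omega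
  obtain ⟨S₀, hS₀, hS₀K, hcomp⟩ := small_comps n par hpar K hK1
  obtain ⟨S, hSdef⟩ : ∃ S : Finset ℕ, S = insert 0 (insert v₀ S₀) := ⟨_, rfl⟩
  have h0S : 0 ∈ S := by rw [hSdef]; exact Finset.mem_insert_self _ _
  have hvS : v₀ ∈ S := by
    rw [hSdef]
    exact Finset.mem_insert_of_mem (Finset.mem_insert_self _ _)
  have hSS : S₀ ⊆ S := by
    rw [hSdef]
    exact fun x hx => Finset.mem_insert_of_mem (Finset.mem_insert_of_mem hx)
  have hSn : S ⊆ range n := by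
    intro x hx
    rw [hSdef, Finset.mem_insert, Finset.mem_insert] at hx
    rcases hx with rfl | rfl | hx
    · exact Finset.mem_range.2 (by omega)
    · exact Finset.mem_range.2 hv₀
    · exact hS₀ hx
  have hScard : S.card ≤ S₀.card + 2 := by
    rw [hSdef]
    have h1 := Finset.card_insert_le 0 (insert v₀ S₀)
    have h2 := Finset.card_insert_le v₀ S₀
    omega
  have hSK : S.card * K ≤ 2 * n := by
    have h1 : S.card * K ≤ (S₀.card + 2) * K := Nat.mul_le_mul_right K hScard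
    have h2 : (S₀.card + 2) * K = S₀.card * K + 2 * K := by ring
    omega
  obtain ⟨T, hT⟩ : ∃ T : Finset ℕ, T = (range n).filter (fun i => pdeg n par i = t) := ⟨_, rfl⟩
  rw [← hT] at hcnt
  obtain ⟨cand, hcand⟩ : ∃ cand : Finset ℕ, cand = T \ nbh n par (nbh n par S) := ⟨_, rfl⟩
  have hcn : cand ⊆ range n := by
    rw [hcand, hT]
    exact Finset.sdiff_subset.trans (Finset.filter_subset _ _)
  have hnn : (nbh n par (nbh n par S)).card ≤ (Δ + 1) ^ 2 * S.card := by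
    have h1 := nbh_card hdeg (nbh_sub hpar hSn)
    have h2 := nbh_card hdeg hSn
    have h3 : (Δ + 1) * (nbh n par S).card ≤ (Δ + 1) * ((Δ + 1) * S.card) :=
      Nat.mul_le_mul_left _ h2
    have h4 : (Δ + 1) * ((Δ + 1) * S.card) = (Δ + 1) ^ 2 * S.card := by ring
    rw [h4] at h3
    exact h1.trans h3
  have h64 : 64 * ((Δ + 1) ^ 2 * S.card) ≤ 2 * n := by
    have h1 : (64 * (Δ + 1) ^ 2) * S.card ≤ K * S.card := Nat.mul_le_mul_right _ hK
    have h2 : K * S.card = S.card * K := Nat.mul_comm _ _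
    have h3 : 64 * ((Δ + 1) ^ 2 * S.card) = (64 * (Δ + 1) ^ 2) * S.card := by ring
    rw [h3]
    exact (h1.trans_eq h2).trans hSK
  have hcc : n ≤ 8 * cand.card := by
    have h1 : T.card ≤ cand.card + (nbh n par (nbh n par S)).card := by
      rw [hcand]
      have := Finset.le_card_sdiff (nbh n par (nbh n par S)) T
      omega
    omega
  obtain ⟨V, hVc, hVcard, hVV⟩ := choose_units hpar hdeg cand hcn
  have hVn : V ⊆ range n := hVc.trans hcn
  have hVt : ∀ v ∈ V, pdeg n par v = t := by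
    intro v hv
    have h1 := hVc hv
    rw [hcand, hT, Finset.mem_sdiff, Finset.mem_filter] at h1
    exact h1.1.2
  have hVS : ∀ v ∈ V, v ∉ nbh n par (nbh n par S) := by
    intro v hv
    have h1 := hVc hv
    rw [hcand, Finset.mem_sdiff] at h1
    exact h1.2
  obtain ⟨ty, hty, htyU⟩ := ty_facts hpar hSn h0S hVn hVt hVS hVV
  obtain ⟨np, pc, emb, hdeco, hk⟩ := pieces_exist hpar hSn h0S hty (hcomp S hSS hSn)
  refine ⟨S, ty, np, pc, emb, hdeco, hk, hvS, hSK, ?_⟩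
  have hfil : (range n).filter (fun v => ty v = Ty.U) = V := by
    ext v
    rw [Finset.mem_filter, htyU]
    exact ⟨fun h => h.2, fun h => ⟨hVn h, h⟩⟩
  rw [hfil]
  have h8 : n ≤ 8 * ((Δ + 1) ^ 3 * V.card) := hcc.trans (Nat.mul_le_mul_left 8 hVcard)
  have h8' : (n : ℝ) ≤ 8 * (((Δ : ℝ) + 1) ^ 3 * V.card) := by exact_mod_cast h8
  have hpos : (0 : ℝ) < 16 * ((Δ : ℝ) + 1) ^ 3 := by positivity
  rw [div_mul_eq_mul_div, one_mul, div_le_iff₀ hpos]
  have h9 : 0 ≤ ((Δ : ℝ) + 1) ^ 3 * V.card :=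
    mul_nonneg (pow_nonneg (add_nonneg (Nat.cast_nonneg _) zero_le_one) 3) (Nat.cast_nonneg _)
  linarith

end SSB
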