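import Pool.Agent.Lib.MP_8a819d_co.BD.Piece0

/-!
# MP_8a819d_co: decomposition of the tree, 1. Small components

`topv par S i`: the topmost vertex of the component of `i` in the forest without the vertices of `S`
(go up as long as the parent is not in `S`). `comp n par S r`: the component with top `r`.

JOB Dc1a: `topv_*`. JOB Dc1b: `small_comps`.

Dc1a: unfold the recursion. `topv_notMem`: by strong induction; `topv_le`; `topv_idem`: the top `r` of `i` has `r = 0` or
`par r ∈ S` (if `0 ∈ S` and `i ∉ S`, then `r ∉ S`, so `r ≠ 0` and `par r ∈ S`).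
Dc1b. Let `s i` be the hanging size defined from the leaves upwards: `s i = 1 + ∑ c ∈ chs i, s c < K, s c` (strong recursion on
`n - i`), `S₀ = {i < n : K ≤ s i}`. Let `Dn i = {j < n : j = i or (j ∉ S₀ and going up from j through vertices outside S₀ one
reaches a child of i or i itself ...)}`; precisely `Dn i = {i} ∪ ⋃ c ∈ chs i, c ∉ S₀, Dn c`, a set with exactly `s i` elements (the sets `Dn c` of
different children are disjoint, as they consist of descendants). For `i ∈ S₀` the sets `Dn i` are pairwise disjoint (if `j ∈ Dn i` then `i`
is the first vertex of `S₀` weakly above `j`), so `|S₀| K ≤ ∑ i ∈ S₀, |Dn i| ≤ n`. If `S ⊇ S₀` and `r ∉ S`, then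
`comp n par S r ⊆ Dn r` and `|Dn r| = s r < K` as `r ∉ S₀`.
Alternative (maybe simpler in Lean): induction on `m` (from `n` down to `0`, i.e. treat the vertices in the order `n - 1, n - 2, ..., 0`):
there is `S_m ⊆ [m, n)` such that for the forest on the vertices `≥ m`: every component of `[m, n) \ S_m` (defined by `topv` restricted to
`≥ m`) has less than `K` elements, and a weight `|S_m| K + (number of vertices in components without ... ) ≤ n - m`: i.e.
`|S_m| K + #{j ∈ [m, n) : j ∉ S_m, no vertex of S_m above j} ≤ n - m`.
-/

set_option autoImplicit false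

namespace SSB

open Finset

def topv (par : ℕ → ℕ) (S : Finset ℕ) (i : ℕ) : ℕ :=
  if h : par i < i ∧ par i ∉ S then topv par S (par i) else i
termination_by i
decreasing_by exact h.1

def comp (n : ℕ) (par : ℕ → ℕ) (S : Finset ℕ) (r : ℕ) : Finset ℕ :=
  (range n).filter (fun i => i ∉ S ∧ topv par S i = r)

theorem topv_step {par : ℕ → ℕ} {S : Finset ℕ} {i : ℕ} (h1 : par i < i) (h2 : par i ∉ S) :
    topv par S i = topv par S (par i) := by
  rw [topv, dif_pos ⟨h1, h2⟩]

theorem topv_stop {par : ℕ → ℕ} {S : Finset ℕ} {i : ℕ} (h : par i ∈ S) : topv par S i = i := by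
  rw [topv, dif_neg (fun hc => hc.2 h)]

theorem topv_le (par : ℕ → ℕ) (S : Finset ℕ) (i : ℕ) : topv par S i ≤ i := by
  induction i using Nat.strong_induction_on with
  | _ i ih =>
    rw [topv]
    split_ifs with h
    · exact (ih (par i) h.1).trans h.1.le
    · exact le_refl i

theorem topv_notMem {par : ℕ → ℕ} {S : Finset ℕ} {i : ℕ} (h : i ∉ S) : topv par S i ∉ S := by
  induction i using Nat.strong_induction_on with
  | _ i ih =>
    rw [topv]
    split_ifs with h1
    · exact ih (par i) h1.1 h1.2
    · exact h

theorem topv_idem (par : ℕ → ℕ) (S : Finset ℕ) (i : ℕ) :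
    topv par S (topv par S i) = topv par S i := by
  induction i using Nat.strong_induction_on with
  | _ i ih =>
    by_cases h : par i < i ∧ par i ∉ S
    · rw [topv_step h.1 h.2]
      exact ih (par i) h.1
    · have h1 : topv par S i = i := by rw [topv, dif_neg h]
      rw [h1, h1]

/-- if `0 ∈ S` the parent of a top is in `S` -/
theorem par_topv {n : ℕ} {par : ℕ → ℕ} (hpar : IsPar n par) {S : Finset ℕ} (h0 : 0 ∈ S) {i : ℕ}
    (hi : i < n) (hiS : i ∉ S) : 1 ≤ topv par S i ∧ par (topv par S i) ∈ S := by
  have h1 : topv par S i ∉ S := topv_notMem hiS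
  have h2 : topv par S i ≤ i := topv_le par S i
  have h3 : 1 ≤ topv par S i := by
    rcases Nat.eq_zero_or_pos (topv par S i) with h | h
    · exact absurd (h ▸ h0) h1
    · exact h
  refine ⟨h3, ?_⟩
  by_contra hc
  have h4 : par (topv par S i) < topv par S i := hpar _ h3 (lt_of_le_of_lt h2 hi)
  have h5 := topv_step h4 hc
  rw [topv_idem] at h5
  have h6 := topv_le par S (par (topv par S i))
  omega

private theorem dc1b_comp_succ (n : ℕ) (par : ℕ → ℕ) (S : Finset ℕ) (r : ℕ) (w : ℕ → ℕ) :
    ∑ i ∈ comp (n + 1) par S r, w i =
      ∑ i ∈ comp n par S r, w i + (if n ∉ S ∧ topv par S n = r then w n else 0) := by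
  unfold comp
  rw [sum_filter, sum_filter, sum_range_succ]

private theorem dc1b_wt (par : ℕ → ℕ) (K : ℕ) (hK : 1 ≤ K) : ∀ n, IsPar n par → ∀ w : ℕ → ℕ,
    ∃ S₀ ⊆ range n, S₀.card * K ≤ ∑ i ∈ range n, w i ∧
      ∀ S, S₀ ⊆ S → ∀ r, ∑ i ∈ comp n par S r, w i < K := by
  intro n
  induction n with
  | zero =>
    intro _ w
    refine ⟨∅, by simp, by simp, fun S _ r => ?_⟩
    have : comp 0 par S r = ∅ := by simp [comp]
    rw [this, sum_empty]
    omega
  | succ n ih =>
    intro hpar w
    have hpar' : IsPar n par := fun i h1 h2 => hpar i h1 (by omega)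
    by_cases hw : K ≤ w n
    · obtain ⟨S₀, h1, h2, h3⟩ := ih hpar' w
      refine ⟨insert n S₀, ?_, ?_, fun S hS r => ?_⟩
      · intro x hx
        rw [mem_insert] at hx
        rw [mem_range]
        rcases hx with hx | hx
        · omega
        · have := mem_range.1 (h1 hx)
          omega
      · rw [sum_range_succ]
        have h4 : (insert n S₀).card ≤ S₀.card + 1 := card_insert_le _ _
        calc (insert n S₀).card * K ≤ (S₀.card + 1) * K := Nat.mul_le_mul_right _ h4
          _ = S₀.card * K + K := by ring
          _ ≤ _ := Nat.add_le_add h2 hw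
      · rw [dc1b_comp_succ, if_neg (fun hc => hc.1 (hS (mem_insert_self _ _))), add_zero]
        exact h3 S (fun x hx => hS (mem_insert_of_mem hx)) r
    · rw [not_le] at hw
      rcases Nat.eq_zero_or_pos n with hn | hn
      · subst hn
        refine ⟨∅, by simp, by simp, fun S _ r => ?_⟩
        rw [dc1b_comp_succ]
        have : comp 0 par S r = ∅ := by simp [comp]
        rw [this, sum_empty]
        split_ifs <;> omega
      · have hp : par n < n := hpar n hn (by omega)
        obtain ⟨S₀, h1, h2, h3⟩ := ih hpar' (fun i => w i + if i = par n then w n else 0)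
        refine ⟨S₀, ?_, ?_, fun S hS r => ?_⟩
        · intro x hx
          rw [mem_range]
          have := mem_range.1 (h1 hx)
          omega
        · rw [sum_add_distrib, sum_ite_eq', if_pos (mem_range.2 hp)] at h2
          rw [sum_range_succ]
          exact h2
        · have h4 := h3 S hS r
          rw [sum_add_distrib, sum_ite_eq'] at h4
          rw [dc1b_comp_succ]
          by_cases hc : n ∉ S ∧ topv par S n = r
          · rw [if_pos hc]
            by_cases hpS : par n ∈ S
            · have h5 : topv par S n = n := topv_stop hpS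
              have h6 : comp n par S r = ∅ := by
                rw [eq_empty_iff_forall_notMem]
                intro i hi
                unfold comp at hi
                rw [mem_filter, mem_range] at hi
                have h7 := topv_le par S i
                have h8 := hc.2
                rw [h5] at h8
                rw [hi.2.2, ← h8] at h7
                omega
              rw [h6, sum_empty]
              omega
            · have h5 : topv par S n = topv par S (par n) := topv_step hp hpS
              have h6 : par n ∈ comp n par S r := by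
                unfold comp
                rw [mem_filter, mem_range]
                exact ⟨hp, hpS, h5.symm.trans hc.2⟩
              rw [if_pos h6] at h4
              exact h4
          · rw [if_neg hc]
            omega

theorem small_comps (n : ℕ) (par : ℕ → ℕ) (hpar : IsPar n par) (K : ℕ) (hK : 1 ≤ K) :
    ∃ S₀ ⊆ range n, S₀.card * K ≤ n ∧ ∀ S, S₀ ⊆ S → S ⊆ range n → ∀ r, (comp n par S r).card < K := by
  obtain ⟨S₀, h1, h2, h3⟩ := dc1b_wt par K hK n hpar (fun _ => 1)
  refine ⟨S₀, h1, by simpa using h2, fun S hS _ r => ?_⟩
  have := h3 S hS r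
  simpa using this

end SSB
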