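import Mathlib

/-!
# MP_8a819d_co, trees of bounded degree: basic definitions

* `dd a b` absolute difference of natural numbers;
* parent arrays, items (vertices and edges) of a set of vertices, numberings;
* units, blocks, matchable families (for the absorber).
-/

set_option autoImplicit false

namespace SSB

open Finset

/-- absolute difference of natural numbers -/
def dd (a b : ℕ) : ℕ := (a - b) + (b - a)

theorem dd_comm (a b : ℕ) : dd a b = dd b a := by unfold dd; omega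

theorem dd_natAbs (a b : ℕ) : dd a b = ((a : ℤ) - (b : ℤ)).natAbs := by unfold dd; omega

/-- parent array: the vertices are `0, ..., n-1` and the parent of `i ≥ 1` is `par i < i` -/
def IsPar (n : ℕ) (par : ℕ → ℕ) : Prop := ∀ i, 1 ≤ i → i < n → par i < i

/-- the children of `i` -/
def chs (n : ℕ) (par : ℕ → ℕ) (i : ℕ) : Finset ℕ :=
  (range n).filter (fun c => 1 ≤ c ∧ par c = i)

/-- the degree of `i` -/
def pdeg (n : ℕ) (par : ℕ → ℕ) (i : ℕ) : ℕ := (chs n par i).card + (if i = 0 then 0 else 1)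

/-- the items of a set `W` of vertices: the vertices `inl i` with `i ∈ W` and the edges
`inr i = {i, par i}` with `i ≥ 1` and both ends in `W` -/
def items (par : ℕ → ℕ) (W : Finset ℕ) : Finset (ℕ ⊕ ℕ) :=
  W.image Sum.inl ∪ (W.filter (fun i => 1 ≤ i ∧ par i ∈ W)).image Sum.inr

/-- the label of an item in the numbering `f` -/
def val (par : ℕ → ℕ) (f : ℕ → ℕ) : ℕ ⊕ ℕ → ℕ
  | Sum.inl i => f i
  | Sum.inr i => dd (f i) (f (par i))

/-- the parent array is simply sequential (the items of the tree are `2 n - 1` in number, so an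
injective numbering with values in `1, ..., 2 n - 1` is a bijection) -/
def SSP (n : ℕ) (par : ℕ → ℕ) : Prop :=
  ∃ f : ℕ → ℕ, Set.InjOn (val par f) (items par (range n)) ∧
    ∀ x ∈ items par (range n), 1 ≤ val par f x ∧ val par f x ≤ 2 * n - 1

@[simp] theorem mem_items_inl {par : ℕ → ℕ} {W : Finset ℕ} {i : ℕ} :
    Sum.inl i ∈ items par W ↔ i ∈ W := by
  simp [items]

@[simp] theorem mem_items_inr {par : ℕ → ℕ} {W : Finset ℕ} {i : ℕ} :
    Sum.inr i ∈ items par W ↔ i ∈ W ∧ 1 ≤ i ∧ par i ∈ W := by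
  simp [items]

@[simp] theorem val_inl (par f : ℕ → ℕ) (i : ℕ) : val par f (Sum.inl i) = f i := rfl
@[simp] theorem val_inr (par f : ℕ → ℕ) (i : ℕ) : val par f (Sum.inr i) = dd (f i) (f (par i)) := rfl

theorem mem_chs {n : ℕ} {par : ℕ → ℕ} {i c : ℕ} : c ∈ chs n par i ↔ c < n ∧ 1 ≤ c ∧ par c = i := by
  simp [chs]

/-! ### units and blocks -/

/-- the labels of a set of units (a unit is a pair of labels; for `t = 1` the two are equal) -/
def labs (D : Finset (ℕ × ℕ)) : Finset ℕ := D.image Prod.fst ∪ D.image Prod.snd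

/-- all the labels of the units are distinct -/
def UnitOK (t : ℕ) (D : Finset (ℕ × ℕ)) : Prop :=
  (t = 1 → ∀ d ∈ D, d.1 = d.2) ∧ (labs D).card = t * D.card

/-- the set `s` of `t + 1` labels can be taken by a vertex whose neighbours have the labels `d.1`,
`d.2`, and the edges to these neighbours -/
def IsBlock (t : ℕ) (d : ℕ × ℕ) (s : Finset ℕ) : Prop :=
  ∃ a, s = {a, dd a d.1, dd a d.2} ∧ 0 ∉ s ∧ s.card = t + 1

/-- the labels in `W` can be distributed in blocks to the units of `D` -/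
def Matchable (t : ℕ) (D : Finset (ℕ × ℕ)) (W : Finset ℕ) : Prop :=
  ∃ β : ℕ × ℕ → Finset ℕ, (∀ d ∈ D, IsBlock t d (β d)) ∧
    (∀ d ∈ D, ∀ d' ∈ D, d ≠ d' → Disjoint (β d) (β d')) ∧ D.biUnion β = W

theorem mem_labs {D : Finset (ℕ × ℕ)} {x : ℕ} :
    x ∈ labs D ↔ ∃ d ∈ D, x = d.1 ∨ x = d.2 := by
  simp only [labs, mem_union, mem_image]
  constructor
  · rintro (⟨d, hd, rfl⟩ | ⟨d, hd, rfl⟩)
    · exact ⟨d, hd, Or.inl rfl⟩
    · exact ⟨d, hd, Or.inr rfl⟩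
  · rintro ⟨d, hd, rfl | rfl⟩
    · exact Or.inl ⟨d, hd, rfl⟩
    · exact Or.inr ⟨d, hd, rfl⟩

/-- the conditions on the absorber `A` (labels) and `D` (units), `R` being the reserve -/
structure AbsData (t N : ℕ) (R A : Finset ℕ) (D : Finset (ℕ × ℕ)) (ε β : ℝ) : Prop where
  A_sub : A ⊆ Icc 1 N
  D_sub : labs D ⊆ Icc 1 N
  AD : Disjoint A (labs D)
  AR : Disjoint A R
  DR : Disjoint (labs D) R
  unit : UnitOK t D
  A_le : (A.card : ℝ) ≤ ε * N
  D_le : (D.card : ℝ) ≤ ε * N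
  gap : (A.card : ℝ) + 2 * β * N ≤ (t + 1) * D.card

/-- the absorber theorem -/
def AbsStatement (t : ℕ) : Prop :=
  ∀ ε : ℝ, 0 < ε → ∃ ζ : ℝ, 0 < ζ ∧ ζ ≤ ε ∧ ∃ β : ℝ, 0 < β ∧ ∃ N₀ : ℕ, ∀ N : ℕ, N₀ ≤ N →
    ∀ R : Finset ℕ, (∀ x ∈ R, ζ * N < x ∧ x ≤ N) → (R.card : ℝ) ≤ β * N →
      ∃ (A : Finset ℕ) (D : Finset (ℕ × ℕ)), AbsData t N R A D ε β ∧
        ∀ J : Finset ℕ, J ⊆ Icc 1 N → Disjoint J A → Disjoint J (labs D) →
          J.card + A.card = (t + 1) * D.card →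
          (t = 1 → (∑ x ∈ A, x + ∑ x ∈ J, x + ∑ x ∈ labs D, x) % 2 = 0) →
          Matchable t D (A ∪ J)

/-- the embedding theorem -/
def EmbStatement (t : ℕ) : Prop :=
  ∀ Δ : ℕ, ∃ ε : ℝ, 0 < ε ∧ ∀ ζ : ℝ, 0 < ζ → ζ ≤ ε → ∀ β : ℝ, 0 < β → ∃ n₀ : ℕ, ∀ n : ℕ, n₀ ≤ n →
    ∃ R : Finset ℕ, (∀ x ∈ R, ζ * (2 * n - 1 : ℕ) < x ∧ x ≤ 2 * n - 1) ∧
      (R.card : ℝ) ≤ β * (2 * n - 1 : ℕ) ∧
      ∀ (A : Finset ℕ) (D : Finset (ℕ × ℕ)), AbsData t (2 * n - 1) R A D ε β →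
        ∀ par : ℕ → ℕ, IsPar n par → (∀ i < n, pdeg n par i ≤ Δ) →
          n ≤ 4 * ((range n).filter (fun i => pdeg n par i = t)).card →
          ∃ (Λ : Finset ℕ) (u : ℕ → ℕ × ℕ) (f : ℕ → ℕ),
            Λ ⊆ range n ∧
            (∀ v ∈ Λ, 1 ≤ v ∧ pdeg n par v = t ∧ par v ∉ Λ ∧ ∀ c ∈ chs n par v, c ∉ Λ) ∧
            Set.BijOn u Λ D ∧
            (∀ v ∈ Λ, insert (f (par v)) ((chs n par v).image f) = {(u v).1, (u v).2}) ∧
            Set.InjOn (val par f) (items par (range n \ Λ)) ∧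
            (∀ x ∈ items par (range n \ Λ),
              1 ≤ val par f x ∧ val par f x ≤ 2 * n - 1 ∧ val par f x ∉ A) ∧
            (t = 1 → (∑ x ∈ items par (range n \ Λ), val par f x + ∑ c ∈ labs D, c + n) % 2 = 0)

end SSB
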