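import Pool.Agent.Lib.MP_8a819d_co.BD.Piece0

/-!
# MP_8a819d_co: embedding, 1. The environment of a family of units

JOB Em1 (all of this file). `unitOf D x` the unit containing the label `x ∈ labs D`; `rpD`, `prtD`.

If `UnitOK t D`, `t = 1` or `2`, the unit containing a label is unique: `|labs D| = t |D|` while every unit has at most `t` labels
(`t = 1`: `d.1 = d.2`); so all units have exactly `t` labels and the label sets are disjoint (e.g. `∑ d ∈ D, |{d.1, d.2}| ≤ t |D| = |labs D| =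
|⋃ {d.1, d.2}|`, and equality in the union bound forces disjointness, `Finset.card_biUnion_lt`-like; or remove one unit:
`|labs (D \ {d})| ≤ t (|D| - 1)`, so `labs D \ labs (D \ {d})` has at least `t` elements, all of them labels of `d`).
* `env_D`: the structure `Env` for `Q = Icc 1 N \ (A ∪ labs D ∪ R)`.
* `rp_image`: `(labs D).image (rpD D)` has `|D|` elements (`x ↦ x.1` is injective on `D`).
-/

set_option autoImplicit false

namespace SSB

open Finset

open Classical in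
noncomputable def unitOf (D : Finset (ℕ × ℕ)) (x : ℕ) : ℕ × ℕ :=
  if h : ∃ d ∈ D, x = d.1 ∨ x = d.2 then h.choose else (0, 0)

noncomputable def rpD (D : Finset (ℕ × ℕ)) (x : ℕ) : ℕ := (unitOf D x).1

noncomputable def prtD (D : Finset (ℕ × ℕ)) (x : ℕ) : ℕ :=
  if x = (unitOf D x).1 then (unitOf D x).2 else (unitOf D x).1

private theorem em1_two {D : Finset (ℕ × ℕ)} (h : UnitOK 2 D) :
    Set.InjOn Prod.fst (D : Set (ℕ × ℕ)) ∧ Set.InjOn Prod.snd (D : Set (ℕ × ℕ)) ∧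
      Disjoint (D.image Prod.fst) (D.image Prod.snd) := by
  have h1 : (D.image Prod.fst ∪ D.image Prod.snd).card = 2 * D.card := h.2
  have h2 : (D.image Prod.fst).card ≤ D.card := card_image_le
  have h3 : (D.image Prod.snd).card ≤ D.card := card_image_le
  have h4 := card_union_add_card_inter (D.image Prod.fst) (D.image Prod.snd)
  refine ⟨card_image_iff.mp (by omega), card_image_iff.mp (by omega), ?_⟩
  rw [disjoint_iff_inter_eq_empty, ← card_eq_zero]
  omega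

private theorem em1_one {D : Finset (ℕ × ℕ)} (h : UnitOK 1 D) :
    Set.InjOn Prod.fst (D : Set (ℕ × ℕ)) ∧ ∀ d ∈ D, d.1 = d.2 := by
  have h0 : ∀ d ∈ D, d.1 = d.2 := h.1 rfl
  have h1 : (D.image Prod.fst ∪ D.image Prod.snd).card = 1 * D.card := h.2
  have h2 : D.image Prod.snd = D.image Prod.fst := image_congr fun d hd => (h0 d hd).symm
  rw [h2, union_self, one_mul] at h1
  exact ⟨card_image_iff.mp h1, h0⟩

theorem unit_unique {t : ℕ} (ht : t = 1 ∨ t = 2) {D : Finset (ℕ × ℕ)} (h : UnitOK t D)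
    {d d' : ℕ × ℕ} (hd : d ∈ D) (hd' : d' ∈ D) {x : ℕ} (hx : x = d.1 ∨ x = d.2)
    (hx' : x = d'.1 ∨ x = d'.2) : d = d' := by
  rcases ht with rfl | rfl
  · obtain ⟨h1, h2⟩ := em1_one h
    have e1 := h2 d hd
    have e2 := h2 d' hd'
    refine h1 hd hd' ?_
    rcases hx with hx | hx <;> rcases hx' with hx' | hx' <;> omega
  · obtain ⟨h1, h2, h3⟩ := em1_two h
    rw [disjoint_left] at h3
    rcases hx with hx | hx <;> rcases hx' with hx' | hx'
    · exact h1 hd hd' (hx.symm.trans hx')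
    · exact absurd (mem_image.mpr ⟨d', hd', hx'.symm⟩) (h3 (mem_image.mpr ⟨d, hd, hx.symm⟩))
    · exact absurd (mem_image.mpr ⟨d, hd, hx.symm⟩) (h3 (mem_image.mpr ⟨d', hd', hx'.symm⟩))
    · exact h2 hd hd' (hx.symm.trans hx')

private theorem em1_mem {D : Finset (ℕ × ℕ)} {x : ℕ} :
    x ∈ labs D ↔ ∃ d ∈ D, x = d.1 ∨ x = d.2 := by
  unfold labs
  rw [mem_union, mem_image, mem_image]
  constructor
  · rintro (⟨d, hd, rfl⟩ | ⟨d, hd, rfl⟩)
    · exact ⟨d, hd, Or.inl rfl⟩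
    · exact ⟨d, hd, Or.inr rfl⟩
  · rintro ⟨d, hd, h | h⟩
    · exact Or.inl ⟨d, hd, h.symm⟩
    · exact Or.inr ⟨d, hd, h.symm⟩

theorem unit_ne {D : Finset (ℕ × ℕ)} (h : UnitOK 2 D) {d : ℕ × ℕ} (hd : d ∈ D) : d.1 ≠ d.2 := by
  obtain ⟨-, -, h3⟩ := em1_two h
  rw [disjoint_left] at h3
  intro h4
  exact h3 (mem_image.mpr ⟨d, hd, rfl⟩) (mem_image.mpr ⟨d, hd, h4.symm⟩)

theorem unitOf_mem {D : Finset (ℕ × ℕ)} {x : ℕ} (hx : x ∈ labs D) :
    unitOf D x ∈ D ∧ (x = (unitOf D x).1 ∨ x = (unitOf D x).2) := by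
  have h : ∃ d ∈ D, x = d.1 ∨ x = d.2 := em1_mem.mp hx
  unfold unitOf
  rw [dif_pos h]
  exact h.choose_spec

theorem unitOf_eq {t : ℕ} (ht : t = 1 ∨ t = 2) {D : Finset (ℕ × ℕ)} (h : UnitOK t D)
    {d : ℕ × ℕ} (hd : d ∈ D) {x : ℕ} (hx : x = d.1 ∨ x = d.2) : unitOf D x = d := by
  obtain ⟨h1, h2⟩ := unitOf_mem (em1_mem.mpr ⟨d, hd, hx⟩)
  exact unit_unique ht h h1 hd h2 hx

private theorem em1_prt_fst {t : ℕ} (ht : t = 1 ∨ t = 2) {D : Finset (ℕ × ℕ)} (h : UnitOK t D)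
    {d : ℕ × ℕ} (hd : d ∈ D) : prtD D d.1 = d.2 := by
  unfold prtD
  rw [unitOf_eq ht h hd (Or.inl rfl), if_pos rfl]

private theorem em1_prt_snd {t : ℕ} (ht : t = 1 ∨ t = 2) {D : Finset (ℕ × ℕ)} (h : UnitOK t D)
    {d : ℕ × ℕ} (hd : d ∈ D) : prtD D d.2 = d.1 := by
  unfold prtD
  rw [unitOf_eq ht h hd (Or.inr rfl)]
  split_ifs with h1
  · exact h1
  · rfl

private theorem em1_rp_fst {t : ℕ} (ht : t = 1 ∨ t = 2) {D : Finset (ℕ × ℕ)} (h : UnitOK t D)
    {d : ℕ × ℕ} (hd : d ∈ D) : rpD D d.1 = d.1 := by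
  unfold rpD
  rw [unitOf_eq ht h hd (Or.inl rfl)]

private theorem em1_rp_snd {t : ℕ} (ht : t = 1 ∨ t = 2) {D : Finset (ℕ × ℕ)} (h : UnitOK t D)
    {d : ℕ × ℕ} (hd : d ∈ D) : rpD D d.2 = d.1 := by
  unfold rpD
  rw [unitOf_eq ht h hd (Or.inr rfl)]

theorem env_D {t N : ℕ} (ht : t = 1 ∨ t = 2) {A R : Finset ℕ} {D : Finset (ℕ × ℕ)}
    (h : UnitOK t D) (hD : labs D ⊆ Icc 1 N) :
    Env N t (Icc 1 N \ (A ∪ labs D ∪ R)) (labs D) (rpD D) (prtD D) := by
  have hf : ∀ d ∈ D, d.1 ∈ labs D := fun d hd => em1_mem.mpr ⟨d, hd, Or.inl rfl⟩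
  have hs : ∀ d ∈ D, d.2 ∈ labs D := fun d hd => em1_mem.mpr ⟨d, hd, Or.inr rfl⟩
  refine ⟨ht, sdiff_subset, hD, ?_, ?_, ?_, ?_, ?_, ?_, ?_⟩
  · rw [disjoint_left]
    intro x hx hx'
    rw [mem_sdiff, mem_union, mem_union] at hx
    exact hx.2 (Or.inl (Or.inr hx'))
  · intro x hx
    obtain ⟨d, hd, rfl | rfl⟩ := em1_mem.mp hx
    · rw [em1_rp_fst ht h hd]
      exact hf d hd
    · rw [em1_rp_snd ht h hd]
      exact hf d hd
  · intro x hx
    obtain ⟨d, hd, rfl | rfl⟩ := em1_mem.mp hx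
    · rw [em1_prt_fst ht h hd]
      exact hs d hd
    · rw [em1_prt_snd ht h hd]
      exact hf d hd
  · intro x hx
    obtain ⟨d, hd, rfl | rfl⟩ := em1_mem.mp hx
    · rw [em1_prt_fst ht h hd, em1_prt_snd ht h hd]
    · rw [em1_prt_snd ht h hd, em1_prt_fst ht h hd]
  · intro x hx y hy
    obtain ⟨d, hd, hx1⟩ := em1_mem.mp hx
    obtain ⟨d', hd', hy1⟩ := em1_mem.mp hy
    have hrx : rpD D x = d.1 := by
      rcases hx1 with rfl | rfl
      · exact em1_rp_fst ht h hd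
      · exact em1_rp_snd ht h hd
    have hry : rpD D y = d'.1 := by
      rcases hy1 with rfl | rfl
      · exact em1_rp_fst ht h hd'
      · exact em1_rp_snd ht h hd'
    rw [hrx, hry]
    constructor
    · intro h1
      have h2 : d = d' := unit_unique ht h hd hd' (Or.inl rfl) (Or.inl h1)
      subst h2
      rcases hx1 with rfl | rfl
      · rw [em1_prt_fst ht h hd]
        exact hy1
      · rw [em1_prt_snd ht h hd]
        exact hy1.symm
    · intro h1
      have h2 : y = d.1 ∨ y = d.2 := by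
        rcases hx1 with rfl | rfl
        · rw [em1_prt_fst ht h hd] at h1
          exact h1
        · rw [em1_prt_snd ht h hd] at h1
          exact h1.symm
      rw [unit_unique ht h hd hd' h2 hy1]
  · intro x hx
    obtain ⟨d, hd, rfl | rfl⟩ := em1_mem.mp hx
    · exact Or.inl (em1_rp_fst ht h hd)
    · rw [em1_rp_snd ht h hd, em1_prt_snd ht h hd]
      exact Or.inr rfl
  · intro x hx
    obtain ⟨d, hd, hx1⟩ := em1_mem.mp hx
    constructor
    · intro h1
      subst h1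
      have h2 := h.1 rfl d hd
      rcases hx1 with rfl | rfl
      · rw [em1_prt_fst ht h hd, h2]
      · rw [em1_prt_snd ht h hd, h2]
    · intro h1
      subst h1
      have h2 := unit_ne h hd
      rcases hx1 with rfl | rfl
      · rw [em1_prt_fst ht h hd]
        exact h2.symm
      · rw [em1_prt_snd ht h hd]
        exact h2

theorem rp_image {t : ℕ} (ht : t = 1 ∨ t = 2) {D : Finset (ℕ × ℕ)} (h : UnitOK t D) :
    ((labs D).image (rpD D)).card = D.card := by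
  have h1 : (labs D).image (rpD D) = D.image Prod.fst := by
    ext y
    rw [mem_image, mem_image]
    constructor
    · rintro ⟨x, hx, rfl⟩
      obtain ⟨d, hd, rfl | rfl⟩ := em1_mem.mp hx
      · exact ⟨d, hd, (em1_rp_fst ht h hd).symm⟩
      · exact ⟨d, hd, (em1_rp_snd ht h hd).symm⟩
    · rintro ⟨d, hd, rfl⟩
      exact ⟨d.1, em1_mem.mpr ⟨d, hd, Or.inl rfl⟩, em1_rp_fst ht h hd⟩
  rw [h1]
  refine card_image_of_injOn ?_
  intro d hd d' hd' h2
  exact unit_unique ht h hd hd' (Or.inl rfl) (Or.inl h2)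

/-- the set of labels of the unit of `x` -/
theorem unit_pair {t : ℕ} (ht : t = 1 ∨ t = 2) {D : Finset (ℕ × ℕ)} (h : UnitOK t D) {x : ℕ}
    (hx : x ∈ labs D) : ({x, prtD D x} : Finset ℕ) = {(unitOf D x).1, (unitOf D x).2} := by
  obtain ⟨d, hd, hx1⟩ := em1_mem.mp hx
  rw [unitOf_eq ht h hd hx1]
  rcases hx1 with rfl | rfl
  · rw [em1_prt_fst ht h hd]
  · rw [em1_prt_snd ht h hd, pair_comm]

end SSB
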