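import Pool.Agent.Lib.MP_8a819d_co.BD.Dc

/-!
# MP_8a819d_co: embedding, 2. Counting types in the pieces

For a set `X` of pieces (`X : Finset (Fin np)`).

JOB Em2 (all of this file).

* `cnt_PU`, `cnt_OP`: the number of units in the pieces of `X` (vertices `emb p i` of type `U`) is `∑ p ∈ X, cnt P U` (a unit is not a
  root, its parent is of type `P`, `Deco`, `TyOK.U1`), and equals `∑ p ∈ X, cnt O P`: the map from units `v` to `par v` (in the same piece) is a bijection
  to the vertices of type `P` with parent of type `O`: `par v` is of type `P` and has the child `v` of type `U`, so by `P1` its parent is not of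
  type `U`, so of type `O`; conversely a vertex of type `P` with parent of type `O` has exactly one child of type `U`. (These children are in the same
  piece: a child `c` of `emb p i` with `c ∉ S` is `emb p j` with `par j = i`: `emb_par`, `emb_root`.)
* `cnt_UP`: `∑ cnt U P = (t - 1) * (number of units)`: a unit `v ≥ 1` of degree `t` has `t - 1` children, all of type `P`, not in `S`.
* `cnt_PO`: every vertex of type `P` has at most `Δ` children; the number of vertices of type `P` is at most `cnt O P + cnt U P ≤ t cnt O P`; so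
  `∑ cnt P O ≤ Δ t ∑ cnt O P`.
* `np_le`: the roots `emb p 0` are different children of elements of `S`: `np ≤ Δ |S|`.
* `sum_k`: `∑ p ∈ X, (k + 1)` is the number of vertices in the pieces of `X`; for `X = univ` it is `n - |S|`.
-/

set_option autoImplicit false

namespace SSB

open Finset

variable {n t np Δ : ℕ} {par : ℕ → ℕ} {S : Finset ℕ} {ty : ℕ → Ty} {pc : Fin np → Piece}
  {emb : (p : Fin np) → Fin ((pc p).k + 1) → ℕ}

/-- the vertices in the piece `p` -/
def vx (emb : (p : Fin np) → Fin ((pc p).k + 1) → ℕ) (p : Fin np) : Finset ℕ := univ.image (emb p)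

private theorem em2_inj (h : Deco n par t S ty np pc emb) (p : Fin np) :
    Function.Injective (emb p) := by
  intro i j hij
  have h1 := @h.emb_inj ⟨p, i⟩ ⟨p, j⟩ hij
  exact eq_of_heq (Sigma.mk.inj h1).2

private theorem em2_same (h : Deco n par t S ty np pc emb) {p q : Fin np} {i : Fin ((pc p).k + 1)}
    {j : Fin ((pc q).k + 1)} (hij : emb p i = emb q j) : p = q := by
  have h1 := @h.emb_inj ⟨p, i⟩ ⟨q, j⟩ hij
  exact congrArg Sigma.fst h1

private theorem em2_mem {p : Fin np} {v : ℕ} : v ∈ vx emb p ↔ ∃ i, emb p i = v := by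
  unfold vx
  simp

theorem vx_card (h : Deco n par t S ty np pc emb) (p : Fin np) : (vx emb p).card = (pc p).k + 1 := by
  unfold vx
  rw [card_image_of_injective _ (em2_inj h p), card_univ, Fintype.card_fin]

theorem vx_disj (h : Deco n par t S ty np pc emb) {p q : Fin np} (hpq : p ≠ q) :
    Disjoint (vx emb p) (vx emb q) := by
  rw [Finset.disjoint_left]
  intro v hp hq
  obtain ⟨i, hi⟩ := em2_mem.1 hp
  obtain ⟨j, hj⟩ := em2_mem.1 hq
  exact hpq (em2_same h (hi.trans hj.symm))

theorem vx_union (h : Deco n par t S ty np pc emb) :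
    (univ : Finset (Fin np)).biUnion (vx emb) = range n \ S := by
  ext v
  rw [mem_biUnion, mem_sdiff, mem_range]
  constructor
  · rintro ⟨p, _, hv⟩
    obtain ⟨i, rfl⟩ := em2_mem.1 hv
    exact ⟨h.emb_lt p i, h.emb_S p i⟩
  · rintro ⟨h1, h2⟩
    obtain ⟨p, i, hi⟩ := h.emb_surj v h1 h2
    exact ⟨p, mem_univ _, em2_mem.2 ⟨i, hi⟩⟩

/-- neighbours outside `S` are in the same piece -/
theorem vx_par (h : Deco n par t S ty np pc emb) (hpar : IsPar n par) {p : Fin np} {v : ℕ} (hv : v < n)
    (hv1 : 1 ≤ v) (hvS : v ∉ S) (hpS : par v ∉ S) : v ∈ vx emb p ↔ par v ∈ vx emb p := by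
  have key : ∀ q : Fin np, v ∈ vx emb q → par v ∈ vx emb q := by
    intro q hq
    obtain ⟨i, rfl⟩ := em2_mem.1 hq
    have hi0 : i ≠ 0 := by
      rintro rfl
      exact hpS (h.emb_root q).2
    rw [h.emb_par q i hi0]
    exact em2_mem.2 ⟨_, rfl⟩
  refine ⟨key p, fun hp => ?_⟩
  obtain ⟨q, j, hj⟩ := h.emb_surj v hv hvS
  have h1 : v ∈ vx emb q := em2_mem.2 ⟨j, hj⟩
  obtain ⟨a, ha⟩ := em2_mem.1 (key q h1)
  obtain ⟨b, hb⟩ := em2_mem.1 hp
  have h2 := em2_same h (ha.trans hb.symm)
  rw [← h2]
  exact h1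

theorem sum_k (h : Deco n par t S ty np pc emb) : ∑ p, ((pc p).k + 1) + S.card = n := by
  have h1 : ((univ : Finset (Fin np)).biUnion (vx emb)).card = ∑ p, (vx emb p).card :=
    card_biUnion (fun p _ q _ hpq => vx_disj h hpq)
  rw [vx_union h] at h1
  have h2 : ∑ p, (vx emb p).card = ∑ p, ((pc p).k + 1) := sum_congr rfl fun p _ => vx_card h p
  rw [← h2, ← h1, card_sdiff_add_card_eq_card h.S_sub, card_range]

private theorem em2_pos (h : Deco n par t S ty np pc emb) (p : Fin np)
    (i : Fin ((pc p).k + 1)) : 1 ≤ emb p i := by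
  rcases Nat.eq_zero_or_pos (emb p i) with h0 | h0
  · exfalso
    have := h.emb_S p i
    rw [h0] at this
    exact this h.zero_mem
  · exact h0

private theorem em2_child (h : Deco n par t S ty np pc emb) {p : Fin np}
    {j : Fin ((pc p).k + 1)} (hj : j ≠ 0) : emb p j ∈ chs n par (emb p ((pc p).par j)) := by
  rw [mem_chs]
  exact ⟨h.emb_lt p j, em2_pos h p j, h.emb_par p j hj⟩

/-- a child outside `S` of a vertex of the piece is in the piece -/
private theorem em2_lift (h : Deco n par t S ty np pc emb) (hpar : IsPar n par) {p : Fin np}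
    {j : Fin ((pc p).k + 1)} {c : ℕ} (hc : c ∈ chs n par (emb p j)) (hcS : c ∉ S) :
    ∃ i, i ≠ 0 ∧ emb p i = c ∧ (pc p).par i = j := by
  obtain ⟨h1, h2, h3⟩ := mem_chs.1 hc
  have hpS : par c ∉ S := by rw [h3]; exact h.emb_S p j
  have h4 : c ∈ vx emb p := by
    rw [vx_par h hpar h1 h2 hcS hpS, h3]
    exact em2_mem.2 ⟨j, rfl⟩
  obtain ⟨i, hi⟩ := em2_mem.1 h4
  have hi0 : i ≠ 0 := by
    rintro rfl
    rw [← hi] at hpS
    exact hpS (h.emb_root p).2
  refine ⟨i, hi0, hi, ?_⟩
  apply em2_inj h p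
  rw [← h.emb_par p i hi0, hi, h3]

private theorem em2_root (h : Deco n par t S ty np pc emb) {p : Fin np} {i : Fin ((pc p).k + 1)}
    {a : Ty} (hi : (pc p).ty i = a) (ha : a ≠ Ty.O) : i ≠ 0 := by
  rintro rfl
  rw [(h.wf p).root] at hi
  exact ha hi.symm

private theorem em2_okU (h : Deco n par t S ty np pc emb) {p : Fin np} {i : Fin ((pc p).k + 1)}
    (hi : (pc p).ty i = Ty.U) : i ≠ 0 ∧ (pc p).ty ((pc p).par i) = Ty.P := by
  have hi0 : i ≠ 0 := em2_root h hi (by decide)
  refine ⟨hi0, ?_⟩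
  have h1 := (h.wf p).ok i hi0
  rw [hi] at h1
  cases h2 : (pc p).ty ((pc p).par i)
  · rw [h2] at h1; exact absurd h1 (by decide)
  · rfl
  · rw [h2] at h1; exact absurd h1 (by decide)

private theorem em2_okP (h : Deco n par t S ty np pc emb) {p : Fin np} {i : Fin ((pc p).k + 1)}
    (hi : (pc p).ty i = Ty.P) : i ≠ 0 ∧ ((pc p).ty ((pc p).par i) = Ty.O ∨
      (pc p).ty ((pc p).par i) = Ty.U) := by
  have hi0 : i ≠ 0 := em2_root h hi (by decide)
  refine ⟨hi0, ?_⟩
  have h1 := (h.wf p).ok i hi0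
  rw [hi] at h1
  cases h2 : (pc p).ty ((pc p).par i)
  · exact Or.inl rfl
  · rw [h2] at h1; exact absurd h1 (by decide)
  · exact Or.inr rfl

private theorem em2_units (h : Deco n par t S ty np pc emb) (p : Fin np) :
    ((vx emb p).filter (fun v => ty v = Ty.U)).card =
      (univ.filter (fun i => (pc p).ty i = Ty.U)).card := by
  have h1 : (vx emb p).filter (fun v => ty v = Ty.U) =
      (univ.filter (fun i => (pc p).ty i = Ty.U)).image (emb p) := by
    ext v
    rw [mem_filter, em2_mem, mem_image]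
    constructor
    · rintro ⟨⟨i, rfl⟩, hv⟩
      exact ⟨i, mem_filter.2 ⟨mem_univ _, by rw [h.emb_ty]; exact hv⟩, rfl⟩
    · rintro ⟨i, hi, rfl⟩
      have := (mem_filter.1 hi).2
      rw [h.emb_ty] at this
      exact ⟨⟨i, rfl⟩, this⟩
  rw [h1, card_image_of_injective _ (em2_inj h p)]

theorem cnt_PU (h : Deco n par t S ty np pc emb) (p : Fin np) :
    (pc p).cnt Ty.P Ty.U = ((vx emb p).filter (fun v => ty v = Ty.U)).card := by
  rw [em2_units h p]
  unfold Piece.cnt
  congr 1
  ext i
  rw [mem_filter, mem_filter]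
  constructor
  · rintro ⟨a, _, _, b⟩
    exact ⟨a, b⟩
  · rintro ⟨a, b⟩
    obtain ⟨c, d⟩ := em2_okU h b
    exact ⟨a, c, d, b⟩

private theorem em2_tyU (h : Deco n par t S ty np pc emb) {p : Fin np} {i : Fin ((pc p).k + 1)}
    {a : Ty} (hi : (pc p).ty i = a) : ty (emb p i) = a := by
  rw [← h.emb_ty]; exact hi

theorem cnt_OP (h : Deco n par t S ty np pc emb) (hpar : IsPar n par) (p : Fin np) :
    (pc p).cnt Ty.O Ty.P = ((vx emb p).filter (fun v => ty v = Ty.U)).card := by
  rw [em2_units h p]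
  unfold Piece.cnt
  symm
  refine card_bij (fun i _ => (pc p).par i) ?_ ?_ ?_
  · intro i hi
    have hU := (mem_filter.1 hi).2
    obtain ⟨hi0, hP⟩ := em2_okU h hU
    obtain ⟨hj0, _⟩ := em2_okP h hP
    rw [mem_filter]
    refine ⟨mem_univ _, hj0, ?_, hP⟩
    have hP1 := (h.tyok.P1 _ (h.emb_lt p _) (em2_tyU h hP)).2.2.2
    rcases hP1 with h1 | h1
    · exact absurd (em2_tyU h hU) (h1.2 _ (em2_child h hi0))
    · rw [h.emb_ty, ← h.emb_par p _ hj0]
      exact h1.1
  · intro i hi i' hi' hii
    have hU := (mem_filter.1 hi).2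
    have hU' := (mem_filter.1 hi').2
    obtain ⟨hi0, hP⟩ := em2_okU h hU
    obtain ⟨hi0', hP'⟩ := em2_okU h hU'
    have hP1 := (h.tyok.P1 _ (h.emb_lt p _) (em2_tyU h hP)).2.2.2
    rcases hP1 with h1 | h1
    · exact absurd (em2_tyU h hU) (h1.2 _ (em2_child h hi0))
    · obtain ⟨_, c, _, _, huniq⟩ := h1
      have e1 := huniq _ (em2_child h hi0) (em2_tyU h hU)
      have e2 := huniq (emb p i') (by
        show emb p i' ∈ chs n par (emb p ((pc p).par i))
        have hii' : (pc p).par i = (pc p).par i' := hii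
        rw [hii']
        exact em2_child h hi0') (em2_tyU h hU')
      exact em2_inj h p (e1.trans e2.symm)
  · intro j hj
    obtain ⟨_, hj0, hO, hP⟩ := mem_filter.1 hj
    have hP1 := (h.tyok.P1 _ (h.emb_lt p _) (em2_tyU h hP)).2.2.2
    rcases hP1 with h1 | h1
    · exfalso
      have := h1.1
      rw [h.emb_par p _ hj0, ← h.emb_ty, hO] at this
      exact absurd this (by decide)
    · obtain ⟨_, c, hc, hcU, _⟩ := h1
      have hcS := (h.tyok.U1 c (mem_chs.1 hc).1 hcU).2.1
      obtain ⟨i, hi0, hic, hij⟩ := em2_lift h hpar hc hcS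
      refine ⟨i, mem_filter.2 ⟨mem_univ _, ?_⟩, hij⟩
      rw [h.emb_ty, hic]
      exact hcU

theorem cnt_UP (h : Deco n par t S ty np pc emb) (hpar : IsPar n par) (ht : 1 ≤ t) (p : Fin np) :
    (pc p).cnt Ty.U Ty.P = (t - 1) * ((vx emb p).filter (fun v => ty v = Ty.U)).card := by
  rw [em2_units h p]
  unfold Piece.cnt
  rw [card_eq_sum_card_fiberwise (f := (pc p).par)
    (t := univ.filter (fun i => (pc p).ty i = Ty.U))]
  · have hfib : ∀ m ∈ univ.filter (fun i => (pc p).ty i = Ty.U),
        ((univ.filter (fun i => i ≠ 0 ∧ (pc p).ty ((pc p).par i) = Ty.U ∧ (pc p).ty i = Ty.P)).filter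
          (fun i => (pc p).par i = m)).card = t - 1 := by
      intro m hm
      have hU := (mem_filter.1 hm).2
      have hU1 := h.tyok.U1 _ (h.emb_lt p m) (em2_tyU h hU)
      have hdeg := hU1.2.2.1
      unfold pdeg at hdeg
      have hpos := em2_pos h p m
      rw [if_neg (by omega)] at hdeg
      have hcard : ((univ.filter (fun i => i ≠ 0 ∧ (pc p).ty ((pc p).par i) = Ty.U ∧
          (pc p).ty i = Ty.P)).filter (fun i => (pc p).par i = m)).card =
          (chs n par (emb p m)).card := by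
        refine card_bij (fun i _ => emb p i) ?_ ?_ ?_
        · intro i hi
          obtain ⟨hi1, hi2⟩ := mem_filter.1 hi
          obtain ⟨_, hi0, _, _⟩ := mem_filter.1 hi1
          have := em2_child h hi0
          rw [hi2] at this
          exact this
        · intro i _ i' _ hii
          exact em2_inj h p hii
        · intro c hc
          obtain ⟨hcS, hcP⟩ := hU1.2.2.2.2.2 c hc
          obtain ⟨i, hi0, hic, him⟩ := em2_lift h hpar hc hcS
          refine ⟨i, mem_filter.2 ⟨mem_filter.2 ⟨mem_univ _, hi0, ?_, ?_⟩, him⟩, hic⟩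
          · rw [him]; exact hU
          · rw [h.emb_ty, hic]; exact hcP
      rw [hcard]
      omega
    rw [sum_congr rfl hfib, sum_const, smul_eq_mul, mul_comm]
  · intro i hi
    rw [mem_coe, mem_filter] at hi
    rw [mem_coe, mem_filter]
    exact ⟨mem_univ _, hi.2.2.1⟩

theorem cnt_PO (h : Deco n par t S ty np pc emb) (hpar : IsPar n par)
    (hdeg : ∀ i < n, pdeg n par i ≤ Δ) (ht : 1 ≤ t) (p : Fin np) :
    (pc p).cnt Ty.P Ty.O ≤ Δ * t * ((vx emb p).filter (fun v => ty v = Ty.U)).card := by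
  have hP : (univ.filter (fun i => (pc p).ty i = Ty.P)).card ≤
      t * ((vx emb p).filter (fun v => ty v = Ty.U)).card := by
    have h1 : univ.filter (fun i => (pc p).ty i = Ty.P) ⊆
        univ.filter (fun i => i ≠ 0 ∧ (pc p).ty ((pc p).par i) = Ty.O ∧ (pc p).ty i = Ty.P) ∪
        univ.filter (fun i => i ≠ 0 ∧ (pc p).ty ((pc p).par i) = Ty.U ∧ (pc p).ty i = Ty.P) := by
      intro i hi
      have hiP := (mem_filter.1 hi).2
      obtain ⟨hi0, h2⟩ := em2_okP h hiP
      rw [mem_union, mem_filter, mem_filter]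
      rcases h2 with h2 | h2
      · exact Or.inl ⟨mem_univ _, hi0, h2, hiP⟩
      · exact Or.inr ⟨mem_univ _, hi0, h2, hiP⟩
    have h2 := (card_le_card h1).trans (card_union_le _ _)
    have h3 := cnt_OP h hpar p
    have h4 := cnt_UP h hpar ht p
    unfold Piece.cnt at h3 h4
    rw [h3, h4] at h2
    refine h2.trans (le_of_eq ?_)
    obtain ⟨s, rfl⟩ : ∃ s, t = s + 1 := ⟨t - 1, by omega⟩
    rw [Nat.add_sub_cancel]
    ring
  unfold Piece.cnt
  have hfib := card_le_mul_card_image_of_maps_to (s := univ.filter (fun i => i ≠ 0 ∧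
      (pc p).ty ((pc p).par i) = Ty.P ∧ (pc p).ty i = Ty.O))
    (t := univ.filter (fun i => (pc p).ty i = Ty.P)) (f := (pc p).par) (n := Δ)
    (by
      intro i hi
      rw [mem_filter] at hi
      rw [mem_filter]
      exact ⟨mem_univ _, hi.2.2.1⟩)
    (by
      intro j hj
      have hjlt := h.emb_lt p j
      have h1 : ((univ.filter (fun i => i ≠ 0 ∧ (pc p).ty ((pc p).par i) = Ty.P ∧
          (pc p).ty i = Ty.O)).filter (fun i => (pc p).par i = j)).card ≤
          (chs n par (emb p j)).card := by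
        refine card_le_card_of_injOn (emb p) ?_ ((em2_inj h p).injOn)
        intro i hi
        rw [mem_coe, mem_filter, mem_filter] at hi
        have := em2_child h hi.1.2.1
        rw [hi.2] at this
        exact this
      refine h1.trans ?_
      have h2 := hdeg _ hjlt
      unfold pdeg at h2
      omega)
  refine hfib.trans ?_
  rw [mul_assoc]
  exact Nat.mul_le_mul_left _ hP

theorem np_le (h : Deco n par t S ty np pc emb) (hdeg : ∀ i < n, pdeg n par i ≤ Δ) :
    np ≤ Δ * S.card := by
  have h1 : (univ.image (fun p : Fin np => emb p 0)).card = np := by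
    rw [card_image_of_injective, card_univ, Fintype.card_fin]
    intro p q hpq
    exact em2_same h hpq
  have h2 : univ.image (fun p : Fin np => emb p 0) ⊆ S.biUnion (fun s => chs n par s) := by
    intro v hv
    obtain ⟨p, _, rfl⟩ := mem_image.1 hv
    rw [mem_biUnion]
    refine ⟨par (emb p 0), (h.emb_root p).2, ?_⟩
    rw [mem_chs]
    exact ⟨h.emb_lt p 0, (h.emb_root p).1, rfl⟩
  have h3 : (S.biUnion (fun s => chs n par s)).card ≤ ∑ s ∈ S, Δ := by
    refine card_biUnion_le.trans (sum_le_sum fun s hs => ?_)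
    have h4 := hdeg s (mem_range.1 (h.S_sub hs))
    unfold pdeg at h4
    omega
  have h5 := (card_le_card h2).trans h3
  rw [h1, sum_const, smul_eq_mul, mul_comm] at h5
  exact h5

theorem units_sum (h : Deco n par t S ty np pc emb) :
    ∑ p, ((vx emb p).filter (fun v => ty v = Ty.U)).card =
      ((range n).filter (fun v => ty v = Ty.U)).card := by
  have h1 : (range n).filter (fun v => ty v = Ty.U) =
      (univ : Finset (Fin np)).biUnion (fun p => (vx emb p).filter (fun v => ty v = Ty.U)) := by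
    ext v
    rw [mem_filter, mem_range, mem_biUnion]
    constructor
    · rintro ⟨hv, hU⟩
      have hS := (h.tyok.U1 v hv hU).2.1
      obtain ⟨p, i, hi⟩ := h.emb_surj v hv hS
      exact ⟨p, mem_univ _, mem_filter.2 ⟨em2_mem.2 ⟨i, hi⟩, hU⟩⟩
    · rintro ⟨p, _, hv⟩
      obtain ⟨hv1, hv2⟩ := mem_filter.1 hv
      obtain ⟨i, rfl⟩ := em2_mem.1 hv1
      exact ⟨h.emb_lt p i, hv2⟩
  rw [h1, card_biUnion]
  intro p _ q _ hpq
  exact disjoint_of_subset_left (filter_subset _ _)
    (disjoint_of_subset_right (filter_subset _ _) (vx_disj h hpq))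

end SSB
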