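import Pool.Agent.Lib.MP_8a819d_co.BD.Em2

/-!
# MP_8a819d_co: embedding, 3. Gluing the numberings of the pieces

`M` the covered pieces with their numberings `φ p` (valid, disjoint sets of used labels); `H` the host pieces (disjoint from `M`), each with
a unit `hv p` and an unused representative `hr p` (bijection of `H` with the unused representatives). `fG` the glued numbering: `φ p i` at
`emb p i` for `p ∈ M`; `hr p` at the parent of `hv p`, `prt (hr p)` at the child of `hv p` (if `t = 2`). `LM`: the special units of the covered pieces,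
`LG = LM ∪ hv H` the vertices which stay without label; `WG`: the vertices of covered pieces and the neighbours of the `hv p`, without `LM`.

JOB Em3a: `fG_cov`, `fG_hpar`, `fG_hch`, `vx_nb`. JOB Em3b: `cov_unit`, `cov_top`, `item_cases`. JOB Em3c: `WG_inj`, `WG_val`.
JOB Em3d: `LG_bij`, `LG_nb`, `glue`.

Em3a. The vertex `emb p i` determines `(p, i)` (`emb_inj`). A host unit `hv p` is of type `U`: `hv p ≥ 1`, `hv p`, its parent and its children are not in
`S`, hence in `vx p` (`vx_par`); so for different hosts these vertices are different, and they are not in covered pieces. Parent and child of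
`hv p` are different (`par v < v < c`).
Em3b. `cov_unit`: in a covered piece, let `emb p i` be of type `U` (so `i ≠ 0`, parent of type `P`): if `φ i ∈ L` then `φ (par i) = φ i ∈ L` and
all children `j` of `i` have `φ j = prt (φ i)`; if `φ i ∈ Q`, then `φ (par i) ∈ Q` and the children have labels in `Q`. (`Valid.rule`, `Q ∩ L = ∅`.)
`cov_top`: let `emb p i` be of type `P` with `φ i ∈ L`. There is a vertex `j` of the piece of type `P` with parent of type `O`, `φ j ∈ L`,
`rp (φ j) = rp (φ i)`, `rp (φ i) ∈ usd j`, and either `j = i`, or `t = 2`, `φ i = prt (φ j)` and `i` is a child of the child of type `U` of `j`. (If the parent of `i`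
is of type `O` take `j = i`. Otherwise the parent `m` of `i` is of type `U`, `φ m ∈ L`, its parent `j` is of type `P`, `φ j = φ m`, `φ i = prt (φ m)`; `j` has the child
`m` of type `U`, so by `TyOK.P1` the parent of `j` is of type `O`. `rp (prt x) = rp x` by `Env.rp_eq`.)
`item_cases`: let `x` be an item of `WG`. Either its value is in `Q` and there are `p ∈ M`, `i` with `x = inl (emb p i)` or `x = inr (emb p i)` and the value is
in `usd i`; or `x = inl v` with `fG v ∈ L`, `ty v = P`. (Edges: if `inr v` is an item of `WG`, `v, par v ∈ WG`, outside `S`, so in the same piece; the neighbours of a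
host unit have no neighbours in `WG`: the piece is not covered, its vertices in `WG` are the neighbours of `hv p`, which are not adjacent to each
other. So `v = emb p i`, `p ∈ M`, `i ≠ 0`. If `v` or `par v` is of type `U`, it is not in `LM`, so its label is in `Q` and `cov_unit` applies.)
Em3c. `WG_inj`: two items with the same value `z`. If `z ∈ Q`: both are of the first kind, `z ∈ usd i ∩ usd j`, so the vertices are equal (`Valid.disj`,
disjointness of `usedS`), and `inl v`, `inr v` have different values (`Valid.self`, `dd_comm`; `i ≠ 0` for an edge). If `z ∈ L`: both are `inl` of vertices `v, v'` of type `P`.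
Both covered: by `cov_top` the tops `j`, `j'` have the common used label `rp z`, so they are equal; if `v`, `v'` are both different from `j` they are children
of units which are children of `j`: the unit is unique (`P1`) and has at most `t - 1 ≤ 1` child; if `v = j ≠ v'` then `z = prt z`, `t = 2`: contradiction (`Env.fib`).
One covered, one host: `rp z` is used, but `hr p = rp (hr p) = rp (prt (hr p))` is not used. Both hosts: `rp z = hr p = hr p'`, so `p = p'`; parent and child of `hv p` have the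
labels `hr p ≠ prt (hr p)` (`t = 2`), and there is only one child.
`WG_val`: the values are in `Q ∪ L`.
Em3d. `LG_nb`: for `v ∈ LG`: `par v ∈ WG`, children in `WG`, `fG (par v) ∈ L`, `fG c = prt (fG (par v))` for the children (`cov_unit`, `fG_hpar`, `fG_hch`).
`LG_bij`: `v ↦ rp (fG (par v))` is a bijection of `LG` to `L.image rp`. Injective: `v ∈ LM`: the label `rp (fG (par v))` is used at the vertex `par v` (its parent is of type
`O`), so it determines `par v`, and `v` is the only unit among the children of `par v`; for `v = hv p` it is `hr p`, unused, and determines `p`. Surjective: a used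
representative `r` is in some `usd i`, `p ∈ M`; since `r ∈ L` and `dd`-labels and other labels in `usd` are in `Q`, `i` is of type `P` with parent of type `O`,
`φ i ∈ L`, `rp (φ i) = r`; its child of type `U` is in `LM`. An unused one is `hr p`.
-/

set_option autoImplicit false

namespace SSB

open Finset

variable {n t np N : ℕ} {par : ℕ → ℕ} {S : Finset ℕ} {ty : ℕ → Ty} {pc : Fin np → Piece}
  {emb : (p : Fin np) → Fin ((pc p).k + 1) → ℕ} {Q L : Finset ℕ} {rp prt : ℕ → ℕ}
  {M H : Finset (Fin np)} {φ : (p : Fin np) → Fin ((pc p).k + 1) → ℕ} {hv hr : Fin np → ℕ}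

structure Gl (n t np N : ℕ) (par : ℕ → ℕ) (S : Finset ℕ) (ty : ℕ → Ty) (pc : Fin np → Piece)
    (emb : (p : Fin np) → Fin ((pc p).k + 1) → ℕ) (Q L : Finset ℕ) (rp prt : ℕ → ℕ)
    (M H : Finset (Fin np)) (φ : (p : Fin np) → Fin ((pc p).k + 1) → ℕ) (hv hr : Fin np → ℕ) : Prop where
  deco : Deco n par t S ty np pc emb
  hpar : IsPar n par
  env : Env N t Q L rp prt
  valid : ∀ p ∈ M, (pc p).Valid Q L rp prt (φ p)
  disj : ∀ p ∈ M, ∀ q ∈ M, p ≠ q → Disjoint ((pc p).usedS Q rp (φ p)) ((pc q).usedS Q rp (φ q))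
  HM : Disjoint M H
  hv_mem : ∀ p ∈ H, hv p ∈ vx emb p ∧ ty (hv p) = Ty.U
  hr_bij : Set.BijOn hr H {r | r ∈ L.image rp ∧ ∀ p ∈ M, r ∉ (pc p).usedS Q rp (φ p)}

open Classical in
noncomputable def fG (n : ℕ) (par : ℕ → ℕ) (emb : (p : Fin np) → Fin ((pc p).k + 1) → ℕ) (prt : ℕ → ℕ)
    (M H : Finset (Fin np)) (φ : (p : Fin np) → Fin ((pc p).k + 1) → ℕ) (hv hr : Fin np → ℕ) (v : ℕ) : ℕ :=
  if h : ∃ x : (Σ p : Fin np, Fin ((pc p).k + 1)), x.1 ∈ M ∧ emb x.1 x.2 = v then
    φ h.choose.1 h.choose.2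
  else if h : ∃ p ∈ H, v = par (hv p) then hr h.choose
  else if h : ∃ p ∈ H, v ∈ chs n par (hv p) then prt (hr h.choose) else 0

open Classical in
noncomputable def LM (n : ℕ) (par : ℕ → ℕ) (ty : ℕ → Ty) (emb : (p : Fin np) → Fin ((pc p).k + 1) → ℕ)
    (L : Finset ℕ) (prt : ℕ → ℕ)
    (M H : Finset (Fin np)) (φ : (p : Fin np) → Fin ((pc p).k + 1) → ℕ) (hv hr : Fin np → ℕ) : Finset ℕ :=
  (M.biUnion (vx emb)).filter (fun v => ty v = Ty.U ∧ fG n par emb prt M H φ hv hr v ∈ L)

noncomputable def LG (n : ℕ) (par : ℕ → ℕ) (ty : ℕ → Ty) (emb : (p : Fin np) → Fin ((pc p).k + 1) → ℕ)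
    (L : Finset ℕ) (prt : ℕ → ℕ)
    (M H : Finset (Fin np)) (φ : (p : Fin np) → Fin ((pc p).k + 1) → ℕ) (hv hr : Fin np → ℕ) : Finset ℕ :=
  LM n par ty emb L prt M H φ hv hr ∪ H.image hv

noncomputable def WG (n : ℕ) (par : ℕ → ℕ) (ty : ℕ → Ty) (emb : (p : Fin np) → Fin ((pc p).k + 1) → ℕ)
    (L : Finset ℕ) (prt : ℕ → ℕ)
    (M H : Finset (Fin np)) (φ : (p : Fin np) → Fin ((pc p).k + 1) → ℕ) (hv hr : Fin np → ℕ) : Finset ℕ :=
  (M.biUnion (vx emb) ∪ H.image (fun p => par (hv p)) ∪ H.biUnion (fun p => chs n par (hv p))) \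
    LM n par ty emb L prt M H φ hv hr

theorem fG_cov (h : Gl n t np N par S ty pc emb Q L rp prt M H φ hv hr) {p : Fin np} (hp : p ∈ M)
    (i : Fin ((pc p).k + 1)) : fG n par emb prt M H φ hv hr (emb p i) = φ p i := by
  have hex : ∃ x : (Σ q : Fin np, Fin ((pc q).k + 1)), x.1 ∈ M ∧ emb x.1 x.2 = emb p i :=
    ⟨⟨p, i⟩, hp, rfl⟩
  have h1 : hex.choose = (⟨p, i⟩ : Σ q : Fin np, Fin ((pc q).k + 1)) :=
    h.deco.emb_inj hex.choose_spec.2
  have h2 : φ hex.choose.1 hex.choose.2 = φ p i :=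
    congrArg (fun x : (Σ q : Fin np, Fin ((pc q).k + 1)) => φ x.1 x.2) h1
  unfold fG
  rw [dif_pos hex]
  exact h2

theorem vx_nb (h : Gl n t np N par S ty pc emb Q L rp prt M H φ hv hr) {p : Fin np} {v : ℕ}
    (hv : v ∈ vx emb p) (hU : ty v = Ty.U) :
    v < n ∧ 1 ≤ v ∧ par v ∈ vx emb p ∧ ∀ c ∈ chs n par v, c ∈ vx emb p ∧ ty c = Ty.P := by
  obtain ⟨i, -, hi⟩ := Finset.mem_image.1 hv
  have hvn : v < n := hi ▸ h.deco.emb_lt p i
  obtain ⟨h1, h2, -, h3, -, h4⟩ := h.deco.tyok.U1 v hvn hU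
  refine ⟨hvn, h1, (vx_par h.deco h.hpar hvn h1 h2 h3).1 hv, fun c hc => ?_⟩
  obtain ⟨hc1, hc2, hc3⟩ := mem_chs.1 hc
  obtain ⟨h5, h6⟩ := h4 c hc
  have hcS : par c ∉ S := by
    rw [hc3]
    exact h2
  refine ⟨(vx_par h.deco h.hpar hc1 hc2 h5 hcS).2 ?_, h6⟩
  rw [hc3]
  exact hv

private theorem em3a_uniq (h : Gl n t np N par S ty pc emb Q L rp prt M H φ hv hr) {p q : Fin np}
    {v : ℕ} (hp : v ∈ vx emb p) (hq : v ∈ vx emb q) : q = p := by
  by_contra hne
  exact Finset.disjoint_left.1 (vx_disj h.deco hne) hq hp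

private theorem em3a_no (h : Gl n t np N par S ty pc emb Q L rp prt M H φ hv hr) {p : Fin np}
    (hp : p ∈ H) {v : ℕ} (hv : v ∈ vx emb p) :
    ¬ ∃ x : (Σ p : Fin np, Fin ((pc p).k + 1)), x.1 ∈ M ∧ emb x.1 x.2 = v := by
  rintro ⟨x, hx, hxv⟩
  have h1 : v ∈ vx emb x.1 := Finset.mem_image.2 ⟨x.2, Finset.mem_univ _, hxv⟩
  have h2 : x.1 = p := em3a_uniq h hv h1
  exact Finset.disjoint_left.1 h.HM (h2 ▸ hx) hp

theorem fG_hpar (h : Gl n t np N par S ty pc emb Q L rp prt M H φ hv hr) {p : Fin np} (hp : p ∈ H) :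
    fG n par emb prt M H φ hv hr (par (hv p)) = hr p := by
  have hmem : ∀ q ∈ H, par (hv q) ∈ vx emb q := fun q hq =>
    (vx_nb h (h.hv_mem q hq).1 (h.hv_mem q hq).2).2.2.1
  have hex : ∃ q ∈ H, par (hv p) = par (hv q) := ⟨p, hp, rfl⟩
  have h1 : hex.choose = p := by
    refine em3a_uniq h (hmem p hp) ?_
    have h2 := hmem _ hex.choose_spec.1
    rw [← hex.choose_spec.2] at h2
    exact h2
  unfold fG
  rw [dif_neg (em3a_no h hp (hmem p hp)), dif_pos hex]
  exact congrArg hr h1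

theorem fG_hch (h : Gl n t np N par S ty pc emb Q L rp prt M H φ hv hr) {p : Fin np} (hp : p ∈ H)
    {c : ℕ} (hc : c ∈ chs n par (hv p)) :
    fG n par emb prt M H φ hv hr c = prt (hr p) := by
  have hnb : ∀ q ∈ H, _ := fun q hq => vx_nb h (h.hv_mem q hq).1 (h.hv_mem q hq).2
  have hcm : c ∈ vx emb p := ((hnb p hp).2.2.2 c hc).1
  obtain ⟨hc1, hc2, hc3⟩ := mem_chs.1 hc
  have hno : ¬ ∃ q ∈ H, c = par (hv q) := by
    rintro ⟨q, hq, hcq⟩
    have h1 : c ∈ vx emb q := hcq ▸ (hnb q hq).2.2.1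
    have h2 : q = p := em3a_uniq h hcm h1
    have h3 : par (hv q) < hv q := h.hpar _ (hnb q hq).2.1 (hnb q hq).1
    have h4 : par c < c := h.hpar c hc2 hc1
    rw [hc3, ← h2] at h4
    omega
  have hex : ∃ q ∈ H, c ∈ chs n par (hv q) := ⟨p, hp, hc⟩
  have h1 : hex.choose = p :=
    em3a_uniq h hcm ((hnb _ hex.choose_spec.1).2.2.2 c hex.choose_spec.2).1
  unfold fG
  rw [dif_neg (em3a_no h hp hcm), dif_neg hno, dif_pos hex]
  exact congrArg (fun q => prt (hr q)) h1

private theorem em3b_ne {A B : Finset ℕ} (h : Disjoint A B) {x : ℕ} (hA : x ∈ A) (hB : x ∈ B) :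
    False := (Finset.disjoint_left.1 h) hA hB

theorem cov_unit (h : Gl n t np N par S ty pc emb Q L rp prt M H φ hv hr) {p : Fin np} (hp : p ∈ M)
    {i : Fin ((pc p).k + 1)} (hi : (pc p).ty i = Ty.U) :
    i ≠ 0 ∧ (pc p).ty ((pc p).par i) = Ty.P ∧
    (φ p i ∈ L → φ p ((pc p).par i) = φ p i ∧ ∀ j, j ≠ 0 → (pc p).par j = i → φ p j = prt (φ p i)) ∧
    (φ p i ∈ Q → φ p ((pc p).par i) ∈ Q ∧ ∀ j, j ≠ 0 → (pc p).par j = i → φ p j ∈ Q) ∧
    (φ p i ∈ Q ∨ φ p i ∈ L) := by
  have hW := h.deco.wf p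
  have hV := h.valid p hp
  have hQL := h.env.QL
  have hi0 : i ≠ 0 := by
    rintro rfl
    rw [hW.root] at hi
    exact absurd hi (by decide)
  have hP : (pc p).ty ((pc p).par i) = Ty.P := by
    have h1 := hW.ok i hi0
    rw [hi] at h1
    cases h2 : (pc p).ty ((pc p).par i)
    · rw [h2] at h1; exact absurd h1 (by decide)
    · rfl
    · rw [h2] at h1; exact absurd h1 (by decide)
  have hr := hV.rule i hi0
  rw [hP, hi] at hr
  have hr' : (φ p ((pc p).par i) ∈ Q ∧ φ p i ∈ Q ∧ dd (φ p ((pc p).par i)) (φ p i) ∈ Q) ∨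
    (φ p ((pc p).par i) ∈ L ∧ φ p i = φ p ((pc p).par i)) := hr
  have hc : ∀ j, j ≠ 0 → (pc p).par j = i →
      (φ p i ∈ Q ∧ φ p j ∈ Q ∧ dd (φ p i) (φ p j) ∈ Q) ∨ (φ p i ∈ L ∧ φ p j = prt (φ p i)) := by
    intro j hj hji
    have h1 := hW.ok j hj
    have h2 := hV.rule j hj
    rw [hji, hi] at h1 h2
    cases h3 : (pc p).ty j
    · rw [h3] at h1; exact absurd h1 (by decide)
    · rw [h3] at h2; exact h2
    · rw [h3] at h1; exact absurd h1 (by decide)
  refine ⟨hi0, hP, ?_, ?_, ?_⟩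
  · intro hL
    refine ⟨?_, ?_⟩
    · rcases hr' with h1 | h1
      · exact (em3b_ne hQL h1.2.1 hL).elim
      · exact h1.2.symm
    · intro j hj hji
      rcases hc j hj hji with h1 | h1
      · exact (em3b_ne hQL h1.1 hL).elim
      · exact h1.2
  · intro hQ
    refine ⟨?_, ?_⟩
    · rcases hr' with h1 | h1
      · exact h1.1
      · rw [h1.2] at hQ
        exact (em3b_ne hQL hQ h1.1).elim
    · intro j hj hji
      rcases hc j hj hji with h1 | h1
      · exact h1.2.1
      · exact (em3b_ne hQL hQ h1.1).elim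
  · rcases hr' with h1 | h1
    · exact Or.inl h1.2.1
    · rw [h1.2]; exact Or.inr h1.1

private theorem em3b_pos (h : Gl n t np N par S ty pc emb Q L rp prt M H φ hv hr) (p : Fin np)
    (i : Fin ((pc p).k + 1)) : 1 ≤ emb p i := by
  rcases Nat.eq_zero_or_pos (emb p i) with h0 | h0
  · exfalso
    have := h.deco.emb_S p i
    rw [h0] at this
    exact this h.deco.zero_mem
  · exact h0

private theorem em3b_child (h : Gl n t np N par S ty pc emb Q L rp prt M H φ hv hr) {p : Fin np}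
    {j : Fin ((pc p).k + 1)} (hj : j ≠ 0) : emb p j ∈ chs n par (emb p ((pc p).par j)) := by
  rw [mem_chs]
  exact ⟨h.deco.emb_lt p j, em3b_pos h p j, h.deco.emb_par p j hj⟩

theorem cov_top (h : Gl n t np N par S ty pc emb Q L rp prt M H φ hv hr) {p : Fin np} (hp : p ∈ M)
    {i : Fin ((pc p).k + 1)} (hi : (pc p).ty i = Ty.P) (hL : φ p i ∈ L) :
    ∃ j, j ≠ 0 ∧ (pc p).ty j = Ty.P ∧ (pc p).ty ((pc p).par j) = Ty.O ∧ φ p j ∈ L ∧
      rp (φ p j) = rp (φ p i) ∧ rp (φ p i) ∈ (pc p).usd Q rp (φ p) j ∧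
      (j = i ∨ (t = 2 ∧ φ p i = prt (φ p j) ∧ i ≠ 0 ∧ (pc p).ty ((pc p).par i) = Ty.U ∧
        (pc p).par i ≠ 0 ∧ (pc p).par ((pc p).par i) = j)) := by
  have hW := h.deco.wf p
  have hV := h.valid p hp
  have hQL := h.env.QL
  have hT := h.deco.tyok
  have hne0 : ∀ j, (pc p).ty j = Ty.P → j ≠ 0 := by
    rintro j hj rfl
    rw [hW.root] at hj
    exact absurd hj (by decide)
  have husd : ∀ j, (pc p).ty j = Ty.P → (pc p).ty ((pc p).par j) = Ty.O → φ p j ∈ L →
      rp (φ p j) ∈ (pc p).usd Q rp (φ p) j := by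
    intro j hj hjO hjL
    unfold Piece.usd
    rw [if_neg (hne0 j hj), hj, hjO]
    show rp (φ p j) ∈ (if φ p j ∈ Q then {φ p j, dd (φ p ((pc p).par j)) (φ p j)} else
      {rp (φ p j), dd (φ p ((pc p).par j)) (φ p j)} : Finset ℕ)
    rw [if_neg (fun hq => em3b_ne hQL hq hjL)]
    exact Finset.mem_insert_self _ _
  have hi0 := hne0 i hi
  have h1 := hW.ok i hi0
  rw [hi] at h1
  cases h2 : (pc p).ty ((pc p).par i)
  · exact ⟨i, hi0, hi, h2, hL, rfl, husd i hi h2 hL, Or.inl rfl⟩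
  · rw [h2] at h1; exact absurd h1 (by decide)
  · -- the parent is a unit
    obtain ⟨m0, mP, mL, mQ, _⟩ := cov_unit h hp h2
    have hr := hV.rule i hi0
    rw [h2, hi] at hr
    have hr' : (φ p ((pc p).par i) ∈ Q ∧ φ p i ∈ Q ∧ dd (φ p ((pc p).par i)) (φ p i) ∈ Q) ∨
      (φ p ((pc p).par i) ∈ L ∧ φ p i = prt (φ p ((pc p).par i))) := hr
    rcases hr' with h3 | h3
    · exact (em3b_ne hQL h3.2.1 hL).elim
    · obtain ⟨hmL, him⟩ := h3
      obtain ⟨hjm, _⟩ := mL hmL
      have hj0 := hne0 _ mP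
      have hjL : φ p ((pc p).par ((pc p).par i)) ∈ L := by rw [hjm]; exact hmL
      have hjO : (pc p).ty ((pc p).par ((pc p).par ((pc p).par i))) = Ty.O := by
        have h4 := hW.ok _ hj0
        rw [mP] at h4
        cases h5 : (pc p).ty ((pc p).par ((pc p).par ((pc p).par i)))
        · rfl
        · rw [h5] at h4; exact absurd h4 (by decide)
        · exfalso
          have hPj : ty (emb p ((pc p).par ((pc p).par i))) = Ty.P := by
            rw [← h.deco.emb_ty]; exact mP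
          have hP1 := (hT.P1 _ (h.deco.emb_lt p _) hPj).2.2.2
          rw [h.deco.emb_par p _ hj0, ← h.deco.emb_ty, h5] at hP1
          rcases hP1 with h6 | h6
          · refine h6.2 _ (em3b_child h m0) ?_
            rw [← h.deco.emb_ty]; exact h2
          · exact absurd h6.1 (by decide)
      have hrp : rp (φ p ((pc p).par ((pc p).par i))) = rp (φ p i) := by
        rw [hjm, him, h.env.rp_eq _ hmL _ (h.env.prt_mem _ hmL)]
        exact Or.inr rfl
      have ht2 : t = 2 := by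
        have hU1 := hT.U1 (emb p ((pc p).par i)) (h.deco.emb_lt p _) (by
          rw [← h.deco.emb_ty]; exact h2)
        have hdeg := hU1.2.2.1
        unfold pdeg at hdeg
        have hpos := em3b_pos h p ((pc p).par i)
        rw [if_neg (by omega)] at hdeg
        have hcard : 0 < (chs n par (emb p ((pc p).par i))).card :=
          Finset.card_pos.2 ⟨_, em3b_child h hi0⟩
        rcases h.env.t_le with h7 | h7
        · omega
        · exact h7
      refine ⟨(pc p).par ((pc p).par i), hj0, mP, hjO, hjL, hrp, ?_, Or.inr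
        ⟨ht2, ?_, hi0, rfl, m0, rfl⟩⟩
      · rw [← hrp]
        exact husd _ mP hjO hjL
      · rw [hjm]; exact him

private theorem em3b_hr (h : Gl n t np N par S ty pc emb Q L rp prt M H φ hv hr) {p : Fin np}
    (hp : p ∈ H) : hr p ∈ L := by
  have h1 := (h.hr_bij.mapsTo hp).1
  obtain ⟨x, hx, hx'⟩ := Finset.mem_image.1 h1
  rw [← hx']
  exact h.env.rp_mem x hx

/-- the vertices of `WG` are covered or neighbours of hosts -/
private theorem em3b_WG (h : Gl n t np N par S ty pc emb Q L rp prt M H φ hv hr) {v : ℕ}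
    (hvW : v ∈ WG n par ty emb L prt M H φ hv hr) :
    v ∉ LM n par ty emb L prt M H φ hv hr ∧ ((∃ p ∈ M, ∃ i, v = emb p i) ∨
      (∃ q ∈ H, v ∈ vx emb q ∧ ty v = Ty.P ∧ fG n par emb prt M H φ hv hr v ∈ L ∧
        (v = par (hv q) ∨ v ∈ chs n par (hv q)))) := by
  unfold WG at hvW
  rw [Finset.mem_sdiff, Finset.mem_union, Finset.mem_union] at hvW
  refine ⟨hvW.2, ?_⟩
  rcases hvW.1 with (h1 | h1) | h1
  · left
    obtain ⟨p, hp, hvp⟩ := Finset.mem_biUnion.1 h1
    obtain ⟨i, _, hi⟩ := Finset.mem_image.1 hvp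
    exact ⟨p, hp, i, hi.symm⟩
  · right
    obtain ⟨q, hq, rfl⟩ := Finset.mem_image.1 h1
    obtain ⟨hq1, hq2⟩ := h.hv_mem q hq
    obtain ⟨h2, h3, h4, _⟩ := vx_nb h hq1 hq2
    refine ⟨q, hq, h4, (h.deco.tyok.U1 _ h2 hq2).2.2.2.2.1, ?_, Or.inl rfl⟩
    rw [fG_hpar h hq]
    exact em3b_hr h hq
  · right
    obtain ⟨q, hq, hc⟩ := Finset.mem_biUnion.1 h1
    obtain ⟨hq1, hq2⟩ := h.hv_mem q hq
    obtain ⟨_, _, _, h4⟩ := vx_nb h hq1 hq2
    refine ⟨q, hq, (h4 v hc).1, (h4 v hc).2, ?_, Or.inr hc⟩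
    rw [fG_hch h hq hc]
    exact h.env.prt_mem _ (em3b_hr h hq)

private theorem em3b_vx (h : Gl n t np N par S ty pc emb Q L rp prt M H φ hv hr) {p q : Fin np}
    {v : ℕ} (hp : v ∈ vx emb p) (hq : v ∈ vx emb q) : p = q := by
  obtain ⟨i, _, hi⟩ := Finset.mem_image.1 hp
  obtain ⟨j, _, hj⟩ := Finset.mem_image.1 hq
  have h1 := @h.deco.emb_inj ⟨p, i⟩ ⟨q, j⟩ (by show emb p i = emb q j; rw [hi, hj])
  exact congrArg Sigma.fst h1

private theorem em3b_mem (p : Fin np) (i : Fin ((pc p).k + 1)) : emb p i ∈ vx emb p :=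
  Finset.mem_image.2 ⟨i, Finset.mem_univ _, rfl⟩

private theorem em3b_LM (h : Gl n t np N par S ty pc emb Q L rp prt M H φ hv hr) {p : Fin np}
    (hp : p ∈ M) {i : Fin ((pc p).k + 1)} (hi : (pc p).ty i = Ty.U) (hL : φ p i ∈ L) :
    emb p i ∈ LM n par ty emb L prt M H φ hv hr := by
  unfold LM
  rw [Finset.mem_filter]
  refine ⟨Finset.mem_biUnion.2 ⟨p, hp, em3b_mem p i⟩, ?_, ?_⟩
  · rw [← h.deco.emb_ty]; exact hi
  · rw [fG_cov h hp]; exact hL

/-- an edge of `WG` is an edge of a covered piece -/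
private theorem em3b_edge (h : Gl n t np N par S ty pc emb Q L rp prt M H φ hv hr) {v : ℕ}
    (hvW : v ∈ WG n par ty emb L prt M H φ hv hr) (hv1 : 1 ≤ v)
    (hpW : par v ∈ WG n par ty emb L prt M H φ hv hr) :
    ∃ p ∈ M, ∃ i, v = emb p i ∧ i ≠ 0 ∧ par v = emb p ((pc p).par i) := by
  have hin : ∀ w ∈ WG n par ty emb L prt M H φ hv hr, ∃ p, w ∈ vx emb p := by
    intro w hw
    rcases (em3b_WG h hw).2 with ⟨p, _, i, rfl⟩ | ⟨q, _, hq, _⟩
    · exact ⟨p, em3b_mem p i⟩
    · exact ⟨q, hq⟩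
  obtain ⟨p, hpv⟩ := hin v hvW
  obtain ⟨i, _, rfl⟩ := Finset.mem_image.1 hpv
  have hi0 : i ≠ 0 := by
    rintro rfl
    obtain ⟨q, hq⟩ := hin _ hpW
    obtain ⟨j, _, hj⟩ := Finset.mem_image.1 hq
    have := h.deco.emb_S q j
    rw [hj] at this
    exact this (h.deco.emb_root p).2
  have hpar := h.deco.emb_par p i hi0
  by_cases hpM : p ∈ M
  · exact ⟨p, hpM, i, rfl, hi0, hpar⟩
  · exfalso
    have hlt := h.deco.emb_lt p i
    have hv2 := (em3b_WG h hvW).2
    have hp2 := (em3b_WG h hpW).2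
    have hpv' : par (emb p i) ∈ vx emb p := by rw [hpar]; exact em3b_mem p _
    rcases hv2 with ⟨q, hq, j, hj⟩ | ⟨q, hq, hqv, _, _, hvq⟩
    · have : emb p i ∈ vx emb q := by rw [hj]; exact em3b_mem q j
      rw [em3b_vx h hpv this] at hpM
      exact hpM hq
    · rcases hp2 with ⟨q', hq', j, hj⟩ | ⟨q', hq', hqv', _, _, hvq'⟩
      · have : par (emb p i) ∈ vx emb q' := by rw [hj]; exact em3b_mem q' j
        rw [em3b_vx h hpv' this] at hpM
        exact hpM hq'
      · have e1 := em3b_vx h hpv hqv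
        have e2 := em3b_vx h hpv' hqv'
        subst e1
        subst e2
        obtain ⟨hq1, hq2⟩ := h.hv_mem p hq
        obtain ⟨h2, h3, _, _⟩ := vx_nb h hq1 hq2
        have l1 := h.hpar (emb p i) hv1 hlt
        have l2 := h.hpar (hv p) h3 h2
        rcases hvq with a | a
        · rcases hvq' with b | b
          · omega
          · obtain ⟨b1, b2, b3⟩ := mem_chs.1 b
            have l3 := h.hpar _ b2 b1
            omega
        · obtain ⟨a1, a2, a3⟩ := mem_chs.1 a
          rcases hvq' with b | b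
          · omega
          · obtain ⟨b1, b2, b3⟩ := mem_chs.1 b
            have l3 := h.hpar _ b2 b1
            omega

theorem item_cases (h : Gl n t np N par S ty pc emb Q L rp prt M H φ hv hr) {x : ℕ ⊕ ℕ}
    (hx : x ∈ items par (WG n par ty emb L prt M H φ hv hr)) :
    (val par (fG n par emb prt M H φ hv hr) x ∈ Q ∧ ∃ p ∈ M, ∃ i,
      (x = Sum.inl (emb p i) ∨ (x = Sum.inr (emb p i) ∧ i ≠ 0)) ∧
      val par (fG n par emb prt M H φ hv hr) x ∈ (pc p).usd Q rp (φ p) i) ∨
    (∃ v, x = Sum.inl v ∧ ty v = Ty.P ∧ fG n par emb prt M H φ hv hr v ∈ L) := by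
  have hQL := h.env.QL
  rcases x with v | v
  · rw [mem_items_inl] at hx
    obtain ⟨hLM, hc⟩ := em3b_WG h hx
    rcases hc with ⟨p, hp, i, rfl⟩ | ⟨q, hq, hqv, hP, hL, _⟩
    · rw [val_inl, fG_cov h hp]
      have hW := h.deco.wf p
      have hV := h.valid p hp
      by_cases hi0 : i = 0
      · subst hi0
        left
        refine ⟨hV.root, p, hp, 0, Or.inl rfl, ?_⟩
        unfold Piece.usd
        rw [if_pos rfl]
        exact Finset.mem_singleton_self _
      · have h1 := hW.ok i hi0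
        have h2 := hV.rule i hi0
        have key : (φ p i ∈ Q ∧ φ p i ∈ (pc p).usd Q rp (φ p) i) ∨
            ((pc p).ty i = Ty.P ∧ φ p i ∈ L) := by
          unfold Piece.usd
          rw [if_neg hi0]
          cases ha : (pc p).ty ((pc p).par i) <;> cases hb : (pc p).ty i <;>
            rw [ha, hb] at h1 h2
          · left
            exact ⟨h2.2.1, Finset.mem_insert_self _ _⟩
          · rcases h2.2.1 with h3 | h3
            · left
              refine ⟨h3, ?_⟩
              show φ p i ∈ (if φ p i ∈ Q then {φ p i, dd (φ p ((pc p).par i)) (φ p i)} else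
                {rp (φ p i), dd (φ p ((pc p).par i)) (φ p i)} : Finset ℕ)
              rw [if_pos h3]
              exact Finset.mem_insert_self _ _
            · right; exact ⟨rfl, h3⟩
          · exact absurd h1 (by decide)
          · left
            exact ⟨h2.2.1, Finset.mem_insert_self _ _⟩
          · exact absurd h1 (by decide)
          · rcases h2 with h3 | h3
            · left
              refine ⟨h3.2.1, ?_⟩
              show φ p i ∈ (if φ p ((pc p).par i) ∈ Q then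
                {φ p i, dd (φ p ((pc p).par i)) (φ p i)} else ∅ : Finset ℕ)
              rw [if_pos h3.1]
              exact Finset.mem_insert_self _ _
            · exfalso
              apply hLM
              refine em3b_LM h hp hb ?_
              rw [h3.2]; exact h3.1
          · exact absurd h1 (by decide)
          · rcases h2 with h3 | h3
            · left
              refine ⟨h3.2.1, ?_⟩
              show φ p i ∈ (if φ p ((pc p).par i) ∈ Q then
                {φ p i, dd (φ p ((pc p).par i)) (φ p i)} else ∅ : Finset ℕ)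
              rw [if_pos h3.1]
              exact Finset.mem_insert_self _ _
            · right
              refine ⟨rfl, ?_⟩
              rw [h3.2]
              exact h.env.prt_mem _ h3.1
          · exact absurd h1 (by decide)
        rcases key with h3 | h3
        · left
          exact ⟨h3.1, p, hp, i, Or.inl rfl, h3.2⟩
        · right
          refine ⟨emb p i, rfl, ?_, ?_⟩
          · rw [← h.deco.emb_ty]; exact h3.1
          · rw [fG_cov h hp]; exact h3.2
    · right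
      exact ⟨v, rfl, hP, hL⟩
  · rw [mem_items_inr] at hx
    obtain ⟨hvW, hv1, hpW⟩ := hx
    obtain ⟨p, hp, i, hvi, hi0, hpi⟩ := em3b_edge h hvW hv1 hpW
    have hLM := (em3b_WG h hvW).1
    have hLM' := (em3b_WG h hpW).1
    have hW := h.deco.wf p
    have hV := h.valid p hp
    have h1 := hW.ok i hi0
    have h2 := hV.rule i hi0
    rw [val_inr, hpi]
    subst hvi
    rw [fG_cov h hp, fG_cov h hp, dd_comm]
    have key : dd (φ p ((pc p).par i)) (φ p i) ∈ Q ∧
        dd (φ p ((pc p).par i)) (φ p i) ∈ (pc p).usd Q rp (φ p) i := by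
      unfold Piece.usd
      rw [if_neg hi0]
      have hin : ∀ a b : ℕ, b ∈ ({a, b} : Finset ℕ) := fun a b =>
        Finset.mem_insert_of_mem (Finset.mem_singleton_self _)
      cases ha : (pc p).ty ((pc p).par i) <;> cases hb : (pc p).ty i <;>
        rw [ha, hb] at h1 h2
      · exact ⟨h2.2.2, hin _ _⟩
      · refine ⟨h2.2.2, ?_⟩
        show dd (φ p ((pc p).par i)) (φ p i) ∈ (if φ p i ∈ Q then
          {φ p i, dd (φ p ((pc p).par i)) (φ p i)} else
          {rp (φ p i), dd (φ p ((pc p).par i)) (φ p i)} : Finset ℕ)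
        split_ifs
        · exact hin _ _
        · exact hin _ _
      · exact absurd h1 (by decide)
      · exact ⟨h2.2.2, hin _ _⟩
      · exact absurd h1 (by decide)
      · rcases h2 with h3 | h3
        · refine ⟨h3.2.2, ?_⟩
          show dd (φ p ((pc p).par i)) (φ p i) ∈ (if φ p ((pc p).par i) ∈ Q then
            {φ p i, dd (φ p ((pc p).par i)) (φ p i)} else ∅ : Finset ℕ)
          rw [if_pos h3.1]
          exact hin _ _
        · exfalso
          apply hLM
          refine em3b_LM h hp hb ?_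
          rw [h3.2]; exact h3.1
      · exact absurd h1 (by decide)
      · rcases h2 with h3 | h3
        · refine ⟨h3.2.2, ?_⟩
          show dd (φ p ((pc p).par i)) (φ p i) ∈ (if φ p ((pc p).par i) ∈ Q then
            {φ p i, dd (φ p ((pc p).par i)) (φ p i)} else ∅ : Finset ℕ)
          rw [if_pos h3.1]
          exact hin _ _
        · exfalso
          apply hLM'
          rw [hpi]
          exact em3b_LM h hp ha h3.1
      · exact absurd h1 (by decide)
    left
    exact ⟨key.1, p, hp, i, Or.inr ⟨rfl, hi0⟩, key.2⟩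

private theorem em3c_rp (he : Env N t Q L rp prt) {x : ℕ} (hx : x ∈ L) :
    rp (rp x) = rp x ∧ rp (prt x) = rp x :=
  ⟨((he.rp_eq x hx (rp x) (he.rp_mem x hx)).2 (he.rp_or x hx)).symm,
    ((he.rp_eq x hx (prt x) (he.prt_mem x hx)).2 (Or.inr rfl)).symm⟩

private theorem em3c_hr (h : Gl n t np N par S ty pc emb Q L rp prt M H φ hv hr) {p : Fin np}
    (hp : p ∈ H) : hr p ∈ L ∧ rp (hr p) = hr p ∧ rp (prt (hr p)) = hr p ∧
      ∀ q ∈ M, hr p ∉ (pc q).usedS Q rp (φ q) := by
  obtain ⟨h2, h3⟩ := h.hr_bij.mapsTo (Finset.mem_coe.2 hp)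
  obtain ⟨x, hx, hxr⟩ := Finset.mem_image.1 h2
  have h4 : hr p ∈ L := hxr ▸ h.env.rp_mem x hx
  have h5 : rp (hr p) = hr p := by
    rw [← hxr]
    exact (em3c_rp h.env hx).1
  exact ⟨h4, h5, by rw [(em3c_rp h.env h4).2, h5], h3⟩

private theorem em3c_ch (h : Gl n t np N par S ty pc emb Q L rp prt M H φ hv hr) {v : ℕ}
    (hvn : v < n) (hU : ty v = Ty.U) {c c' : ℕ} (hc : c ∈ chs n par v) (hc' : c' ∈ chs n par v) :
    t = 2 ∧ c = c' := by
  obtain ⟨h1, -, h3, -⟩ := h.deco.tyok.U1 v hvn hU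
  unfold pdeg at h3
  rw [if_neg (by omega)] at h3
  have h4 : 0 < (chs n par v).card := Finset.card_pos.2 ⟨c, hc⟩
  have h5 := h.env.t_le
  have h6 : (chs n par v).card ≤ 1 := by omega
  exact ⟨by omega, Finset.card_le_one.1 h6 c hc c' hc'⟩

private theorem em3c_cov (h : Gl n t np N par S ty pc emb Q L rp prt M H φ hv hr) {p q : Fin np}
    (hp : p ∈ M) (hq : q ∈ M) {i : Fin ((pc p).k + 1)} {i' : Fin ((pc q).k + 1)}
    (hi : (pc p).ty i = Ty.P) (hi' : (pc q).ty i' = Ty.P) (hL : φ p i ∈ L)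
    (he : φ p i = φ q i') : emb p i = emb q i' := by
  obtain ⟨j, hj0, hjP, hjO, hjL, -, hju, hj⟩ := cov_top h hp hi hL
  obtain ⟨j', hj0', -, -, -, -, hju', hj'⟩ := cov_top h hq hi' (he ▸ hL)
  have hpq : p = q := by
    by_contra hne
    have hd := h.disj p hp q hq hne
    rw [Finset.disjoint_left] at hd
    refine hd (a := rp (φ p i)) (Finset.mem_biUnion.2 ⟨j, Finset.mem_univ _, hju⟩)
      (Finset.mem_biUnion.2 ⟨j', Finset.mem_univ _, ?_⟩)
    rw [he]
    exact hju'
  subst hpq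
  have hjj : j = j' := by
    by_contra hne
    have hd := (h.valid p hp).disj j j' hne
    rw [Finset.disjoint_left] at hd
    refine hd hju ?_
    rw [he]
    exact hju'
  subst hjj
  rcases hj with rfl | ⟨ht, h1, h2, h3, h4, h5⟩
  · rcases hj' with rfl | ⟨ht, h1, -, -, -, -⟩
    · rfl
    · exact absurd (h1.symm.trans he.symm) ((h.env.fib _ hjL).2 ht)
  · rcases hj' with rfl | ⟨-, -, h2', h3', h4', h5'⟩
    · exact absurd (h1.symm.trans he) ((h.env.fib _ hjL).2 ht)
    · have hlt := h.deco.emb_lt p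
      have hchs : ∀ m, m ≠ 0 → (pc p).ty m = Ty.U → (pc p).par m = j →
          emb p m ∈ chs n par (emb p j) ∧ ty (emb p m) = Ty.U := by
        intro m hm0 hmU hmj
        have hU : ty (emb p m) = Ty.U := by
          rw [← h.deco.emb_ty]
          exact hmU
        refine ⟨mem_chs.2 ⟨hlt m, (h.deco.tyok.U1 _ (hlt m) hU).1, ?_⟩, hU⟩
        rw [h.deco.emb_par p m hm0, hmj]
      obtain ⟨hm, hmU⟩ := hchs _ h4 h3 h5
      obtain ⟨hm', hmU'⟩ := hchs _ h4' h3' h5'
      have hjP' : ty (emb p j) = Ty.P := by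
        rw [← h.deco.emb_ty]
        exact hjP
      obtain ⟨-, -, -, h6⟩ := h.deco.tyok.P1 (emb p j) (hlt j) hjP'
      have hmm : emb p ((pc p).par i) = emb p ((pc p).par i') := by
        rcases h6 with ⟨h7, -⟩ | ⟨-, c, -, -, hun⟩
        · rw [h.deco.emb_par p j hj0, ← h.deco.emb_ty, hjO] at h7
          exact absurd h7 (by decide)
        · rw [hun _ hm hmU, hun _ hm' hmU']
      have hk : ∀ l, l ≠ 0 → (pc p).ty l = Ty.P → emb p l ∈ chs n par (emb p ((pc p).par l)) := by
        intro l hl0 hlP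
        have hP : ty (emb p l) = Ty.P := by
          rw [← h.deco.emb_ty]
          exact hlP
        exact mem_chs.2 ⟨hlt l, (h.deco.tyok.P1 _ (hlt l) hP).1, h.deco.emb_par p l hl0⟩
      have hki' := hk i' h2' hi'
      rw [← hmm] at hki'
      exact (em3c_ch h (hlt _) hmU (hk i h2 hi) hki').2

private theorem em3c_cl (h : Gl n t np N par S ty pc emb Q L rp prt M H φ hv hr) {v : ℕ}
    (hW : v ∈ WG n par ty emb L prt M H φ hv hr) :
    (∃ p ∈ M, ∃ i, emb p i = v ∧ fG n par emb prt M H φ hv hr v = φ p i) ∨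
    (∃ p ∈ H, v = par (hv p) ∧ fG n par emb prt M H φ hv hr v = hr p) ∨
    (∃ p ∈ H, v ∈ chs n par (hv p) ∧ fG n par emb prt M H φ hv hr v = prt (hr p)) := by
  unfold WG at hW
  rw [Finset.mem_sdiff, Finset.mem_union, Finset.mem_union] at hW
  rcases hW.1 with (h1 | h1) | h1
  · obtain ⟨p, hp, h2⟩ := Finset.mem_biUnion.1 h1
    obtain ⟨i, -, hi⟩ := Finset.mem_image.1 h2
    exact Or.inl ⟨p, hp, i, hi, by rw [← hi, fG_cov h hp i]⟩
  · obtain ⟨p, hp, h2⟩ := Finset.mem_image.1 h1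
    exact Or.inr (Or.inl ⟨p, hp, h2.symm, by rw [← h2, fG_hpar h hp]⟩)
  · obtain ⟨p, hp, h2⟩ := Finset.mem_biUnion.1 h1
    exact Or.inr (Or.inr ⟨p, hp, h2, fG_hch h hp h2⟩)

private theorem em3c_H (h : Gl n t np N par S ty pc emb Q L rp prt M H φ hv hr) {p q : Fin np}
    (hp : p ∈ H) (hq : q ∈ H) {z : ℕ} (h1 : z = hr p ∨ z = prt (hr p))
    (h2 : z = hr q ∨ z = prt (hr q)) : p = q := by
  obtain ⟨-, hp1, hp2, -⟩ := em3c_hr h hp
  obtain ⟨-, hq1, hq2, -⟩ := em3c_hr h hq
  have h3 : rp z = hr p := by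
    rcases h1 with rfl | rfl
    · exact hp1
    · exact hp2
  have h4 : rp z = hr q := by
    rcases h2 with rfl | rfl
    · exact hq1
    · exact hq2
  exact h.hr_bij.injOn (Finset.mem_coe.2 hp) (Finset.mem_coe.2 hq) (h3.symm.trans h4)

private theorem em3c_MH (h : Gl n t np N par S ty pc emb Q L rp prt M H φ hv hr) {p q : Fin np}
    (hp : p ∈ M) (hq : q ∈ H) {i : Fin ((pc p).k + 1)} (hi : (pc p).ty i = Ty.P)
    (hL : φ p i ∈ L) (h2 : φ p i = hr q ∨ φ p i = prt (hr q)) : False := by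
  obtain ⟨-, hq1, hq2, hq3⟩ := em3c_hr h hq
  obtain ⟨j, -, -, -, -, -, hju, -⟩ := cov_top h hp hi hL
  have h4 : rp (φ p i) = hr q := by
    rcases h2 with h2 | h2
    · rw [h2]
      exact hq1
    · rw [h2]
      exact hq2
  rw [h4] at hju
  exact hq3 p hp (Finset.mem_biUnion.2 ⟨j, Finset.mem_univ _, hju⟩)

private theorem em3c_L (h : Gl n t np N par S ty pc emb Q L rp prt M H φ hv hr) {v v' : ℕ}
    (hW : v ∈ WG n par ty emb L prt M H φ hv hr) (hW' : v' ∈ WG n par ty emb L prt M H φ hv hr)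
    (hP : ty v = Ty.P) (hP' : ty v' = Ty.P) (hL : fG n par emb prt M H φ hv hr v ∈ L)
    (he : fG n par emb prt M H φ hv hr v = fG n par emb prt M H φ hv hr v') : v = v' := by
  have hH : ∀ p ∈ H, hv p < n ∧ ty (hv p) = Ty.U := fun p hp =>
    ⟨(vx_nb h (h.hv_mem p hp).1 (h.hv_mem p hp).2).1, (h.hv_mem p hp).2⟩
  have hne : ∀ p ∈ H, ∀ c ∈ chs n par (hv p), hr p ≠ prt (hr p) := by
    intro p hp c hc he
    have ht := (em3c_ch h (hH p hp).1 (hH p hp).2 hc hc).1
    exact ((h.env.fib _ (em3c_hr h hp).1).2 ht) he.symm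
  rcases em3c_cl h hW with ⟨p, hp, i, hi, hf⟩ | ⟨p, hp, hvp, hf⟩ | ⟨p, hp, hvp, hf⟩
  · have hiP : (pc p).ty i = Ty.P := by
      rw [h.deco.emb_ty, hi]
      exact hP
    rw [hf] at hL
    rcases em3c_cl h hW' with ⟨q, hq, j, hj, hf'⟩ | ⟨q, hq, -, hf'⟩ | ⟨q, hq, -, hf'⟩
    · have hjP : (pc q).ty j = Ty.P := by
        rw [h.deco.emb_ty, hj]
        exact hP'
      rw [← hi, ← hj]
      exact em3c_cov h hp hq hiP hjP hL (by rw [← hf, ← hf']; exact he)
    · exact (em3c_MH h hp hq hiP hL (Or.inl (by rw [← hf, ← hf']; exact he))).elim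
    · exact (em3c_MH h hp hq hiP hL (Or.inr (by rw [← hf, ← hf']; exact he))).elim
  · rcases em3c_cl h hW' with ⟨q, hq, j, hj, hf'⟩ | ⟨q, hq, hvq, hf'⟩ | ⟨q, hq, hvq, hf'⟩
    · have hjP : (pc q).ty j = Ty.P := by
        rw [h.deco.emb_ty, hj]
        exact hP'
      exact (em3c_MH h hq hp hjP (by rw [← hf', ← he]; exact hL)
        (Or.inl (by rw [← hf, ← hf']; exact he.symm))).elim
    · have hpq := em3c_H h hp hq (Or.inl hf) (Or.inl (he.trans hf'))
      rw [hvp, hvq, hpq]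
    · have hpq := em3c_H h hp hq (Or.inl hf) (Or.inr (he.trans hf'))
      rw [← hpq] at hvq hf'
      exact absurd (hf.symm.trans (he.trans hf')) (hne p hp _ hvq)
  · rcases em3c_cl h hW' with ⟨q, hq, j, hj, hf'⟩ | ⟨q, hq, hvq, hf'⟩ | ⟨q, hq, hvq, hf'⟩
    · have hjP : (pc q).ty j = Ty.P := by
        rw [h.deco.emb_ty, hj]
        exact hP'
      exact (em3c_MH h hq hp hjP (by rw [← hf', ← he]; exact hL)
        (Or.inr (by rw [← hf, ← hf']; exact he.symm))).elim
    · have hpq := em3c_H h hp hq (Or.inr hf) (Or.inl (he.trans hf'))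
      rw [← hpq] at hf'
      exact absurd ((he.trans hf').symm.trans hf) (hne p hp _ hvp)
    · have hpq := em3c_H h hp hq (Or.inr hf) (Or.inr (he.trans hf'))
      rw [← hpq] at hvq
      exact (em3c_ch h (hH p hp).1 (hH p hp).2 hvp hvq).2

theorem WG_val (h : Gl n t np N par S ty pc emb Q L rp prt M H φ hv hr) {x : ℕ ⊕ ℕ}
    (hx : x ∈ items par (WG n par ty emb L prt M H φ hv hr)) :
    val par (fG n par emb prt M H φ hv hr) x ∈ Q ∨ val par (fG n par emb prt M H φ hv hr) x ∈ L := by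
  rcases item_cases h hx with ⟨h1, -⟩ | ⟨v, rfl, -, h2⟩
  · exact Or.inl h1
  · exact Or.inr h2

theorem WG_inj (h : Gl n t np N par S ty pc emb Q L rp prt M H φ hv hr) :
    Set.InjOn (val par (fG n par emb prt M H φ hv hr))
      (items par (WG n par ty emb L prt M H φ hv hr)) := by
  intro x hx y hy hxy
  rcases item_cases h hx with ⟨hxQ, p, hp, i, hxi, hxu⟩ | ⟨v, rfl, hvP, hvL⟩
  · rcases item_cases h hy with ⟨-, q, hq, j, hyj, hyu⟩ | ⟨v', rfl, -, hvL'⟩
    · rw [← hxy] at hyu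
      have hpq : p = q := by
        by_contra hne
        have hd := h.disj p hp q hq hne
        rw [Finset.disjoint_left] at hd
        exact hd (Finset.mem_biUnion.2 ⟨i, Finset.mem_univ _, hxu⟩)
          (Finset.mem_biUnion.2 ⟨j, Finset.mem_univ _, hyu⟩)
      subst hpq
      have hij : i = j := by
        by_contra hne
        have hd := (h.valid p hp).disj i j hne
        rw [Finset.disjoint_left] at hd
        exact hd hxu hyu
      subst hij
      have hno : i ≠ 0 → φ p i ∈ Q →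
          val par (fG n par emb prt M H φ hv hr) (Sum.inl (emb p i)) ≠
            val par (fG n par emb prt M H φ hv hr) (Sum.inr (emb p i)) := by
        intro hi0 hiQ he
        rw [val_inl, val_inr, h.deco.emb_par p i hi0, fG_cov h hp, fG_cov h hp, dd_comm] at he
        exact (h.valid p hp).self i hi0 hiQ he
      rcases hxi with rfl | ⟨rfl, hi0⟩
      · rcases hyj with rfl | ⟨rfl, hi0⟩
        · rfl
        · rw [val_inl, fG_cov h hp] at hxQ
          exact absurd hxy (hno hi0 hxQ)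
      · rcases hyj with rfl | ⟨rfl, -⟩
        · rw [hxy, val_inl, fG_cov h hp] at hxQ
          exact absurd hxy.symm (hno hi0 hxQ)
        · rfl
    · rw [hxy] at hxQ
      exact absurd hvL' (Finset.disjoint_left.1 h.env.QL hxQ)
  · rcases item_cases h hy with ⟨hyQ, -⟩ | ⟨v', rfl, hvP', hvL'⟩
    · rw [← hxy] at hyQ
      exact absurd hvL (Finset.disjoint_left.1 h.env.QL hyQ)
    · have hW := mem_items_inl.1 hx
      have hW' := mem_items_inl.1 hy
      rw [em3c_L h hW hW' hvP hvP' hvL hxy]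

private theorem em3d_rp (he : Env N t Q L rp prt) {x : ℕ} (hx : x ∈ L) : rp (rp x) = rp x :=
  ((he.rp_eq x hx (rp x) (he.rp_mem x hx)).2 (he.rp_or x hx)).symm

private theorem em3d_hr (h : Gl n t np N par S ty pc emb Q L rp prt M H φ hv hr) {p : Fin np}
    (hp : p ∈ H) : hr p ∈ L ∧ rp (hr p) = hr p ∧ ∀ q ∈ M, hr p ∉ (pc q).usedS Q rp (φ q) := by
  obtain ⟨h2, h3⟩ := h.hr_bij.mapsTo (Finset.mem_coe.2 hp)
  obtain ⟨x, hx, hxr⟩ := Finset.mem_image.1 h2
  refine ⟨hxr ▸ h.env.rp_mem x hx, ?_, h3⟩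
  rw [← hxr]
  exact em3d_rp h.env hx

private theorem em3d_P (_h : Gl n t np N par S ty pc emb Q L rp prt M H φ hv hr) {v : ℕ}
    (hP : ty v = Ty.P) : v ∉ LM n par ty emb L prt M H φ hv hr := by
  intro hc
  unfold LM at hc
  rw [Finset.mem_filter] at hc
  rw [hP] at hc
  exact absurd hc.2.1 (by decide)

private theorem em3d_LM (h : Gl n t np N par S ty pc emb Q L rp prt M H φ hv hr) {v : ℕ}
    (hvL : v ∈ LM n par ty emb L prt M H φ hv hr) :
    ∃ p ∈ M, ∃ i, emb p i = v ∧ i ≠ 0 ∧ (pc p).ty i = Ty.U ∧ ty v = Ty.U ∧ φ p i ∈ L ∧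
      φ p ((pc p).par i) = φ p i ∧ rp (φ p i) ∈ (pc p).usd Q rp (φ p) ((pc p).par i) ∧
      fG n par emb prt M H φ hv hr (par v) = φ p i ∧ par v = emb p ((pc p).par i) := by
  unfold LM at hvL
  obtain ⟨h1, hU, hL⟩ := Finset.mem_filter.1 hvL
  obtain ⟨p, hp, h2⟩ := Finset.mem_biUnion.1 h1
  obtain ⟨i, -, rfl⟩ := Finset.mem_image.1 h2
  rw [fG_cov h hp] at hL
  have hU' : (pc p).ty i = Ty.U := by
    rw [h.deco.emb_ty]
    exact hU
  obtain ⟨hi0, hP, h3, -, -⟩ := cov_unit h hp hU'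
  obtain ⟨h4, h5⟩ := h3 hL
  have hpe : par (emb p i) = emb p ((pc p).par i) := h.deco.emb_par p i hi0
  refine ⟨p, hp, i, rfl, hi0, hU', hU, hL, h4, ?_, ?_, hpe⟩
  · obtain ⟨j, hj0, hjP, hjO, hjL, hjr, hju, hj⟩ := cov_top h hp hP (by rw [h4]; exact hL)
    rw [h4] at hju
    rcases hj with rfl | ⟨-, -, h6, h7, -, -⟩
    · exact hju
    · exfalso
      have hPt : ty (emb p ((pc p).par i)) = Ty.P := by
        rw [← h.deco.emb_ty]
        exact hP
      obtain ⟨-, -, -, h8⟩ := h.deco.tyok.P1 _ (h.deco.emb_lt p _) hPt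
      have hch : emb p i ∈ chs n par (emb p ((pc p).par i)) :=
        mem_chs.2 ⟨h.deco.emb_lt p i, (h.deco.tyok.U1 _ (h.deco.emb_lt p i) hU).1, hpe⟩
      rcases h8 with ⟨-, h9⟩ | ⟨h9, -⟩
      · exact h9 _ hch hU
      · rw [h.deco.emb_par p _ h6, ← h.deco.emb_ty, h7] at h9
        exact absurd h9 (by decide)
  · rw [hpe, fG_cov h hp, h4]

private theorem em3d_emb (h : Gl n t np N par S ty pc emb Q L rp prt M H φ hv hr) {p q : Fin np}
    {i : Fin ((pc p).k + 1)} {j : Fin ((pc q).k + 1)} (he : emb p i = emb q j) :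
    (⟨p, i⟩ : Σ p : Fin np, Fin ((pc p).k + 1)) = ⟨q, j⟩ :=
  h.deco.emb_inj he

private theorem em3d_inj (h : Gl n t np N par S ty pc emb Q L rp prt M H φ hv hr) {p : Fin np}
    {i j : Fin ((pc p).k + 1)} (he : emb p i = emb p j) : i = j := by
  have h1 := em3d_emb h he
  simpa using h1

private theorem em3d_vx (h : Gl n t np N par S ty pc emb Q L rp prt M H φ hv hr) {p : Fin np}
    {v : ℕ} (hvx : v ∈ vx emb p) : v < n ∧ v ∉ S := by
  obtain ⟨i, -, rfl⟩ := Finset.mem_image.1 hvx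
  exact ⟨h.deco.emb_lt p i, h.deco.emb_S p i⟩

private theorem em3d_child (h : Gl n t np N par S ty pc emb Q L rp prt M H φ hv hr) {p : Fin np}
    {i : Fin ((pc p).k + 1)} {c : ℕ} (hc : c ∈ vx emb p) (hcc : par c = emb p i) :
    ∃ j, j ≠ 0 ∧ (pc p).par j = i ∧ emb p j = c := by
  obtain ⟨j, -, rfl⟩ := Finset.mem_image.1 hc
  have hj0 : j ≠ 0 := by
    rintro rfl
    have h1 := (h.deco.emb_root p).2
    rw [hcc] at h1
    exact h.deco.emb_S p i h1
  refine ⟨j, hj0, ?_, rfl⟩
  apply em3d_inj h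
  rw [← h.deco.emb_par p j hj0, hcc]

private theorem em3d_used (h : Gl n t np N par S ty pc emb Q L rp prt M H φ hv hr) {p : Fin np}
    (hp : p ∈ M) {i : Fin ((pc p).k + 1)} {r : ℕ} (hrL : r ∈ L)
    (hr' : r ∈ (pc p).usd Q rp (φ p) i) :
    i ≠ 0 ∧ (pc p).ty i = Ty.P ∧ (pc p).ty ((pc p).par i) = Ty.O ∧ φ p i ∈ L ∧ r = rp (φ p i) := by
  have hQL : ∀ x, x ∈ Q → x ∈ L → False := fun x h1 h2 => Finset.disjoint_left.1 h.env.QL h1 h2
  have hV := h.valid p hp
  unfold Piece.usd at hr'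
  by_cases hi0 : i = 0
  · rw [if_pos hi0, Finset.mem_singleton] at hr'
    exact (hQL r (hr' ▸ hV.root) hrL).elim
  · rw [if_neg hi0] at hr'
    refine ⟨hi0, ?_⟩
    have hrule := hV.rule i hi0
    revert hrule hr'
    generalize φ p ((pc p).par i) = x
    generalize φ p i = y
    cases (pc p).ty ((pc p).par i) <;> cases (pc p).ty i <;> simp only [rule, us] <;> intro h1 h2
    · rw [Finset.mem_insert, Finset.mem_singleton] at h1
      rcases h1 with rfl | rfl
      · exact (hQL _ h2.2.1 hrL).elim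
      · exact (hQL _ h2.2.2 hrL).elim
    · split_ifs at h1 with h3
      · rw [Finset.mem_insert, Finset.mem_singleton] at h1
        rcases h1 with rfl | rfl
        · exact (hQL _ h3 hrL).elim
        · exact (hQL _ h2.2.2 hrL).elim
      · rw [Finset.mem_insert, Finset.mem_singleton] at h1
        rcases h1 with rfl | rfl
        · exact ⟨trivial, trivial, h2.2.1.resolve_left h3, rfl⟩
        · exact (hQL _ h2.2.2 hrL).elim
    · exact h2.elim
    · rw [Finset.mem_insert, Finset.mem_singleton] at h1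
      rcases h1 with rfl | rfl
      · exact (hQL _ h2.2.1 hrL).elim
      · exact (hQL _ h2.2.2 hrL).elim
    · exact h2.elim
    · split_ifs at h1 with h3
      · rw [Finset.mem_insert, Finset.mem_singleton] at h1
        rcases h2 with h2 | h2
        · rcases h1 with rfl | rfl
          · exact (hQL _ h2.2.1 hrL).elim
          · exact (hQL _ h2.2.2 hrL).elim
        · exact (hQL _ h3 h2.1).elim
      · exact absurd h1 (Finset.notMem_empty _)
    · exact h2.elim
    · split_ifs at h1 with h3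
      · rw [Finset.mem_insert, Finset.mem_singleton] at h1
        rcases h2 with h2 | h2
        · rcases h1 with rfl | rfl
          · exact (hQL _ h2.2.1 hrL).elim
          · exact (hQL _ h2.2.2 hrL).elim
        · exact (hQL _ h3 h2.1).elim
      · exact absurd h1 (Finset.notMem_empty _)
    · exact h2.elim

theorem LG_nb (h : Gl n t np N par S ty pc emb Q L rp prt M H φ hv hr) {v : ℕ}
    (hvL : v ∈ LG n par ty emb L prt M H φ hv hr) :
    v < n ∧ ty v = Ty.U ∧ v ∉ WG n par ty emb L prt M H φ hv hr ∧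
    par v ∈ WG n par ty emb L prt M H φ hv hr ∧
    fG n par emb prt M H φ hv hr (par v) ∈ L ∧
    ∀ c ∈ chs n par v, c ∈ WG n par ty emb L prt M H φ hv hr ∧
      fG n par emb prt M H φ hv hr c = prt (fG n par emb prt M H φ hv hr (par v)) := by
  have hW : ∀ x, x ∈ WG n par ty emb L prt M H φ hv hr ↔
      (((∃ p ∈ M, x ∈ vx emb p) ∨ (∃ p ∈ H, par (hv p) = x)) ∨ ∃ p ∈ H, x ∈ chs n par (hv p)) ∧
        x ∉ LM n par ty emb L prt M H φ hv hr := by
    intro x
    unfold WG
    rw [Finset.mem_sdiff, Finset.mem_union, Finset.mem_union, Finset.mem_biUnion,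
      Finset.mem_image, Finset.mem_biUnion]
  unfold LG at hvL
  rw [Finset.mem_union] at hvL
  rcases hvL with hvL | hvL
  · obtain ⟨p, hp, i, rfl, hi0, hU', hU, hL, h4, -, h5, h6⟩ := em3d_LM h hvL
    have hvx : emb p i ∈ vx emb p := Finset.mem_image_of_mem _ (Finset.mem_univ _)
    obtain ⟨h7, h8, h9, h10⟩ := vx_nb h hvx hU
    refine ⟨h7, hU, fun hc => ((hW _).1 hc).2 hvL, ?_, ?_, ?_⟩
    · exact (hW _).2 ⟨Or.inl (Or.inl ⟨p, hp, h9⟩),
        em3d_P h (h.deco.tyok.U1 _ h7 hU).2.2.2.2.1⟩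
    · rw [h5]
      exact hL
    · intro c hc
      obtain ⟨h11, h12⟩ := h10 c hc
      refine ⟨(hW _).2 ⟨Or.inl (Or.inl ⟨p, hp, h11⟩), em3d_P h h12⟩, ?_⟩
      obtain ⟨j, hj0, hj, hjc⟩ := em3d_child h h11 (mem_chs.1 hc).2.2
      rw [h5, ← hjc, fG_cov h hp]
      exact ((cov_unit h hp hU').2.2.1 hL).2 j hj0 hj
  · obtain ⟨p, hp, rfl⟩ := Finset.mem_image.1 hvL
    obtain ⟨hvx, hU⟩ := h.hv_mem p hp
    obtain ⟨h7, h8, h9, h10⟩ := vx_nb h hvx hU
    have hPp := (h.deco.tyok.U1 _ h7 hU).2.2.2.2.1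
    have hH : ∀ q ∈ H, ty (par (hv q)) = Ty.P ∧ ∀ c ∈ chs n par (hv q), ty c = Ty.P := by
      intro q hq
      obtain ⟨hvx', hU'⟩ := h.hv_mem q hq
      obtain ⟨h7', -, -, h10'⟩ := vx_nb h hvx' hU'
      exact ⟨(h.deco.tyok.U1 _ h7' hU').2.2.2.2.1, fun c hc => (h10' c hc).2⟩
    refine ⟨h7, hU, fun hc => ?_, ?_, ?_, ?_⟩
    · rcases ((hW _).1 hc).1 with (⟨q, hq, h11⟩ | ⟨q, hq, h11⟩) | ⟨q, hq, h11⟩
      · have hqp : q ≠ p := by
          rintro rfl
          exact Finset.disjoint_left.1 h.HM hq hp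
        exact Finset.disjoint_left.1 (vx_disj h.deco hqp) h11 hvx
      · have h12 := (hH q hq).1
        rw [h11, hU] at h12
        exact absurd h12 (by decide)
      · have h12 := (hH q hq).2 _ h11
        rw [hU] at h12
        exact absurd h12 (by decide)
    · exact (hW _).2 ⟨Or.inl (Or.inr ⟨p, hp, rfl⟩), em3d_P h hPp⟩
    · rw [fG_hpar h hp]
      exact (em3d_hr h hp).1
    · intro c hc
      refine ⟨(hW _).2 ⟨Or.inr ⟨p, hp, hc⟩, em3d_P h ((hH p hp).2 c hc)⟩, ?_⟩
      rw [fG_hpar h hp, fG_hch h hp hc]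

theorem LG_bij (h : Gl n t np N par S ty pc emb Q L rp prt M H φ hv hr) :
    Set.BijOn (fun v => rp (fG n par emb prt M H φ hv hr (par v)))
      (LG n par ty emb L prt M H φ hv hr) (L.image rp) := by
  have hMH : ∀ v ∈ LM n par ty emb L prt M H φ hv hr, ∀ q ∈ H,
      rp (fG n par emb prt M H φ hv hr (par v)) ≠
        rp (fG n par emb prt M H φ hv hr (par (hv q))) := by
    intro v hvL q hq he
    obtain ⟨p, hp, i, -, -, -, -, -, -, h5, h6, -⟩ := em3d_LM h hvL
    obtain ⟨-, h7, h8⟩ := em3d_hr h hq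
    rw [h6, fG_hpar h hq, h7] at he
    rw [he] at h5
    exact h8 p hp (Finset.mem_biUnion.2 ⟨_, Finset.mem_univ _, h5⟩)
  refine ⟨?_, ?_, ?_⟩
  · intro v hvL
    exact Finset.mem_coe.2 (Finset.mem_image_of_mem _
      (LG_nb h (Finset.mem_coe.1 hvL)).2.2.2.2.1)
  · intro v hvL v' hvL' he
    have he' : rp (fG n par emb prt M H φ hv hr (par v)) =
      rp (fG n par emb prt M H φ hv hr (par v')) := he
    rw [Finset.mem_coe] at hvL hvL'
    unfold LG at hvL hvL'
    rw [Finset.mem_union] at hvL hvL'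
    rcases hvL with hvL | hvL
    · rcases hvL' with hvL' | hvL'
      · obtain ⟨p, hp, i, hi, hi0, hiU, hU, -, -, h5, h6, h7⟩ := em3d_LM h hvL
        obtain ⟨q, hq, j, hj, hj0, hjU, hU', -, -, h5', h6', h7'⟩ := em3d_LM h hvL'
        rw [h6, h6'] at he'
        rw [he'] at h5
        have hpq : p = q := by
          by_contra hne
          have hd := h.disj p hp q hq hne
          rw [Finset.disjoint_left] at hd
          exact hd (Finset.mem_biUnion.2 ⟨_, Finset.mem_univ _, h5⟩)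
            (Finset.mem_biUnion.2 ⟨_, Finset.mem_univ _, h5'⟩)
        subst hpq
        have hij : (pc p).par i = (pc p).par j := by
          by_contra hne
          have hd := (h.valid p hp).disj _ _ hne
          rw [Finset.disjoint_left] at hd
          exact hd h5 h5'
        have hPt : ty (par v) = Ty.P := by
          have := (h.deco.tyok.U1 v (by rw [← hi]; exact h.deco.emb_lt p i) hU).2.2.2.2.1
          exact this
        have hvn : v < n := by
          rw [← hi]
          exact h.deco.emb_lt p i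
        have hvn' : v' < n := by
          rw [← hj]
          exact h.deco.emb_lt p j
        have hpp : par v' = par v := by rw [h7, h7', hij]
        have hc1 : v ∈ chs n par (par v) := mem_chs.2 ⟨hvn, (h.deco.tyok.U1 v hvn hU).1, rfl⟩
        have hc2 : v' ∈ chs n par (par v) :=
          mem_chs.2 ⟨hvn', (h.deco.tyok.U1 v' hvn' hU').1, hpp⟩
        obtain ⟨-, -, -, h8⟩ := h.deco.tyok.P1 (par v) (by
          rw [h7]
          exact h.deco.emb_lt p _) hPt
        rcases h8 with ⟨-, h9⟩ | ⟨-, c, -, -, h9⟩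
        · exact absurd hU (h9 v hc1)
        · rw [h9 v hc1 hU, h9 v' hc2 hU']
      · obtain ⟨q, hq, rfl⟩ := Finset.mem_image.1 hvL'
        exact absurd he' (hMH v hvL q hq)
    · obtain ⟨p, hp, rfl⟩ := Finset.mem_image.1 hvL
      rcases hvL' with hvL' | hvL'
      · exact absurd he'.symm (hMH v' hvL' p hp)
      · obtain ⟨q, hq, rfl⟩ := Finset.mem_image.1 hvL'
        rw [fG_hpar h hp, fG_hpar h hq, (em3d_hr h hp).2.1, (em3d_hr h hq).2.1] at he'
        rw [h.hr_bij.injOn (Finset.mem_coe.2 hp) (Finset.mem_coe.2 hq) he']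
  · intro r hr'
    rw [Finset.mem_coe] at hr'
    have hrL : r ∈ L := by
      obtain ⟨x, hx, rfl⟩ := Finset.mem_image.1 hr'
      exact h.env.rp_mem x hx
    by_cases hu : ∀ p ∈ M, r ∉ (pc p).usedS Q rp (φ p)
    · obtain ⟨p, hp, hpr⟩ := h.hr_bij.surjOn (show r ∈ {r | r ∈ L.image rp ∧
        ∀ p ∈ M, r ∉ (pc p).usedS Q rp (φ p)} from ⟨hr', hu⟩)
      refine ⟨hv p, Finset.mem_coe.2 (Finset.mem_union_right _ (Finset.mem_image_of_mem _ hp)), ?_⟩
      change rp (fG n par emb prt M H φ hv hr (par (hv p))) = r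
      rw [fG_hpar h hp, (em3d_hr h hp).2.1, hpr]
    · push Not at hu
      obtain ⟨p, hp, hru⟩ := hu
      obtain ⟨i, -, hi⟩ := Finset.mem_biUnion.1 hru
      obtain ⟨hi0, hiP, hiO, hiL, hir⟩ := em3d_used h hp hrL hi
      have hPt : ty (emb p i) = Ty.P := by
        rw [← h.deco.emb_ty]
        exact hiP
      obtain ⟨-, -, -, h8⟩ := h.deco.tyok.P1 (emb p i) (h.deco.emb_lt p i) hPt
      rcases h8 with ⟨h9, -⟩ | ⟨-, c, hc, hcU, -⟩
      · rw [h.deco.emb_par p i hi0, ← h.deco.emb_ty, hiO] at h9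
        exact absurd h9 (by decide)
      · obtain ⟨hcn, hc1, hcp⟩ := mem_chs.1 hc
        have hcS := (h.deco.tyok.U1 c hcn hcU).2.1
        have hcvx : c ∈ vx emb p := (vx_par h.deco h.hpar hcn hc1 hcS (by
          rw [hcp]
          exact h.deco.emb_S p i)).2 (by
            rw [hcp]
            exact Finset.mem_image_of_mem _ (Finset.mem_univ _))
        obtain ⟨j, hj0, hj, hjc⟩ := em3d_child h hcvx hcp
        have hjU : (pc p).ty j = Ty.U := by
          rw [h.deco.emb_ty, hjc]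
          exact hcU
        obtain ⟨-, -, -, h10, h11⟩ := cov_unit h hp hjU
        have hjL : φ p j ∈ L := by
          rcases h11 with h11 | h11
          · have h12 := (h10 h11).1
            rw [hj] at h12
            exact (Finset.disjoint_left.1 h.env.QL h12 hiL).elim
          · exact h11
        refine ⟨c, Finset.mem_coe.2 (Finset.mem_union_left _ ?_), ?_⟩
        · unfold LM
          refine Finset.mem_filter.2 ⟨Finset.mem_biUnion.2 ⟨p, hp, hcvx⟩, hcU, ?_⟩
          rw [← hjc, fG_cov h hp]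
          exact hjL
        · change rp (fG n par emb prt M H φ hv hr (par c)) = r
          rw [hcp, fG_cov h hp, hir]

theorem glue (h : Gl n t np N par S ty pc emb Q L rp prt M H φ hv hr) :
    ∃ (f : ℕ → ℕ) (W Λ : Finset ℕ), (∀ v ∈ Λ, v < n ∧ ty v = Ty.U) ∧ Disjoint W Λ ∧ W ⊆ range n \ S ∧
      Set.InjOn (val par f) (items par W) ∧
      (∀ x ∈ items par W, val par f x ∈ Q ∨ val par f x ∈ L) ∧
      (∀ v ∈ Λ, par v ∈ W ∧ f (par v) ∈ L ∧ ∀ c ∈ chs n par v, c ∈ W ∧ f c = prt (f (par v))) ∧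
      Set.BijOn (fun v => rp (f (par v))) Λ (L.image rp) ∧
      ∀ p ∈ M, vx emb p ⊆ W ∪ Λ := by
  refine ⟨fG n par emb prt M H φ hv hr, WG n par ty emb L prt M H φ hv hr,
    LG n par ty emb L prt M H φ hv hr, ?_, ?_, ?_, WG_inj h, fun x hx => WG_val h hx, ?_,
    LG_bij h, ?_⟩
  · intro v hvL
    exact ⟨(LG_nb h hvL).1, (LG_nb h hvL).2.1⟩
  · rw [Finset.disjoint_left]
    intro v hvW hvL
    exact (LG_nb h hvL).2.2.1 hvW
  · intro v hvW
    have hkey : ∃ p, v ∈ vx emb p := by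
      unfold WG at hvW
      rw [Finset.mem_sdiff, Finset.mem_union, Finset.mem_union, Finset.mem_biUnion,
        Finset.mem_image, Finset.mem_biUnion] at hvW
      rcases hvW.1 with (⟨p, -, h1⟩ | ⟨p, hp, h1⟩) | ⟨p, hp, h1⟩
      · exact ⟨p, h1⟩
      · refine ⟨p, ?_⟩
        rw [← h1]
        exact (vx_nb h (h.hv_mem p hp).1 (h.hv_mem p hp).2).2.2.1
      · exact ⟨p, ((vx_nb h (h.hv_mem p hp).1 (h.hv_mem p hp).2).2.2.2 v h1).1⟩
    obtain ⟨p, hp⟩ := hkey
    rw [Finset.mem_sdiff, Finset.mem_range]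
    exact em3d_vx h hp
  · intro v hvL
    obtain ⟨-, -, -, h1, h2, h3⟩ := LG_nb h hvL
    exact ⟨h1, h2, h3⟩
  · intro p hp v hvx
    rw [Finset.mem_union]
    by_cases hLM : v ∈ LM n par ty emb L prt M H φ hv hr
    · exact Or.inr (Finset.mem_union_left _ hLM)
    · refine Or.inl ?_
      unfold WG
      rw [Finset.mem_sdiff, Finset.mem_union, Finset.mem_union, Finset.mem_biUnion]
      exact ⟨Or.inl (Or.inl ⟨p, hp, hvx⟩), hLM⟩

end SSB
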