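import Pool.Agent.Lib.MP_8a819d_co.BD.Pk
import Pool.Agent.Lib.MP_8a819d_co.BD.Em1
import Pool.Agent.Lib.MP_8a819d_co.BD.Em3

/-!
# MP_8a819d_co: embedding, 4. The packing for a subset of the pieces; the core

JOB Em4a: `packing_on`. JOB Em4b: `choose_hosts`. JOB Em4c: `emb_core`.

Em4a. Reindex: `e : Fin X.card ≃ X` (`X.equivFin`), apply `piece_packing` to `fun i => pc (e i)` with `nv = ∑ p ∈ X, (k+1)`; the sums over
`Fin X.card` are sums over `X`. Transport `M`, `φ` back (`M` = image; `φ p` for `p ∈ X` by a cast, or define `φ p` by choice).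
Em4b. `Rs` a set of pieces which contain a unit, `U₀` a finite set of numbers with `|U₀| ≤ |Rs|`: choose `H ⊆ Rs` with `|H| = |U₀|`, a bijection
`hr` of `H` to `U₀`, and for every `p ∈ H` a unit `hv p ∈ vx p`.
Em4c. `δ₁, K₀` from `deco_exists Δ`, `B = 2 Δ + 1`, `δ = δ₁ / 8`, `ε_p` from `packing_on B δ`, `ε = min (ε_p / 8) (1/100)`. Given `β, l`:
`K = max K₀ (⌈64 (Δ+1) / ε_p⌉ + ⌈64 / l⌉ + 1)`, `μ = min (δ₁ / (32 K)) (min (l / (32 K)) (ε_p / (32 K)))`, `n₀` large (`≥` the bounds of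
`deco_exists` for `K`, of `packing_on` for `K, μ`, and `μ n₀ ≥ 1`). Let `N = 2 n - 1`, so `n ≤ N ≤ 2 n`. Apply `deco_exists`:
`S, ty, np, pc, emb`, `|S| K ≤ 2n`. `Q = Icc 1 N \ (A ∪ labs D ∪ R)`, `L = labs D`, `rp = rpD D`, `prt = prtD D`: `env_D`, `rp_image`.
The pieces containing units are at least `δ₁ n / K ≥ 16 μ N` (`units_sum`, each piece has at most `K` vertices). Let `Rs` be a set of
`⌈μ N⌉ ≤ 2 μ N` of them, `X` the other pieces.
Hypotheses of `packing_on` for `X`: `|[1,N] \ Q| ≤ |A| + 2|D| + |R| ≤ 4 ε N ≤ ε_p N`; `L ≠ ∅` since `(t+1)|D| ≥ 2 β N > 0`; `|L| ≤ 2 |D| ≤ ε_p N`; the counts: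
`cnt_OP, cnt_PU, cnt_UP, cnt_PO` (summed over `X`; `Δ t ≤ 2 Δ ≤ B`); `e2 = #` units in `X` `≥ δ₁ n - K |Rs| ≥ δ₁ N/2 - 2 K μ N ≥ δ N`;
`2 ∑_X (k+1) = 2 (n - |S| - ∑_Rs (k+1)) ≥ 2n - 4n/K - 4 K μ N ≥ (1 - ε_p) N`; `|X| ≤ np ≤ Δ |S| ≤ 2 Δ n / K ≤ ε_p N`;
`2 ∑_X (k+1) - |X| ≤ 2 (n - 1) ≤ N ≤ N - |A| - |R| + (t+1)|D| ≤ |Q| + (2t+1) |D|` (`|labs D| = t |D|`, `|R| ≤ β N`, `gap`).
Let `M ⊆ X`, `φ` be the result, `U₀` the unused representatives, `|U₀| ≤ μ N ≤ |Rs|`; `choose_hosts`; `Gl` holds (`H ⊆ Rs` is disjoint from `M ⊆ X`); `glue`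
gives `f, W, Λ`. Remaining vertices: `(range n \ Λ) \ W ⊆ S ∪ ⋃ p ∉ M, vx p`, at most `|S| + K (|X| - |M| + |Rs|) ≤ 2n/K + 3 K μ N ≤ l N`.
The values in `Q ∪ L` are in `[1, N]`, not in `A`, not in `R` (`AD`, `DR`). `BijOn` with `unitOf`: `(unitOf D x).1 = rpD D x` and
`d ↦ d.1` is injective on `D` (`unit_unique`). The neighbours: `t = 1`: `chs = ∅` (`pdeg = 1`, `v ≥ 1`), `unit_pair`, `prt x = x`; `t = 2`: `chs = {c}`,
`f c = prt (f (par v))`, `unit_pair`.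
-/

set_option autoImplicit false

namespace SSB

open Finset

private theorem em4a_enum {np : ℕ} (X : Finset (Fin np)) :
    ∃ e' : Fin X.card → Fin np, Function.Injective e' ∧ (∀ p, p ∈ X ↔ ∃ i, e' i = p) ∧
      ∀ f : Fin np → ℕ, ∑ i, f (e' i) = ∑ p ∈ X, f p := by
  refine ⟨fun i => (X.equivFin.symm i : Fin np), ?_, ?_, ?_⟩
  · intro i j hij
    exact X.equivFin.symm.injective (Subtype.ext hij)
  · intro p
    constructor
    · intro hp
      exact ⟨X.equivFin ⟨p, hp⟩, by simp⟩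
    · rintro ⟨i, rfl⟩
      exact (X.equivFin.symm i).2
  · intro f
    rw [Equiv.sum_comp X.equivFin.symm (fun x : X => f x), Finset.sum_coe_sort X f]

theorem packing_on (B δ : ℝ) (hB : 1 ≤ B) (hδ : 0 < δ) : ∃ ε : ℝ, 0 < ε ∧
    ∀ (K : ℕ) (μ : ℝ), 0 < μ → ∃ N₀ : ℕ, ∀ N : ℕ, N₀ ≤ N →
    ∀ (t : ℕ) (Q L : Finset ℕ) (rp prt : ℕ → ℕ), Env N t Q L rp prt →
      (N : ℝ) - Q.card ≤ ε * N → L.Nonempty → (L.card : ℝ) ≤ ε * N →
    ∀ (np : ℕ) (pc : Fin np → Piece) (X : Finset (Fin np)), (∀ p ∈ X, (pc p).WF) →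
      (∀ p ∈ X, (pc p).k + 1 ≤ K) →
    ∀ (e2 : ℕ), e2 = ∑ p ∈ X, (pc p).cnt Ty.O Ty.P →
      e2 = ∑ p ∈ X, (pc p).cnt Ty.P Ty.U → (t - 1) * e2 = ∑ p ∈ X, (pc p).cnt Ty.U Ty.P →
      ((∑ p ∈ X, (pc p).cnt Ty.P Ty.O : ℕ) : ℝ) ≤ B * e2 → δ * N ≤ e2 →
      (1 - ε) * N ≤ 2 * ((∑ p ∈ X, ((pc p).k + 1) : ℕ) : ℝ) → (X.card : ℝ) ≤ ε * N →
      (2 * ((∑ p ∈ X, ((pc p).k + 1) : ℕ) : ℝ) - X.card : ℝ) ≤
        Q.card + (2 * t + 1) * (L.image rp).card →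
      ∃ (M : Finset (Fin np)) (φ : (p : Fin np) → Fin ((pc p).k + 1) → ℕ), M ⊆ X ∧
        (∀ p ∈ M, (pc p).Valid Q L rp prt (φ p)) ∧
        (∀ p ∈ M, ∀ q ∈ M, p ≠ q → Disjoint ((pc p).usedS Q rp (φ p)) ((pc q).usedS Q rp (φ q))) ∧
        (X.card : ℝ) - M.card ≤ μ * N ∧
        (((L.image rp).filter (fun r => ∀ p ∈ M, r ∉ (pc p).usedS Q rp (φ p))).card : ℝ) ≤ μ * N := by
  classical
  obtain ⟨ε, hε, hP⟩ := piece_packing B δ hB hδ
  refine ⟨ε, hε, fun K μ hμ => ?_⟩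
  obtain ⟨N₀, hN₀⟩ := hP K μ hμ
  refine ⟨N₀, ?_⟩
  intro N hN t Q L rp prt hE hQ hLn hL np pc X hWF hK e2 h1 h2 h3 h4 h5 h6 h7 h8
  obtain ⟨e', hinj, himg, hsum⟩ := em4a_enum X
  have hmem : ∀ i, e' i ∈ X := fun i => (himg _).2 ⟨i, rfl⟩
  obtain ⟨M', φ', hV, hD, hc, hr⟩ := hN₀ N hN t Q L rp prt hE hQ hLn hL X.card
    (fun i => pc (e' i)) (fun i => hWF _ (hmem i)) (fun i => hK _ (hmem i))
    (∑ p ∈ X, ((pc p).k + 1)) e2 (hsum fun p => (pc p).k + 1).symm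
    (by rw [h1]; exact (hsum fun p => (pc p).cnt Ty.O Ty.P).symm)
    (by rw [h2]; exact (hsum fun p => (pc p).cnt Ty.P Ty.U).symm)
    (by rw [h3]; exact (hsum fun p => (pc p).cnt Ty.U Ty.P).symm)
    (by
      have h9 := hsum fun p => (pc p).cnt Ty.P Ty.O
      rw [h9]
      exact h4)
    h5 h6 h7 h8
  obtain ⟨φ, hφ⟩ : ∃ φ : (p : Fin np) → Fin ((pc p).k + 1) → ℕ, ∀ i, φ (e' i) = φ' i := by
    have h9 : ∀ p : Fin np, ∃ ψ : Fin ((pc p).k + 1) → ℕ, ∀ i, ∀ h : p = e' i,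
        (Eq.rec (motive := fun q _ => Fin ((pc q).k + 1) → ℕ) ψ h) = φ' i := by
      intro p
      by_cases h : ∃ i, p = e' i
      · obtain ⟨i, rfl⟩ := h
        refine ⟨φ' i, fun j hj => ?_⟩
        have hij : i = j := hinj hj
        subst hij
        rfl
      · exact ⟨fun _ => 0, fun i hi => (h ⟨i, hi⟩).elim⟩
    choose φ hφ using h9
    exact ⟨φ, fun i => hφ (e' i) i rfl⟩
  refine ⟨M'.image e', φ, ?_, ?_, ?_, ?_, ?_⟩
  · intro p hp
    obtain ⟨i, -, rfl⟩ := mem_image.1 hp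
    exact hmem i
  · intro p hp
    obtain ⟨i, hi, rfl⟩ := mem_image.1 hp
    rw [hφ i]
    exact hV i hi
  · intro p hp q hq hpq
    obtain ⟨i, hi, rfl⟩ := mem_image.1 hp
    obtain ⟨j, hj, rfl⟩ := mem_image.1 hq
    rw [hφ i, hφ j]
    exact hD i hi j hj fun h => hpq (by rw [h])
  · rw [card_image_of_injective _ hinj]
    exact hc
  · refine le_trans ?_ hr
    refine Nat.cast_le.2 (card_le_card fun r hr' => ?_)
    rw [mem_filter] at hr' ⊢
    refine ⟨hr'.1, fun i hi => ?_⟩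
    have h9 := hr'.2 (e' i) (mem_image_of_mem _ hi)
    rw [hφ i] at h9
    exact h9


theorem choose_hosts {np : ℕ} {pc : Fin np → Piece} {emb : (p : Fin np) → Fin ((pc p).k + 1) → ℕ}
    {ty : ℕ → Ty} (Rs : Finset (Fin np)) (hRs : ∀ p ∈ Rs, ∃ v ∈ vx emb p, ty v = Ty.U)
    (U₀ : Finset ℕ) (hU : U₀.card ≤ Rs.card) :
    ∃ (H : Finset (Fin np)) (hv hr : Fin np → ℕ), H ⊆ Rs ∧ Set.BijOn hr H U₀ ∧
      ∀ p ∈ H, hv p ∈ vx emb p ∧ ty (hv p) = Ty.U := by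
  classical
  obtain ⟨H, hH, hHc⟩ := Finset.exists_subset_card_eq hU
  have e : H ≃ U₀ := Finset.equivOfCardEq hHc
  refine ⟨H, fun p => if h : p ∈ Rs then (hRs p h).choose else 0,
    fun p => if h : p ∈ H then (e ⟨p, h⟩ : ℕ) else 0, hH, ⟨?_, ?_, ?_⟩, ?_⟩
  · intro p hp
    have hp' : p ∈ H := hp
    change (if h : p ∈ H then (e ⟨p, h⟩ : ℕ) else 0) ∈ (U₀ : Set ℕ)
    rw [dif_pos hp']
    exact (e ⟨p, hp'⟩).2
  · intro p hp q hq hpq
    have hp' : p ∈ H := hp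
    have hq' : q ∈ H := hq
    change (if h : p ∈ H then (e ⟨p, h⟩ : ℕ) else 0) = (if h : q ∈ H then (e ⟨q, h⟩ : ℕ) else 0)
      at hpq
    rw [dif_pos hp', dif_pos hq'] at hpq
    have h1 := e.injective (Subtype.ext hpq)
    exact congrArg Subtype.val h1
  · intro x hx
    have hx' : x ∈ U₀ := hx
    refine ⟨(e.symm ⟨x, hx'⟩ : Fin np), (e.symm ⟨x, hx'⟩).2, ?_⟩
    change (if h : (e.symm ⟨x, hx'⟩ : Fin np) ∈ H then (e ⟨(e.symm ⟨x, hx'⟩ : Fin np), h⟩ : ℕ)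
      else 0) = x
    rw [dif_pos (e.symm ⟨x, hx'⟩).2]
    have h1 : (⟨(e.symm ⟨x, hx'⟩ : Fin np), (e.symm ⟨x, hx'⟩).2⟩ : H) = e.symm ⟨x, hx'⟩ := rfl
    rw [h1, Equiv.apply_symm_apply]
  · intro p hp
    have hp' : p ∈ Rs := hH hp
    beta_reduce
    rw [dif_pos hp']
    exact (hRs p hp').choose_spec

private theorem em4c_RU {n t np K : ℕ} {par : ℕ → ℕ} {S : Finset ℕ} {ty : ℕ → Ty} {pc : Fin np → Piece}
    {emb : (p : Fin np) → Fin ((pc p).k + 1) → ℕ} (h : Deco n par t S ty np pc emb)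
    (hK : ∀ p, (pc p).k + 1 ≤ K) :
    ((range n).filter (fun v => ty v = Ty.U)).card ≤
      ((univ : Finset (Fin np)).filter (fun p => ∃ v ∈ vx emb p, ty v = Ty.U)).card * K := by
  have h1 : ((univ : Finset (Fin np)).filter (fun p => ∃ v ∈ vx emb p, ty v = Ty.U)).card * K =
      ∑ _p ∈ (univ : Finset (Fin np)).filter (fun p => ∃ v ∈ vx emb p, ty v = Ty.U), K := by
    rw [sum_const, smul_eq_mul]
  rw [← units_sum h, h1, sum_filter]
  refine sum_le_sum fun p _ => ?_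
  split_ifs with hc
  · exact (card_filter_le _ _).trans ((vx_card h p).le.trans (hK p))
  · rw [filter_eq_empty_iff.2 (fun v hv hU => hc ⟨v, hv, hU⟩), card_empty]

private theorem em4c_Q {N : ℕ} (A R : Finset ℕ) (L : Finset ℕ) :
    N ≤ (Icc 1 N \ (A ∪ L ∪ R)).card + (A.card + L.card + R.card) := by
  have h1 := card_le_card_sdiff_add_card (s := Icc 1 N) (t := A ∪ L ∪ R)
  have h2 := card_union_le (A ∪ L) R
  have h3 := card_union_le A L
  rw [Nat.card_Icc] at h1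
  omega

private theorem em4c_bij {t : ℕ} (ht : t = 1 ∨ t = 2) {D : Finset (ℕ × ℕ)} (hD : UnitOK t D)
    {Λ : Finset ℕ} {g : ℕ → ℕ} (hg : ∀ v ∈ Λ, g v ∈ labs D)
    (hb : Set.BijOn (fun v => rpD D (g v)) Λ ((labs D).image (rpD D))) :
    Set.BijOn (fun v => unitOf D (g v)) Λ D := by
  refine ⟨?_, ?_, ?_⟩
  · intro v hv
    exact (unitOf_mem (hg v hv)).1
  · intro v hv w hw hvw
    refine hb.2.1 hv hw ?_
    change (unitOf D (g v)).1 = (unitOf D (g w)).1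
    exact congrArg Prod.fst hvw
  · intro d hd
    have h1 : d.1 ∈ labs D := mem_labs.2 ⟨d, hd, Or.inl rfl⟩
    have h2 : rpD D d.1 ∈ (((labs D).image (rpD D) : Finset ℕ) : Set ℕ) :=
      mem_coe.2 (mem_image_of_mem _ h1)
    obtain ⟨v, hv, hv2⟩ := hb.2.2 h2
    refine ⟨v, hv, ?_⟩
    have h3 : unitOf D d.1 = d := unitOf_eq ht hD hd (Or.inl rfl)
    have h4 : (unitOf D (g v)).1 = d.1 := by
      have h5 : rpD D (g v) = rpD D d.1 := hv2
      unfold rpD at h5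
      rw [h5, h3]
    exact unit_unique ht hD (unitOf_mem (hg v hv)).1 hd (Or.inl h4.symm) (Or.inl rfl)

private theorem em4c_nb {n t : ℕ} (ht : t = 1 ∨ t = 2) {par : ℕ → ℕ} {D : Finset (ℕ × ℕ)}
    (hD : UnitOK t D) (hfib : ∀ x ∈ labs D, t = 1 → prtD D x = x) {v : ℕ} {f : ℕ → ℕ} (hv1 : 1 ≤ v)
    (hdeg : pdeg n par v = t) (hL : f (par v) ∈ labs D)
    (hc : ∀ c ∈ chs n par v, f c = prtD D (f (par v))) :
    insert (f (par v)) ((chs n par v).image f) =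
      {(unitOf D (f (par v))).1, (unitOf D (f (par v))).2} := by
  rw [← unit_pair ht hD hL]
  unfold pdeg at hdeg
  rw [if_neg (by omega)] at hdeg
  rcases ht with rfl | rfl
  · have h1 : chs n par v = ∅ := card_eq_zero.1 (by omega)
    rw [h1, image_empty, hfib _ hL rfl]
    simp
  · obtain ⟨c, h1⟩ := card_eq_one.1 (show (chs n par v).card = 1 by omega)
    rw [h1, image_singleton, hc c (by rw [h1]; exact mem_singleton_self c)]

private theorem em4c_rest {n t np K : ℕ} {par : ℕ → ℕ} {S : Finset ℕ} {ty : ℕ → Ty}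
    {pc : Fin np → Piece} {emb : (p : Fin np) → Fin ((pc p).k + 1) → ℕ}
    (h : Deco n par t S ty np pc emb) (hK : ∀ p, (pc p).k + 1 ≤ K) {M : Finset (Fin np)}
    {W Λ : Finset ℕ} (hM : ∀ p ∈ M, vx emb p ⊆ W ∪ Λ) :
    ((range n \ Λ) \ W).card ≤ S.card + (univ \ M).card * K := by
  have h1 : (range n \ Λ) \ W ⊆ S ∪ (univ \ M).biUnion (vx emb) := by
    intro v hv
    rw [mem_sdiff, mem_sdiff, mem_range] at hv
    obtain ⟨⟨h2, h3⟩, h4⟩ := hv
    by_cases h5 : v ∈ S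
    · exact mem_union_left _ h5
    · refine mem_union_right _ ?_
      obtain ⟨p, i, hp⟩ := h.emb_surj v h2 h5
      have h6 : v ∈ vx emb p := by
        unfold vx
        exact mem_image.2 ⟨i, mem_univ _, hp⟩
      refine mem_biUnion.2 ⟨p, mem_sdiff.2 ⟨mem_univ _, fun hpM => ?_⟩, h6⟩
      rcases mem_union.1 (hM p hpM h6) with h7 | h7
      · exact h4 h7
      · exact h3 h7
  refine (card_le_card h1).trans ((card_union_le _ _).trans (Nat.add_le_add_left ?_ _))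
  refine card_biUnion_le.trans ?_
  rw [← smul_eq_mul, ← sum_const]
  exact sum_le_sum fun p _ => (vx_card h p).le.trans (hK p)

theorem emb_core (t : ℕ) (ht : t = 1 ∨ t = 2) (Δ : ℕ) : ∃ ε : ℝ, 0 < ε ∧ ∀ β : ℝ, 0 < β →
    ∀ l : ℝ, 0 < l → ∃ n₀ : ℕ, ∀ n : ℕ, n₀ ≤ n →
    ∀ (R A : Finset ℕ) (D : Finset (ℕ × ℕ)), R ⊆ Icc 1 (2 * n - 1) →
      (R.card : ℝ) ≤ ε * (2 * n - 1 : ℕ) → (R.card : ℝ) ≤ β * (2 * n - 1 : ℕ) →
      AbsData t (2 * n - 1) R A D ε β →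
    ∀ par : ℕ → ℕ, IsPar n par → (∀ i < n, pdeg n par i ≤ Δ) →
      n ≤ 4 * ((range n).filter (fun i => pdeg n par i = t)).card → ∀ v₀ < n,
      ∃ (S : Finset ℕ) (ty : ℕ → Ty) (f : ℕ → ℕ) (W Λ : Finset ℕ), TyOK n par t S ty ∧
        S ⊆ range n ∧ v₀ ∈ S ∧ (∀ v ∈ Λ, v < n ∧ ty v = Ty.U) ∧ Disjoint W Λ ∧ W ⊆ range n \ S ∧
        Set.InjOn (val par f) (items par W) ∧
        (∀ x ∈ items par W, 1 ≤ val par f x ∧ val par f x ≤ 2 * n - 1 ∧ val par f x ∉ A ∧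
          val par f x ∉ R) ∧
        (∀ v ∈ Λ, par v ∈ W ∧ ∀ c ∈ chs n par v, c ∈ W) ∧
        Set.BijOn (fun v => unitOf D (f (par v))) Λ D ∧
        (∀ v ∈ Λ, insert (f (par v)) ((chs n par v).image f) =
          {(unitOf D (f (par v))).1, (unitOf D (f (par v))).2}) ∧
        ((((range n \ Λ) \ W).card : ℕ) : ℝ) ≤ l * (2 * n - 1 : ℕ) := by
  obtain ⟨δ₁, hδ₁, K₀, hdeco⟩ := deco_exists Δ
  have hΔ0 : (0 : ℝ) ≤ Δ := Nat.cast_nonneg Δ
  obtain ⟨εp, hεp, hpack⟩ := packing_on (2 * Δ + 1) (δ₁ / 8) (by linarith) (by positivity)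
  refine ⟨min (εp / 8) (1 / 100), lt_min (by positivity) (by norm_num), ?_⟩
  intro β hβ l hl
  obtain ⟨ε, hεd⟩ : ∃ ε : ℝ, ε = min (εp / 8) (1 / 100) := ⟨_, rfl⟩
  rw [← hεd]
  have hε1 : ε ≤ εp / 8 := hεd ▸ min_le_left _ _
  -- the constants
  obtain ⟨K, hK0, hK1, hKε, hKl⟩ : ∃ K : ℕ, K₀ ≤ K ∧ 1 ≤ K ∧ 64 * (Δ + 1) ≤ εp * K ∧ 64 ≤ l * K := by
    refine ⟨K₀ + 1 + ⌈64 * (Δ + 1) / εp⌉₊ + ⌈64 / l⌉₊, by omega, by omega, ?_, ?_⟩
    · have h1 : 64 * (Δ + 1) / εp ≤ ((K₀ + 1 + ⌈64 * (Δ + 1) / εp⌉₊ + ⌈64 / l⌉₊ : ℕ) : ℝ) := by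
        refine (Nat.le_ceil _).trans ?_
        exact_mod_cast (by omega)
      rw [div_le_iff₀ hεp] at h1
      rw [mul_comm εp]
      exact h1
    · have h1 : 64 / l ≤ ((K₀ + 1 + ⌈64 * (Δ + 1) / εp⌉₊ + ⌈64 / l⌉₊ : ℕ) : ℝ) := by
        refine (Nat.le_ceil _).trans ?_
        exact_mod_cast (by omega)
      rwa [div_le_iff₀ hl, mul_comm] at h1
  have hKpos : (0 : ℝ) < K := by exact_mod_cast hK1
  obtain ⟨μ, hμ, hμδ, hμl, hμε⟩ : ∃ μ : ℝ, 0 < μ ∧ 32 * K * μ ≤ δ₁ ∧ 32 * K * μ ≤ l ∧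
      32 * K * μ ≤ εp := by
    refine ⟨min (min δ₁ l) εp / (32 * K), by positivity, ?_, ?_, ?_⟩
    · rw [mul_div_cancel₀ _ (by positivity)]
      exact (min_le_left _ _).trans (min_le_left _ _)
    · rw [mul_div_cancel₀ _ (by positivity)]
      exact (min_le_left _ _).trans (min_le_right _ _)
    · rw [mul_div_cancel₀ _ (by positivity)]
      exact min_le_right _ _
  obtain ⟨n₁, hn₁⟩ := hdeco K hK0
  obtain ⟨N₁, hN₁⟩ := hpack K μ hμ
  refine ⟨n₁ + N₁ + 1 + ⌈1 / μ⌉₊, ?_⟩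
  intro n hn R A D hR hRε hRβ hA par hpar hdeg h4 v₀ hv₀
  obtain ⟨S, ty, np, pc, emb, hD, hKp, hvS, hSK, hU⟩ := hn₁ n (by omega) par t hpar hdeg h4 v₀ hv₀
  obtain ⟨N, hN⟩ : ∃ N : ℕ, N = 2 * n - 1 := ⟨_, rfl⟩
  rw [← hN] at hR hRε hRβ hA ⊢
  have hnN : n ≤ N := by omega
  have hNn : N + 1 = 2 * n := by omega
  have hnN' : (n : ℝ) ≤ N := by exact_mod_cast hnN
  have hNn' : (N : ℝ) + 1 = 2 * n := by exact_mod_cast hNn
  have hn0 : (0 : ℝ) ≤ n := Nat.cast_nonneg n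
  have hN0 : (0 : ℝ) ≤ N := Nat.cast_nonneg N
  have hμn : 1 ≤ μ * n := by
    have h1 : 1 / μ ≤ n := (Nat.le_ceil _).trans (by exact_mod_cast (by omega : ⌈1 / μ⌉₊ ≤ n))
    rwa [div_le_iff₀ hμ, mul_comm] at h1
  have hμN : 1 ≤ μ * N := hμn.trans (mul_le_mul_of_nonneg_left hnN' hμ.le)
  -- sizes of the absorber
  have hlD : (labs D).card = t * D.card := hA.unit.2
  have ht2 : t ≤ 2 := by rcases ht with rfl | rfl <;> norm_num
  have hlD2 : ((labs D).card : ℝ) ≤ 2 * (ε * N) := by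
    have h1 : (labs D).card ≤ 2 * D.card := by
      rw [hlD]
      exact Nat.mul_le_mul_right _ ht2
    have h2 : ((labs D).card : ℝ) ≤ 2 * D.card := by exact_mod_cast h1
    have h3 := hA.D_le
    linarith
  have hεN : 8 * (ε * N) ≤ εp * N := by
    have h1 := mul_le_mul_of_nonneg_right hε1 hN0
    linarith
  have hεpN : 0 ≤ εp * N := by positivity
  have hDpos : 0 < D.card := by
    by_contra hc
    have h1 : D.card = 0 := by omega
    have h2 := hA.gap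
    rw [h1, Nat.cast_zero, mul_zero] at h2
    have h3 : (0 : ℝ) ≤ A.card := Nat.cast_nonneg _
    have h5 : (0 : ℝ) < N := by exact_mod_cast (by omega : 0 < N)
    have h4 : 0 < β * N := mul_pos hβ h5
    linarith
  have hLne : (labs D).Nonempty := by
    rw [← card_pos, hlD]
    rcases ht with rfl | rfl <;> omega
  have henv := env_D ht (A := A) (R := R) hA.unit hA.D_sub
  have hQ := em4c_Q (N := N) A R (labs D)
  obtain ⟨Q, hQd⟩ : ∃ Q : Finset ℕ, Q = Icc 1 N \ (A ∪ labs D ∪ R) := ⟨_, rfl⟩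
  rw [← hQd] at henv hQ
  have hQ' : (N : ℝ) ≤ Q.card + (A.card + (labs D).card + R.card) := by exact_mod_cast hQ
  -- the pieces
  obtain ⟨RU, hRU⟩ : ∃ RU : Finset (Fin np), RU = (univ : Finset (Fin np)).filter
      (fun p => ∃ v ∈ vx emb p, ty v = Ty.U) := ⟨_, rfl⟩
  have hRUc := em4c_RU hD hKp
  rw [← hRU] at hRUc
  have hRUc' : δ₁ * n ≤ (RU.card : ℝ) * K := hU.trans (by exact_mod_cast hRUc)
  have hceil1 : (⌈μ * N⌉₊ : ℝ) ≤ 2 * (μ * N) := by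
    have h1 := Nat.ceil_lt_add_one (a := μ * N) (by positivity)
    linarith
  have hceil2 : ⌈μ * N⌉₊ ≤ RU.card := by
    have h1 : 32 * K * μ * n ≤ RU.card * K := (mul_le_mul_of_nonneg_right hμδ hn0).trans hRUc'
    have h2 : 32 * μ * n ≤ RU.card := by
      have h3 : K * (32 * μ * n) ≤ K * RU.card := by linarith
      exact le_of_mul_le_mul_left h3 hKpos
    have h3 : μ * N ≤ 2 * (μ * n) := by nlinarith
    have h4 : (⌈μ * N⌉₊ : ℝ) ≤ RU.card := by nlinarith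
    exact_mod_cast h4
  obtain ⟨Rs, hRs1, hRs2⟩ := exists_subset_card_eq hceil2
  have hRs3 : (Rs.card : ℝ) ≤ 2 * (μ * N) := by rw [hRs2]; exact hceil1
  obtain ⟨X, hX⟩ : ∃ X : Finset (Fin np), X = univ \ Rs := ⟨_, rfl⟩
  have hXR : X.card + Rs.card = np := by
    rw [hX, card_sdiff_add_card_eq_card (subset_univ Rs), card_univ, Fintype.card_fin]
  have hsplit : ∀ g : Fin np → ℕ, ∑ p ∈ X, g p + ∑ p ∈ Rs, g p = ∑ p, g p := by
    intro g
    rw [hX]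
    exact sum_sdiff (subset_univ Rs)
  obtain ⟨u, hu⟩ : ∃ u : Fin np → ℕ, u = fun p => ((vx emb p).filter (fun v => ty v = Ty.U)).card :=
    ⟨_, rfl⟩
  have huK : ∀ p, u p ≤ K := fun p => by
    rw [hu]
    exact (card_filter_le _ _).trans ((vx_card hD p).le.trans (hKp p))
  have hRsK : ∀ g : Fin np → ℕ, (∀ p, g p ≤ K) → ∑ p ∈ Rs, g p ≤ Rs.card * K := fun g hg => by
    rw [← smul_eq_mul, ← sum_const]
    exact sum_le_sum fun p _ => hg p
  have hutot : ∑ p, u p = ((range n).filter (fun v => ty v = Ty.U)).card := by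
    rw [hu]
    exact units_sum hD
  obtain ⟨e2, he2⟩ : ∃ e2 : ℕ, e2 = ∑ p ∈ X, u p := ⟨_, rfl⟩
  have hKμN : 2 * (μ * N) * K ≤ δ₁ * N / 16 := by
    have h1 := mul_le_mul_of_nonneg_right hμδ hN0
    linarith
  have hKμN' : 2 * (μ * N) * K ≤ l * N / 16 := by
    have h1 := mul_le_mul_of_nonneg_right hμl hN0
    linarith
  have hKμN'' : 2 * (μ * N) * K ≤ εp * N / 16 := by
    have h1 := mul_le_mul_of_nonneg_right hμε hN0
    linarith
  have hRsK2 : (Rs.card : ℝ) * K ≤ 2 * (μ * N) * K := mul_le_mul_of_nonneg_right hRs3 hKpos.le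
  have he2δ : δ₁ / 8 * N ≤ e2 := by
    have h1 := hsplit u
    have h2 := hRsK u huK
    rw [← he2, hutot] at h1
    have h3 : (((range n).filter (fun v => ty v = Ty.U)).card : ℝ) ≤ e2 + Rs.card * K := by
      exact_mod_cast (by omega)
    have h4 : δ₁ * N ≤ 2 * (δ₁ * n) := by nlinarith
    have h5 : 0 ≤ δ₁ * N := by positivity
    linarith
  have hSn : (S.card : ℝ) * K ≤ 2 * n := by exact_mod_cast hSK
  have hS1 : 1 ≤ S.card := card_pos.2 ⟨0, hD.zero_mem⟩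
  have hsk := sum_k hD
  have hskX := hsplit (fun p => (pc p).k + 1)
  have hskR := hRsK (fun p => (pc p).k + 1) hKp
  obtain ⟨sX, hsX⟩ : ∃ sX : ℕ, sX = ∑ p ∈ X, ((pc p).k + 1) := ⟨_, rfl⟩
  rw [← hsX] at hskX
  have hsX1 : (n : ℝ) ≤ sX + Rs.card * K + S.card := by exact_mod_cast (by omega)
  have hsX2 : sX + S.card ≤ n := by omega
  have hSε : (S.card : ℝ) * (64 * (Δ + 1)) ≤ 2 * n * εp := by
    have h1 := mul_le_mul_of_nonneg_left hKε (Nat.cast_nonneg S.card : (0 : ℝ) ≤ S.card)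
    have h2 := mul_le_mul_of_nonneg_right hSn hεp.le
    linarith
  have hΔS : 0 ≤ (S.card : ℝ) * Δ := by positivity
  have hS0 : (0 : ℝ) ≤ S.card := Nat.cast_nonneg _
  have hnε : εp * n ≤ εp * N := mul_le_mul_of_nonneg_left hnN' hεp.le
  obtain ⟨M, φ, hMX, hval, hdis, hMc, hUc⟩ := hN₁ N (by omega) t Q (labs D) (rpD D) (prtD D) henv
    (by
      have h1 := hA.A_le
      linarith) hLne (by linarith) np pc X (fun p _ => hD.wf p) (fun p _ => hKp p) e2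
    (by
      rw [he2, hu]
      exact sum_congr rfl fun p _ => (cnt_OP hD hpar p).symm)
    (by
      rw [he2, hu]
      exact sum_congr rfl fun p _ => (cnt_PU hD p).symm)
    (by
      rw [he2, hu, mul_sum]
      exact sum_congr rfl fun p _ => (cnt_UP hD hpar (by omega) p).symm)
    (by
      have h1 : ∑ p ∈ X, (pc p).cnt Ty.P Ty.O ≤ Δ * t * e2 := by
        rw [he2, hu, mul_sum]
        exact sum_le_sum fun p _ => cnt_PO hD hpar hdeg (by omega) p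
      have h2 : Δ * t * e2 ≤ Δ * 2 * e2 := Nat.mul_le_mul_right _ (Nat.mul_le_mul_left _ ht2)
      have h3 : ((∑ p ∈ X, (pc p).cnt Ty.P Ty.O : ℕ) : ℝ) ≤ Δ * 2 * e2 := by
        exact_mod_cast h1.trans h2
      have h4 : (0 : ℝ) ≤ e2 := Nat.cast_nonneg _
      linarith) he2δ
    (by
      rw [← hsX]
      nlinarith)
    (by
      have h1 := np_le hD hdeg
      have h2 : (X.card : ℝ) ≤ Δ * S.card := by exact_mod_cast (by omega)
      linarith)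
    (by
      rw [← hsX, rp_image ht hA.unit]
      have h1 := hA.gap
      have h2 : ((labs D).card : ℝ) = t * D.card := by exact_mod_cast hlD
      have h3 : ((sX + S.card : ℕ) : ℝ) ≤ n := by exact_mod_cast hsX2
      push_cast at h3
      have h4 : (1 : ℝ) ≤ S.card := by exact_mod_cast hS1
      have h5 : (0 : ℝ) ≤ X.card := Nat.cast_nonneg _
      have h6 : 0 ≤ β * N := by positivity
      nlinarith)
  -- the hosts
  obtain ⟨H, hv, hr, hH1, hH2, hH3⟩ := choose_hosts (emb := emb) (ty := ty) Rs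
    (fun p hp => by
      have h1 := hRs1 hp
      rw [hRU, mem_filter] at h1
      exact h1.2) _ (by
      rw [hRs2]
      have h1 := hUc.trans (Nat.le_ceil (μ * N))
      exact_mod_cast h1)
  have hG : Gl n t np N par S ty pc emb Q (labs D) (rpD D) (prtD D) M H φ hv hr :=
    { deco := hD
      hpar := hpar
      env := henv
      valid := hval
      disj := hdis
      HM := by
        rw [Finset.disjoint_left]
        intro p hp hpH
        have h1 := hMX hp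
        rw [hX, mem_sdiff] at h1
        exact h1.2 (hH1 hpH)
      hv_mem := hH3
      hr_bij := by
        rw [coe_filter] at hH2
        exact hH2 }
  obtain ⟨f, W, Λ, g1, g2, g3, g4, g5, g6, g7, g8⟩ := glue hG
  refine ⟨S, ty, f, W, Λ, hD.tyok, hD.S_sub, hvS, g1, g2, g3, g4, ?_, ?_, ?_, ?_, ?_⟩
  · intro x hx
    rcases g5 x hx with h1 | h1
    · rw [hQd, mem_sdiff, mem_union, mem_union, mem_Icc, not_or, not_or] at h1
      exact ⟨h1.1.1, h1.1.2, h1.2.1.1, h1.2.2⟩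
    · have h2 := mem_Icc.1 (hA.D_sub h1)
      exact ⟨h2.1, h2.2, fun h3 => Finset.disjoint_left.1 hA.AD h3 h1,
        fun h3 => Finset.disjoint_left.1 hA.DR h1 h3⟩
  · exact fun v hv => ⟨(g6 v hv).1, fun c hc => ((g6 v hv).2.2 c hc).1⟩
  · exact em4c_bij ht hA.unit (fun v hv => (g6 v hv).2.1) g7
  · intro v hv
    obtain ⟨h1, h2⟩ := g1 v hv
    obtain ⟨h3, h4, h5, h6, h7, h8⟩ := hD.tyok.U1 v h1 h2
    exact em4c_nb ht hA.unit (fun x hx => (henv.fib x hx).1) h3 h5 (g6 v hv).2.1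
      (fun c hc => ((g6 v hv).2.2 c hc).2)
  · have h1 := em4c_rest hD hKp g8
    have h2 : ((((range n \ Λ) \ W).card : ℕ) : ℝ) ≤ S.card + ((univ \ M).card : ℕ) * K := by
      exact_mod_cast h1
    refine h2.trans ?_
    have h3 : (univ \ M).card + M.card = np := by
      rw [card_sdiff_add_card_eq_card (subset_univ M), card_univ, Fintype.card_fin]
    have h4 : (((univ \ M).card : ℕ) : ℝ) ≤ 3 * (μ * N) := by
      have h5 : (((univ \ M).card : ℕ) : ℝ) + M.card = X.card + Rs.card := by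
        exact_mod_cast h3.trans hXR.symm
      linarith
    have h5 : (((univ \ M).card : ℕ) : ℝ) * K ≤ 3 * (μ * N) * K :=
      mul_le_mul_of_nonneg_right h4 hKpos.le
    have h6 : (S.card : ℝ) * 64 ≤ 2 * n * l := by
      have h7 := mul_le_mul_of_nonneg_left hKl hS0
      have h8 := mul_le_mul_of_nonneg_right hSn hl.le
      linarith
    have h7 : l * n ≤ l * N := mul_le_mul_of_nonneg_left hnN' hl.le
    have h8 : 0 ≤ l * N := by positivity
    linarith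

end SSB
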