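import Pool.Agent.Lib.MP_8a819d_co.BD.Zf
import Pool.Agent.Lib.MP_8a819d_co.BD.Em5
import Pool.Agent.Lib.MP_8a819d_co.BD.Ab

/-! # MP_8a819d_co: large trees of bounded degree are simply sequential -/

set_option autoImplicit false

namespace SSB

open Finset

theorem bounded_degree (Δ : ℕ) : ∃ n₀ : ℕ, ∀ (n : ℕ) (G : SimpleGraph (Fin n)), n₀ ≤ n → G.IsTree →
    (∀ v, (G.neighborSet v).ncard ≤ Δ) → SSq.Simply G := by
  obtain ⟨n₁, h₁⟩ := SSP_of 1 (Or.inl rfl) abs1 (emb 1 (Or.inl rfl)) Δ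
  obtain ⟨n₂, h₂⟩ := SSP_of 2 (Or.inr rfl) abs2 (emb 2 (Or.inr rfl)) Δ
  refine ⟨max 2 (max n₁ n₂), fun n G hn hG hΔ => ?_⟩
  obtain ⟨par, hpar, hdeg, hS⟩ := tree_to_par hG hΔ
  apply hS
  have a1 : 2 ≤ n := le_trans (le_max_left _ _) hn
  have a2 : n₁ ≤ n := le_trans (le_trans (le_max_left _ _) (le_max_right _ _)) hn
  have a3 : n₂ ≤ n := le_trans (le_trans (le_max_right _ _) (le_max_right _ _)) hn
  rcases many_low n par a1 hpar with h | h
  · exact h₁ n a2 par hpar hdeg h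
  · exact h₂ n a3 par hpar hdeg h

end SSB
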