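import Pool.Agent.Lib.MP_8a819d_co.BD.Defs

/-!
# MP_8a819d_co: the exact kernel, 1. Definitions

A (signed) kernel is a function on pairs `p = (x, y)`, `x < y`, supported by the allowed pairs
`prs N Q` (`x, y, y - x ∈ Q`, `x + y > N`). Its load at `a` is
`(ω/2) * (total weight of the pairs containing a) + (weight of the pairs with difference a)`.

* `e1 x y`: the indicator of the pair `{x, y}`.
* `Wk s x d f = e1 x (x ± d) + e1 x (x ± f) - e1 (x ± d) (x ± f)` (sign `+` if `s = true`): its load is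
  `ω δ_x + δ_d + δ_f - δ_|d-f|`, so `Wk s a d f - Wk s x' d f` has the load `ω (δ_a - δ_x')`.
* windows: `Dw` (offsets between `0.11 N` and `0.13 N`), `Rf` (reference labels between `0.65 N` and
  `0.67 N`), sign of `a`: `+` iff `a ≤ 0.85 N`. `gd a`: the good triples `(x', d, f)`.
* `Jup a` (for `a ≥ 0.45 N`): the average over the good triples of `(Wk a - Wk x') / ω`; load
  `δ_a - nuu a`, where `nuu a` is the distribution of `x'`.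
* `Jlow a` (for `a < 0.45 N`): the average over `x ∈ Xw a` of
  `e1 x (x+a) - (ω/2) (Jup x + Jup (x+a))`; load `δ_a + ω nlow a`.
* `Jref`: average over `(b, h) ∈ BH` of
  `(e1 b (b+h) - (ω/2) (Jup b + Jup (b+h)) - Jup h) / (1 + ω)`; load `nref` (a distribution).
-/

set_option autoImplicit false

namespace SSB

open Finset

/-- allowed pairs -/
def prs (N : ℕ) (Q : Finset ℕ) : Finset (ℕ × ℕ) :=
  (Q ×ˢ Q).filter (fun p => p.1 < p.2 ∧ p.2 - p.1 ∈ Q ∧ N < p.1 + p.2)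

/-- load at `a` of the pair `p` -/
noncomputable def lp (ω : ℝ) (p : ℕ × ℕ) (a : ℕ) : ℝ :=
  (ω / 2) * ((if p.1 = a then 1 else 0) + (if p.2 = a then 1 else 0)) +
    (if p.2 - p.1 = a then 1 else 0)

/-- load of a signed kernel -/
noncomputable def ld (N : ℕ) (Q : Finset ℕ) (ω : ℝ) (k : ℕ × ℕ → ℝ) (a : ℕ) : ℝ :=
  ∑ p ∈ prs N Q, k p * lp ω p a

/-- Kronecker delta -/
noncomputable def dl (x a : ℕ) : ℝ := if x = a then 1 else 0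

/-- indicator of the unordered pair `{x, y}` -/
noncomputable def e1 (x y : ℕ) : ℕ × ℕ → ℝ := fun p => if p = (min x y, max x y) then 1 else 0

/-- shift by `d` upwards or downwards -/
def sft (s : Bool) (x d : ℕ) : ℕ := if s then x + d else x - d

noncomputable def Wk (s : Bool) (x d f : ℕ) : ℕ × ℕ → ℝ := fun p =>
  e1 x (sft s x d) p + e1 x (sft s x f) p - e1 (sft s x d) (sft s x f) p

def Hi (N : ℕ) (Q : Finset ℕ) : Finset ℕ := Q.filter (fun a => 9 * N ≤ 20 * a)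
def Lo (N : ℕ) (Q : Finset ℕ) : Finset ℕ := Q.filter (fun a => 20 * a < 9 * N)
def Dw (N : ℕ) : Finset ℕ := (range (N + 1)).filter (fun d => 11 * N ≤ 100 * d ∧ 100 * d ≤ 13 * N)
def Rf (N : ℕ) (Q : Finset ℕ) : Finset ℕ := Q.filter (fun x => 65 * N ≤ 100 * x ∧ 100 * x ≤ 67 * N)
def sgn (N a : ℕ) : Bool := decide (100 * a ≤ 85 * N)

/-- good triples `(x', d, f)` for `a` -/
def gd (N : ℕ) (Q : Finset ℕ) (a : ℕ) : Finset (ℕ × ℕ × ℕ) :=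
  (Rf N Q ×ˢ Dw N ×ˢ Dw N).filter (fun g => g.2.1 ≠ g.2.2 ∧ g.2.1 ∈ Q ∧ g.2.2 ∈ Q ∧ dd g.2.1 g.2.2 ∈ Q ∧
    sft (sgn N a) a g.2.1 ∈ Q ∧ sft (sgn N a) a g.2.2 ∈ Q ∧
    sft (sgn N a) g.1 g.2.1 ∈ Q ∧ sft (sgn N a) g.1 g.2.2 ∈ Q)

noncomputable def Jup (N : ℕ) (Q : Finset ℕ) (ω : ℝ) (a : ℕ) : ℕ × ℕ → ℝ := fun p =>
  (1 / (ω * (gd N Q a).card)) *
    ∑ g ∈ gd N Q a, (Wk (sgn N a) a g.2.1 g.2.2 p - Wk (sgn N a) g.1 g.2.1 g.2.2 p)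

noncomputable def nuu (N : ℕ) (Q : Finset ℕ) (a x : ℕ) : ℝ :=
  (((gd N Q a).filter (fun g => g.1 = x)).card : ℝ) / (gd N Q a).card

def Xw (N : ℕ) (Q : Finset ℕ) (a : ℕ) : Finset ℕ :=
  Q.filter (fun x => N ≤ 2 * x ∧ 20 * x ≤ 11 * N ∧ x + a ∈ Q)

noncomputable def Jlow (N : ℕ) (Q : Finset ℕ) (ω : ℝ) (a : ℕ) : ℕ × ℕ → ℝ := fun p =>
  (1 / ((Xw N Q a).card : ℝ)) *
    ∑ x ∈ Xw N Q a, (e1 x (x + a) p - (ω / 2) * (Jup N Q ω x p + Jup N Q ω (x + a) p))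

noncomputable def nlow (N : ℕ) (Q : Finset ℕ) (a x : ℕ) : ℝ :=
  (1 / ((Xw N Q a).card : ℝ)) * ∑ z ∈ Xw N Q a, (1 / 2) * (nuu N Q z x + nuu N Q (z + a) x)

def BH (N : ℕ) (Q : Finset ℕ) : Finset (ℕ × ℕ) :=
  (Q ×ˢ Q).filter (fun g => 9 * N ≤ 20 * g.1 ∧ 2 * g.1 ≤ N ∧ 9 * N ≤ 20 * g.2 ∧ 2 * g.2 ≤ N ∧
    g.1 + g.2 ∈ Q)

noncomputable def Jref (N : ℕ) (Q : Finset ℕ) (ω : ℝ) : ℕ × ℕ → ℝ := fun p =>
  (1 / ((1 + ω) * (BH N Q).card)) *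
    ∑ g ∈ BH N Q, (e1 g.1 (g.1 + g.2) p - (ω / 2) * (Jup N Q ω g.1 p + Jup N Q ω (g.1 + g.2) p) -
      Jup N Q ω g.2 p)

noncomputable def nref (N : ℕ) (Q : Finset ℕ) (ω : ℝ) (x : ℕ) : ℝ :=
  (1 / ((1 + ω) * (BH N Q).card)) *
    ∑ g ∈ BH N Q, ((ω / 2) * (nuu N Q g.1 x + nuu N Q (g.1 + g.2) x) + nuu N Q g.2 x)

end SSB
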