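import Pool.Agent.Lib.MP_8a819d_co.BD.Ker1

/-!
# MP_8a819d_co: the exact kernel, 2. Counting good triples

JOB Ker2 (all of this file). `Q ⊆ [1, N]` misses at most `s N` labels, `s = 10^-6`.

* `Dw_card`: the number of integers in `[0.11 N, 0.13 N]` is between `0.02 N - 1` and `0.02 N + 1`.
* `Rf_card`: between `0.02 N - 1 - s N` and `0.02 N + 1`; so `≥ 0.019 N`.
* `gd_fiber`: fix `a ∈ Hi`, `x ∈ Rf`. For all `d ∈ Dw`, the shifts `a ± d`, `x ± d` lie in `[1, N]`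
  (`a ≥ 0.45 N`; sign `+` only if `a ≤ 0.85 N`, sign `-` only if `a > 0.85 N`; `x` between `0.65 N` and
  `0.67 N`). The triple `(x, d, f)` is good unless `d` is one of at most `3 s N` bad offsets
  (`d`, `a ± d`, `x ± d ∉ Q`; the maps `d ↦ a ± d` are injective on `Dw`), or `f` is one of at most
  `5 s N + 1` values (`f`, `a ± f`, `x ± f ∉ Q`, `|d - f| ∉ Q`: each element of `[0, N] \ Q` has at
  most two `f`; also `f = d`, which gives `|d - f| = 0 ∉ Q`, counted by the last). So the number of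
  good `(d, f)` is at least `(c - 3 s N)(c - 5 s N - 2)` with `c = |Dw| ≥ 0.0199 N`, hence at least
  `(1 - 1/1000) c^2`; it is at most `c^2`.
* `gd_card`: sum over `x ∈ Rf`: `(1 - 1/1000) c^2 |Rf| ≤ |gd a| ≤ c^2 |Rf|`, so `|gd a| ≥ 10^-6 N^3`.
* `nuu_*`: `nuu a x = (fibre) / |gd a|` is between `(1 - 1/1000) / |Rf|` and `1 / ((1 - 1/1000) |Rf|)`.
-/

set_option autoImplicit false

namespace SSB

open Finset

/-- the standing hypotheses on `N`, `Q` -/
structure KH (N : ℕ) (Q : Finset ℕ) : Prop where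
  big : 10 ^ 9 ≤ N
  sub : Q ⊆ Icc 1 N
  card : (N : ℝ) - Q.card ≤ (1 / 10 ^ 6) * N

/-- the missing labels -/
private def ker2_Z (N : ℕ) (Q : Finset ℕ) : Finset ℕ := Icc 1 N \ Q

private theorem ker2_Zcard {N : ℕ} {Q : Finset ℕ} (h : KH N Q) :
    ((ker2_Z N Q).card : ℝ) ≤ (1 / 10 ^ 6) * N := by
  have h1 : (ker2_Z N Q).card + Q.card = N := by
    unfold ker2_Z
    rw [card_sdiff_add_card_eq_card h.sub, Nat.card_Icc]
    omega
  have h2 : ((ker2_Z N Q).card : ℝ) + Q.card = N := by exact_mod_cast h1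
  have h3 := h.card
  linarith

private theorem ker2_memZ {N : ℕ} {Q : Finset ℕ} {x : ℕ} (h1 : 1 ≤ x) (h2 : x ≤ N) (h3 : x ∉ Q) :
    x ∈ ker2_Z N Q := by
  unfold ker2_Z
  rw [mem_sdiff, mem_Icc]
  exact ⟨⟨h1, h2⟩, h3⟩

private theorem ker2_memD {N d : ℕ} : d ∈ Dw N ↔ 11 * N ≤ 100 * d ∧ 100 * d ≤ 13 * N := by
  unfold Dw
  rw [mem_filter, mem_range]
  constructor
  · exact fun h => h.2
  · intro h
    exact ⟨by omega, h⟩

private theorem ker2_memR {N : ℕ} {Q : Finset ℕ} {x : ℕ} :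
    x ∈ Rf N Q ↔ x ∈ Q ∧ 65 * N ≤ 100 * x ∧ 100 * x ≤ 67 * N := by
  unfold Rf
  rw [mem_filter]

private theorem ker2_shift {N : ℕ} (hN : 10 ^ 9 ≤ N) {a y d : ℕ} (haN : a ≤ N)
    (ha : 9 * N ≤ 20 * a) (hy : y = a ∨ (65 * N ≤ 100 * y ∧ 100 * y ≤ 67 * N)) (hd : d ∈ Dw N) :
    1 ≤ sft (sgn N a) y d ∧ sft (sgn N a) y d ≤ N := by
  have hd' := ker2_memD.1 hd
  unfold sft sgn
  by_cases h1 : 100 * a ≤ 85 * N
  · rw [decide_eq_true h1, if_pos rfl]
    rcases hy with h2 | h2 <;> omega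
  · rw [decide_eq_false h1]
    simp only [Bool.false_eq_true, if_false]
    rcases hy with h2 | h2 <;> omega

private theorem ker2_shift_inj {N : ℕ} (hN : 10 ^ 9 ≤ N) {a y : ℕ}
    (ha : 9 * N ≤ 20 * a) (hy : y = a ∨ (65 * N ≤ 100 * y ∧ 100 * y ≤ 67 * N)) :
    Set.InjOn (fun d => sft (sgn N a) y d) (Dw N : Set ℕ) := by
  intro d hd f hf hdf
  have hd' := ker2_memD.1 (mem_coe.1 hd)
  have hf' := ker2_memD.1 (mem_coe.1 hf)
  simp only [sft] at hdf
  by_cases h1 : sgn N a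
  · rw [h1, if_pos rfl, if_pos rfl] at hdf
    omega
  · rw [if_neg h1, if_neg h1] at hdf
    rcases hy with h2 | h2 <;> omega

/-- bad offsets for one shift -/
private theorem ker2_bad {N : ℕ} {Q : Finset ℕ} (h : KH N Q) {a y : ℕ} (haN : a ≤ N)
    (ha : 9 * N ≤ 20 * a) (hy : y = a ∨ (65 * N ≤ 100 * y ∧ 100 * y ≤ 67 * N)) :
    ((Dw N).filter (fun d => sft (sgn N a) y d ∉ Q)).card ≤ (ker2_Z N Q).card := by
  refine card_le_card_of_injOn (fun d => sft (sgn N a) y d) ?_ ?_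
  · intro d hd
    rw [mem_coe, mem_filter] at hd
    have h1 := ker2_shift h.big haN ha hy hd.1
    exact mem_coe.2 (ker2_memZ h1.1 h1.2 hd.2)
  · intro d hd f hf hdf
    rw [mem_coe, mem_filter] at hd hf
    exact ker2_shift_inj h.big ha hy (mem_coe.2 hd.1) (mem_coe.2 hf.1) hdf

private theorem ker2_bad0 {N : ℕ} {Q : Finset ℕ} (h : KH N Q) :
    ((Dw N).filter (fun d => d ∉ Q)).card ≤ (ker2_Z N Q).card := by
  refine card_le_card ?_
  intro d hd
  rw [mem_filter] at hd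
  have h1 := ker2_memD.1 hd.1
  have h2 := h.big
  exact ker2_memZ (by omega) (by omega) hd.2

private theorem ker2_bad2 {N : ℕ} {Q : Finset ℕ} {d : ℕ} (hd : d ∈ Dw N) :
    ((Dw N).filter (fun f => dd d f ∉ Q)).card ≤ 2 * (ker2_Z N Q).card + 1 := by
  have hd' := ker2_memD.1 hd
  have h1 : (Dw N).filter (fun f => dd d f ∉ Q) ⊆
      ((ker2_Z N Q).image (fun z => d - z) ∪ (ker2_Z N Q).image (fun z => d + z)) ∪ {d} := by
    intro f hf
    rw [mem_filter] at hf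
    have hf' := ker2_memD.1 hf.1
    have h2 := hf.2
    unfold dd at h2
    rcases lt_trichotomy f d with h3 | h3 | h3
    · refine mem_union_left _ (mem_union_left _ (mem_image.2 ⟨d - f, ?_, by omega⟩))
      refine ker2_memZ (by omega) (by omega) ?_
      rwa [show d - f + (f - d) = d - f by omega] at h2
    · refine mem_union_right _ ?_
      rw [h3]
      exact mem_singleton_self d
    · refine mem_union_left _ (mem_union_right _ (mem_image.2 ⟨f - d, ?_, by omega⟩))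
      refine ker2_memZ (by omega) (by omega) ?_
      rwa [show d - f + (f - d) = f - d by omega] at h2
  refine le_trans (card_le_card h1) (le_trans (card_union_le _ _) ?_)
  rw [card_singleton]
  have h2 := card_union_le ((ker2_Z N Q).image (fun z => d - z)) ((ker2_Z N Q).image (fun z => d + z))
  have h3 : ((ker2_Z N Q).image (fun z => d - z)).card ≤ (ker2_Z N Q).card := card_image_le
  have h4 : ((ker2_Z N Q).image (fun z => d + z)).card ≤ (ker2_Z N Q).card := card_image_le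
  omega

theorem Dw_card {N : ℕ} (h : 10 ^ 9 ≤ N) :
    (199 / 10000) * (N : ℝ) ≤ (Dw N).card ∧ ((Dw N).card : ℝ) ≤ (201 / 10000) * N := by
  have h1 : Dw N = Icc ((11 * N + 99) / 100) (13 * N / 100) := by
    ext d
    rw [ker2_memD, mem_Icc]
    omega
  have h2 : (Dw N).card = 13 * N / 100 + 1 - (11 * N + 99) / 100 := by
    rw [h1, Nat.card_Icc]
  have h3 : 199 * N ≤ 10000 * (Dw N).card := by omega
  have h4 : 10000 * (Dw N).card ≤ 201 * N := by omega
  have h5 : 199 * (N : ℝ) ≤ 10000 * (Dw N).card := by exact_mod_cast h3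
  have h6 : 10000 * ((Dw N).card : ℝ) ≤ 201 * N := by exact_mod_cast h4
  constructor <;> linarith

theorem Rf_card {N : ℕ} {Q : Finset ℕ} (h : KH N Q) :
    (19 / 1000) * (N : ℝ) ≤ (Rf N Q).card ∧ ((Rf N Q).card : ℝ) ≤ (21 / 1000) * N := by
  have hN := h.big
  have hsub : Rf N Q ⊆ Icc ((65 * N + 99) / 100) (67 * N / 100) := by
    intro x hx
    have h1 := ker2_memR.1 hx
    rw [mem_Icc]
    omega
  have hcov : Icc ((65 * N + 99) / 100) (67 * N / 100) ⊆ Rf N Q ∪ ker2_Z N Q := by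
    intro x hx
    rw [mem_Icc] at hx
    by_cases h1 : x ∈ Q
    · exact mem_union_left _ (ker2_memR.2 ⟨h1, by omega, by omega⟩)
    · exact mem_union_right _ (ker2_memZ (by omega) (by omega) h1)
  have h1 := card_le_card hsub
  have h2 := le_trans (card_le_card hcov) (card_union_le _ _)
  rw [Nat.card_Icc] at h1 h2
  have h3 : 1000 * (Rf N Q).card ≤ 21 * N := by omega
  have h4 : 2 * N ≤ 100 * ((Rf N Q).card + (ker2_Z N Q).card) + 200 := by omega
  have h5 : 1000 * ((Rf N Q).card : ℝ) ≤ 21 * N := by exact_mod_cast h3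
  have h6 : 2 * (N : ℝ) ≤ 100 * ((Rf N Q).card + (ker2_Z N Q).card) + 200 := by exact_mod_cast h4
  have h7 := ker2_Zcard h
  have h8 : (10 : ℝ) ^ 9 ≤ N := by exact_mod_cast hN
  constructor
  · linarith
  · linarith

theorem gd_fiber {N : ℕ} {Q : Finset ℕ} (h : KH N Q) {a x : ℕ} (ha : a ∈ Hi N Q) (hx : x ∈ Rf N Q) :
    (1 - 1 / 1000) * ((Dw N).card : ℝ) ^ 2 ≤ ((gd N Q a).filter (fun g => g.1 = x)).card ∧
      ((((gd N Q a).filter (fun g => g.1 = x)).card : ℕ) : ℝ) ≤ ((Dw N).card : ℝ) ^ 2 := by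
  have hN := h.big
  have hNr : (10 : ℝ) ^ 9 ≤ N := by exact_mod_cast hN
  unfold Hi at ha
  rw [mem_filter] at ha
  obtain ⟨haQ, ha9⟩ := ha
  have haN : a ≤ N := (mem_Icc.1 (h.sub haQ)).2
  have hx' := ker2_memR.1 hx
  have hxy : x = a ∨ (65 * N ≤ 100 * x ∧ 100 * x ≤ 67 * N) := Or.inr hx'.2
  have h0Q : 0 ∉ Q := by
    intro h1
    have h2 := (mem_Icc.1 (h.sub h1)).1
    omega
  obtain ⟨P, hP⟩ : ∃ P : Finset (ℕ × ℕ), P = (Dw N ×ˢ Dw N).filter (fun g => g.1 ≠ g.2 ∧ g.1 ∈ Q ∧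
    g.2 ∈ Q ∧ dd g.1 g.2 ∈ Q ∧ sft (sgn N a) a g.1 ∈ Q ∧ sft (sgn N a) a g.2 ∈ Q ∧
    sft (sgn N a) x g.1 ∈ Q ∧ sft (sgn N a) x g.2 ∈ Q) := ⟨_, rfl⟩
  have hcard : ((gd N Q a).filter (fun g => g.1 = x)).card = P.card := by
    refine card_bij (fun g _ => g.2) ?_ ?_ ?_
    · intro g hg
      rw [mem_filter] at hg
      obtain ⟨hg1, hg2⟩ := hg
      unfold gd at hg1
      rw [mem_filter, mem_product, mem_product] at hg1
      rw [hP, mem_filter, mem_product]
      rw [hg2] at hg1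
      exact ⟨hg1.1.2, hg1.2⟩
    · intro g hg g' hg' hgg
      rw [mem_filter] at hg hg'
      exact Prod.ext (hg.2.trans hg'.2.symm) hgg
    · intro q hq
      rw [hP, mem_filter, mem_product] at hq
      refine ⟨(x, q), ?_, rfl⟩
      rw [mem_filter]
      unfold gd
      rw [mem_filter, mem_product, mem_product]
      exact ⟨⟨⟨hx, hq.1⟩, hq.2⟩, rfl⟩
  rw [hcard]
  obtain ⟨B1, hB1⟩ : ∃ B1 : Finset ℕ, B1 = ((Dw N).filter (fun d => d ∉ Q) ∪
    (Dw N).filter (fun d => sft (sgn N a) a d ∉ Q)) ∪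
      (Dw N).filter (fun d => sft (sgn N a) x d ∉ Q) := ⟨_, rfl⟩
  have hB1c : B1.card ≤ 3 * (ker2_Z N Q).card := by
    have h1 := ker2_bad0 h
    have h2 := ker2_bad h haN ha9 (Or.inl rfl : a = a ∨ _)
    have h3 := ker2_bad h haN ha9 hxy
    have h4 := card_union_le ((Dw N).filter (fun d => d ∉ Q) ∪
      (Dw N).filter (fun d => sft (sgn N a) a d ∉ Q))
      ((Dw N).filter (fun d => sft (sgn N a) x d ∉ Q))
    have h5 := card_union_le ((Dw N).filter (fun d => d ∉ Q))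
      ((Dw N).filter (fun d => sft (sgn N a) a d ∉ Q))
    rw [hB1]
    omega
  obtain ⟨B7, hB7⟩ : ∃ B7 : Finset (ℕ × ℕ), B7 = (Dw N).biUnion (fun d =>
    ((Dw N).filter (fun f => dd d f ∉ Q)).image (fun f => (d, f))) := ⟨_, rfl⟩
  have hB7c : B7.card ≤ (Dw N).card * (2 * (ker2_Z N Q).card + 1) := by
    rw [hB7]
    refine le_trans card_biUnion_le ?_
    rw [← smul_eq_mul, ← sum_const]
    refine sum_le_sum fun d hd => ?_
    exact le_trans card_image_le (ker2_bad2 hd)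
  have hcov : Dw N ×ˢ Dw N ⊆ ((P ∪ B1 ×ˢ Dw N) ∪ Dw N ×ˢ B1) ∪ B7 := by
    intro q hq
    rw [mem_product] at hq
    by_cases h1 : dd q.1 q.2 ∈ Q
    · by_cases h2 : q.1 ∈ B1
      · exact mem_union_left _ (mem_union_left _ (mem_union_right _ (mem_product.2 ⟨h2, hq.2⟩)))
      · by_cases h3 : q.2 ∈ B1
        · exact mem_union_left _ (mem_union_right _ (mem_product.2 ⟨hq.1, h3⟩))
        · refine mem_union_left _ (mem_union_left _ (mem_union_left _ ?_))
          have h4 : ∀ d ∈ Dw N, d ∉ B1 → d ∈ Q ∧ sft (sgn N a) a d ∈ Q ∧ sft (sgn N a) x d ∈ Q := by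
            intro d hd hdB
            rw [hB1, mem_union, mem_union, mem_filter, mem_filter, mem_filter] at hdB
            push Not at hdB
            exact ⟨hdB.1.1 hd, hdB.1.2 hd, hdB.2 hd⟩
          obtain ⟨h5, h6, h7⟩ := h4 q.1 hq.1 h2
          obtain ⟨h8, h9, h10⟩ := h4 q.2 hq.2 h3
          rw [hP, mem_filter, mem_product]
          refine ⟨hq, ?_, h5, h8, h1, h6, h9, h7, h10⟩
          intro h11
          apply h0Q
          have h12 : dd q.1 q.2 = 0 := by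
            rw [h11]
            unfold dd
            omega
          rw [← h12]
          exact h1
    · refine mem_union_right _ ?_
      rw [hB7, mem_biUnion]
      exact ⟨q.1, hq.1, mem_image.2 ⟨q.2, mem_filter.2 ⟨hq.2, h1⟩, rfl⟩⟩
  have hle : (Dw N).card * (Dw N).card ≤ P.card + B1.card * (Dw N).card +
      (Dw N).card * B1.card + B7.card := by
    have h1 := card_le_card hcov
    rw [card_product] at h1
    have h2 := card_union_le ((P ∪ B1 ×ˢ Dw N) ∪ Dw N ×ˢ B1) B7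
    have h3 := card_union_le (P ∪ B1 ×ˢ Dw N) (Dw N ×ˢ B1)
    have h4 := card_union_le P (B1 ×ˢ Dw N)
    rw [card_product] at h3 h4
    omega
  have hPle : P.card ≤ (Dw N).card * (Dw N).card := by
    rw [hP]
    refine le_trans (card_filter_le _ _) ?_
    rw [card_product]
  have hD := Dw_card hN
  have hZ := ker2_Zcard h
  obtain ⟨c, hc⟩ : ∃ c : ℝ, c = (Dw N).card := ⟨_, rfl⟩
  obtain ⟨z, hz⟩ : ∃ z : ℝ, z = (ker2_Z N Q).card := ⟨_, rfl⟩
  rw [← hc] at hD ⊢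
  rw [← hz] at hZ
  have hz0 : 0 ≤ z := by
    rw [hz]
    exact Nat.cast_nonneg _
  have hc0 : 0 ≤ c := by
    rw [hc]
    exact Nat.cast_nonneg _
  have hle' : c * c ≤ P.card + B1.card * c + c * B1.card + B7.card := by
    rw [hc]
    exact_mod_cast hle
  have hB1r : (B1.card : ℝ) ≤ 3 * z := by
    rw [hz]
    exact_mod_cast hB1c
  have hB7r : (B7.card : ℝ) ≤ c * (2 * z + 1) := by
    rw [hz, hc]
    exact_mod_cast hB7c
  have hPr : (P.card : ℝ) ≤ c * c := by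
    rw [hc]
    exact_mod_cast hPle
  constructor
  · have h1 : (B1.card : ℝ) * c ≤ 3 * z * c := mul_le_mul_of_nonneg_right hB1r hc0
    have h2 : c * c - c * (8 * z + 1) ≤ P.card := by linarith
    have h3 : 8 * z + 1 ≤ (1 / 1000) * c := by linarith
    have h4 : c * (8 * z + 1) ≤ c * ((1 / 1000) * c) := mul_le_mul_of_nonneg_left h3 hc0
    calc (1 - 1 / 1000) * c ^ 2 = c * c - c * ((1 / 1000) * c) := by ring
      _ ≤ c * c - c * (8 * z + 1) := by linarith
      _ ≤ P.card := h2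
  · rw [sq]
    exact hPr

theorem gd_card {N : ℕ} {Q : Finset ℕ} (h : KH N Q) {a : ℕ} (ha : a ∈ Hi N Q) :
    (1 / 10 ^ 6) * (N : ℝ) ^ 3 ≤ (gd N Q a).card := by
  have hfib : (gd N Q a).card = ∑ x ∈ Rf N Q, ((gd N Q a).filter (fun g => g.1 = x)).card := by
    refine card_eq_sum_card_fiberwise ?_
    intro g hg
    rw [mem_coe] at hg ⊢
    unfold gd at hg
    rw [mem_filter, mem_product] at hg
    exact hg.1.1
  have hD := (Dw_card h.big).1
  have hR := (Rf_card h).1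
  have hN0 : (0 : ℝ) ≤ N := Nat.cast_nonneg _
  have h1 : ((Rf N Q).card : ℝ) * ((1 - 1 / 1000) * ((Dw N).card : ℝ) ^ 2) ≤ (gd N Q a).card := by
    rw [hfib]
    push_cast
    rw [← nsmul_eq_mul, ← sum_const]
    exact sum_le_sum fun x hx => (gd_fiber h ha hx).1
  have h2 : ((199 / 10000) * (N : ℝ)) ^ 2 ≤ ((Dw N).card : ℝ) ^ 2 :=
    pow_le_pow_left₀ (by positivity) hD 2
  calc (1 / 10 ^ 6) * (N : ℝ) ^ 3 ≤
      ((19 / 1000) * (N : ℝ)) * ((1 - 1 / 1000) * ((199 / 10000) * (N : ℝ)) ^ 2) := by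
        have h3 : (0 : ℝ) ≤ (N : ℝ) ^ 3 := by positivity
        have h4 : ((19 / 1000) * (N : ℝ)) * ((1 - 1 / 1000) * ((199 / 10000) * (N : ℝ)) ^ 2) =
            ((19 / 1000) * ((1 - 1 / 1000) * (199 / 10000) ^ 2)) * (N : ℝ) ^ 3 := by ring
        rw [h4]
        refine mul_le_mul_of_nonneg_right ?_ h3
        norm_num
    _ ≤ ((Rf N Q).card : ℝ) * ((1 - 1 / 1000) * ((Dw N).card : ℝ) ^ 2) := by
        refine mul_le_mul hR ?_ (by positivity) (by positivity)
        exact mul_le_mul_of_nonneg_left h2 (by norm_num)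
    _ ≤ _ := h1

theorem nuu_nonneg (N : ℕ) (Q : Finset ℕ) (a x : ℕ) : 0 ≤ nuu N Q a x := by
  unfold nuu
  positivity

theorem nuu_supp {N : ℕ} {Q : Finset ℕ} {a x : ℕ} (hx : x ∉ Rf N Q) : nuu N Q a x = 0 := by
  unfold nuu
  have h1 : (gd N Q a).filter (fun g => g.1 = x) = ∅ := by
    rw [filter_eq_empty_iff]
    intro g hg h2
    unfold gd at hg
    rw [mem_filter, mem_product] at hg
    exact hx (h2 ▸ hg.1.1)
  rw [h1, card_empty]
  simp

theorem nuu_est {N : ℕ} {Q : Finset ℕ} (h : KH N Q) {a x : ℕ} (ha : a ∈ Hi N Q) (hx : x ∈ Rf N Q) :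
    |nuu N Q a x - 1 / (Rf N Q).card| ≤ (1 / 500) / (Rf N Q).card := by
  have hfib : (gd N Q a).card = ∑ x ∈ Rf N Q, ((gd N Q a).filter (fun g => g.1 = x)).card := by
    refine card_eq_sum_card_fiberwise ?_
    intro g hg
    rw [mem_coe] at hg ⊢
    unfold gd at hg
    rw [mem_filter, mem_product] at hg
    exact hg.1.1
  have hN : (10 : ℝ) ^ 9 ≤ N := by exact_mod_cast h.big
  have hR := (Rf_card h).1
  have hD := (Dw_card h.big).1
  have hr : (0 : ℝ) < (Rf N Q).card := by linarith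
  have hc : (0 : ℝ) < (Dw N).card := by linarith
  have hc2 : (0 : ℝ) < ((Dw N).card : ℝ) ^ 2 := by positivity
  have hlow : ((Rf N Q).card : ℝ) * ((1 - 1 / 1000) * ((Dw N).card : ℝ) ^ 2) ≤
      (gd N Q a).card := by
    rw [hfib]
    push_cast
    rw [← nsmul_eq_mul, ← sum_const]
    exact sum_le_sum fun x hx => (gd_fiber h ha hx).1
  have hup : ((gd N Q a).card : ℝ) ≤ ((Rf N Q).card : ℝ) * ((Dw N).card : ℝ) ^ 2 := by
    rw [hfib]
    push_cast
    rw [← nsmul_eq_mul, ← sum_const]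
    exact sum_le_sum fun x hx => (gd_fiber h ha hx).2
  obtain ⟨hf1, hf2⟩ := gd_fiber h ha hx
  unfold nuu
  obtain ⟨r, hr'⟩ : ∃ r : ℝ, r = (Rf N Q).card := ⟨_, rfl⟩
  obtain ⟨c, hc'⟩ : ∃ c : ℝ, c = ((Dw N).card : ℝ) ^ 2 := ⟨_, rfl⟩
  obtain ⟨g, hg'⟩ : ∃ g : ℝ, g = (gd N Q a).card := ⟨_, rfl⟩
  obtain ⟨f, hf'⟩ : ∃ f : ℝ, f = ((gd N Q a).filter (fun g => g.1 = x)).card := ⟨_, rfl⟩
  rw [← hr'] at hr hlow hup ⊢
  rw [← hc'] at hc2 hlow hup hf1 hf2
  rw [← hg'] at hlow hup ⊢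
  rw [← hf'] at hf1 hf2 ⊢
  have hg : 0 < g := lt_of_lt_of_le (by positivity) hlow
  have hrc : 0 < r * c := mul_pos hr hc2
  have h1 : f * r ≤ (1 + 1 / 500) * g := by
    have h2 : f * r ≤ c * r := mul_le_mul_of_nonneg_right hf2 hr.le
    have h3 : r * ((1 - 1 / 1000) * c) = (1 - 1 / 1000) * (r * c) := by ring
    rw [h3] at hlow
    have h4 : c * r = r * c := mul_comm _ _
    linarith
  have h2 : (1 - 1 / 500) * g ≤ f * r := by
    have h3 : (1 - 1 / 1000) * c * r ≤ f * r := mul_le_mul_of_nonneg_right hf1 hr.le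
    have h4 : (1 - 1 / 1000) * c * r = (1 - 1 / 1000) * (r * c) := by ring
    linarith
  rw [abs_le]
  constructor
  · have h3 : (1 - 1 / 500) / r ≤ f / g := by
      rw [div_le_div_iff₀ hr hg]
      exact h2
    have h4 : (1 - 1 / 500) / r = 1 / r - (1 / 500) / r := by ring
    linarith
  · have h3 : f / g ≤ (1 + 1 / 500) / r := by
      rw [div_le_div_iff₀ hg hr]
      exact h1
    have h4 : (1 + 1 / 500) / r = 1 / r + (1 / 500) / r := by ring
    linarith

end SSB
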