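import Pool.Agent.Lib.MP_8a819d_co.BD.Ker2

/-!
# MP_8a819d_co: the exact kernel, 3. Loads of the upper transfers

JOB Ker3 (all of this file).

* `ld_e1`: the pair `(min x y, max x y)` is allowed and `e1` is its indicator; `max - min = dd x y`;
  symmetric in `x`, `y`.
* `ld_add`, `ld_smul`, `ld_sum`, `ld_sub`: linearity of finite sums.
* `pair_ok`: for a good triple all the pairs `{z, z±d}`, `{z, z±f}`, `{z±d, z±f}` with `z = a` or
  `z = x'` are allowed (i.e. in `prs`): the labels are in `Q`, the differences `d`, `f`, `|d-f|` are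
  in `Q` (so `≠ 0`, as `Q ⊆ [1, N]`), and the sums exceed `N`: sign `+`: `z ≥ 0.45 N`, `2 z + d ≥
  0.9 N + 0.11 N > N`, `(z+d)+(z+f) > N`; sign `-`: `z ≥ 0.65 N`, `2 z - d ≥ 1.3 N - 0.13 N`,
  `(z-d)+(z-f) ≥ 1.3 N - 0.26 N > N`. (`N ≥ 10^9` so strict inequalities are fine.) Moreover the smaller
  label `z - max(d,f) ≥ 0.52 N` or `z ≥ 0.45 N` is at least `N / 3`.
* `ld_Wk`: load of `Wk s z d f` is `ω δ_z + δ_d + δ_f - δ_|d-f|`.
* `ld_Jup`: average: `δ_a - nuu a`.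
* `Jup_supp`: `Jup a p ≠ 0` implies `p ∈ prs` and `N ≤ 3 p.1`.
-/

set_option autoImplicit false

namespace SSB

open Finset

theorem ld_e1 {N : ℕ} {Q : Finset ℕ} {ω : ℝ} {x y : ℕ} (h : (min x y, max x y) ∈ prs N Q) (a : ℕ) :
    ld N Q ω (e1 x y) a = (ω / 2) * (dl x a + dl y a) + dl (dd x y) a := by
  have e : ld N Q ω (e1 x y) a = lp ω (min x y, max x y) a := by
    unfold ld
    rw [Finset.sum_eq_single (min x y, max x y)]
    · unfold e1
      rw [if_pos rfl, one_mul]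
    · intro p _ hp
      unfold e1
      rw [if_neg hp, zero_mul]
    · intro h'
      exact absurd h h'
  rw [e]
  unfold lp dl
  rcases le_total x y with hxy | hxy
  · rw [min_eq_left hxy, max_eq_right hxy]
    have h1 : dd x y = y - x := by
      unfold dd
      omega
    rw [h1]
  · rw [min_eq_right hxy, max_eq_left hxy]
    have h1 : dd x y = x - y := by
      unfold dd
      omega
    rw [h1]
    ring

theorem ld_add (N : ℕ) (Q : Finset ℕ) (ω : ℝ) (k k' : ℕ × ℕ → ℝ) (a : ℕ) :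
    ld N Q ω (fun p => k p + k' p) a = ld N Q ω k a + ld N Q ω k' a := by
  unfold ld
  rw [← Finset.sum_add_distrib]
  exact Finset.sum_congr rfl fun p _ => add_mul _ _ _

theorem ld_sub (N : ℕ) (Q : Finset ℕ) (ω : ℝ) (k k' : ℕ × ℕ → ℝ) (a : ℕ) :
    ld N Q ω (fun p => k p - k' p) a = ld N Q ω k a - ld N Q ω k' a := by
  unfold ld
  rw [← Finset.sum_sub_distrib]
  exact Finset.sum_congr rfl fun p _ => sub_mul _ _ _

theorem ld_smul (N : ℕ) (Q : Finset ℕ) (ω c : ℝ) (k : ℕ × ℕ → ℝ) (a : ℕ) :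
    ld N Q ω (fun p => c * k p) a = c * ld N Q ω k a := by
  unfold ld
  rw [Finset.mul_sum]
  exact Finset.sum_congr rfl fun p _ => mul_assoc _ _ _

theorem ld_sum {J : Type} (s : Finset J) (N : ℕ) (Q : Finset ℕ) (ω : ℝ) (k : J → ℕ × ℕ → ℝ) (a : ℕ) :
    ld N Q ω (fun p => ∑ j ∈ s, k j p) a = ∑ j ∈ s, ld N Q ω (k j) a := by
  unfold ld
  rw [Finset.sum_comm]
  exact Finset.sum_congr rfl fun p _ => Finset.sum_mul _ _ _

private theorem ker3_pair {N : ℕ} {Q : Finset ℕ} (hN : 10 ^ 9 ≤ N) (s : Bool) {z d : ℕ} (hz : z ∈ Q)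
    (h1 : s = true → 9 * N ≤ 20 * z) (h2 : s = false → 65 * N ≤ 100 * z) (hd : d ∈ Q)
    (hd1 : 11 * N ≤ 100 * d) (hd2 : 100 * d ≤ 13 * N) (hs : sft s z d ∈ Q) :
    (min z (sft s z d), max z (sft s z d)) ∈ prs N Q ∧ N ≤ 3 * min z (sft s z d) := by
  cases s with
  | true =>
    have h3 := h1 rfl
    have e : sft true z d = z + d := rfl
    rw [e] at hs ⊢
    have e1 : min z (z + d) = z := by omega
    have e2 : max z (z + d) = z + d := by omega
    rw [e1, e2]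
    refine ⟨?_, by omega⟩
    rw [prs, mem_filter, mem_product]
    refine ⟨⟨hz, hs⟩, ?_, ?_, ?_⟩
    · show z < z + d
      omega
    · show z + d - z ∈ Q
      rw [Nat.add_sub_cancel_left]
      exact hd
    · show N < z + (z + d)
      omega
  | false =>
    have h3 := h2 rfl
    have e : sft false z d = z - d := rfl
    rw [e] at hs ⊢
    have e1 : min z (z - d) = z - d := by omega
    have e2 : max z (z - d) = z := by omega
    rw [e1, e2]
    refine ⟨?_, by omega⟩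
    rw [prs, mem_filter, mem_product]
    refine ⟨⟨hs, hz⟩, ?_, ?_, ?_⟩
    · show z - d < z
      omega
    · show z - (z - d) ∈ Q
      have e3 : z - (z - d) = d := by omega
      rw [e3]
      exact hd
    · show N < z - d + z
      omega

private theorem ker3_pair2 {N : ℕ} {Q : Finset ℕ} (hN : 10 ^ 9 ≤ N) (s : Bool) {z d f : ℕ}
    (h1 : s = true → 9 * N ≤ 20 * z) (h2 : s = false → 65 * N ≤ 100 * z) (hne : d ≠ f)
    (hdf : dd d f ∈ Q) (hd1 : 11 * N ≤ 100 * d) (hd2 : 100 * d ≤ 13 * N) (hf1 : 11 * N ≤ 100 * f)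
    (hf2 : 100 * f ≤ 13 * N) (hs : sft s z d ∈ Q) (hs' : sft s z f ∈ Q) :
    (min (sft s z d) (sft s z f), max (sft s z d) (sft s z f)) ∈ prs N Q ∧
      N ≤ 3 * min (sft s z d) (sft s z f) := by
  have hmin : min (sft s z d) (sft s z f) ∈ Q := by
    rcases min_choice (sft s z d) (sft s z f) with h | h
    · rw [h]
      exact hs
    · rw [h]
      exact hs'
  have hmax : max (sft s z d) (sft s z f) ∈ Q := by
    rcases max_choice (sft s z d) (sft s z f) with h | h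
    · rw [h]
      exact hs
    · rw [h]
      exact hs'
  have key : min (sft s z d) (sft s z f) < max (sft s z d) (sft s z f) ∧
      max (sft s z d) (sft s z f) - min (sft s z d) (sft s z f) = dd d f ∧
      N < min (sft s z d) (sft s z f) + max (sft s z d) (sft s z f) ∧
      N ≤ 3 * min (sft s z d) (sft s z f) := by
    cases s with
    | true =>
      have h3 := h1 rfl
      have e : sft true z d = z + d := rfl
      have e' : sft true z f = z + f := rfl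
      rw [e, e']
      unfold dd
      refine ⟨by omega, by omega, by omega, by omega⟩
    | false =>
      have h3 := h2 rfl
      have e : sft false z d = z - d := rfl
      have e' : sft false z f = z - f := rfl
      rw [e, e']
      unfold dd
      refine ⟨by omega, by omega, by omega, by omega⟩
  obtain ⟨k1, k2, k3, k4⟩ := key
  refine ⟨?_, k4⟩
  rw [prs, mem_filter, mem_product]
  exact ⟨⟨hmin, hmax⟩, k1, by rw [k2]; exact hdf, k3⟩

/-- the facts about a good triple -/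
private theorem ker3_facts {N : ℕ} {Q : Finset ℕ} {a : ℕ} (ha : a ∈ Hi N Q) {g : ℕ × ℕ × ℕ}
    (hg : g ∈ gd N Q a) (z : ℕ) (hz : z = a ∨ z = g.1) :
    z ∈ Q ∧ (sgn N a = true → 9 * N ≤ 20 * z) ∧ (sgn N a = false → 65 * N ≤ 100 * z) ∧
      (11 * N ≤ 100 * g.2.1 ∧ 100 * g.2.1 ≤ 13 * N) ∧ (11 * N ≤ 100 * g.2.2 ∧ 100 * g.2.2 ≤ 13 * N) ∧
      g.2.1 ≠ g.2.2 ∧ g.2.1 ∈ Q ∧ g.2.2 ∈ Q ∧ dd g.2.1 g.2.2 ∈ Q ∧
      sft (sgn N a) z g.2.1 ∈ Q ∧ sft (sgn N a) z g.2.2 ∈ Q := by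
  rw [gd, mem_filter, mem_product, mem_product] at hg
  obtain ⟨⟨hx, hd, hf⟩, hne, hdQ, hfQ, hdf, h1, h2, h3, h4⟩ := hg
  rw [Dw, mem_filter] at hd hf
  rw [Rf, mem_filter] at hx
  rw [Hi, mem_filter] at ha
  have hsf : sgn N a = false → 85 * N < 100 * a := by
    intro h
    unfold sgn at h
    exact not_le.mp (of_decide_eq_false h)
  rcases hz with rfl | rfl
  · exact ⟨ha.1, fun _ => ha.2, fun h => by
      have := hsf h
      omega, hd.2, hf.2, hne, hdQ, hfQ, hdf, h1, h2⟩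
  · exact ⟨hx.1, fun _ => by
      have := hx.2.1
      omega, fun _ => hx.2.1, hd.2, hf.2, hne, hdQ, hfQ, hdf, h3, h4⟩

/-- for a good triple the three pairs at `z = a` and at `z = x'` are allowed -/
theorem pair_ok {N : ℕ} {Q : Finset ℕ} (h : KH N Q) {a : ℕ} (ha : a ∈ Hi N Q) {g : ℕ × ℕ × ℕ}
    (hg : g ∈ gd N Q a) (z : ℕ) (hz : z = a ∨ z = g.1) :
    ((min z (sft (sgn N a) z g.2.1), max z (sft (sgn N a) z g.2.1)) ∈ prs N Q ∧
      N ≤ 3 * min z (sft (sgn N a) z g.2.1)) ∧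
    ((min z (sft (sgn N a) z g.2.2), max z (sft (sgn N a) z g.2.2)) ∈ prs N Q ∧
      N ≤ 3 * min z (sft (sgn N a) z g.2.2)) ∧
    ((min (sft (sgn N a) z g.2.1) (sft (sgn N a) z g.2.2),
        max (sft (sgn N a) z g.2.1) (sft (sgn N a) z g.2.2)) ∈ prs N Q ∧
      N ≤ 3 * min (sft (sgn N a) z g.2.1) (sft (sgn N a) z g.2.2)) := by
  obtain ⟨k1, k2, k3, k4, k5, k6, k7, k8, k9, k10, k11⟩ := ker3_facts ha hg z hz
  exact ⟨ker3_pair h.big _ k1 k2 k3 k7 k4.1 k4.2 k10, ker3_pair h.big _ k1 k2 k3 k8 k5.1 k5.2 k11,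
    ker3_pair2 h.big _ k2 k3 k6 k9 k4.1 k4.2 k5.1 k5.2 k10 k11⟩

theorem ld_Wk {N : ℕ} {Q : Finset ℕ} (h : KH N Q) {ω : ℝ} {a : ℕ} (ha : a ∈ Hi N Q)
    {g : ℕ × ℕ × ℕ} (hg : g ∈ gd N Q a) (z : ℕ) (hz : z = a ∨ z = g.1) (b : ℕ) :
    ld N Q ω (Wk (sgn N a) z g.2.1 g.2.2) b =
      ω * dl z b + dl g.2.1 b + dl g.2.2 b - dl (dd g.2.1 g.2.2) b := by
  obtain ⟨p1, p2, p3⟩ := pair_ok h ha hg z hz
  obtain ⟨k1, k2, k3, k4, k5, k6, k7, k8, k9, k10, k11⟩ := ker3_facts ha hg z hz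
  have e1' : dd z (sft (sgn N a) z g.2.1) = g.2.1 := by
    cases hs : sgn N a with
    | true =>
      show dd z (z + g.2.1) = g.2.1
      unfold dd
      omega
    | false =>
      have := k3 hs
      show dd z (z - g.2.1) = g.2.1
      unfold dd
      omega
  have e2' : dd z (sft (sgn N a) z g.2.2) = g.2.2 := by
    cases hs : sgn N a with
    | true =>
      show dd z (z + g.2.2) = g.2.2
      unfold dd
      omega
    | false =>
      have := k3 hs
      show dd z (z - g.2.2) = g.2.2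
      unfold dd
      omega
  have e3' : dd (sft (sgn N a) z g.2.1) (sft (sgn N a) z g.2.2) = dd g.2.1 g.2.2 := by
    cases hs : sgn N a with
    | true =>
      show dd (z + g.2.1) (z + g.2.2) = dd g.2.1 g.2.2
      unfold dd
      omega
    | false =>
      have := k3 hs
      show dd (z - g.2.1) (z - g.2.2) = dd g.2.1 g.2.2
      unfold dd
      omega
  have h0 : ld N Q ω (Wk (sgn N a) z g.2.1 g.2.2) b =
      ld N Q ω (e1 z (sft (sgn N a) z g.2.1)) b + ld N Q ω (e1 z (sft (sgn N a) z g.2.2)) b -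
        ld N Q ω (e1 (sft (sgn N a) z g.2.1) (sft (sgn N a) z g.2.2)) b := by
    rw [← ld_add, ← ld_sub]
    rfl
  rw [h0, ld_e1 p1.1, ld_e1 p2.1, ld_e1 p3.1, e1', e2', e3']
  ring

theorem ld_Jup {N : ℕ} {Q : Finset ℕ} (h : KH N Q) {ω : ℝ} (hω : 0 < ω) {a : ℕ} (ha : a ∈ Hi N Q)
    (b : ℕ) : ld N Q ω (Jup N Q ω a) b = dl a b - nuu N Q a b := by
  have hN : (0 : ℝ) < N := by
    have := h.big
    exact_mod_cast (by omega : 0 < N)
  have hc : (0 : ℝ) < (gd N Q a).card := lt_of_lt_of_le (by positivity) (gd_card h ha)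
  have h0 : ld N Q ω (Jup N Q ω a) b = (1 / (ω * (gd N Q a).card)) *
      ∑ g ∈ gd N Q a, (ld N Q ω (Wk (sgn N a) a g.2.1 g.2.2) b -
        ld N Q ω (Wk (sgn N a) g.1 g.2.1 g.2.2) b) := by
    have h1 : ∀ g : ℕ × ℕ × ℕ, ld N Q ω (Wk (sgn N a) a g.2.1 g.2.2) b -
        ld N Q ω (Wk (sgn N a) g.1 g.2.1 g.2.2) b =
        ld N Q ω (fun p => Wk (sgn N a) a g.2.1 g.2.2 p - Wk (sgn N a) g.1 g.2.1 g.2.2 p) b :=
      fun g => (ld_sub _ _ _ _ _ _).symm
    rw [Finset.sum_congr rfl fun g _ => h1 g, ← ld_sum, ← ld_smul]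
    rfl
  have h2 : ∀ g ∈ gd N Q a, ld N Q ω (Wk (sgn N a) a g.2.1 g.2.2) b -
      ld N Q ω (Wk (sgn N a) g.1 g.2.1 g.2.2) b = ω * (dl a b - dl g.1 b) := by
    intro g hg
    rw [ld_Wk h ha hg a (Or.inl rfl), ld_Wk h ha hg g.1 (Or.inr rfl)]
    ring
  have h3 : ∑ g ∈ gd N Q a, dl g.1 b = (((gd N Q a).filter (fun g => g.1 = b)).card : ℝ) := by
    unfold dl
    rw [Finset.sum_boole]
  rw [h0, Finset.sum_congr rfl h2, ← Finset.mul_sum, Finset.sum_sub_distrib, Finset.sum_const,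
    nsmul_eq_mul, h3]
  unfold nuu
  field_simp

theorem Jup_supp {N : ℕ} {Q : Finset ℕ} (h : KH N Q) {ω : ℝ} {a : ℕ} (ha : a ∈ Hi N Q) {p : ℕ × ℕ}
    (hp : Jup N Q ω a p ≠ 0) : p ∈ prs N Q ∧ N ≤ 3 * p.1 := by
  have h1 : ∃ g ∈ gd N Q a, Wk (sgn N a) a g.2.1 g.2.2 p - Wk (sgn N a) g.1 g.2.1 g.2.2 p ≠ 0 := by
    by_contra hcon
    push Not at hcon
    apply hp
    unfold Jup
    rw [Finset.sum_eq_zero hcon, mul_zero]
  obtain ⟨g, hg, hne⟩ := h1
  have h2 : ∃ z, (z = a ∨ z = g.1) ∧ Wk (sgn N a) z g.2.1 g.2.2 p ≠ 0 := by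
    by_contra hcon
    push Not at hcon
    apply hne
    rw [hcon a (Or.inl rfl), hcon g.1 (Or.inr rfl), sub_zero]
  obtain ⟨z, hz, hzp⟩ := h2
  obtain ⟨p1, p2, p3⟩ := pair_ok h ha hg z hz
  have h3 : ∀ x y : ℕ, e1 x y p ≠ 0 → p = (min x y, max x y) := by
    intro x y hxy
    by_contra hcon
    apply hxy
    unfold e1
    rw [if_neg hcon]
  by_cases c1 : e1 z (sft (sgn N a) z g.2.1) p = 0
  · by_cases c2 : e1 z (sft (sgn N a) z g.2.2) p = 0
    · by_cases c3 : e1 (sft (sgn N a) z g.2.1) (sft (sgn N a) z g.2.2) p = 0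
      · exfalso
        apply hzp
        unfold Wk
        rw [c1, c2, c3]
        ring
      · rw [h3 _ _ c3]
        exact p3
    · rw [h3 _ _ c2]
      exact p2
  · rw [h3 _ _ c1]
    exact p1

end SSB
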