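import Pool.Agent.Lib.MP_8a819d_co.BD.Ker2

/-!
# MP_8a819d_co: the exact kernel, 4. The sum of the upper transfers is bounded

JOB Ker4 (all of this file).

For every pair `p`, `∑ a ∈ Hi, |Jup a p| ≤ 10^8 / N` (for `1/2 ≤ ω`).

Proof. `|Jup a p| ≤ (1 / (ω |gd a|)) * ∑ g ∈ gd a, (number of the six pairs of `(a, g)` equal to `p`)`,
`|gd a| ≥ 10^-6 N^3`, `1/ω ≤ 2`. So the sum is at most `2 * 10^6 N^-3 * (number of (a, g, i) with the
i-th pair equal to p)`. For each of the six kinds of pairs the number of `(a, x', d, f)` (all at most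
`N`, `a` fixing the sign) is at most `2 (N+1)^2`:
* `{a, a ± d} = p`: `a = p.1`, `d = p.2 - p.1` (sign `+`) or `a = p.2`, `d = p.2 - p.1` (sign `-`); `x'`, `f`
  are free. Same with `f`.
* `{a ± d, a ± f} = p`: `a`, `x'` are free, then the sign is known and `d`, `f` are determined up to
  exchange.
* `{x', x' ± d} = p`: `a`, `f` are free, the sign is known, then `x'` and `d` are determined. Same with
  `f`.
* `{x' ± d, x' ± f} = p`: `a`, `x'` free, then `d`, `f` are determined up to exchange.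
Total at most `12 (N+1)^2 ≤ 13 N^2`, so the sum is at most `2.6 * 10^7 / N`. (In sign `-` the shifts are
true subtractions: `d, f ≤ 0.13 N`, and `a > 0.85 N`, `x' ≥ 0.65 N`.)
A convenient way: for fixed `(a, x')` [or `(a, f)`, ...] bound the inner sum of the indicator over the
remaining variables by `2`, or map injectively.
-/

set_option autoImplicit false

namespace SSB

open Finset

private theorem ker4_e1_nonneg (x y : ℕ) (p : ℕ × ℕ) : 0 ≤ e1 x y p := by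
  unfold e1
  split_ifs
  · exact zero_le_one
  · exact le_rfl

private theorem ker4_sum {N : ℕ} {Q : Finset ℕ} (z w : ℕ → ℕ × ℕ × ℕ → ℕ) (p : ℕ × ℕ)
    (φ : ℕ → ℕ × ℕ × ℕ → Bool × ℕ × ℕ)
    (hφ : ∀ a ∈ Hi N Q, ∀ g ∈ gd N Q a, (φ a g).2.1 ≤ N ∧ (φ a g).2.2 ≤ N)
    (hinj : ∀ a ∈ Hi N Q, ∀ g ∈ gd N Q a, ∀ a' ∈ Hi N Q, ∀ g' ∈ gd N Q a',
      p = (min (z a g) (w a g), max (z a g) (w a g)) →
      p = (min (z a' g') (w a' g'), max (z a' g') (w a' g')) → φ a g = φ a' g' → a = a' ∧ g = g') :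
    ∑ a ∈ Hi N Q, ∑ g ∈ gd N Q a, e1 (z a g) (w a g) p ≤ 2 * ((N : ℝ) + 1) ^ 2 := by
  classical
  have h1 : ∑ a ∈ Hi N Q, ∑ g ∈ gd N Q a, e1 (z a g) (w a g) p =
      ((((Hi N Q).sigma fun a => gd N Q a).filter fun x =>
        p = (min (z x.1 x.2) (w x.1 x.2), max (z x.1 x.2) (w x.1 x.2))).card : ℝ) := by
    rw [Finset.sum_sigma']
    unfold e1
    rw [Finset.sum_boole]
  have h2 : (((Hi N Q).sigma fun a => gd N Q a).filter fun x =>
        p = (min (z x.1 x.2) (w x.1 x.2), max (z x.1 x.2) (w x.1 x.2))).card ≤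
      ((univ : Finset Bool) ×ˢ range (N + 1) ×ˢ range (N + 1)).card := by
    refine Finset.card_le_card_of_injOn (fun x => φ x.1 x.2) ?_ ?_
    · rintro ⟨a, g⟩ hx
      rw [Finset.mem_coe, mem_filter, mem_sigma] at hx
      have h3 := hφ a hx.1.1 g hx.1.2
      rw [Finset.mem_coe, mem_product, mem_product, mem_range, mem_range]
      exact ⟨mem_univ _, Nat.lt_succ_of_le h3.1, Nat.lt_succ_of_le h3.2⟩
    · rintro ⟨a, g⟩ hx ⟨a', g'⟩ hx' hxx
      rw [Finset.mem_coe, mem_filter, mem_sigma] at hx hx'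
      obtain ⟨h4, h5⟩ := hinj a hx.1.1 g hx.1.2 a' hx'.1.1 g' hx'.1.2 hx.2 hx'.2 hxx
      subst h4
      subst h5
      rfl
  rw [h1]
  have h3 : ((univ : Finset Bool) ×ˢ range (N + 1) ×ˢ range (N + 1)).card = 2 * (N + 1) ^ 2 := by
    rw [card_product, card_product, card_range, card_univ, Fintype.card_bool]
    ring
  rw [h3] at h2
  exact_mod_cast h2

private theorem ker4_facts {N : ℕ} {Q : Finset ℕ} (h : KH N Q) {a : ℕ} (ha : a ∈ Hi N Q)
    {g : ℕ × ℕ × ℕ} (hg : g ∈ gd N Q a) :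
    a ≤ N ∧ g.1 ≤ N ∧ g.2.1 ≤ N ∧ g.2.2 ≤ N ∧ (11 * N ≤ 100 * g.2.1 ∧ 100 * g.2.1 ≤ 13 * N) ∧
      (11 * N ≤ 100 * g.2.2 ∧ 100 * g.2.2 ≤ 13 * N) ∧ 65 * N ≤ 100 * g.1 ∧ 9 * N ≤ 20 * a ∧
      (sgn N a = false → 85 * N < 100 * a) ∧ g.2.1 ≠ g.2.2 := by
  rw [gd, mem_filter, mem_product, mem_product] at hg
  obtain ⟨⟨hx, hd, hf⟩, hne, -⟩ := hg
  rw [Dw, mem_filter] at hd hf
  rw [Rf, mem_filter] at hx
  rw [Hi, mem_filter] at ha
  have h1 := (mem_Icc.mp (h.sub ha.1)).2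
  have h2 := (mem_Icc.mp (h.sub hx.1)).2
  refine ⟨h1, h2, ?_, ?_, hd.2, hf.2, hx.2.1, ha.2, ?_, hne⟩
  · exact Nat.lt_succ_iff.mp (mem_range.mp hd.1)
  · exact Nat.lt_succ_iff.mp (mem_range.mp hf.1)
  · intro h3
    unfold sgn at h3
    exact not_le.mp (of_decide_eq_false h3)

/-- one pair `{z, z ± d}` determines `z` and `d` -/
private theorem ker4_one {N : ℕ} (s : Bool) {z d z' d' : ℕ} {p : ℕ × ℕ}
    (hd : 11 * N ≤ 100 * d ∧ 100 * d ≤ 13 * N) (hd' : 11 * N ≤ 100 * d' ∧ 100 * d' ≤ 13 * N)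
    (hz : s = false → 65 * N ≤ 100 * z) (hz' : s = false → 65 * N ≤ 100 * z')
    (h : p = (min z (sft s z d), max z (sft s z d)))
    (h' : p = (min z' (sft s z' d'), max z' (sft s z' d'))) : z = z' ∧ d = d' := by
  have e1 := congrArg Prod.fst (h.symm.trans h')
  have e2 := congrArg Prod.snd (h.symm.trans h')
  cases s with
  | true =>
    change min z (z + d) = min z' (z' + d') at e1
    change max z (z + d) = max z' (z' + d') at e2
    omega
  | false =>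
    have h1 := hz rfl
    have h2 := hz' rfl
    change min z (z - d) = min z' (z' - d') at e1
    change max z (z - d) = max z' (z' - d') at e2
    omega

/-- the pair `{z ± d, z ± f}` determines `d` and `f` up to exchange -/
private theorem ker4_two {N : ℕ} (s : Bool) {z d f d' f' : ℕ} {p : ℕ × ℕ}
    (hd : 11 * N ≤ 100 * d ∧ 100 * d ≤ 13 * N) (hd' : 11 * N ≤ 100 * d' ∧ 100 * d' ≤ 13 * N)
    (hf : 11 * N ≤ 100 * f ∧ 100 * f ≤ 13 * N) (hf' : 11 * N ≤ 100 * f' ∧ 100 * f' ≤ 13 * N)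
    (hz : s = false → 65 * N ≤ 100 * z) (hdf : decide (d < f) = decide (d' < f'))
    (h : p = (min (sft s z d) (sft s z f), max (sft s z d) (sft s z f)))
    (h' : p = (min (sft s z d') (sft s z f'), max (sft s z d') (sft s z f'))) : d = d' ∧ f = f' := by
  have e1 := congrArg Prod.fst (h.symm.trans h')
  have e2 := congrArg Prod.snd (h.symm.trans h')
  have e3 : d < f ↔ d' < f' := decide_eq_decide.mp hdf
  cases s with
  | true =>
    change min (z + d) (z + f) = min (z + d') (z + f') at e1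
    change max (z + d) (z + f) = max (z + d') (z + f') at e2
    omega
  | false =>
    have h1 := hz rfl
    change min (z - d) (z - f) = min (z - d') (z - f') at e1
    change max (z - d) (z - f) = max (z - d') (z - f') at e2
    omega

private theorem ker4_sum1 {N : ℕ} {Q : Finset ℕ} (h : KH N Q) (p : ℕ × ℕ) :
    ∑ a ∈ Hi N Q, ∑ g ∈ gd N Q a, e1 a (sft (sgn N a) a g.2.1) p ≤ 2 * ((N : ℝ) + 1) ^ 2 := by
  refine ker4_sum (fun a _ => a) (fun a g => sft (sgn N a) a g.2.1) p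
    (fun a g => (sgn N a, g.1, g.2.2)) ?_ ?_
  · intro a ha g hg
    obtain ⟨-, k2, -, k4, -⟩ := ker4_facts h ha hg
    exact ⟨k2, k4⟩
  · intro a ha g hg a' ha' g' hg' e e' he
    obtain ⟨-, -, -, -, k5, -, k7, k8, k9, -⟩ := ker4_facts h ha hg
    obtain ⟨-, -, -, -, k5', -, k7', k8', k9', -⟩ := ker4_facts h ha' hg'
    obtain ⟨x, d, f⟩ := g
    obtain ⟨x', d', f'⟩ := g'
    have h1 : sgn N a = sgn N a' := congrArg Prod.fst he
    have h2 : x = x' := congrArg (fun q : Bool × ℕ × ℕ => q.2.1) he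
    have h3 : f = f' := congrArg (fun q : Bool × ℕ × ℕ => q.2.2) he
    beta_reduce at e e'
    rw [← h1] at e' k9'
    obtain ⟨h4, h5⟩ := ker4_one (sgn N a) k5 k5' (fun hs => by have := k9 hs; omega)
      (fun hs => by have := k9' hs; omega) e e'
    have h5' : d = d' := h5
    subst h2
    subst h3
    subst h5'
    exact ⟨h4, rfl⟩

private theorem ker4_sum2 {N : ℕ} {Q : Finset ℕ} (h : KH N Q) (p : ℕ × ℕ) :
    ∑ a ∈ Hi N Q, ∑ g ∈ gd N Q a, e1 a (sft (sgn N a) a g.2.2) p ≤ 2 * ((N : ℝ) + 1) ^ 2 := by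
  refine ker4_sum (fun a _ => a) (fun a g => sft (sgn N a) a g.2.2) p
    (fun a g => (sgn N a, g.1, g.2.1)) ?_ ?_
  · intro a ha g hg
    obtain ⟨-, k2, k3, -, -⟩ := ker4_facts h ha hg
    exact ⟨k2, k3⟩
  · intro a ha g hg a' ha' g' hg' e e' he
    obtain ⟨-, -, -, -, -, k5, k7, k8, k9, -⟩ := ker4_facts h ha hg
    obtain ⟨-, -, -, -, -, k5', k7', k8', k9', -⟩ := ker4_facts h ha' hg'
    obtain ⟨x, d, f⟩ := g
    obtain ⟨x', d', f'⟩ := g'
    have h1 : sgn N a = sgn N a' := congrArg Prod.fst he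
    have h2 : x = x' := congrArg (fun q : Bool × ℕ × ℕ => q.2.1) he
    have h3 : d = d' := congrArg (fun q : Bool × ℕ × ℕ => q.2.2) he
    beta_reduce at e e'
    rw [← h1] at e' k9'
    obtain ⟨h4, h5⟩ := ker4_one (sgn N a) k5 k5' (fun hs => by have := k9 hs; omega)
      (fun hs => by have := k9' hs; omega) e e'
    have h5' : f = f' := h5
    subst h2
    subst h3
    subst h5'
    exact ⟨h4, rfl⟩

private theorem ker4_sum3 {N : ℕ} {Q : Finset ℕ} (h : KH N Q) (p : ℕ × ℕ) :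
    ∑ a ∈ Hi N Q, ∑ g ∈ gd N Q a, e1 (sft (sgn N a) a g.2.1) (sft (sgn N a) a g.2.2) p ≤
      2 * ((N : ℝ) + 1) ^ 2 := by
  refine ker4_sum (fun a g => sft (sgn N a) a g.2.1) (fun a g => sft (sgn N a) a g.2.2) p
    (fun a g => (decide (g.2.1 < g.2.2), a, g.1)) ?_ ?_
  · intro a ha g hg
    obtain ⟨k1, k2, -⟩ := ker4_facts h ha hg
    exact ⟨k1, k2⟩
  · intro a ha g hg a' ha' g' hg' e e' he
    obtain ⟨-, -, -, -, k5, k6, k7, k8, k9, -⟩ := ker4_facts h ha hg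
    obtain ⟨-, -, -, -, k5', k6', -⟩ := ker4_facts h ha' hg'
    obtain ⟨x, d, f⟩ := g
    obtain ⟨x', d', f'⟩ := g'
    have h1 : decide (d < f) = decide (d' < f') := congrArg Prod.fst he
    have h2 : a = a' := congrArg (fun q : Bool × ℕ × ℕ => q.2.1) he
    have h3 : x = x' := congrArg (fun q : Bool × ℕ × ℕ => q.2.2) he
    subst h2
    subst h3
    obtain ⟨h4, h5⟩ := ker4_two (sgn N a) k5 k5' k6 k6' (fun hs => by have := k9 hs; omega) h1 e e'
    have h4' : d = d' := h4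
    have h5' : f = f' := h5
    subst h4'
    subst h5'
    exact ⟨rfl, rfl⟩

private theorem ker4_sum4 {N : ℕ} {Q : Finset ℕ} (h : KH N Q) (p : ℕ × ℕ) :
    ∑ a ∈ Hi N Q, ∑ g ∈ gd N Q a, e1 g.1 (sft (sgn N a) g.1 g.2.1) p ≤ 2 * ((N : ℝ) + 1) ^ 2 := by
  refine ker4_sum (fun _ g => g.1) (fun a g => sft (sgn N a) g.1 g.2.1) p
    (fun a g => (true, a, g.2.2)) ?_ ?_
  · intro a ha g hg
    obtain ⟨k1, k2, -, k4, -⟩ := ker4_facts h ha hg
    exact ⟨k1, k4⟩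
  · intro a ha g hg a' ha' g' hg' e e' he
    obtain ⟨-, -, -, -, k5, -, k7, k8, k9, -⟩ := ker4_facts h ha hg
    obtain ⟨-, -, -, -, k5', -, k7', k8', k9', -⟩ := ker4_facts h ha' hg'
    obtain ⟨x, d, f⟩ := g
    obtain ⟨x', d', f'⟩ := g'
    have h2 : a = a' := congrArg (fun q : Bool × ℕ × ℕ => q.2.1) he
    have h3 : f = f' := congrArg (fun q : Bool × ℕ × ℕ => q.2.2) he
    subst h2
    obtain ⟨h4, h5⟩ := ker4_one (sgn N a) k5 k5' (fun _ => k7) (fun _ => k7') e e'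
    have h4' : x = x' := h4
    have h5' : d = d' := h5
    subst h3
    subst h4'
    subst h5'
    exact ⟨rfl, rfl⟩

private theorem ker4_sum5 {N : ℕ} {Q : Finset ℕ} (h : KH N Q) (p : ℕ × ℕ) :
    ∑ a ∈ Hi N Q, ∑ g ∈ gd N Q a, e1 g.1 (sft (sgn N a) g.1 g.2.2) p ≤ 2 * ((N : ℝ) + 1) ^ 2 := by
  refine ker4_sum (fun _ g => g.1) (fun a g => sft (sgn N a) g.1 g.2.2) p
    (fun a g => (true, a, g.2.1)) ?_ ?_
  · intro a ha g hg
    obtain ⟨k1, k2, k3, -⟩ := ker4_facts h ha hg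
    exact ⟨k1, k3⟩
  · intro a ha g hg a' ha' g' hg' e e' he
    obtain ⟨-, -, -, -, -, k5, k7, k8, k9, -⟩ := ker4_facts h ha hg
    obtain ⟨-, -, -, -, -, k5', k7', k8', k9', -⟩ := ker4_facts h ha' hg'
    obtain ⟨x, d, f⟩ := g
    obtain ⟨x', d', f'⟩ := g'
    have h2 : a = a' := congrArg (fun q : Bool × ℕ × ℕ => q.2.1) he
    have h3 : d = d' := congrArg (fun q : Bool × ℕ × ℕ => q.2.2) he
    subst h2
    obtain ⟨h4, h5⟩ := ker4_one (sgn N a) k5 k5' (fun _ => k7) (fun _ => k7') e e'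
    have h4' : x = x' := h4
    have h5' : f = f' := h5
    subst h3
    subst h4'
    subst h5'
    exact ⟨rfl, rfl⟩

private theorem ker4_sum6 {N : ℕ} {Q : Finset ℕ} (h : KH N Q) (p : ℕ × ℕ) :
    ∑ a ∈ Hi N Q, ∑ g ∈ gd N Q a, e1 (sft (sgn N a) g.1 g.2.1) (sft (sgn N a) g.1 g.2.2) p ≤
      2 * ((N : ℝ) + 1) ^ 2 := by
  refine ker4_sum (fun a g => sft (sgn N a) g.1 g.2.1) (fun a g => sft (sgn N a) g.1 g.2.2) p
    (fun a g => (decide (g.2.1 < g.2.2), a, g.1)) ?_ ?_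
  · intro a ha g hg
    obtain ⟨k1, k2, -⟩ := ker4_facts h ha hg
    exact ⟨k1, k2⟩
  · intro a ha g hg a' ha' g' hg' e e' he
    obtain ⟨-, -, -, -, k5, k6, k7, k8, k9, -⟩ := ker4_facts h ha hg
    obtain ⟨-, -, -, -, k5', k6', -⟩ := ker4_facts h ha' hg'
    obtain ⟨x, d, f⟩ := g
    obtain ⟨x', d', f'⟩ := g'
    have h1 : decide (d < f) = decide (d' < f') := congrArg Prod.fst he
    have h2 : a = a' := congrArg (fun q : Bool × ℕ × ℕ => q.2.1) he
    have h3 : x = x' := congrArg (fun q : Bool × ℕ × ℕ => q.2.2) he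
    subst h2
    subst h3
    obtain ⟨h4, h5⟩ := ker4_two (sgn N a) k5 k5' k6 k6' (fun _ => k7) h1 e e'
    have h4' : d = d' := h4
    have h5' : f = f' := h5
    subst h4'
    subst h5'
    exact ⟨rfl, rfl⟩

theorem Jup_sum {N : ℕ} {Q : Finset ℕ} (h : KH N Q) {ω : ℝ} (hω : 1 / 2 ≤ ω) (p : ℕ × ℕ) :
    ∑ a ∈ Hi N Q, |Jup N Q ω a p| ≤ 10 ^ 8 / N := by
  have hN : (0 : ℝ) < N := by
    have := h.big
    exact_mod_cast (by omega : 0 < N)
  have hN1 : (1 : ℝ) ≤ N := by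
    have := h.big
    exact_mod_cast (by omega : 1 ≤ N)
  have hω0 : 0 < ω := lt_of_lt_of_le (by norm_num) hω
  have hJ : ∀ a ∈ Hi N Q, |Jup N Q ω a p| ≤ 2 * 10 ^ 6 / (N : ℝ) ^ 3 *
      ∑ g ∈ gd N Q a, (e1 a (sft (sgn N a) a g.2.1) p + e1 a (sft (sgn N a) a g.2.2) p +
        e1 (sft (sgn N a) a g.2.1) (sft (sgn N a) a g.2.2) p +
        e1 g.1 (sft (sgn N a) g.1 g.2.1) p + e1 g.1 (sft (sgn N a) g.1 g.2.2) p +
        e1 (sft (sgn N a) g.1 g.2.1) (sft (sgn N a) g.1 g.2.2) p) := by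
    intro a ha
    have hg := gd_card h ha
    have hc : (0 : ℝ) < (gd N Q a).card := lt_of_lt_of_le (by positivity) hg
    unfold Jup
    rw [abs_mul, abs_of_pos (by positivity : 0 < 1 / (ω * ((gd N Q a).card : ℝ)))]
    have h1 : 1 / (ω * ((gd N Q a).card : ℝ)) ≤ 2 * 10 ^ 6 / (N : ℝ) ^ 3 := by
      rw [div_le_div_iff₀ (by positivity) (by positivity)]
      have h2 : 1 / 2 * (1 / 10 ^ 6 * (N : ℝ) ^ 3) ≤ ω * (gd N Q a).card :=
        mul_le_mul hω hg (by positivity) hω0.le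
      linarith
    refine mul_le_mul h1 ?_ (abs_nonneg _) (by positivity)
    refine (Finset.abs_sum_le_sum_abs _ _).trans (Finset.sum_le_sum fun g _ => ?_)
    unfold Wk
    have n1 := ker4_e1_nonneg a (sft (sgn N a) a g.2.1) p
    have n2 := ker4_e1_nonneg a (sft (sgn N a) a g.2.2) p
    have n3 := ker4_e1_nonneg (sft (sgn N a) a g.2.1) (sft (sgn N a) a g.2.2) p
    have n4 := ker4_e1_nonneg g.1 (sft (sgn N a) g.1 g.2.1) p
    have n5 := ker4_e1_nonneg g.1 (sft (sgn N a) g.1 g.2.2) p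
    have n6 := ker4_e1_nonneg (sft (sgn N a) g.1 g.2.1) (sft (sgn N a) g.1 g.2.2) p
    rw [abs_le]
    constructor <;> linarith
  refine (Finset.sum_le_sum hJ).trans ?_
  rw [← Finset.mul_sum]
  have hS : ∑ a ∈ Hi N Q, ∑ g ∈ gd N Q a, (e1 a (sft (sgn N a) a g.2.1) p +
        e1 a (sft (sgn N a) a g.2.2) p +
        e1 (sft (sgn N a) a g.2.1) (sft (sgn N a) a g.2.2) p +
        e1 g.1 (sft (sgn N a) g.1 g.2.1) p + e1 g.1 (sft (sgn N a) g.1 g.2.2) p +
        e1 (sft (sgn N a) g.1 g.2.1) (sft (sgn N a) g.1 g.2.2) p) ≤ 12 * ((N : ℝ) + 1) ^ 2 := by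
    have t1 := ker4_sum1 h p
    have t2 := ker4_sum2 h p
    have t3 := ker4_sum3 h p
    have t4 := ker4_sum4 h p
    have t5 := ker4_sum5 h p
    have t6 := ker4_sum6 h p
    simp only [Finset.sum_add_distrib]
    linarith
  refine (mul_le_mul_of_nonneg_left hS (by positivity)).trans ?_
  rw [div_mul_eq_mul_div, div_le_div_iff₀ (by positivity) hN]
  have h3 : ((N : ℝ) + 1) ^ 2 ≤ 4 * (N : ℝ) ^ 2 := by nlinarith
  have h4 : ((N : ℝ) + 1) ^ 2 * N ≤ 4 * (N : ℝ) ^ 2 * N := mul_le_mul_of_nonneg_right h3 hN.le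
  have h5 : (0 : ℝ) ≤ (N : ℝ) ^ 3 := by positivity
  nlinarith [h4, h5]

end SSB
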