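import Pool.Agent.Lib.MP_8a819d_co.BD.Ker3
import Pool.Agent.Lib.MP_8a819d_co.BD.Ker4

/-!
# MP_8a819d_co: the exact kernel, 5. Lower transfers and the reference kernel

JOB Ker5a: `Xw_card`, `ld_Jlow`, `Jlow_supp`, `Jlow_sum`, `nlow_est`, `nlow_supp`.
JOB Ker5b: `BH_card`, `ld_Jref`, `Jref_supp`, `Jref_le`, `nref_est`, `nref_supp`.

5a. Let `a ∈ Lo`. `Xw a`: `x ∈ [N/2, 0.55 N]` with `x, x + a ∈ Q` (`x + a ≤ N` automatically); at least
`0.05 N - 1 - 2 s N ≥ 0.049 N` elements. For `x ∈ Xw a`: `x`, `x + a ∈ Hi`; the pair `(x, x + a)` is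
allowed: difference `a ∈ Q`, `2 x + a > N`. Load of `e1 x (x+a) - (ω/2)(Jup x + Jup (x+a))`:
`(ω/2)(δ_x + δ_{x+a}) + δ_a - (ω/2)(δ_x - nuu x + δ_{x+a} - nuu (x+a)) = δ_a + (ω/2)(nuu x + nuu (x+a))`.
`nlow_est`: average of quantities within `(1/500)/|Rf|` of `1/|Rf|`.
`Jlow_sum`: `∑ a ∈ Lo, |Jlow a p| ≤ ∑ a (1/(0.049 N)) ∑ x ∈ Xw a, (e1 x (x+a) p + (ω/2)(|Jup x p| +
|Jup (x+a) p|))`. First part: `p` determines `x` and `a`: at most `1/(0.049 N)`. Second: for every `x` the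
number of `a` is at most `N`: at most `(1/(0.049 N)) (ω/2) N * 2 * ∑ z ∈ Hi, |Jup z p|
≤ (1/0.049) * 2 * 10^8 / N` (`ω ≤ 2`). Total `≤ 10^10 / N`.
5b. `BH`: `b, h ∈ Q ∩ [0.45 N, 0.5 N]`, `b + h ∈ Q`: at least `(0.05 N - 1 - s N)(0.05 N - 1 - 2 s N)
≥ 10^-3 N^2` elements. `b`, `h`, `b + h ∈ Hi`; the pair `(b, b+h)` is allowed (`2 b + h ≥ 1.35 N`).
Load: `(ω/2)(δ_b + δ_{b+h}) + δ_h - (ω/2)(δ_b - nuu b + δ_{b+h} - nuu (b+h)) - (δ_h - nuu h)`.
`nref_est`: `((ω/2)(nuu + nuu) + nuu) / (1+ω)` is a weighted average.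
`Jref_le`: `|Jref p| ≤ (10^3 / N^2) * ∑ g (e1 .. p + (ω/2)(|Jup b p| + |Jup (b+h) p|) + |Jup h p|)`; the first
sum is at most `1`; `∑ (b,h) |Jup b p| ≤ N * 10^8/N`, etc.: total `≤ 10^3/N^2 * (1 + 4 * 10^8) ≤ 10^12 / N^2`.
-/

set_option autoImplicit false

namespace SSB

open Finset

private theorem ker5a_count {N : ℕ} {Q : Finset ℕ} (h : KH N Q) :
    ((Icc 1 N \ Q).card : ℝ) ≤ (1 / 10 ^ 6) * N := by
  have h1 : (Icc 1 N \ Q).card = N - Q.card := by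
    rw [card_sdiff_of_subset h.sub, Nat.card_Icc, Nat.add_sub_cancel]
  have h2 : Q.card ≤ N := by
    have := card_le_card h.sub
    rwa [Nat.card_Icc, Nat.add_sub_cancel] at this
  rw [h1, Nat.cast_sub h2]
  exact h.card

private theorem ker5a_mem {N : ℕ} {Q : Finset ℕ} (h : KH N Q) {a x : ℕ} (ha : a ∈ Lo N Q)
    (hx : x ∈ Xw N Q a) : x ∈ Hi N Q ∧ x + a ∈ Hi N Q ∧ 1 ≤ a ∧
      (min x (x + a), max x (x + a)) = (x, x + a) ∧ (x, x + a) ∈ prs N Q ∧ N ≤ 3 * x := by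
  obtain ⟨haQ, ha2⟩ := mem_filter.1 ha
  obtain ⟨hxQ, hx1, hx2, hx3⟩ := mem_filter.1 hx
  have ha1 := (mem_Icc.1 (h.sub haQ)).1
  refine ⟨mem_filter.2 ⟨hxQ, by omega⟩, mem_filter.2 ⟨hx3, by omega⟩, ha1, ?_, ?_, by omega⟩
  · rw [min_eq_left (Nat.le_add_right x a), max_eq_right (Nat.le_add_right x a)]
  · unfold prs
    rw [mem_filter, mem_product]
    refine ⟨⟨hxQ, hx3⟩, by show x < x + a; omega, ?_, by show N < x + (x + a); omega⟩
    show x + a - x ∈ Q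
    rw [Nat.add_sub_cancel_left]
    exact haQ

private theorem ker5a_e1 (x a : ℕ) (p : ℕ × ℕ) :
    e1 x (x + a) p = if p = (x, x + a) then 1 else 0 := by
  unfold e1
  rw [min_eq_left (Nat.le_add_right x a), max_eq_right (Nat.le_add_right x a)]

theorem Xw_card {N : ℕ} {Q : Finset ℕ} (h : KH N Q) {a : ℕ} (ha : a ∈ Lo N Q) :
    (49 / 1000) * (N : ℝ) ≤ (Xw N Q a).card := by
  have hN := h.big
  obtain ⟨haQ, ha2⟩ := mem_filter.1 ha
  have h1 : (Icc ((N + 1) / 2) (11 * N / 20)).card ≤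
      (Xw N Q a).card + ((Icc 1 N \ Q).card + (Icc 1 N \ Q).card) := by
    have hsub : Icc ((N + 1) / 2) (11 * N / 20) ⊆ Xw N Q a ∪ ((Icc 1 N \ Q) ∪
        (Icc ((N + 1) / 2) (11 * N / 20)).filter (fun x => x + a ∈ Icc 1 N \ Q)) := by
      intro x hx
      rw [mem_union, mem_union, mem_filter]
      have hx' := mem_Icc.1 hx
      by_cases h3 : x ∈ Q
      · by_cases h4 : x + a ∈ Q
        · left
          rw [Xw, mem_filter]
          exact ⟨h3, by omega, by omega, h4⟩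
        · right; right
          exact ⟨hx, mem_sdiff.2 ⟨mem_Icc.2 ⟨by omega, by omega⟩, h4⟩⟩
      · right; left
        exact mem_sdiff.2 ⟨mem_Icc.2 ⟨by omega, by omega⟩, h3⟩
    refine (card_le_card hsub).trans ((card_union_le _ _).trans
      (Nat.add_le_add_left ((card_union_le _ _).trans (Nat.add_le_add_left ?_ _)) _))
    refine card_le_card_of_injOn (fun x => x + a) (fun x hx => ?_) (fun x _ y _ hxy => ?_)
    · exact (mem_filter.1 hx).2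
    · exact Nat.add_right_cancel hxy
  rw [Nat.card_Icc] at h1
  have h2 : N ≤ 20 * ((Xw N Q a).card + ((Icc 1 N \ Q).card + (Icc 1 N \ Q).card)) + 9 := by
    omega
  have h3 : (N : ℝ) ≤ 20 * ((Xw N Q a).card + ((Icc 1 N \ Q).card + (Icc 1 N \ Q).card)) + 9 := by
    exact_mod_cast h2
  have h4 := ker5a_count h
  have h5 : (10 ^ 9 : ℝ) ≤ N := by exact_mod_cast hN
  linarith

theorem ld_Jlow {N : ℕ} {Q : Finset ℕ} (h : KH N Q) {ω : ℝ} (hω : 0 < ω) {a : ℕ} (ha : a ∈ Lo N Q)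
    (b : ℕ) : ld N Q ω (Jlow N Q ω a) b = dl a b + ω * nlow N Q a b := by
  have hc := Xw_card h ha
  have hN : (10 ^ 9 : ℝ) ≤ N := by exact_mod_cast h.big
  have hc0 : ((Xw N Q a).card : ℝ) ≠ 0 := by
    have : (0 : ℝ) < (Xw N Q a).card := by linarith
    exact this.ne'
  have h1 : ld N Q ω (Jlow N Q ω a) b = (1 / ((Xw N Q a).card : ℝ)) * ∑ x ∈ Xw N Q a,
      (ld N Q ω (e1 x (x + a)) b -
        (ω / 2) * (ld N Q ω (Jup N Q ω x) b + ld N Q ω (Jup N Q ω (x + a)) b)) := by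
    unfold Jlow
    rw [ld_smul N Q ω (1 / ((Xw N Q a).card : ℝ)), ld_sum]
    congr 1
    refine sum_congr rfl fun x _ => ?_
    rw [ld_sub N Q ω (e1 x (x + a)), ld_smul N Q ω (ω / 2), ld_add]
  rw [h1]
  have h2 : ∀ x ∈ Xw N Q a, ld N Q ω (e1 x (x + a)) b -
        (ω / 2) * (ld N Q ω (Jup N Q ω x) b + ld N Q ω (Jup N Q ω (x + a)) b) =
      dl a b + ω * ((1 / 2) * (nuu N Q x b + nuu N Q (x + a) b)) := by
    intro x hx
    obtain ⟨hx1, hx2, ha1, hx3, hx4, _⟩ := ker5a_mem h ha hx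
    rw [ld_e1 (by rw [hx3]; exact hx4), ld_Jup h hω hx1, ld_Jup h hω hx2]
    have h3 : dd x (x + a) = a := by unfold dd; omega
    rw [h3]
    ring
  rw [sum_congr rfl h2, sum_add_distrib, sum_const, nsmul_eq_mul, ← mul_sum]
  unfold nlow
  rw [mul_add, ← mul_assoc, one_div, inv_mul_cancel₀ hc0, one_mul]
  ring

theorem Jlow_supp {N : ℕ} {Q : Finset ℕ} (h : KH N Q) {ω : ℝ} {a : ℕ} (ha : a ∈ Lo N Q) {p : ℕ × ℕ}
    (hp : Jlow N Q ω a p ≠ 0) : p ∈ prs N Q ∧ N ≤ 3 * p.1 := by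
  by_contra hcon
  apply hp
  unfold Jlow
  have h1 : ∀ x ∈ Xw N Q a,
      e1 x (x + a) p - (ω / 2) * (Jup N Q ω x p + Jup N Q ω (x + a) p) = 0 := by
    intro x hx
    obtain ⟨hx1, hx2, ha1, hx3, hx4, hx5⟩ := ker5a_mem h ha hx
    have h2 : e1 x (x + a) p = 0 := by
      rw [ker5a_e1, if_neg]
      rintro rfl
      exact hcon ⟨hx4, hx5⟩
    have h3 : Jup N Q ω x p = 0 := by
      by_contra h4
      exact hcon (Jup_supp h hx1 h4)
    have h4 : Jup N Q ω (x + a) p = 0 := by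
      by_contra h5
      exact hcon (Jup_supp h hx2 h5)
    rw [h2, h3, h4]
    ring
  rw [sum_eq_zero h1, mul_zero]

theorem Jlow_sum {N : ℕ} {Q : Finset ℕ} (h : KH N Q) {ω : ℝ} (hω : 1 / 2 ≤ ω) (hω2 : ω ≤ 2)
    (p : ℕ × ℕ) : ∑ a ∈ Lo N Q, |Jlow N Q ω a p| ≤ 10 ^ 10 / N := by
  have hN : (10 ^ 9 : ℝ) ≤ N := by exact_mod_cast h.big
  have hN0 : (0 : ℝ) < N := by linarith
  have hS := Jup_sum h hω p
  have hterm : ∀ a ∈ Lo N Q, |Jlow N Q ω a p| ≤ (1000 / (49 * N)) *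
      ((∑ x ∈ Xw N Q a, e1 x (x + a) p) + 2 * (10 ^ 8 / N)) := by
    intro a ha
    have hc := Xw_card h ha
    have hcpos : (0 : ℝ) < (Xw N Q a).card := by linarith
    have h1 : |Jlow N Q ω a p| ≤ (1 / ((Xw N Q a).card : ℝ)) * ∑ x ∈ Xw N Q a,
        (e1 x (x + a) p + (|Jup N Q ω x p| + |Jup N Q ω (x + a) p|)) := by
      unfold Jlow
      rw [abs_mul, abs_of_nonneg (a := 1 / ((Xw N Q a).card : ℝ)) (by positivity)]
      refine mul_le_mul_of_nonneg_left ((abs_sum_le_sum_abs _ _).trans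
        (sum_le_sum fun x _ => ?_)) (by positivity)
      refine (abs_sub _ _).trans (add_le_add ?_ ?_)
      · rw [ker5a_e1]
        split_ifs
        · rw [abs_one]
        · rw [abs_zero]
      · rw [abs_mul, abs_of_nonneg (a := ω / 2) (by linarith)]
        have h2 : |Jup N Q ω x p + Jup N Q ω (x + a) p| ≤
            |Jup N Q ω x p| + |Jup N Q ω (x + a) p| := abs_add_le _ _
        have h3 : 0 ≤ |Jup N Q ω x p + Jup N Q ω (x + a) p| := abs_nonneg _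
        have h4 : ω / 2 * |Jup N Q ω x p + Jup N Q ω (x + a) p| ≤
            1 * |Jup N Q ω x p + Jup N Q ω (x + a) p| :=
          mul_le_mul_of_nonneg_right (by linarith) h3
        linarith
    have h2 : ∑ x ∈ Xw N Q a, |Jup N Q ω x p| ≤ 10 ^ 8 / N := by
      refine le_trans (sum_le_sum_of_subset_of_nonneg (fun x hx => ?_)
        (fun x _ _ => abs_nonneg _)) hS
      exact (ker5a_mem h ha hx).1
    have h3 : ∑ x ∈ Xw N Q a, |Jup N Q ω (x + a) p| ≤ 10 ^ 8 / N := by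
      have h4 : ∑ x ∈ Xw N Q a, |Jup N Q ω (x + a) p| =
          ∑ z ∈ (Xw N Q a).image (fun x => x + a), |Jup N Q ω z p| := by
        rw [sum_image fun x _ y _ hxy => Nat.add_right_cancel hxy]
      rw [h4]
      refine le_trans (sum_le_sum_of_subset_of_nonneg (fun z hz => ?_)
        (fun x _ _ => abs_nonneg _)) hS
      obtain ⟨x, hx, rfl⟩ := mem_image.1 hz
      exact (ker5a_mem h ha hx).2.1
    have h4 : 0 ≤ ∑ x ∈ Xw N Q a, e1 x (x + a) p := by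
      refine sum_nonneg fun x _ => ?_
      rw [ker5a_e1]
      split_ifs
      · exact zero_le_one
      · exact le_rfl
    have h5 : 1 / ((Xw N Q a).card : ℝ) ≤ 1000 / (49 * N) := by
      rw [div_le_div_iff₀ hcpos (by positivity)]
      linarith
    rw [sum_add_distrib, sum_add_distrib] at h1
    refine h1.trans (mul_le_mul h5 (by linarith) ?_ (by positivity))
    have h6 : 0 ≤ ∑ x ∈ Xw N Q a, |Jup N Q ω x p| := sum_nonneg fun x _ => abs_nonneg _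
    have h7 : 0 ≤ ∑ x ∈ Xw N Q a, |Jup N Q ω (x + a) p| := sum_nonneg fun x _ => abs_nonneg _
    linarith
  have hE : ∑ a ∈ Lo N Q, ∑ x ∈ Xw N Q a, e1 x (x + a) p ≤ 1 := by
    have h1 : ∀ a ∈ Lo N Q, ∑ x ∈ Xw N Q a, e1 x (x + a) p ≤
        if p.2 - p.1 = a then (1 : ℝ) else 0 := by
      intro a _
      by_cases h2 : p.2 - p.1 = a
      · rw [if_pos h2]
        have h3 : ∀ x ∈ Xw N Q a, e1 x (x + a) p ≤ if p.1 = x then (1 : ℝ) else 0 := by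
          intro x _
          rw [ker5a_e1]
          by_cases h4 : p = (x, x + a)
          · rw [if_pos h4, if_pos (by rw [h4])]
          · rw [if_neg h4]
            split_ifs
            · exact zero_le_one
            · exact le_rfl
        refine (sum_le_sum h3).trans ?_
        rw [sum_ite_eq]
        split_ifs
        · exact le_rfl
        · exact zero_le_one
      · rw [if_neg h2]
        refine (sum_eq_zero fun x _ => ?_).le
        rw [ker5a_e1, if_neg]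
        rintro rfl
        exact h2 (Nat.add_sub_cancel_left x a)
    refine (sum_le_sum h1).trans ?_
    rw [sum_ite_eq]
    split_ifs
    · exact le_rfl
    · exact zero_le_one
  have hcard : ((Lo N Q).card : ℝ) ≤ N := by
    have h1 : (Lo N Q).card ≤ N := by
      refine (card_le_card ((filter_subset _ _).trans h.sub)).trans ?_
      rw [Nat.card_Icc, Nat.add_sub_cancel]
    exact_mod_cast h1
  refine (sum_le_sum hterm).trans ?_
  rw [← mul_sum, sum_add_distrib, sum_const, nsmul_eq_mul]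
  have h6 : ((Lo N Q).card : ℝ) * (2 * (10 ^ 8 / N)) ≤ N * (2 * (10 ^ 8 / N)) :=
    mul_le_mul_of_nonneg_right hcard (by positivity)
  have h7 : (N : ℝ) * (2 * (10 ^ 8 / N)) = 2 * 10 ^ 8 := by
    field_simp
  have h8 : (1000 / (49 * N) : ℝ) * ((∑ a ∈ Lo N Q, ∑ x ∈ Xw N Q a, e1 x (x + a) p) +
      (Lo N Q).card * (2 * (10 ^ 8 / N))) ≤ (1000 / (49 * N)) * (1 + 2 * 10 ^ 8) :=
    mul_le_mul_of_nonneg_left (by linarith) (by positivity)
  refine h8.trans ?_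
  have h9 : (1000 / (49 * N) : ℝ) * (1 + 2 * 10 ^ 8) = (1000 * (1 + 2 * 10 ^ 8) / 49) / N := by
    field_simp
  rw [h9]
  exact div_le_div_of_nonneg_right (by norm_num) hN0.le

theorem nlow_est {N : ℕ} {Q : Finset ℕ} (h : KH N Q) {a x : ℕ} (ha : a ∈ Lo N Q) (hx : x ∈ Rf N Q) :
    |nlow N Q a x - 1 / (Rf N Q).card| ≤ (1 / 500) / (Rf N Q).card := by
  have hc := Xw_card h ha
  have hN : (10 ^ 9 : ℝ) ≤ N := by exact_mod_cast h.big
  have hcpos : (0 : ℝ) < (Xw N Q a).card := by linarith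
  have h1 : nlow N Q a x - 1 / (Rf N Q).card = (1 / ((Xw N Q a).card : ℝ)) *
      ∑ z ∈ Xw N Q a, ((1 / 2) * (nuu N Q z x + nuu N Q (z + a) x) - 1 / (Rf N Q).card) := by
    unfold nlow
    rw [sum_sub_distrib, sum_const, nsmul_eq_mul, mul_sub, ← mul_assoc
      (1 / ((Xw N Q a).card : ℝ)) ((Xw N Q a).card : ℝ), one_div_mul_cancel hcpos.ne', one_mul]
  rw [h1, abs_mul, abs_of_nonneg (a := 1 / ((Xw N Q a).card : ℝ)) (by positivity)]
  have h2 : |∑ z ∈ Xw N Q a, ((1 / 2) * (nuu N Q z x + nuu N Q (z + a) x) - 1 / (Rf N Q).card)| ≤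
      (Xw N Q a).card * ((1 / 500) / (Rf N Q).card) := by
    refine (abs_sum_le_sum_abs _ _).trans ?_
    rw [← nsmul_eq_mul]
    refine sum_le_card_nsmul _ _ _ fun z hz => ?_
    obtain ⟨hz1, hz2, _⟩ := ker5a_mem h ha hz
    have h3 := nuu_est h hz1 hx
    have h4 := nuu_est h hz2 hx
    rw [abs_le] at h3 h4 ⊢
    constructor
    · linarith [h3.1, h4.1]
    · linarith [h3.2, h4.2]
  calc (1 / ((Xw N Q a).card : ℝ)) * _ ≤ (1 / ((Xw N Q a).card : ℝ)) *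
        ((Xw N Q a).card * ((1 / 500) / (Rf N Q).card)) :=
      mul_le_mul_of_nonneg_left h2 (by positivity)
    _ = (1 / 500) / (Rf N Q).card := by
      rw [← mul_assoc, one_div_mul_cancel hcpos.ne', one_mul]

theorem nlow_supp {N : ℕ} {Q : Finset ℕ} {a x : ℕ} (hx : x ∉ Rf N Q) : nlow N Q a x = 0 := by
  unfold nlow
  rw [sum_eq_zero fun z _ => ?_, mul_zero]
  rw [nuu_supp hx, nuu_supp hx]
  ring

private theorem ker5b_mem {N : ℕ} {Q : Finset ℕ} {g : ℕ × ℕ} (hg : g ∈ BH N Q) :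
    g.1 ∈ Q ∧ g.2 ∈ Q ∧ 9 * N ≤ 20 * g.1 ∧ 2 * g.1 ≤ N ∧ 9 * N ≤ 20 * g.2 ∧ 2 * g.2 ≤ N ∧
      g.1 + g.2 ∈ Q := by
  unfold BH at hg
  rw [mem_filter, mem_product] at hg
  exact ⟨hg.1.1, hg.1.2, hg.2⟩

private theorem ker5b_hi {N : ℕ} {Q : Finset ℕ} {g : ℕ × ℕ} (hg : g ∈ BH N Q) :
    g.1 ∈ Hi N Q ∧ g.2 ∈ Hi N Q ∧ g.1 + g.2 ∈ Hi N Q := by
  obtain ⟨h1, h2, h3, _, h5, _, h7⟩ := ker5b_mem hg
  refine ⟨mem_filter.2 ⟨h1, h3⟩, mem_filter.2 ⟨h2, h5⟩, mem_filter.2 ⟨h7, ?_⟩⟩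
  omega

private theorem ker5b_mm {x y : ℕ} : (min x (x + y), max x (x + y)) = (x, x + y) := by
  rw [min_eq_left (Nat.le_add_right x y), max_eq_right (Nat.le_add_right x y)]

private theorem ker5b_prs {N : ℕ} {Q : Finset ℕ} (h : KH N Q) {g : ℕ × ℕ} (hg : g ∈ BH N Q) :
    (min g.1 (g.1 + g.2), max g.1 (g.1 + g.2)) ∈ prs N Q ∧ N ≤ 3 * g.1 := by
  obtain ⟨h1, h2, h3, _, h5, _, h7⟩ := ker5b_mem hg
  have hN := h.big
  have h8 := mem_Icc.1 (h.sub h2)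
  refine ⟨?_, by omega⟩
  rw [ker5b_mm]
  refine mem_filter.2 ⟨mem_product.2 ⟨h1, h7⟩, ?_, ?_, ?_⟩
  · show g.1 < g.1 + g.2
    omega
  · show g.1 + g.2 - g.1 ∈ Q
    rw [Nat.add_sub_cancel_left]
    exact h2
  · show N < g.1 + (g.1 + g.2)
    omega

private theorem ker5b_e1 (x y : ℕ) (p : ℕ × ℕ) : 0 ≤ e1 x y p := by
  unfold e1
  split_ifs
  · exact zero_le_one
  · exact le_refl _

theorem BH_card {N : ℕ} {Q : Finset ℕ} (h : KH N Q) : (1 / 1000) * (N : ℝ) ^ 2 ≤ (BH N Q).card := by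
  have hN := h.big
  have hNr : (10 ^ 9 : ℝ) ≤ N := by exact_mod_cast hN
  have hQc := h.card
  have hQle : Q.card ≤ N := by
    have := card_le_card h.sub
    rwa [Nat.card_Icc, Nat.add_sub_cancel] at this
  have hmiss : (((Icc 1 N \ Q).card : ℕ) : ℝ) = (N : ℝ) - Q.card := by
    rw [card_sdiff_of_subset h.sub, Nat.card_Icc, Nat.add_sub_cancel, Nat.cast_sub hQle]
  set B : Finset ℕ := Q.filter (fun b => 9 * N ≤ 20 * b ∧ 2 * b ≤ N) with hB
  set I : Finset ℕ := Icc ((9 * N + 19) / 20) (N / 2) with hI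
  have hIc : (N : ℝ) - 9 ≤ 20 * (I.card : ℝ) := by
    have h1 : N ≤ 20 * I.card + 9 := by
      rw [hI, Nat.card_Icc]
      omega
    have h2 : (N : ℝ) ≤ 20 * (I.card : ℝ) + 9 := by exact_mod_cast h1
    linarith
  have hIB : (I.card : ℝ) ≤ B.card + (Icc 1 N \ Q).card := by
    have h1 : I ⊆ B ∪ (Icc 1 N \ Q) := by
      intro x hx
      have h2 := mem_Icc.1 hx
      by_cases hxQ : x ∈ Q
      · exact mem_union_left _ (mem_filter.2 ⟨hxQ, by omega, by omega⟩)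
      · exact mem_union_right _ (mem_sdiff.2 ⟨mem_Icc.2 ⟨by omega, by omega⟩, hxQ⟩)
    exact_mod_cast (card_le_card h1).trans (card_union_le _ _)
  have hBc : (1 / 20) * (N : ℝ) - 1 - (1 / 10 ^ 6) * N ≤ B.card := by
    rw [hmiss] at hIB
    linarith
  have hBBH : B ×ˢ B ⊆ BH N Q ∪ (B ×ˢ B).filter (fun g => g.1 + g.2 ∉ Q) := by
    intro g hg
    have h1 := mem_product.1 hg
    have h2 := mem_filter.1 h1.1
    have h3 := mem_filter.1 h1.2
    by_cases h4 : g.1 + g.2 ∈ Q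
    · exact mem_union_left _ (mem_filter.2 ⟨mem_product.2 ⟨h2.1, h3.1⟩, h2.2.1, h2.2.2, h3.2.1,
        h3.2.2, h4⟩)
    · exact mem_union_right _ (mem_filter.2 ⟨hg, h4⟩)
  have hbad : ((B ×ˢ B).filter (fun g => g.1 + g.2 ∉ Q)).card ≤ (B ×ˢ (Icc 1 N \ Q)).card := by
    refine card_le_card_of_injOn (fun g => (g.1, g.1 + g.2)) ?_ ?_
    · intro g hg
      have h0 := mem_filter.1 (mem_coe.1 hg)
      have h1 := mem_product.1 h0.1
      have h2 := mem_filter.1 h1.1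
      have h3 := mem_filter.1 h1.2
      refine mem_coe.2 (mem_product.2 ⟨h1.1, mem_sdiff.2 ⟨mem_Icc.2 ⟨?_, ?_⟩, h0.2⟩⟩)
      · show 1 ≤ g.1 + g.2
        omega
      · show g.1 + g.2 ≤ N
        omega
    · intro g _ g' _ hgg
      have h0 : ((g.1, g.1 + g.2) : ℕ × ℕ) = (g'.1, g'.1 + g'.2) := hgg
      have h1 : g.1 = g'.1 := (Prod.mk.inj h0).1
      have h2 : g.1 + g.2 = g'.1 + g'.2 := (Prod.mk.inj h0).2
      exact Prod.ext h1 (by omega)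
  have hfin : ((B.card : ℝ)) * B.card ≤ (BH N Q).card + B.card * ((N : ℝ) - Q.card) := by
    have h1 := (card_le_card hBBH).trans ((card_union_le _ _).trans
      (Nat.add_le_add_left hbad _))
    rw [card_product, card_product] at h1
    rw [← hmiss]
    exact_mod_cast h1
  have hB0 : (0 : ℝ) ≤ B.card := Nat.cast_nonneg _
  have hBm : (B.card : ℝ) * ((N : ℝ) - Q.card) ≤ B.card * ((1 / 10 ^ 6) * N) :=
    mul_le_mul_of_nonneg_left hQc hB0
  have hB1 : (4 / 100) * (N : ℝ) ≤ B.card := by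
    have : (1 : ℝ) ≤ (1 / 10 ^ 9) * N := by linarith
    linarith
  have hB2 : (39 / 1000) * (N : ℝ) ≤ B.card - (1 / 10 ^ 6) * N := by linarith
  have hprod : (4 / 100) * (N : ℝ) * ((39 / 1000) * (N : ℝ)) ≤
      B.card * (B.card - (1 / 10 ^ 6) * N) :=
    mul_le_mul hB1 hB2 (by positivity) hB0
  nlinarith [sq_nonneg (N : ℝ)]

theorem ld_Jref {N : ℕ} {Q : Finset ℕ} (h : KH N Q) {ω : ℝ} (hω : 0 < ω) (b : ℕ) :
    ld N Q ω (Jref N Q ω) b = nref N Q ω b := by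
  unfold Jref nref
  rw [ld_smul, ld_sum]
  congr 1
  refine sum_congr rfl fun g hg => ?_
  obtain ⟨h1, h2, h3⟩ := ker5b_hi hg
  rw [ld_sub, ld_sub, ld_smul, ld_add, ld_e1 (ker5b_prs h hg).1, ld_Jup h hω h1, ld_Jup h hω h2,
    ld_Jup h hω h3]
  have h4 : dd g.1 (g.1 + g.2) = g.2 := by
    unfold dd
    omega
  rw [h4]
  ring

theorem Jref_supp {N : ℕ} {Q : Finset ℕ} (h : KH N Q) {ω : ℝ} {p : ℕ × ℕ}
    (hp : Jref N Q ω p ≠ 0) : p ∈ prs N Q ∧ N ≤ 3 * p.1 := by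
  by_contra hcon
  apply hp
  unfold Jref
  rw [sum_eq_zero, mul_zero]
  intro g hg
  obtain ⟨h1, h2, h3⟩ := ker5b_hi hg
  have e1' : Jup N Q ω g.1 p = 0 := by
    by_contra h4
    exact hcon (Jup_supp h h1 h4)
  have e2' : Jup N Q ω g.2 p = 0 := by
    by_contra h4
    exact hcon (Jup_supp h h2 h4)
  have e3' : Jup N Q ω (g.1 + g.2) p = 0 := by
    by_contra h4
    exact hcon (Jup_supp h h3 h4)
  have e4' : e1 g.1 (g.1 + g.2) p = 0 := by
    unfold e1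
    rw [if_neg]
    intro h4
    apply hcon
    have h5 := ker5b_prs h hg
    rw [← h4] at h5
    refine ⟨h5.1, ?_⟩
    rw [h4, ker5b_mm]
    exact h5.2
  rw [e1', e2', e3', e4']
  ring

private theorem ker5b_sum1 {N : ℕ} {Q : Finset ℕ} (h : KH N Q) {ω : ℝ} (hω : 1 / 2 ≤ ω)
    (p : ℕ × ℕ) (φ : ℕ × ℕ → ℕ × ℕ) (hφ : Set.InjOn φ (BH N Q : Set (ℕ × ℕ)))
    (hm : ∀ g ∈ BH N Q, (φ g).1 ∈ Q ∧ (φ g).2 ∈ Hi N Q) :
    ∑ g ∈ BH N Q, |Jup N Q ω (φ g).2 p| ≤ 10 ^ 8 := by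
  have hN := h.big
  have hNr : (0 : ℝ) < N := by
    have : 0 < N := by omega
    exact_mod_cast this
  have hQle : (Q.card : ℝ) ≤ N := by
    have := card_le_card h.sub
    rw [Nat.card_Icc, Nat.add_sub_cancel] at this
    exact_mod_cast this
  have h1 : ∑ g ∈ BH N Q, |Jup N Q ω (φ g).2 p| =
      ∑ q ∈ (BH N Q).image φ, |Jup N Q ω q.2 p| := 
    (sum_image (f := fun q : ℕ × ℕ => |Jup N Q ω q.2 p|) hφ).symm
  have h2 : (BH N Q).image φ ⊆ Q ×ˢ Hi N Q := by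
    intro q hq
    obtain ⟨g, hg, rfl⟩ := mem_image.1 hq
    exact mem_product.2 (hm g hg)
  have h3 : ∑ q ∈ (BH N Q).image φ, |Jup N Q ω q.2 p| ≤
      ∑ q ∈ Q ×ˢ Hi N Q, |Jup N Q ω q.2 p| :=
    sum_le_sum_of_subset_of_nonneg h2 fun _ _ _ => abs_nonneg _
  have h4 : ∑ q ∈ Q ×ˢ Hi N Q, |Jup N Q ω q.2 p| =
      Q.card * ∑ a ∈ Hi N Q, |Jup N Q ω a p| := by
    rw [sum_product]
    show ∑ x ∈ Q, ∑ y ∈ Hi N Q, |Jup N Q ω y p| = _
    rw [sum_const, nsmul_eq_mul]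
  have h5 : (Q.card : ℝ) * ∑ a ∈ Hi N Q, |Jup N Q ω a p| ≤ N * (10 ^ 8 / N) :=
    mul_le_mul hQle (Jup_sum h hω p) (sum_nonneg fun _ _ => abs_nonneg _) hNr.le
  rw [mul_div_cancel₀ _ hNr.ne'] at h5
  rw [h1]
  exact h3.trans (h4.le.trans h5)

private theorem ker5b_sum0 {N : ℕ} {Q : Finset ℕ} (p : ℕ × ℕ) :
    ∑ g ∈ BH N Q, e1 g.1 (g.1 + g.2) p ≤ 1 := by
  have h1 : ∀ g ∈ BH N Q, e1 g.1 (g.1 + g.2) p = if (p.1, p.2 - p.1) = g ∧ p.1 ≤ p.2 then 1 else 0 := by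
    intro g _
    unfold e1
    rw [ker5b_mm]
    by_cases h2 : p = (g.1, g.1 + g.2)
    · rw [if_pos h2, if_pos]
      rw [h2]
      refine ⟨?_, Nat.le_add_right _ _⟩
      show (g.1, g.1 + g.2 - g.1) = g
      rw [Nat.add_sub_cancel_left]
    · rw [if_neg h2, if_neg]
      rintro ⟨h3, h4⟩
      apply h2
      rw [← h3]
      refine Prod.ext rfl ?_
      show p.2 = p.1 + (p.2 - p.1)
      omega
  rw [sum_congr rfl h1]
  by_cases h2 : p.1 ≤ p.2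
  · have h3 : ∑ g ∈ BH N Q, (if (p.1, p.2 - p.1) = g ∧ p.1 ≤ p.2 then (1 : ℝ) else 0) =
        ∑ g ∈ BH N Q, (if (p.1, p.2 - p.1) = g then (1 : ℝ) else 0) :=
      sum_congr rfl fun g _ => by
        by_cases h4 : (p.1, p.2 - p.1) = g
        · rw [if_pos ⟨h4, h2⟩, if_pos h4]
        · rw [if_neg fun h5 => h4 h5.1, if_neg h4]
    rw [h3, sum_ite_eq]
    split_ifs
    · exact le_refl _
    · exact zero_le_one
  · rw [sum_eq_zero]
    · exact zero_le_one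
    · intro g _
      exact if_neg fun h3 => h2 h3.2

theorem Jref_le {N : ℕ} {Q : Finset ℕ} (h : KH N Q) {ω : ℝ} (hω : 1 / 2 ≤ ω) (hω2 : ω ≤ 2)
    (p : ℕ × ℕ) : |Jref N Q ω p| ≤ 10 ^ 12 / (N : ℝ) ^ 2 := by
  have hN := h.big
  have hNr : (0 : ℝ) < N := by
    have : 0 < N := by omega
    exact_mod_cast this
  have hBH := BH_card h
  have hN2 : (0 : ℝ) < (N : ℝ) ^ 2 := by positivity
  have hBH0 : (0 : ℝ) < (BH N Q).card := lt_of_lt_of_le (by positivity) hBH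
  have hω0 : 0 < ω := by linarith
  have hS1 : ∑ g ∈ BH N Q, |Jup N Q ω g.1 p| ≤ 10 ^ 8 := by
    refine ker5b_sum1 h hω p (fun g => (g.2, g.1)) ?_ ?_
    · intro g _ g' _ hgg
      exact Prod.ext (congrArg Prod.snd hgg) (congrArg Prod.fst hgg)
    · intro g hg
      exact ⟨(ker5b_mem hg).2.1, (ker5b_hi hg).1⟩
  have hS2 : ∑ g ∈ BH N Q, |Jup N Q ω g.2 p| ≤ 10 ^ 8 := by
    refine ker5b_sum1 h hω p (fun g => g) ?_ ?_
    · intro g _ g' _ hgg
      exact hgg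
    · intro g hg
      exact ⟨(ker5b_mem hg).1, (ker5b_hi hg).2.1⟩
  have hS3 : ∑ g ∈ BH N Q, |Jup N Q ω (g.1 + g.2) p| ≤ 10 ^ 8 := by
    refine ker5b_sum1 h hω p (fun g => (g.1, g.1 + g.2)) ?_ ?_
    · intro g _ g' _ hgg
      have h0 : ((g.1, g.1 + g.2) : ℕ × ℕ) = (g'.1, g'.1 + g'.2) := hgg
      have h1 : g.1 = g'.1 := (Prod.mk.inj h0).1
      have h2 : g.1 + g.2 = g'.1 + g'.2 := (Prod.mk.inj h0).2
      exact Prod.ext h1 (by omega)
    · intro g hg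
      exact ⟨(ker5b_mem hg).1, (ker5b_hi hg).2.2⟩
  have hT : |∑ g ∈ BH N Q, (e1 g.1 (g.1 + g.2) p -
      (ω / 2) * (Jup N Q ω g.1 p + Jup N Q ω (g.1 + g.2) p) - Jup N Q ω g.2 p)| ≤ 10 ^ 9 := by
    have h1 : |∑ g ∈ BH N Q, (e1 g.1 (g.1 + g.2) p -
        (ω / 2) * (Jup N Q ω g.1 p + Jup N Q ω (g.1 + g.2) p) - Jup N Q ω g.2 p)| ≤
        ∑ g ∈ BH N Q, (e1 g.1 (g.1 + g.2) p + ((ω / 2) * |Jup N Q ω g.1 p| +
          (ω / 2) * |Jup N Q ω (g.1 + g.2) p|) + |Jup N Q ω g.2 p|) := by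
      refine (abs_sum_le_sum_abs _ _).trans (sum_le_sum fun g _ => ?_)
      refine (abs_sub _ _).trans (add_le_add ((abs_sub _ _).trans (add_le_add ?_ ?_)) (le_refl _))
      · exact (abs_of_nonneg (ker5b_e1 _ _ _)).le
      · rw [abs_mul, abs_of_pos (by linarith : 0 < ω / 2), ← mul_add]
        exact mul_le_mul_of_nonneg_left (abs_add_le _ _) (by linarith)
    refine h1.trans ?_
    rw [sum_add_distrib, sum_add_distrib, sum_add_distrib, ← mul_sum, ← mul_sum]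
    have h2 : (ω / 2) * ∑ g ∈ BH N Q, |Jup N Q ω g.1 p| ≤ 1 * 10 ^ 8 :=
      mul_le_mul (by linarith) hS1 (sum_nonneg fun _ _ => abs_nonneg _) zero_le_one
    have h3 : (ω / 2) * ∑ g ∈ BH N Q, |Jup N Q ω (g.1 + g.2) p| ≤ 1 * 10 ^ 8 :=
      mul_le_mul (by linarith) hS3 (sum_nonneg fun _ _ => abs_nonneg _) zero_le_one
    have h4 := ker5b_sum0 (N := N) (Q := Q) p
    norm_num at h2 h3 hS2 h4 ⊢
    linarith
  unfold Jref
  have hc : 0 < (1 + ω) * ((BH N Q).card : ℝ) := mul_pos (by linarith) hBH0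
  rw [abs_mul, abs_of_pos (one_div_pos.2 hc)]
  have hc1 : 1 / ((1 + ω) * ((BH N Q).card : ℝ)) ≤ 1000 / (N : ℝ) ^ 2 := by
    rw [div_le_div_iff₀ hc hN2]
    have : (1 : ℝ) * (BH N Q).card ≤ (1 + ω) * (BH N Q).card :=
      mul_le_mul_of_nonneg_right (by linarith) hBH0.le
    nlinarith
  calc 1 / ((1 + ω) * ((BH N Q).card : ℝ)) * |∑ g ∈ BH N Q, (e1 g.1 (g.1 + g.2) p -
        (ω / 2) * (Jup N Q ω g.1 p + Jup N Q ω (g.1 + g.2) p) - Jup N Q ω g.2 p)| ≤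
      1000 / (N : ℝ) ^ 2 * 10 ^ 9 := mul_le_mul hc1 hT (abs_nonneg _) (by positivity)
    _ = 10 ^ 12 / (N : ℝ) ^ 2 := by ring

theorem nref_est {N : ℕ} {Q : Finset ℕ} (h : KH N Q) {ω : ℝ} (hω : 0 < ω) {x : ℕ} (hx : x ∈ Rf N Q) :
    |nref N Q ω x - 1 / (Rf N Q).card| ≤ (1 / 500) / (Rf N Q).card := by
  have hN := h.big
  have hNr : (0 : ℝ) < N := by
    have : 0 < N := by omega
    exact_mod_cast this
  have hBH0 : (0 : ℝ) < (BH N Q).card := lt_of_lt_of_le (by positivity) (BH_card h)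
  have hc : 0 < (1 + ω) * ((BH N Q).card : ℝ) := mul_pos (by linarith) hBH0
  generalize hR : (1 : ℝ) / (Rf N Q).card = r
  have hR' : (1 / 500 : ℝ) / (Rf N Q).card = (1 / 500) * r := by
    rw [← hR]
    ring
  have hn : ∀ a ∈ Hi N Q, |nuu N Q a x - r| ≤ (1 / 500) * r := by
    intro a ha
    rw [← hR', ← hR]
    exact nuu_est h ha hx
  rw [hR']
  unfold nref
  have h1 : (1 / ((1 + ω) * ((BH N Q).card : ℝ))) * ∑ g ∈ BH N Q,
      ((ω / 2) * (nuu N Q g.1 x + nuu N Q (g.1 + g.2) x) + nuu N Q g.2 x) - r =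
      (1 / ((1 + ω) * ((BH N Q).card : ℝ))) * ∑ g ∈ BH N Q,
      ((ω / 2) * (nuu N Q g.1 x + nuu N Q (g.1 + g.2) x) + nuu N Q g.2 x - (1 + ω) * r) := by
    rw [sum_sub_distrib, sum_const, nsmul_eq_mul, mul_sub]
    congr 1
    field_simp
  rw [h1, abs_mul, abs_of_pos (one_div_pos.2 hc)]
  have h2 : |∑ g ∈ BH N Q, ((ω / 2) * (nuu N Q g.1 x + nuu N Q (g.1 + g.2) x) + nuu N Q g.2 x -
      (1 + ω) * r)| ≤ ∑ g ∈ BH N Q, (1 + ω) * ((1 / 500) * r) := by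
    refine (abs_sum_le_sum_abs _ _).trans (sum_le_sum fun g hg => ?_)
    obtain ⟨h3, h4, h5⟩ := ker5b_hi hg
    have h6 := abs_le.1 (hn _ h3)
    have h7 := abs_le.1 (hn _ h4)
    have h8 := abs_le.1 (hn _ h5)
    rw [abs_le]
    constructor <;> nlinarith
  rw [sum_const, nsmul_eq_mul] at h2
  calc 1 / ((1 + ω) * ((BH N Q).card : ℝ)) * |∑ g ∈ BH N Q,
        ((ω / 2) * (nuu N Q g.1 x + nuu N Q (g.1 + g.2) x) + nuu N Q g.2 x - (1 + ω) * r)| ≤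
      1 / ((1 + ω) * ((BH N Q).card : ℝ)) * ((BH N Q).card * ((1 + ω) * ((1 / 500) * r))) :=
        mul_le_mul_of_nonneg_left h2 (one_div_pos.2 hc).le
    _ = (1 / 500) * r := by
        field_simp

theorem nref_supp {N : ℕ} {Q : Finset ℕ} {ω : ℝ} {x : ℕ} (hx : x ∉ Rf N Q) : nref N Q ω x = 0 := by
  unfold nref
  rw [sum_eq_zero, mul_zero]
  intro g _
  rw [nuu_supp hx, nuu_supp hx, nuu_supp hx]
  ring

end SSB
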