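import Pool.Agent.Lib.MP_8a819d_co.BD.Ker5

/-!
# MP_8a819d_co: the exact kernel, 6. Solving the load equation

JOB Ker6 (all of this file).

For `r : ℕ → ℝ` let `k r p = ∑ a ∈ Hi, r a (Jup a p + Jref p) + ∑ a ∈ Lo, r a (Jlow a p - ω Jref p)`. By
`ld_Jup`, `ld_Jlow`, `ld_Jref` and linearity (Ker3), for `b ∈ Q` (`Q` is the disjoint union of `Hi`, `Lo`)
`ld (k r) b = r b + ∑ a ∈ Hi, r a (nref b - nuu a b) + ∑ a ∈ Lo, r a ω (nlow a b - nref b) = r b + (E r) b`.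
If `b ∉ Rf`, `(E r) b = 0`. If `b ∈ Rf` and `|r a| ≤ ρ` for all `a ∈ Q` then, all the differences being at
most `2 (1/500) / |Rf|`, `|(E r) b| ≤ ρ * N * (101/100) * (1/250) / (0.019 N) ≤ ρ / 2`.
The linear map `r ↦ r + E r` on the finite dimensional space `Q → ℝ` (functions on the subtype) is
injective (look at the maximum of `|r|`), hence surjective; if `r + E r = τ`, `|τ| ≤ t` then
`|r| ≤ 2 t` (again at the maximum). (If `Q` is empty everything is trivial; `Q` is not empty anyway.)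
Finally `|k r p| ≤ 2 t (10^8 / N + N * 10^12 / N^2 + 10^10 / N + 2 N * 10^12 / N^2) ≤ 10^13 t / N`.
Support: `Jup_supp`, `Jlow_supp`, `Jref_supp`.
-/

set_option autoImplicit false

namespace SSB

open Finset

private noncomputable def ker6_m (N : ℕ) (Q : Finset ℕ) (ω : ℝ) (a b : ℕ) : ℝ :=
  if 9 * N ≤ 20 * a then nref N Q ω b - nuu N Q a b else ω * (nlow N Q a b - nref N Q ω b)

private noncomputable def ker6_J (N : ℕ) (Q : Finset ℕ) (ω : ℝ) (a : ℕ) (p : ℕ × ℕ) : ℝ :=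
  if 9 * N ≤ 20 * a then Jup N Q ω a p + Jref N Q ω p else Jlow N Q ω a p - ω * Jref N Q ω p

private theorem ker6_hi {N : ℕ} {Q : Finset ℕ} {a : ℕ} (ha : a ∈ Q) (h : 9 * N ≤ 20 * a) :
    a ∈ Hi N Q := mem_filter.2 ⟨ha, h⟩

private theorem ker6_lo {N : ℕ} {Q : Finset ℕ} {a : ℕ} (ha : a ∈ Q) (h : ¬ 9 * N ≤ 20 * a) :
    a ∈ Lo N Q := mem_filter.2 ⟨ha, not_le.1 h⟩

private theorem ker6_ld_J {N : ℕ} {Q : Finset ℕ} (h : KH N Q) {ω : ℝ} (hω : 0 < ω) {a : ℕ}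
    (ha : a ∈ Q) (b : ℕ) :
    ld N Q ω (ker6_J N Q ω a) b = dl a b + ker6_m N Q ω a b := by
  by_cases h1 : 9 * N ≤ 20 * a
  · have h2 : ker6_J N Q ω a = fun p => Jup N Q ω a p + Jref N Q ω p := by
      funext p
      exact if_pos h1
    have h3 : ker6_m N Q ω a b = nref N Q ω b - nuu N Q a b := if_pos h1
    rw [h2, ld_add, ld_Jup h hω (ker6_hi ha h1), ld_Jref h hω, h3]
    ring
  · have h2 : ker6_J N Q ω a = fun p => Jlow N Q ω a p - ω * Jref N Q ω p := by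
      funext p
      exact if_neg h1
    have h3 : ker6_m N Q ω a b = ω * (nlow N Q a b - nref N Q ω b) := if_neg h1
    rw [h2, ld_sub, ld_smul, ld_Jlow h hω (ker6_lo ha h1), ld_Jref h hω, h3]
    ring

private theorem ker6_m_supp {N : ℕ} {Q : Finset ℕ} {ω : ℝ} {a b : ℕ} (hb : b ∉ Rf N Q) :
    ker6_m N Q ω a b = 0 := by
  unfold ker6_m
  rw [nuu_supp hb, nlow_supp hb, nref_supp hb, sub_zero, mul_zero, ite_self]

private theorem ker6_m_le {N : ℕ} {Q : Finset ℕ} (h : KH N Q) {ω : ℝ} (hω : |ω - 1| ≤ 1 / 100)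
    {a b : ℕ} (ha : a ∈ Q) (hb : b ∈ Rf N Q) :
    |ker6_m N Q ω a b| ≤ (1 / 200) / (Rf N Q).card := by
  have hω' := abs_le.1 hω
  have hω0 : 0 < ω := by linarith
  have hR : 0 ≤ (1 / 500 : ℝ) / (Rf N Q).card := by positivity
  have hr := nref_est h hω0 hb
  have hconst : (1 / 200 : ℝ) / (Rf N Q).card = (5 / 2) * ((1 / 500) / (Rf N Q).card) := by ring
  rw [hconst]
  by_cases h1 : 9 * N ≤ 20 * a
  · have h3 : ker6_m N Q ω a b = nref N Q ω b - nuu N Q a b := if_pos h1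
    have hn := nuu_est h (ker6_hi ha h1) hb
    rw [h3]
    rw [abs_le] at hn hr ⊢
    constructor
    · linarith [hn.1, hn.2, hr.1, hr.2]
    · linarith [hn.1, hn.2, hr.1, hr.2]
  · have h3 : ker6_m N Q ω a b = ω * (nlow N Q a b - nref N Q ω b) := if_neg h1
    have hn := nlow_est h (ker6_lo ha h1) hb
    rw [h3, abs_mul, abs_of_pos hω0]
    have h4 : |nlow N Q a b - nref N Q ω b| ≤ 2 * ((1 / 500) / (Rf N Q).card) := by
      rw [abs_le] at hn hr ⊢
      constructor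
      · linarith [hn.1, hn.2, hr.1, hr.2]
      · linarith [hn.1, hn.2, hr.1, hr.2]
    have h5 : ω ≤ 5 / 4 := by linarith
    calc ω * |nlow N Q a b - nref N Q ω b| ≤ (5 / 4) * (2 * ((1 / 500) / (Rf N Q).card)) :=
          mul_le_mul h5 h4 (abs_nonneg _) (by norm_num)
      _ = (5 / 2) * ((1 / 500) / (Rf N Q).card) := by ring

private theorem ker6_card {N : ℕ} {Q : Finset ℕ} (h : KH N Q) : (Q.card : ℝ) ≤ N := by
  have h1 := card_le_card h.sub
  rw [Nat.card_Icc, Nat.add_sub_cancel] at h1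
  exact Nat.cast_le.2 h1

private theorem ker6_N {N : ℕ} {Q : Finset ℕ} (h : KH N Q) : (0 : ℝ) < N := by
  have h1 : 0 < N := lt_of_lt_of_le (by norm_num) h.big
  exact Nat.cast_pos.2 h1

private theorem ker6_ne {N : ℕ} {Q : Finset ℕ} (h : KH N Q) : Q.Nonempty := by
  rw [nonempty_iff_ne_empty]
  intro h0
  have h1 := h.card
  have h2 := ker6_N h
  rw [h0, card_empty, Nat.cast_zero] at h1
  linarith

private theorem ker6_E {N : ℕ} {Q : Finset ℕ} (h : KH N Q) {ω : ℝ} (hω : |ω - 1| ≤ 1 / 100)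
    (r : ℕ → ℝ) (ρ : ℝ) (hr : ∀ a ∈ Q, |r a| ≤ ρ) (hρ : 0 ≤ ρ) (b : ℕ) :
    |∑ a ∈ Q, r a * ker6_m N Q ω a b| ≤ ρ / 2 := by
  have hN := ker6_N h
  by_cases hb : b ∈ Rf N Q
  · refine (abs_sum_le_sum_abs _ _).trans ?_
    have h1 : ∀ a ∈ Q, |r a * ker6_m N Q ω a b| ≤ ρ * ((1 / 200) / (Rf N Q).card) := by
      intro a ha
      rw [abs_mul]
      exact mul_le_mul (hr a ha) (ker6_m_le h hω ha hb) (abs_nonneg _) hρ
    refine (sum_le_sum h1).trans ?_
    rw [sum_const, nsmul_eq_mul]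
    have hR := (Rf_card h).1
    have hR0 : (0 : ℝ) < (Rf N Q).card := lt_of_lt_of_le (by positivity) hR
    have h2 : (1 / 200 : ℝ) / (Rf N Q).card ≤ (1 / 200) / ((19 / 1000) * N) :=
      div_le_div_of_nonneg_left (by norm_num) (by positivity) hR
    calc (Q.card : ℝ) * (ρ * ((1 / 200) / (Rf N Q).card)) ≤
          N * (ρ * ((1 / 200) / ((19 / 1000) * N))) :=
          mul_le_mul (ker6_card h) (mul_le_mul_of_nonneg_left h2 hρ) (by positivity) hN.le
      _ = ρ * (5 / 19) := by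
          field_simp
          ring
      _ ≤ ρ / 2 := by linarith
  · rw [sum_eq_zero, abs_zero]
    · linarith
    · intro a _
      rw [ker6_m_supp hb, mul_zero]

/-- maximum principle -/
private theorem ker6_max {N : ℕ} {Q : Finset ℕ} (h : KH N Q) {ω : ℝ} (hω : |ω - 1| ≤ 1 / 100)
    (r : ℕ → ℝ) (t : ℝ) (ht : ∀ b ∈ Q, |r b + ∑ a ∈ Q, r a * ker6_m N Q ω a b| ≤ t) :
    ∀ a ∈ Q, |r a| ≤ 2 * t := by
  obtain ⟨a₀, ha₀, hmax⟩ := exists_max_image Q (fun a => |r a|) (ker6_ne h)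
  have h1 := ker6_E h hω r |r a₀| hmax (abs_nonneg _) a₀
  have h2 := ht a₀ ha₀
  have h3 : |r a₀| ≤ |r a₀ + ∑ a ∈ Q, r a * ker6_m N Q ω a a₀| +
      |∑ a ∈ Q, r a * ker6_m N Q ω a a₀| := by
    have h4 := abs_sub (r a₀ + ∑ a ∈ Q, r a * ker6_m N Q ω a a₀)
      (∑ a ∈ Q, r a * ker6_m N Q ω a a₀)
    rw [add_sub_cancel_right] at h4
    exact h4
  intro a ha
  have h5 := hmax a ha
  linarith

private theorem ker6_dl {Q : Finset ℕ} (r : ℕ → ℝ) {b : ℕ} (hb : b ∈ Q) :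
    ∑ a ∈ Q, r a * dl a b = r b := by
  rw [sum_eq_single b]
  · unfold dl
    rw [if_pos rfl, mul_one]
  · intro a _ hab
    unfold dl
    rw [if_neg hab, mul_zero]
  · intro h
    exact absurd hb h

private theorem ker6_solve {N : ℕ} {Q : Finset ℕ} (h : KH N Q) {ω : ℝ} (hω : |ω - 1| ≤ 1 / 100)
    (τ : ℕ → ℝ) : ∃ r : ℕ → ℝ, ∀ b ∈ Q, r b + ∑ a ∈ Q, r a * ker6_m N Q ω a b = τ b := by
  classical
  let T : (Q → ℝ) →ₗ[ℝ] (Q → ℝ) :=
    { toFun := fun r b => r b + ∑ a : Q, r a * ker6_m N Q ω a b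
      map_add' := by
        intro r r'
        funext b
        change (r b + r' b) + ∑ a : Q, (r a + r' a) * ker6_m N Q ω a b =
          (r b + ∑ a : Q, r a * ker6_m N Q ω a b) + (r' b + ∑ a : Q, r' a * ker6_m N Q ω a b)
        simp only [add_mul, sum_add_distrib]
        ring
      map_smul' := by
        intro c r
        funext b
        change c * r b + ∑ a : Q, (c * r a) * ker6_m N Q ω a b =
          c * (r b + ∑ a : Q, r a * ker6_m N Q ω a b)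
        rw [mul_add, mul_sum]
        simp only [mul_assoc] }
  have hT : ∀ (r : Q → ℝ) (b : Q), T r b = r b + ∑ a : Q, r a * ker6_m N Q ω a b :=
    fun _ _ => rfl
  -- extension by zero
  have hext : ∀ r : Q → ℝ, ∃ s : ℕ → ℝ, (∀ a : Q, s a = r a) ∧
      ∀ b : ℕ, ∑ a ∈ Q, s a * ker6_m N Q ω a b = ∑ a : Q, r a * ker6_m N Q ω a b := by
    intro r
    refine ⟨fun a => if ha : a ∈ Q then r ⟨a, ha⟩ else 0, fun a => ?_, fun b => ?_⟩
    · exact dif_pos a.2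
    · rw [← sum_coe_sort Q]
      refine sum_congr rfl fun a _ => ?_
      change (if ha : (a : ℕ) ∈ Q then r ⟨a, ha⟩ else 0) * _ = _
      rw [dif_pos a.2]
  have hinj : Function.Injective T := by
    rw [← LinearMap.ker_eq_bot, LinearMap.ker_eq_bot']
    intro r hr
    obtain ⟨s, hs, hs'⟩ := hext r
    have h1 := ker6_max h hω s 0 (by
      intro b hb
      have h2 := congrFun hr ⟨b, hb⟩
      rw [hT, ← hs' b] at h2
      have h3 := hs ⟨b, hb⟩
      change s b = r ⟨b, hb⟩ at h3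
      rw [h3, h2]
      exact abs_zero.le)
    funext a
    have h4 := h1 a a.2
    rw [mul_zero] at h4
    have h5 := abs_eq_zero.1 (le_antisymm h4 (abs_nonneg _))
    rw [hs a] at h5
    exact h5
  have hsur : Function.Surjective T := LinearMap.injective_iff_surjective.1 hinj
  obtain ⟨r, hr⟩ := hsur fun b => τ b
  obtain ⟨s, hs, hs'⟩ := hext r
  refine ⟨s, fun b hb => ?_⟩
  have h2 := congrFun hr ⟨b, hb⟩
  rw [hT, ← hs' b] at h2
  have h3 := hs ⟨b, hb⟩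
  change s b = r ⟨b, hb⟩ at h3
  rw [h3]
  exact h2

private theorem ker6_J_sum {N : ℕ} {Q : Finset ℕ} (h : KH N Q) {ω : ℝ} (hω : |ω - 1| ≤ 1 / 100)
    (p : ℕ × ℕ) : ∑ a ∈ Q, |ker6_J N Q ω a p| ≤ (10 ^ 13 / 2) / N := by
  have hN := ker6_N h
  have hω' := abs_le.1 hω
  have hω0 : 0 < ω := by linarith
  have hR := Jref_le h (ω := ω) (by linarith) (by linarith) p
  have h1 := Jup_sum h (ω := ω) (by linarith) p
  have h2 := Jlow_sum h (ω := ω) (by linarith) (by linarith) p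
  have hsplit := sum_filter_add_sum_filter_not Q (fun a => 9 * N ≤ 20 * a)
    (fun a => |ker6_J N Q ω a p|)
  have hcard := card_filter_add_card_filter_not (s := Q) (fun a => 9 * N ≤ 20 * a)
  have hA : ∑ a ∈ Q.filter (fun a => 9 * N ≤ 20 * a), |ker6_J N Q ω a p| ≤
      10 ^ 8 / N + (Q.filter (fun a => 9 * N ≤ 20 * a)).card * (2 * (10 ^ 12 / (N : ℝ) ^ 2)) := by
    have h3 : ∀ a ∈ Q.filter (fun a => 9 * N ≤ 20 * a), |ker6_J N Q ω a p| ≤
        |Jup N Q ω a p| + 2 * (10 ^ 12 / (N : ℝ) ^ 2) := by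
      intro a ha
      have h4 : ker6_J N Q ω a p = Jup N Q ω a p + Jref N Q ω p := if_pos (mem_filter.1 ha).2
      rw [h4]
      have h5 := abs_add_le (Jup N Q ω a p) (Jref N Q ω p)
      have h6 := abs_nonneg (Jref N Q ω p)
      linarith
    refine (sum_le_sum h3).trans ?_
    rw [sum_add_distrib, sum_const, nsmul_eq_mul]
    exact add_le_add h1 le_rfl
  have hB : ∑ a ∈ Q.filter (fun a => ¬ 9 * N ≤ 20 * a), |ker6_J N Q ω a p| ≤
      10 ^ 10 / N +
        (Q.filter (fun a => ¬ 9 * N ≤ 20 * a)).card * (2 * (10 ^ 12 / (N : ℝ) ^ 2)) := by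
    have h3 : ∀ a ∈ Q.filter (fun a => ¬ 9 * N ≤ 20 * a), |ker6_J N Q ω a p| ≤
        |Jlow N Q ω a p| + 2 * (10 ^ 12 / (N : ℝ) ^ 2) := by
      intro a ha
      have h4 : ker6_J N Q ω a p = Jlow N Q ω a p - ω * Jref N Q ω p :=
        if_neg (mem_filter.1 ha).2
      rw [h4]
      have h5 := abs_sub (Jlow N Q ω a p) (ω * Jref N Q ω p)
      have h6 : |ω * Jref N Q ω p| ≤ 2 * (10 ^ 12 / (N : ℝ) ^ 2) := by
        rw [abs_mul, abs_of_pos hω0]
        exact mul_le_mul (by linarith) hR (abs_nonneg _) (by norm_num)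
      linarith
    refine (sum_le_sum h3).trans ?_
    rw [sum_add_distrib, sum_const, nsmul_eq_mul]
    have hLo : Q.filter (fun a => ¬ 9 * N ≤ 20 * a) = Lo N Q :=
      filter_congr fun a _ => not_le
    refine add_le_add ?_ le_rfl
    rw [hLo]
    exact h2
  have hC : ((Q.filter (fun a => 9 * N ≤ 20 * a)).card : ℝ) +
      (Q.filter (fun a => ¬ 9 * N ≤ 20 * a)).card ≤ N := by
    have h3 := ker6_card h
    rw [← hcard] at h3
    push_cast at h3
    exact h3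
  have hD : (((Q.filter (fun a => 9 * N ≤ 20 * a)).card : ℝ) +
      (Q.filter (fun a => ¬ 9 * N ≤ 20 * a)).card) * (2 * (10 ^ 12 / (N : ℝ) ^ 2)) ≤
      N * (2 * (10 ^ 12 / (N : ℝ) ^ 2)) := mul_le_mul_of_nonneg_right hC (by positivity)
  have hE : (N : ℝ) * (2 * (10 ^ 12 / (N : ℝ) ^ 2)) = (2 * 10 ^ 12) / N := by
    field_simp
  have hF : (10 ^ 8 : ℝ) / N + 10 ^ 10 / N + (2 * 10 ^ 12) / N ≤ (10 ^ 13 / 2) / N := by
    rw [← add_div, ← add_div]
    exact div_le_div_of_nonneg_right (by norm_num) hN.le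
  rw [← hsplit]
  rw [hE] at hD
  linarith

theorem solve {N : ℕ} {Q : Finset ℕ} (h : KH N Q) {ω : ℝ} (hω : |ω - 1| ≤ 1 / 100) (τ : ℕ → ℝ) (t : ℝ)
    (ht : ∀ a ∈ Q, |τ a| ≤ t) :
    ∃ k₁ : ℕ × ℕ → ℝ, (∀ p, k₁ p ≠ 0 → p ∈ prs N Q ∧ N ≤ 3 * p.1) ∧
      (∀ a ∈ Q, ld N Q ω k₁ a = τ a) ∧ ∀ p, |k₁ p| ≤ 10 ^ 13 * t / N := by
  have hN := ker6_N h
  have hω' := abs_le.1 hω
  have hω0 : 0 < ω := by linarith
  obtain ⟨r, hr⟩ := ker6_solve h hω τ
  have hrt := ker6_max h hω r t fun b hb => by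
    rw [hr b hb]
    exact ht b hb
  have ht0 : 0 ≤ t := by
    obtain ⟨a, ha⟩ := ker6_ne h
    exact (abs_nonneg _).trans (ht a ha)
  refine ⟨fun p => ∑ a ∈ Q, r a * ker6_J N Q ω a p, fun p hp => ?_, fun b hb => ?_, fun p => ?_⟩
  · obtain ⟨a, ha, hne⟩ := exists_ne_zero_of_sum_ne_zero hp
    have h1 : ker6_J N Q ω a p ≠ 0 := right_ne_zero_of_mul hne
    by_cases h2 : 9 * N ≤ 20 * a
    · have h3 : ker6_J N Q ω a p = Jup N Q ω a p + Jref N Q ω p := if_pos h2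
      by_cases h4 : Jref N Q ω p = 0
      · rw [h3, h4, add_zero] at h1
        exact Jup_supp h (ker6_hi ha h2) h1
      · exact Jref_supp h h4
    · have h3 : ker6_J N Q ω a p = Jlow N Q ω a p - ω * Jref N Q ω p := if_neg h2
      by_cases h4 : Jref N Q ω p = 0
      · rw [h3, h4, mul_zero, sub_zero] at h1
        exact Jlow_supp h (ker6_lo ha h2) h1
      · exact Jref_supp h h4
  · rw [ld_sum Q N Q ω (fun a p => r a * ker6_J N Q ω a p) b]
    have h1 : ∀ a ∈ Q, ld N Q ω (fun p => r a * ker6_J N Q ω a p) b =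
        r a * dl a b + r a * ker6_m N Q ω a b := by
      intro a ha
      rw [ld_smul N Q ω (r a) (ker6_J N Q ω a) b, ker6_ld_J h hω0 ha, mul_add]
    rw [sum_congr rfl h1, sum_add_distrib, ker6_dl r hb]
    exact hr b hb
  · have h1 : |∑ a ∈ Q, r a * ker6_J N Q ω a p| ≤ ∑ a ∈ Q, 2 * t * |ker6_J N Q ω a p| := by
      refine (abs_sum_le_sum_abs _ _).trans (sum_le_sum fun a ha => ?_)
      rw [abs_mul]
      exact mul_le_mul_of_nonneg_right (hrt a ha) (abs_nonneg _)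
    refine h1.trans ?_
    rw [← mul_sum]
    calc 2 * t * ∑ a ∈ Q, |ker6_J N Q ω a p| ≤ 2 * t * ((10 ^ 13 / 2) / N) :=
          mul_le_mul_of_nonneg_left (ker6_J_sum h hω p) (by positivity)
      _ = 10 ^ 13 * t / N := by ring

end SSB
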