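import Pool.Agent.Lib.MP_8a819d_co.BD.Defs

/-!
# MP_8a819d_co: late vertices, 1. The reserve and the selection of a label

The reserve `rsv Δ q ζ N`: the labels `x ≤ N`, `x > ζ N`, divisible by one of the odd primes
`q 0, ..., q Δ`.

JOB Lt1a: `primes_exist`, `rsv_card`. Primes: there are infinitely many primes; choose `Δ + 1` distinct
ones larger than `2 + (Δ + 1) / β` (e.g. `q k = Nat.nth Nat.Prime (k + m)` for large `m`; `Nat.nth` is
strictly increasing, so `Nat.nth Nat.Prime j ≥ j`). The number of multiples of `q` in `[1, N]` is `N / q`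
(`Nat.card_multiples` or an injection).

JOB Lt1b: `select`. Let `Π = 2 ∏ k ≤ Δ, q k`. Enumerate `Y` as `y_1, ..., y_d`, `d ≤ Δ`. By the Chinese
remainder theorem (`Nat.chineseRemainderOfFinset`) there is `r < Π` with `r ≡ 0 mod q 0`,
`r ≡ y_i mod q i`, `r ≡ b mod 2`. The candidates are `a = r + i Π`, `i < m = ⌊N / Π⌋`, all at most `N`.
Every candidate has `q 0 ∣ a`, `q i ∣ dd a y_i`, `a ≡ b mod 2`. Bad candidates:
`a ≤ ζ N`: at most `ζ N / Π + 1`; `dd a y ≤ ζ N`: at most `2 ζ N / Π + 1` for each `y ∈ Y`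
(integers of one residue class in an interval of length `2 ζ N`); `a ∈ F`: at most `|F|`; `dd a y ∈ F`: at
most `2 |F|` for each `y`; `dd a y = a` (then `y = 2 a`, as `y ≥ 1`): at most one for each `y`;
`dd a y = dd a y'` with `y ≠ y'` (then `2 a = y + y'`): at most one for each pair. Total at most
`(2Δ+1) ζ N / Π + (Δ+1) + (2Δ+1) l N + Δ + Δ^2`, with `(2Δ+1) ζ ≤ 1/8` and `l = 1 / (8 Π (2Δ+1))`: at most
`N / (4 Π) + 2Δ + 1 + Δ^2 < N / Π - 1` for `N ≥ N₀`. A candidate which is not bad works: `dd a y > ζ N > 0`,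
`dd a y ≤ N`, etc.
-/

set_option autoImplicit false

namespace SSB

open Finset

open Classical in
/-- the reserve -/
noncomputable def rsv (Δ : ℕ) (q : ℕ → ℕ) (ζ : ℝ) (N : ℕ) : Finset ℕ :=
  (Icc 1 N).filter (fun x => ζ * N < x ∧ ∃ k ≤ Δ, q k ∣ x)

/-- distinct odd primes with small sum of inverses -/
structure PrOK (Δ : ℕ) (q : ℕ → ℕ) (β : ℝ) : Prop where
  prime : ∀ k ≤ Δ, (q k).Prime
  odd : ∀ k ≤ Δ, q k ≠ 2
  inj : ∀ k ≤ Δ, ∀ j ≤ Δ, q k = q j → k = j
  sum : ∑ k ∈ range (Δ + 1), 1 / (q k : ℝ) ≤ β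

theorem primes_exist (Δ : ℕ) (β : ℝ) (hβ : 0 < β) : ∃ q : ℕ → ℕ, PrOK Δ q β := by
  have hmono : StrictMono (Nat.nth Nat.Prime) := Nat.nth_strictMono Nat.infinite_setOfPred_prime
  obtain ⟨m, hm⟩ := exists_nat_ge (((Δ : ℝ) + 1) / β)
  have hge : ∀ k, m + 3 ≤ Nat.nth Nat.Prime (k + (m + 3)) := fun k =>
    (Nat.le_add_left (m + 3) k).trans (hmono.le_apply (x := k + (m + 3)))
  refine ⟨fun k => Nat.nth Nat.Prime (k + (m + 3)), ⟨fun k _ => Nat.prime_nth_prime _,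
    fun k _ h => ?_, fun k _ j _ h => ?_, ?_⟩⟩
  · have h1 := hge k
    omega
  · have h1 := hmono.injective h
    omega
  · have h1 : ∀ k ∈ range (Δ + 1),
        1 / ((Nat.nth Nat.Prime (k + (m + 3)) : ℕ) : ℝ) ≤ 1 / ((m : ℝ) + 3) := by
      intro k _
      refine one_div_le_one_div_of_le (by positivity) ?_
      exact_mod_cast hge k
    refine (Finset.sum_le_sum h1).trans ?_
    rw [Finset.sum_const, Finset.card_range, nsmul_eq_mul, mul_one_div, div_le_iff₀ (by positivity)]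
    rw [div_le_iff₀ hβ] at hm
    push_cast
    nlinarith

theorem rsv_card {Δ : ℕ} {q : ℕ → ℕ} {β : ℝ} (h : PrOK Δ q β) (ζ : ℝ) (N : ℕ) :
    ((rsv Δ q ζ N).card : ℝ) ≤ β * N := by
  classical
  have h1 : rsv Δ q ζ N ⊆ (range (Δ + 1)).biUnion fun k => (Ioc 0 N).filter fun x => q k ∣ x := by
    intro x hx
    rw [rsv, Finset.mem_filter, Finset.mem_Icc] at hx
    obtain ⟨⟨h2, h3⟩, _, k, hk, h4⟩ := hx
    rw [Finset.mem_biUnion]
    exact ⟨k, Finset.mem_range.2 (Nat.lt_succ_of_le hk),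
      Finset.mem_filter.2 ⟨Finset.mem_Ioc.2 ⟨h2, h3⟩, h4⟩⟩
  have h2 : (rsv Δ q ζ N).card ≤ ∑ k ∈ range (Δ + 1), N / q k := by
    refine (Finset.card_le_card h1).trans (Finset.card_biUnion_le.trans ?_)
    exact le_of_eq (Finset.sum_congr rfl fun k _ => Nat.Ioc_filter_dvd_card_eq_div N (q k))
  have h3 : ((∑ k ∈ range (Δ + 1), N / q k : ℕ) : ℝ) ≤
      (∑ k ∈ range (Δ + 1), 1 / (q k : ℝ)) * N := by
    rw [Nat.cast_sum, Finset.sum_mul]
    refine Finset.sum_le_sum fun k _ => ?_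
    refine Nat.cast_div_le.trans (le_of_eq ?_)
    ring
  calc ((rsv Δ q ζ N).card : ℝ) ≤ ((∑ k ∈ range (Δ + 1), N / q k : ℕ) : ℝ) := by exact_mod_cast h2
    _ ≤ _ := h3
    _ ≤ β * N := mul_le_mul_of_nonneg_right h.sum (Nat.cast_nonneg N)

/-- the selection property -/
def Sel (Δ N : ℕ) (R : Finset ℕ) (l : ℝ) : Prop :=
  ∀ (Y F : Finset ℕ) (b : ℕ), Y ⊆ Icc 1 N → Y.card ≤ Δ → (F.card : ℝ) ≤ l * N →
    ∃ a ∈ R, a % 2 = b % 2 ∧ a ∉ F ∧ (∀ y ∈ Y, dd a y ∈ R ∧ dd a y ∉ F ∧ dd a y ≠ a) ∧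
      ∀ y ∈ Y, ∀ y' ∈ Y, y ≠ y' → dd a y ≠ dd a y'

private theorem lt1b_card (S : Finset ℕ) (L : ℝ) (hL : 0 ≤ L)
    (h : ∀ i ∈ S, ∀ j ∈ S, (j : ℝ) - i ≤ L) : (S.card : ℝ) ≤ L + 1 := by
  rcases S.eq_empty_or_nonempty with rfl | hne
  · rw [card_empty, Nat.cast_zero]
    linarith
  · have h1 : S ⊆ Icc (S.min' hne) (S.max' hne) := by
      intro x hx
      exact mem_Icc.2 ⟨S.min'_le x hx, S.le_max' x hx⟩
    have h2 := card_le_card h1
    rw [Nat.card_Icc] at h2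
    have h3 : S.min' hne ≤ S.max' hne := S.min'_le_max' hne
    have h4 : S.card + S.min' hne ≤ S.max' hne + 1 := by omega
    have h5 : ((S.card + S.min' hne : ℕ) : ℝ) ≤ ((S.max' hne + 1 : ℕ) : ℝ) := by
      exact_mod_cast h4
    push_cast at h5
    have h6 := h _ (S.min'_mem hne) _ (S.max'_mem hne)
    linarith

private theorem lt1b_crt (Δ : ℕ) (q : ℕ → ℕ) (hp : ∀ k ≤ Δ, (q k).Prime)
    (ho : ∀ k ≤ Δ, q k ≠ 2) (hi : ∀ k ≤ Δ, ∀ j ≤ Δ, q k = q j → k = j)
    (Y : Finset ℕ) (hY : Y.card ≤ Δ) (b : ℕ) :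
    ∃ r : ℕ, r < ∏ i ∈ range (Δ + 2), (if i ≤ Δ then q i else 2) ∧ q 0 ∣ r ∧
      r ≡ b [MOD 2] ∧ ∀ y ∈ Y, ∃ k ≤ Δ, r ≡ y [MOD q k] := by
  let f : ℕ → ℕ := fun i => if h : i - 1 < Y.card then (Y.equivFin.symm ⟨i - 1, h⟩ : ℕ) else 0
  have hf : ∀ y ∈ Y, ∃ i, 1 ≤ i ∧ i ≤ Δ ∧ f i = y := by
    intro y hy
    have h1 : ((Y.equivFin ⟨y, hy⟩ : Fin Y.card) : ℕ) < Y.card := Fin.is_lt _
    refine ⟨(Y.equivFin ⟨y, hy⟩ : Fin Y.card) + 1, by omega, by omega, ?_⟩
    have h2 : ((Y.equivFin ⟨y, hy⟩ : Fin Y.card) : ℕ) + 1 - 1 < Y.card := by omega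
    show (if h : ((Y.equivFin ⟨y, hy⟩ : Fin Y.card) : ℕ) + 1 - 1 < Y.card then
      (Y.equivFin.symm ⟨((Y.equivFin ⟨y, hy⟩ : Fin Y.card) : ℕ) + 1 - 1, h⟩ : ℕ) else 0) = y
    rw [dif_pos h2]
    have h3 : (⟨((Y.equivFin ⟨y, hy⟩ : Fin Y.card) : ℕ) + 1 - 1, h2⟩ : Fin Y.card) =
        Y.equivFin ⟨y, hy⟩ := Fin.ext (by simp)
    rw [h3, Equiv.symm_apply_apply]
  let s : ℕ → ℕ := fun i => if i ≤ Δ then q i else 2
  let a : ℕ → ℕ := fun i => if i = 0 then 0 else if i ≤ Δ then f i else b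
  have hs : ∀ i ∈ range (Δ + 2), s i ≠ 0 := by
    intro i _
    show (if i ≤ Δ then q i else 2) ≠ 0
    split_ifs with h
    · exact (hp i h).ne_zero
    · exact two_ne_zero
  have hco : ∀ i ≤ Δ, Nat.Coprime (q i) 2 := fun i h =>
    (Nat.coprime_primes (hp i h) Nat.prime_two).2 (ho i h)
  have pp : Set.Pairwise (range (Δ + 2) : Set ℕ) (Function.onFun Nat.Coprime s) := by
    intro i h1 j h2 hij
    have h1' := mem_range.1 (mem_coe.1 h1)
    have h2' := mem_range.1 (mem_coe.1 h2)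
    show Nat.Coprime (if i ≤ Δ then q i else 2) (if j ≤ Δ then q j else 2)
    split_ifs with h3 h4 h4
    · exact (Nat.coprime_primes (hp i h3) (hp j h4)).2 fun h => hij (hi i h3 j h4 h)
    · exact hco i h3
    · exact (hco j h4).symm
    · omega
  have hr := (Nat.chineseRemainderOfFinset a s (range (Δ + 2)) hs pp).2
  have hlt := Nat.chineseRemainderOfFinset_lt_prod a s hs pp
  refine ⟨(Nat.chineseRemainderOfFinset a s (range (Δ + 2)) hs pp : ℕ), hlt, ?_, ?_, ?_⟩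
  · have h1 := hr 0 (mem_range.2 (by omega))
    have h2 : s 0 = q 0 := if_pos (Nat.zero_le _)
    have h3 : a 0 = 0 := if_pos rfl
    rw [h2, h3] at h1
    exact (Nat.modEq_zero_iff_dvd).1 h1
  · have h1 := hr (Δ + 1) (mem_range.2 (by omega))
    have h2 : s (Δ + 1) = 2 := if_neg (by omega)
    have h3 : a (Δ + 1) = b := by
      show (if Δ + 1 = 0 then 0 else if Δ + 1 ≤ Δ then f (Δ + 1) else b) = b
      rw [if_neg (by omega), if_neg (by omega)]
    rw [h2, h3] at h1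
    exact h1
  · intro y hy
    obtain ⟨i, hi1, hi2, hi3⟩ := hf y hy
    have h1 := hr i (mem_range.2 (by omega))
    have h2 : s i = q i := if_pos hi2
    have h3 : a i = y := by
      show (if i = 0 then 0 else if i ≤ Δ then f i else b) = y
      rw [if_neg (by omega), if_pos hi2]
      exact hi3
    rw [h2, h3] at h1
    exact ⟨i, hi2, h1⟩

private theorem lt1b_dvd {a y n : ℕ} (h : a ≡ y [MOD n]) : n ∣ dd a y := by
  rw [dd_natAbs, ← Int.natCast_dvd]
  exact Nat.modEq_iff_dvd.1 h.symm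

theorem select {Δ : ℕ} {q : ℕ → ℕ} {β : ℝ} (h : PrOK Δ q β) {ζ : ℝ} (hζ : 0 < ζ)
    (hζ1 : ζ * (16 * (Δ + 1)) ≤ 1) : ∃ l : ℝ, 0 < l ∧ ∃ N₀ : ℕ, ∀ N : ℕ, N₀ ≤ N →
      Sel Δ N (rsv Δ q ζ N) l := by
  classical
  set PP : ℕ := ∏ i ∈ range (Δ + 2), (if i ≤ Δ then q i else 2) with hPP
  have hs : ∀ i, 0 < (if i ≤ Δ then q i else 2) := by
    intro i
    split_ifs with hi
    · exact (h.prime i hi).pos
    · exact two_pos
  have hPP0 : 0 < PP := Finset.prod_pos fun i _ => hs i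
  have hPPr : (0 : ℝ) < PP := by exact_mod_cast hPP0
  have hPPq : ∀ k ≤ Δ, q k ∣ PP := by
    intro k hk
    have h1 := Finset.dvd_prod_of_mem (fun i => if i ≤ Δ then q i else 2)
      (mem_range.2 (by omega : k < Δ + 2))
    have h2 : (if k ≤ Δ then q k else 2) = q k := if_pos hk
    rw [← h2]
    exact h1
  have hPP2 : 2 ∣ PP := by
    have h1 := Finset.dvd_prod_of_mem (fun i => if i ≤ Δ then q i else 2)
      (mem_range.2 (by omega : Δ + 1 < Δ + 2))
    have h2 : (if Δ + 1 ≤ Δ then q (Δ + 1) else 2) = 2 := if_neg (by omega)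
    have h3 : (if Δ + 1 ≤ Δ then q (Δ + 1) else 2) ∣ PP := h1
    rw [h2] at h3
    exact h3
  refine ⟨1 / (8 * PP * (2 * Δ + 1)), by positivity, 2 * PP * (Δ + 2) ^ 2, fun N hN => ?_⟩
  intro Y F b hY hYc hF
  obtain ⟨r, hr, hr0, hr2, hry⟩ := lt1b_crt Δ q h.prime h.odd h.inj Y hYc b
  rw [← hPP] at hr
  have hζN : 0 ≤ ζ * N := by positivity
  set m : ℕ := N / PP with hm
  let c : ℕ → ℕ := fun i => r + i * PP
  have hcinj : ∀ i j, c i = c j → i = j := by
    intro i j hij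
    have h1 : i * PP = j * PP := by
      have h2 : r + i * PP = r + j * PP := hij
      omega
    exact Nat.eq_of_mul_eq_mul_right hPP0 h1
  have hcr : ∀ i, (c i : ℝ) = r + i * PP := by
    intro i
    show ((r + i * PP : ℕ) : ℝ) = _
    push_cast
    rfl
  have hcN : ∀ i < m, c i ≤ N := by
    intro i hi
    have h1 : (i + 1) * PP ≤ m * PP := Nat.mul_le_mul_right _ hi
    have h2 : m * PP ≤ N := Nat.div_mul_le_self N PP
    have h3 : (i + 1) * PP = i * PP + PP := by ring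
    show r + i * PP ≤ N
    omega
  have hcmod : ∀ i n, n ∣ PP → c i ≡ r [MOD n] := by
    intro i n hn
    have h1 : n ∣ i * PP := hn.mul_left i
    show r + i * PP ≡ r [MOD n]
    have h2 : r + i * PP ≡ r + 0 [MOD n] := Nat.ModEq.add_left r ((Nat.modEq_zero_iff_dvd).2 h1)
    rw [add_zero] at h2
    exact h2
  -- the bad sets
  let B0 : Finset ℕ := (range m).filter fun i => (c i : ℝ) ≤ ζ * N
  let B1 : ℕ → Finset ℕ := fun y => (range m).filter fun i => (dd (c i) y : ℝ) ≤ ζ * N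
  let B2 : Finset ℕ := (range m).filter fun i => c i ∈ F
  let B3 : ℕ → Finset ℕ := fun y => (range m).filter fun i => dd (c i) y ∈ F
  let B4 : ℕ → Finset ℕ := fun y => (range m).filter fun i => dd (c i) y = c i
  let B5 : ℕ × ℕ → Finset ℕ := fun p => (range m).filter fun i =>
    p.1 ≠ p.2 ∧ dd (c i) p.1 = dd (c i) p.2
  have hB0 : (B0.card : ℝ) ≤ ζ * N / PP + 1 := by
    apply lt1b_card
    · positivity
    · intro i hi j hj
      have h1 : (c j : ℝ) ≤ ζ * N := (mem_filter.1 hj).2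
      rw [hcr] at h1
      rw [le_div_iff₀ hPPr]
      have h2 : (0 : ℝ) ≤ r := Nat.cast_nonneg r
      have h3 : (0 : ℝ) ≤ i * PP := by positivity
      linarith
  have hB1 : ∀ y, ((B1 y).card : ℝ) ≤ 2 * (ζ * N / PP) + 1 := by
    intro y
    apply lt1b_card
    · positivity
    · intro i hi j hj
      have h1 : (dd (c i) y : ℝ) ≤ ζ * N := (mem_filter.1 hi).2
      have h2 : (dd (c j) y : ℝ) ≤ ζ * N := (mem_filter.1 hj).2
      have h3 : c j ≤ c i + dd (c i) y + dd (c j) y := by unfold dd; omega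
      have h4 : (c j : ℝ) ≤ c i + dd (c i) y + dd (c j) y := by exact_mod_cast h3
      rw [hcr, hcr] at h4
      have h5 : ((j : ℝ) - i) * PP ≤ 2 * (ζ * N) := by linarith
      have h6 : 2 * (ζ * N / PP) = 2 * (ζ * N) / PP := by ring
      rw [h6, le_div_iff₀ hPPr]
      exact h5
  have hB2 : B2.card ≤ F.card := by
    apply card_le_card_of_injOn c
    · intro i hi
      exact (mem_filter.1 hi).2
    · intro i _ j _ hij
      exact hcinj i j hij
  have hB3 : ∀ y, (B3 y).card ≤ 2 * F.card := by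
    intro y
    have h1 : (B3 y).card ≤ (F ×ˢ (univ : Finset Bool)).card := by
      apply card_le_card_of_injOn fun i => (dd (c i) y, decide (c i ≤ y))
      · intro i hi
        exact mem_product.2 ⟨(mem_filter.1 hi).2, mem_univ _⟩
      · intro i _ j _ hij
        apply hcinj
        have h2 : dd (c i) y = dd (c j) y := congrArg Prod.fst hij
        have h3 : decide (c i ≤ y) = decide (c j ≤ y) := congrArg Prod.snd hij
        have h4 : c i ≤ y ↔ c j ≤ y := decide_eq_decide.1 h3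
        unfold dd at h2
        by_cases h5 : c i ≤ y
        · have h6 := h4.1 h5
          omega
        · have h6 : ¬ c j ≤ y := fun h => h5 (h4.2 h)
          omega
    rw [card_product, card_univ, Fintype.card_bool] at h1
    omega
  have hB4 : ∀ y ∈ Y, (B4 y).card ≤ 1 := by
    intro y hy
    have hy1 : 1 ≤ y := (mem_Icc.1 (hY hy)).1
    rw [card_le_one]
    intro i hi j hj
    apply hcinj
    have h1 : dd (c i) y = c i := (mem_filter.1 hi).2
    have h2 : dd (c j) y = c j := (mem_filter.1 hj).2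
    unfold dd at h1 h2
    omega
  have hB5 : ∀ p, (B5 p).card ≤ 1 := by
    intro p
    rw [card_le_one]
    intro i hi j hj
    apply hcinj
    obtain ⟨h0, h1⟩ := (mem_filter.1 hi).2
    have h2 := (mem_filter.1 hj).2.2
    unfold dd at h1 h2
    omega
  -- counting
  have hgood : ∃ i ∈ range m, i ∉ B0 ∪ B2 ∪ Y.biUnion (fun y => B1 y ∪ B3 y ∪ B4 y) ∪
      (Y ×ˢ Y).biUnion B5 := by
    by_contra hcon
    push Not at hcon
    have h1 := card_le_card (show range m ⊆ _ from hcon)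
    rw [card_range] at h1
    have h2 : (Y.biUnion (fun y => B1 y ∪ B3 y ∪ B4 y)).card ≤
        ∑ y ∈ Y, ((B1 y).card + 2 * F.card + 1) := by
      refine card_biUnion_le.trans (Finset.sum_le_sum fun y hy => ?_)
      have h3 := card_union_le (B1 y ∪ B3 y) (B4 y)
      have h4 := card_union_le (B1 y) (B3 y)
      have h5 := hB3 y
      have h6 := hB4 y hy
      omega
    have h3 : ((Y ×ˢ Y).biUnion B5).card ≤ Y.card * Y.card := by
      refine card_biUnion_le.trans ((Finset.sum_le_sum fun p _ => hB5 p).trans ?_)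
      rw [sum_const, card_product, smul_eq_mul, mul_one]
    have h4 : m ≤ B0.card + F.card + ∑ y ∈ Y, ((B1 y).card + 2 * F.card + 1) +
        Y.card * Y.card := by
      refine h1.trans ((card_union_le _ _).trans (Nat.add_le_add ?_ h3))
      refine (card_union_le _ _).trans (Nat.add_le_add ?_ h2)
      exact (card_union_le _ _).trans (Nat.add_le_add le_rfl hB2)
    have h5 : (m : ℝ) ≤ B0.card + F.card + ∑ y ∈ Y, (((B1 y).card : ℝ) + 2 * F.card + 1) +
        Y.card * Y.card := by exact_mod_cast h4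
    have h6 : ∑ y ∈ Y, (((B1 y).card : ℝ) + 2 * F.card + 1) ≤
        Y.card * (2 * (ζ * N / PP) + 1 + 2 * F.card + 1) := by
      rw [← nsmul_eq_mul]
      refine Finset.sum_le_card_nsmul _ _ _ fun y _ => ?_
      have h7 := hB1 y
      linarith
    have hYr : (Y.card : ℝ) ≤ Δ := by exact_mod_cast hYc
    have hY0 : (0 : ℝ) ≤ Y.card := Nat.cast_nonneg _
    have hF0 : (0 : ℝ) ≤ F.card := Nat.cast_nonneg _
    have hx : 0 ≤ ζ * N / PP := by positivity
    have h7 : (Y.card : ℝ) * (2 * (ζ * N / PP) + 1 + 2 * F.card + 1) ≤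
        Δ * (2 * (ζ * N / PP) + 1 + 2 * F.card + 1) :=
      mul_le_mul_of_nonneg_right hYr (by linarith)
    have h8 : (Y.card : ℝ) * Y.card ≤ Δ * Δ := mul_le_mul hYr hYr hY0 (by linarith)
    have h9 : (m : ℝ) ≤ (ζ * N / PP + 1) + F.card + Δ * (2 * (ζ * N / PP) + 1 + 2 * F.card + 1) +
        Δ * Δ := by linarith
    -- lower bound for m
    have h10 : N < (m + 1) * PP := by
      have h11 := Nat.lt_div_mul_add (a := N) hPP0
      have h12 : (m + 1) * PP = N / PP * PP + PP := by rw [hm]; ring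
      omega
    have h11 : (N : ℝ) / PP < m + 1 := by
      rw [div_lt_iff₀ hPPr]
      exact_mod_cast h10
    have hΔ0 : (0 : ℝ) ≤ Δ := Nat.cast_nonneg _
    -- the terms with ζ
    have h12 : (2 * Δ + 1) * (ζ * N / PP) ≤ N / PP / 8 := by
      have h13 : ζ * (2 * Δ + 1) ≤ 1 / 8 := by nlinarith
      have h14 : (2 * Δ + 1) * (ζ * N / PP) = (ζ * (2 * Δ + 1)) * (N / PP) := by ring
      have h15 : (0 : ℝ) ≤ N / PP := by positivity
      rw [h14]
      have h16 := mul_le_mul_of_nonneg_right h13 h15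
      linarith
    have h13 : (2 * Δ + 1) * (F.card : ℝ) ≤ N / PP / 8 := by
      have h14 : (0 : ℝ) < 2 * Δ + 1 := by positivity
      have h15 := mul_le_mul_of_nonneg_left hF h14.le
      have h16 : (2 * (Δ : ℝ) + 1) * (1 / (8 * PP * (2 * Δ + 1)) * N) = N / PP / 8 := by
        field_simp
      rw [h16] at h15
      exact h15
    have h14 : 2 * ((Δ : ℝ) + 2) ^ 2 ≤ N / PP := by
      rw [le_div_iff₀ hPPr]
      have h15 : ((2 * PP * (Δ + 2) ^ 2 : ℕ) : ℝ) ≤ N := by exact_mod_cast hN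
      push_cast at h15
      linarith
    nlinarith
  obtain ⟨i, him, hi⟩ := hgood
  simp only [mem_union, not_or, mem_biUnion, not_exists, not_and] at hi
  obtain ⟨⟨⟨hi0, hi2⟩, hi134⟩, hi5⟩ := hi
  have hiN := hcN i (mem_range.1 him)
  have ha : ζ * N < c i := by
    by_contra hcon
    exact hi0 (mem_filter.2 ⟨him, not_lt.1 hcon⟩)
  have ha1 : 1 ≤ c i := by
    have h1 : (0 : ℝ) < c i := lt_of_le_of_lt hζN ha
    exact_mod_cast h1
  have hq0 : q 0 ∣ c i := by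
    have h1 := hcmod i (q 0) (hPPq 0 (Nat.zero_le _))
    exact (Nat.modEq_zero_iff_dvd).1 (h1.trans ((Nat.modEq_zero_iff_dvd).2 hr0))
  refine ⟨c i, ?_, ?_, ?_, ?_, ?_⟩
  · exact mem_filter.2 ⟨mem_Icc.2 ⟨ha1, hiN⟩, ha, 0, Nat.zero_le _, hq0⟩
  · exact (hcmod i 2 hPP2).trans hr2
  · intro h1
    exact hi2 (mem_filter.2 ⟨him, h1⟩)
  · intro y hy
    obtain ⟨⟨h1, h3⟩, h4⟩ := hi134 y hy
    have hyN := (mem_Icc.1 (hY hy)).2
    have hd : ζ * N < dd (c i) y := by
      by_contra hcon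
      exact h1 (mem_filter.2 ⟨him, not_lt.1 hcon⟩)
    have hd1 : 1 ≤ dd (c i) y := by
      have h5 : (0 : ℝ) < dd (c i) y := lt_of_le_of_lt hζN hd
      exact_mod_cast h5
    have hd2 : dd (c i) y ≤ N := by unfold dd; omega
    obtain ⟨k, hk, hky⟩ := hry y hy
    refine ⟨mem_filter.2 ⟨mem_Icc.2 ⟨hd1, hd2⟩, hd, k, hk, ?_⟩, ?_, ?_⟩
    · exact lt1b_dvd ((hcmod i (q k) (hPPq k hk)).trans hky)
    · intro h5
      exact h3 (mem_filter.2 ⟨him, h5⟩)
    · intro h5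
      exact h4 (mem_filter.2 ⟨him, h5⟩)
  · intro y hy y' hy' hne h1
    exact hi5 (y, y') (mem_product.2 ⟨hy, hy'⟩) (mem_filter.2 ⟨him, hne, h1⟩)

end SSB
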