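import Pool.Agent.Lib.MP_8a819d_co.BD.Lt1

/-!
# MP_8a819d_co: late vertices, 2. Numbering one more vertex

JOB Lt2 (all of this file).

`wdeg_le`: the neighbours of `v` inside `W` are its children in `W` and its parent.

`ext1`: `F` = the labels of items of `W` which lie in `R`; `Y` = the labels `f u` of the neighbours
`u ∈ W` of `v` (children `c ∈ chs n par v`, `c ∈ W`, and `par v` if `v ≥ 1` and `par v ∈ W`); these are
distinct labels (`InjOn`), `|Y| = wdeg ≤ pdeg ≤ Δ`. Let `p = (∑ x ∈ items W, val x + ∑ y ∈ Y, y + b) % 2`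
and take `a` from the selection property with `a % 2 = p % 2`. Let `f' = Function.update f v a`. The items of
`insert v W` are those of `W` (same values, `v ∉ W`; an edge `inr c` of `W` has `c, par c ∈ W`), `inl v`
(value `a`), `inr v` if `1 ≤ v`, `par v ∈ W` (value `dd a (f (par v))`, note `par v < v` so `par v ≠ v`), and
`inr c` for the children `c ∈ W` of `v` (value `dd (f c) a = dd a (f c)`). The new values are distinct, in `R`,
not in `F`; they are not values of items of `W`, which are outside `R` or in `F`.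
Parity: the sum of the new values is `a + ∑ y ∈ Y, dd a y ≡ a (1 + |Y|) + ∑ y ∈ Y, y` (`dd a y ≡ a + y`), so if
`|Y|` is even the total is `≡ ∑ items W + a + ∑ Y`, which is `≡ b` mod 2.
-/

set_option autoImplicit false

namespace SSB

open Finset

/-- the number of neighbours of `v` inside `W` -/
def wdeg (n : ℕ) (par : ℕ → ℕ) (W : Finset ℕ) (v : ℕ) : ℕ :=
  ((chs n par v).filter (· ∈ W)).card + (if 1 ≤ v ∧ par v ∈ W then 1 else 0)

theorem wdeg_le {n : ℕ} {par : ℕ → ℕ} {W : Finset ℕ} {v : ℕ} : wdeg n par W v ≤ pdeg n par v := by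
  unfold wdeg pdeg
  refine Nat.add_le_add (card_filter_le _ _) ?_
  split_ifs with h1 h2
  · omega
  · exact le_rfl
  · exact le_rfl
  · exact Nat.zero_le _

private theorem lt2_main {n : ℕ} {par : ℕ → ℕ} (hpar : IsPar n par) {W : Finset ℕ}
    (hW : W ⊆ range n) {v : ℕ} (hv : v < n) (hvW : v ∉ W) :
    ∃ (Nb : Finset ℕ) (e : ℕ → ℕ ⊕ ℕ), Nb ⊆ W ∧ Nb.card = wdeg n par W v ∧
      (∀ u ∈ Nb, ∀ u' ∈ Nb, e u = e u' → u = u') ∧ (∀ u ∈ Nb, ∃ i, e u = Sum.inr i) ∧
      items par (insert v W) = items par W ∪ insert (Sum.inl v) (Nb.image e) ∧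
      (∀ u ∈ Nb, e u ∉ items par W) ∧
      ∀ f f' : ℕ → ℕ, (∀ i ∈ W, f' i = f i) → ∀ u ∈ Nb,
        val par f' (e u) = dd (f' v) (f u) := by
  let Pn : Finset ℕ := if 1 ≤ v ∧ par v ∈ W then {par v} else ∅
  let Cn : Finset ℕ := (chs n par v).filter (· ∈ W)
  have hCn : ∀ u, u ∈ Cn ↔ (u < n ∧ 1 ≤ u ∧ par u = v) ∧ u ∈ W := by
    intro u
    change u ∈ (chs n par v).filter (· ∈ W) ↔ _
    rw [mem_filter, mem_chs]
  have hPn : ∀ u, u ∈ Pn ↔ (1 ≤ v ∧ par v ∈ W) ∧ u = par v := by
    intro u
    change u ∈ (if 1 ≤ v ∧ par v ∈ W then ({par v} : Finset ℕ) else ∅) ↔ _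
    split_ifs with h
    · rw [mem_singleton]
      exact ⟨fun h' => ⟨h, h'⟩, fun h' => h'.2⟩
    · exact ⟨fun h' => absurd h' (notMem_empty _), fun h' => absurd h'.1 h⟩
  have hClt : ∀ u, u ∈ Cn → v < u := by
    intro u hu
    obtain ⟨⟨h1, h2, h3⟩, -⟩ := (hCn u).1 hu
    have := hpar u h2 h1
    omega
  have hPlt : ∀ u, u ∈ Pn → u < v := by
    intro u hu
    obtain ⟨⟨h1, -⟩, h2⟩ := (hPn u).1 hu
    have := hpar v h1 hv
    omega
  let e : ℕ → ℕ ⊕ ℕ := fun u => if u < v then Sum.inr v else Sum.inr u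
  have heP : ∀ u, u ∈ Pn → e u = Sum.inr v := by
    intro u hu
    change (if u < v then (Sum.inr v : ℕ ⊕ ℕ) else Sum.inr u) = _
    rw [if_pos (hPlt u hu)]
  have heC : ∀ u, u ∈ Cn → e u = Sum.inr u := by
    intro u hu
    have := hClt u hu
    change (if u < v then (Sum.inr v : ℕ ⊕ ℕ) else Sum.inr u) = _
    rw [if_neg (by omega)]
  refine ⟨Cn ∪ Pn, e, ?_, ?_, ?_, ?_, ?_, ?_, ?_⟩
  · intro u hu
    rcases mem_union.1 hu with hu | hu
    · exact ((hCn u).1 hu).2
    · obtain ⟨⟨-, h1⟩, h2⟩ := (hPn u).1 hu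
      rw [h2]
      exact h1
  · rw [card_union_of_disjoint]
    · unfold wdeg
      congr 1
      change (if 1 ≤ v ∧ par v ∈ W then ({par v} : Finset ℕ) else ∅).card = _
      split_ifs with h
      · exact card_singleton _
      · exact card_empty
    · rw [disjoint_left]
      intro u h1 h2
      have := hClt u h1
      have := hPlt u h2
      omega
  · intro u hu u' hu' h
    rcases mem_union.1 hu with hu | hu <;> rcases mem_union.1 hu' with hu' | hu'
    · rw [heC u hu, heC u' hu'] at h
      exact Sum.inr.inj h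
    · rw [heC u hu, heP u' hu'] at h
      have := Sum.inr.inj h
      have := hClt u hu
      omega
    · rw [heP u hu, heC u' hu'] at h
      have := Sum.inr.inj h
      have := hClt u' hu'
      omega
    · rw [((hPn u).1 hu).2, ((hPn u').1 hu').2]
  · intro u hu
    rcases mem_union.1 hu with hu | hu
    · exact ⟨u, heC u hu⟩
    · exact ⟨v, heP u hu⟩
  · ext x
    rw [mem_union, mem_insert, mem_image]
    rcases x with i | i
    · rw [mem_items_inl, mem_items_inl, mem_insert]
      constructor
      · rintro (h | h)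
        · exact Or.inr (Or.inl (by rw [h]))
        · exact Or.inl h
      · rintro (h | h | ⟨u, hu, h⟩)
        · exact Or.inr h
        · exact Or.inl (Sum.inl.inj h)
        · rcases mem_union.1 hu with hu | hu
          · rw [heC u hu] at h
            exact absurd h (by simp)
          · rw [heP u hu] at h
            exact absurd h (by simp)
    · rw [mem_items_inr, mem_items_inr, mem_insert, mem_insert]
      constructor
      · rintro ⟨h1, h2, h3⟩
        rcases h1 with h1 | h1
        · subst h1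
          have h4 := hpar i h2 hv
          have h5 : par i ∈ W := by
            rcases h3 with h3 | h3
            · omega
            · exact h3
          have h6 : par i ∈ Pn := (hPn _).2 ⟨⟨h2, h5⟩, rfl⟩
          exact Or.inr (Or.inr ⟨par i, mem_union_right _ h6, heP _ h6⟩)
        · rcases h3 with h3 | h3
          · have h6 : i ∈ Cn := (hCn i).2 ⟨⟨mem_range.1 (hW h1), h2, h3⟩, h1⟩
            exact Or.inr (Or.inr ⟨i, mem_union_left _ h6, heC _ h6⟩)
          · exact Or.inl ⟨h1, h2, h3⟩
      · rintro (⟨h1, h2, h3⟩ | h | ⟨u, hu, h⟩)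
        · exact ⟨Or.inr h1, h2, Or.inr h3⟩
        · exact absurd h (by simp)
        · rcases mem_union.1 hu with hu | hu
          · rw [heC u hu] at h
            have h' := Sum.inr.inj h
            subst h'
            obtain ⟨⟨h1, h2, h3⟩, h4⟩ := (hCn u).1 hu
            exact ⟨Or.inr h4, h2, Or.inl h3⟩
          · rw [heP u hu] at h
            have h' := Sum.inr.inj h
            subst h'
            obtain ⟨⟨h1, h2⟩, -⟩ := (hPn u).1 hu
            exact ⟨Or.inl rfl, h1, Or.inr h2⟩
  · intro u hu h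
    rcases mem_union.1 hu with hu | hu
    · rw [heC u hu, mem_items_inr] at h
      rw [((hCn u).1 hu).1.2.2] at h
      exact hvW h.2.2
    · rw [heP u hu, mem_items_inr] at h
      exact hvW h.1
  · intro f f' hff u hu
    rcases mem_union.1 hu with hu | hu
    · rw [heC u hu, val_inr, ((hCn u).1 hu).1.2.2, hff u ((hCn u).1 hu).2, dd_comm]
    · obtain ⟨⟨h1, h2⟩, h3⟩ := (hPn u).1 hu
      rw [heP u hu, val_inr, hff _ h2, h3]

private theorem lt2_par (a : ℕ) (g : ℕ → ℕ) (s : Finset ℕ) :
    ∃ M : ℕ, ∑ u ∈ s, dd a (g u) + 2 * M = s.card * a + ∑ u ∈ s, g u := by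
  refine ⟨∑ u ∈ s, min a (g u), ?_⟩
  rw [mul_sum, ← sum_add_distrib, ← smul_eq_mul, ← sum_const, ← sum_add_distrib]
  refine sum_congr rfl fun u _ => ?_
  unfold dd
  omega

theorem ext1 {Δ n N : ℕ} {par : ℕ → ℕ} {R : Finset ℕ} {l : ℝ} (hsel : Sel Δ N R l) (hR : R ⊆ Icc 1 N)
    (hpar : IsPar n par) {W : Finset ℕ} (hW : W ⊆ range n) {v : ℕ} (hv : v < n) (hvW : v ∉ W)
    (hdeg : pdeg n par v ≤ Δ) {f : ℕ → ℕ} (hinj : Set.InjOn (val par f) (items par W))
    (hval : ∀ x ∈ items par W, 1 ≤ val par f x ∧ val par f x ≤ N)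
    (hF : ((((items par W).image (val par f)).filter (· ∈ R)).card : ℝ) ≤ l * N) (b : ℕ) :
    ∃ f' : ℕ → ℕ, (∀ i ∈ W, f' i = f i) ∧ Set.InjOn (val par f') (items par (insert v W)) ∧
      (∀ x ∈ items par (insert v W), x ∉ items par W → val par f' x ∈ R) ∧
      ((((items par (insert v W)).image (val par f')).filter (· ∈ R)).card ≤
        (((items par W).image (val par f)).filter (· ∈ R)).card + (Δ + 1)) ∧
      (wdeg n par W v % 2 = 0 → (∑ x ∈ items par (insert v W), val par f' x + b) % 2 = 0) := by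
  classical
  obtain ⟨Nb, e, hNW, hNc, heI, heR, hit, heW, hval'⟩ := lt2_main hpar hW hv hvW
  have hfin : ∀ i ∈ W, ∀ j ∈ W, f i = f j → i = j := by
    intro i hi j hj h
    have h1 := hinj (mem_coe.2 (mem_items_inl.2 hi)) (mem_coe.2 (mem_items_inl.2 hj)) h
    exact Sum.inl.inj h1
  have hfN : Set.InjOn f (Nb : Set ℕ) := fun i hi j hj h =>
    hfin i (hNW (mem_coe.1 hi)) j (hNW (mem_coe.1 hj)) h
  have hYc : (Nb.image f).card = wdeg n par W v := by
    rw [card_image_of_injOn hfN, hNc]
  have hwd : wdeg n par W v ≤ Δ := wdeg_le.trans hdeg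
  have hYs : Nb.image f ⊆ Icc 1 N := by
    intro y hy
    obtain ⟨u, hu, rfl⟩ := mem_image.1 hy
    have h1 := hval (Sum.inl u) (mem_items_inl.2 (hNW hu))
    rw [val_inl] at h1
    exact mem_Icc.2 h1
  obtain ⟨a, haR, hab, haF, haY, haYY⟩ := hsel (Nb.image f)
    (((items par W).image (val par f)).filter (· ∈ R))
    (∑ x ∈ items par W, val par f x + ∑ y ∈ Nb.image f, y + b) hYs (by rw [hYc]; exact hwd) hF
  have hf'W : ∀ i ∈ W, Function.update f v a i = f i := fun i hi =>
    Function.update_of_ne (fun h : i = v => hvW (h ▸ hi)) _ _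
  have hf'v : Function.update f v a v = a := Function.update_self _ _ _
  have hold : ∀ x ∈ items par W, val par (Function.update f v a) x = val par f x := by
    intro x hx
    rcases x with i | i
    · rw [val_inl, val_inl]
      exact hf'W i (mem_items_inl.1 hx)
    · obtain ⟨h1, -, h2⟩ := mem_items_inr.1 hx
      rw [val_inr, val_inr, hf'W i h1, hf'W _ h2]
  have hnew : ∀ u ∈ Nb, val par (Function.update f v a) (e u) = dd a (f u) := by
    intro u hu
    rw [hval' f _ hf'W u hu, hf'v]
  have hnv : val par (Function.update f v a) (Sum.inl v) = a := hf'v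
  have hsep : ∀ z, z ∈ R → z ∉ ((items par W).image (val par f)).filter (· ∈ R) →
      ∀ x ∈ items par W, val par f x ≠ z := by
    intro z hz hz' x hx h
    exact hz' (mem_filter.2 ⟨mem_image.2 ⟨x, hx, h⟩, hz⟩)
  have hsepN : ∀ x ∈ items par W, ∀ y ∈ insert (Sum.inl v) (Nb.image e),
      val par (Function.update f v a) x ≠ val par (Function.update f v a) y := by
    intro x hx y hy
    rw [hold x hx]
    rcases mem_insert.1 hy with rfl | hy
    · rw [hnv]
      exact hsep a haR haF x hx
    · obtain ⟨u, hu, rfl⟩ := mem_image.1 hy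
      rw [hnew u hu]
      have h1 := haY (f u) (mem_image_of_mem f hu)
      exact hsep _ h1.1 h1.2.1 x hx
  have hlv : Sum.inl v ∉ Nb.image e := by
    intro h
    obtain ⟨u, hu, h1⟩ := mem_image.1 h
    obtain ⟨i, hi⟩ := heR u hu
    rw [hi] at h1
    exact absurd h1 (by simp)
  have hdis : Disjoint (items par W) (insert (Sum.inl v) (Nb.image e)) := by
    rw [disjoint_left]
    intro x hx hy
    exact hsepN x hx x hy rfl
  refine ⟨Function.update f v a, hf'W, ?_, ?_, ?_, ?_⟩
  · intro x hx y hy hxy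
    rw [mem_coe, hit, mem_union] at hx hy
    rcases hx with hx | hx <;> rcases hy with hy | hy
    · rw [hold x hx, hold y hy] at hxy
      exact hinj (mem_coe.2 hx) (mem_coe.2 hy) hxy
    · exact absurd hxy (hsepN x hx y hy)
    · exact absurd hxy.symm (hsepN y hy x hx)
    · rcases mem_insert.1 hx with hx | hx <;> rcases mem_insert.1 hy with hy | hy
      · rw [hx, hy]
      · obtain ⟨u, hu, h1⟩ := mem_image.1 hy
        rw [hx, ← h1, hnv, hnew u hu] at hxy
        exact absurd hxy.symm (haY (f u) (mem_image_of_mem f hu)).2.2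
      · obtain ⟨u, hu, h1⟩ := mem_image.1 hx
        rw [hy, ← h1, hnv, hnew u hu] at hxy
        exact absurd hxy (haY (f u) (mem_image_of_mem f hu)).2.2
      · obtain ⟨u, hu, h1⟩ := mem_image.1 hx
        obtain ⟨u', hu', h2⟩ := mem_image.1 hy
        rw [← h1, ← h2, hnew u hu, hnew u' hu'] at hxy
        rw [← h1, ← h2]
        by_contra hne
        have h3 : f u ≠ f u' := by
          intro h
          have h4 := hfin u (hNW hu) u' (hNW hu') h
          exact hne (by rw [h4])
        exact haYY (f u) (mem_image_of_mem f hu) (f u') (mem_image_of_mem f hu') h3 hxy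
  · intro x hx hxW
    rw [hit, mem_union] at hx
    rcases hx with hx | hx
    · exact absurd hx hxW
    · rcases mem_insert.1 hx with hx | hx
      · rw [hx, hnv]
        exact haR
      · obtain ⟨u, hu, h1⟩ := mem_image.1 hx
        rw [← h1, hnew u hu]
        exact (haY (f u) (mem_image_of_mem f hu)).1
  · have hsub : ((items par (insert v W)).image (val par (Function.update f v a))).filter
        (· ∈ R) ⊆ (((items par W).image (val par f)).filter (· ∈ R)) ∪
          insert a ((Nb.image f).image (dd a)) := by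
      intro z hz
      obtain ⟨hz1, hz2⟩ := mem_filter.1 hz
      obtain ⟨x, hx, rfl⟩ := mem_image.1 hz1
      rw [hit, mem_union] at hx
      rcases hx with hx | hx
      · refine mem_union_left _ (mem_filter.2 ⟨?_, hz2⟩)
        rw [hold x hx]
        exact mem_image_of_mem _ hx
      · refine mem_union_right _ ?_
        rcases mem_insert.1 hx with hx | hx
        · rw [hx, hnv]
          exact mem_insert_self _ _
        · obtain ⟨u, hu, h1⟩ := mem_image.1 hx
          rw [← h1, hnew u hu]
          exact mem_insert_of_mem (mem_image_of_mem _ (mem_image_of_mem f hu))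
    refine (card_le_card hsub).trans ((card_union_le _ _).trans (Nat.add_le_add_left ?_ _))
    refine (card_insert_le _ _).trans (Nat.add_le_add_right ?_ 1)
    exact card_image_le.trans (by rw [hYc]; exact hwd)
  · intro hev
    have hS1 : ∑ x ∈ items par W, val par (Function.update f v a) x =
        ∑ x ∈ items par W, val par f x := sum_congr rfl hold
    have hS2 : ∑ x ∈ Nb.image e, val par (Function.update f v a) x = ∑ u ∈ Nb, dd a (f u) := by
      rw [sum_image (fun u hu u' hu' h => heI u (mem_coe.1 hu) u' (mem_coe.1 hu') h)]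
      exact sum_congr rfl hnew
    rw [hit, sum_union hdis, sum_insert hlv, hnv, hS1, hS2]
    rw [sum_image hfN] at hab
    obtain ⟨M, hM⟩ := lt2_par a f Nb
    rw [hNc] at hM
    obtain ⟨m, hm⟩ : ∃ m, wdeg n par W v = 2 * m := ⟨wdeg n par W v / 2, by omega⟩
    rw [hm, mul_assoc] at hM
    omega

end SSB
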