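import Pool.Agent.Lib.MP_8a819d_co.BD.Defs

/-!
# MP_8a819d_co: the absorber, 1. Matchable families, greedy choices

JOB Mt (all of this file).

* `matchable_union`, `matchable_biUnion`: glue the functions `β`. (`biUnion` by induction on the finset.)
* `unitOK_union`: the label sets of the two parts are disjoint: `labs (D ∪ D') = labs D ∪ labs D'`; `D`, `D'` are
  disjoint as a common unit would give a common label (`labs` of a nonempty `D` is nonempty), so the cardinalities add.
  If `t = 1` clear. `unitOK_biUnion` by induction.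
* `unitOK_sub`: a subset `D' ⊆ D` of a system with `UnitOK t D` (`t = 1` or `2`): `|labs D| = t |D|`,
  `|labs (D \ D')| ≤ t |D \ D'|` (each unit has at most `t` labels, for `t = 1` the two are equal), so
  `|labs D'| ≥ t |D'|`; and `≤` is clear.
* `greedy`: choose the objects one by one (induction on the finset `S`), avoiding `F` and the footprints of the
  previous ones.
-/

set_option autoImplicit false

namespace SSB

open Finset

theorem matchable_empty (t : ℕ) : Matchable t ∅ ∅ := by
  refine ⟨fun _ => ∅, fun d hd => ?_, fun d hd => ?_, Finset.biUnion_empty⟩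
  · exact absurd hd (Finset.notMem_empty _)
  · exact absurd hd (Finset.notMem_empty _)

theorem matchable_single {t : ℕ} {d : ℕ × ℕ} {s : Finset ℕ} (h : IsBlock t d s) :
    Matchable t {d} s := by
  refine ⟨fun _ => s, fun d' hd => ?_, fun a ha b hb hab => ?_, Finset.singleton_biUnion⟩
  · rw [Finset.mem_singleton] at hd
    rw [hd]
    exact h
  · rw [Finset.mem_singleton] at ha hb
    exact absurd (ha.trans hb.symm) hab

theorem matchable_union {t : ℕ} {D D' : Finset (ℕ × ℕ)} {W W' : Finset ℕ} (h : Matchable t D W)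
    (h' : Matchable t D' W') (hD : Disjoint D D') (hW : Disjoint W W') :
    Matchable t (D ∪ D') (W ∪ W') := by
  obtain ⟨β, h1, h2, h3⟩ := h
  obtain ⟨β', h1', h2', h3'⟩ := h'
  have e1 : ∀ d ∈ D, (if d ∈ D then β d else β' d) = β d := fun d hd => if_pos hd
  have e2 : ∀ d ∈ D', (if d ∈ D then β d else β' d) = β' d :=
    fun d hd => if_neg (Finset.disjoint_right.1 hD hd)
  have s1 : ∀ d ∈ D, β d ⊆ W := fun d hd => by
    rw [← h3]
    exact Finset.subset_biUnion_of_mem β hd
  have s2 : ∀ d ∈ D', β' d ⊆ W' := fun d hd => by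
    rw [← h3']
    exact Finset.subset_biUnion_of_mem β' hd
  refine ⟨fun d => if d ∈ D then β d else β' d, fun d hd => ?_, fun a ha b hb hab => ?_, ?_⟩
  · change IsBlock t d (if d ∈ D then β d else β' d)
    rcases Finset.mem_union.1 hd with hd | hd
    · rw [e1 d hd]
      exact h1 d hd
    · rw [e2 d hd]
      exact h1' d hd
  · change Disjoint (if a ∈ D then β a else β' a) (if b ∈ D then β b else β' b)
    rcases Finset.mem_union.1 ha with ha | ha
    · rcases Finset.mem_union.1 hb with hb | hb
      · rw [e1 a ha, e1 b hb]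
        exact h2 a ha b hb hab
      · rw [e1 a ha, e2 b hb]
        exact Finset.disjoint_of_subset_left (s1 a ha)
          (Finset.disjoint_of_subset_right (s2 b hb) hW)
    · rcases Finset.mem_union.1 hb with hb | hb
      · rw [e2 a ha, e1 b hb]
        exact (Finset.disjoint_of_subset_left (s1 b hb)
          (Finset.disjoint_of_subset_right (s2 a ha) hW)).symm
      · rw [e2 a ha, e2 b hb]
        exact h2' a ha b hb hab
  · rw [Finset.union_biUnion]
    have e3 : (D.biUnion fun d => if d ∈ D then β d else β' d) = W := by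
      rw [← h3]
      exact Finset.biUnion_congr rfl e1
    have e4 : (D'.biUnion fun d => if d ∈ D then β d else β' d) = W' := by
      rw [← h3']
      exact Finset.biUnion_congr rfl e2
    rw [e3, e4]

theorem matchable_biUnion {ι : Type} [DecidableEq ι] {t : ℕ} (S : Finset ι) (D : ι → Finset (ℕ × ℕ))
    (W : ι → Finset ℕ) (h : ∀ i ∈ S, Matchable t (D i) (W i))
    (hD : ∀ i ∈ S, ∀ j ∈ S, i ≠ j → Disjoint (D i) (D j))
    (hW : ∀ i ∈ S, ∀ j ∈ S, i ≠ j → Disjoint (W i) (W j)) :
    Matchable t (S.biUnion D) (S.biUnion W) := by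
  induction S using Finset.induction_on with
  | empty =>
    rw [Finset.biUnion_empty, Finset.biUnion_empty]
    exact matchable_empty t
  | @insert a s ha ih =>
    rw [Finset.biUnion_insert, Finset.biUnion_insert]
    have hne : ∀ j ∈ s, a ≠ j := fun j hj e => ha (e ▸ hj)
    refine matchable_union (h a (Finset.mem_insert_self a s))
      (ih (fun i hi => h i (Finset.mem_insert_of_mem hi))
        (fun i hi j hj => hD i (Finset.mem_insert_of_mem hi) j (Finset.mem_insert_of_mem hj))
        (fun i hi j hj => hW i (Finset.mem_insert_of_mem hi) j (Finset.mem_insert_of_mem hj)))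
      ?_ ?_
    · rw [Finset.disjoint_biUnion_right]
      exact fun j hj => hD a (Finset.mem_insert_self a s) j (Finset.mem_insert_of_mem hj)
        (hne j hj)
    · rw [Finset.disjoint_biUnion_right]
      exact fun j hj => hW a (Finset.mem_insert_self a s) j (Finset.mem_insert_of_mem hj)
        (hne j hj)

theorem labs_union (D D' : Finset (ℕ × ℕ)) : labs (D ∪ D') = labs D ∪ labs D' := by
  ext x
  rw [mem_labs, Finset.mem_union, mem_labs, mem_labs]
  constructor
  · rintro ⟨d, hd, h⟩
    rcases Finset.mem_union.1 hd with hd | hd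
    · exact Or.inl ⟨d, hd, h⟩
    · exact Or.inr ⟨d, hd, h⟩
  · rintro (⟨d, hd, h⟩ | ⟨d, hd, h⟩)
    · exact ⟨d, Finset.mem_union_left _ hd, h⟩
    · exact ⟨d, Finset.mem_union_right _ hd, h⟩

theorem labs_biUnion {ι : Type} [DecidableEq ι] (S : Finset ι) (D : ι → Finset (ℕ × ℕ)) :
    labs (S.biUnion D) = S.biUnion (fun i => labs (D i)) := by
  ext x
  rw [mem_labs, Finset.mem_biUnion]
  constructor
  · rintro ⟨d, hd, h⟩
    obtain ⟨i, hi, hd⟩ := Finset.mem_biUnion.1 hd
    exact ⟨i, hi, mem_labs.2 ⟨d, hd, h⟩⟩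
  · rintro ⟨i, hi, h⟩
    obtain ⟨d, hd, h⟩ := mem_labs.1 h
    exact ⟨d, Finset.mem_biUnion.2 ⟨i, hi, hd⟩, h⟩

/-- families of units with disjoint sets of labels are disjoint -/
theorem disjoint_of_labs {D D' : Finset (ℕ × ℕ)} (h : Disjoint (labs D) (labs D')) : Disjoint D D' := by
  rw [Finset.disjoint_left] at h ⊢
  intro d hd hd'
  exact h (mem_labs.2 ⟨d, hd, Or.inl rfl⟩) (mem_labs.2 ⟨d, hd', Or.inl rfl⟩)

theorem unitOK_empty (t : ℕ) : UnitOK t ∅ := by
  refine ⟨fun _ d hd => absurd hd (Finset.notMem_empty _), ?_⟩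
  simp [labs]

theorem unitOK_union {t : ℕ} {D D' : Finset (ℕ × ℕ)} (h : UnitOK t D) (h' : UnitOK t D')
    (hD : Disjoint (labs D) (labs D')) : UnitOK t (D ∪ D') := by
  refine ⟨fun ht d hd => ?_, ?_⟩
  · rcases Finset.mem_union.1 hd with hd | hd
    · exact h.1 ht d hd
    · exact h'.1 ht d hd
  · rw [labs_union, Finset.card_union_of_disjoint hD, h.2, h'.2,
      Finset.card_union_of_disjoint (disjoint_of_labs hD), mul_add]

theorem unitOK_biUnion {ι : Type} [DecidableEq ι] {t : ℕ} (S : Finset ι) (D : ι → Finset (ℕ × ℕ))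
    (h : ∀ i ∈ S, UnitOK t (D i))
    (hD : ∀ i ∈ S, ∀ j ∈ S, i ≠ j → Disjoint (labs (D i)) (labs (D j))) :
    UnitOK t (S.biUnion D) := by
  induction S using Finset.induction_on with
  | empty =>
    rw [Finset.biUnion_empty]
    exact unitOK_empty t
  | @insert a s ha ih =>
    rw [Finset.biUnion_insert]
    have hne : ∀ j ∈ s, a ≠ j := fun j hj e => ha (e ▸ hj)
    refine unitOK_union (h a (Finset.mem_insert_self a s))
      (ih (fun i hi => h i (Finset.mem_insert_of_mem hi))
        (fun i hi j hj => hD i (Finset.mem_insert_of_mem hi) j (Finset.mem_insert_of_mem hj)))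
      ?_
    rw [labs_biUnion, Finset.disjoint_biUnion_right]
    exact fun j hj => hD a (Finset.mem_insert_self a s) j (Finset.mem_insert_of_mem hj)
      (hne j hj)

/-- the number of labels -/
private theorem mt_card_le {t : ℕ} (ht : t = 1 ∨ t = 2) {D : Finset (ℕ × ℕ)}
    (h : t = 1 → ∀ d ∈ D, d.1 = d.2) : (labs D).card ≤ t * D.card := by
  rcases ht with rfl | rfl
  · have e : labs D = D.image Prod.fst := by
      unfold labs
      have e1 : D.image Prod.snd = D.image Prod.fst :=
        Finset.image_congr fun d hd => (h rfl d hd).symm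
      rw [e1, Finset.union_idempotent]
    rw [e, one_mul]
    exact Finset.card_image_le
  · have h1 : (D.image Prod.fst).card ≤ D.card := Finset.card_image_le
    have h2 : (D.image Prod.snd).card ≤ D.card := Finset.card_image_le
    have h3 := Finset.card_union_le (D.image Prod.fst) (D.image Prod.snd)
    unfold labs
    omega

theorem unitOK_sub {t : ℕ} (ht : t = 1 ∨ t = 2) {D D' : Finset (ℕ × ℕ)} (h : UnitOK t D) (hD : D' ⊆ D) :
    UnitOK t D' := by
  refine ⟨fun h1 d hd => h.1 h1 d (hD hd), le_antisymm ?_ ?_⟩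
  · exact mt_card_le ht (fun h1 d hd => h.1 h1 d (hD hd))
  · have h1 := mt_card_le ht (D := D \ D')
      (fun h1 d hd => h.1 h1 d (Finset.mem_sdiff.1 hd).1)
    have h2 : labs D = labs (D \ D') ∪ labs D' := by
      rw [← labs_union, Finset.sdiff_union_of_subset hD]
    have h3 := Finset.card_union_le (labs (D \ D')) (labs D')
    rw [← h2, h.2] at h3
    have h4 : (D \ D').card + D'.card = D.card := Finset.card_sdiff_add_card_eq_card hD
    rw [← h4, mul_add] at h3
    omega

/-- for `t = 1`, `2`: different units of a good system have disjoint label sets -/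
theorem unitOK_disj {t : ℕ} (ht : t = 1 ∨ t = 2) {D D' : Finset (ℕ × ℕ)} (h : UnitOK t D) (hD : D' ⊆ D)
    {E : Finset (ℕ × ℕ)} (hE : E ⊆ D) (hDE : Disjoint D' E) : Disjoint (labs D') (labs E) := by
  have h1 := unitOK_sub ht h (Finset.union_subset hD hE)
  have h2 := h1.2
  rw [labs_union, Finset.card_union_of_disjoint hDE, mul_add, ← (unitOK_sub ht h hD).2,
    ← (unitOK_sub ht h hE).2] at h2
  exact Finset.card_union_eq_card_add_card.1 h2

theorem block_card {t : ℕ} {D : Finset (ℕ × ℕ)} {W : Finset ℕ} (h : Matchable t D W) :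
    W.card = (t + 1) * D.card := by
  obtain ⟨β, h1, h2, h3⟩ := h
  rw [← h3, Finset.card_biUnion h2, Finset.sum_congr rfl (fun d hd => ?_),
    Finset.sum_const, smul_eq_mul, mul_comm]
  obtain ⟨a, -, -, h⟩ := h1 d hd
  exact h

theorem greedy {ι Obj : Type} [DecidableEq ι] [Nonempty Obj] (fp : Obj → Finset ℕ) (P : ι → Obj → Prop) (b B : ℕ)
    (F : Finset ℕ) (S : Finset ι)
    (h : ∀ i ∈ S, ∀ F' : Finset ℕ, F ⊆ F' → F'.card ≤ B →
      ∃ o, P i o ∧ Disjoint (fp o) F' ∧ (fp o).card ≤ b)
    (hB : F.card + S.card * b ≤ B) :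
    ∃ o : ι → Obj, (∀ i ∈ S, P i (o i)) ∧ (∀ i ∈ S, Disjoint (fp (o i)) F) ∧
      (∀ i ∈ S, ∀ j ∈ S, i ≠ j → Disjoint (fp (o i)) (fp (o j))) ∧ ∀ i ∈ S, (fp (o i)).card ≤ b := by
  induction S using Finset.induction_on with
  | empty =>
    refine ⟨fun _ => Classical.arbitrary Obj, ?_, ?_, ?_, ?_⟩ <;>
      exact fun i hi => absurd hi (Finset.notMem_empty _)
  | @insert a s ha ih =>
    rw [Finset.card_insert_of_notMem ha, add_mul, one_mul] at hB
    obtain ⟨o, h1, h2, h3, h4⟩ := ih (fun i hi => h i (Finset.mem_insert_of_mem hi)) (by omega)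
    have hc : (F ∪ s.biUnion fun i => fp (o i)).card ≤ B := by
      have e1 := Finset.card_union_le F (s.biUnion fun i => fp (o i))
      have e2 : (s.biUnion fun i => fp (o i)).card ≤ s.card * b :=
        Finset.card_biUnion_le_card_mul _ _ _ h4
      omega
    obtain ⟨w, hw1, hw2, hw3⟩ := h a (Finset.mem_insert_self a s) _ Finset.subset_union_left hc
    rw [Finset.disjoint_union_right, Finset.disjoint_biUnion_right] at hw2
    have ea : (fun i => if i = a then w else o i) a = w := if_pos rfl
    have ei : ∀ i ∈ s, (fun i => if i = a then w else o i) i = o i := by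
      intro i hi
      have hia : i ≠ a := fun e => ha (e ▸ hi)
      exact if_neg hia
    refine ⟨fun i => if i = a then w else o i, ?_, ?_, ?_, ?_⟩
    · intro i hi
      rcases Finset.mem_insert.1 hi with rfl | hi
      · rw [ea]
        exact hw1
      · rw [ei i hi]
        exact h1 i hi
    · intro i hi
      rcases Finset.mem_insert.1 hi with rfl | hi
      · rw [ea]
        exact hw2.1
      · rw [ei i hi]
        exact h2 i hi
    · intro i hi j hj hij
      rcases Finset.mem_insert.1 hi with ia | is
      · rcases Finset.mem_insert.1 hj with ja | js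
        · exact absurd (ia.trans ja.symm) hij
        · rw [ia, ea, ei j js]
          exact hw2.2 j js
      · rcases Finset.mem_insert.1 hj with ja | js
        · rw [ja, ea, ei i is]
          exact (hw2.2 i is).symm
        · rw [ei i is, ei j js]
          exact h3 i is j js hij
    · intro i hi
      rcases Finset.mem_insert.1 hi with rfl | hi
      · rw [ea]
        exact hw3
      · rw [ei i hi]
        exact h4 i hi

end SSB
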