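import Mathlib

/-!
# MP_8a819d_co: the nibble, 1. Independent choices

JOB Nib1 (all of this file). `pw q C` is the probability that the random set is exactly `C`, when
every `i` is chosen independently with probability `q i`.

Proofs: everything follows from `Finset.prod_add` (or `Finset.prod_add` in the form
`∏ i, (f i + g i) = ∑ t ∈ univ.powerset, (∏ i ∈ t, f i) * ∏ i ∈ univ \ t, g i`) with `f i = q i`
or `0`, `g i = 1 - q i` or `0`:
* `pw_sum`: `f = q`, `g = 1 - q`.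
* `pw_avoid`: `f i = 0` for `i ∈ A`, `q i` otherwise, `g = 1 - q`: the term of `C` is `pw q C` if
  `C` is disjoint from `A` and `0` otherwise, and the product is `∏ i ∈ A, (1 - q i)`.
* `pw_one`, `pw_two`: `g i = 0` for `i = a` (and `i = b`), `f = q`.
* `exists_le`: otherwise `Φ C > E` for all `C`, and `∑ pw q C * Φ C > E` (the weights are nonnegative
  with sum `1`).
-/

set_option autoImplicit false

namespace SSB

open Finset

variable {I : Type} [Fintype I] [DecidableEq I]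

/-- probability of `C` -/
noncomputable def pw (q : I → ℝ) (C : Finset I) : ℝ := (∏ i ∈ C, q i) * ∏ i ∈ univ \ C, (1 - q i)

/-- expectation -/
noncomputable def Ex (q : I → ℝ) (Φ : Finset I → ℝ) : ℝ := ∑ C : Finset I, pw q C * Φ C

private theorem nib1_key (f g : I → ℝ) :
    ∑ C : Finset I, (∏ i ∈ C, f i) * ∏ i ∈ univ \ C, g i = ∏ i, (f i + g i) := by
  rw [Finset.prod_add, Finset.powerset_univ]

theorem pw_nonneg {q : I → ℝ} (h0 : ∀ i, 0 ≤ q i) (h1 : ∀ i, q i ≤ 1) (C : Finset I) : 0 ≤ pw q C := by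
  exact mul_nonneg (Finset.prod_nonneg fun i _ => h0 i)
    (Finset.prod_nonneg fun i _ => sub_nonneg.2 (h1 i))

theorem pw_sum (q : I → ℝ) : ∑ C : Finset I, pw q C = 1 := by
  have h1 := nib1_key q (fun i => 1 - q i)
  rw [Finset.prod_congr rfl fun i _ => add_sub_cancel (q i) 1, Finset.prod_const_one] at h1
  exact h1

theorem Ex_const (q : I → ℝ) (c : ℝ) : Ex q (fun _ => c) = c := by
  rw [Ex, ← Finset.sum_mul, pw_sum, one_mul]

theorem Ex_mono {q : I → ℝ} (h0 : ∀ i, 0 ≤ q i) (h1 : ∀ i, q i ≤ 1) {Φ Ψ : Finset I → ℝ}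
    (h : ∀ C, Φ C ≤ Ψ C) : Ex q Φ ≤ Ex q Ψ := by
  exact Finset.sum_le_sum fun C _ => mul_le_mul_of_nonneg_left (h C) (pw_nonneg h0 h1 C)

theorem Ex_add (q : I → ℝ) (Φ Ψ : Finset I → ℝ) : Ex q (fun C => Φ C + Ψ C) = Ex q Φ + Ex q Ψ := by
  rw [Ex, Ex, Ex, ← Finset.sum_add_distrib]
  exact Finset.sum_congr rfl fun C _ => mul_add _ _ _

theorem Ex_smul (q : I → ℝ) (c : ℝ) (Φ : Finset I → ℝ) : Ex q (fun C => c * Φ C) = c * Ex q Φ := by
  rw [Ex, Ex, Finset.mul_sum]
  exact Finset.sum_congr rfl fun C _ => mul_left_comm _ _ _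

theorem Ex_sum {J : Type} (s : Finset J) (q : I → ℝ) (Φ : J → Finset I → ℝ) :
    Ex q (fun C => ∑ j ∈ s, Φ j C) = ∑ j ∈ s, Ex q (Φ j) := by
  rw [Ex]
  simp only [Finset.mul_sum]
  rw [Finset.sum_comm]
  rfl

theorem pw_avoid (q : I → ℝ) (A : Finset I) :
    Ex q (fun C => if Disjoint C A then 1 else 0) = ∏ i ∈ A, (1 - q i) := by
  have h1 := nib1_key (fun i => if i ∈ A then 0 else q i) (fun i => 1 - q i)
  have h2 : ∏ i, ((if i ∈ A then 0 else q i) + (1 - q i)) = ∏ i ∈ A, (1 - q i) := by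
    have h3 : ∀ i, ((if i ∈ A then 0 else q i) + (1 - q i)) = if i ∈ A then 1 - q i else 1 := by
      intro i
      split_ifs
      · rw [zero_add]
      · ring
    rw [Finset.prod_congr rfl fun i _ => h3 i, Finset.prod_ite_mem, Finset.univ_inter]
  rw [← h2, ← h1, Ex]
  refine Finset.sum_congr rfl fun C _ => ?_
  by_cases hA : Disjoint C A
  · rw [if_pos hA, mul_one, pw]
    congr 1
    refine Finset.prod_congr rfl fun i hi => ?_
    rw [if_neg (Finset.disjoint_left.1 hA hi)]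
  · rw [if_neg hA, mul_zero]
    obtain ⟨i, hiC, hiA⟩ := Finset.not_disjoint_iff.1 hA
    have h4 : ∏ j ∈ C, (if j ∈ A then (0 : ℝ) else q j) = 0 :=
      Finset.prod_eq_zero hiC (if_pos hiA)
    rw [h4, zero_mul]

private theorem nib1_sub (q : I → ℝ) (B : Finset I) :
    Ex q (fun C => if B ⊆ C then 1 else 0) = ∏ i ∈ B, q i := by
  have h1 := nib1_key q (fun i => if i ∈ B then 0 else 1 - q i)
  have h2 : ∏ i, (q i + if i ∈ B then 0 else 1 - q i) = ∏ i ∈ B, q i := by
    have h3 : ∀ i, (q i + if i ∈ B then 0 else 1 - q i) = if i ∈ B then q i else 1 := by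
      intro i
      split_ifs
      · rw [add_zero]
      · ring
    rw [Finset.prod_congr rfl fun i _ => h3 i, Finset.prod_ite_mem, Finset.univ_inter]
  rw [← h2, ← h1, Ex]
  refine Finset.sum_congr rfl fun C _ => ?_
  by_cases hB : B ⊆ C
  · rw [if_pos hB, mul_one, pw]
    congr 1
    refine Finset.prod_congr rfl fun i hi => ?_
    rw [if_neg]
    intro hiB
    exact (Finset.mem_sdiff.1 hi).2 (hB hiB)
  · rw [if_neg hB, mul_zero]
    obtain ⟨i, hiB, hiC⟩ := Finset.not_subset.1 hB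
    have h4 : ∏ j ∈ univ \ C, (if j ∈ B then (0 : ℝ) else 1 - q j) = 0 :=
      Finset.prod_eq_zero (Finset.mem_sdiff.2 ⟨Finset.mem_univ i, hiC⟩) (if_pos hiB)
    rw [h4, mul_zero]

theorem pw_one (q : I → ℝ) (a : I) : Ex q (fun C => if a ∈ C then 1 else 0) = q a := by
  have h1 := nib1_sub q {a}
  rw [Finset.prod_singleton] at h1
  simpa only [Finset.singleton_subset_iff] using h1

theorem pw_two (q : I → ℝ) {a b : I} (hab : a ≠ b) :
    Ex q (fun C => if a ∈ C ∧ b ∈ C then 1 else 0) = q a * q b := by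
  have h1 := nib1_sub q {a, b}
  rw [Finset.prod_pair hab] at h1
  rw [← h1]
  congr 1
  funext C
  refine if_congr ?_ rfl rfl
  rw [Finset.insert_subset_iff, Finset.singleton_subset_iff]

theorem exists_le {q : I → ℝ} (h0 : ∀ i, 0 ≤ q i) (h1 : ∀ i, q i ≤ 1) (Φ : Finset I → ℝ) :
    ∃ C : Finset I, (∀ i ∈ C, q i ≠ 0) ∧ Φ C ≤ Ex q Φ := by
  by_contra hcon
  push Not at hcon
  have h2 : ∀ C, pw q C ≠ 0 → ∀ i ∈ C, q i ≠ 0 := by
    intro C hC i hi h3
    apply hC
    rw [pw, Finset.prod_eq_zero hi h3, zero_mul]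
  have h3 : ∀ C, pw q C * Ex q Φ ≤ pw q C * Φ C := by
    intro C
    by_cases hC : pw q C = 0
    · rw [hC, zero_mul, zero_mul]
    · exact mul_le_mul_of_nonneg_left (hcon C (h2 C hC)).le (pw_nonneg h0 h1 C)
  obtain ⟨C, hC⟩ : ∃ C, pw q C ≠ 0 := by
    by_contra hno
    push Not at hno
    have h4 := pw_sum q
    rw [Finset.sum_eq_zero fun C _ => hno C] at h4
    exact zero_ne_one h4
  have h4 : ∑ C : Finset I, pw q C * Ex q Φ < ∑ C : Finset I, pw q C * Φ C := by
    refine Finset.sum_lt_sum (fun C _ => h3 C) ⟨C, Finset.mem_univ C, ?_⟩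
    exact mul_lt_mul_of_pos_left (hcon C (h2 C hC))
      (lt_of_le_of_ne (pw_nonneg h0 h1 C) (Ne.symm hC))
  rw [← Finset.sum_mul, pw_sum, one_mul] at h4
  exact lt_irrefl _ h4

end SSB
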