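import Pool.Agent.Lib.MP_8a819d_co.BD.Nib1

/-!
# MP_8a819d_co: the nibble, 2. Definitions for one step

State: `U` the alive vertices, `w` the weights of the edges (`w e = 0` for dead edges).
`ndeg S w v` the degree of `v`; `sg` the missing degree `1 - ndeg` of the alive vertices (the fake
edge at `v`). Random choice: an edge `e` is chosen with probability `1 - exp (-ε w e)`, the fake edge
of `v` with probability `1 - exp (-ε sg v)`; the set of chosen things is `C : Finset (E ⊕ V)`.
`al C`: the vertices of `U` which are untouched. `DD C v`: the new degree of `v` before normalisation.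
`bd C`: the alive vertices whose new degree exceeds `ndeg v + η`. `wn C`: the new weights.
`M1 C`: the chosen edges which meet no other chosen edge. `ls C`: the lost vertices of `V0`.
-/

set_option autoImplicit false

namespace SSB

open Finset

variable {V E : Type} [Fintype V] [Fintype E] [DecidableEq V] [DecidableEq E]

noncomputable def ndeg (S : E → Finset V) (w : E → ℝ) (v : V) : ℝ := ∑ e with v ∈ S e, w e

structure NState (S : E → Finset V) (κ : ℝ) (U : Finset V) (w : E → ℝ) : Prop where
  nn : ∀ e, 0 ≤ w e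
  supp : ∀ e, w e ≠ 0 → S e ⊆ U
  deg : ∀ v, ndeg S w v ≤ 1
  codeg : ∀ u v, u ≠ v → ∑ e with (u ∈ S e ∧ v ∈ S e), w e ≤ κ

noncomputable def sg (S : E → Finset V) (U : Finset V) (w : E → ℝ) (v : V) : ℝ :=
  if v ∈ U then 1 - ndeg S w v else 0

noncomputable def qq (S : E → Finset V) (U : Finset V) (w : E → ℝ) (ε : ℝ) : E ⊕ V → ℝ
  | Sum.inl e => 1 - Real.exp (-(ε * w e))
  | Sum.inr v => 1 - Real.exp (-(ε * sg S U w v))

def al (S : E → Finset V) (U : Finset V) (C : Finset (E ⊕ V)) : Finset V :=
  U.filter (fun v => Sum.inr v ∉ C ∧ ∀ e, Sum.inl e ∈ C → v ∉ S e)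

noncomputable def gw (S : E → Finset V) (w : E → ℝ) (ε : ℝ) (e : E) : ℝ :=
  w e * Real.exp (ε * ((S e).card - 1))

noncomputable def DD (S : E → Finset V) (U : Finset V) (w : E → ℝ) (ε : ℝ) (C : Finset (E ⊕ V)) (v : V) : ℝ :=
  ∑ e with (v ∈ S e ∧ S e ⊆ al S U C), gw S w ε e

open Classical in
noncomputable def bd (S : E → Finset V) (U : Finset V) (w : E → ℝ) (ε η : ℝ) (C : Finset (E ⊕ V)) : Finset V :=
  (al S U C).filter (fun v => ndeg S w v + η < DD S U w ε C v)

noncomputable def wn (S : E → Finset V) (U : Finset V) (w : E → ℝ) (ε η : ℝ) (C : Finset (E ⊕ V)) (e : E) : ℝ :=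
  if S e ⊆ al S U C \ bd S U w ε η C then gw S w ε e / (1 + η) else 0

def M1 (S : E → Finset V) (C : Finset (E ⊕ V)) : Finset E :=
  univ.filter (fun e => Sum.inl e ∈ C ∧ ∀ f, Sum.inl f ∈ C → f ≠ e → Disjoint (S e) (S f))

/-- the vertices of `V0` which are dead and not covered by `M1` -/
def ls (S : E → Finset V) (U V0 : Finset V) (C : Finset (E ⊕ V)) : Finset V :=
  (V0 ∩ U).filter (fun v => v ∉ al S U C ∧ ∀ e ∈ M1 S C, v ∉ S e)

end SSB
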