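import Pool.Agent.Lib.MP_8a819d_co.BD.Nib2

/-!
# MP_8a819d_co: the nibble, 3. Untouched sets

JOB Nib3 (all of this file).

* `qq_nonneg`, `qq_le`, `one_sub_qq`: `0 ≤ q ≤ 1` since the exponents are `≤ 0` (`sg ≥ 0` as
  `ndeg ≤ 1`), `1 - q (inl e) = exp (-ε w e)`, `1 - q (inr v) = exp (-ε sg v)`.
* `al_prob`: for `W ⊆ U`, `W ⊆ al C` iff `C` is disjoint from the set
  `A = {inl f : S f meets W} ∪ {inr v : v ∈ W}`; by `pw_avoid` the probability is the product of
  `exp (-ε w f)` and `exp (-ε sg v)` over `A`, i.e. `exp (-ε tau W)` (Real.exp_sum).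
* `tau_le`: `tau W ≤ ∑ v ∈ W, (ndeg v + sg v) = |W|` (each `f` meeting `W` is counted at least once in
  `∑ v ∈ W, ndeg v = ∑ f, w f * |S f ∩ W|`).
* `le_tau`: `|W| = ∑ v ∈ W, (ndeg v + sg v) = ∑ f w f |S f ∩ W| + ∑ v ∈ W, sg v`, and for `m ≥ 1`
  `m - 1 ≤ m (m - 1)` so `|W| - tau W = ∑ f meeting W, w f (|S f ∩ W| - 1) ≤
  ∑ f, w f * #{(u, v) : u ≠ v in S f ∩ W} = ∑ (u,v) ∈ W × W, u ≠ v, codeg (u, v) ≤ |W|^2 κ`.
-/

set_option autoImplicit false

namespace SSB

open Finset

variable {V E : Type} [Fintype V] [Fintype E] [DecidableEq V] [DecidableEq E]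

/-- the exponent of the probability that `W` is untouched -/
noncomputable def tau (S : E → Finset V) (U : Finset V) (w : E → ℝ) (W : Finset V) : ℝ :=
  ∑ e with ¬ Disjoint (S e) W, w e + ∑ v ∈ W, sg S U w v

theorem sg_nonneg {S : E → Finset V} {κ : ℝ} {U : Finset V} {w : E → ℝ} (h : NState S κ U w) (v : V) :
    0 ≤ sg S U w v := by
  unfold sg
  split_ifs
  · exact sub_nonneg.2 (h.deg v)
  · exact le_refl _

theorem ndeg_nonneg {S : E → Finset V} {κ : ℝ} {U : Finset V} {w : E → ℝ} (h : NState S κ U w) (v : V) :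
    0 ≤ ndeg S w v :=
  Finset.sum_nonneg fun e _ => h.nn e

theorem qq_nonneg {S : E → Finset V} {κ : ℝ} {U : Finset V} {w : E → ℝ} (h : NState S κ U w)
    {ε : ℝ} (hε : 0 ≤ ε) (i : E ⊕ V) : 0 ≤ qq S U w ε i := by
  rcases i with e | v
  · exact sub_nonneg.2 (Real.exp_le_one_iff.2 (neg_nonpos.2 (mul_nonneg hε (h.nn e))))
  · exact sub_nonneg.2 (Real.exp_le_one_iff.2 (neg_nonpos.2 (mul_nonneg hε (sg_nonneg h v))))

theorem qq_le {S : E → Finset V} {κ : ℝ} {U : Finset V} {w : E → ℝ} (h : NState S κ U w)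
    {ε : ℝ} (hε : 0 ≤ ε) (i : E ⊕ V) : qq S U w ε i ≤ 1 := by
  rcases i with e | v
  · exact sub_le_self _ (Real.exp_pos _).le
  · exact sub_le_self _ (Real.exp_pos _).le

/-- `1 - exp (-x) ≤ x` -/
theorem qq_inl_le {S : E → Finset V} {U : Finset V} {w : E → ℝ} {ε : ℝ} (e : E) :
    qq S U w ε (Sum.inl e) ≤ ε * w e := by
  change 1 - Real.exp (-(ε * w e)) ≤ ε * w e
  linarith [Real.add_one_le_exp (-(ε * w e))]

theorem qq_inr_le {S : E → Finset V} {U : Finset V} {w : E → ℝ} {ε : ℝ} (v : V) :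
    qq S U w ε (Sum.inr v) ≤ ε * sg S U w v := by
  change 1 - Real.exp (-(ε * sg S U w v)) ≤ ε * sg S U w v
  linarith [Real.add_one_le_exp (-(ε * sg S U w v))]

theorem al_prob {S : E → Finset V} {U : Finset V} {w : E → ℝ} {ε : ℝ} {W : Finset V} (hW : W ⊆ U) :
    Ex (qq S U w ε) (fun C => if W ⊆ al S U C then 1 else 0) = Real.exp (-(ε * tau S U w W)) := by
  have hiff : ∀ C : Finset (E ⊕ V), W ⊆ al S U C ↔
      Disjoint C ((univ.filter fun e => ¬ Disjoint (S e) W).disjSum W) := by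
    intro C
    rw [Finset.disjoint_left]
    constructor
    · intro h a ha ha2
      rcases a with e | v
      · rw [Finset.inl_mem_disjSum, Finset.mem_filter, Finset.not_disjoint_iff] at ha2
        obtain ⟨v, hv1, hv2⟩ := ha2.2
        have h1 := h hv2
        rw [al, Finset.mem_filter] at h1
        exact h1.2.2 e ha hv1
      · rw [Finset.inr_mem_disjSum] at ha2
        have h1 := h ha2
        rw [al, Finset.mem_filter] at h1
        exact h1.2.1 ha
    · intro h v hv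
      rw [al, Finset.mem_filter]
      refine ⟨hW hv, fun h1 => h h1 (Finset.inr_mem_disjSum.2 hv), fun e h1 h2 => h h1 ?_⟩
      rw [Finset.inl_mem_disjSum, Finset.mem_filter, Finset.not_disjoint_iff]
      exact ⟨Finset.mem_univ e, v, h2, hv⟩
  have hfun : (fun C : Finset (E ⊕ V) => (if W ⊆ al S U C then (1 : ℝ) else 0)) =
      fun C => if Disjoint C ((univ.filter fun e => ¬ Disjoint (S e) W).disjSum W) then 1 else 0 := by
    funext C
    exact if_congr (hiff C) rfl rfl
  rw [hfun, pw_avoid, Finset.prod_disjSum]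
  have h1 : ∏ e ∈ univ.filter (fun e => ¬ Disjoint (S e) W), (1 - qq S U w ε (Sum.inl e)) =
      Real.exp (∑ e with ¬ Disjoint (S e) W, -(ε * w e)) := by
    rw [Real.exp_sum]
    refine Finset.prod_congr rfl fun e _ => ?_
    change 1 - (1 - Real.exp (-(ε * w e))) = _
    ring
  have h2 : ∏ v ∈ W, (1 - qq S U w ε (Sum.inr v)) =
      Real.exp (∑ v ∈ W, -(ε * sg S U w v)) := by
    rw [Real.exp_sum]
    refine Finset.prod_congr rfl fun v _ => ?_
    change 1 - (1 - Real.exp (-(ε * sg S U w v))) = _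
    ring
  rw [h1, h2, ← Real.exp_add, tau, Finset.sum_neg_distrib, Finset.sum_neg_distrib,
    ← Finset.mul_sum, ← Finset.mul_sum]
  congr 1
  ring

private theorem nib3_tau {S : E → Finset V} {U : Finset V} {w : E → ℝ} {W : Finset V} (hW : W ⊆ U) :
    tau S U w W = W.card + ∑ e with ¬ Disjoint (S e) W, w e -
      ∑ e, w e * ((W.filter fun v => v ∈ S e).card : ℝ) := by
  have h1 : ∑ v ∈ W, sg S U w v = W.card - ∑ v ∈ W, ndeg S w v := by
    have h2 : ∑ v ∈ W, sg S U w v = ∑ v ∈ W, (1 - ndeg S w v) := by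
      refine Finset.sum_congr rfl fun v hv => ?_
      rw [sg, if_pos (hW hv)]
    rw [h2, Finset.sum_sub_distrib, Finset.sum_const, nsmul_eq_mul, mul_one]
  have h3 : ∑ v ∈ W, ndeg S w v = ∑ e, w e * ((W.filter fun v => v ∈ S e).card : ℝ) := by
    have h4 : ∀ v ∈ W, ndeg S w v = ∑ e, if v ∈ S e then w e else 0 := by
      intro v _
      rw [ndeg, Finset.sum_filter]
    rw [Finset.sum_congr rfl h4, Finset.sum_comm]
    refine Finset.sum_congr rfl fun e _ => ?_
    rw [← Finset.sum_filter, Finset.sum_const, nsmul_eq_mul, mul_comm]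
  rw [tau, h1, h3]
  ring

theorem tau_le {S : E → Finset V} {κ : ℝ} {U : Finset V} {w : E → ℝ} (h : NState S κ U w)
    {W : Finset V} (hW : W ⊆ U) : tau S U w W ≤ W.card := by
  rw [nib3_tau hW]
  have h1 : ∑ e with ¬ Disjoint (S e) W, w e ≤ ∑ e, w e * ((W.filter fun v => v ∈ S e).card : ℝ) := by
    rw [Finset.sum_filter]
    refine Finset.sum_le_sum fun e _ => ?_
    by_cases h2 : ¬ Disjoint (S e) W
    · rw [if_pos h2]
      rw [Finset.not_disjoint_iff] at h2
      obtain ⟨v, hv1, hv2⟩ := h2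
      have h3 : 1 ≤ (W.filter fun v => v ∈ S e).card :=
        Finset.card_pos.2 ⟨v, Finset.mem_filter.2 ⟨hv2, hv1⟩⟩
      have h4 : (1 : ℝ) ≤ ((W.filter fun v => v ∈ S e).card : ℝ) := by exact_mod_cast h3
      nlinarith [h.nn e]
    · rw [if_neg h2]
      exact mul_nonneg (h.nn e) (Nat.cast_nonneg _)
  linarith

theorem le_tau {S : E → Finset V} {κ : ℝ} {U : Finset V} {w : E → ℝ} (h : NState S κ U w) (hκ : 0 ≤ κ)
    {W : Finset V} (hW : W ⊆ U) : (W.card : ℝ) - (W.card : ℝ) ^ 2 * κ ≤ tau S U w W := by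
  rw [nib3_tau hW]
  have h1 : ∑ e, w e * ((W.filter fun v => v ∈ S e).card : ℝ) - ∑ e with ¬ Disjoint (S e) W, w e ≤
      ∑ e, w e * (((W.filter fun v => v ∈ S e).offDiag.card : ℕ) : ℝ) := by
    rw [Finset.sum_filter, ← Finset.sum_sub_distrib]
    refine Finset.sum_le_sum fun e _ => ?_
    rw [Finset.offDiag_card]
    by_cases h2 : ¬ Disjoint (S e) W
    · rw [if_pos h2]
      rw [Finset.not_disjoint_iff] at h2
      obtain ⟨v, hv1, hv2⟩ := h2
      have h3 : 1 ≤ (W.filter fun v => v ∈ S e).card :=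
        Finset.card_pos.2 ⟨v, Finset.mem_filter.2 ⟨hv2, hv1⟩⟩
      obtain ⟨m, hm⟩ := Nat.exists_eq_add_of_le h3
      rw [hm]
      have h4 : (1 + m) * (1 + m) - (1 + m) = m * m + m := by
        have h5 : (1 + m) * (1 + m) = (m * m + m) + (1 + m) := by ring
        rw [h5, Nat.add_sub_cancel]
      rw [h4]
      push_cast
      have h6 := h.nn e
      have h7 : (0 : ℝ) ≤ (m : ℝ) := Nat.cast_nonneg m
      nlinarith [mul_nonneg h6 (mul_nonneg h7 h7)]
    · rw [if_neg h2]
      rw [not_not] at h2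
      have h3 : (W.filter fun v => v ∈ S e) = ∅ := by
        rw [Finset.filter_eq_empty_iff]
        intro v hv hv2
        exact Finset.disjoint_left.1 h2 hv2 hv
      rw [h3, Finset.card_empty]
      simp
  have h2 : ∑ e, w e * (((W.filter fun v => v ∈ S e).offDiag.card : ℕ) : ℝ) =
      ∑ x ∈ W.offDiag, ∑ e with (x.1 ∈ S e ∧ x.2 ∈ S e), w e := by
    have h3 : ∀ e, w e * (((W.filter fun v => v ∈ S e).offDiag.card : ℕ) : ℝ) =
        ∑ x ∈ W.offDiag, if (x.1 ∈ S e ∧ x.2 ∈ S e) then w e else 0 := by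
      intro e
      have h4 : (W.filter fun v => v ∈ S e).offDiag =
          W.offDiag.filter fun x => x.1 ∈ S e ∧ x.2 ∈ S e := by
        ext x
        simp only [Finset.mem_offDiag, Finset.mem_filter]
        tauto
      rw [← Finset.sum_filter, Finset.sum_const, h4, nsmul_eq_mul, mul_comm]
    rw [Finset.sum_congr rfl fun e _ => h3 e, Finset.sum_comm]
    exact Finset.sum_congr rfl fun x _ => (Finset.sum_filter _ _).symm
  have h3 : ∑ x ∈ W.offDiag, ∑ e with (x.1 ∈ S e ∧ x.2 ∈ S e), w e ≤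
      ∑ x ∈ W.offDiag, κ := by
    refine Finset.sum_le_sum fun x hx => ?_
    rw [Finset.mem_offDiag] at hx
    exact h.codeg x.1 x.2 hx.2.2
  have h4 : ∑ x ∈ W.offDiag, κ ≤ (W.card : ℝ) ^ 2 * κ := by
    rw [Finset.sum_const, nsmul_eq_mul]
    refine mul_le_mul_of_nonneg_right ?_ hκ
    rw [Finset.offDiag_card]
    have h5 : ((W.card * W.card - W.card : ℕ) : ℝ) ≤ ((W.card * W.card : ℕ) : ℝ) := by
      exact_mod_cast Nat.sub_le _ _
    push_cast at h5 ⊢
    nlinarith
  linarith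

/-- a single vertex of `U` survives with probability `exp (-ε)` -/
theorem tau_singleton {S : E → Finset V} {κ : ℝ} {U : Finset V} {w : E → ℝ} (h : NState S κ U w)
    {v : V} (hv : v ∈ U) : tau S U w {v} = 1 := by
  have h1 : (univ.filter fun e => ¬ Disjoint (S e) ({v} : Finset V)) =
      univ.filter fun e => v ∈ S e := by
    refine Finset.filter_congr fun e _ => ?_
    rw [Finset.disjoint_singleton_right, not_not]
  rw [tau, h1, Finset.sum_singleton, sg, if_pos hv, ndeg]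
  ring

end SSB
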