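import Pool.Agent.Lib.MP_8a819d_co.BD.Nib3

/-!
# MP_8a819d_co: the nibble, 4. Moments of the new degree

JOB Nib4 (all of this file). Notation `q = qq S U w ε`, `A = al S U C`, `D = DD S U w ε C v`,
`d = ndeg S w v`, `|S e| ≤ k`, `1 ≤ |S e|`.

* `mom1`: `E [1_{v ∈ A} D] ≥ exp (-ε) d`: if `S e ⊆ A` and `v ∈ S e` then `v ∈ A`, so
  `1_{v ∈ A} D = ∑ e ∋ v, gw e * 1_{S e ⊆ A}`; if `w e ≠ 0` then `S e ⊆ U` and the expectation of the
  indicator is `exp (-ε tau (S e)) ≥ exp (-ε |S e|)` (`al_prob`, `tau_le`), and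
  `gw e * exp (-ε |S e|) = w e * exp (-ε)`.
* `mom2`: `E [1_{v ∈ A} D^2] = ∑ e, f ∋ v, gw e * gw f * P (S e ∪ S f ⊆ A)`. If `S e ∩ S f = {v}`
  then `|S e ∪ S f| = |S e| + |S f| - 1`, the size is `≤ 2 k`, so by `le_tau`
  `P ≤ exp (-ε (|S e| + |S f| - 1)) * exp (ε (2k)^2 κ)` and the term is at most
  `w e * w f * exp (-ε) * exp (4 ε k^2 κ)`; the sum of these terms is at most
  `exp (-ε) * exp (4 ε k^2 κ) * d^2`. Otherwise `S e ∩ S f` contains some `u ≠ v`, and the
  term is at most `w e * w f * exp (2 ε k)`; the sum of these is at most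
  `exp (2 ε k) * ∑ e ∋ v, w e * ∑ u ∈ S e \ {v}, codeg (u, v) ≤ exp (2 ε k) * k κ` (as `d ≤ 1`).
* `var`: `E [1_{v ∈ A} (D - d)^2] = E[1 D^2] - 2 d E[1 D] + d^2 exp (-ε)
  ≤ exp (-ε) exp (4 ε k^2 κ) d^2 + exp (2 ε k) k κ - d^2 exp (-ε)
  ≤ (exp (4 ε k^2 κ) - 1) + exp (2 ε k) k κ` (`d ≤ 1`, `exp (-ε) ≤ 1`).
* `bd_exp`: Chebyshev: `1_{v ∈ bd} ≤ 1_{v ∈ A} (D - d)^2 / η^2`; sum over `v ∈ U`.
-/

set_option autoImplicit false

namespace SSB

open Finset

variable {V E : Type} [Fintype V] [Fintype E] [DecidableEq V] [DecidableEq E]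

/-- the variance bound -/
noncomputable def nu (k : ℕ) (ε κ : ℝ) : ℝ :=
  (Real.exp (4 * ε * k ^ 2 * κ) - 1) + Real.exp (2 * ε * k) * k * κ

/-- with `e` through `v`, the event `S e ⊆ al` implies `v ∈ al` -/
private theorem nib4_DD {S : E → Finset V} {U : Finset V} {w : E → ℝ} {ε : ℝ} (v : V)
    (C : Finset (E ⊕ V)) :
    DD S U w ε C v = ∑ e with v ∈ S e, gw S w ε e * (if S e ⊆ al S U C then 1 else 0) := by
  unfold DD
  rw [← Finset.filter_filter, Finset.sum_filter]
  refine Finset.sum_congr rfl fun e _ => ?_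
  by_cases hh : S e ⊆ al S U C
  · rw [if_pos hh, if_pos hh, mul_one]
  · rw [if_neg hh, if_neg hh, mul_zero]

private theorem nib4_DD0 {S : E → Finset V} {U : Finset V} {w : E → ℝ} {ε : ℝ} (v : V)
    (C : Finset (E ⊕ V)) (hv : v ∉ al S U C) : DD S U w ε C v = 0 := by
  unfold DD
  refine Finset.sum_eq_zero fun e he => ?_
  rw [Finset.mem_filter] at he
  exact absurd (he.2.2 he.2.1) hv

private theorem nib4_q {S : E → Finset V} {κ : ℝ} {U : Finset V} {w : E → ℝ} (h : NState S κ U w)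
    {ε : ℝ} (hε : 0 ≤ ε) {Φ Ψ : Finset (E ⊕ V) → ℝ} (hh : ∀ C, Φ C ≤ Ψ C) :
    Ex (qq S U w ε) Φ ≤ Ex (qq S U w ε) Ψ :=
  Ex_mono (fun i => qq_nonneg h hε i) (fun i => qq_le h hε i) hh

theorem mom1 {S : E → Finset V} {κ : ℝ} {U : Finset V} {w : E → ℝ} (h : NState S κ U w)
    (hS1 : ∀ e, (S e).Nonempty) {ε : ℝ} (hε : 0 ≤ ε) {v : V} (hv : v ∈ U) :
    Real.exp (-ε) * ndeg S w v ≤
      Ex (qq S U w ε) (fun C => if v ∈ al S U C then DD S U w ε C v else 0) := by
  have h1 : (fun C : Finset (E ⊕ V) => if v ∈ al S U C then DD S U w ε C v else 0) =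
      fun C => ∑ e with v ∈ S e, gw S w ε e * (if S e ⊆ al S U C then 1 else 0) := by
    funext C
    by_cases hC : v ∈ al S U C
    · rw [if_pos hC, nib4_DD]
    · rw [if_neg hC, ← nib4_DD, nib4_DD0 v C hC]
  rw [h1, Ex_sum]
  unfold ndeg
  rw [Finset.mul_sum]
  refine Finset.sum_le_sum fun e he => ?_
  rw [Ex_smul]
  by_cases hw : w e = 0
  · unfold gw
    rw [hw]
    simp
  · rw [al_prob (h.supp e hw)]
    have h2 := tau_le h (h.supp e hw)
    have h3 : Real.exp (-(ε * (S e).card)) ≤ Real.exp (-(ε * tau S U w (S e))) := by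
      rw [Real.exp_le_exp]
      have := mul_le_mul_of_nonneg_left h2 hε
      linarith
    have h4 : gw S w ε e * Real.exp (-(ε * (S e).card)) = Real.exp (-ε) * w e := by
      unfold gw
      rw [mul_assoc, ← Real.exp_add, mul_comm]
      congr 2
      ring
    have h5 : 0 ≤ gw S w ε e := mul_nonneg (h.nn e) (Real.exp_pos _).le
    rw [← h4]
    exact mul_le_mul_of_nonneg_left h3 h5

/-- the term of a pair -/
private theorem nib4_pair {S : E → Finset V} {κ : ℝ} {U : Finset V} {w : E → ℝ} (h : NState S κ U w)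
    (hκ : 0 ≤ κ) {k : ℕ} (hS : ∀ e, (S e).card ≤ k) {ε : ℝ} (hε : 0 ≤ ε)
    {v : V} {e f : E} (he : v ∈ S e) (hf : v ∈ S f) :
    gw S w ε e * gw S w ε f *
        Ex (qq S U w ε) (fun C => if S e ∪ S f ⊆ al S U C then 1 else 0) ≤
      w e * w f * (Real.exp (-ε) * Real.exp (4 * ε * k ^ 2 * κ)) +
        w e * (Real.exp (2 * ε * k) * ∑ u ∈ (S e).erase v, (if u ∈ S f ∧ v ∈ S f then w f else 0)) := by
  have hge : 0 ≤ gw S w ε e := mul_nonneg (h.nn e) (Real.exp_pos _).le
  have hgf : 0 ≤ gw S w ε f := mul_nonneg (h.nn f) (Real.exp_pos _).le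
  have hin : ∀ u ∈ (S e).erase v, (0:ℝ) ≤ (if u ∈ S f ∧ v ∈ S f then w f else 0) := by
    intro u _
    split_ifs
    · exact h.nn f
    · exact le_rfl
  have hsum : 0 ≤ ∑ u ∈ (S e).erase v, (if u ∈ S f ∧ v ∈ S f then w f else 0) :=
    Finset.sum_nonneg hin
  have hA : 0 ≤ w e * w f * (Real.exp (-ε) * Real.exp (4 * ε * k ^ 2 * κ)) :=
    mul_nonneg (mul_nonneg (h.nn e) (h.nn f)) (mul_pos (Real.exp_pos _) (Real.exp_pos _)).le
  have hB : 0 ≤ w e * (Real.exp (2 * ε * k) *
      ∑ u ∈ (S e).erase v, (if u ∈ S f ∧ v ∈ S f then w f else 0)) :=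
    mul_nonneg (h.nn e) (mul_nonneg (Real.exp_pos _).le hsum)
  by_cases hwe : w e = 0
  · have : gw S w ε e = 0 := by
      unfold gw
      rw [hwe, zero_mul]
    rw [this, zero_mul, zero_mul]
    exact add_nonneg hA hB
  by_cases hwf : w f = 0
  · have : gw S w ε f = 0 := by
      unfold gw
      rw [hwf, zero_mul]
    rw [this, mul_zero, zero_mul]
    exact add_nonneg hA hB
  have hcard1 : ((S e).card : ℝ) ≤ k := by exact_mod_cast hS e
  have hcard2 : ((S f).card : ℝ) ≤ k := by exact_mod_cast hS f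
  by_cases hcase : ∃ u ∈ (S e).erase v, u ∈ S f
  · obtain ⟨u, hu, huf⟩ := hcase
    have hP : Ex (qq S U w ε) (fun C => if S e ∪ S f ⊆ al S U C then 1 else 0) ≤ 1 := by
      have h1 := nib4_q h hε (Φ := fun C => if S e ∪ S f ⊆ al S U C then (1:ℝ) else 0)
        (Ψ := fun _ => 1) (fun C => by
          show (if S e ∪ S f ⊆ al S U C then (1:ℝ) else 0) ≤ 1
          split_ifs
          · exact le_rfl
          · exact zero_le_one)
      rw [Ex_const] at h1
      exact h1
    have h1 : gw S w ε e * gw S w ε f ≤ w e * w f * Real.exp (2 * ε * k) := by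
      unfold gw
      have h2 : w e * Real.exp (ε * ((S e).card - 1)) * (w f * Real.exp (ε * ((S f).card - 1))) =
          w e * w f * Real.exp (ε * ((S e).card - 1) + ε * ((S f).card - 1)) := by
        rw [Real.exp_add]
        ring
      rw [h2]
      refine mul_le_mul_of_nonneg_left ?_ (mul_nonneg (h.nn e) (h.nn f))
      rw [Real.exp_le_exp]
      have h3 : ε * (((S e).card : ℝ) - 1) ≤ ε * k :=
        mul_le_mul_of_nonneg_left (by linarith) hε
      have h4 : ε * (((S f).card : ℝ) - 1) ≤ ε * k :=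
        mul_le_mul_of_nonneg_left (by linarith) hε
      linarith
    have h5 : w f ≤ ∑ u ∈ (S e).erase v, (if u ∈ S f ∧ v ∈ S f then w f else 0) := by
      have := Finset.single_le_sum hin hu
      rw [if_pos ⟨huf, hf⟩] at this
      exact this
    have h6 : gw S w ε e * gw S w ε f *
        Ex (qq S U w ε) (fun C => if S e ∪ S f ⊆ al S U C then 1 else 0) ≤
        gw S w ε e * gw S w ε f :=
      mul_le_of_le_one_right (mul_nonneg hge hgf) hP
    have h7 : w e * w f * Real.exp (2 * ε * k) ≤ w e * (Real.exp (2 * ε * k) *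
        ∑ u ∈ (S e).erase v, (if u ∈ S f ∧ v ∈ S f then w f else 0)) := by
      have h8 := mul_le_mul_of_nonneg_left h5 (mul_nonneg (h.nn e) (Real.exp_pos (2 * ε * k)).le)
      calc w e * w f * Real.exp (2 * ε * k) = w e * Real.exp (2 * ε * k) * w f := by ring
        _ ≤ _ := h8
        _ = _ := by ring
    linarith
  · have hint : S e ∩ S f = {v} := by
      ext u
      rw [Finset.mem_inter, Finset.mem_singleton]
      constructor
      · rintro ⟨h1, h2⟩
        by_contra h3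
        exact hcase ⟨u, Finset.mem_erase.2 ⟨h3, h1⟩, h2⟩
      · rintro rfl
        exact ⟨he, hf⟩
    have hW : S e ∪ S f ⊆ U := Finset.union_subset (h.supp e hwe) (h.supp f hwf)
    have hcu : ((S e ∪ S f).card : ℝ) = (S e).card + (S f).card - 1 := by
      have h1 := Finset.card_union_add_card_inter (S e) (S f)
      rw [hint, Finset.card_singleton] at h1
      have h2 : ((S e ∪ S f).card : ℝ) + 1 = (S e).card + (S f).card := by exact_mod_cast h1
      linarith
    rw [al_prob hW]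
    have h1 := le_tau h hκ hW
    have hcu2 : ((S e ∪ S f).card : ℝ) ≤ 2 * k := by
      rw [hcu]
      linarith
    have hcu0 : (0:ℝ) ≤ ((S e ∪ S f).card : ℝ) := Nat.cast_nonneg _
    have hsq : ((S e ∪ S f).card : ℝ) ^ 2 * κ ≤ 4 * k ^ 2 * κ := by
      refine mul_le_mul_of_nonneg_right ?_ hκ
      calc ((S e ∪ S f).card : ℝ) ^ 2 ≤ (2 * k) ^ 2 := pow_le_pow_left₀ hcu0 hcu2 2
        _ = _ := by ring
    have h2 : (S e).card + (S f).card - 1 - 4 * k ^ 2 * κ ≤ tau S U w (S e ∪ S f) := by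
      rw [hcu] at h1 hsq
      linarith
    have h3 : Real.exp (-(ε * tau S U w (S e ∪ S f))) ≤
        Real.exp (-(ε * ((S e).card + (S f).card - 1 - 4 * k ^ 2 * κ))) := by
      rw [Real.exp_le_exp]
      have := mul_le_mul_of_nonneg_left h2 hε
      linarith
    have h4 := mul_le_mul_of_nonneg_left h3 (mul_nonneg hge hgf)
    have h5 : gw S w ε e * gw S w ε f *
        Real.exp (-(ε * ((S e).card + (S f).card - 1 - 4 * k ^ 2 * κ))) =
        w e * w f * (Real.exp (-ε) * Real.exp (4 * ε * k ^ 2 * κ)) := by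
      unfold gw
      have h6 : w e * Real.exp (ε * ((S e).card - 1)) * (w f * Real.exp (ε * ((S f).card - 1))) *
          Real.exp (-(ε * ((S e).card + (S f).card - 1 - 4 * k ^ 2 * κ))) =
          w e * w f * Real.exp (ε * ((S e).card - 1) + ε * ((S f).card - 1) +
            -(ε * ((S e).card + (S f).card - 1 - 4 * k ^ 2 * κ))) := by
        rw [Real.exp_add, Real.exp_add]
        ring
      rw [h6, ← Real.exp_add]
      congr 2
      ring
    rw [h5] at h4
    linarith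

theorem mom2 {S : E → Finset V} {κ : ℝ} {U : Finset V} {w : E → ℝ} (h : NState S κ U w) (hκ : 0 ≤ κ)
    {k : ℕ} (hS : ∀ e, (S e).card ≤ k) (hS1 : ∀ e, (S e).Nonempty) {ε : ℝ} (hε : 0 ≤ ε)
    {v : V} (hv : v ∈ U) :
    Ex (qq S U w ε) (fun C => if v ∈ al S U C then (DD S U w ε C v) ^ 2 else 0) ≤
      Real.exp (-ε) * Real.exp (4 * ε * k ^ 2 * κ) * (ndeg S w v) ^ 2 +
        Real.exp (2 * ε * k) * k * κ := by
  have h1 : (fun C : Finset (E ⊕ V) => if v ∈ al S U C then (DD S U w ε C v) ^ 2 else 0) =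
      fun C => ∑ e with v ∈ S e, ∑ f with v ∈ S f,
        gw S w ε e * gw S w ε f * (if S e ∪ S f ⊆ al S U C then 1 else 0) := by
    funext C
    have h2 : (if v ∈ al S U C then (DD S U w ε C v) ^ 2 else 0) = (DD S U w ε C v) ^ 2 := by
      by_cases hC : v ∈ al S U C
      · rw [if_pos hC]
      · rw [if_neg hC, nib4_DD0 v C hC]
        ring
    rw [h2, nib4_DD, pow_two, Finset.sum_mul_sum]
    refine Finset.sum_congr rfl fun e _ => Finset.sum_congr rfl fun f _ => ?_
    by_cases ha : S e ⊆ al S U C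
    · by_cases hb : S f ⊆ al S U C
      · rw [if_pos ha, if_pos hb, if_pos (Finset.union_subset ha hb)]
        ring
      · rw [if_pos ha, if_neg hb, if_neg (fun hh => hb (Finset.subset_union_right.trans hh))]
        ring
    · rw [if_neg ha, if_neg (fun hh => ha (Finset.subset_union_left.trans hh))]
      ring
  rw [h1, Ex_sum]
  have h3 : ∀ e ∈ univ.filter (fun e => v ∈ S e), Ex (qq S U w ε) (fun C => ∑ f with v ∈ S f,
        gw S w ε e * gw S w ε f * (if S e ∪ S f ⊆ al S U C then 1 else 0)) ≤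
      w e * ((∑ f with v ∈ S f, w f) * (Real.exp (-ε) * Real.exp (4 * ε * k ^ 2 * κ))) +
        w e * (Real.exp (2 * ε * k) * (k * κ)) := by
    intro e he
    rw [Finset.mem_filter] at he
    rw [Ex_sum]
    have h4 : ∀ f ∈ univ.filter (fun f => v ∈ S f), Ex (qq S U w ε) (fun C =>
        gw S w ε e * gw S w ε f * (if S e ∪ S f ⊆ al S U C then 1 else 0)) ≤
        w e * w f * (Real.exp (-ε) * Real.exp (4 * ε * k ^ 2 * κ)) +
        w e * (Real.exp (2 * ε * k) *
          ∑ u ∈ (S e).erase v, (if u ∈ S f ∧ v ∈ S f then w f else 0)) := by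
      intro f hf
      rw [Finset.mem_filter] at hf
      rw [Ex_smul]
      exact nib4_pair h hκ hS hε he.2 hf.2
    refine (Finset.sum_le_sum h4).trans ?_
    rw [Finset.sum_add_distrib]
    have h5 : ∑ f with v ∈ S f, w e * w f * (Real.exp (-ε) * Real.exp (4 * ε * k ^ 2 * κ)) =
        w e * ((∑ f with v ∈ S f, w f) * (Real.exp (-ε) * Real.exp (4 * ε * k ^ 2 * κ))) := by
      rw [Finset.sum_mul, Finset.mul_sum]
      refine Finset.sum_congr rfl fun f _ => ?_
      ring
    have h6 : ∑ f with v ∈ S f, w e * (Real.exp (2 * ε * k) *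
          ∑ u ∈ (S e).erase v, (if u ∈ S f ∧ v ∈ S f then w f else 0)) ≤
        w e * (Real.exp (2 * ε * k) * (k * κ)) := by
      rw [← Finset.mul_sum, ← Finset.mul_sum, Finset.sum_comm]
      refine mul_le_mul_of_nonneg_left (mul_le_mul_of_nonneg_left ?_ (Real.exp_pos _).le) (h.nn e)
      have h7 : ∀ u ∈ (S e).erase v, ∑ f with v ∈ S f,
          (if u ∈ S f ∧ v ∈ S f then w f else 0) ≤ κ := by
        intro u hu
        rw [Finset.mem_erase] at hu
        have h8 := h.codeg u v hu.1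
        rw [Finset.sum_filter] at h8
        refine le_trans ?_ h8
        refine Finset.sum_le_sum_of_subset_of_nonneg (Finset.filter_subset _ _) fun f _ _ => ?_
        split_ifs
        · exact h.nn f
        · exact le_rfl
      refine (Finset.sum_le_sum h7).trans ?_
      rw [Finset.sum_const, nsmul_eq_mul]
      refine mul_le_mul_of_nonneg_right ?_ hκ
      have h9 : ((S e).erase v).card ≤ k := (Finset.card_le_card (Finset.erase_subset _ _)).trans (hS e)
      exact_mod_cast h9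
    linarith
  refine (Finset.sum_le_sum h3).trans ?_
  rw [Finset.sum_add_distrib, ← Finset.sum_mul, ← Finset.sum_mul]
  have hd : (∑ e with v ∈ S e, w e) = ndeg S w v := rfl
  rw [hd]
  have h10 : ndeg S w v * (Real.exp (2 * ε * k) * (k * κ)) ≤ Real.exp (2 * ε * k) * k * κ := by
    have h11 : 0 ≤ Real.exp (2 * ε * k) * (k * κ) :=
      mul_nonneg (Real.exp_pos _).le (mul_nonneg (Nat.cast_nonneg _) hκ)
    have := mul_le_mul_of_nonneg_right (h.deg v) h11
    linarith
  have h12 : ndeg S w v * (ndeg S w v * (Real.exp (-ε) * Real.exp (4 * ε * k ^ 2 * κ))) =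
      Real.exp (-ε) * Real.exp (4 * ε * k ^ 2 * κ) * (ndeg S w v) ^ 2 := by ring
  linarith

private theorem nib4_single {S : E → Finset V} {κ : ℝ} {U : Finset V} {w : E → ℝ} (h : NState S κ U w)
    {ε : ℝ} {v : V} (hv : v ∈ U) :
    Ex (qq S U w ε) (fun C => if v ∈ al S U C then 1 else 0) = Real.exp (-ε) := by
  have h1 := al_prob (S := S) (w := w) (ε := ε) (Finset.singleton_subset_iff.2 hv)
  rw [tau_singleton h hv, mul_one] at h1
  rw [← h1]
  congr 1
  funext C
  by_cases hC : v ∈ al S U C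
  · rw [if_pos hC, if_pos (Finset.singleton_subset_iff.2 hC)]
  · rw [if_neg hC, if_neg (fun hh => hC (Finset.singleton_subset_iff.1 hh))]

theorem var {S : E → Finset V} {κ : ℝ} {U : Finset V} {w : E → ℝ} (h : NState S κ U w) (hκ : 0 ≤ κ)
    {k : ℕ} (hS : ∀ e, (S e).card ≤ k) (hS1 : ∀ e, (S e).Nonempty) {ε : ℝ} (hε : 0 ≤ ε)
    {v : V} (hv : v ∈ U) :
    Ex (qq S U w ε) (fun C => if v ∈ al S U C then (DD S U w ε C v - ndeg S w v) ^ 2 else 0) ≤
      nu k ε κ := by
  have h1 : (fun C : Finset (E ⊕ V) =>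
      if v ∈ al S U C then (DD S U w ε C v - ndeg S w v) ^ 2 else 0) =
      fun C => (if v ∈ al S U C then (DD S U w ε C v) ^ 2 else 0) +
        ((-(2 * ndeg S w v)) * (if v ∈ al S U C then DD S U w ε C v else 0) +
          (ndeg S w v) ^ 2 * (if v ∈ al S U C then 1 else 0)) := by
    funext C
    by_cases hC : v ∈ al S U C
    · simp only [if_pos hC]
      ring
    · simp only [if_neg hC]
      ring
  rw [h1, Ex_add, Ex_add, Ex_smul, Ex_smul, nib4_single h hv]
  have h2 := mom1 h hS1 hε hv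
  have h3 := mom2 h hκ hS hS1 hε hv
  have hd0 := ndeg_nonneg h v
  have hd1 := h.deg v
  have h4 : (2 * ndeg S w v) * (Real.exp (-ε) * ndeg S w v) ≤ (2 * ndeg S w v) *
      Ex (qq S U w ε) (fun C => if v ∈ al S U C then DD S U w ε C v else 0) :=
    mul_le_mul_of_nonneg_left h2 (by linarith)
  have h5 : Real.exp (-ε) * (ndeg S w v) ^ 2 ≤ 1 := by
    have h6 : Real.exp (-ε) ≤ 1 := by
      rw [Real.exp_le_one_iff]
      linarith
    have h7 : (ndeg S w v) ^ 2 ≤ 1 := pow_le_one₀ hd0 hd1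
    calc Real.exp (-ε) * (ndeg S w v) ^ 2 ≤ 1 * 1 :=
        mul_le_mul h6 h7 (sq_nonneg _) zero_le_one
      _ = 1 := one_mul 1
  have h8 : 0 ≤ Real.exp (4 * ε * k ^ 2 * κ) - 1 := by
    have h9 : (1:ℝ) ≤ Real.exp (4 * ε * k ^ 2 * κ) := Real.one_le_exp (by positivity)
    linarith
  have h10 := mul_le_mul_of_nonneg_right h5 h8
  unfold nu
  have h11 : Real.exp (-ε) * Real.exp (4 * ε * k ^ 2 * κ) * (ndeg S w v) ^ 2 =
      Real.exp (-ε) * (ndeg S w v) ^ 2 * (Real.exp (4 * ε * k ^ 2 * κ) - 1) +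
      Real.exp (-ε) * (ndeg S w v) ^ 2 := by ring
  have h12 : (2 * ndeg S w v) * (Real.exp (-ε) * ndeg S w v) =
      2 * (Real.exp (-ε) * (ndeg S w v) ^ 2) := by ring
  have h13 : (ndeg S w v) ^ 2 * Real.exp (-ε) = Real.exp (-ε) * (ndeg S w v) ^ 2 := by ring
  rw [h11] at h3
  rw [h12] at h4
  rw [h13]
  have h14 : -(2 * ndeg S w v) * Ex (qq S U w ε) (fun C => if v ∈ al S U C then DD S U w ε C v else 0)
      = -((2 * ndeg S w v) *
      Ex (qq S U w ε) (fun C => if v ∈ al S U C then DD S U w ε C v else 0)) := by ring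
  rw [h14]
  linarith

theorem bd_exp {S : E → Finset V} {κ : ℝ} {U : Finset V} {w : E → ℝ} (h : NState S κ U w) (hκ : 0 ≤ κ)
    {k : ℕ} (hS : ∀ e, (S e).card ≤ k) (hS1 : ∀ e, (S e).Nonempty) {ε η : ℝ} (hε : 0 ≤ ε)
    (hη : 0 < η) :
    Ex (qq S U w ε) (fun C => ((bd S U w ε η C).card : ℝ)) ≤ nu k ε κ / η ^ 2 * U.card := by
  have h1 : ∀ C : Finset (E ⊕ V), ((bd S U w ε η C).card : ℝ) ≤
      ∑ v ∈ U, (1 / η ^ 2) * (if v ∈ al S U C then (DD S U w ε C v - ndeg S w v) ^ 2 else 0) := by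
    intro C
    have hbU : bd S U w ε η C ⊆ U := fun v hv => by
      unfold bd at hv
      rw [Finset.mem_filter] at hv
      exact (Finset.mem_filter.1 hv.1).1
    have h2 : ((bd S U w ε η C).card : ℝ) = ∑ v ∈ bd S U w ε η C, (1:ℝ) := by simp
    rw [h2]
    have h3 : ∀ v ∈ bd S U w ε η C, (1:ℝ) ≤
        (1 / η ^ 2) * (if v ∈ al S U C then (DD S U w ε C v - ndeg S w v) ^ 2 else 0) := by
      intro v hv
      unfold bd at hv
      rw [Finset.mem_filter] at hv
      rw [if_pos hv.1]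
      have h4 : η ≤ DD S U w ε C v - ndeg S w v := by linarith [hv.2]
      have h5 : η ^ 2 ≤ (DD S U w ε C v - ndeg S w v) ^ 2 := pow_le_pow_left₀ hη.le h4 2
      have h6 : 0 < η ^ 2 := by positivity
      rw [one_div, inv_mul_eq_div, le_div_iff₀ h6, one_mul]
      exact h5
    refine (Finset.sum_le_sum h3).trans ?_
    refine Finset.sum_le_sum_of_subset_of_nonneg hbU fun v _ _ => ?_
    refine mul_nonneg (by positivity) ?_
    split_ifs
    · exact sq_nonneg _
    · exact le_rfl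
  refine (nib4_q h hε h1).trans ?_
  rw [Ex_sum]
  have h2 : ∀ v ∈ U, Ex (qq S U w ε) (fun C => (1 / η ^ 2) *
      (if v ∈ al S U C then (DD S U w ε C v - ndeg S w v) ^ 2 else 0)) ≤ nu k ε κ / η ^ 2 := by
    intro v hv
    rw [Ex_smul]
    have h3 := var h hκ hS hS1 hε hv
    have h4 : (0:ℝ) ≤ 1 / η ^ 2 := by positivity
    have h5 := mul_le_mul_of_nonneg_left h3 h4
    calc _ ≤ 1 / η ^ 2 * nu k ε κ := h5
      _ = _ := by ring
  refine (Finset.sum_le_sum h2).trans ?_
  rw [Finset.sum_const, nsmul_eq_mul, mul_comm]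

end SSB
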