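import Pool.Agent.Lib.MP_8a819d_co.BD.Nib2

/-!
# MP_8a819d_co: the nibble, 5. The new state (deterministic facts)

JOB Nib5 (all of this file). Here `C` is any set of choices. `A = al S U C`, `B = bd S U w ε η C`.

* `DD_le`: `DD v ≤ exp (ε k) * ndeg v` (as `gw e ≤ w e * exp (ε k)`, `w e ≥ 0`).
* `wn_state`: `wn` is nonnegative and supported by edges inside `A \ B ⊆ A`; degree of `v`: if
  `v ∉ A \ B` no edge `e ∋ v` with `S e ⊆ A \ B`, so `0`; otherwise `∑ wn e ≤ DD v / (1 + η)` and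
  `DD v ≤ ndeg v + η ≤ 1 + η` since `v ∉ B`. Codegrees: `wn e ≤ gw e ≤ w e * exp (ε k)`.
* `wn_pos`: `wn e ≠ 0` implies `gw e ≠ 0`, so `w e ≠ 0`.
* `M1_disj`, `M1_al`: definitions.
* `miss`: for `v ∈ A \ B` let `lost v = ∑ e ∋ v, S e ⊆ A, ¬ S e ⊆ A \ B, gw e`; then
  `ndeg (wn) v = (DD v - lost v) / (1 + η)`, so `1 - ndeg (wn) v ≤ (1 - DD v) + η + lost v`
  (because `DD v ≤ 1 + η`, `1 - DD/(1+η) = 1 - DD + η DD/(1+η) ≤ 1 - DD + η`, and `lost ≥ 0`); for
  `v ∈ B`: `ndeg (wn) v = 0` and `1 ≤ (1 - DD v) + exp (ε k)` by `DD_le` and `ndeg ≤ 1`.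
  Sum over `v ∈ V0 ∩ A`; `∑ v ∈ A, lost v ≤ ∑ u ∈ B, ∑ e ∋ u, |S e| gw e ≤ k exp (ε k) |B|`
  (every such `e` meets `B`); altogether (using `k ≥ 1`) the claim.
-/

set_option autoImplicit false

namespace SSB

open Finset

variable {V E : Type} [Fintype V] [Fintype E] [DecidableEq V] [DecidableEq E]

private theorem nib5_gw_nn {S : E → Finset V} {κ : ℝ} {U : Finset V} {w : E → ℝ}
    (h : NState S κ U w) (ε : ℝ) (e : E) : 0 ≤ gw S w ε e :=
  mul_nonneg (h.nn e) (Real.exp_pos _).le

private theorem nib5_al_sub (S : E → Finset V) (U : Finset V) (C : Finset (E ⊕ V)) :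
    al S U C ⊆ U := Finset.filter_subset _ _

theorem gw_le {S : E → Finset V} {κ : ℝ} {U : Finset V} {w : E → ℝ} (h : NState S κ U w)
    {k : ℕ} (hS : ∀ e, (S e).card ≤ k) {ε : ℝ} (hε : 0 ≤ ε) (e : E) :
    gw S w ε e ≤ w e * Real.exp (ε * k) := by
  unfold gw
  refine mul_le_mul_of_nonneg_left (Real.exp_le_exp.2 ?_) (h.nn e)
  refine mul_le_mul_of_nonneg_left ?_ hε
  have h1 : ((S e).card : ℝ) ≤ k := Nat.cast_le.2 (hS e)
  linarith

theorem DD_le {S : E → Finset V} {κ : ℝ} {U : Finset V} {w : E → ℝ} (h : NState S κ U w)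
    {k : ℕ} (hS : ∀ e, (S e).card ≤ k) {ε : ℝ} (hε : 0 ≤ ε) (C : Finset (E ⊕ V)) (v : V) :
    DD S U w ε C v ≤ Real.exp (ε * k) * ndeg S w v := by
  unfold DD ndeg
  rw [Finset.mul_sum]
  calc ∑ e with (v ∈ S e ∧ S e ⊆ al S U C), gw S w ε e
      ≤ ∑ e with v ∈ S e, gw S w ε e := by
        refine Finset.sum_le_sum_of_subset_of_nonneg ?_ fun e _ _ => nib5_gw_nn h ε e
        intro e he
        rw [Finset.mem_filter] at he ⊢
        exact ⟨he.1, he.2.1⟩
    _ ≤ ∑ e with v ∈ S e, Real.exp (ε * k) * w e := by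
        refine Finset.sum_le_sum fun e _ => ?_
        rw [mul_comm]
        exact gw_le h hS hε e

theorem wn_state {S : E → Finset V} {κ : ℝ} {U : Finset V} {w : E → ℝ} (h : NState S κ U w)
    {k : ℕ} (hS : ∀ e, (S e).card ≤ k) (hS1 : ∀ e, (S e).Nonempty) {ε η : ℝ} (hε : 0 ≤ ε)
    (hη : 0 < η) (C : Finset (E ⊕ V)) :
    NState S (κ * Real.exp (ε * k)) (al S U C) (wn S U w ε η C) := by
  have hη1 : (0 : ℝ) < 1 + η := by linarith
  have hle : ∀ e, wn S U w ε η C e ≤ gw S w ε e := by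
    intro e
    unfold wn
    split_ifs
    · rw [div_le_iff₀ hη1]
      nlinarith [nib5_gw_nn h ε e]
    · exact nib5_gw_nn h ε e
  refine ⟨fun e => ?_, fun e he => ?_, fun v => ?_, fun u v huv => ?_⟩
  · unfold wn
    split_ifs
    · exact div_nonneg (nib5_gw_nn h ε e) hη1.le
    · exact le_refl _
  · unfold wn at he
    by_cases h1 : S e ⊆ al S U C \ bd S U w ε η C
    · exact h1.trans Finset.sdiff_subset
    · rw [if_neg h1] at he
      exact absurd rfl he
  · by_cases hv : v ∈ al S U C \ bd S U w ε η C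
    · have hv1 := (Finset.mem_sdiff.1 hv).1
      have hv2 : DD S U w ε C v ≤ ndeg S w v + η := by
        by_contra hcon
        exact (Finset.mem_sdiff.1 hv).2 (Finset.mem_filter.2 ⟨hv1, not_le.1 hcon⟩)
      have h2 : ndeg S (wn S U w ε η C) v ≤ DD S U w ε C v / (1 + η) := by
        unfold ndeg DD
        rw [Finset.sum_div, ← Finset.filter_filter, Finset.sum_filter (p := fun e => S e ⊆ al S U C)]
        refine Finset.sum_le_sum fun e _ => ?_
        unfold wn
        by_cases h3 : S e ⊆ al S U C \ bd S U w ε η C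
        · rw [if_pos h3, if_pos (h3.trans Finset.sdiff_subset)]
        · rw [if_neg h3]
          split_ifs
          · exact div_nonneg (nib5_gw_nn h ε e) hη1.le
          · exact le_refl _
      refine h2.trans ((div_le_one hη1).2 ?_)
      linarith [h.deg v]
    · have h2 : ndeg S (wn S U w ε η C) v = 0 := by
        unfold ndeg
        refine Finset.sum_eq_zero fun e he => ?_
        unfold wn
        rw [if_neg]
        exact fun h3 => hv (h3 (Finset.mem_filter.1 he).2)
      rw [h2]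
      exact zero_le_one
  · calc ∑ e with (u ∈ S e ∧ v ∈ S e), wn S U w ε η C e
        ≤ ∑ e with (u ∈ S e ∧ v ∈ S e), w e * Real.exp (ε * k) :=
          Finset.sum_le_sum fun e _ => (hle e).trans (gw_le h hS hε e)
      _ = (∑ e with (u ∈ S e ∧ v ∈ S e), w e) * Real.exp (ε * k) := by rw [Finset.sum_mul]
      _ ≤ κ * Real.exp (ε * k) :=
          mul_le_mul_of_nonneg_right (h.codeg u v huv) (Real.exp_pos _).le

theorem wn_pos {S : E → Finset V} {U : Finset V} {w : E → ℝ} {ε η : ℝ} {C : Finset (E ⊕ V)} {e : E}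
    (h : wn S U w ε η C e ≠ 0) : w e ≠ 0 := by
  intro hw
  apply h
  unfold wn gw
  rw [hw, zero_mul, zero_div, ite_self]

theorem M1_disj {S : E → Finset V} {C : Finset (E ⊕ V)} :
    ∀ e ∈ M1 S C, ∀ f ∈ M1 S C, e ≠ f → Disjoint (S e) (S f) := by
  intro e he f hf hef
  unfold M1 at he hf
  exact (Finset.mem_filter.1 he).2.2 f (Finset.mem_filter.1 hf).2.1 hef.symm

theorem M1_al {S : E → Finset V} {U : Finset V} {C : Finset (E ⊕ V)} :
    ∀ e ∈ M1 S C, Disjoint (S e) (al S U C) := by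
  intro e he
  unfold M1 at he
  rw [Finset.disjoint_left]
  intro v hv hv'
  unfold al at hv'
  exact (Finset.mem_filter.1 hv').2.2 e (Finset.mem_filter.1 he).2.1 hv

/-- the weight lost at `v` -/
private noncomputable def nib5_lost (S : E → Finset V) (U : Finset V) (w : E → ℝ) (ε η : ℝ)
    (C : Finset (E ⊕ V)) (v : V) : ℝ :=
  ∑ e, if (v ∈ S e ∧ S e ⊆ al S U C ∧ ¬ S e ⊆ al S U C \ bd S U w ε η C) then gw S w ε e else 0

private theorem nib5_lost_nn {S : E → Finset V} {κ : ℝ} {U : Finset V} {w : E → ℝ}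
    (h : NState S κ U w) (ε η : ℝ) (C : Finset (E ⊕ V)) (v : V) :
    0 ≤ nib5_lost S U w ε η C v := by
  unfold nib5_lost
  refine Finset.sum_nonneg fun e _ => ?_
  split_ifs
  · exact nib5_gw_nn h ε e
  · exact le_refl _

private theorem nib5_ndeg {S : E → Finset V} {U : Finset V} {w : E → ℝ} (ε η : ℝ)
    (C : Finset (E ⊕ V)) (v : V) :
    ndeg S (wn S U w ε η C) v = (DD S U w ε C v - nib5_lost S U w ε η C v) / (1 + η) := by
  unfold ndeg DD nib5_lost
  rw [Finset.sum_filter, Finset.sum_filter, ← Finset.sum_sub_distrib, Finset.sum_div]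
  refine Finset.sum_congr rfl fun e _ => ?_
  unfold wn
  by_cases hv : v ∈ S e
  · rw [if_pos hv]
    by_cases h3 : S e ⊆ al S U C \ bd S U w ε η C
    · rw [if_pos h3, if_pos ⟨hv, h3.trans Finset.sdiff_subset⟩, if_neg (fun h4 => h4.2.2 h3),
        sub_zero]
    · rw [if_neg h3]
      by_cases h4 : S e ⊆ al S U C
      · rw [if_pos ⟨hv, h4⟩, if_pos ⟨hv, h4, h3⟩, sub_self, zero_div]
      · rw [if_neg (fun h5 => h4 h5.2), if_neg (fun h5 => h4 h5.2.1), sub_self, zero_div]
  · rw [if_neg hv, if_neg (fun h5 => hv h5.1), if_neg (fun h5 => hv h5.1), sub_self, zero_div]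

private theorem nib5_lost_sum {S : E → Finset V} {κ : ℝ} {U : Finset V} {w : E → ℝ}
    (h : NState S κ U w) {k : ℕ} (hS : ∀ e, (S e).card ≤ k) {ε : ℝ} (hε : 0 ≤ ε) (η : ℝ)
    (C : Finset (E ⊕ V)) :
    ∑ v ∈ al S U C, nib5_lost S U w ε η C v ≤
      k * Real.exp (ε * k) * (bd S U w ε η C).card := by
  have h0 := nib5_gw_nn h ε
  have hk0 : (0 : ℝ) ≤ k := Nat.cast_nonneg k
  have h1 : ∀ e, (∑ v ∈ al S U C,
      if (v ∈ S e ∧ S e ⊆ al S U C ∧ ¬ S e ⊆ al S U C \ bd S U w ε η C) then gw S w ε e else 0) ≤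
      ∑ u ∈ bd S U w ε η C, if u ∈ S e then k * gw S w ε e else 0 := by
    intro e
    have hnn : ∀ u ∈ bd S U w ε η C, 0 ≤ (if u ∈ S e then k * gw S w ε e else 0 : ℝ) := by
      intro u _
      split_ifs
      · exact mul_nonneg hk0 (h0 e)
      · exact le_refl _
    by_cases hP : S e ⊆ al S U C ∧ ¬ S e ⊆ al S U C \ bd S U w ε η C
    · obtain ⟨u, hu, hu'⟩ := Finset.not_subset.1 hP.2
      have hub : u ∈ bd S U w ε η C := by
        by_contra hcon
        exact hu' (Finset.mem_sdiff.2 ⟨hP.1 hu, hcon⟩)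
      calc (∑ v ∈ al S U C, if (v ∈ S e ∧ S e ⊆ al S U C ∧
              ¬ S e ⊆ al S U C \ bd S U w ε η C) then gw S w ε e else 0)
          = ∑ v ∈ (al S U C).filter (fun v => v ∈ S e), gw S w ε e := by
            rw [Finset.sum_filter]
            refine Finset.sum_congr rfl fun v _ => ?_
            by_cases hv : v ∈ S e
            · rw [if_pos hv, if_pos ⟨hv, hP⟩]
            · rw [if_neg hv, if_neg (fun h5 => hv h5.1)]
        _ = ((al S U C).filter (fun v => v ∈ S e)).card * gw S w ε e := by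
            rw [Finset.sum_const, nsmul_eq_mul]
        _ ≤ k * gw S w ε e := by
            refine mul_le_mul_of_nonneg_right (Nat.cast_le.2 ?_) (h0 e)
            refine le_trans (Finset.card_le_card fun v hv => ?_) (hS e)
            exact (Finset.mem_filter.1 hv).2
        _ = if u ∈ S e then k * gw S w ε e else 0 := by rw [if_pos hu]
        _ ≤ _ := Finset.single_le_sum
              (f := fun u => (if u ∈ S e then k * gw S w ε e else 0 : ℝ)) hnn hub
    · rw [Finset.sum_eq_zero fun v _ => if_neg fun h5 => hP h5.2]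
      exact Finset.sum_nonneg hnn
  unfold nib5_lost
  rw [Finset.sum_comm]
  refine (Finset.sum_le_sum fun e _ => h1 e).trans ?_
  rw [Finset.sum_comm]
  have h2 : ∀ u ∈ bd S U w ε η C,
      (∑ e, if u ∈ S e then k * gw S w ε e else 0 : ℝ) ≤ k * Real.exp (ε * k) := by
    intro u _
    rw [← Finset.sum_filter, ← Finset.mul_sum]
    refine mul_le_mul_of_nonneg_left ?_ hk0
    calc ∑ e with u ∈ S e, gw S w ε e ≤ ∑ e with u ∈ S e, w e * Real.exp (ε * k) :=
          Finset.sum_le_sum fun e _ => gw_le h hS hε e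
      _ = ndeg S w u * Real.exp (ε * k) := by
          unfold ndeg
          rw [Finset.sum_mul]
      _ ≤ 1 * Real.exp (ε * k) := mul_le_mul_of_nonneg_right (h.deg u) (Real.exp_pos _).le
      _ = Real.exp (ε * k) := one_mul _
  refine (Finset.sum_le_sum h2).trans ?_
  rw [Finset.sum_const, nsmul_eq_mul, mul_comm]

theorem miss {S : E → Finset V} {κ : ℝ} {U : Finset V} {w : E → ℝ} (h : NState S κ U w)
    {k : ℕ} (hk : 1 ≤ k) (hS : ∀ e, (S e).card ≤ k) {ε η : ℝ} (hε : 0 ≤ ε)
    (hη : 0 < η) (C : Finset (E ⊕ V)) (V0 : Finset V) :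
    ∑ v ∈ V0 ∩ al S U C, (1 - ndeg S (wn S U w ε η C) v) ≤
      ∑ v ∈ V0 ∩ al S U C, (1 - DD S U w ε C v) + η * U.card +
        2 * k * Real.exp (ε * k) * (bd S U w ε η C).card := by
  have hη1 : (0 : ℝ) < 1 + η := by linarith
  have hE := Real.exp_pos (ε * k)
  have hk1 : (1 : ℝ) ≤ k := by exact_mod_cast hk
  have key : ∀ v ∈ V0 ∩ al S U C, 1 - ndeg S (wn S U w ε η C) v ≤
      (1 - DD S U w ε C v) + η + (nib5_lost S U w ε η C v +
        if v ∈ bd S U w ε η C then Real.exp (ε * k) else 0) := by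
    intro v hv
    have hl := nib5_lost_nn h ε η C v
    by_cases hb : v ∈ bd S U w ε η C
    · rw [if_pos hb]
      have h1 : 0 ≤ ndeg S (wn S U w ε η C) v := by
        unfold ndeg
        refine Finset.sum_nonneg fun e _ => ?_
        unfold wn
        split_ifs
        · exact div_nonneg (nib5_gw_nn h ε e) hη1.le
        · exact le_refl _
      have h2 := DD_le h hS hε C v (U := U)
      have h3 : Real.exp (ε * k) * ndeg S w v ≤ Real.exp (ε * k) * 1 :=
        mul_le_mul_of_nonneg_left (h.deg v) hE.le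
      linarith
    · rw [if_neg hb, nib5_ndeg]
      have hv1 := (Finset.mem_inter.1 hv).2
      have hv2 : DD S U w ε C v ≤ ndeg S w v + η := by
        by_contra hcon
        exact hb (Finset.mem_filter.2 ⟨hv1, not_le.1 hcon⟩)
      have hv3 : DD S U w ε C v ≤ 1 + η := by linarith [h.deg v]
      have h4 : DD S U w ε C v - nib5_lost S U w ε η C v - η ≤
          (DD S U w ε C v - nib5_lost S U w ε η C v) / (1 + η) := by
        rw [le_div_iff₀ hη1]
        nlinarith
      linarith
  refine (Finset.sum_le_sum key).trans ?_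
  rw [Finset.sum_add_distrib, Finset.sum_add_distrib, Finset.sum_const, nsmul_eq_mul]
  have h5 : ((V0 ∩ al S U C).card : ℝ) * η ≤ η * U.card := by
    rw [mul_comm]
    refine mul_le_mul_of_nonneg_left (Nat.cast_le.2 (Finset.card_le_card ?_)) hη.le
    exact Finset.inter_subset_right.trans (nib5_al_sub S U C)
  have h6 : ∑ v ∈ V0 ∩ al S U C, (nib5_lost S U w ε η C v +
      if v ∈ bd S U w ε η C then Real.exp (ε * k) else 0) ≤
      2 * k * Real.exp (ε * k) * (bd S U w ε η C).card := by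
    have h7 : ∑ v ∈ V0 ∩ al S U C, (nib5_lost S U w ε η C v +
        if v ∈ bd S U w ε η C then Real.exp (ε * k) else 0) ≤
        ∑ v ∈ al S U C, (nib5_lost S U w ε η C v +
        if v ∈ bd S U w ε η C then Real.exp (ε * k) else 0) := by
      refine Finset.sum_le_sum_of_subset_of_nonneg Finset.inter_subset_right fun v _ _ => ?_
      refine add_nonneg (nib5_lost_nn h ε η C v) ?_
      split_ifs
      · exact hE.le
      · exact le_refl _
    refine h7.trans ?_
    rw [Finset.sum_add_distrib]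
    have h8 := nib5_lost_sum h hS hε η C
    have h9 : (∑ v ∈ al S U C, if v ∈ bd S U w ε η C then Real.exp (ε * k) else 0) ≤
        k * Real.exp (ε * k) * (bd S U w ε η C).card := by
      rw [← Finset.sum_filter, Finset.sum_const, nsmul_eq_mul]
      have h10 : (((al S U C).filter (fun v => v ∈ bd S U w ε η C)).card : ℝ) ≤
          (bd S U w ε η C).card := by
        refine Nat.cast_le.2 (Finset.card_le_card fun v hv => ?_)
        exact (Finset.mem_filter.1 hv).2
      have h11 : (0 : ℝ) ≤ (bd S U w ε η C).card := Nat.cast_nonneg _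
      calc (((al S U C).filter (fun v => v ∈ bd S U w ε η C)).card : ℝ) * Real.exp (ε * k)
          ≤ (bd S U w ε η C).card * Real.exp (ε * k) := mul_le_mul_of_nonneg_right h10 hE.le
        _ = 1 * (Real.exp (ε * k) * (bd S U w ε η C).card) := by ring
        _ ≤ k * (Real.exp (ε * k) * (bd S U w ε η C).card) :=
            mul_le_mul_of_nonneg_right hk1 (mul_nonneg hE.le h11)
        _ = k * Real.exp (ε * k) * (bd S U w ε η C).card := by ring
    linarith
  linarith

end SSB
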