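import Pool.Agent.Lib.MP_8a819d_co.BD.Nib4
import Pool.Agent.Lib.MP_8a819d_co.BD.Nib5

/-!
# MP_8a819d_co: the nibble, 6. One step

JOB Nib6 (all of this file).

* `ls_exp`: if `v ∈ ls` (so `v ∈ V0 ∩ U`, `v` touched and not covered by `M1`) then either
  `inr v ∈ C` or there are `e ∋ v` and `f ≠ e` with `inl e, inl f ∈ C` and `S e`, `S f` not disjoint.
  Hence `E |ls| ≤ ∑ v ∈ V0 ∩ U, (q (inr v) + ∑ e ∋ v, ∑ f ≠ e meeting S e, q (inl e) q (inl f))`
  (`pw_one`, `pw_two`) `≤ ∑ v (ε sg v + ∑ e ∋ v, ε w e * ∑ u ∈ S e, ∑ f ∋ u, ε w f)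
  ≤ ∑ v (ε sg v + ε^2 k)` as all degrees are `≤ 1`. (An edge `e` with `w e = 0` contributes `0`.)
* `alive_exp`: `E |al| = exp (-ε) |U|` (`al_prob` for singletons, `tau_singleton`).
* `miss_exp`: `E ∑ v ∈ V0 ∩ al, (1 - DD v) ≤ exp (-ε) ∑ v ∈ V0 ∩ U, (1 - ndeg v)`: `mom1` and
  `alive` for each `v`.
* `nib_step`: the function
  `Φ C = |ls C| + ρ |al C| + c ∑ v ∈ V0 ∩ al C, (1 - ndeg (wn C) v)` has expectation at most the right
  hand side (`miss` of Nib5, `Ex_mono`, linearity, `bd_exp`, `ls_exp`, `alive_exp`, `miss_exp`); take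
  `C` from `exists_le` and `M = M1 S C`, `U' = al S U C`, `w' = wn S U w ε η C`. Every `e ∈ M1 S C` has
  `inl e ∈ C`, so `q (inl e) ≠ 0`, so `w e ≠ 0`. The vertices of `V0 ∩ U` outside `U'` and not covered
  by `M` are those of `ls C`.
-/

set_option autoImplicit false

namespace SSB

open Finset

variable {V E : Type} [Fintype V] [Fintype E] [DecidableEq V] [DecidableEq E]

private theorem nib6_ls_point {S : E → Finset V} (U V0 : Finset V) (C : Finset (E ⊕ V)) :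
    ((ls S U V0 C).card : ℝ) ≤ ∑ v ∈ V0 ∩ U, ((if Sum.inr v ∈ C then (1 : ℝ) else 0) +
      ∑ e with v ∈ S e, ∑ f with (f ≠ e ∧ ¬ Disjoint (S e) (S f)),
        (if Sum.inl e ∈ C ∧ Sum.inl f ∈ C then (1 : ℝ) else 0)) := by
  have h1 : ((ls S U V0 C).card : ℝ) = ∑ v ∈ V0 ∩ U,
      if (v ∉ al S U C ∧ ∀ e ∈ M1 S C, v ∉ S e) then (1 : ℝ) else 0 := by
    rw [ls, card_filter]
    push_cast
    rfl
  rw [h1]
  refine Finset.sum_le_sum fun v hv => ?_
  have hvU : v ∈ U := (mem_inter.1 hv).2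
  have hS0 : 0 ≤ ∑ e with v ∈ S e, ∑ f with (f ≠ e ∧ ¬ Disjoint (S e) (S f)),
      (if Sum.inl e ∈ C ∧ Sum.inl f ∈ C then (1 : ℝ) else 0) :=
    sum_nonneg fun e _ => sum_nonneg fun f _ => by split_ifs <;> norm_num
  by_cases hls : v ∉ al S U C ∧ ∀ e ∈ M1 S C, v ∉ S e
  · rw [if_pos hls]
    by_cases hr : Sum.inr v ∈ C
    · rw [if_pos hr]
      linarith
    · rw [if_neg hr, zero_add]
      have hex : ∃ e, Sum.inl e ∈ C ∧ v ∈ S e := by
        by_contra hcon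
        push Not at hcon
        exact hls.1 (mem_filter.2 ⟨hvU, hr, hcon⟩)
      obtain ⟨e, heC, hve⟩ := hex
      have hf : ∃ f, Sum.inl f ∈ C ∧ f ≠ e ∧ ¬ Disjoint (S e) (S f) := by
        by_contra hcon
        push Not at hcon
        exact hls.2 e (mem_filter.2 ⟨mem_univ _, heC, hcon⟩) hve
      obtain ⟨f, hfC, hfe, hd⟩ := hf
      have h2 : (1 : ℝ) ≤ ∑ f with (f ≠ e ∧ ¬ Disjoint (S e) (S f)),
          (if Sum.inl e ∈ C ∧ Sum.inl f ∈ C then (1 : ℝ) else 0) := by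
        have h3 : (if Sum.inl e ∈ C ∧ Sum.inl f ∈ C then (1 : ℝ) else 0) ≤
            ∑ f with (f ≠ e ∧ ¬ Disjoint (S e) (S f)),
              (if Sum.inl e ∈ C ∧ Sum.inl f ∈ C then (1 : ℝ) else 0) :=
          single_le_sum (f := fun f => if Sum.inl e ∈ C ∧ Sum.inl f ∈ C then (1 : ℝ) else 0)
            (fun f _ => by show (0 : ℝ) ≤ ite _ _ _; split_ifs <;> norm_num)
            (mem_filter.2 ⟨mem_univ _, hfe, hd⟩)
        rw [if_pos ⟨heC, hfC⟩] at h3
        exact h3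
      refine h2.trans ?_
      exact single_le_sum
        (f := fun e => ∑ f with (f ≠ e ∧ ¬ Disjoint (S e) (S f)),
          (if Sum.inl e ∈ C ∧ Sum.inl f ∈ C then (1 : ℝ) else 0))
        (fun e _ => sum_nonneg fun f _ => by split_ifs <;> norm_num)
        (mem_filter.2 ⟨mem_univ _, hve⟩)
  · rw [if_neg hls]
    have : (0 : ℝ) ≤ if Sum.inr v ∈ C then (1 : ℝ) else 0 := by split_ifs <;> norm_num
    linarith

private theorem nib6_nbr {S : E → Finset V} {κ : ℝ} {U : Finset V} {w : E → ℝ}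
    (h : NState S κ U w) {k : ℕ} (hS : ∀ e, (S e).card ≤ k) (e : E) :
    ∑ f with (f ≠ e ∧ ¬ Disjoint (S e) (S f)), w f ≤ k := by
  have h1 : ∑ f with (f ≠ e ∧ ¬ Disjoint (S e) (S f)), w f ≤
      ∑ u ∈ S e, ∑ f with u ∈ S f, w f := by
    have h2 : ∑ u ∈ S e, ∑ f with u ∈ S f, w f = ∑ f, ∑ u ∈ S e, if u ∈ S f then w f else 0 := by
      rw [sum_comm]
      exact sum_congr rfl fun u _ => sum_filter _ _
    rw [h2, sum_filter]
    refine sum_le_sum fun f _ => ?_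
    have h0 : ∀ u ∈ S e, (0 : ℝ) ≤ if u ∈ S f then w f else 0 := by
      intro u _
      split_ifs
      · exact h.nn f
      · exact le_rfl
    split_ifs with hf
    · obtain ⟨u, hu1, hu2⟩ := not_disjoint_iff.1 hf.2
      have h3 := single_le_sum h0 hu1
      rw [if_pos hu2] at h3
      exact h3
    · exact sum_nonneg h0
  refine h1.trans ?_
  calc ∑ u ∈ S e, ∑ f with u ∈ S f, w f ≤ ∑ u ∈ S e, (1 : ℝ) := sum_le_sum fun u _ => h.deg u
    _ = (S e).card := by rw [sum_const, nsmul_eq_mul, mul_one]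
    _ ≤ k := by exact_mod_cast hS e

theorem ls_exp {S : E → Finset V} {κ : ℝ} {U : Finset V} {w : E → ℝ} (h : NState S κ U w)
    {k : ℕ} (hS : ∀ e, (S e).card ≤ k) {ε : ℝ} (hε : 0 ≤ ε) (V0 : Finset V) :
    Ex (qq S U w ε) (fun C => ((ls S U V0 C).card : ℝ)) ≤
      ε * ∑ v ∈ V0 ∩ U, (1 - ndeg S w v) + k * ε ^ 2 * U.card := by
  have h1 : Ex (qq S U w ε) (fun C => ((ls S U V0 C).card : ℝ)) ≤
      Ex (qq S U w ε) (fun C => ∑ v ∈ V0 ∩ U, ((if Sum.inr v ∈ C then (1 : ℝ) else 0) +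
        ∑ e with v ∈ S e, ∑ f with (f ≠ e ∧ ¬ Disjoint (S e) (S f)),
          (if Sum.inl e ∈ C ∧ Sum.inl f ∈ C then (1 : ℝ) else 0))) :=
    Ex_mono (qq_nonneg h hε) (qq_le h hε) fun C => nib6_ls_point U V0 C
  refine h1.trans ?_
  rw [Ex_sum]
  have h2 : ∀ v ∈ V0 ∩ U, Ex (qq S U w ε) (fun C => ((if Sum.inr v ∈ C then (1 : ℝ) else 0) +
        ∑ e with v ∈ S e, ∑ f with (f ≠ e ∧ ¬ Disjoint (S e) (S f)),
          (if Sum.inl e ∈ C ∧ Sum.inl f ∈ C then (1 : ℝ) else 0))) ≤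
      ε * (1 - ndeg S w v) + k * ε ^ 2 := by
    intro v hv
    have hvU : v ∈ U := (mem_inter.1 hv).2
    rw [Ex_add, Ex_sum]
    refine add_le_add ?_ ?_
    · rw [pw_one]
      have h3 := qq_inr_le (S := S) (U := U) (w := w) (ε := ε) v
      rw [sg, if_pos hvU] at h3
      exact h3
    · have h3 : ∀ e ∈ univ.filter (fun e => v ∈ S e), Ex (qq S U w ε) (fun C =>
          ∑ f with (f ≠ e ∧ ¬ Disjoint (S e) (S f)),
            (if Sum.inl e ∈ C ∧ Sum.inl f ∈ C then (1 : ℝ) else 0)) ≤ ε * w e * (ε * k) := by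
        intro e _
        rw [Ex_sum]
        calc ∑ f with (f ≠ e ∧ ¬ Disjoint (S e) (S f)), Ex (qq S U w ε) (fun C =>
              (if Sum.inl e ∈ C ∧ Sum.inl f ∈ C then (1 : ℝ) else 0)) ≤
            ∑ f with (f ≠ e ∧ ¬ Disjoint (S e) (S f)), ε * w e * (ε * w f) := by
              refine sum_le_sum fun f hf => ?_
              have hne : (Sum.inl e : E ⊕ V) ≠ Sum.inl f := fun hh =>
                (mem_filter.1 hf).2.1 (Sum.inl.inj hh).symm
              rw [pw_two _ hne]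
              exact mul_le_mul (qq_inl_le e) (qq_inl_le f) (qq_nonneg h hε _)
                (mul_nonneg hε (h.nn e))
          _ = ε * w e * (ε * ∑ f with (f ≠ e ∧ ¬ Disjoint (S e) (S f)), w f) := by
              rw [mul_sum, mul_sum]
          _ ≤ ε * w e * (ε * k) :=
              mul_le_mul_of_nonneg_left (mul_le_mul_of_nonneg_left (nib6_nbr h hS e) hε)
                (mul_nonneg hε (h.nn e))
      refine (sum_le_sum h3).trans ?_
      have h4 : ∑ e with v ∈ S e, ε * w e * (ε * k) = k * ε ^ 2 * ndeg S w v := by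
        rw [ndeg, mul_sum]
        exact sum_congr rfl fun e _ => by ring
      rw [h4]
      exact mul_le_of_le_one_right (by positivity) (h.deg v)
  refine (sum_le_sum h2).trans ?_
  rw [sum_add_distrib, ← mul_sum, sum_const, nsmul_eq_mul]
  have h5 : ((V0 ∩ U).card : ℝ) ≤ U.card := by
    exact_mod_cast card_le_card (inter_subset_right)
  have h6 : ((V0 ∩ U).card : ℝ) * (k * ε ^ 2) ≤ U.card * (k * ε ^ 2) :=
    mul_le_mul_of_nonneg_right h5 (by positivity)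
  linarith

private theorem nib6_single {S : E → Finset V} {κ : ℝ} {U : Finset V} {w : E → ℝ}
    (h : NState S κ U w) {ε : ℝ} {v : V} (hv : v ∈ U) :
    Ex (qq S U w ε) (fun C => if v ∈ al S U C then (1 : ℝ) else 0) = Real.exp (-ε) := by
  have h1 := al_prob (S := S) (w := w) (ε := ε) (singleton_subset_iff.2 hv)
  rw [tau_singleton h hv, mul_one] at h1
  rw [← h1]
  refine congrArg (Ex (qq S U w ε)) (funext fun C => ?_)
  by_cases hC : v ∈ al S U C
  · rw [if_pos hC, if_pos (singleton_subset_iff.2 hC)]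
  · rw [if_neg hC, if_neg fun hh => hC (singleton_subset_iff.1 hh)]

theorem alive_exp {S : E → Finset V} {κ : ℝ} {U : Finset V} {w : E → ℝ} (h : NState S κ U w)
    {ε : ℝ} : Ex (qq S U w ε) (fun C => ((al S U C).card : ℝ)) = Real.exp (-ε) * U.card := by
  have h1 : (fun C => ((al S U C).card : ℝ)) =
      fun C => ∑ v ∈ U, (if v ∈ al S U C then (1 : ℝ) else 0) := by
    funext C
    have h2 : al S U C = U.filter (fun v => v ∈ al S U C) := by
      ext v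
      rw [mem_filter]
      exact ⟨fun hh => ⟨(mem_filter.1 hh).1, hh⟩, fun hh => hh.2⟩
    conv_lhs => rw [h2]
    rw [card_filter]
    push_cast
    rfl
  rw [h1, Ex_sum, sum_congr rfl fun v hv => nib6_single h hv, sum_const, nsmul_eq_mul, mul_comm]

theorem miss_exp {S : E → Finset V} {κ : ℝ} {U : Finset V} {w : E → ℝ} (h : NState S κ U w)
    (hS1 : ∀ e, (S e).Nonempty) {ε : ℝ} (hε : 0 ≤ ε) (V0 : Finset V) :
    Ex (qq S U w ε) (fun C => ∑ v ∈ V0 ∩ al S U C, (1 - DD S U w ε C v)) ≤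
      Real.exp (-ε) * ∑ v ∈ V0 ∩ U, (1 - ndeg S w v) := by
  have h1 : (fun C => ∑ v ∈ V0 ∩ al S U C, (1 - DD S U w ε C v)) =
      fun C => ∑ v ∈ V0 ∩ U, ((if v ∈ al S U C then (1 : ℝ) else 0) +
        (-1) * (if v ∈ al S U C then DD S U w ε C v else 0)) := by
    funext C
    have h2 : V0 ∩ al S U C = (V0 ∩ U).filter (fun v => v ∈ al S U C) := by
      ext v
      rw [mem_filter, mem_inter, mem_inter]
      exact ⟨fun hh => ⟨⟨hh.1, (mem_filter.1 hh.2).1⟩, hh.2⟩, fun hh => ⟨hh.1.1, hh.2⟩⟩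
    rw [h2, sum_filter]
    refine sum_congr rfl fun v _ => ?_
    split_ifs <;> ring
  rw [h1, Ex_sum, mul_sum]
  refine sum_le_sum fun v hv => ?_
  have hvU : v ∈ U := (mem_inter.1 hv).2
  rw [Ex_add, Ex_smul, nib6_single h hvU]
  have h3 := mom1 h hS1 hε hvU
  linarith

theorem nib_step {S : E → Finset V} {κ : ℝ} {U : Finset V} {w : E → ℝ} (h : NState S κ U w)
    (hκ : 0 ≤ κ) {k : ℕ} (hk : 1 ≤ k) (hS : ∀ e, (S e).card ≤ k) (hS1 : ∀ e, (S e).Nonempty)
    {ε η : ℝ} (hε : 0 ≤ ε) (hη : 0 < η) (V0 : Finset V) {ρ c : ℝ} (hρ : 0 ≤ ρ) (hc : 0 ≤ c) :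
    ∃ (M : Finset E) (U' : Finset V) (w' : E → ℝ), U' ⊆ U ∧
      NState S (κ * Real.exp (ε * k)) U' w' ∧
      (∀ e, w' e ≠ 0 → w e ≠ 0) ∧
      (∀ e ∈ M, w e ≠ 0) ∧ (∀ e ∈ M, ∀ f ∈ M, e ≠ f → Disjoint (S e) (S f)) ∧
      (∀ e ∈ M, Disjoint (S e) U') ∧
      ((((V0 ∩ U).filter (fun v => v ∉ U' ∧ ∀ e ∈ M, v ∉ S e)).card : ℕ) : ℝ) + ρ * U'.card +
          c * ∑ v ∈ V0 ∩ U', (1 - ndeg S w' v) ≤
        (k * ε ^ 2 + ρ * Real.exp (-ε) +
          c * (η + 2 * k * Real.exp (ε * k) * (nu k ε κ / η ^ 2))) * U.card +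
        (ε + c * Real.exp (-ε)) * ∑ v ∈ V0 ∩ U, (1 - ndeg S w v) := by
  obtain ⟨C, hC, hCE⟩ := exists_le (qq_nonneg h hε) (qq_le h hε)
    (fun C => ((ls S U V0 C).card : ℝ) + (ρ * ((al S U C).card : ℝ) +
      c * (∑ v ∈ V0 ∩ al S U C, (1 - DD S U w ε C v) + (η * U.card +
        2 * k * Real.exp (ε * k) * ((bd S U w ε η C).card : ℝ)))))
  have hE : Ex (qq S U w ε) (fun C => ((ls S U V0 C).card : ℝ) + (ρ * ((al S U C).card : ℝ) +
      c * (∑ v ∈ V0 ∩ al S U C, (1 - DD S U w ε C v) + (η * U.card +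
        2 * k * Real.exp (ε * k) * ((bd S U w ε η C).card : ℝ))))) =
      Ex (qq S U w ε) (fun C => ((ls S U V0 C).card : ℝ)) +
        (ρ * (Real.exp (-ε) * U.card) +
        c * (Ex (qq S U w ε) (fun C => ∑ v ∈ V0 ∩ al S U C, (1 - DD S U w ε C v)) + (η * U.card +
          2 * k * Real.exp (ε * k) * Ex (qq S U w ε) (fun C => ((bd S U w ε η C).card : ℝ))))) := by
    rw [Ex_add, Ex_add, Ex_smul, Ex_smul, Ex_add, Ex_add, Ex_const, Ex_smul, alive_exp h]
  rw [hE] at hCE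
  refine ⟨M1 S C, al S U C, wn S U w ε η C, filter_subset _ _, wn_state h hS hS1 hε hη C,
    fun e he => wn_pos he, ?_, M1_disj, M1_al, ?_⟩
  · intro e he hw
    apply hC _ (mem_filter.1 he).2.1
    show 1 - Real.exp (-(ε * w e)) = 0
    rw [hw, mul_zero, neg_zero, Real.exp_zero, sub_self]
  · have h1 := ls_exp h hS hε V0
    have h2 := miss_exp h hS1 hε V0
    have h3 := bd_exp h hκ hS hS1 hε hη (w := w)
    have h4 := miss h hk hS hε hη C V0
    have h5 : (2 * k * Real.exp (ε * k)) *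
        Ex (qq S U w ε) (fun C => ((bd S U w ε η C).card : ℝ)) ≤
        (2 * k * Real.exp (ε * k)) * (nu k ε κ / η ^ 2 * U.card) :=
      mul_le_mul_of_nonneg_left h3 (by positivity)
    have h6 : c * (Ex (qq S U w ε) (fun C => ∑ v ∈ V0 ∩ al S U C, (1 - DD S U w ε C v)) +
        (η * U.card + 2 * k * Real.exp (ε * k) *
          Ex (qq S U w ε) (fun C => ((bd S U w ε η C).card : ℝ)))) ≤
        c * (Real.exp (-ε) * ∑ v ∈ V0 ∩ U, (1 - ndeg S w v) +
        (η * U.card + (2 * k * Real.exp (ε * k)) * (nu k ε κ / η ^ 2 * U.card))) :=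
      mul_le_mul_of_nonneg_left (by linarith) hc
    have h7 : c * ∑ v ∈ V0 ∩ al S U C, (1 - ndeg S (wn S U w ε η C) v) ≤
        c * (∑ v ∈ V0 ∩ al S U C, (1 - DD S U w ε C v) + (η * U.card +
        2 * k * Real.exp (ε * k) * ((bd S U w ε η C).card : ℝ))) :=
      mul_le_mul_of_nonneg_left (by linarith) hc
    have h8 : (((V0 ∩ U).filter (fun v => v ∉ al S U C ∧ ∀ e ∈ M1 S C, v ∉ S e)).card : ℝ) =
        ((ls S U V0 C).card : ℝ) := rfl
    rw [h8]
    have h9 : (k * ε ^ 2 + ρ * Real.exp (-ε) +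
          c * (η + 2 * k * Real.exp (ε * k) * (nu k ε κ / η ^ 2))) * U.card +
        (ε + c * Real.exp (-ε)) * ∑ v ∈ V0 ∩ U, (1 - ndeg S w v) =
        (ε * ∑ v ∈ V0 ∩ U, (1 - ndeg S w v) + k * ε ^ 2 * U.card) +
        (ρ * (Real.exp (-ε) * U.card) +
        c * (Real.exp (-ε) * ∑ v ∈ V0 ∩ U, (1 - ndeg S w v) +
        (η * U.card + (2 * k * Real.exp (ε * k)) * (nu k ε κ / η ^ 2 * U.card)))) := by ring
    rw [h9]
    linarith

end SSB
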