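import Pool.Agent.Lib.MP_8a819d_co.BD.Defs

/-! # MP_8a819d_co: pieces, types, numberings of pieces -/

set_option autoImplicit false

namespace SSB

open Finset

/-- types of vertices: `U` the units (leaves or vertices of degree two which may stay unnumbered),
`P` their neighbours, `O` the others -/
inductive Ty | O | P | U
  deriving DecidableEq

instance : Fintype Ty := ⟨{Ty.O, Ty.P, Ty.U}, by intro x; cases x <;> simp⟩

/-- the allowed types of an edge (parent, child) -/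
def okTy : Ty → Ty → Bool
  | Ty.O, Ty.O => true
  | Ty.O, Ty.P => true
  | Ty.P, Ty.O => true
  | Ty.P, Ty.U => true
  | Ty.U, Ty.P => true
  | _, _ => false

/-- a rooted tree with vertices `0, ..., k` given by a parent array, with types -/
structure Piece where
  k : ℕ
  par : Fin (k + 1) → Fin (k + 1)
  ty : Fin (k + 1) → Ty

structure Piece.WF (p : Piece) : Prop where
  par_zero : p.par 0 = 0
  par_lt : ∀ i, i ≠ 0 → p.par i < i
  root : p.ty 0 = Ty.O
  ok : ∀ i, i ≠ 0 → okTy (p.ty (p.par i)) (p.ty i) = true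

/-- number of (non root) vertices of type `b` with parent of type `a` -/
def Piece.cnt (p : Piece) (a b : Ty) : ℕ :=
  (univ.filter (fun i => i ≠ 0 ∧ p.ty (p.par i) = a ∧ p.ty i = b)).card

/-- environment: `Q` the ordinary labels, `L` the special labels, `rp` the representative of a
special label in its unit, `prt` the other label of the unit (the same one if `t = 1`) -/
structure Env (N t : ℕ) (Q L : Finset ℕ) (rp prt : ℕ → ℕ) : Prop where
  t_le : t = 1 ∨ t = 2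
  Q_sub : Q ⊆ Icc 1 N
  L_sub : L ⊆ Icc 1 N
  QL : Disjoint Q L
  rp_mem : ∀ x ∈ L, rp x ∈ L
  prt_mem : ∀ x ∈ L, prt x ∈ L
  prt_prt : ∀ x ∈ L, prt (prt x) = x
  rp_eq : ∀ x ∈ L, ∀ y ∈ L, rp x = rp y ↔ y = x ∨ y = prt x
  rp_or : ∀ x ∈ L, rp x = x ∨ rp x = prt x
  fib : ∀ x ∈ L, (t = 1 → prt x = x) ∧ (t = 2 → prt x ≠ x)

/-- the rule for the labels `x` of the parent and `y` of the child -/
def rule (Q L : Finset ℕ) (prt : ℕ → ℕ) : Ty → Ty → ℕ → ℕ → Prop
  | Ty.O, Ty.O, x, y => x ∈ Q ∧ y ∈ Q ∧ dd x y ∈ Q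
  | Ty.O, Ty.P, x, y => x ∈ Q ∧ (y ∈ Q ∨ y ∈ L) ∧ dd x y ∈ Q
  | Ty.P, Ty.O, x, y => (x ∈ Q ∨ x ∈ L) ∧ y ∈ Q ∧ dd x y ∈ Q
  | Ty.P, Ty.U, x, y => (x ∈ Q ∧ y ∈ Q ∧ dd x y ∈ Q) ∨ (x ∈ L ∧ y = x)
  | Ty.U, Ty.P, x, y => (x ∈ Q ∧ y ∈ Q ∧ dd x y ∈ Q) ∨ (x ∈ L ∧ y = prt x)
  | _, _, _, _ => False

/-- the labels used by a child (itself and the edge to its parent; nothing if the unit is special);
a unit is charged, by its representative, to its topmost vertex of type `P` -/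
def us (Q : Finset ℕ) (rp : ℕ → ℕ) : Ty → Ty → ℕ → ℕ → Finset ℕ
  | Ty.P, Ty.U, x, y => if x ∈ Q then {y, dd x y} else ∅
  | Ty.U, Ty.P, x, y => if x ∈ Q then {y, dd x y} else ∅
  | _, Ty.P, x, y => if y ∈ Q then {y, dd x y} else {rp y, dd x y}
  | _, _, x, y => {y, dd x y}

/-- the labels used at the vertex `i` of a piece -/
def Piece.usd (p : Piece) (Q : Finset ℕ) (rp : ℕ → ℕ) (φ : Fin (p.k + 1) → ℕ) (i : Fin (p.k + 1)) :
    Finset ℕ :=
  if i = 0 then {φ 0} else us Q rp (p.ty (p.par i)) (p.ty i) (φ (p.par i)) (φ i)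

/-- the labels used by a numbering of a piece -/
def Piece.usedS (p : Piece) (Q : Finset ℕ) (rp : ℕ → ℕ) (φ : Fin (p.k + 1) → ℕ) : Finset ℕ :=
  univ.biUnion (p.usd Q rp φ)

/-- valid numberings of a piece -/
structure Piece.Valid (p : Piece) (Q L : Finset ℕ) (rp prt : ℕ → ℕ) (φ : Fin (p.k + 1) → ℕ) :
    Prop where
  root : φ 0 ∈ Q
  rule : ∀ i, i ≠ 0 → rule Q L prt (p.ty (p.par i)) (p.ty i) (φ (p.par i)) (φ i)
  /-- the label of a vertex differs from the label of the edge to its parent -/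
  self : ∀ i, i ≠ 0 → φ i ∈ Q → φ i ≠ dd (φ (p.par i)) (φ i)
  disj : ∀ i j, i ≠ j → Disjoint (p.usd Q rp φ i) (p.usd Q rp φ j)

end SSB
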