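import Pool.Agent.Lib.MP_8a819d_co.BD.Typ6
import Pool.Agent.Lib.MP_8a819d_co.BD.Ker

/-!
# MP_8a819d_co: the typed Markov chain, 7. Existence of the chain

JOB Typ7 (all of this file).

`kernel_exists`. Notation: `e1 = c O O`, `e2 = c O P`, `e3 = c P O`, `e4 = c P U = e2`, `e5 = c U P = (t-1) e2`,
`ne = e1 + ... + e5`, `nv = np + ne`, `nd = |L.image rp|`, `|L| = t nd` (`env_card`), `η = nd / e2` (`> 0`, and
`η ≤ ε N / (δ N) ≤ 1/36` for small `ε`), `η / |L| = 1 / (t e2) ≤ (1/δ) / N`. Let (for `z ∈ ℕ`)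
`H z = η (-(e2 + e5) gg z - e4 qU z + (e2 + e3) (a2 z - a1 z) - (e4 + e5) a3 z)`.
`|H z| ≤ η * 12 * (e2 + e3 + e4 + e5) / N ≤ 12 (3 + B) nd / N ≤ 12 (3 + B) ε`; `∑ z ∈ Q, H z = -η (e2 + 2 e4 + 2 e5)`
(`gg_sum`, `qU_sum`, `a_sum`) `= -(2 t + 1) nd`. Put `Λ = (nv + ne - (2 t + 1) nd) / |Q|`; `Λ ≤ 1` by hypothesis
(`nv + ne = 2 nv - np`), `Λ ≥ 1 - 10 ε ≥ 1/2`. `ω = nv / ne`, `|ω - 1| = np / ne ≤ s₀`; `T z = 1 - H z / Λ`,
`|T z - 1| ≤ 24 (3 + B) ε ≤ s₀`. Take `k` from `lemmaF` (for `N ≥ N₀`, `|[1,N] \ Q| ≤ ε N ≤ s₀ N`).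
Summing the load equation over `a ∈ Q` (all pairs in the support of `k` have `dd ∈ Q`):
`(ω/2) SS + (1/2) SS = ∑ T = |Q| + (2 t + 1) nd / Λ = (nv + ne) / Λ`, so `SS = 2 ne / Λ` (as
`ω + 1 = (nv + ne) / ne`). Hence `N/2 ≤ SS ≤ 2 N` for small `ε`: `TK` holds.
The load equation times `2 ne / SS = Λ`: `nv mO z + ne dO z = Λ T z` for `z ∈ Q`
(`(1/2) ∑∑ [dd = z] k = (SS/2) dO z`). By Typ6 the load of the chain at `z ∈ Q` is at most
`np mO + e1 (mO + dO) + e2 (mP + dO - η a1 + η a2) + e3 (mO + dO - η a1 + η a2) + e4 (mU + dO - η a3) +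
e5 (mP + dO - η a3) = nv mO z + ne dO z + H z = Λ T z + H z = Λ ≤ 1` (with `mP = mO - η gg`, `mU = mO - η qU`).
`rep`: `e2 * t * η / |L| = 1`. The other fields: Typ4, Typ5 with `c = max 1 (1/δ)` and
`C = 16 (2 C₀^2 + 18 c)^2`.
-/

set_option autoImplicit false

namespace SSB

open Finset

/-- the correction of the load of the label `z` -/
noncomputable def Hz (N : ℕ) (Q L : Finset ℕ) (η e2 e3 e4 e5 : ℝ) (z : ℕ) : ℝ :=
  η * (-((e2 + e5) * gg N Q L z) - e4 * qU N Q L z + (e2 + e3) * a2 N Q L z - (e2 + e3) * a1 N Q L z -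
    (e4 + e5) * a3 N Q L z)

theorem Hz_sum {N : ℕ} {Q L : Finset ℕ} (h : TQ N Q L) (η e2 e3 e4 e5 : ℝ) :
    ∑ z ∈ Q, Hz N Q L η e2 e3 e4 e5 z = -(η * (e2 + 2 * e4 + 2 * e5)) := by
  unfold Hz
  rw [← Finset.mul_sum]
  simp only [Finset.sum_add_distrib, Finset.sum_sub_distrib, ← Finset.mul_sum, Finset.sum_neg_distrib]
  rw [gg_sum h, qU_sum h, (a_sum h).1, (a_sum h).2.1, (a_sum h).2.2]
  ring

theorem Hz_abs {N : ℕ} {Q L : Finset ℕ} (h : TQ N Q L) {η e2 e3 e4 e5 : ℝ} (hη : 0 ≤ η)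
    (h2 : 0 ≤ e2) (h3 : 0 ≤ e3) (h4 : 0 ≤ e4) (h5 : 0 ≤ e5) (z : ℕ) :
    |Hz N Q L η e2 e3 e4 e5 z| ≤ η * ((2 * e2 + e3 + 2 * e4 + 2 * e5) * (6 / N)) := by
  have hNn : (0 : ℝ) ≤ N := Nat.cast_nonneg N
  obtain ⟨p1, p2, p3⟩ := a_nonneg (N := N) (Q := Q) (L := L) z
  obtain ⟨q1, q2, q3⟩ := a_le h z
  have g0 := gg_nonneg (N := N) (Q := Q) (L := L) z
  have g1 := gg_le h z
  have u0 := qU_nonneg (N := N) (Q := Q) (L := L) z
  have u1 := qU_le h z
  have h36 : (3 : ℝ) / N ≤ 6 / N := div_le_div_of_nonneg_right (by norm_num) hNn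
  have g2 := g1.trans h36
  have u2 := u1.trans h36
  unfold Hz
  rw [abs_mul, abs_of_nonneg hη]
  refine mul_le_mul_of_nonneg_left ?_ hη
  generalize (6 : ℝ) / N = r at *
  have A1 := mul_le_mul_of_nonneg_left g2 (add_nonneg h2 h5)
  have A2 := mul_nonneg (add_nonneg h2 h5) g0
  have B1 := mul_le_mul_of_nonneg_left u2 h4
  have B2 := mul_nonneg h4 u0
  have C1 := mul_le_mul_of_nonneg_left q2 (add_nonneg h2 h3)
  have C2 := mul_nonneg (add_nonneg h2 h3) p2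
  have D1 := mul_le_mul_of_nonneg_left q1 (add_nonneg h2 h3)
  have D2 := mul_nonneg (add_nonneg h2 h3) p1
  have E1 := mul_le_mul_of_nonneg_left q3 (add_nonneg h4 h5)
  have E2 := mul_nonneg (add_nonneg h4 h5) p3
  have hr : 0 ≤ r := le_trans g0 g2
  have F2 := mul_nonneg h2 hr
  have F3 := mul_nonneg h3 hr
  have F4 := mul_nonneg h4 hr
  have F5 := mul_nonneg h5 hr
  have e1 : (2 * e2 + e3 + 2 * e4 + 2 * e5) * r =
    (e2 + e5) * r + e4 * r + (e2 + e3) * r + (e4 + e5) * r := by ring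
  have e2' : (e2 + e5) * r = e2 * r + e5 * r := by ring
  have e3' : (e2 + e3) * r = e2 * r + e3 * r := by ring
  have e4' : (e4 + e5) * r = e4 * r + e5 * r := by ring
  rw [abs_le]
  constructor <;> linarith

theorem dd_sum_all {Q : Finset ℕ} {k : ℕ → ℕ → ℝ}
    (hk : ∀ x y, k x y ≠ 0 → x ∈ Q ∧ y ∈ Q ∧ x ≠ y ∧ dd x y ∈ Q) :
    ∑ a ∈ Q, (∑ x ∈ Q, ∑ y ∈ Q, if dd x y = a then k x y else 0) = SS Q k := by
  unfold SS VV
  rw [Finset.sum_comm]
  refine Finset.sum_congr rfl fun x hx => ?_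
  rw [Finset.sum_comm]
  refine Finset.sum_congr rfl fun y hy => ?_
  rw [Finset.sum_ite_eq]
  split_ifs with h
  · rfl
  · by_contra hne
    exact h (hk x y (fun h0 => hne h0.symm)).2.2.2

theorem kernel_exists (B δ : ℝ) (hB : 1 ≤ B) (hδ : 0 < δ) :
    ∃ ε C : ℝ, 0 < ε ∧ ∃ N₀ : ℕ, ∀ N : ℕ, N₀ ≤ N →
    ∀ (t : ℕ) (Q L : Finset ℕ) (rp prt : ℕ → ℕ), Env N t Q L rp prt →
      (N : ℝ) - Q.card ≤ ε * N → L.Nonempty → (L.card : ℝ) ≤ ε * N →
    ∀ (np : ℝ) (c : Ty → Ty → ℝ), 0 ≤ np → (∀ a b, 0 ≤ c a b) →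
      c Ty.P Ty.U = c Ty.O Ty.P → c Ty.U Ty.P = (t - 1) * c Ty.O Ty.P →
      c Ty.P Ty.O ≤ B * c Ty.O Ty.P → δ * N ≤ c Ty.O Ty.P →
      (1 - ε) * N ≤ 2 * (np + (c Ty.O Ty.O + c Ty.O Ty.P + c Ty.P Ty.O + c Ty.P Ty.U + c Ty.U Ty.P)) →
      np ≤ ε * N →
      2 * (np + (c Ty.O Ty.O + c Ty.O Ty.P + c Ty.P Ty.O + c Ty.P Ty.U + c Ty.U Ty.P)) - np ≤
        Q.card + (2 * t + 1) * (L.image rp).card →
      ∃ (M : Ty → ℕ → ℝ) (K : Ty → Ty → ℕ → ℕ → ℝ), ChainData N Q L rp prt np c C M K := by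
  obtain ⟨s₀, C₀, hs0, hs1, hC0, N₁, hF⟩ := lemmaF
  obtain ⟨c', hc'⟩ : ∃ c' : ℝ, c' = max 1 (1 / δ) := ⟨_, rfl⟩
  have hc1 : 1 ≤ c' := hc' ▸ le_max_left _ _
  have hc2 : 1 / δ ≤ c' := hc' ▸ le_max_right _ _
  obtain ⟨ε, hε⟩ : ∃ ε : ℝ, ε = min (s₀ / (100 * (3 + B))) (δ / 36) := ⟨_, rfl⟩
  have hB3 : 0 < 100 * (3 + B) := by linarith
  have hεpos : 0 < ε := by rw [hε]; exact lt_min (div_pos hs0 hB3) (by positivity)
  have hε1 : ε * (100 * (3 + B)) ≤ s₀ := by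
    have : ε ≤ s₀ / (100 * (3 + B)) := hε ▸ min_le_left _ _
    rwa [le_div_iff₀ hB3] at this
  have hε2 : ε ≤ δ / 36 := hε ▸ min_le_right _ _
  have hBε : 0 ≤ ε * (B - 1) := mul_nonneg hεpos.le (by linarith)
  have hεs : 400 * ε ≤ s₀ := by linarith
  refine ⟨ε, 16 * (2 * C₀ ^ 2 + 18 * c') ^ 2, hεpos, max N₁ (10 ^ 6), ?_⟩
  intro N hN t Q L rp prt he hQc hLne hLc np c hnp hc h42 h52 h32 h2N hlo hnpN hup
  have hN1 : N₁ ≤ N := le_trans (le_max_left _ _) hN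
  have hN6 : 10 ^ 6 ≤ N := le_trans (le_max_right _ _) hN
  have hNpos : (0 : ℝ) < N := by
    have : 0 < N := lt_of_lt_of_le (by norm_num) hN6
    exact_mod_cast this
  have hεN : 0 < ε * N := mul_pos hεpos hNpos
  have hεN' : 400 * (ε * N) ≤ s₀ * N := by
    have := mul_le_mul_of_nonneg_right hεs hNpos.le
    linarith
  have hs0N : s₀ * N ≤ (1 / 100) * N := mul_le_mul_of_nonneg_right hs1.le hNpos.le
  have htq : TQ N Q L := ⟨hN6, he.Q_sub, he.L_sub, he.QL, hLne, by linarith⟩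
  obtain ⟨e1, he1⟩ : ∃ e, e = c Ty.O Ty.O := ⟨_, rfl⟩
  obtain ⟨e2, he2⟩ : ∃ e, e = c Ty.O Ty.P := ⟨_, rfl⟩
  obtain ⟨e3, he3⟩ : ∃ e, e = c Ty.P Ty.O := ⟨_, rfl⟩
  obtain ⟨e4, he4⟩ : ∃ e, e = c Ty.P Ty.U := ⟨_, rfl⟩
  obtain ⟨e5, he5⟩ : ∃ e, e = c Ty.U Ty.P := ⟨_, rfl⟩
  have e1n : 0 ≤ e1 := he1 ▸ hc _ _
  have e2n : 0 ≤ e2 := he2 ▸ hc _ _
  have e3n : 0 ≤ e3 := he3 ▸ hc _ _
  have e4n : 0 ≤ e4 := he4 ▸ hc _ _
  have e5n : 0 ≤ e5 := he5 ▸ hc _ _
  rw [← he4, ← he2] at h42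
  rw [← he5, ← he2] at h52
  rw [← he3, ← he2] at h32
  rw [← he2] at h2N
  rw [← he1, ← he2, ← he3, ← he4, ← he5] at hlo hup
  obtain ⟨nd, hnd⟩ : ∃ nd : ℝ, nd = ((L.image rp).card : ℝ) := ⟨_, rfl⟩
  rw [← hnd] at hup
  obtain ⟨ne, hne⟩ : ∃ ne : ℝ, ne = e1 + e2 + e3 + e4 + e5 := ⟨_, rfl⟩
  rw [← hne] at hlo hup
  have ht1 : (1 : ℝ) ≤ t := by
    rcases he.t_le with h | h <;> rw [h] <;> norm_num
  have ht2 : (t : ℝ) ≤ 2 := by
    rcases he.t_le with h | h <;> rw [h] <;> norm_num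
  have hcard : (L.card : ℝ) = t * nd := by rw [hnd]; exact_mod_cast env_card he
  have hndpos : 0 < nd := by
    rw [hnd]
    exact_mod_cast Finset.card_pos.2 (hLne.image rp)
  have e2pos : 0 < e2 := lt_of_lt_of_le (mul_pos hδ hNpos) h2N
  have hndt : nd ≤ t * nd := le_mul_of_one_le_left hndpos.le ht1
  have hndN : nd ≤ ε * N := by rw [hcard] at hLc; linarith
  have h2t : (2 * (t : ℝ) + 1) * nd ≤ 3 * (ε * N) := by rw [hcard] at hLc; linarith
  have hneN : (N : ℝ) / 4 ≤ ne := by linarith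
  have hnepos : 0 < ne := by linarith
  have e5le : e5 ≤ e2 := by
    rw [h52]
    exact mul_le_of_le_one_left e2n (by linarith)
  have hQN : (Q.card : ℝ) ≤ N := by
    have h1 := Finset.card_le_card he.Q_sub
    rw [Nat.card_Icc] at h1
    exact_mod_cast (by omega : Q.card ≤ N)
  have hQpos : (0 : ℝ) < Q.card := by linarith
  obtain ⟨η, hη⟩ : ∃ η : ℝ, η = nd / e2 := ⟨_, rfl⟩
  have hηe : η * e2 = nd := by rw [hη]; exact div_mul_cancel₀ _ e2pos.ne'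
  have hη0 : 0 < η := by rw [hη]; exact div_pos hndpos e2pos
  have hη36 : η ≤ 1 / 36 := by
    rw [hη, div_le_iff₀ e2pos]
    have := mul_le_mul_of_nonneg_right hε2 hNpos.le
    linarith
  have hHz : ∀ z, |Hz N Q L η e2 e3 e4 e5 z| ≤ 12 * (ε * (3 + B)) := by
    intro z
    refine (Hz_abs htq hη0.le e2n e3n e4n e5n z).trans ?_
    have s1 : 2 * e2 + e3 + 2 * e4 + 2 * e5 ≤ (6 + B) * e2 := by linarith
    have s2 : η * (2 * e2 + e3 + 2 * e4 + 2 * e5) ≤ (6 + B) * nd := by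
      have := mul_le_mul_of_nonneg_left s1 hη0.le
      calc η * (2 * e2 + e3 + 2 * e4 + 2 * e5) ≤ η * ((6 + B) * e2) := this
        _ = (6 + B) * (η * e2) := by ring
        _ = (6 + B) * nd := by rw [hηe]
    have s3 : (6 + B) * nd ≤ (6 + B) * (ε * N) := mul_le_mul_of_nonneg_left hndN (by linarith)
    calc η * ((2 * e2 + e3 + 2 * e4 + 2 * e5) * (6 / N)) =
          (η * (2 * e2 + e3 + 2 * e4 + 2 * e5)) * (6 / N) := by ring
      _ ≤ ((6 + B) * (ε * N)) * (6 / N) :=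
          mul_le_mul_of_nonneg_right (s2.trans s3) (by positivity)
      _ = 6 * (ε * (6 + B)) := by field_simp
      _ ≤ 12 * (ε * (3 + B)) := by linarith
  obtain ⟨Λ, hΛ⟩ : ∃ Λ : ℝ, Λ = ((np + ne) + ne - (2 * t + 1) * nd) / Q.card := ⟨_, rfl⟩
  have hΛQ : Λ * Q.card = (np + ne) + ne - (2 * t + 1) * nd := by
    rw [hΛ]; exact div_mul_cancel₀ _ hQpos.ne'
  have hΛ1 : Λ ≤ 1 := by
    rw [hΛ, div_le_one hQpos]
    linarith
  have hε5 : 5 * ε ≤ 1 / 2 := by linarith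
  have hΛ2 : 1 - 5 * ε ≤ Λ := by
    rw [hΛ, le_div_iff₀ hQpos]
    have : (1 - 5 * ε) * (Q.card : ℝ) ≤ (1 - 5 * ε) * N :=
      mul_le_mul_of_nonneg_left hQN (by linarith)
    linarith
  have hΛpos : 0 < Λ := by linarith
  have hω1 : (np + ne) / ne - 1 = np / ne := by field_simp; ring
  have hω : |(np + ne) / ne - 1| ≤ s₀ := by
    rw [hω1, abs_of_nonneg (div_nonneg hnp hnepos.le), div_le_iff₀ hnepos]
    have h1 : s₀ * (N / 4) ≤ s₀ * ne := mul_le_mul_of_nonneg_left hneN hs0.le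
    linarith
  have hT : ∀ a ∈ Q, |(fun a => 1 - Hz N Q L η e2 e3 e4 e5 a / Λ) a - 1| ≤ s₀ := by
    intro a _
    have h1 : (fun a => 1 - Hz N Q L η e2 e3 e4 e5 a / Λ) a - 1 =
      -(Hz N Q L η e2 e3 e4 e5 a / Λ) := by
      show 1 - Hz N Q L η e2 e3 e4 e5 a / Λ - 1 = _
      ring
    rw [h1, abs_neg, abs_div, abs_of_pos hΛpos, div_le_iff₀ hΛpos]
    have h2 := hHz a
    have h3 : s₀ * (1 / 2) ≤ s₀ * Λ := mul_le_mul_of_nonneg_left (by linarith) hs0.le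
    linarith
  obtain ⟨k, k1, k2, k3, k4, k5, k6, k7⟩ := hF N hN1 Q he.Q_sub (by linarith) ((np + ne) / ne) hω
    (fun a => 1 - Hz N Q L η e2 e3 e4 e5 a / Λ) hT
  have hVV : ∑ a ∈ Q, ∑ y ∈ Q, k a y = SS Q k := rfl
  have hsum : ((np + ne) / ne / 2) * SS Q k + (1 / 2) * SS Q k =
      Q.card + (2 * t + 1) * nd / Λ := by
    have h1 := Finset.sum_congr rfl k7
    rw [Finset.sum_add_distrib, ← Finset.mul_sum, ← Finset.mul_sum, dd_sum_all k3, hVV,
      Finset.sum_sub_distrib, ← Finset.sum_div, Hz_sum htq] at h1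
    rw [h1]
    have h2 : η * (e2 + 2 * e4 + 2 * e5) = (2 * t + 1) * nd := by
      rw [h42, h52, ← hηe]; ring
    rw [h2]
    simp only [Finset.sum_const, nsmul_eq_mul, mul_one]
    ring
  have hSΛ : SS Q k * Λ = 2 * ne := by
    have h1 : (((np + ne) / ne / 2) * SS Q k + (1 / 2) * SS Q k) * Λ = np + 2 * ne := by
      rw [hsum, add_mul, div_mul_cancel₀ _ hΛpos.ne', mul_comm (Q.card : ℝ) Λ, hΛQ]
      ring
    have h2 : (((np + ne) / ne / 2) * SS Q k + (1 / 2) * SS Q k) * Λ =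
        (np + 2 * ne) * (SS Q k * Λ / (2 * ne)) := by
      field_simp
      ring
    rw [h2] at h1
    have h3 : SS Q k * Λ / (2 * ne) = 1 := by
      have h4 : np + 2 * ne ≠ 0 := by positivity
      exact mul_left_cancel₀ h4 (by rw [h1, mul_one])
    rwa [div_eq_one_iff_eq (by positivity)] at h3
  have hSS : SS Q k = 2 * ne / Λ := by rw [eq_div_iff hΛpos.ne', hSΛ]
  have hSlo : (N : ℝ) / 2 ≤ SS Q k := by
    rw [hSS, le_div_iff₀ hΛpos]
    have : (N : ℝ) / 2 * Λ ≤ N / 2 * 1 := mul_le_mul_of_nonneg_left hΛ1 (by positivity)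
    linarith
  have hSup : SS Q k ≤ 2 * N := by
    rw [hSS, div_le_iff₀ hΛpos]
    have h1 : 2 * (N : ℝ) * (1 - 5 * ε) ≤ 2 * N * Λ := mul_le_mul_of_nonneg_left hΛ2 (by positivity)
    linarith
  have hSpos : 0 < SS Q k := by linarith
  have htk : TK N Q L η C₀ k :=
    { tq := htq, η_nn := hη0.le, η_le := hη36, C_ge := hC0, nn := k1, symm := k2, supp := k3,
      le := k4, ge := k5, V_ge := k6, S_ge := hSlo, S_le := hSup }
  have hηL : η / L.card = 1 / (t * e2) := by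
    rw [hη, hcard]
    field_simp
  have hηc : η / L.card ≤ c' / N := by
    rw [hηL]
    have h1 : δ * N ≤ t * e2 := h2N.trans (le_mul_of_one_le_left e2n ht1)
    calc 1 / (t * e2) ≤ 1 / (δ * N) := one_div_le_one_div_of_le (mul_pos hδ hNpos) h1
      _ = (1 / δ) / N := by rw [div_div]
      _ ≤ c' / N := div_le_div_of_nonneg_right hc2 hNpos.le
  obtain ⟨D, hD⟩ : ∃ D : ℝ, D = 2 * C₀ ^ 2 + 18 * c' := ⟨_, rfl⟩
  have hD1 : 1 ≤ D := by
    rw [hD]
    have := sq_nonneg C₀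
    linarith
  have hDD : D ≤ D ^ 2 := by
    rw [sq]
    exact le_mul_of_one_le_left (by linarith) hD1
  have hMM := MM_le htk hc1 hηc
  have hbK := fun {a b : Ty} (hab : okTy a b = true) (x z : ℕ) => bdK he htk hc1 hηc hab x z
  have hbJ := fun {a b : Ty} (hab : okTy a b = true) {z z' : ℕ} (hz : z ≠ z') =>
    bdJ he htk hc1 hηc hab hz
  have hbS := fun {a b : Ty} (hab : okTy a b = true) => bdS he htk hc1 hηc hab
  rw [← hD] at hMM hbK hbJ hbS ⊢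
  refine ⟨MM N Q L η k, KK N Q L prt η k, ?_⟩
  refine
    { C_pos := by positivity
      M_nn := fun a x => MM_nonneg htk a x
      M_sum := fun a => MM_sum htk a
      M_O := ?_
      K_nn := fun a b x y => KK_nonneg htk a b x y
      K_sum := fun a b x hab => KK_sum he htk hab x
      cons := fun a b y hab hy => KK_cons he htk hab hy
      rule := fun a b x y hab hxy => KK_rule htk hab hxy
      bdM := ?_
      bdK := ?_
      bdJ := ?_
      bdS := ?_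
      load := ?_
      rep := ?_
      zero := fun a b z hab hz hz2 => UU_zero he htk hab hz hz2 }
  · intro x hx
    rcases MM_supp htk hx with h | h
    · exact h.1
    · exact absurd rfl h.2
  · intro a x
    refine (hMM a x).trans (div_le_div_of_nonneg_right ?_ hNpos.le)
    linarith
  · intro a b x z hab
    refine (hbK hab x z).trans (div_le_div_of_nonneg_right ?_ hNpos.le)
    linarith
  · intro a b z z' hab hz
    refine (hbJ hab hz).trans (le_of_eq ?_)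
    rw [div_pow]
    ring
  · intro a b hab
    refine (hbS hab).trans (div_le_div_of_nonneg_right ?_ hNpos.le)
    linarith
  · intro z hz
    rw [← he1, ← he2, ← he3, ← he4, ← he5]
    have u1 := mul_le_mul_of_nonneg_left (UU_OO he htk hz) e1n
    have u2 := mul_le_mul_of_nonneg_left (UU_OP he htk hz) e2n
    have u3 := mul_le_mul_of_nonneg_left (UU_PO he htk hz) e3n
    have u4 := mul_le_mul_of_nonneg_left (UU_PU he htk hz) e4n
    have u5 := mul_le_mul_of_nonneg_left (UU_UP he htk hz) e5n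
    have hMO : MM N Q L η k Ty.O z = mO Q k z := rfl
    rw [hMO]
    have hload : (np + ne) * mO Q k z + ne * dO Q k z = Λ - Hz N Q L η e2 e3 e4 e5 z := by
      have h1 := k7 z hz
      have h2 : ∑ y ∈ Q, k z y = SS Q k * mO Q k z := by
        unfold mO VV
        field_simp
      have h3 : (∑ x ∈ Q, ∑ y ∈ Q, if dd x y = z then k x y else 0) = SS Q k * dO Q k z := by
        unfold dO
        rw [Finset.mul_sum]
        refine Finset.sum_congr rfl fun x _ => ?_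
        rw [Finset.mul_sum]
        refine Finset.sum_congr rfl fun y _ => ?_
        split_ifs
        · field_simp
        · rw [mul_zero]
      rw [h2, h3] at h1
      have h4 : ((np + ne) / ne / 2 * (SS Q k * mO Q k z) + 1 / 2 * (SS Q k * dO Q k z)) * Λ =
          (np + ne) * mO Q k z + ne * dO Q k z := by
        have : ((np + ne) / ne / 2 * (SS Q k * mO Q k z) + 1 / 2 * (SS Q k * dO Q k z)) * Λ =
          ((np + ne) / ne / 2 * mO Q k z + 1 / 2 * dO Q k z) * (SS Q k * Λ) := by ring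
        rw [this, hSΛ]
        field_simp
      rw [← h4, h1]
      show (1 - Hz N Q L η e2 e3 e4 e5 z / Λ) * Λ = _
      rw [sub_mul, div_mul_cancel₀ _ hΛpos.ne', one_mul]
    have hid : np * mO Q k z + (e1 * (mO Q k z + dO Q k z) +
        e2 * (mP N Q L η k z + (dO Q k z - η * a1 N Q L z + η * a2 N Q L z)) +
        e3 * (mO Q k z + (dO Q k z - η * a1 N Q L z + η * a2 N Q L z)) +
        e4 * (mU N Q L η k z + (dO Q k z - η * a3 N Q L z)) +
        e5 * (mP N Q L η k z + (dO Q k z - η * a3 N Q L z))) =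
        ((np + ne) * mO Q k z + ne * dO Q k z) + Hz N Q L η e2 e3 e4 e5 z := by
      unfold Hz mP mU
      rw [hne]
      ring
    rw [hload] at hid
    linarith
  · intro r hr
    rw [← he2, UU_rep he htk hr, hηL]
    field_simp

end SSB
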