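import Pool.Agent.Lib.MP_8a819d_co.BD.Pk2
import Pool.Agent.Lib.MP_8a819d_co.BD.Typ7
import Pool.Agent.Lib.MP_8a819d_co.BD.Nib

/-!
# MP_8a819d_co: packing of pieces

JOB Pk3 (`pack_core`). JOB Pk4 (`piece_packing` from `pack_core` and `kernel_exists`).

`pack_core`. Given the data of the chain for the pieces `pc`, apply `nibble` to
`V = Fin (N+1) ⊕ Fin n`, `E = Σ p : Fin n, (Fin ((pc p).k + 1) → Fin (N + 1))`,
`S (p, φ) = {inr p} ∪ {inl z : z ∈ usedS}`, `w (p, φ) = (pc p).wv φ`. `|S| ≤ 1 + 2 K` (`usd` has at most two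
elements). Let `κ` be given by `nibble (2 K + 1) (μ / 6)`. We need (for `N ≥ N₀(K, C, μ, κ)`):
* degrees `≤ 1`: at `inr p`: `∑ φ wv ≤ ∑ φ cwp = 1`. At `inl z`: `wv [z ∈ usedS] ≤ cwp * #{i : z ∈ usd i}`, and the total
  (`tot_count`) is `≤ 1` for `z ∈ Q` (`ChainData.load`), `= 1` for `z ∈ L.image rp` (`rep`, `zero`, and `M O z = 0`
  as `z ∉ Q`), `= 0` otherwise (`zero`, `M_O`).
* codegrees `≤ κ`: `inl z`, `inl z'`: `∑ p, pk_cod ≤ K nv (C^2 + C) / N^2 ≤ 2 K (C^2 + C) / N` (`∑ (k+1)^2 ≤ K ∑ (k+1)`,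
  `nv ≤ 2 N`); `inl z`, `inr p`: `pk_one`; `inr p`, `inr q`: `0`.
* `V0`: all `inr p`: degree `≥ 1 - K^2 (2 C^2 + C) / N` by `pk_inv`; and the `inl r`, `r ∈ L.image rp`, of degree
  `≥ 1 - κ`. The other `r ∈ L.image rp` are few: `∑ r ∈ image, (1 - deg r) = ∑ p, φ, (cwp #{i : r ∈ usd i} -
  wv [r ∈ usedS])` summed over `r`; for valid `φ` the sets `usd i` are disjoint, so the term is `0`; for the
  other `φ` the sum over `r` is at most `2 (k+1) cwp`. So the sum is at most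
  `2 K ∑ p, pk_inv ≤ 2 K * n K^2 (2 C^2 + C) / N ≤ 4 K^3 (2 C^2 + C)` (`n ≤ nv ≤ 2 N`) and the number of exceptional `r`
  is at most `4 K^3 (2 C^2 + C) / κ ≤ μ N / 4` for large `N`.
The matching `M₀` of `nibble` contains at most one `(p, φ)` for each `p` (the sets contain `inr p`), all of them with
`wv > 0`, hence valid (and `cwp ≠ 0`, so all used labels are `≤ N` by `used_le`, i.e. the sets
`{inl z}` see all the used labels). The number of vertices is `N + 1 + n ≤ 3 N + 1 ≤ 4 N`, so at most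
`(μ/6) 4 N ≤ 2 μ N / 3` vertices of `V0` are uncovered; with the at most `μ N / 4` exceptional
representatives (large `N`) this is at most `μ N`.
-/

set_option autoImplicit false

namespace SSB

open Finset

private theorem pk3_us_card (Q : Finset ℕ) (rp : ℕ → ℕ) (a b : Ty) (x y : ℕ) :
    (us Q rp a b x y).card ≤ 2 := by
  cases a <;> cases b <;> simp only [us] <;> (try split_ifs) <;>
    first | exact card_le_two | simp

private theorem pk3_usd_card (Q : Finset ℕ) (rp : ℕ → ℕ) (p : Piece) (φ : Fin (p.k + 1) → ℕ)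
    (i : Fin (p.k + 1)) : (p.usd Q rp φ i).card ≤ 2 := by
  unfold Piece.usd
  split_ifs
  · simp
  · exact pk3_us_card _ _ _ _ _ _

private theorem pk3_used_card (Q : Finset ℕ) (rp : ℕ → ℕ) (p : Piece) (φ : Fin (p.k + 1) → ℕ) :
    (p.usedS Q rp φ).card ≤ (p.k + 1) * 2 := by
  have h := card_biUnion_le_card_mul univ (p.usd Q rp φ) 2 (fun i _ => pk3_usd_card Q rp p φ i)
  rwa [card_univ, Fintype.card_fin] at h

section pk3

variable {N t : ℕ} {Q L : Finset ℕ} {rp prt : ℕ → ℕ} {np C : ℝ} {c : Ty → Ty → ℝ}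
  {M : Ty → ℕ → ℝ} {Kr : Ty → Ty → ℕ → ℕ → ℝ} {p : Piece}

private theorem pk3_cnt_pos {φ : Fin (p.k + 1) → ℕ} {z : ℕ} (hz : z ∈ p.usedS Q rp φ) :
    1 ≤ (univ.filter (fun i => z ∈ p.usd Q rp φ i)).card := by
  obtain ⟨i, -, hi⟩ := mem_biUnion.1 hz
  exact card_pos.2 ⟨i, mem_filter.2 ⟨mem_univ i, hi⟩⟩

private theorem pk3_cnt_le {φ : Fin (p.k + 1) → ℕ} (hv : p.Valid Q L rp prt φ) (z : ℕ) :
    ((univ.filter (fun i => z ∈ p.usd Q rp φ i)).card : ℝ) ≤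
      if z ∈ p.usedS Q rp φ then 1 else 0 := by
  split_ifs with hz
  · have h1 : (univ.filter (fun i => z ∈ p.usd Q rp φ i)).card ≤ 1 := by
      refine card_le_one.2 fun i hi j hj => ?_
      by_contra hij
      exact disjoint_left.1 (hv.disj i j hij) (mem_filter.1 hi).2 (mem_filter.1 hj).2
    exact_mod_cast h1
  · have h1 : univ.filter (fun i => z ∈ p.usd Q rp φ i) = ∅ :=
      filter_eq_empty_iff.2 fun i _ hi => hz (mem_biUnion.2 ⟨i, mem_univ i, hi⟩)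
    rw [h1, card_empty, Nat.cast_zero]

private theorem pk3_wv (h : ChainData N Q L rp prt np c C M Kr) (hp : p.WF)
    (φ : Fin (p.k + 1) → Fin (N + 1)) :
    0 ≤ p.wv N Q L rp prt M Kr φ ∧ p.wv N Q L rp prt M Kr φ ≤ p.cwp N M Kr φ := by
  unfold Piece.wv
  split_ifs
  · exact ⟨cwp_nonneg h hp φ, le_rfl⟩
  · exact ⟨le_rfl, cwp_nonneg h hp φ⟩

private theorem pk3_diff (h : ChainData N Q L rp prt np c C M Kr) (hp : p.WF)
    (φ : Fin (p.k + 1) → Fin (N + 1)) (z : ℕ) :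
    p.cwp N M Kr φ * ((univ.filter (fun i => z ∈ p.usd Q rp (p.lab φ) i)).card : ℝ) -
      (if z ∈ p.usedS Q rp (p.lab φ) then p.wv N Q L rp prt M Kr φ else 0) ≤
    (p.cwp N M Kr φ - p.wv N Q L rp prt M Kr φ) *
      ((univ.filter (fun i => z ∈ p.usd Q rp (p.lab φ) i)).card : ℝ) := by
  have h2 := cwp_nonneg h hp φ
  by_cases hv : p.Valid Q L rp prt (p.lab φ)
  · have hw : p.wv N Q L rp prt M Kr φ = p.cwp N M Kr φ := by
      unfold Piece.wv
      rw [if_pos hv]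
    have h1 := mul_le_mul_of_nonneg_left (pk3_cnt_le hv z) h2
    rw [hw]
    split_ifs at h1 ⊢ <;> linarith
  · have hw : p.wv N Q L rp prt M Kr φ = 0 := by
      unfold Piece.wv
      rw [if_neg hv]
    rw [hw, ite_self, sub_zero, sub_zero]

private theorem pk3_deg (h : ChainData N Q L rp prt np c C M Kr) (hp : p.WF)
    (φ : Fin (p.k + 1) → Fin (N + 1)) (z : ℕ) :
    (if z ∈ p.usedS Q rp (p.lab φ) then p.wv N Q L rp prt M Kr φ else 0) ≤
    p.cwp N M Kr φ * ((univ.filter (fun i => z ∈ p.usd Q rp (p.lab φ) i)).card : ℝ) := by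
  have h2 := cwp_nonneg h hp φ
  split_ifs with hz
  · have h3 : (1 : ℝ) ≤ ((univ.filter (fun i => z ∈ p.usd Q rp (p.lab φ) i)).card : ℝ) := by
      exact_mod_cast pk3_cnt_pos hz
    have h4 := mul_le_mul_of_nonneg_left h3 h2
    have h5 := (pk3_wv h hp φ).2
    linarith
  · exact mul_nonneg h2 (Nat.cast_nonneg _)

private theorem pk3_sum_cnt (φ : Fin (p.k + 1) → ℕ) (R : Finset ℕ) :
    ∑ z ∈ R, ((univ.filter (fun i => z ∈ p.usd Q rp φ i)).card : ℝ) ≤ ((p.k : ℝ) + 1) * 2 := by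
  have h1 : ∑ z ∈ R, (univ.filter (fun i => z ∈ p.usd Q rp φ i)).card =
      ∑ i, (R.filter (fun z => z ∈ p.usd Q rp φ i)).card := by
    simp only [card_filter]
    exact sum_comm
  have h2 : ∑ i, (R.filter (fun z => z ∈ p.usd Q rp φ i)).card ≤ ∑ _i : Fin (p.k + 1), 2 :=
    sum_le_sum fun i _ => (card_le_card (fun z hz => (mem_filter.1 hz).2)).trans
      (pk3_usd_card Q rp p φ i)
  rw [sum_const, card_univ, Fintype.card_fin, smul_eq_mul] at h2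
  have h3 : ∑ z ∈ R, (univ.filter (fun i => z ∈ p.usd Q rp φ i)).card ≤ (p.k + 1) * 2 :=
    h1.le.trans h2
  exact_mod_cast h3

end pk3

section pk3b

variable {N t n : ℕ} {Q L : Finset ℕ} {rp prt : ℕ → ℕ} {C : ℝ}
  {M : Ty → ℕ → ℝ} {Kr : Ty → Ty → ℕ → ℕ → ℝ} {pc : Fin n → Piece}

private theorem pk3_rep (he : Env N t Q L rp prt) {z : ℕ} (hz : z ∈ L.image rp) :
    z ∈ L ∧ z ∉ Q ∧ z ≤ N := by
  obtain ⟨x, hx, rfl⟩ := mem_image.1 hz
  have h1 := he.rp_mem x hx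
  exact ⟨h1, fun h2 => disjoint_left.1 he.QL h2 h1, (mem_Icc.1 (he.L_sub h1)).2⟩

private theorem pk3_tot (he : Env N t Q L rp prt) (hp : ∀ p, (pc p).WF)
    (h : ChainData N Q L rp prt n (fun a b => ((∑ p, (pc p).cnt a b : ℕ) : ℝ)) C M Kr) (z : ℕ) :
    (∑ p, ∑ φ : Fin ((pc p).k + 1) → Fin (N + 1), (pc p).cwp N M Kr φ *
        ((univ.filter (fun i => z ∈ (pc p).usd Q rp ((pc p).lab φ) i)).card : ℝ) ≤ 1) ∧
    (z ∈ L.image rp → ∑ p, ∑ φ : Fin ((pc p).k + 1) → Fin (N + 1), (pc p).cwp N M Kr φ *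
        ((univ.filter (fun i => z ∈ (pc p).usd Q rp ((pc p).lab φ) i)).card : ℝ) = 1) := by
  rw [tot_count pc hp he.Q_sub h z]
  by_cases hz : z ∈ Q
  · exact ⟨h.load z hz, fun hr => absurd hz (pk3_rep he hr).2.1⟩
  · have hM : M Ty.O z = 0 := by
      by_contra hne
      exact hz (h.M_O z hne)
    have e1 : UU N Q rp M Kr Ty.O Ty.O z = 0 :=
      h.zero Ty.O Ty.O z rfl hz fun _ hh => absurd hh.2 (by decide)
    have e2 : UU N Q rp M Kr Ty.P Ty.O z = 0 :=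
      h.zero Ty.P Ty.O z rfl hz fun _ hh => absurd hh.2 (by decide)
    have e3 : UU N Q rp M Kr Ty.P Ty.U z = 0 :=
      h.zero Ty.P Ty.U z rfl hz fun _ hh => absurd hh.2 (by decide)
    have e4 : UU N Q rp M Kr Ty.U Ty.P z = 0 :=
      h.zero Ty.U Ty.P z rfl hz fun _ hh => absurd hh.1 (by decide)
    rw [hM, e1, e2, e3, e4]
    by_cases hr : z ∈ L.image rp
    · have e5 : ((∑ p, (pc p).cnt Ty.O Ty.P : ℕ) : ℝ) * UU N Q rp M Kr Ty.O Ty.P z = 1 :=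
        h.rep z hr
      rw [e5]
      constructor
      · norm_num
      · intro _
        norm_num
    · have e5 : UU N Q rp M Kr Ty.O Ty.P z = 0 :=
        h.zero Ty.O Ty.P z rfl hz fun hh => absurd hh hr
      rw [e5]
      constructor
      · norm_num
      · intro hh
        exact absurd hh hr

/-- degree of the label `z` -/
private noncomputable def pk3_dg (N : ℕ) (Q L : Finset ℕ) (rp prt : ℕ → ℕ) (M : Ty → ℕ → ℝ)
    (Kr : Ty → Ty → ℕ → ℕ → ℝ) (pc : Fin n → Piece) (z : ℕ) : ℝ :=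
  ∑ p, ∑ φ : Fin ((pc p).k + 1) → Fin (N + 1),
    if z ∈ (pc p).usedS Q rp ((pc p).lab φ) then (pc p).wv N Q L rp prt M Kr φ else 0

private theorem pk3_dg_le (he : Env N t Q L rp prt) (hp : ∀ p, (pc p).WF)
    (h : ChainData N Q L rp prt n (fun a b => ((∑ p, (pc p).cnt a b : ℕ) : ℝ)) C M Kr) (z : ℕ) :
    pk3_dg N Q L rp prt M Kr pc z ≤ 1 :=
  (sum_le_sum fun p _ => sum_le_sum fun φ _ => pk3_deg h (hp p) φ z).trans (pk3_tot he hp h z).1

private theorem pk3_dg_sum (he : Env N t Q L rp prt) (hN : 1 ≤ N) (hp : ∀ p, (pc p).WF)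
    (h : ChainData N Q L rp prt n (fun a b => ((∑ p, (pc p).cnt a b : ℕ) : ℝ)) C M Kr)
    {K : ℕ} (hK : ∀ p, (pc p).k + 1 ≤ K) (hk : ∑ p, ((pc p).k + 1) ≤ 2 * N) :
    ∑ z ∈ L.image rp, (1 - pk3_dg N Q L rp prt M Kr pc z) ≤ 4 * (K : ℝ) ^ 2 * (2 * C ^ 2 + C) := by
  have hC := h.C_pos
  have hX : 0 ≤ 2 * C ^ 2 + C := by positivity
  have hN' : (0 : ℝ) < N := by exact_mod_cast hN
  have hKr : ∀ p, ((pc p).k : ℝ) + 1 ≤ K := fun p => by exact_mod_cast hK p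
  have hkr : ∑ p, (((pc p).k : ℝ) + 1) ≤ 2 * N := by exact_mod_cast hk
  have h1 : ∀ z ∈ L.image rp, 1 - pk3_dg N Q L rp prt M Kr pc z ≤
      ∑ p, ∑ φ : Fin ((pc p).k + 1) → Fin (N + 1),
        ((pc p).cwp N M Kr φ - (pc p).wv N Q L rp prt M Kr φ) *
        ((univ.filter (fun i => z ∈ (pc p).usd Q rp ((pc p).lab φ) i)).card : ℝ) := by
    intro z hz
    rw [← (pk3_tot he hp h z).2 hz, pk3_dg, ← sum_sub_distrib]
    refine sum_le_sum fun p _ => ?_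
    rw [← sum_sub_distrib]
    exact sum_le_sum fun φ _ => pk3_diff h (hp p) φ z
  have h2 : ∑ z ∈ L.image rp, ∑ p, ∑ φ : Fin ((pc p).k + 1) → Fin (N + 1),
        ((pc p).cwp N M Kr φ - (pc p).wv N Q L rp prt M Kr φ) *
        ((univ.filter (fun i => z ∈ (pc p).usd Q rp ((pc p).lab φ) i)).card : ℝ) =
      ∑ p, ∑ φ : Fin ((pc p).k + 1) → Fin (N + 1),
        ((pc p).cwp N M Kr φ - (pc p).wv N Q L rp prt M Kr φ) *
        ∑ z ∈ L.image rp,
          ((univ.filter (fun i => z ∈ (pc p).usd Q rp ((pc p).lab φ) i)).card : ℝ) := by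
    rw [sum_comm]
    refine sum_congr rfl fun p _ => ?_
    rw [sum_comm]
    refine sum_congr rfl fun φ _ => ?_
    rw [mul_sum]
  have h3 : ∀ p, ∑ φ : Fin ((pc p).k + 1) → Fin (N + 1),
        ((pc p).cwp N M Kr φ - (pc p).wv N Q L rp prt M Kr φ) *
        ∑ z ∈ L.image rp,
          ((univ.filter (fun i => z ∈ (pc p).usd Q rp ((pc p).lab φ) i)).card : ℝ) ≤
      2 * (K : ℝ) ^ 2 * (2 * C ^ 2 + C) / N * (((pc p).k : ℝ) + 1) := by
    intro p
    have h4 : ∑ φ : Fin ((pc p).k + 1) → Fin (N + 1),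
        ((pc p).cwp N M Kr φ - (pc p).wv N Q L rp prt M Kr φ) *
        ∑ z ∈ L.image rp,
          ((univ.filter (fun i => z ∈ (pc p).usd Q rp ((pc p).lab φ) i)).card : ℝ) ≤
        (∑ φ : Fin ((pc p).k + 1) → Fin (N + 1),
          ((pc p).cwp N M Kr φ - (pc p).wv N Q L rp prt M Kr φ)) * ((((pc p).k : ℝ) + 1) * 2) := by
      rw [sum_mul]
      refine sum_le_sum fun φ _ => ?_
      refine mul_le_mul_of_nonneg_left (pk3_sum_cnt _ _) ?_
      have := (pk3_wv h (hp p) φ).2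
      linarith
    refine h4.trans ?_
    have h5 := pk_inv he hN h (hp p)
    have h6 : (0 : ℝ) ≤ ((pc p).k : ℝ) + 1 := by positivity
    have h7 : (∑ φ : Fin ((pc p).k + 1) → Fin (N + 1),
          ((pc p).cwp N M Kr φ - (pc p).wv N Q L rp prt M Kr φ)) * ((((pc p).k : ℝ) + 1) * 2) ≤
        ((((pc p).k : ℝ) + 1) ^ 2 * (2 * C ^ 2 + C) / N) * ((((pc p).k : ℝ) + 1) * 2) :=
      mul_le_mul_of_nonneg_right h5 (by positivity)
    refine h7.trans ?_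
    have h8 : (((pc p).k : ℝ) + 1) ^ 2 ≤ (K : ℝ) ^ 2 := pow_le_pow_left₀ h6 (hKr p) 2
    have h9 : (((pc p).k : ℝ) + 1) ^ 2 * (2 * C ^ 2 + C) / N ≤
        (K : ℝ) ^ 2 * (2 * C ^ 2 + C) / N := by
      refine div_le_div_of_nonneg_right ?_ hN'.le
      exact mul_le_mul_of_nonneg_right h8 hX
    have h10 := mul_le_mul_of_nonneg_right h9 (show (0 : ℝ) ≤ (((pc p).k : ℝ) + 1) * 2 by positivity)
    refine h10.trans (le_of_eq ?_)
    ring
  refine (sum_le_sum h1).trans ?_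
  rw [h2]
  refine (sum_le_sum fun p _ => h3 p).trans ?_
  rw [← mul_sum]
  have h11 : (0 : ℝ) ≤ 2 * (K : ℝ) ^ 2 * (2 * C ^ 2 + C) / N := by positivity
  refine (mul_le_mul_of_nonneg_left hkr h11).trans (le_of_eq ?_)
  field_simp
  ring

private theorem pk3_exc (he : Env N t Q L rp prt) (hN : 1 ≤ N) (hp : ∀ p, (pc p).WF)
    (h : ChainData N Q L rp prt n (fun a b => ((∑ p, (pc p).cnt a b : ℕ) : ℝ)) C M Kr)
    {K : ℕ} (hK : ∀ p, (pc p).k + 1 ≤ K) (hk : ∑ p, ((pc p).k + 1) ≤ 2 * N) {κ : ℝ}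
    (T : Finset ℕ) (hT : T ⊆ L.image rp) (hT' : ∀ z ∈ T, pk3_dg N Q L rp prt M Kr pc z < 1 - κ) :
    κ * T.card ≤ 4 * (K : ℝ) ^ 2 * (2 * C ^ 2 + C) := by
  have h1 : κ * T.card ≤ ∑ z ∈ T, (1 - pk3_dg N Q L rp prt M Kr pc z) := by
    have h2 : ∑ _z ∈ T, κ ≤ ∑ z ∈ T, (1 - pk3_dg N Q L rp prt M Kr pc z) :=
      sum_le_sum fun z hz => by
        have := hT' z hz
        linarith
    rw [sum_const, nsmul_eq_mul] at h2
    linarith
  have h3 : ∑ z ∈ T, (1 - pk3_dg N Q L rp prt M Kr pc z) ≤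
      ∑ z ∈ L.image rp, (1 - pk3_dg N Q L rp prt M Kr pc z) :=
    sum_le_sum_of_subset_of_nonneg hT fun z _ _ => by
      have := pk3_dg_le he hp h z
      linarith
  exact h1.trans (h3.trans (pk3_dg_sum he hN hp h hK hk))

end pk3b

section pk3c

variable {N t n : ℕ} {Q L : Finset ℕ} {rp prt : ℕ → ℕ} {C : ℝ}
  {M : Ty → ℕ → ℝ} {Kr : Ty → Ty → ℕ → ℕ → ℝ} {pc : Fin n → Piece}

private theorem pk3_main (he : Env N t Q L rp prt) (hN : 1 ≤ N) (hp : ∀ p, (pc p).WF)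
    (h : ChainData N Q L rp prt n (fun a b => ((∑ p, (pc p).cnt a b : ℕ) : ℝ)) C M Kr)
    {K : ℕ} (hK : ∀ p, (pc p).k + 1 ≤ K) (hk : ∑ p, ((pc p).k + 1) ≤ 2 * N) {κ μ : ℝ}
    (hκ : 0 < κ) (hμ : 0 < μ)
    (hnib : ∀ (V E : Type) [Fintype V] [Fintype E] [DecidableEq V] [DecidableEq E]
      (S : E → Finset V) (w : E → ℝ) (V0 : Finset V),
      (∀ e, (S e).card ≤ 2 * K + 1) → (∀ e, (S e).Nonempty) → (∀ e, 0 ≤ w e) →
      (∀ v, ∑ e with v ∈ S e, w e ≤ 1) →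
      (∀ v ∈ V0, 1 - κ ≤ ∑ e with v ∈ S e, w e) →
      (∀ u v, u ≠ v → ∑ e with (u ∈ S e ∧ v ∈ S e), w e ≤ κ) →
      ∃ M : Finset E, (∀ e ∈ M, 0 < w e) ∧ (∀ e ∈ M, ∀ f ∈ M, e ≠ f → Disjoint (S e) (S f)) ∧
        ((V0.filter (fun v => ∀ e ∈ M, v ∉ S e)).card : ℝ) ≤ μ / 6 * Fintype.card V)
    (b1 : (K : ℝ) ^ 2 * (2 * C ^ 2 + C) / N ≤ κ) (b2 : 2 * (K : ℝ) * (C ^ 2 + C) / N ≤ κ)
    (b3 : (K : ℝ) * C / N ≤ κ) (b4 : 4 * (K : ℝ) ^ 2 * (2 * C ^ 2 + C) ≤ κ * (μ / 4 * N)) :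
      ∃ (M : Finset (Fin n)) (φ : (p : Fin n) → Fin ((pc p).k + 1) → ℕ),
        (∀ p ∈ M, (pc p).Valid Q L rp prt (φ p)) ∧
        (∀ p ∈ M, ∀ q ∈ M, p ≠ q → Disjoint ((pc p).usedS Q rp (φ p)) ((pc q).usedS Q rp (φ q))) ∧
        (n : ℝ) - M.card ≤ μ * N ∧
        (((L.image rp).filter (fun r => ∀ p ∈ M, r ∉ (pc p).usedS Q rp (φ p))).card : ℝ) ≤ μ * N := by
  classical
  have hC := h.C_pos
  have hN' : (0 : ℝ) < N := by exact_mod_cast hN
  have hN1 : (1 : ℝ) ≤ N := by exact_mod_cast hN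
  have hKr : ∀ p, ((pc p).k : ℝ) + 1 ≤ K := fun p => by exact_mod_cast hK p
  have hkr : ∑ p, (((pc p).k : ℝ) + 1) ≤ 2 * N := by exact_mod_cast hk
  let E : Type := Σ p : Fin n, (Fin ((pc p).k + 1) → Fin (N + 1))
  let S : E → Finset (Fin (N + 1) ⊕ Fin n) := fun e =>
    (univ.filter (fun z : Fin (N + 1) =>
      (z : ℕ) ∈ (pc e.1).usedS Q rp ((pc e.1).lab e.2))).disjSum {e.1}
  let w : E → ℝ := fun e => (pc e.1).wv N Q L rp prt M Kr e.2
  have hSl : ∀ (e : E) (z : Fin (N + 1)), Sum.inl z ∈ S e ↔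
      (z : ℕ) ∈ (pc e.1).usedS Q rp ((pc e.1).lab e.2) := by
    intro e z
    change Sum.inl z ∈ disjSum _ _ ↔ _
    rw [inl_mem_disjSum, mem_filter]
    exact ⟨fun hh => hh.2, fun hh => ⟨mem_univ z, hh⟩⟩
  have hSr : ∀ (e : E) (q : Fin n), Sum.inr q ∈ S e ↔ q = e.1 := by
    intro e q
    change Sum.inr q ∈ disjSum _ _ ↔ _
    rw [inr_mem_disjSum, mem_singleton]
  have hw0 : ∀ e, 0 ≤ w e := fun e => (pk3_wv h (hp e.1) e.2).1
  have hsum : ∀ (P : E → Prop) [DecidablePred P], ∑ e with P e, w e =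
      ∑ p, ∑ φ : Fin ((pc p).k + 1) → Fin (N + 1),
        if P ⟨p, φ⟩ then (pc p).wv N Q L rp prt M Kr φ else 0 := by
    intro P _
    rw [sum_filter, Fintype.sum_sigma]
  have hr : ∀ (q : Fin n) (F : (p : Fin n) → (Fin ((pc p).k + 1) → Fin (N + 1)) → ℝ),
      ∑ p, ∑ φ, (if q = p then F p φ else 0) = ∑ φ, F q φ := by
    intro q F
    rw [sum_eq_single q]
    · exact sum_congr rfl fun φ _ => if_pos rfl
    · intro p _ hpq
      exact sum_eq_zero fun φ _ => if_neg (fun hh => hpq hh.symm)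
    · intro hq
      exact absurd (mem_univ q) hq
  have hdl : ∀ z : Fin (N + 1), ∑ e with Sum.inl z ∈ S e, w e = pk3_dg N Q L rp prt M Kr pc z := by
    intro z
    rw [hsum, pk3_dg]
    refine sum_congr rfl fun p _ => sum_congr rfl fun φ _ => ?_
    exact if_congr (hSl ⟨p, φ⟩ z) rfl rfl
  have hdr : ∀ q : Fin n, ∑ e with Sum.inr q ∈ S e, w e =
      ∑ φ : Fin ((pc q).k + 1) → Fin (N + 1), (pc q).wv N Q L rp prt M Kr φ := by
    intro q
    rw [hsum]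
    refine Eq.trans ?_ (hr q fun p φ => (pc p).wv N Q L rp prt M Kr φ)
    refine sum_congr rfl fun p _ => sum_congr rfl fun φ _ => ?_
    exact if_congr (hSr ⟨p, φ⟩ q) rfl rfl
  have hwc : ∀ q : Fin n, ∑ φ : Fin ((pc q).k + 1) → Fin (N + 1),
      (pc q).wv N Q L rp prt M Kr φ ≤ 1 := by
    intro q
    rw [← cwp_sum h (hp q)]
    exact sum_le_sum fun φ _ => (pk3_wv h (hp q) φ).2
  have hlr : ∀ (z : Fin (N + 1)) (q : Fin n),
      ∑ p, ∑ φ : Fin ((pc p).k + 1) → Fin (N + 1),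
        (if Sum.inl z ∈ S ⟨p, φ⟩ ∧ Sum.inr q ∈ S ⟨p, φ⟩ then
          (pc p).wv N Q L rp prt M Kr φ else 0) ≤ κ := by
    intro z q
    have h1 : ∑ p, ∑ φ : Fin ((pc p).k + 1) → Fin (N + 1),
        (if Sum.inl z ∈ S ⟨p, φ⟩ ∧ Sum.inr q ∈ S ⟨p, φ⟩ then
          (pc p).wv N Q L rp prt M Kr φ else 0) =
        ∑ p, ∑ φ : Fin ((pc p).k + 1) → Fin (N + 1), (if q = p then
          (if (z : ℕ) ∈ (pc p).usedS Q rp ((pc p).lab φ) then
            (pc p).wv N Q L rp prt M Kr φ else 0) else 0) := by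
      refine sum_congr rfl fun p _ => sum_congr rfl fun φ _ => ?_
      rw [← ite_and]
      refine if_congr ?_ rfl rfl
      rw [hSl, hSr]
      exact and_comm
    rw [h1, hr q]
    have h2 : ∑ φ : Fin ((pc q).k + 1) → Fin (N + 1),
        (if (z : ℕ) ∈ (pc q).usedS Q rp ((pc q).lab φ) then
          (pc q).wv N Q L rp prt M Kr φ else 0) ≤
        ∑ φ : Fin ((pc q).k + 1) → Fin (N + 1),
        (if (z : ℕ) ∈ (pc q).usedS Q rp ((pc q).lab φ) then (pc q).cwp N M Kr φ else 0) := by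
      refine sum_le_sum fun φ _ => ?_
      split_ifs
      · exact (pk3_wv h (hp q) φ).2
      · exact le_rfl
    refine h2.trans ((pk_one h (hp q) z).trans (le_trans ?_ b3))
    refine div_le_div_of_nonneg_right ?_ hN'.le
    exact mul_le_mul_of_nonneg_right (hKr q) hC.le
  let V0 : Finset (Fin (N + 1) ⊕ Fin n) :=
    (univ.filter (fun z : Fin (N + 1) => (z : ℕ) ∈ L.image rp ∧
      1 - κ ≤ pk3_dg N Q L rp prt M Kr pc z)).disjSum univ
  obtain ⟨M₀, H1, H2, H3⟩ := hnib (Fin (N + 1) ⊕ Fin n) E S w V0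
    (fun e => by
      change (disjSum _ _).card ≤ _
      rw [card_disjSum, card_singleton]
      have h1 : (univ.filter (fun z : Fin (N + 1) =>
          (z : ℕ) ∈ (pc e.1).usedS Q rp ((pc e.1).lab e.2))).card ≤
          ((pc e.1).usedS Q rp ((pc e.1).lab e.2)).card := by
        refine card_le_card_of_injOn (fun z : Fin (N + 1) => (z : ℕ)) ?_ ?_
        · intro z hz
          exact (mem_filter.1 hz).2
        · intro a _ b _ hab
          exact Fin.ext hab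
      have h2 := pk3_used_card Q rp (pc e.1) ((pc e.1).lab e.2)
      have h3 := hK e.1
      omega)
    (fun e => ⟨Sum.inr e.1, (hSr e e.1).2 rfl⟩) hw0
    (fun v => by
      rcases v with z | q
      · rw [hdl]
        exact pk3_dg_le he hp h z
      · rw [hdr]
        exact hwc q)
    (fun v hv => by
      rcases v with z | q
      · rw [hdl]
        have hv' : Sum.inl z ∈ disjSum _ _ := hv
        rw [inl_mem_disjSum, mem_filter] at hv'
        exact hv'.2.2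
      · rw [hdr]
        have h1 := pk_inv he hN h (hp q)
        rw [sum_sub_distrib, cwp_sum h (hp q)] at h1
        have h2 : (((pc q).k : ℝ) + 1) ^ 2 * (2 * C ^ 2 + C) / N ≤
            (K : ℝ) ^ 2 * (2 * C ^ 2 + C) / N := by
          refine div_le_div_of_nonneg_right ?_ hN'.le
          refine mul_le_mul_of_nonneg_right ?_ (by positivity)
          exact pow_le_pow_left₀ (by positivity) (hKr q) 2
        linarith)
    (fun u v huv => by
      rw [hsum]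
      rcases u with z | q <;> rcases v with z' | q'
      · have hzz : (z : ℕ) ≠ (z' : ℕ) := fun hh => huv (congrArg Sum.inl (Fin.ext hh))
        have h1 : ∑ p, ∑ φ : Fin ((pc p).k + 1) → Fin (N + 1),
            (if Sum.inl z ∈ S ⟨p, φ⟩ ∧ Sum.inl z' ∈ S ⟨p, φ⟩ then
              (pc p).wv N Q L rp prt M Kr φ else 0) ≤
            ∑ p, (((pc p).k : ℝ) + 1) ^ 2 * (C ^ 2 + C) / (N : ℝ) ^ 2 := by
          refine sum_le_sum fun p _ => le_trans ?_ (pk_cod h (hp p) hzz)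
          refine sum_le_sum fun φ _ => ?_
          have h2 : (Sum.inl z ∈ S ⟨p, φ⟩ ∧ Sum.inl z' ∈ S ⟨p, φ⟩) ↔
              ((z : ℕ) ∈ (pc p).usedS Q rp ((pc p).lab φ) ∧
                (z' : ℕ) ∈ (pc p).usedS Q rp ((pc p).lab φ)) := by
            rw [hSl, hSl]
          rw [if_congr h2 rfl rfl]
          split_ifs
          · exact (pk3_wv h (hp p) φ).2
          · exact le_rfl
        have h3 : ∑ p, (((pc p).k : ℝ) + 1) ^ 2 * (C ^ 2 + C) / (N : ℝ) ^ 2 ≤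
            ∑ p, (K : ℝ) * (C ^ 2 + C) / (N : ℝ) ^ 2 * (((pc p).k : ℝ) + 1) := by
          refine sum_le_sum fun p _ => ?_
          have h4 : (0 : ℝ) ≤ ((pc p).k : ℝ) + 1 := by positivity
          have h5 : (0 : ℝ) ≤ (C ^ 2 + C) / (N : ℝ) ^ 2 * (((pc p).k : ℝ) + 1) := by positivity
          have h6 := mul_le_mul_of_nonneg_left (hKr p) h5
          have h7 : (((pc p).k : ℝ) + 1) ^ 2 * (C ^ 2 + C) / (N : ℝ) ^ 2 =
              (C ^ 2 + C) / (N : ℝ) ^ 2 * (((pc p).k : ℝ) + 1) * (((pc p).k : ℝ) + 1) := by ring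
          have h8 : (K : ℝ) * (C ^ 2 + C) / (N : ℝ) ^ 2 * (((pc p).k : ℝ) + 1) =
              (C ^ 2 + C) / (N : ℝ) ^ 2 * (((pc p).k : ℝ) + 1) * K := by ring
          rw [h7, h8]
          exact h6
        refine h1.trans (h3.trans (le_trans ?_ b2))
        rw [← mul_sum]
        have h9 : (0 : ℝ) ≤ (K : ℝ) * (C ^ 2 + C) / (N : ℝ) ^ 2 := by positivity
        refine (mul_le_mul_of_nonneg_left hkr h9).trans (le_of_eq ?_)
        field_simp
      · exact hlr z q'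
      · have h1 : ∑ p, ∑ φ : Fin ((pc p).k + 1) → Fin (N + 1),
            (if Sum.inr q ∈ S ⟨p, φ⟩ ∧ Sum.inl z' ∈ S ⟨p, φ⟩ then
              (pc p).wv N Q L rp prt M Kr φ else 0) =
            ∑ p, ∑ φ : Fin ((pc p).k + 1) → Fin (N + 1),
            (if Sum.inl z' ∈ S ⟨p, φ⟩ ∧ Sum.inr q ∈ S ⟨p, φ⟩ then
              (pc p).wv N Q L rp prt M Kr φ else 0) :=
          sum_congr rfl fun p _ => sum_congr rfl fun φ _ => if_congr and_comm rfl rfl
        rw [h1]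
        exact hlr z' q
      · have h1 : ∑ p, ∑ φ : Fin ((pc p).k + 1) → Fin (N + 1),
            (if Sum.inr q ∈ S ⟨p, φ⟩ ∧ Sum.inr q' ∈ S ⟨p, φ⟩ then
              (pc p).wv N Q L rp prt M Kr φ else 0) = 0 := by
          refine sum_eq_zero fun p _ => sum_eq_zero fun φ _ => if_neg ?_
          rw [hSr, hSr]
          rintro ⟨hh, hh'⟩
          exact huv (congrArg Sum.inr (hh.trans hh'.symm))
        rw [h1]
        exact hκ.le)
  have hval : ∀ (p : Fin n) (φ : Fin ((pc p).k + 1) → Fin (N + 1)), (⟨p, φ⟩ : E) ∈ M₀ →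
      (pc p).Valid Q L rp prt ((pc p).lab φ) ∧ (pc p).cwp N M Kr φ ≠ 0 := by
    intro p φ hpφ
    have h1 : 0 < (pc p).wv N Q L rp prt M Kr φ := H1 _ hpφ
    by_cases hv : (pc p).Valid Q L rp prt ((pc p).lab φ)
    · have h2 : (pc p).wv N Q L rp prt M Kr φ = (pc p).cwp N M Kr φ := by
        unfold Piece.wv
        rw [if_pos hv]
      rw [h2] at h1
      exact ⟨hv, h1.ne'⟩
    · have h2 : (pc p).wv N Q L rp prt M Kr φ = 0 := by
        unfold Piece.wv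
        rw [if_neg hv]
      rw [h2] at h1
      exact absurd h1 (lt_irrefl 0)
  have huniq : ∀ (p : Fin n) (φ φ' : Fin ((pc p).k + 1) → Fin (N + 1)), (⟨p, φ⟩ : E) ∈ M₀ →
      (⟨p, φ'⟩ : E) ∈ M₀ → φ = φ' := by
    intro p φ φ' h1 h2
    by_contra hne
    have h3 : (⟨p, φ⟩ : E) ≠ ⟨p, φ'⟩ := fun hh => hne (eq_of_heq (Sigma.mk.inj hh).2)
    exact disjoint_left.1 (H2 _ h1 _ h2 h3) ((hSr ⟨p, φ⟩ p).2 rfl) ((hSr ⟨p, φ'⟩ p).2 rfl)
  let Mf : Finset (Fin n) := M₀.image Sigma.fst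
  let φf : (p : Fin n) → Fin ((pc p).k + 1) → ℕ := fun p =>
    if hh : ∃ φ : Fin ((pc p).k + 1) → Fin (N + 1), (⟨p, φ⟩ : E) ∈ M₀ then
      (pc p).lab hh.choose else fun _ => 0
  have hφ : ∀ p ∈ Mf, ∃ φ : Fin ((pc p).k + 1) → Fin (N + 1), (⟨p, φ⟩ : E) ∈ M₀ ∧
      φf p = (pc p).lab φ := by
    intro p hpM
    obtain ⟨e, he', rfl⟩ := mem_image.1 hpM
    have hh : ∃ φ : Fin ((pc e.1).k + 1) → Fin (N + 1), (⟨e.1, φ⟩ : E) ∈ M₀ := ⟨e.2, he'⟩
    exact ⟨hh.choose, hh.choose_spec, dif_pos hh⟩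
  have hcard : (Fintype.card (Fin (N + 1) ⊕ Fin n) : ℝ) ≤ 4 * N := by
    have h1 : n ≤ 2 * N := by
      have h2 : ∑ _p : Fin n, 1 ≤ ∑ p, ((pc p).k + 1) := sum_le_sum fun p _ => Nat.le_add_left 1 _
      rw [sum_const, card_univ, Fintype.card_fin, smul_eq_mul, mul_one] at h2
      exact h2.trans hk
    have h3 : (n : ℝ) ≤ 2 * N := by exact_mod_cast h1
    rw [Fintype.card_sum, Fintype.card_fin, Fintype.card_fin]
    push_cast
    linarith
  have hF : ((V0.filter (fun v => ∀ e ∈ M₀, v ∉ S e)).card : ℝ) ≤ 2 / 3 * (μ * N) := by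
    refine H3.trans ?_
    have h1 := mul_le_mul_of_nonneg_left hcard (show (0 : ℝ) ≤ μ / 6 by positivity)
    linarith
  refine ⟨Mf, φf, ?_, ?_, ?_, ?_⟩
  · intro p hpM
    obtain ⟨φ, h1, h2⟩ := hφ p hpM
    rw [h2]
    exact (hval p φ h1).1
  · intro p hpM q hqM hpq
    obtain ⟨φ, h1, h2⟩ := hφ p hpM
    obtain ⟨φ', h1', h2'⟩ := hφ q hqM
    rw [h2, h2', disjoint_left]
    intro z hz hz'
    obtain ⟨i, -, hi⟩ := mem_biUnion.1 hz
    have h3 : z ≤ N := used_le he h (hp p) (hval p φ h1).2 hi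
    have h4 : (⟨p, φ⟩ : E) ≠ ⟨q, φ'⟩ := fun hh => hpq (Sigma.mk.inj hh).1
    exact disjoint_left.1 (H2 _ h1 _ h1' h4)
      ((hSl ⟨p, φ⟩ ⟨z, Nat.lt_succ_of_le h3⟩).2 hz) ((hSl ⟨q, φ'⟩ ⟨z, Nat.lt_succ_of_le h3⟩).2 hz')
  · have h1 : (Mfᶜ).card ≤ (V0.filter (fun v => ∀ e ∈ M₀, v ∉ S e)).card := by
      refine card_le_card_of_injOn Sum.inr ?_ ?_
      · intro q hq
        have hq' : q ∉ Mf := mem_compl.1 hq
        refine mem_coe.2 (mem_filter.2 ⟨?_, fun e he' hqe => hq' ?_⟩)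
        · change Sum.inr q ∈ disjSum _ _
          rw [inr_mem_disjSum]
          exact mem_univ q
        · rw [hSr] at hqe
          exact mem_image.2 ⟨e, he', hqe.symm⟩
      · intro a _ b _ hab
        exact Sum.inr_injective hab
    have h2 : Mf.card + (Mfᶜ).card = n := by
      rw [card_add_card_compl, Fintype.card_fin]
    have h3 : ((Mfᶜ).card : ℝ) ≤ ((V0.filter (fun v => ∀ e ∈ M₀, v ∉ S e)).card : ℝ) := by
      exact_mod_cast h1
    have h4 : (Mf.card : ℝ) + ((Mfᶜ).card : ℝ) = n := by exact_mod_cast h2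
    have h5 : 0 ≤ μ * N := by positivity
    linarith
  · obtain ⟨T, hT⟩ : ∃ T, T = (L.image rp).filter
        (fun r => ∀ p ∈ Mf, r ∉ (pc p).usedS Q rp (φf p)) := ⟨_, rfl⟩
    rw [← hT]
    have hTL : ∀ r ∈ T, r ∈ L.image rp ∧ ∀ p ∈ Mf, r ∉ (pc p).usedS Q rp (φf p) := by
      intro r hr'
      rw [hT] at hr'
      exact mem_filter.1 hr'
    have h1 : κ * ((T.filter (fun z => pk3_dg N Q L rp prt M Kr pc z < 1 - κ)).card : ℝ) ≤
        4 * (K : ℝ) ^ 2 * (2 * C ^ 2 + C) :=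
      pk3_exc he hN hp h hK hk _ (fun z hz => (hTL z (mem_filter.1 hz).1).1)
        fun z hz => (mem_filter.1 hz).2
    have h2 : ((T.filter (fun z => pk3_dg N Q L rp prt M Kr pc z < 1 - κ)).card : ℝ) ≤
        μ / 4 * N := le_of_mul_le_mul_left (h1.trans b4) hκ
    have h3 : (T.filter (fun z => ¬ pk3_dg N Q L rp prt M Kr pc z < 1 - κ)).card ≤
        (V0.filter (fun v => ∀ e ∈ M₀, v ∉ S e)).card := by
      have h4 : T.filter (fun z => ¬ pk3_dg N Q L rp prt M Kr pc z < 1 - κ) ⊆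
          (V0.filter (fun v => ∀ e ∈ M₀, v ∉ S e)).image
            (Sum.elim (fun z : Fin (N + 1) => (z : ℕ)) fun _ => 0) := by
        intro r hr'
        obtain ⟨h5, h6⟩ := mem_filter.1 hr'
        obtain ⟨h7, h8⟩ := hTL r h5
        have h9 : r ≤ N := (pk3_rep he h7).2.2
        refine mem_image.2 ⟨Sum.inl ⟨r, Nat.lt_succ_of_le h9⟩, mem_filter.2 ⟨?_, ?_⟩, rfl⟩
        · change Sum.inl _ ∈ disjSum _ _
          rw [inl_mem_disjSum]
          exact mem_filter.2 ⟨mem_univ _, h7, not_lt.1 h6⟩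
        · intro e he' hre
          have h10 : e.1 ∈ Mf := mem_image.2 ⟨e, he', rfl⟩
          obtain ⟨φ, h11, h12⟩ := hφ e.1 h10
          have h13 : φ = e.2 := huniq e.1 φ e.2 h11 he'
          have h14 := (hSl e ⟨r, Nat.lt_succ_of_le h9⟩).1 hre
          apply h8 e.1 h10
          rw [h12, h13]
          exact h14
      exact (card_le_card h4).trans card_image_le
    have h4 : (T.filter (fun z => pk3_dg N Q L rp prt M Kr pc z < 1 - κ)).card +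
        (T.filter (fun z => ¬ pk3_dg N Q L rp prt M Kr pc z < 1 - κ)).card = T.card :=
      card_filter_add_card_filter_not _
    have h5 : (T.card : ℝ) = ((T.filter (fun z => pk3_dg N Q L rp prt M Kr pc z < 1 - κ)).card : ℝ) +
        ((T.filter (fun z => ¬ pk3_dg N Q L rp prt M Kr pc z < 1 - κ)).card : ℝ) := by
      exact_mod_cast h4.symm
    have h6 : ((T.filter (fun z => ¬ pk3_dg N Q L rp prt M Kr pc z < 1 - κ)).card : ℝ) ≤
        ((V0.filter (fun v => ∀ e ∈ M₀, v ∉ S e)).card : ℝ) := by exact_mod_cast h3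
    have h7 : 0 ≤ μ * N := by positivity
    linarith

end pk3c

theorem pack_core (K : ℕ) (C μ : ℝ) (hC : 0 < C) (hμ : 0 < μ) : ∃ N₀ : ℕ, ∀ N : ℕ, N₀ ≤ N →
    ∀ (t : ℕ) (Q L : Finset ℕ) (rp prt : ℕ → ℕ), Env N t Q L rp prt →
    ∀ (n : ℕ) (pc : Fin n → Piece), (∀ p, (pc p).WF) → (∀ p, (pc p).k + 1 ≤ K) →
      ∑ p, ((pc p).k + 1) ≤ 2 * N →
    ∀ (M : Ty → ℕ → ℝ) (Kr : Ty → Ty → ℕ → ℕ → ℝ),
      ChainData N Q L rp prt n (fun a b => ((∑ p, (pc p).cnt a b : ℕ) : ℝ)) C M Kr →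
      ∃ (M : Finset (Fin n)) (φ : (p : Fin n) → Fin ((pc p).k + 1) → ℕ),
        (∀ p ∈ M, (pc p).Valid Q L rp prt (φ p)) ∧
        (∀ p ∈ M, ∀ q ∈ M, p ≠ q → Disjoint ((pc p).usedS Q rp (φ p)) ((pc q).usedS Q rp (φ q))) ∧
        (n : ℝ) - M.card ≤ μ * N ∧
        (((L.image rp).filter (fun r => ∀ p ∈ M, r ∉ (pc p).usedS Q rp (φ p))).card : ℝ) ≤ μ * N := by
  obtain ⟨κ, hκ, hnib⟩ := nibble (2 * K + 1) (μ / 6) (by positivity)
  obtain ⟨N₀, hN₀⟩ := exists_nat_ge ((K : ℝ) ^ 2 * (2 * C ^ 2 + C) / κ + 2 * (K : ℝ) * (C ^ 2 + C) / κ +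
    (K : ℝ) * C / κ + 16 * (K : ℝ) ^ 2 * (2 * C ^ 2 + C) / (κ * μ) + 1)
  refine ⟨N₀, fun N hN t Q L rp prt he n pc hp hK hk M Kr h => ?_⟩
  have hNr : (N₀ : ℝ) ≤ N := by exact_mod_cast hN
  have e1 : 0 ≤ (K : ℝ) ^ 2 * (2 * C ^ 2 + C) / κ := by positivity
  have e2 : 0 ≤ 2 * (K : ℝ) * (C ^ 2 + C) / κ := by positivity
  have e3 : 0 ≤ (K : ℝ) * C / κ := by positivity
  have e4 : 0 ≤ 16 * (K : ℝ) ^ 2 * (2 * C ^ 2 + C) / (κ * μ) := by positivity
  have hN1 : (1 : ℝ) ≤ N := by linarith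
  have hN' : (0 : ℝ) < N := by linarith
  have key : ∀ x : ℝ, x / κ ≤ N → x / N ≤ κ := by
    intro x hx
    rw [div_le_iff₀ hκ] at hx
    rw [div_le_iff₀ hN']
    linarith
  have b4 : 16 * (K : ℝ) ^ 2 * (2 * C ^ 2 + C) / (κ * μ) ≤ N := by linarith
  rw [div_le_iff₀ (by positivity)] at b4
  exact pk3_main he (by exact_mod_cast hN1) hp h hK hk hκ hμ hnib (key _ (by linarith))
    (key _ (by linarith)) (key _ (by linarith)) (by linarith)

private theorem pk4_cnt (p : Piece) (hp : p.WF) :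
    p.cnt Ty.O Ty.O + p.cnt Ty.O Ty.P + p.cnt Ty.P Ty.O + p.cnt Ty.P Ty.U + p.cnt Ty.U Ty.P = p.k := by
  classical
  unfold Piece.cnt
  simp only [Finset.card_filter]
  rw [← Finset.sum_add_distrib, ← Finset.sum_add_distrib, ← Finset.sum_add_distrib,
    ← Finset.sum_add_distrib]
  have h1 : ∀ i : Fin (p.k + 1),
      (if i ≠ 0 ∧ p.ty (p.par i) = Ty.O ∧ p.ty i = Ty.O then 1 else 0) +
      (if i ≠ 0 ∧ p.ty (p.par i) = Ty.O ∧ p.ty i = Ty.P then 1 else 0) +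
      (if i ≠ 0 ∧ p.ty (p.par i) = Ty.P ∧ p.ty i = Ty.O then 1 else 0) +
      (if i ≠ 0 ∧ p.ty (p.par i) = Ty.P ∧ p.ty i = Ty.U then 1 else 0) +
      (if i ≠ 0 ∧ p.ty (p.par i) = Ty.U ∧ p.ty i = Ty.P then 1 else 0) =
      if i = 0 then 0 else 1 := by
    intro i
    by_cases hi : i = 0
    · simp [hi]
    · have h2 := hp.ok i hi
      rw [if_neg hi]
      generalize p.ty (p.par i) = a at h2 ⊢
      generalize p.ty i = b at h2 ⊢
      cases a <;> cases b <;> simp_all [okTy]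
  rw [Finset.sum_congr rfl fun i _ => h1 i, Fin.sum_univ_succ]
  simp [Fin.succ_ne_zero]

/-- Packing of pieces: all but `μ N` pieces and all but `μ N` units are used by valid numberings of
pieces with disjoint sets of used labels. -/
theorem piece_packing (B δ : ℝ) (hB : 1 ≤ B) (hδ : 0 < δ) : ∃ ε : ℝ, 0 < ε ∧
    ∀ (K : ℕ) (μ : ℝ), 0 < μ → ∃ N₀ : ℕ, ∀ N : ℕ, N₀ ≤ N →
    ∀ (t : ℕ) (Q L : Finset ℕ) (rp prt : ℕ → ℕ), Env N t Q L rp prt →
      (N : ℝ) - Q.card ≤ ε * N → L.Nonempty → (L.card : ℝ) ≤ ε * N →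
    ∀ (np : ℕ) (pc : Fin np → Piece), (∀ p, (pc p).WF) → (∀ p, (pc p).k + 1 ≤ K) →
    ∀ (nv e2 : ℕ), nv = ∑ p, ((pc p).k + 1) → e2 = ∑ p, (pc p).cnt Ty.O Ty.P →
      e2 = ∑ p, (pc p).cnt Ty.P Ty.U → (t - 1) * e2 = ∑ p, (pc p).cnt Ty.U Ty.P →
      ((∑ p, (pc p).cnt Ty.P Ty.O : ℕ) : ℝ) ≤ B * e2 → δ * N ≤ e2 →
      (1 - ε) * N ≤ 2 * nv → (np : ℝ) ≤ ε * N →
      (2 * nv - np : ℝ) ≤ Q.card + (2 * t + 1) * (L.image rp).card →
      ∃ (M : Finset (Fin np)) (φ : (p : Fin np) → Fin ((pc p).k + 1) → ℕ),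
        (∀ p ∈ M, (pc p).Valid Q L rp prt (φ p)) ∧
        (∀ p ∈ M, ∀ q ∈ M, p ≠ q → Disjoint ((pc p).usedS Q rp (φ p)) ((pc q).usedS Q rp (φ q))) ∧
        (np : ℝ) - M.card ≤ μ * N ∧
        (((L.image rp).filter (fun r => ∀ p ∈ M, r ∉ (pc p).usedS Q rp (φ p))).card : ℝ) ≤ μ * N := by
  obtain ⟨ε, C, hε, N₁, hk⟩ := kernel_exists B δ hB hδ
  refine ⟨min ε (1 / 2), lt_min hε (by norm_num), fun K μ hμ => ?_⟩
  -- the data of the chain
  have key : ∀ N : ℕ, N₁ ≤ N →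
      ∀ (t : ℕ) (Q L : Finset ℕ) (rp prt : ℕ → ℕ), Env N t Q L rp prt →
      (N : ℝ) - Q.card ≤ min ε (1 / 2) * N → L.Nonempty → (L.card : ℝ) ≤ min ε (1 / 2) * N →
      ∀ (np : ℕ) (pc : Fin np → Piece), (∀ p, (pc p).WF) → (∀ p, (pc p).k + 1 ≤ K) →
      ∀ (nv e2 : ℕ), nv = ∑ p, ((pc p).k + 1) → e2 = ∑ p, (pc p).cnt Ty.O Ty.P →
      e2 = ∑ p, (pc p).cnt Ty.P Ty.U → (t - 1) * e2 = ∑ p, (pc p).cnt Ty.U Ty.P →
      ((∑ p, (pc p).cnt Ty.P Ty.O : ℕ) : ℝ) ≤ B * e2 → δ * N ≤ e2 →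
      (1 - min ε (1 / 2)) * N ≤ 2 * nv → (np : ℝ) ≤ min ε (1 / 2) * N →
      (2 * nv - np : ℝ) ≤ Q.card + (2 * t + 1) * (L.image rp).card →
      ∑ p, ((pc p).k + 1) ≤ 2 * N ∧ ∃ (M : Ty → ℕ → ℝ) (Kr : Ty → Ty → ℕ → ℕ → ℝ),
        ChainData N Q L rp prt np (fun a b => ((∑ p, (pc p).cnt a b : ℕ) : ℝ)) C M Kr := by
    intro N hN t Q L rp prt he hQ hL hLc np pc hWF _ nv e2 hnv he2 he2' he5 hPO hδN h1 hnp h2
    have hN0 : (0 : ℝ) ≤ N := Nat.cast_nonneg N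
    have hm1 : min ε (1 / 2) * (N : ℝ) ≤ ε * N := mul_le_mul_of_nonneg_right (min_le_left _ _) hN0
    have hm2 : min ε (1 / 2) * (N : ℝ) ≤ 1 / 2 * N :=
      mul_le_mul_of_nonneg_right (min_le_right _ _) hN0
    have hsum : (nv : ℝ) = np + ((((∑ p, (pc p).cnt Ty.O Ty.O : ℕ) : ℝ)) +
        ((∑ p, (pc p).cnt Ty.O Ty.P : ℕ) : ℝ) + ((∑ p, (pc p).cnt Ty.P Ty.O : ℕ) : ℝ) +
        ((∑ p, (pc p).cnt Ty.P Ty.U : ℕ) : ℝ) + ((∑ p, (pc p).cnt Ty.U Ty.P : ℕ) : ℝ)) := by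
      have h3 : nv = np + ((∑ p, (pc p).cnt Ty.O Ty.O) + (∑ p, (pc p).cnt Ty.O Ty.P) +
          (∑ p, (pc p).cnt Ty.P Ty.O) + (∑ p, (pc p).cnt Ty.P Ty.U) +
          (∑ p, (pc p).cnt Ty.U Ty.P)) := by
        rw [hnv, Finset.sum_add_distrib, Finset.sum_const, Finset.card_univ, Fintype.card_fin,
          smul_eq_mul, mul_one, add_comm, ← Finset.sum_add_distrib, ← Finset.sum_add_distrib,
          ← Finset.sum_add_distrib, ← Finset.sum_add_distrib]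
        congr 1
        exact Finset.sum_congr rfl fun p _ => (pk4_cnt (pc p) (hWF p)).symm
      exact_mod_cast h3
    have ht1 : 1 ≤ t := by rcases he.t_le with h | h <;> omega
    have ht2 : (t : ℝ) ≤ 2 := by
      have : t ≤ 2 := by rcases he.t_le with h | h <;> omega
      exact_mod_cast this
    have hQN : (Q.card : ℝ) ≤ N := by
      have h3 := Finset.card_le_card he.Q_sub
      rw [Nat.card_Icc] at h3
      have h4 : Q.card ≤ N := by omega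
      exact_mod_cast h4
    have himg : ((L.image rp).card : ℝ) ≤ L.card := by exact_mod_cast Finset.card_image_le
    constructor
    · have h3 : (2 * (t : ℝ) + 1) * (L.image rp).card ≤ 5 * (1 / 2 * N) := by
        have h4 : (2 * (t : ℝ) + 1) ≤ 5 := by linarith
        refine mul_le_mul h4 ?_ (Nat.cast_nonneg _) (by norm_num)
        linarith
      have h5 : (nv : ℝ) ≤ 2 * N := by linarith
      rw [← hnv]
      exact_mod_cast h5
    · refine hk N hN t Q L rp prt he (hQ.trans hm1) hL (hLc.trans hm1) (np : ℝ)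
        (fun a b => ((∑ p, (pc p).cnt a b : ℕ) : ℝ)) (Nat.cast_nonneg _)
        (fun a b => Nat.cast_nonneg _) ?_ ?_ ?_ ?_ ?_ (hnp.trans hm1) ?_
      · show ((∑ p, (pc p).cnt Ty.P Ty.U : ℕ) : ℝ) = ((∑ p, (pc p).cnt Ty.O Ty.P : ℕ) : ℝ)
        rw [← he2, ← he2']
      · show ((∑ p, (pc p).cnt Ty.U Ty.P : ℕ) : ℝ) =
          ((t : ℝ) - 1) * ((∑ p, (pc p).cnt Ty.O Ty.P : ℕ) : ℝ)
        rw [← he2, ← he5, Nat.cast_mul, Nat.cast_sub ht1, Nat.cast_one]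
      · show ((∑ p, (pc p).cnt Ty.P Ty.O : ℕ) : ℝ) ≤ B * ((∑ p, (pc p).cnt Ty.O Ty.P : ℕ) : ℝ)
        rw [← he2]
        exact hPO
      · show δ * N ≤ ((∑ p, (pc p).cnt Ty.O Ty.P : ℕ) : ℝ)
        rw [← he2]
        exact hδN
      · rw [← hsum]
        linarith
      · rw [← hsum]
        exact h2
  by_cases hC : 0 < C
  · obtain ⟨N₂, hN₂⟩ := pack_core K C μ hC hμ
    refine ⟨max N₁ N₂, fun N hN t Q L rp prt he hQ hL hLc np pc hWF hK nv e2 hnv he2 he2' he5 hPO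
      hδN h1 hnp h2 => ?_⟩
    obtain ⟨h3, M, Kr, hch⟩ := key N ((le_max_left _ _).trans hN) t Q L rp prt he hQ hL hLc np pc
      hWF hK nv e2 hnv he2 he2' he5 hPO hδN h1 hnp h2
    exact hN₂ N ((le_max_right _ _).trans hN) t Q L rp prt he np pc hWF hK h3 M Kr hch
  · refine ⟨N₁, fun N hN t Q L rp prt he hQ hL hLc np pc hWF hK nv e2 hnv he2 he2' he5 hPO
      hδN h1 hnp h2 => ?_⟩
    obtain ⟨_, M, Kr, hch⟩ := key N hN t Q L rp prt he hQ hL hLc np pc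
      hWF hK nv e2 hnv he2 he2' he5 hPO hδN h1 hnp h2
    exact absurd hch.C_pos hC

end SSB
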