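import Pool.Agent.Lib.MP_8a819d_co.BD.ChD
import Pool.Agent.Lib.MP_8a819d_co.BD.Chn

/-!
# MP_8a819d_co: packing of pieces, 1. Random numberings of one piece

`cwp p φ` is the probability of the numbering `φ` of the piece `p` (chain of `Chn.lean`).

JOB Pk1a: `pk_ok`, `cwp_nonneg`, `cwp_sum`, `pk_rule`, `hh_eq`, `pk_LB`, `used_le`.
JOB Pk1b: `pk_inv`.

1a. `pk_ok`: the fields of `ChainData` (sums over `Fin (N + 1)` are sums over `range (N + 1)`,
`Fin.sum_univ_eq_sum_range`); the edge types are allowed by `Piece.WF.ok`.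
`pk_rule`: if `cwp φ ≠ 0` then `M O (φ 0) ≠ 0`, so `φ 0 ∈ Q` (`M_O`), and all the factors
`K _ _ (φ (par i)) (φ i) ≠ 0`. By strong induction on `i`, `M (ty i) (φ i) > 0`: for `i ≠ 0`
`M (ty i) (φ i) = ∑ x, M (ty (par i)) x * K x (φ i) ≥ M (ty (par i)) (φ (par i)) * K (φ (par i)) (φ i) > 0`. So the
product `M * K` is not `0` and `ChainData.rule` applies.
`pk_LB`: the root: `∑ y, M O y * [z = y] ≤ C / N` by `bdM` (or `0` if `z > N`); other vertices: `bdK`.
`used_le`: all used labels are at most `N` if `cwp φ ≠ 0` (labels `≤ N`, differences `≤ N`, `rp y ∈ L` for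
`y ∈ L`; note that in the case `y ∉ Q` of type `P` the rule gives `y ∈ L`).
1b. `pk_inv`: a numbering with `cwp φ ≠ 0` which is not valid violates (by `pk_rule`) `self` at some `i ≠ 0`, or two
different `usd φ i`, `usd φ j` have a common element `z ≤ N`. So
`∑ φ not valid, cwp φ ≤ ∑ i ≠ 0, P (self fails at i) + ∑ i ≠ j, ∑ z ≤ N, P (z ∈ usd i and z ∈ usd j)`
`≤ (k+1) C/N + (k+1)^2 (N+1) (C/N)^2` by `cw_edge`, `bdS` and `cw_two`, `pk_LB`.
-/

set_option autoImplicit false

namespace SSB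

open Finset

noncomputable def Piece.cwp (p : Piece) (N : ℕ) (M : Ty → ℕ → ℝ) (K : Ty → Ty → ℕ → ℕ → ℝ)
    (φ : Fin (p.k + 1) → Fin (N + 1)) : ℝ :=
  cw p.par (fun x : Fin (N + 1) => M Ty.O x) (fun i x y => K (p.ty (p.par i)) (p.ty i) x y) φ

/-- the numbering as a function with values in `ℕ` -/
def Piece.lab (p : Piece) {N : ℕ} (φ : Fin (p.k + 1) → Fin (N + 1)) : Fin (p.k + 1) → ℕ :=
  fun i => (φ i : ℕ)

open Classical in
/-- the weight of a valid numbering, `0` for the other numberings -/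
noncomputable def Piece.wv (p : Piece) (N : ℕ) (Q L : Finset ℕ) (rp prt : ℕ → ℕ)
    (M : Ty → ℕ → ℝ) (K : Ty → Ty → ℕ → ℕ → ℝ) (φ : Fin (p.k + 1) → Fin (N + 1)) : ℝ :=
  if p.Valid Q L rp prt (p.lab φ) then p.cwp N M K φ else 0

/-- indicator of `z` being used at the vertex `i`, as a local function -/
noncomputable def Piece.hh (p : Piece) (N : ℕ) (Q : Finset ℕ) (rp : ℕ → ℕ) (i : Fin (p.k + 1)) (z : ℕ)
    (x y : Fin (N + 1)) : ℝ :=
  if i = 0 then (if z = (y : ℕ) then 1 else 0) else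
    if z ∈ us Q rp (p.ty (p.par i)) (p.ty i) x y then 1 else 0

variable {N t : ℕ} {Q L : Finset ℕ} {rp prt : ℕ → ℕ} {np C : ℝ} {c : Ty → Ty → ℝ}
  {M : Ty → ℕ → ℝ} {K : Ty → Ty → ℕ → ℕ → ℝ}

theorem pk_ok (h : ChainData N Q L rp prt np c C M K) {p : Piece} (hp : p.WF) :
    ChOK p.par (fun x : Fin (N + 1) => M Ty.O x) (fun i x y => K (p.ty (p.par i)) (p.ty i) x y)
      (fun i x => M (p.ty i) x) := by
  refine { par_zero := hp.par_zero, par_lt := hp.par_lt, m_nn := fun x => h.M_nn _ _, m_sum := ?_,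
           κ_nn := fun i x y => h.K_nn _ _ _ _, κ_sum := ?_, root := ?_, cons := ?_ }
  · rw [Fin.sum_univ_eq_sum_range (fun x => M Ty.O x) (N + 1)]
    exact h.M_sum _
  · intro i hi x
    rw [Fin.sum_univ_eq_sum_range (fun y => K (p.ty (p.par i)) (p.ty i) x y) (N + 1)]
    exact h.K_sum _ _ _ (hp.ok i hi)
  · funext x
    show M (p.ty 0) x = M Ty.O x
    rw [hp.root]
  · intro i hi y
    show ∑ x : Fin (N + 1), M (p.ty (p.par i)) x * K (p.ty (p.par i)) (p.ty i) x y = M (p.ty i) y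
    rw [Fin.sum_univ_eq_sum_range
      (fun x => M (p.ty (p.par i)) x * K (p.ty (p.par i)) (p.ty i) x y) (N + 1)]
    exact h.cons _ _ _ (hp.ok i hi) (Nat.lt_succ_iff.1 y.2)

theorem cwp_nonneg (h : ChainData N Q L rp prt np c C M K) {p : Piece} (hp : p.WF)
    (φ : Fin (p.k + 1) → Fin (N + 1)) : 0 ≤ p.cwp N M K φ := by
  exact cw_nonneg (pk_ok h hp) φ

theorem cwp_sum (h : ChainData N Q L rp prt np c C M K) {p : Piece} (hp : p.WF) :
    ∑ φ, p.cwp N M K φ = 1 := by
  exact cw_sum (pk_ok h hp)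

theorem pk_rule (h : ChainData N Q L rp prt np c C M K) {p : Piece} (hp : p.WF)
    {φ : Fin (p.k + 1) → Fin (N + 1)} (hφ : p.cwp N M K φ ≠ 0) :
    p.lab φ 0 ∈ Q ∧ ∀ i, i ≠ 0 →
      rule Q L prt (p.ty (p.par i)) (p.ty i) (p.lab φ (p.par i)) (p.lab φ i) := by
  have hφ' : M Ty.O (φ 0) * ∏ i : Fin p.k, K (p.ty (p.par i.succ)) (p.ty i.succ)
      (φ (p.par i.succ)) (φ i.succ) ≠ 0 := hφ
  have h0 : M Ty.O (φ 0) ≠ 0 := left_ne_zero_of_mul hφ'
  have hprod := right_ne_zero_of_mul hφ'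
  rw [Finset.prod_ne_zero_iff] at hprod
  have hK : ∀ i : Fin (p.k + 1), i ≠ 0 →
      K (p.ty (p.par i)) (p.ty i) (φ (p.par i)) (φ i) ≠ 0 := by
    intro i hi
    obtain ⟨j, rfl⟩ := Fin.exists_succ_eq.2 hi
    exact hprod j (Finset.mem_univ j)
  have hMpos : ∀ n : ℕ, ∀ i : Fin (p.k + 1), i.val = n → 0 < M (p.ty i) (φ i) := by
    intro n
    induction n using Nat.strong_induction_on with
    | _ n ih =>
      intro i hin
      by_cases hi : i = 0
      · subst hi
        rw [hp.root]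
        exact lt_of_le_of_ne (h.M_nn _ _) (Ne.symm h0)
      · have hlt := hp.par_lt i hi
        have h1 : 0 < M (p.ty (p.par i)) (φ (p.par i)) := by
          apply ih (p.par i).val _ (p.par i) rfl
          rw [← hin]
          exact hlt
        have h2 : 0 < K (p.ty (p.par i)) (p.ty i) (φ (p.par i)) (φ i) :=
          lt_of_le_of_ne (h.K_nn _ _ _ _) (Ne.symm (hK i hi))
        rw [← h.cons (p.ty (p.par i)) (p.ty i) (φ i) (hp.ok i hi) (Nat.lt_succ_iff.1 (φ i).2)]
        refine lt_of_lt_of_le (mul_pos h1 h2) ?_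
        exact Finset.single_le_sum
          (f := fun x : ℕ => M (p.ty (p.par i)) x * K (p.ty (p.par i)) (p.ty i) x (φ i))
          (fun x _ => mul_nonneg (h.M_nn _ _) (h.K_nn _ _ _ _))
          (Finset.mem_range.2 (φ (p.par i)).2)
  refine ⟨h.M_O _ h0, fun i hi => ?_⟩
  apply h.rule _ _ _ _ (hp.ok i hi)
  exact mul_ne_zero (hMpos _ (p.par i) rfl).ne' (hK i hi)

theorem hh_eq {p : Piece} (hp : p.WF) (φ : Fin (p.k + 1) → Fin (N + 1)) (i : Fin (p.k + 1)) (z : ℕ) :
    p.hh N Q rp i z (φ (p.par i)) (φ i) = if z ∈ p.usd Q rp (p.lab φ) i then 1 else 0 := by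
  unfold Piece.hh Piece.usd
  by_cases hi : i = 0
  · subst hi
    rw [if_pos rfl, if_pos rfl]
    by_cases hz : z = (φ 0 : ℕ)
    · rw [if_pos hz, if_pos]
      rw [Finset.mem_singleton]
      exact hz
    · rw [if_neg hz, if_neg]
      rw [Finset.mem_singleton]
      exact hz
  · rw [if_neg hi, if_neg hi]
    rfl

theorem pk_LB (h : ChainData N Q L rp prt np c C M K) {p : Piece} (hp : p.WF) (i : Fin (p.k + 1))
    (z : ℕ) :
    LB (fun x : Fin (N + 1) => M Ty.O x) (fun i x y => K (p.ty (p.par i)) (p.ty i) x y) i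
      (p.hh N Q rp i z) (C / N) := by
  have hCN : 0 ≤ C / (N : ℝ) := div_nonneg h.C_pos.le (Nat.cast_nonneg _)
  refine ⟨?_, ?_, ?_⟩
  · intro x y
    unfold Piece.hh
    split_ifs <;> norm_num
  · intro hi
    have h1 : ∀ y : Fin (N + 1), M Ty.O y * p.hh N Q rp i z y y =
        (fun y : ℕ => if z = y then M Ty.O y else 0) y := by
      intro y
      unfold Piece.hh
      rw [if_pos hi]
      show M Ty.O y * (if z = (y : ℕ) then 1 else 0) = if z = (y : ℕ) then M Ty.O y else 0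
      split_ifs <;> simp
    show ∑ y : Fin (N + 1), M Ty.O y * p.hh N Q rp i z y y ≤ C / N
    rw [Finset.sum_congr rfl (fun y _ => h1 y),
      Fin.sum_univ_eq_sum_range (fun y : ℕ => if z = y then M Ty.O y else 0) (N + 1),
      Finset.sum_ite_eq]
    split_ifs
    · exact h.bdM _ _
    · exact hCN
  · intro hi x
    have h1 : ∀ y : Fin (N + 1), K (p.ty (p.par i)) (p.ty i) x y * p.hh N Q rp i z x y =
        (fun y : ℕ => if z ∈ us Q rp (p.ty (p.par i)) (p.ty i) x y then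
          K (p.ty (p.par i)) (p.ty i) x y else 0) y := by
      intro y
      unfold Piece.hh
      rw [if_neg hi]
      show K (p.ty (p.par i)) (p.ty i) x y *
        (if z ∈ us Q rp (p.ty (p.par i)) (p.ty i) x y then 1 else 0) =
        if z ∈ us Q rp (p.ty (p.par i)) (p.ty i) x y then K (p.ty (p.par i)) (p.ty i) x y else 0
      split_ifs <;> simp
    show ∑ y : Fin (N + 1), K (p.ty (p.par i)) (p.ty i) x y * p.hh N Q rp i z x y ≤ C / N
    rw [Finset.sum_congr rfl (fun y _ => h1 y),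
      Fin.sum_univ_eq_sum_range (fun y : ℕ => if z ∈ us Q rp (p.ty (p.par i)) (p.ty i) x y then
          K (p.ty (p.par i)) (p.ty i) x y else 0) (N + 1)]
    exact h.bdK _ _ _ _ (hp.ok i hi)

private theorem us_le_N (he : Env N t Q L rp prt) {a b : Ty} (hab : okTy a b = true) {x y z : ℕ}
    (hx : x ≤ N) (hy : y ≤ N) (hr : rule Q L prt a b x y) (hz : z ∈ us Q rp a b x y) : z ≤ N := by
  have hd : dd x y ≤ N := by
    unfold dd
    omega
  have hpair : z ∈ ({y, dd x y} : Finset ℕ) → z ≤ N := by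
    intro h1
    rw [Finset.mem_insert, Finset.mem_singleton] at h1
    rcases h1 with h1 | h1
    · rw [h1]
      exact hy
    · rw [h1]
      exact hd
  cases a <;> cases b <;> first | exact absurd hab (by decide) | skip
  · exact hpair hz
  · have hz' : z ∈ (if y ∈ Q then ({y, dd x y} : Finset ℕ) else {rp y, dd x y}) := hz
    by_cases hyQ : y ∈ Q
    · rw [if_pos hyQ] at hz'
      exact hpair hz'
    · rw [if_neg hyQ, Finset.mem_insert, Finset.mem_singleton] at hz'
      have hr' : x ∈ Q ∧ (y ∈ Q ∨ y ∈ L) ∧ dd x y ∈ Q := hr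
      have hyL : y ∈ L := hr'.2.1.resolve_left hyQ
      rcases hz' with h1 | h1
      · rw [h1]
        exact (Finset.mem_Icc.1 (he.L_sub (he.rp_mem y hyL))).2
      · rw [h1]
        exact hd
  · exact hpair hz
  · have hz' : z ∈ (if x ∈ Q then ({y, dd x y} : Finset ℕ) else ∅) := hz
    split_ifs at hz' with hxQ
    · exact hpair hz'
    · exact absurd hz' (Finset.notMem_empty z)
  · have hz' : z ∈ (if x ∈ Q then ({y, dd x y} : Finset ℕ) else ∅) := hz
    split_ifs at hz' with hxQ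
    · exact hpair hz'
    · exact absurd hz' (Finset.notMem_empty z)

theorem used_le (he : Env N t Q L rp prt) (h : ChainData N Q L rp prt np c C M K) {p : Piece}
    (hp : p.WF) {φ : Fin (p.k + 1) → Fin (N + 1)} (hφ : p.cwp N M K φ ≠ 0) {i : Fin (p.k + 1)} {z : ℕ}
    (hz : z ∈ p.usd Q rp (p.lab φ) i) : z ≤ N := by
  have hl : ∀ j, p.lab φ j ≤ N := fun j => Nat.lt_succ_iff.1 (φ j).2
  by_cases hi : i = 0
  · unfold Piece.usd at hz
    rw [if_pos hi, Finset.mem_singleton] at hz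
    rw [hz]
    exact hl 0
  · unfold Piece.usd at hz
    rw [if_neg hi] at hz
    exact us_le_N he (hp.ok i hi) (hl _) (hl _) ((pk_rule h hp hφ).2 i hi) hz

theorem pk_inv (he : Env N t Q L rp prt) (hN : 1 ≤ N) (h : ChainData N Q L rp prt np c C M K) {p : Piece}
    (hp : p.WF) :
    ∑ φ, (p.cwp N M K φ - p.wv N Q L rp prt M K φ) ≤ ((p.k : ℝ) + 1) ^ 2 * (2 * C ^ 2 + C) / N := by
  classical
  have hok := pk_ok h hp
  have hC := h.C_pos
  have hN' : (0 : ℝ) < N := by exact_mod_cast hN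
  have hCN : (0 : ℝ) ≤ C / N := by positivity
  have hnn : ∀ φ, 0 ≤ p.cwp N M K φ := fun φ => cwp_nonneg h hp φ
  have hhnn : ∀ (i : Fin (p.k + 1)) (z : ℕ) (x y : Fin (N + 1)), 0 ≤ p.hh N Q rp i z x y :=
    fun i z x y => (pk_LB h hp i z).1 x y
  -- the two kinds of errors
  have hA : ∀ i : Fin (p.k + 1), ∑ φ : Fin (p.k + 1) → Fin (N + 1),
      (if i ≠ 0 ∧ (φ i : ℕ) ∈ Q ∧ (φ i : ℕ) = dd (φ (p.par i)) (φ i) then p.cwp N M K φ else 0) ≤
        C / N := by
    intro i
    by_cases hi : i = 0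
    · have h0 : ∀ φ : Fin (p.k + 1) → Fin (N + 1),
          (if i ≠ 0 ∧ (φ i : ℕ) ∈ Q ∧ (φ i : ℕ) = dd (φ (p.par i)) (φ i) then
            p.cwp N M K φ else 0) = 0 := by
        intro φ
        rw [if_neg]
        rintro ⟨h1, -⟩
        exact h1 hi
      rw [Finset.sum_congr rfl fun φ _ => h0 φ, Finset.sum_const_zero]
      exact hCN
    · have h1 := cw_edge hok i hi (fun x y : Fin (N + 1) =>
        if (y : ℕ) ∈ Q ∧ (y : ℕ) = dd x y then (1 : ℝ) else 0)
      have h2 : ∀ φ : Fin (p.k + 1) → Fin (N + 1),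
          (if i ≠ 0 ∧ (φ i : ℕ) ∈ Q ∧ (φ i : ℕ) = dd (φ (p.par i)) (φ i) then
            p.cwp N M K φ else 0) =
          cw p.par (fun x : Fin (N + 1) => M Ty.O x)
            (fun i x y => K (p.ty (p.par i)) (p.ty i) x y) φ *
            (if (φ i : ℕ) ∈ Q ∧ (φ i : ℕ) = dd (φ (p.par i)) (φ i) then (1 : ℝ) else 0) := by
        intro φ
        by_cases h3 : (φ i : ℕ) ∈ Q ∧ (φ i : ℕ) = dd (φ (p.par i)) (φ i)
        · rw [if_pos ⟨hi, h3⟩, if_pos h3, mul_one]
          rfl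
        · rw [if_neg (fun h4 => h3 h4.2), if_neg h3, mul_zero]
      rw [Finset.sum_congr rfl fun φ _ => h2 φ]
      refine le_of_eq_of_le h1 ?_
      have h3 := h.bdS (p.ty (p.par i)) (p.ty i) (hp.ok i hi)
      refine le_trans (le_of_eq ?_) h3
      rw [← Fin.sum_univ_eq_sum_range (fun x => ∑ y ∈ range (N + 1),
        (if y ∈ Q ∧ y = dd x y then M (p.ty (p.par i)) x * K (p.ty (p.par i)) (p.ty i) x y
          else 0)) (N + 1)]
      refine Finset.sum_congr rfl fun x _ => ?_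
      rw [← Fin.sum_univ_eq_sum_range (fun y =>
        (if y ∈ Q ∧ y = dd (x : ℕ) y then
          M (p.ty (p.par i)) (x : ℕ) * K (p.ty (p.par i)) (p.ty i) (x : ℕ) y else 0)) (N + 1)]
      refine Finset.sum_congr rfl fun y _ => ?_
      split_ifs
      · rw [mul_one]
      · rw [mul_zero]
  have hB : ∀ (i j : Fin (p.k + 1)) (z : ℕ), ∑ φ : Fin (p.k + 1) → Fin (N + 1),
      (if i ≠ j then p.cwp N M K φ * (p.hh N Q rp i z (φ (p.par i)) (φ i) *
        p.hh N Q rp j z (φ (p.par j)) (φ j)) else 0) ≤ (C / N) * (C / N) := by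
    intro i j z
    by_cases hij : i = j
    · have h0 : ∀ φ : Fin (p.k + 1) → Fin (N + 1),
          (if i ≠ j then p.cwp N M K φ * (p.hh N Q rp i z (φ (p.par i)) (φ i) *
            p.hh N Q rp j z (φ (p.par j)) (φ j)) else 0) = 0 := by
        intro φ
        rw [if_neg]
        exact fun h1 => h1 hij
      rw [Finset.sum_congr rfl fun φ _ => h0 φ, Finset.sum_const_zero]
      exact mul_nonneg hCN hCN
    · have h1 := cw_two hok hij hCN (pk_LB h hp i z) (pk_LB h hp j z)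
      refine le_trans (le_of_eq ?_) h1
      refine Finset.sum_congr rfl fun φ _ => ?_
      rw [if_pos hij]
      rfl
  -- pointwise
  have hpt : ∀ φ : Fin (p.k + 1) → Fin (N + 1), p.cwp N M K φ - p.wv N Q L rp prt M K φ ≤
      (∑ i : Fin (p.k + 1), (if i ≠ 0 ∧ (φ i : ℕ) ∈ Q ∧ (φ i : ℕ) = dd (φ (p.par i)) (φ i) then
        p.cwp N M K φ else 0)) +
      ∑ i : Fin (p.k + 1), ∑ j : Fin (p.k + 1), ∑ z ∈ range (N + 1),
        (if i ≠ j then p.cwp N M K φ * (p.hh N Q rp i z (φ (p.par i)) (φ i) *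
          p.hh N Q rp j z (φ (p.par j)) (φ j)) else 0) := by
    intro φ
    have hAn : ∀ i : Fin (p.k + 1), 0 ≤ (if i ≠ 0 ∧ (φ i : ℕ) ∈ Q ∧
        (φ i : ℕ) = dd (φ (p.par i)) (φ i) then p.cwp N M K φ else 0) := by
      intro i
      split_ifs
      · exact hnn φ
      · exact le_refl _
    have hBn : ∀ (i j : Fin (p.k + 1)) (z : ℕ), 0 ≤ (if i ≠ j then p.cwp N M K φ *
        (p.hh N Q rp i z (φ (p.par i)) (φ i) * p.hh N Q rp j z (φ (p.par j)) (φ j)) else 0) := by
      intro i j z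
      split_ifs
      · exact mul_nonneg (hnn φ) (mul_nonneg (hhnn _ _ _ _) (hhnn _ _ _ _))
      · exact le_refl _
    have hAs : 0 ≤ ∑ i : Fin (p.k + 1), (if i ≠ 0 ∧ (φ i : ℕ) ∈ Q ∧
        (φ i : ℕ) = dd (φ (p.par i)) (φ i) then p.cwp N M K φ else 0) :=
      Finset.sum_nonneg fun i _ => hAn i
    have hBs : 0 ≤ ∑ i : Fin (p.k + 1), ∑ j : Fin (p.k + 1), ∑ z ∈ range (N + 1),
        (if i ≠ j then p.cwp N M K φ * (p.hh N Q rp i z (φ (p.par i)) (φ i) *
          p.hh N Q rp j z (φ (p.par j)) (φ j)) else 0) :=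
      Finset.sum_nonneg fun i _ => Finset.sum_nonneg fun j _ => Finset.sum_nonneg fun z _ =>
        hBn i j z
    by_cases hv : p.Valid Q L rp prt (p.lab φ)
    · have h1 : p.wv N Q L rp prt M K φ = p.cwp N M K φ := by
        unfold Piece.wv
        rw [if_pos hv]
      rw [h1, sub_self]
      exact add_nonneg hAs hBs
    · have h1 : p.wv N Q L rp prt M K φ = 0 := by
        unfold Piece.wv
        rw [if_neg hv]
      rw [h1, sub_zero]
      by_cases h0 : p.cwp N M K φ = 0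
      · rw [h0] at hAs hBs ⊢
        exact add_nonneg hAs hBs
      · obtain ⟨hroot, hrule⟩ := pk_rule h hp h0
        by_cases hself : ∀ i, i ≠ 0 → p.lab φ i ∈ Q → p.lab φ i ≠ dd (p.lab φ (p.par i)) (p.lab φ i)
        · have hdis : ¬ ∀ i j, i ≠ j → Disjoint (p.usd Q rp (p.lab φ) i) (p.usd Q rp (p.lab φ) j) :=
            fun hd => hv ⟨hroot, hrule, hself, hd⟩
          push Not at hdis
          obtain ⟨i, j, hij, hd⟩ := hdis
          rw [Finset.not_disjoint_iff] at hd
          obtain ⟨z, hzi, hzj⟩ := hd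
          have hzN : z ≤ N := used_le he h hp h0 hzi
          have h2 : p.cwp N M K φ ≤ (if i ≠ j then p.cwp N M K φ *
              (p.hh N Q rp i z (φ (p.par i)) (φ i) * p.hh N Q rp j z (φ (p.par j)) (φ j))
                else 0) := by
            rw [if_pos hij, hh_eq hp φ i z, hh_eq hp φ j z, if_pos hzi, if_pos hzj, mul_one,
              mul_one]
          have h3 : (if i ≠ j then p.cwp N M K φ *
              (p.hh N Q rp i z (φ (p.par i)) (φ i) * p.hh N Q rp j z (φ (p.par j)) (φ j))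
                else 0) ≤ ∑ z ∈ range (N + 1), (if i ≠ j then p.cwp N M K φ *
              (p.hh N Q rp i z (φ (p.par i)) (φ i) * p.hh N Q rp j z (φ (p.par j)) (φ j))
                else 0) :=
            Finset.single_le_sum (f := fun z => (if i ≠ j then p.cwp N M K φ *
              (p.hh N Q rp i z (φ (p.par i)) (φ i) * p.hh N Q rp j z (φ (p.par j)) (φ j))
                else 0)) (fun z _ => hBn i j z) (Finset.mem_range.2 (by omega))
          have h4 : ∑ z ∈ range (N + 1), (if i ≠ j then p.cwp N M K φ *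
              (p.hh N Q rp i z (φ (p.par i)) (φ i) * p.hh N Q rp j z (φ (p.par j)) (φ j))
                else 0) ≤ ∑ j : Fin (p.k + 1), ∑ z ∈ range (N + 1),
                (if i ≠ j then p.cwp N M K φ *
              (p.hh N Q rp i z (φ (p.par i)) (φ i) * p.hh N Q rp j z (φ (p.par j)) (φ j))
                else 0) :=
            Finset.single_le_sum (f := fun j => ∑ z ∈ range (N + 1),
                (if i ≠ j then p.cwp N M K φ *
              (p.hh N Q rp i z (φ (p.par i)) (φ i) * p.hh N Q rp j z (φ (p.par j)) (φ j))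
                else 0)) (fun j _ => Finset.sum_nonneg fun z _ => hBn i j z) (Finset.mem_univ j)
          have h5 : ∑ j : Fin (p.k + 1), ∑ z ∈ range (N + 1),
                (if i ≠ j then p.cwp N M K φ *
              (p.hh N Q rp i z (φ (p.par i)) (φ i) * p.hh N Q rp j z (φ (p.par j)) (φ j))
                else 0) ≤ ∑ i : Fin (p.k + 1), ∑ j : Fin (p.k + 1), ∑ z ∈ range (N + 1),
                (if i ≠ j then p.cwp N M K φ *
              (p.hh N Q rp i z (φ (p.par i)) (φ i) * p.hh N Q rp j z (φ (p.par j)) (φ j))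
                else 0) :=
            Finset.single_le_sum (f := fun i => ∑ j : Fin (p.k + 1), ∑ z ∈ range (N + 1),
                (if i ≠ j then p.cwp N M K φ *
              (p.hh N Q rp i z (φ (p.par i)) (φ i) * p.hh N Q rp j z (φ (p.par j)) (φ j))
                else 0)) (fun i _ => Finset.sum_nonneg fun j _ => Finset.sum_nonneg fun z _ =>
                  hBn i j z) (Finset.mem_univ i)
          linarith
        · push Not at hself
          obtain ⟨i, hi, hQ, hdd⟩ := hself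
          have h2 : p.cwp N M K φ ≤ (if i ≠ 0 ∧ (φ i : ℕ) ∈ Q ∧
              (φ i : ℕ) = dd (φ (p.par i)) (φ i) then p.cwp N M K φ else 0) := by
            rw [if_pos]
            exact ⟨hi, hQ, hdd⟩
          have h3 : (if i ≠ 0 ∧ (φ i : ℕ) ∈ Q ∧
              (φ i : ℕ) = dd (φ (p.par i)) (φ i) then p.cwp N M K φ else 0) ≤
              ∑ i : Fin (p.k + 1), (if i ≠ 0 ∧ (φ i : ℕ) ∈ Q ∧
                (φ i : ℕ) = dd (φ (p.par i)) (φ i) then p.cwp N M K φ else 0) :=
            Finset.single_le_sum (f := fun i => (if i ≠ 0 ∧ (φ i : ℕ) ∈ Q ∧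
                (φ i : ℕ) = dd (φ (p.par i)) (φ i) then p.cwp N M K φ else 0))
              (fun i _ => hAn i) (Finset.mem_univ i)
          linarith
  -- summation
  have hsum := Finset.sum_le_sum fun (φ : Fin (p.k + 1) → Fin (N + 1))
    (_ : φ ∈ (univ : Finset (Fin (p.k + 1) → Fin (N + 1)))) => hpt φ
  rw [Finset.sum_add_distrib] at hsum
  have hS1 : ∑ φ : Fin (p.k + 1) → Fin (N + 1), ∑ i : Fin (p.k + 1),
      (if i ≠ 0 ∧ (φ i : ℕ) ∈ Q ∧ (φ i : ℕ) = dd (φ (p.par i)) (φ i) then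
        p.cwp N M K φ else 0) ≤ ((p.k : ℝ) + 1) * (C / N) := by
    rw [Finset.sum_comm]
    refine (Finset.sum_le_sum fun i _ => hA i).trans (le_of_eq ?_)
    rw [Finset.sum_const, Finset.card_univ, Fintype.card_fin, nsmul_eq_mul]
    push_cast
    ring
  have hS2 : ∑ φ : Fin (p.k + 1) → Fin (N + 1), ∑ i : Fin (p.k + 1), ∑ j : Fin (p.k + 1),
      ∑ z ∈ range (N + 1), (if i ≠ j then p.cwp N M K φ *
        (p.hh N Q rp i z (φ (p.par i)) (φ i) * p.hh N Q rp j z (φ (p.par j)) (φ j)) else 0) ≤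
      ((p.k : ℝ) + 1) ^ 2 * (((N : ℝ) + 1) * ((C / N) * (C / N))) := by
    rw [Finset.sum_comm]
    have h1 : ∀ i : Fin (p.k + 1), ∑ φ : Fin (p.k + 1) → Fin (N + 1), ∑ j : Fin (p.k + 1),
        ∑ z ∈ range (N + 1), (if i ≠ j then p.cwp N M K φ *
          (p.hh N Q rp i z (φ (p.par i)) (φ i) * p.hh N Q rp j z (φ (p.par j)) (φ j)) else 0) ≤
        ((p.k : ℝ) + 1) * (((N : ℝ) + 1) * ((C / N) * (C / N))) := by
      intro i
      rw [Finset.sum_comm]
      have h2 : ∀ j : Fin (p.k + 1), ∑ φ : Fin (p.k + 1) → Fin (N + 1),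
          ∑ z ∈ range (N + 1), (if i ≠ j then p.cwp N M K φ *
            (p.hh N Q rp i z (φ (p.par i)) (φ i) * p.hh N Q rp j z (φ (p.par j)) (φ j)) else 0) ≤
          ((N : ℝ) + 1) * ((C / N) * (C / N)) := by
        intro j
        rw [Finset.sum_comm]
        refine (Finset.sum_le_sum fun z _ => hB i j z).trans (le_of_eq ?_)
        rw [Finset.sum_const, Finset.card_range, nsmul_eq_mul]
        push_cast
        ring
      refine (Finset.sum_le_sum fun j _ => h2 j).trans (le_of_eq ?_)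
      rw [Finset.sum_const, Finset.card_univ, Fintype.card_fin, nsmul_eq_mul]
      push_cast
      ring
    refine (Finset.sum_le_sum fun i _ => h1 i).trans (le_of_eq ?_)
    rw [Finset.sum_const, Finset.card_univ, Fintype.card_fin, nsmul_eq_mul]
    push_cast
    ring
  refine hsum.trans ((add_le_add hS1 hS2).trans ?_)
  have hk1 : (1 : ℝ) ≤ (p.k : ℝ) + 1 := by
    have : (0 : ℝ) ≤ (p.k : ℝ) := Nat.cast_nonneg _
    linarith
  have hk2 : (p.k : ℝ) + 1 ≤ ((p.k : ℝ) + 1) ^ 2 := by nlinarith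
  have hN1 : (1 : ℝ) ≤ N := by exact_mod_cast hN
  have e1 : ((N : ℝ) + 1) * ((C / N) * (C / N)) ≤ 2 * C ^ 2 / N := by
    have e2 : ((N : ℝ) + 1) * ((C / N) * (C / N)) = (N + 1) / N * (C ^ 2 / N) := by
      field_simp
    have e3 : ((N : ℝ) + 1) / N ≤ 2 := by
      rw [div_le_iff₀ hN']
      linarith
    have e4 : 0 ≤ C ^ 2 / (N : ℝ) := by positivity
    rw [e2]
    calc ((N : ℝ) + 1) / N * (C ^ 2 / N) ≤ 2 * (C ^ 2 / N) := mul_le_mul_of_nonneg_right e3 e4
      _ = 2 * C ^ 2 / N := by ring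
  calc ((p.k : ℝ) + 1) * (C / N) + ((p.k : ℝ) + 1) ^ 2 * (((N : ℝ) + 1) * ((C / N) * (C / N)))
      ≤ ((p.k : ℝ) + 1) ^ 2 * (C / N) + ((p.k : ℝ) + 1) ^ 2 * (2 * C ^ 2 / N) := by
        refine add_le_add (mul_le_mul_of_nonneg_right hk2 hCN) ?_
        exact mul_le_mul_of_nonneg_left e1 (by positivity)
    _ = ((p.k : ℝ) + 1) ^ 2 * (2 * C ^ 2 + C) / N := by ring

end SSB
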