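import Pool.Agent.Lib.MP_8a819d_co.BD.Pk1

/-!
# MP_8a819d_co: packing of pieces, 2. Degrees and codegrees

JOB Pk2 (all of this file).

* `pk_count`: expected number of vertices `i` of the piece with `z ∈ usd i`: for `i = 0` it is `M O z` (`cw_one`;
  `0` if `z > N`, and `M O z = 0` if `z ∉ Q`), for `i ≠ 0` it is `UU (ty (par i)) (ty i) z` (`cw_edge`).
* `tot_count`: sum over the pieces, sorting the `i ≠ 0` by types: only the five allowed types occur.
* `pk_one`: `P (z ∈ usedS) ≤ ∑ i, P (z ∈ usd i) ≤ (k+1) C/N` (`cw_hloc`, `pk_LB`).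
* `pk_cod`: for `z ≠ z'`: `P (z, z' ∈ usedS) ≤ ∑ i, j, P (z ∈ usd i, z' ∈ usd j)`; `i ≠ j`: `cw_two`, at most
  `(C/N)^2`; `i = j = 0`: impossible; `i = j ≠ 0`: `cw_edge`, `bdJ`, at most `C / N^2`.
-/

set_option autoImplicit false

namespace SSB

open Finset

variable {N t : ℕ} {Q L : Finset ℕ} {rp prt : ℕ → ℕ} {np C : ℝ} {c : Ty → Ty → ℝ}
  {M : Ty → ℕ → ℝ} {K : Ty → Ty → ℕ → ℕ → ℝ}

private theorem pk2_card {p : Piece} (hp : p.WF) (φ : Fin (p.k + 1) → Fin (N + 1)) (z : ℕ) :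
    ((univ.filter (fun i => z ∈ p.usd Q rp (p.lab φ) i)).card : ℝ) =
      ∑ i, p.hh N Q rp i z (φ (p.par i)) (φ i) := by
  rw [Finset.natCast_card_filter]
  exact Finset.sum_congr rfl fun i _ => (hh_eq hp φ i z).symm

private theorem pk2_hh_nonneg (p : Piece) (i : Fin (p.k + 1)) (z : ℕ) (x y : Fin (N + 1)) :
    0 ≤ p.hh N Q rp i z x y := by
  unfold Piece.hh
  split_ifs <;> norm_num

private theorem pk2_zero (hQ : Q ⊆ Icc 1 N) (h : ChainData N Q L rp prt np c C M K) {p : Piece}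
    (hp : p.WF) (z : ℕ) :
    ∑ φ : Fin (p.k + 1) → Fin (N + 1),
      p.cwp N M K φ * p.hh N Q rp 0 z (φ (p.par 0)) (φ 0) = M Ty.O z := by
  have h1 := cw_one (pk_ok h hp) 0 (fun y : Fin (N + 1) => if z = (y : ℕ) then (1 : ℝ) else 0)
  have h2 : ∑ φ : Fin (p.k + 1) → Fin (N + 1),
      p.cwp N M K φ * p.hh N Q rp 0 z (φ (p.par 0)) (φ 0) =
      ∑ x : Fin (N + 1), M (p.ty 0) x * (if z = (x : ℕ) then (1 : ℝ) else 0) := by
    rw [← h1]
    refine Finset.sum_congr rfl fun φ _ => ?_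
    unfold Piece.hh
    rw [if_pos rfl]
    rfl
  rw [h2, hp.root, Fin.sum_univ_eq_sum_range (fun x => M Ty.O x * (if z = x then (1 : ℝ) else 0))]
  simp only [mul_ite, mul_one, mul_zero]
  rw [Finset.sum_ite_eq]
  by_cases hz : z ∈ range (N + 1)
  · rw [if_pos hz]
  · rw [if_neg hz]
    by_contra h3
    have h4 := hQ (h.M_O z (Ne.symm h3))
    rw [Finset.mem_Icc] at h4
    rw [Finset.mem_range] at hz
    omega

private theorem pk2_edge' (h : ChainData N Q L rp prt np c C M K) {p : Piece} (hp : p.WF)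
    {i : Fin (p.k + 1)} (hi : i ≠ 0) (P : ℕ → ℕ → Prop) [∀ x y, Decidable (P x y)]
    (g : Fin (N + 1) → Fin (N + 1) → ℝ)
    (hg : ∀ x y, g x y = if P x y then 1 else 0) :
    ∑ φ : Fin (p.k + 1) → Fin (N + 1), p.cwp N M K φ * g (φ (p.par i)) (φ i) =
      ∑ x ∈ range (N + 1), ∑ y ∈ range (N + 1),
        if P x y then M (p.ty (p.par i)) x * K (p.ty (p.par i)) (p.ty i) x y else 0 := by
  have h1 := cw_edge (pk_ok h hp) i hi g
  have h2 : ∑ φ : Fin (p.k + 1) → Fin (N + 1), p.cwp N M K φ * g (φ (p.par i)) (φ i) =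
      ∑ x : Fin (N + 1), ∑ y : Fin (N + 1),
        M (p.ty (p.par i)) x * K (p.ty (p.par i)) (p.ty i) x y * g x y := h1
  rw [h2, ← Fin.sum_univ_eq_sum_range (fun x => ∑ y ∈ range (N + 1),
    if P x y then M (p.ty (p.par i)) x * K (p.ty (p.par i)) (p.ty i) x y else 0)]
  refine Finset.sum_congr rfl fun x _ => ?_
  rw [← Fin.sum_univ_eq_sum_range (fun y =>
    if P x y then M (p.ty (p.par i)) x * K (p.ty (p.par i)) (p.ty i) x y else 0)]
  refine Finset.sum_congr rfl fun y _ => ?_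
  rw [hg, mul_ite, mul_one, mul_zero]

private theorem pk2_edge (h : ChainData N Q L rp prt np c C M K) {p : Piece} (hp : p.WF)
    {i : Fin (p.k + 1)} (hi : i ≠ 0) (z : ℕ) :
    ∑ φ : Fin (p.k + 1) → Fin (N + 1),
      p.cwp N M K φ * p.hh N Q rp i z (φ (p.par i)) (φ i) =
      UU N Q rp M K (p.ty (p.par i)) (p.ty i) z := by
  unfold UU
  refine pk2_edge' h hp hi (fun x y => z ∈ us Q rp (p.ty (p.par i)) (p.ty i) x y)
    (p.hh N Q rp i z) fun x y => ?_
  unfold Piece.hh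
  rw [if_neg hi]

theorem pk_count (hQ : Q ⊆ Icc 1 N) (h : ChainData N Q L rp prt np c C M K) {p : Piece} (hp : p.WF) (z : ℕ) :
    ∑ φ : Fin (p.k + 1) → Fin (N + 1),
      p.cwp N M K φ * ((univ.filter (fun i => z ∈ p.usd Q rp (p.lab φ) i)).card : ℝ) =
    M Ty.O z + ∑ i ∈ univ.filter (fun i : Fin (p.k + 1) => i ≠ 0),
      UU N Q rp M K (p.ty (p.par i)) (p.ty i) z := by
  have h1 : ∑ φ : Fin (p.k + 1) → Fin (N + 1),
      p.cwp N M K φ * ((univ.filter (fun i => z ∈ p.usd Q rp (p.lab φ) i)).card : ℝ) =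
      ∑ i, ∑ φ : Fin (p.k + 1) → Fin (N + 1),
        p.cwp N M K φ * p.hh N Q rp i z (φ (p.par i)) (φ i) := by
    rw [Finset.sum_comm]
    refine Finset.sum_congr rfl fun φ _ => ?_
    rw [pk2_card hp, Finset.mul_sum]
  rw [h1, ← Finset.add_sum_erase _ _ (Finset.mem_univ (0 : Fin (p.k + 1))), pk2_zero hQ h hp]
  refine congrArg (fun w => M Ty.O z + w) ?_
  refine Finset.sum_congr ?_ fun i hi => pk2_edge h hp (Finset.mem_filter.1 hi).2 z
  ext i
  simp

private theorem pk2_types {p : Piece} (hp : p.WF) (F : Ty → Ty → ℝ) :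
    ∑ i ∈ univ.filter (fun i : Fin (p.k + 1) => i ≠ 0), F (p.ty (p.par i)) (p.ty i) =
      (p.cnt Ty.O Ty.O : ℝ) * F Ty.O Ty.O + (p.cnt Ty.O Ty.P : ℝ) * F Ty.O Ty.P +
      (p.cnt Ty.P Ty.O : ℝ) * F Ty.P Ty.O + (p.cnt Ty.P Ty.U : ℝ) * F Ty.P Ty.U +
      (p.cnt Ty.U Ty.P : ℝ) * F Ty.U Ty.P := by
  have h1 : ∀ a b : Ty, (p.cnt a b : ℝ) * F a b =
      ∑ i ∈ univ.filter (fun i : Fin (p.k + 1) => i ≠ 0),
        if p.ty (p.par i) = a ∧ p.ty i = b then F a b else 0 := by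
    intro a b
    unfold Piece.cnt
    rw [← Finset.filter_filter, Finset.natCast_card_filter, Finset.sum_mul]
    refine Finset.sum_congr rfl fun i _ => ?_
    rw [ite_mul, one_mul, zero_mul]
  rw [h1, h1, h1, h1, h1, ← Finset.sum_add_distrib, ← Finset.sum_add_distrib,
    ← Finset.sum_add_distrib, ← Finset.sum_add_distrib]
  refine Finset.sum_congr rfl fun i hi => ?_
  have h2 := hp.ok i (Finset.mem_filter.1 hi).2
  generalize p.ty (p.par i) = a at h2 ⊢
  generalize p.ty i = b at h2 ⊢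
  cases a <;> cases b <;> simp [okTy] at h2 ⊢

theorem tot_count {n : ℕ} (pc : Fin n → Piece) (hp : ∀ p, (pc p).WF) (hQ : Q ⊆ Icc 1 N)
    (h : ChainData N Q L rp prt n (fun a b => ((∑ p, (pc p).cnt a b : ℕ) : ℝ)) C M K) (z : ℕ) :
    ∑ p, ∑ φ : Fin ((pc p).k + 1) → Fin (N + 1), (pc p).cwp N M K φ *
        ((univ.filter (fun i => z ∈ (pc p).usd Q rp ((pc p).lab φ) i)).card : ℝ) =
      n * M Ty.O z + (((∑ p, (pc p).cnt Ty.O Ty.O : ℕ) : ℝ) * UU N Q rp M K Ty.O Ty.O z +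
        ((∑ p, (pc p).cnt Ty.O Ty.P : ℕ) : ℝ) * UU N Q rp M K Ty.O Ty.P z +
        ((∑ p, (pc p).cnt Ty.P Ty.O : ℕ) : ℝ) * UU N Q rp M K Ty.P Ty.O z +
        ((∑ p, (pc p).cnt Ty.P Ty.U : ℕ) : ℝ) * UU N Q rp M K Ty.P Ty.U z +
        ((∑ p, (pc p).cnt Ty.U Ty.P : ℕ) : ℝ) * UU N Q rp M K Ty.U Ty.P z) := by
  have h1 : ∀ p, ∑ φ : Fin ((pc p).k + 1) → Fin (N + 1), (pc p).cwp N M K φ *
        ((univ.filter (fun i => z ∈ (pc p).usd Q rp ((pc p).lab φ) i)).card : ℝ) =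
      M Ty.O z + (((pc p).cnt Ty.O Ty.O : ℝ) * UU N Q rp M K Ty.O Ty.O z +
        ((pc p).cnt Ty.O Ty.P : ℝ) * UU N Q rp M K Ty.O Ty.P z +
        ((pc p).cnt Ty.P Ty.O : ℝ) * UU N Q rp M K Ty.P Ty.O z +
        ((pc p).cnt Ty.P Ty.U : ℝ) * UU N Q rp M K Ty.P Ty.U z +
        ((pc p).cnt Ty.U Ty.P : ℝ) * UU N Q rp M K Ty.U Ty.P z) := by
    intro p
    rw [pk_count hQ h (hp p) z, pk2_types (hp p) (fun a b => UU N Q rp M K a b z)]
  rw [Finset.sum_congr rfl fun p _ => h1 p, Finset.sum_add_distrib, Finset.sum_const,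
    Finset.card_univ, Fintype.card_fin, nsmul_eq_mul, Finset.sum_add_distrib,
    Finset.sum_add_distrib, Finset.sum_add_distrib, Finset.sum_add_distrib, ← Finset.sum_mul,
    ← Finset.sum_mul, ← Finset.sum_mul, ← Finset.sum_mul, ← Finset.sum_mul, Nat.cast_sum,
    Nat.cast_sum, Nat.cast_sum, Nat.cast_sum, Nat.cast_sum]

private theorem pk2_le_hh {p : Piece} (hp : p.WF) (φ : Fin (p.k + 1) → Fin (N + 1)) (z : ℕ) :
    (if z ∈ p.usedS Q rp (p.lab φ) then (1 : ℝ) else 0) ≤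
      ∑ i, p.hh N Q rp i z (φ (p.par i)) (φ i) := by
  split_ifs with hz
  · unfold Piece.usedS at hz
    rw [Finset.mem_biUnion] at hz
    obtain ⟨i, hi, hz⟩ := hz
    have h1 : p.hh N Q rp i z (φ (p.par i)) (φ i) = 1 := by
      rw [hh_eq hp, if_pos hz]
    rw [← h1]
    exact Finset.single_le_sum (f := fun i => p.hh N Q rp i z (φ (p.par i)) (φ i))
      (fun j _ => pk2_hh_nonneg p j z _ _) (Finset.mem_univ i)
  · exact Finset.sum_nonneg fun j _ => pk2_hh_nonneg p j z _ _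

theorem pk_one (h : ChainData N Q L rp prt np c C M K) {p : Piece} (hp : p.WF) (z : ℕ) :
    ∑ φ : Fin (p.k + 1) → Fin (N + 1),
      (if z ∈ p.usedS Q rp (p.lab φ) then p.cwp N M K φ else 0) ≤ ((p.k : ℝ) + 1) * C / N := by
  calc ∑ φ : Fin (p.k + 1) → Fin (N + 1),
      (if z ∈ p.usedS Q rp (p.lab φ) then p.cwp N M K φ else 0)
      ≤ ∑ φ : Fin (p.k + 1) → Fin (N + 1),
          p.cwp N M K φ * ∑ i, p.hh N Q rp i z (φ (p.par i)) (φ i) := by
        refine Finset.sum_le_sum fun φ _ => ?_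
        have h1 := mul_le_mul_of_nonneg_left (pk2_le_hh (Q := Q) (rp := rp) hp φ z)
          (cwp_nonneg h hp φ)
        rwa [mul_ite, mul_one, mul_zero] at h1
    _ = ∑ i, ∑ φ : Fin (p.k + 1) → Fin (N + 1),
          p.cwp N M K φ * p.hh N Q rp i z (φ (p.par i)) (φ i) := by
        rw [Finset.sum_comm]
        exact Finset.sum_congr rfl fun φ _ => Finset.mul_sum _ _ _
    _ ≤ ∑ i : Fin (p.k + 1), C / N :=
        Finset.sum_le_sum fun i _ => cw_hloc (pk_ok h hp) (pk_LB h hp i z)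
    _ = ((p.k : ℝ) + 1) * C / N := by
        rw [Finset.sum_const, Finset.card_univ, Fintype.card_fin, nsmul_eq_mul]
        push_cast
        ring

theorem pk_cod (h : ChainData N Q L rp prt np c C M K) {p : Piece} (hp : p.WF) {z z' : ℕ}
    (hz : z ≠ z') :
    ∑ φ : Fin (p.k + 1) → Fin (N + 1),
      (if z ∈ p.usedS Q rp (p.lab φ) ∧ z' ∈ p.usedS Q rp (p.lab φ) then p.cwp N M K φ else 0) ≤
      ((p.k : ℝ) + 1) ^ 2 * (C ^ 2 + C) / (N : ℝ) ^ 2 := by
  have hC : 0 ≤ C / (N : ℝ) := div_nonneg h.C_pos.le (Nat.cast_nonneg N)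
  have hN2 : (0 : ℝ) ≤ (N : ℝ) ^ 2 := by positivity
  have hpair : ∀ i j : Fin (p.k + 1), ∑ φ : Fin (p.k + 1) → Fin (N + 1), p.cwp N M K φ *
      (p.hh N Q rp i z (φ (p.par i)) (φ i) * p.hh N Q rp j z' (φ (p.par j)) (φ j)) ≤
        (C ^ 2 + C) / (N : ℝ) ^ 2 := by
    intro i j
    by_cases hij : i = j
    · subst hij
      have hle : C / (N : ℝ) ^ 2 ≤ (C ^ 2 + C) / (N : ℝ) ^ 2 :=
        div_le_div_of_nonneg_right (by nlinarith [sq_nonneg C]) hN2
      by_cases hi : i = 0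
      · refine le_trans (le_of_eq ?_) (le_trans (div_nonneg h.C_pos.le hN2) hle)
        refine Finset.sum_eq_zero fun φ _ => ?_
        have h1 : p.hh N Q rp i z (φ (p.par i)) (φ i) * p.hh N Q rp i z' (φ (p.par i)) (φ i) =
            0 := by
          unfold Piece.hh
          rw [if_pos hi, if_pos hi]
          by_cases h2 : z = (φ i : ℕ)
          · have h3 : ¬ z' = (φ i : ℕ) := fun h4 => hz (h2.trans h4.symm)
            rw [if_neg h3, mul_zero]
          · rw [if_neg h2, zero_mul]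
        rw [h1, mul_zero]
      · refine le_trans (le_of_eq ?_)
          ((h.bdJ (p.ty (p.par i)) (p.ty i) z z' (hp.ok i hi) hz).trans hle)
        refine pk2_edge' h hp hi (fun x y => z ∈ us Q rp (p.ty (p.par i)) (p.ty i) x y ∧
          z' ∈ us Q rp (p.ty (p.par i)) (p.ty i) x y)
          (fun x y => p.hh N Q rp i z x y * p.hh N Q rp i z' x y) fun x y => ?_
        unfold Piece.hh
        rw [if_neg hi, if_neg hi]
        by_cases h2 : z ∈ us Q rp (p.ty (p.par i)) (p.ty i) x y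
        · by_cases h3 : z' ∈ us Q rp (p.ty (p.par i)) (p.ty i) x y
          · rw [if_pos h2, if_pos h3, if_pos ⟨h2, h3⟩, mul_one]
          · have h5 : ¬ (z ∈ us Q rp (p.ty (p.par i)) (p.ty i) x y ∧
                z' ∈ us Q rp (p.ty (p.par i)) (p.ty i) x y) := fun h4 => h3 h4.2
            rw [if_neg h3, if_neg h5, mul_zero]
        · have h5 : ¬ (z ∈ us Q rp (p.ty (p.par i)) (p.ty i) x y ∧
              z' ∈ us Q rp (p.ty (p.par i)) (p.ty i) x y) := fun h4 => h2 h4.1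
          rw [if_neg h2, if_neg h5, zero_mul]
    · refine (cw_two (pk_ok h hp) hij hC (pk_LB h hp i z) (pk_LB h hp j z')).trans ?_
      have h1 : C / (N : ℝ) * (C / N) = C ^ 2 / (N : ℝ) ^ 2 := by
        rw [div_mul_div_comm, ← sq, ← sq]
      rw [h1]
      exact div_le_div_of_nonneg_right (by linarith [h.C_pos]) hN2
  calc ∑ φ : Fin (p.k + 1) → Fin (N + 1),
      (if z ∈ p.usedS Q rp (p.lab φ) ∧ z' ∈ p.usedS Q rp (p.lab φ) then p.cwp N M K φ else 0)
      ≤ ∑ φ : Fin (p.k + 1) → Fin (N + 1),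
          p.cwp N M K φ * ((∑ i, p.hh N Q rp i z (φ (p.par i)) (φ i)) *
            ∑ j, p.hh N Q rp j z' (φ (p.par j)) (φ j)) := by
        refine Finset.sum_le_sum fun φ _ => ?_
        have h1 := pk2_le_hh (Q := Q) (rp := rp) hp φ z
        have h2 := pk2_le_hh (Q := Q) (rp := rp) hp φ z'
        have h3 : (if z ∈ p.usedS Q rp (p.lab φ) ∧ z' ∈ p.usedS Q rp (p.lab φ) then
            p.cwp N M K φ else 0) = p.cwp N M K φ *
            ((if z ∈ p.usedS Q rp (p.lab φ) then (1 : ℝ) else 0) *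
              (if z' ∈ p.usedS Q rp (p.lab φ) then (1 : ℝ) else 0)) := by
          by_cases h4 : z ∈ p.usedS Q rp (p.lab φ)
          · by_cases h5 : z' ∈ p.usedS Q rp (p.lab φ)
            · rw [if_pos h4, if_pos h5, if_pos ⟨h4, h5⟩, mul_one, mul_one]
            · rw [if_neg h5, if_neg (fun h6 => h5 h6.2), mul_zero, mul_zero]
          · rw [if_neg h4, if_neg (fun h6 => h4 h6.1), zero_mul, mul_zero]
        rw [h3]
        refine mul_le_mul_of_nonneg_left (mul_le_mul h1 h2 ?_ ?_) (cwp_nonneg h hp φ)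
        · split_ifs <;> norm_num
        · exact Finset.sum_nonneg fun j _ => pk2_hh_nonneg p j z _ _
    _ = ∑ i, ∑ j, ∑ φ : Fin (p.k + 1) → Fin (N + 1), p.cwp N M K φ *
          (p.hh N Q rp i z (φ (p.par i)) (φ i) * p.hh N Q rp j z' (φ (p.par j)) (φ j)) := by
        have h1 : ∀ φ : Fin (p.k + 1) → Fin (N + 1),
            p.cwp N M K φ * ((∑ i, p.hh N Q rp i z (φ (p.par i)) (φ i)) *
            ∑ j, p.hh N Q rp j z' (φ (p.par j)) (φ j)) =
            ∑ i, ∑ j, p.cwp N M K φ * (p.hh N Q rp i z (φ (p.par i)) (φ i) *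
              p.hh N Q rp j z' (φ (p.par j)) (φ j)) := by
          intro φ
          rw [Finset.sum_mul_sum, Finset.mul_sum]
          exact Finset.sum_congr rfl fun i _ => Finset.mul_sum _ _ _
        rw [Finset.sum_congr rfl fun φ _ => h1 φ, Finset.sum_comm]
        exact Finset.sum_congr rfl fun i _ => Finset.sum_comm
    _ ≤ ∑ i : Fin (p.k + 1), ∑ j : Fin (p.k + 1), (C ^ 2 + C) / (N : ℝ) ^ 2 :=
        Finset.sum_le_sum fun i _ => Finset.sum_le_sum fun j _ => hpair i j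
    _ = ((p.k : ℝ) + 1) ^ 2 * (C ^ 2 + C) / (N : ℝ) ^ 2 := by
        rw [Finset.sum_const, Finset.sum_const, Finset.card_univ, Fintype.card_fin, nsmul_eq_mul,
          nsmul_eq_mul]
        push_cast
        ring

end SSB
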