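import Pool.Agent.Lib.MP_8a819d_co.BD.Tm2

/-!
# MP_8a819d_co: the template, 3. Reduction to three neighbours

JOB Tm3 (all of this file).

`chain3`: a list of length `n + 3` with entries in `W` can be replaced by `n + 1` nodes with three
ports each, using `n` new elements: node `0` has the ports `l_0, l_1, y_0`; node `i` (`1 ≤ i < n`) the
ports `y_{i-1}, l_{i+1}, y_i`; node `n` has the ports `y_{n-1}, l_{n+1}, l_{n+2}` (for `n = 0`: the single
node has the ports `l_0, l_1, l_2`). For every `j` there is a choice of ports using every `y_i` exactly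
once and `l_j`: let `i₀` be the node with the port `l_j`; nodes `i < i₀` choose `y_i`, node `i₀`
chooses `l_j`, nodes `i > i₀` choose `y_{i-1}`.

`template3'`: apply this to all `x` of `template_list`. Nodes: `X = Σ x : Fin (3M), Fin (n_x + 1)` with
`n_x = length - 3`; new elements `Σ x, Fin n_x`, and `Y` becomes `(Σ x, Fin n_x) ⊕ Fin (2M)`. We have
`|X| = ∑ n_x + 3M = |Y| + M`, `|Y| = ∑ n_x + 2M ≤ 116 M`.

`template3`: transport by `Fintype.equivFin` (or `Fintype.equivFinOfCardEq`) with `y = |Y|`.
-/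

set_option autoImplicit false

namespace SSB

open Finset

theorem chain3 {W : Type} (n : ℕ) (l : Fin (n + 3) → W) :
    ∃ nb : Fin (n + 1) → Fin 3 → Fin n ⊕ W,
      ∀ j : Fin (n + 3), ∃ c : Fin (n + 1) → Fin 3,
        Function.Injective (fun i => nb i (c i)) ∧
        (∃ i, nb i (c i) = Sum.inr (l j)) ∧
        ∀ i w, nb i (c i) = Sum.inr w → w = l j := by
  classical
  let Y : ℕ → Fin n ⊕ W := fun k => if h : k < n then Sum.inl ⟨k, h⟩ else Sum.inr (l 0)
  have hY : ∀ k (h : k < n), Y k = Sum.inl ⟨k, h⟩ := fun k h => dif_pos h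
  let nb : Fin (n + 1) → Fin 3 → Fin n ⊕ W := fun i p =>
    if p = 0 then (if (i : ℕ) = 0 then Sum.inr (l 0) else Y (i - 1))
    else if p = 1 then Sum.inr (l ⟨i + 1, by omega⟩)
    else (if (i : ℕ) = n then Sum.inr (l ⟨n + 2, by omega⟩) else Y i)
  have hnb0 : ∀ i : Fin (n + 1), nb i 0 = if (i : ℕ) = 0 then Sum.inr (l 0) else Y (i - 1) :=
    fun i => if_pos rfl
  have hnb1 : ∀ i : Fin (n + 1), nb i 1 = Sum.inr (l ⟨i + 1, by omega⟩) := by
    intro i
    show (if (1 : Fin 3) = 0 then _ else if (1 : Fin 3) = 1 then _ else _) = _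
    rw [if_neg (by decide), if_pos rfl]
  have hnb2 : ∀ i : Fin (n + 1), nb i 2 =
      if (i : ℕ) = n then Sum.inr (l ⟨n + 2, by omega⟩) else Y i := by
    intro i
    show (if (2 : Fin 3) = 0 then _ else if (2 : Fin 3) = 1 then _ else _) = _
    rw [if_neg (by decide), if_neg (by decide)]
  refine ⟨nb, fun j => ?_⟩
  obtain ⟨i₀, p, hp⟩ : ∃ (i₀ : Fin (n + 1)) (p : Fin 3), nb i₀ p = Sum.inr (l j) := by
    by_cases h0 : (j : ℕ) = 0
    · refine ⟨0, 0, ?_⟩
      have h1 : j = 0 := Fin.ext h0
      rw [hnb0, h1]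
      exact if_pos rfl
    · by_cases h1 : (j : ℕ) = n + 2
      · refine ⟨⟨n, by omega⟩, 2, ?_⟩
        have h2 : j = ⟨n + 2, by omega⟩ := Fin.ext h1
        rw [hnb2, h2]
        exact if_pos rfl
      · have h3 := j.2
        refine ⟨⟨j - 1, by omega⟩, 1, ?_⟩
        have h2 : j = ⟨(j : ℕ) - 1 + 1, by omega⟩ := Fin.ext (by show (j : ℕ) = j - 1 + 1; omega)
        rw [hnb1]
        exact congrArg (fun z => Sum.inr (l z)) h2.symm
  let c : Fin (n + 1) → Fin 3 := fun i => if i < i₀ then 2 else if i = i₀ then p else 0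
  have hc1 : ∀ i : Fin (n + 1), ∀ h : i < i₀, nb i (c i) = Sum.inl ⟨i, by omega⟩ := by
    intro i h
    have h1 : c i = 2 := if_pos h
    rw [h1, hnb2, if_neg (by omega), hY i (by omega)]
  have hc2 : nb i₀ (c i₀) = Sum.inr (l j) := by
    have h1 : c i₀ = p := by
      show (if i₀ < i₀ then 2 else if i₀ = i₀ then p else 0) = p
      rw [if_neg (lt_irrefl _), if_pos rfl]
    rw [h1, hp]
  have hc3 : ∀ i : Fin (n + 1), ∀ h : i₀ < i, nb i (c i) = Sum.inl ⟨i - 1, by omega⟩ := by
    intro i h
    have h1 : c i = 0 := by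
      show (if i < i₀ then 2 else if i = i₀ then p else 0) = 0
      rw [if_neg (not_lt.2 h.le), if_neg h.ne']
    rw [h1, hnb0, if_neg (by omega), hY (i - 1) (by omega)]
  let K : Fin n ⊕ W → ℕ :=
    Sum.elim (fun k => if (k : ℕ) < i₀ then (k : ℕ) else k + 1) (fun _ => (i₀ : ℕ))
  have hK : ∀ i, K (nb i (c i)) = (i : ℕ) := by
    intro i
    rcases lt_trichotomy i i₀ with h | h | h
    · rw [hc1 i h]
      exact if_pos h
    · rw [h, hc2]
      rfl
    · rw [hc3 i h]
      show (if (i : ℕ) - 1 < i₀ then (i : ℕ) - 1 else (i : ℕ) - 1 + 1) = i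
      rw [if_neg (by omega)]
      omega
  refine ⟨c, fun i i' hii => ?_, ⟨i₀, hc2⟩, fun i w hw => ?_⟩
  · have h1 : K (nb i (c i)) = K (nb i' (c i')) := congrArg K hii
    rw [hK, hK] at h1
    exact Fin.ext h1
  · rcases lt_trichotomy i i₀ with h | h | h
    · rw [hc1 i h] at hw
      cases hw
    · rw [h, hc2] at hw
      exact (Sum.inr.inj hw).symm
    · rw [hc3 i h] at hw
      cases hw

/-- the renaming of the ports in the union of the chains -/
private def tm3_phi {I : Type} (n : I → ℕ) {A B : Type} (x : I) :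
    Fin (n x) ⊕ (A ⊕ B) → ((Σ x : I, Fin (n x)) ⊕ A) ⊕ B
  | Sum.inl k => Sum.inl (Sum.inl ⟨x, k⟩)
  | Sum.inr (Sum.inl y) => Sum.inl (Sum.inr y)
  | Sum.inr (Sum.inr z) => Sum.inr z

theorem template3' (M : ℕ) (hM : 1 ≤ M) : ∃ (X Y : Type) (_ : Fintype X) (_ : Fintype Y)
    (nb : X → Fin 3 → Y ⊕ Fin (2 * M)),
    Fintype.card X = Fintype.card Y + M ∧ Fintype.card Y ≤ 116 * M ∧
    ∀ Z : Finset (Fin (2 * M)), Z.card = M →
      ∃ c : X → Fin 3, Function.Injective (fun x => nb x (c x)) ∧
        ∀ x z, nb x (c x) = Sum.inr z → z ∈ Z := by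
  classical
  obtain ⟨l, hl3, hlsum, hl⟩ := template_list M hM
  have hlen : ∀ x, (l x).length - 3 + 3 = (l x).length := fun x => Nat.sub_add_cancel (hl3 x)
  have hch := fun x => chain3 ((l x).length - 3) (fun i => (l x).get (i.cast (hlen x)))
  choose nb hnb using hch
  refine ⟨Σ x : Fin (3 * M), Fin ((l x).length - 3 + 1),
    (Σ x : Fin (3 * M), Fin ((l x).length - 3)) ⊕ Fin (2 * M), inferInstance, inferInstance,
    fun X p => tm3_phi (fun x => (l x).length - 3) X.1 (nb X.1 X.2 p), ?_, ?_, ?_⟩
  · rw [Fintype.card_sigma, Fintype.card_sum, Fintype.card_sigma]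
    simp only [Fintype.card_fin]
    rw [sum_add_distrib, sum_const, card_univ, Fintype.card_fin, smul_eq_mul, mul_one]
    omega
  · rw [Fintype.card_sum, Fintype.card_sigma]
    simp only [Fintype.card_fin]
    have h1 : ∑ x, (l x).length = ∑ x, ((l x).length - 3) + 3 * M * 3 := by
      rw [← sum_congr rfl fun x _ => hlen x, sum_add_distrib, sum_const, card_univ,
        Fintype.card_fin, smul_eq_mul]
    omega
  · intro Z hZ
    obtain ⟨g, hg, hgl, hgz⟩ := hl Z hZ
    have hc : ∀ x, ∃ c : Fin ((l x).length - 3 + 1) → Fin 3,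
        Function.Injective (fun i => nb x i (c i)) ∧
        ∀ i w, nb x i (c i) = Sum.inr w → w = g x := by
      intro x
      obtain ⟨j, hj⟩ := List.mem_iff_get.1 (hgl x)
      obtain ⟨c, hc1, _, hc3⟩ := hnb x (j.cast (hlen x).symm)
      refine ⟨c, hc1, fun i w hw => ?_⟩
      rw [hc3 i w hw, ← hj]
      rfl
    choose c hc1 hc2 using hc
    refine ⟨fun X => c X.1 X.2, ?_, ?_⟩
    · rintro ⟨x, i⟩ ⟨x', i'⟩ hxx
      have hxx' : tm3_phi (fun x => (l x).length - 3) x (nb x i (c x i)) =
        tm3_phi (fun x => (l x).length - 3) x' (nb x' i' (c x' i')) := hxx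
      have hx : x = x' := by
        rcases h1 : nb x i (c x i) with k | w
        · rcases h2 : nb x' i' (c x' i') with k' | w'
          · rw [h1, h2] at hxx'
            have h3 : (⟨x, k⟩ : Σ x : Fin (3 * M), Fin ((l x).length - 3)) = ⟨x', k'⟩ :=
              Sum.inl.inj (Sum.inl.inj hxx')
            exact congrArg Sigma.fst h3
          · rw [h1, h2] at hxx'
            rcases w' with y | z
            · exact absurd (Sum.inl.inj hxx') (by intro h; cases h)
            · cases hxx'
        · rcases h2 : nb x' i' (c x' i') with k' | w'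
          · rw [h1, h2] at hxx'
            rcases w with y | z
            · exact absurd (Sum.inl.inj hxx') (by intro h; cases h)
            · cases hxx'
          · rw [h1, h2] at hxx'
            have h3 := hc2 x i w h1
            have h4 := hc2 x' i' w' h2
            have h5 : w = w' := by
              rcases w with y | z
              · rcases w' with y' | z'
                · rw [Sum.inr.inj (Sum.inl.inj hxx')]
                · cases hxx'
              · rcases w' with y' | z'
                · cases hxx'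
                · rw [Sum.inr.inj hxx']
            rw [h3, h4] at h5
            exact hg h5
      subst hx
      have h6 : nb x i (c x i) = nb x i' (c x i') := by
        rcases h1 : nb x i (c x i) with k | w
        · rcases h2 : nb x i' (c x i') with k' | w'
          · rw [h1, h2] at hxx'
            have h3 : (⟨x, k⟩ : Σ x : Fin (3 * M), Fin ((l x).length - 3)) = ⟨x, k'⟩ :=
              Sum.inl.inj (Sum.inl.inj hxx')
            have h4 := eq_of_heq (Sigma.mk.inj h3).2
            rw [h4]
          · rw [h1, h2] at hxx'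
            rcases w' with y | z
            · exact absurd (Sum.inl.inj hxx') (by intro h; cases h)
            · cases hxx'
        · rcases h2 : nb x i' (c x i') with k' | w'
          · rw [h1, h2] at hxx'
            rcases w with y | z
            · exact absurd (Sum.inl.inj hxx') (by intro h; cases h)
            · cases hxx'
          · rw [hc2 x i w h1, hc2 x i' w' h2]
      rw [hc1 x h6]
    · rintro ⟨x, i⟩ z hz
      have hz' : tm3_phi (fun x => (l x).length - 3) x (nb x i (c x i)) = Sum.inr z := hz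
      rcases h1 : nb x i (c x i) with k | w
      · rw [h1] at hz'
        cases hz'
      · rw [h1] at hz'
        rcases w with y | z'
        · cases hz'
        · have h2 := hc2 x i _ h1
          have h3 := Sum.inr.inj hz'
          rw [← h3]
          exact hgz x z' h2.symm

theorem template3 : ∃ C : ℕ, ∀ M : ℕ, 1 ≤ M → ∃ (y : ℕ) (nb : Fin (y + M) → Fin 3 → Fin y ⊕ Fin (2 * M)),
    y ≤ C * M ∧ ∀ Z : Finset (Fin (2 * M)), Z.card = M →
      ∃ c : Fin (y + M) → Fin 3, Function.Injective (fun x => nb x (c x)) ∧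
        ∀ x z, nb x (c x) = Sum.inr z → z ∈ Z := by
  classical
  refine ⟨116, fun M hM => ?_⟩
  obtain ⟨X, Y, _, _, nb, hX, hY, h⟩ := template3' M hM
  let eX : Fin (Fintype.card Y + M) ≃ X := (Fintype.equivFinOfCardEq hX).symm
  let eY : Y ≃ Fin (Fintype.card Y) := Fintype.equivFin Y
  refine ⟨Fintype.card Y, fun i p => Sum.map eY id (nb (eX i) p), hY, fun Z hZ => ?_⟩
  obtain ⟨c, hc1, hc2⟩ := h Z hZ
  refine ⟨fun i => c (eX i), fun i i' hii => ?_, fun i z hz => ?_⟩
  · have h1 : nb (eX i) (c (eX i)) = nb (eX i') (c (eX i')) :=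
      Sum.map_injective.2 ⟨eY.injective, Function.injective_id⟩ hii
    exact eX.injective (hc1 h1)
  · have hz' : Sum.map eY id (nb (eX i) (c (eX i))) = Sum.inr z := hz
    rcases h1 : nb (eX i) (c (eX i)) with y | w
    · rw [h1] at hz'
      cases hz'
    · rw [h1] at hz'
      have h2 : w = z := Sum.inr.inj hz'
      rw [← h2]
      exact hc2 _ _ h1

end SSB
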