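import Pool.Agent.Lib.MP_8a819d_co.BD.Af
import Pool.Agent.Lib.MP_8a819d_co.BD.Tm3

/-!
# MP_8a819d_co: the absorber, 4. Robust absorbers from gadgets and the template

JOB TMd (all of this file).

* `fresh`: labels of a given class outside `F`: for `t = 1` (class = parity `σ ≤ 1`) at least `N/2 - 1 - |F|` labels of
  `[1, N]` are of class `σ` and not in `F`; for `t = 2` all labels have the class `0`. So there is a set `Y` of `y` such
  labels if `y + |F| + 2 ≤ N / 2`.
* `tmod`: let `C₀` be the constant of `template3`, `ε₀`, `N₀` those of the gadget statement. `y ≤ C₀ M`, number of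
  gadgets `y + M ≤ (C₀ + 1) M`. Choose `Y` (an injection `Fin y → ℕ`, labels of class `σ` outside `F`, `σ` the class of the
  elements of `Z`, so `σ ≤ 1` resp. `σ = 0`). `Z` has at most `2M` elements: fix an injection `ι : Z → Fin (2M)` and let
  `wz b` be the element of `Z` with `ι = b` if there is one, and otherwise a fixed element of `Z`. The ports of the gadget
  `x`: `Y a` if `nb x i = inl a`, `wz b` if `nb x i = inr b`. By `greedy` (objects `(L, D)` with footprint
  `L ∪ labs D`, at most `(t+1) ug + 2 ug` elements, forbidden set `F ∪ Y`) choose the gadgets with disjoint footprints.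
  `A = Y ∪ ⋃ L_x`, `D = ⋃ D_x`. Sizes: `|D| = ug (y + M)` (the `D_x` are disjoint by `disjoint_of_labs`),
  `|A| = y + (y + M)((t+1) ug - 1)`, so `(t+1)|D| = |A| + M`. Given `Z' ⊆ Z`, `|Z'| = M`: apply the template to
  `ι(Z')`; the gadget `x` takes the port `w x = ` label of `nb x (c x)`, which is in `Y` or in `Z'` (if `nb x (c x) = inr b`,
  `b ∈ ι(Z')` so `wz b ∈ Z'` is the element with `ι = b`). `x ↦ w x` is injective (the template map is injective, `Y` is
  injective, `wz` is injective on the image of `ι`, `Y` and `Z` are disjoint) into `Y ∪ Z'` which has `y + M` elements: it is a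
  bijection. So `A ∪ Z' = ⋃ x, (L_x ∪ {w x})` and `matchable_biUnion` applies (the sets `insert (w x) L_x` are disjoint).
-/

set_option autoImplicit false

namespace SSB

open Finset

theorem fresh {t : ℕ} {N y σ : ℕ} {F : Finset ℕ} (hσ : ∃ z ∈ Icc 1 N, cls t z = σ)
    (h : 2 * (y + F.card + 2) ≤ N) :
    ∃ Y : Fin y → ℕ, Function.Injective Y ∧ ∀ i, Y i ∈ Icc 1 N ∧ Y i ∉ F ∧ cls t (Y i) = σ := by
  obtain ⟨z, -, hz⟩ := hσ
  have hσ1 : σ ≤ 1 := by
    rw [← hz]; unfold cls; split_ifs <;> omega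
  have hcl : ∀ k : ℕ, cls t (2 * k + σ) = σ := by
    intro k
    unfold cls at hz ⊢
    split_ifs at hz ⊢ <;> omega
  have hinj : Function.Injective (fun k : ℕ => 2 * k + σ) := by
    intro a b hab
    simp only at hab
    omega
  have hc : y ≤ (((Icc 1 (y + F.card)).image (fun k => 2 * k + σ)) \ F).card := by
    have h1 : ((Icc 1 (y + F.card)).image (fun k => 2 * k + σ)).card = y + F.card := by
      rw [card_image_of_injective _ hinj, Nat.card_Icc]; omega
    have h2 := le_card_sdiff F ((Icc 1 (y + F.card)).image (fun k => 2 * k + σ))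
    rw [h1] at h2
    omega
  obtain ⟨U, hU, hUc⟩ := exists_subset_card_eq hc
  refine ⟨fun i => U.orderEmbOfFin hUc i,
    fun a b hab => (U.orderEmbOfFin hUc).injective hab, fun i => ?_⟩
  have hi := hU (U.orderEmbOfFin_mem hUc i)
  rw [mem_sdiff, mem_image] at hi
  obtain ⟨⟨k, hk, hk2⟩, hF⟩ := hi
  rw [mem_Icc] at hk
  refine ⟨?_, hF, ?_⟩
  · show (U.orderEmbOfFin hUc) i ∈ Icc 1 N
    rw [mem_Icc, ← hk2]
    omega
  · show cls t ((U.orderEmbOfFin hUc) i) = σ
    rw [← hk2]
    exact hcl k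

/-- enumeration of `Z` by a part of `Fin (2 M)` -/
private theorem tmd_enum {M : ℕ} {Z : Finset ℕ} (hZ : Z.Nonempty) (hc : Z.card ≤ 2 * M) :
    ∃ wz : Fin (2 * M) → ℕ, (∀ b, wz b ∈ Z) ∧ ∀ Z' ⊆ Z, Z'.card = M →
      ∃ Zf : Finset (Fin (2 * M)), Zf.card = M ∧ (∀ b ∈ Zf, wz b ∈ Z') ∧
        ∀ b ∈ Zf, ∀ b' ∈ Zf, wz b = wz b' → b = b' := by
  obtain ⟨z0, hz0⟩ := hZ
  let wz : Fin (2 * M) → ℕ := fun b =>
    if h : (b : ℕ) < Z.card then Z.orderEmbOfFin rfl ⟨b, h⟩ else z0
  have hwz : ∀ (b : Fin (2 * M)) (h : (b : ℕ) < Z.card), wz b = Z.orderEmbOfFin rfl ⟨b, h⟩ := by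
    intro b h
    simp only [wz, h, dif_pos]
  refine ⟨wz, ?_, ?_⟩
  · intro b
    by_cases h : (b : ℕ) < Z.card
    · rw [hwz b h]
      exact Z.orderEmbOfFin_mem rfl _
    · simp only [wz, h]
      exact hz0
  · intro Z' hZ' hM
    have hinj : ∀ b b' : Fin (2 * M), (b : ℕ) < Z.card → (b' : ℕ) < Z.card → wz b = wz b' →
        b = b' := by
      intro b b' hb hb' he
      rw [hwz b hb, hwz b' hb'] at he
      have h2 := (Z.orderEmbOfFin rfl).injective he
      have h3 : (b : ℕ) = (b' : ℕ) := by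
        have := congrArg (fun q : Fin Z.card => (q : ℕ)) h2
        exact this
      exact Fin.ext h3
    refine ⟨univ.filter (fun b => (b : ℕ) < Z.card ∧ wz b ∈ Z'), ?_, ?_, ?_⟩
    · have him : (univ.filter (fun b : Fin (2 * M) => (b : ℕ) < Z.card ∧ wz b ∈ Z')).image wz
          = Z' := by
        ext z
        rw [mem_image]
        constructor
        · rintro ⟨b, hb, rfl⟩
          exact (mem_filter.1 hb).2.2
        · intro hz
          have hzZ := hZ' hz
          have : z ∈ Set.range (Z.orderEmbOfFin (k := Z.card) rfl) := by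
            rw [Finset.range_orderEmbOfFin]
            exact hzZ
          obtain ⟨q, hq⟩ := this
          have hq2 : (q : ℕ) < 2 * M := lt_of_lt_of_le q.2 hc
          have hw : wz ⟨q, hq2⟩ = z := by
            rw [hwz ⟨q, hq2⟩ q.2]
            exact hq
          refine ⟨⟨q, hq2⟩, mem_filter.2 ⟨mem_univ _, q.2, ?_⟩, hw⟩
          rw [hw]
          exact hz
      have hio : Set.InjOn wz
          (univ.filter (fun b : Fin (2 * M) => (b : ℕ) < Z.card ∧ wz b ∈ Z')) := by
        intro b hb b' hb' he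
        have hb1 := (mem_filter.1 (mem_coe.1 hb)).2.1
        have hb1' := (mem_filter.1 (mem_coe.1 hb')).2.1
        exact hinj b b' hb1 hb1' he
      have hcc := card_image_of_injOn hio
      rw [him] at hcc
      exact hcc.symm.trans hM
    · intro b hb
      exact (mem_filter.1 hb).2.2
    · intro b hb b' hb' he
      exact hinj b b' (mem_filter.1 hb).2.1 (mem_filter.1 hb').2.1 he

/-- combinatorial core: the absorber from chosen gadgets -/
private theorem tmd_core {t ug M y N : ℕ} {Z F : Finset ℕ} {Y : Fin y → ℕ}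
    (hY : Function.Injective Y) (hYN : ∀ i, Y i ∈ Icc 1 N) (hYF : ∀ i, Y i ∉ F) (hZF : Z ⊆ F)
    {nb : Fin (y + M) → Fin 3 → Fin y ⊕ Fin (2 * M)}
    (hnb : ∀ Zf : Finset (Fin (2 * M)), Zf.card = M →
      ∃ c : Fin (y + M) → Fin 3, Function.Injective (fun x => nb x (c x)) ∧
        ∀ x z, nb x (c x) = Sum.inr z → z ∈ Zf)
    {wz : Fin (2 * M) → ℕ} (hwz : ∀ b, wz b ∈ Z)
    (hwz2 : ∀ Z' ⊆ Z, Z'.card = M →
      ∃ Zf : Finset (Fin (2 * M)), Zf.card = M ∧ (∀ b ∈ Zf, wz b ∈ Z') ∧
        ∀ b ∈ Zf, ∀ b' ∈ Zf, wz b = wz b' → b = b')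
    (L : Fin (y + M) → Finset ℕ) (D : Fin (y + M) → Finset (ℕ × ℕ))
    (hL : ∀ x, L x ⊆ Icc 1 N) (hD : ∀ x, labs (D x) ⊆ Icc 1 N)
    (hLD : ∀ x, Disjoint (L x) (labs (D x))) (hU : ∀ x, UnitOK t (D x))
    (hDc : ∀ x, (D x).card = ug) (hLc : ∀ x, (L x).card + 1 = (t + 1) * ug)
    (hm : ∀ x i, Matchable t (D x) (insert (Sum.elim Y wz (nb x i)) (L x)))
    (hF : ∀ x, Disjoint (L x ∪ labs (D x)) (F ∪ univ.image Y))
    (hdis : ∀ x x', x ≠ x' → Disjoint (L x ∪ labs (D x)) (L x' ∪ labs (D x'))) :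
    ∃ (A : Finset ℕ) (D : Finset (ℕ × ℕ)), A ⊆ Icc 1 N ∧ labs D ⊆ Icc 1 N ∧ Disjoint A (labs D) ∧
      Disjoint A F ∧ Disjoint (labs D) F ∧ UnitOK t D ∧ A.card ≤ y + (y + M) * ((t + 1) * ug) ∧
      D.card ≤ (y + M) * ug ∧
      (t + 1) * D.card = A.card + M ∧ ∀ Z' ⊆ Z, Z'.card = M → Matchable t D (A ∪ Z') := by
  have dLL : ∀ x x', x ≠ x' → Disjoint (L x) (L x') := fun x x' h =>
    Disjoint.mono subset_union_left subset_union_left (hdis x x' h)
  have dDD : ∀ x x', x ≠ x' → Disjoint (labs (D x)) (labs (D x')) := fun x x' h =>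
    Disjoint.mono subset_union_right subset_union_right (hdis x x' h)
  have dLD : ∀ x x', Disjoint (L x) (labs (D x')) := by
    intro x x'
    by_cases h : x = x'
    · subst h; exact hLD x
    · exact Disjoint.mono subset_union_left subset_union_right (hdis x x' h)
  have dLF : ∀ x, Disjoint (L x) F := fun x =>
    Disjoint.mono subset_union_left subset_union_left (hF x)
  have dLY : ∀ x, Disjoint (L x) (univ.image Y) := fun x =>
    Disjoint.mono subset_union_left subset_union_right (hF x)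
  have dDF : ∀ x, Disjoint (labs (D x)) F := fun x =>
    Disjoint.mono subset_union_right subset_union_left (hF x)
  have dDY : ∀ x, Disjoint (labs (D x)) (univ.image Y) := fun x =>
    Disjoint.mono subset_union_right subset_union_right (hF x)
  have dYF : Disjoint (univ.image Y) F := by
    rw [disjoint_left]
    intro a ha haF
    obtain ⟨i, -, rfl⟩ := mem_image.1 ha
    exact hYF i haF
  have dD : ∀ x x', x ≠ x' → Disjoint (D x) (D x') := fun x x' h => disjoint_of_labs (dDD x x' h)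
  have hDcard : (univ.biUnion D).card = (y + M) * ug := by
    rw [card_biUnion (fun x _ x' _ h => dD x x' h), sum_congr rfl (fun x _ => hDc x)]
    simp
  have hLcard : (univ.biUnion L).card + (y + M) = (y + M) * ((t + 1) * ug) := by
    rw [card_biUnion (fun x _ x' _ h => dLL x x' h)]
    have h1 : ∑ x : Fin (y + M), ((L x).card + 1) = (y + M) * ((t + 1) * ug) := by
      rw [sum_congr rfl (fun x _ => hLc x)]
      simp
    rw [sum_add_distrib] at h1
    simpa using h1
  have hYL : Disjoint (univ.image Y) (univ.biUnion L) := by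
    rw [disjoint_biUnion_right]
    exact fun x _ => (dLY x).symm
  have hYc : (univ.image Y).card = y := by
    rw [card_image_of_injective _ hY]
    simp
  have hAcard : (univ.image Y ∪ univ.biUnion L).card + (y + M) = y + (y + M) * ((t + 1) * ug) := by
    rw [card_union_of_disjoint hYL, hYc, ← hLcard]
    ring
  refine ⟨univ.image Y ∪ univ.biUnion L, univ.biUnion D, ?_, ?_, ?_, ?_, ?_, ?_, ?_, ?_, ?_, ?_⟩
  · refine union_subset ?_ ?_
    · intro a ha
      obtain ⟨i, -, rfl⟩ := mem_image.1 ha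
      exact hYN i
    · exact biUnion_subset.2 (fun x _ => hL x)
  · rw [labs_biUnion]
    exact biUnion_subset.2 (fun x _ => hD x)
  · rw [labs_biUnion, disjoint_union_left, disjoint_biUnion_right, disjoint_biUnion_left]
    refine ⟨fun x _ => (dDY x).symm, fun x _ => ?_⟩
    rw [disjoint_biUnion_right]
    exact fun x' _ => dLD x x'
  · rw [disjoint_union_left, disjoint_biUnion_left]
    exact ⟨dYF, fun x _ => dLF x⟩
  · rw [labs_biUnion, disjoint_biUnion_left]
    exact fun x _ => dDF x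
  · exact unitOK_biUnion univ D (fun x _ => hU x) (fun x _ x' _ h => dDD x x' h)
  · omega
  · exact hDcard.le
  · rw [hDcard]
    have : (t + 1) * ((y + M) * ug) = (y + M) * ((t + 1) * ug) := by ring
    rw [this]
    omega
  · intro Z' hZ' hM
    obtain ⟨Zf, hZfc, hZf1, hZf2⟩ := hwz2 Z' hZ' hM
    obtain ⟨c, hc1, hc2⟩ := hnb Zf hZfc
    have hw : ∀ x, Sum.elim Y wz (nb x (c x)) ∈ univ.image Y ∪ Z' := by
      intro x
      rcases h : nb x (c x) with a | b
      · exact mem_union_left _ (mem_image_of_mem Y (mem_univ a))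
      · exact mem_union_right _ (hZf1 b (hc2 x b h))
    have hwi : Function.Injective (fun x => Sum.elim Y wz (nb x (c x))) := by
      intro x x' he
      simp only at he
      apply hc1
      show nb x (c x) = nb x' (c x')
      rcases h : nb x (c x) with a | b <;> rcases h' : nb x' (c x') with a' | b'
      · rw [h, h'] at he
        simp only [Sum.elim_inl] at he
        rw [hY he]
      · rw [h, h'] at he
        simp only [Sum.elim_inl, Sum.elim_inr] at he
        exact absurd (hZF (hwz b')) (he ▸ hYF a)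
      · rw [h, h'] at he
        simp only [Sum.elim_inl, Sum.elim_inr] at he
        exact absurd (hZF (hwz b)) (he.symm ▸ hYF a')
      · rw [h, h'] at he
        simp only [Sum.elim_inr] at he
        rw [hZf2 b (hc2 x b h) b' (hc2 x' b' h') he]
    have hYZ : Disjoint (univ.image Y) Z' := Disjoint.mono_right (hZ'.trans hZF) dYF
    have himg : univ.image (fun x => Sum.elim Y wz (nb x (c x))) = univ.image Y ∪ Z' := by
      apply eq_of_subset_of_card_le
      · intro a ha
        obtain ⟨x, -, rfl⟩ := mem_image.1 ha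
        exact hw x
      · rw [card_union_of_disjoint hYZ, hYc, hM, card_image_of_injective _ hwi]
        simp
    have hAZ : (univ.image Y ∪ univ.biUnion L) ∪ Z' =
        univ.biUnion (fun x => insert (Sum.elim Y wz (nb x (c x))) (L x)) := by
      have h1 : univ.biUnion (fun x => insert (Sum.elim Y wz (nb x (c x))) (L x)) =
          univ.image (fun x => Sum.elim Y wz (nb x (c x))) ∪ univ.biUnion L := by
        ext a
        simp only [mem_biUnion, mem_union, mem_image, mem_insert, mem_univ, true_and]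
        constructor
        · rintro ⟨x, rfl | hx⟩
          · exact Or.inl ⟨x, rfl⟩
          · exact Or.inr ⟨x, hx⟩
        · rintro (⟨x, rfl⟩ | ⟨x, hx⟩)
          · exact ⟨x, Or.inl rfl⟩
          · exact ⟨x, Or.inr hx⟩
      rw [h1, himg]
      ext a
      simp only [mem_union]
      tauto
    rw [hAZ]
    refine matchable_biUnion univ D _ (fun x _ => hm x (c x)) (fun x _ x' _ h => dD x x' h) ?_
    intro x _ x' _ h
    have hne : ∀ x x', Sum.elim Y wz (nb x (c x)) ∉ L x' := by
      intro x x' hx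
      rcases mem_union.1 (hw x) with h1 | h1
      · exact (disjoint_left.1 (dLY x') hx) h1
      · exact (disjoint_left.1 (dLF x') hx) (hZF (hZ' h1))
    rw [disjoint_insert_left, disjoint_insert_right]
    refine ⟨?_, hne x' x, dLL x x' h⟩
    rw [mem_insert]
    rintro (h1 | h1)
    · exact h (hwi h1)
    · exact hne x x' h1

theorem tmod {t ug : ℕ} (hug : 1 ≤ ug) (hg : GadgetStatement t ug) : TModStatement t := by
  obtain ⟨C₀, hC₀⟩ := template3
  obtain ⟨ε₀, hε₀, N₀, hN₀⟩ := hg
  set b : ℕ := (t + 3) * ug with hb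
  set K : ℕ := 1 + C₀ + (C₀ + 1) * b with hK
  have hKpos : (0 : ℝ) < (K : ℝ) := by
    have : 1 ≤ K := by omega
    exact_mod_cast this
  refine ⟨C₀ + (C₀ + 1) * ((t + 1) * ug), min ε₀ (1 / 4) / K, by positivity, max N₀ 8, ?_⟩
  intro N hN σ M Z F hM hMN hFN hZF hZN hcl hZne hZc
  have hNN₀ : N₀ ≤ N := le_trans (le_max_left _ _) hN
  have hN8 : 8 ≤ N := le_trans (le_max_right _ _) hN
  obtain ⟨y, nb, hy, hnb⟩ := hC₀ M hM
  obtain ⟨wz, hwz, hwz2⟩ := tmd_enum hZne hZc
  -- sizes
  have hNpos : (0 : ℝ) ≤ (N : ℝ) := Nat.cast_nonneg N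
  have hsize : ((F.card + C₀ * M + (C₀ + 1) * M * b : ℕ) : ℝ) ≤ min ε₀ (1 / 4) * N := by
    have h1 : (min ε₀ (1 / 4) / K * N) * K = min ε₀ (1 / 4) * N := by
      field_simp
    rw [← h1, hK]
    push_cast
    have hC0 : (0 : ℝ) ≤ (C₀ : ℝ) := Nat.cast_nonneg _
    have hb0 : (0 : ℝ) ≤ (b : ℝ) := Nat.cast_nonneg _
    have e1 : (C₀ : ℝ) * M ≤ C₀ * (min ε₀ (1 / 4) / K * N) := mul_le_mul_of_nonneg_left hMN hC0
    have e2 : ((C₀ : ℝ) + 1) * M * b ≤ (C₀ + 1) * (min ε₀ (1 / 4) / K * N) * b :=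
      mul_le_mul_of_nonneg_right (mul_le_mul_of_nonneg_left hMN (by linarith)) hb0
    have e3 : (min ε₀ (1 / 4) / (K : ℝ) * N) * (1 + C₀ + (C₀ + 1) * b) =
        (min ε₀ (1 / 4) / K * N) + C₀ * (min ε₀ (1 / 4) / K * N) +
          (C₀ + 1) * (min ε₀ (1 / 4) / K * N) * b := by ring
    have e4 : (min ε₀ (1 / 4) / ((1 : ℝ) + C₀ + (C₀ + 1) * b) * N) =
        (min ε₀ (1 / 4) / (K : ℝ) * N) := by
      rw [hK]; push_cast; rfl
    rw [e4, e3]
    linarith
  have hyb : (y + M) * b ≤ (C₀ + 1) * M * b := by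
    apply Nat.mul_le_mul_right
    nlinarith
  have hB : F.card + y + (y + M) * b ≤ F.card + C₀ * M + (C₀ + 1) * M * b := by omega
  have hfr : 2 * (y + F.card + 2) ≤ N := by
    have h1 : ((F.card + y : ℕ) : ℝ) ≤ 1 / 4 * N := by
      refine le_trans ?_ (le_trans hsize (mul_le_mul_of_nonneg_right (min_le_right _ _) hNpos))
      exact_mod_cast (show F.card + y ≤ F.card + C₀ * M + (C₀ + 1) * M * b by omega)
    have h2 : ((4 * (F.card + y) : ℕ) : ℝ) ≤ (N : ℝ) := by
      push_cast at h1 ⊢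
      linarith
    have h3 : 4 * (F.card + y) ≤ N := by exact_mod_cast h2
    omega
  obtain ⟨z0, hz0⟩ := hZne
  obtain ⟨Y, hYi, hYp⟩ := fresh (t := t) (y := y) (σ := σ) (F := F) ⟨z0, hZN hz0, hcl z0 hz0⟩ hfr
  have hYc : (univ.image Y).card ≤ y := by
    refine card_image_le.trans ?_
    simp
  have hport : ∀ q, Sum.elim Y wz q ∈ Icc 1 N ∧ cls t (Sum.elim Y wz q) = σ ∧
      Sum.elim Y wz q ∈ F ∪ univ.image Y := by
    intro q
    rcases q with a | q
    · exact ⟨(hYp a).1, (hYp a).2.2, mem_union_right _ (mem_image_of_mem Y (mem_univ a))⟩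
    · exact ⟨hZN (hwz q), hcl _ (hwz q), mem_union_left _ (hZF (hwz q))⟩
  obtain ⟨o, ho1, ho2, ho3, -⟩ := greedy (ι := Fin (y + M)) (Obj := Finset ℕ × Finset (ℕ × ℕ))
    (fun o => o.1 ∪ labs o.2)
    (fun x o => o.1 ⊆ Icc 1 N ∧ labs o.2 ⊆ Icc 1 N ∧ Disjoint o.1 (labs o.2) ∧ UnitOK t o.2 ∧
      o.2.card = ug ∧ o.1.card + 1 = (t + 1) * ug ∧
      ∀ i, Matchable t o.2 (insert (Sum.elim Y wz (nb x i)) o.1)) b
    (F.card + y + (y + M) * b) (F ∪ univ.image Y) univ
    (by
      intro x _ F' hF' hF'c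
      have hF'r : (F'.card : ℝ) ≤ ε₀ * N := by
        refine le_trans ?_ (le_trans hsize (mul_le_mul_of_nonneg_right (min_le_left _ _) hNpos))
        exact_mod_cast hF'c.trans hB
      obtain ⟨L, D, h1, h2, h3, h4, h5, h6, h7, h8, h9⟩ := hN₀ N hNN₀
        (fun i => Sum.elim Y wz (nb x i)) (fun i => (hport _).1)
        (fun i j => by rw [(hport (nb x i)).2.1, (hport (nb x j)).2.1]) F' hF'r
        (fun i => hF' (hport _).2.2)
      refine ⟨(L, D), ⟨h1, h2, h3, h6, h7, h8, h9⟩, ?_, ?_⟩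
      · exact disjoint_union_left.2 ⟨h4, h5⟩
      · have e1 : (labs D).card ≤ D.card + D.card :=
          (card_union_le _ _).trans (add_le_add card_image_le card_image_le)
        have e2 := card_union_le L (labs D)
        show (L ∪ labs D).card ≤ b
        rw [hb]
        have e3 : (t + 3) * ug = (t + 1) * ug + 2 * ug := by ring
        omega)
    (by
      have e1 := card_union_le F (univ.image Y)
      have e2 : (univ : Finset (Fin (y + M))).card = y + M := by simp
      rw [e2]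
      omega)
  obtain ⟨A, D, g1, g2, g3, g4, g5, g6, g7, g8, g9, g10⟩ := tmd_core (t := t) (ug := ug) (N := N)
    (Z := Z) (F := F) hYi (fun i => (hYp i).1) (fun i => (hYp i).2.1) hZF hnb hwz hwz2
    (fun x => (o x).1) (fun x => (o x).2)
    (fun x => (ho1 x (mem_univ x)).1) (fun x => (ho1 x (mem_univ x)).2.1)
    (fun x => (ho1 x (mem_univ x)).2.2.1) (fun x => (ho1 x (mem_univ x)).2.2.2.1)
    (fun x => (ho1 x (mem_univ x)).2.2.2.2.1) (fun x => (ho1 x (mem_univ x)).2.2.2.2.2.1)
    (fun x => (ho1 x (mem_univ x)).2.2.2.2.2.2)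
    (fun x => ho2 x (mem_univ x)) (fun x x' h => ho3 x (mem_univ x) x' (mem_univ x') h)
  have hyM : y + M ≤ (C₀ + 1) * M := by nlinarith
  refine ⟨A, D, g1, g2, g3, g4, g5, g6, ?_, ?_, g9, g10⟩
  · refine g7.trans ?_
    have e1 : (y + M) * ((t + 1) * ug) ≤ (C₀ + 1) * M * ((t + 1) * ug) :=
      Nat.mul_le_mul_right _ hyM
    have e2 : (C₀ + (C₀ + 1) * ((t + 1) * ug)) * M = C₀ * M + (C₀ + 1) * M * ((t + 1) * ug) := by
      ring
    omega
  · refine g8.trans ?_
    have e1 : (y + M) * ug ≤ (C₀ + 1) * M * ug := Nat.mul_le_mul_right _ hyM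
    have e2 : (C₀ + 1) * M * ug ≤ (C₀ + 1) * M * ((t + 1) * ug) := by
      apply Nat.mul_le_mul_left
      nlinarith
    have e3 : (C₀ + (C₀ + 1) * ((t + 1) * ug)) * M = C₀ * M + (C₀ + 1) * M * ((t + 1) * ug) := by
      ring
    omega

end SSB
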