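import Mathlib

/-!
# MP_8a819d_co: the template, 1. Expanders by counting

JOB Tm1 (all of this file).

`expander`: for every `M ≥ 1` there is `F : Fin (4M) → Fin 8 → Fin (2M)` such that every set `A` of
at most `M` elements has at least `|A|` values `F x i`, `x ∈ A`. Counting: the number of all `F` is
`(2M)^(8 * 4M)`. If `F` is bad there are `1 ≤ a ≤ M`, `A` with `|A| = a` and `B` with `|B| = a`
(`B ⊇` the set of values, which has less than `a ≤ 2M` elements; enlarge it to exactly `a`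
elements) such that all values `F x i` with `x ∈ A` lie in `B`. For given `A`, `B` the proportion of
such `F` is `(a / 2M)^(8a)`. So the proportion of bad `F` is at most
`∑ a in [1, M], C(4M, a) C(2M, a) (a / 2M)^(8a)`. Now `C(n, a) ≤ n^a / a!` (`Nat.choose_le_pow_div`)
and `a! ≥ (a/3)^a` (induction, or `Nat.factorial_lt`..., e.g. from
`(1 + 1/a)^a ≤ 3`), so `C(n, a) ≤ (3n/a)^a` and the term is at most
`((12M/a) (6M/a) (a/2M)^8)^a = (18 (a/2M)^6)^a ≤ (18/64)^a`. The sum is at most
`(18/64) / (1 - 18/64) < 1`.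
(One may argue with cardinalities of finsets of functions, or with a uniform average.)

`dense`: for every `M ≥ 1` there is `F : Fin (3M) → Fin 20 → Fin (4M)` such that for all `A`, `B` with
`|A| = M`, `|B| = M` some `x ∈ A`, `i` have `F x i ∈ B`. For given `A`, `B` the proportion of `F` with
all `F x i ∉ B` for `x ∈ A` is `(3/4)^(20M)`; there are at most `2^(3M) 2^(4M)` pairs; and
`2^7 (3/4)^20 < 1`.
-/

set_option autoImplicit false

namespace SSB

open Finset

private theorem tm1a_pow_le (a : ℕ) : a ^ a ≤ 3 ^ a * a.factorial := by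
  have h1 := Real.pow_div_factorial_le_exp (a : ℝ) (Nat.cast_nonneg a) a
  have h2 : Real.exp (a : ℝ) ≤ 3 ^ a := by
    have h3 : Real.exp (a : ℝ) = Real.exp 1 ^ a := by
      rw [← Real.exp_nat_mul, mul_one]
    rw [h3]
    exact pow_le_pow_left₀ (Real.exp_pos 1).le
      (by have := Real.exp_one_lt_d9; linarith) a
  have h4 : (0 : ℝ) < (a.factorial : ℝ) := by exact_mod_cast a.factorial_pos
  have h5 : (a : ℝ) ^ a ≤ 3 ^ a * (a.factorial : ℝ) := by
    have h6 := h1.trans h2
    rwa [div_le_iff₀ h4] at h6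
  exact_mod_cast h5

/-- `C(n, a) a^a ≤ (3 n)^a` -/
theorem choose_mul_pow_le (n a : ℕ) : n.choose a * a ^ a ≤ (3 * n) ^ a := by
  have h1 : a.factorial * n.choose a ≤ n ^ a := by
    rw [← Nat.descFactorial_eq_factorial_mul_choose]
    exact Nat.descFactorial_le_pow n a
  calc n.choose a * a ^ a ≤ n.choose a * (3 ^ a * a.factorial) :=
        Nat.mul_le_mul_left _ (tm1a_pow_le a)
    _ = 3 ^ a * (a.factorial * n.choose a) := by ring
    _ ≤ 3 ^ a * n ^ a := Nat.mul_le_mul_left _ h1
    _ = (3 * n) ^ a := by rw [mul_pow]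

/-- the functions with all values on `A` in `B` -/
private def tm1aE {X Y : Type*} [Fintype X] [DecidableEq X] [Fintype Y] [DecidableEq Y]
    (A : Finset X) (B : Finset Y) : Finset (X → Fin 8 → Y) :=
  Fintype.piFinset fun x => Fintype.piFinset fun _ => if x ∈ A then B else univ

private theorem tm1a_mem {X Y : Type*} [Fintype X] [DecidableEq X] [Fintype Y] [DecidableEq Y]
    (A : Finset X) (B : Finset Y) (F : X → Fin 8 → Y) :
    F ∈ tm1aE A B ↔ ∀ x ∈ A, ∀ i, F x i ∈ B := by
  unfold tm1aE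
  rw [Fintype.mem_piFinset]
  constructor
  · intro h x hx i
    have h1 := Fintype.mem_piFinset.1 (h x) i
    rwa [if_pos hx] at h1
  · intro h x
    rw [Fintype.mem_piFinset]
    intro i
    by_cases hx : x ∈ A
    · rw [if_pos hx]
      exact h x hx i
    · rw [if_neg hx]
      exact mem_univ _

private theorem tm1a_card {X Y : Type*} [Fintype X] [DecidableEq X] [Fintype Y] [DecidableEq Y]
    (A : Finset X) (B : Finset Y) :
    (tm1aE A B).card = (B.card ^ 8) ^ A.card *
      (Fintype.card Y ^ 8) ^ (Fintype.card X - A.card) := by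
  unfold tm1aE
  rw [Fintype.card_piFinset]
  have h1 : ∀ x : X, (Fintype.piFinset fun _ : Fin 8 => if x ∈ A then B else univ).card =
      if x ∈ A then B.card ^ 8 else Fintype.card Y ^ 8 := by
    intro x
    rw [Fintype.card_piFinset, Finset.prod_const, Finset.card_univ, Fintype.card_fin]
    split_ifs
    · rfl
    · rw [Finset.card_univ]
  rw [Finset.prod_congr rfl fun x _ => h1 x, Finset.prod_ite, Finset.prod_const,
    Finset.prod_const]
  have h2 : (univ.filter fun x => x ∈ A) = A := by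
    ext x
    simp
  have h3 : (univ.filter fun x => x ∉ A) = univ \ A := by
    ext x
    simp
  rw [h2, h3, Finset.card_sdiff_of_subset (Finset.subset_univ A), Finset.card_univ]

private theorem tm1a_term (M a : ℕ) (ha : a ≤ M) :
    64 ^ a * ((4 * M).choose a * ((2 * M).choose a *
      ((a ^ 8) ^ a * ((2 * M) ^ 8) ^ (4 * M - a)))) ≤ 18 ^ a * ((2 * M) ^ 8) ^ (4 * M) := by
  have h1 := choose_mul_pow_le (4 * M) a
  have h2 := choose_mul_pow_le (2 * M) a
  have h3 : (2 * a) ^ (6 * a) ≤ (2 * M) ^ (6 * a) :=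
    Nat.pow_le_pow_left (Nat.mul_le_mul_left 2 ha) _
  have h4 : ((2 * M) ^ 8) ^ (4 * M) = ((2 * M) ^ 8) ^ a * ((2 * M) ^ 8) ^ (4 * M - a) := by
    rw [← pow_add]
    congr 1
    omega
  calc 64 ^ a * ((4 * M).choose a * ((2 * M).choose a *
      ((a ^ 8) ^ a * ((2 * M) ^ 8) ^ (4 * M - a)))) =
      ((4 * M).choose a * a ^ a) * ((2 * M).choose a * a ^ a) * (2 * a) ^ (6 * a) *
        ((2 * M) ^ 8) ^ (4 * M - a) := by
        have e1 : (2 * a) ^ (6 * a) = 64 ^ a * a ^ (6 * a) := by
          rw [mul_pow, pow_mul 2 6 a]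
          norm_num
        have e2 : (a ^ 8) ^ a = a ^ a * a ^ a * a ^ (6 * a) := by
          rw [← pow_mul, ← pow_add, ← pow_add]
          congr 1
          ring
        rw [e1, e2]
        ring
    _ ≤ (3 * (4 * M)) ^ a * (3 * (2 * M)) ^ a * (2 * M) ^ (6 * a) *
        ((2 * M) ^ 8) ^ (4 * M - a) := by gcongr
    _ = 18 ^ a * ((2 * M) ^ 8) ^ (4 * M) := by
        rw [h4]
        have e3 : ((2 * M) ^ 8) ^ a = (2 * M) ^ a * (2 * M) ^ a * (2 * M) ^ (6 * a) := by
          rw [← pow_mul, ← pow_add, ← pow_add]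
          congr 1
          ring
        have e4 : (3 * (4 * M)) ^ a * (3 * (2 * M)) ^ a = 18 ^ a * ((2 * M) ^ a * (2 * M) ^ a) := by
          rw [← mul_pow, ← mul_pow, ← mul_pow]
          congr 1
          ring
        rw [e3, e4]
        ring

theorem expander (M : ℕ) (hM : 1 ≤ M) : ∃ F : Fin (4 * M) → Fin 8 → Fin (2 * M),
    ∀ A : Finset (Fin (4 * M)), A.card ≤ M →
      A.card ≤ (A.biUnion (fun x => univ.image (F x))).card := by
  classical
  by_contra hcon
  push Not at hcon
  -- every function is bad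
  have hcov : (univ : Finset (Fin (4 * M) → Fin 8 → Fin (2 * M))) ⊆
      (Finset.Icc 1 M).biUnion fun a => (powersetCard a (univ : Finset (Fin (4 * M)))).biUnion
        fun A => (powersetCard a (univ : Finset (Fin (2 * M)))).biUnion fun B => tm1aE A B := by
    intro F _
    obtain ⟨A, hA, hlt⟩ := hcon F
    obtain ⟨B, hB1, -, hB2⟩ := Finset.exists_subsuperset_card_eq
      (Finset.subset_univ (A.biUnion (fun x => univ.image (F x)))) hlt.le
      (by rw [Finset.card_univ, Fintype.card_fin]; omega)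
    rw [Finset.mem_biUnion]
    refine ⟨A.card, Finset.mem_Icc.2 ⟨by omega, hA⟩, ?_⟩
    rw [Finset.mem_biUnion]
    refine ⟨A, Finset.mem_powersetCard.2 ⟨Finset.subset_univ _, rfl⟩, ?_⟩
    rw [Finset.mem_biUnion]
    refine ⟨B, Finset.mem_powersetCard.2 ⟨Finset.subset_univ _, hB2⟩, ?_⟩
    rw [tm1a_mem]
    intro x hx i
    apply hB1
    rw [Finset.mem_biUnion]
    exact ⟨x, hx, Finset.mem_image_of_mem _ (mem_univ i)⟩
  have hcard : ((2 * M) ^ 8) ^ (4 * M) ≤ ∑ a ∈ Finset.Icc 1 M, (4 * M).choose a *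
      ((2 * M).choose a * ((a ^ 8) ^ a * ((2 * M) ^ 8) ^ (4 * M - a))) := by
    have h1 := Finset.card_le_card hcov
    have h2 : (univ : Finset (Fin (4 * M) → Fin 8 → Fin (2 * M))).card =
        ((2 * M) ^ 8) ^ (4 * M) := by
      rw [Finset.card_univ, Fintype.card_fun, Fintype.card_fun, Fintype.card_fin,
        Fintype.card_fin, Fintype.card_fin]
    rw [h2] at h1
    refine h1.trans (Finset.card_biUnion_le.trans (Finset.sum_le_sum fun a _ => ?_))
    refine Finset.card_biUnion_le.trans ?_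
    have h3 : ∀ A ∈ powersetCard a (univ : Finset (Fin (4 * M))),
        ((powersetCard a (univ : Finset (Fin (2 * M)))).biUnion fun B => tm1aE A B).card ≤
          (2 * M).choose a * ((a ^ 8) ^ a * ((2 * M) ^ 8) ^ (4 * M - a)) := by
      intro A hA
      refine Finset.card_biUnion_le.trans ?_
      have h4 : ∀ B ∈ powersetCard a (univ : Finset (Fin (2 * M))),
          (tm1aE A B).card = (a ^ 8) ^ a * ((2 * M) ^ 8) ^ (4 * M - a) := by
        intro B hB
        rw [tm1a_card, (Finset.mem_powersetCard.1 hA).2, (Finset.mem_powersetCard.1 hB).2,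
          Fintype.card_fin, Fintype.card_fin]
      rw [Finset.sum_congr rfl h4, Finset.sum_const, Finset.card_powersetCard, Finset.card_univ,
        Fintype.card_fin, smul_eq_mul]
    refine (Finset.sum_le_sum h3).trans ?_
    rw [Finset.sum_const, Finset.card_powersetCard, Finset.card_univ, Fintype.card_fin,
      smul_eq_mul]
  -- the sum is too small
  have hK : (0 : ℝ) < (((2 * M) ^ 8) ^ (4 * M) : ℕ) := by
    have : 0 < ((2 * M) ^ 8) ^ (4 * M) := by positivity
    exact_mod_cast this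
  have hterm : ∀ a ∈ Finset.Icc 1 M, (((4 * M).choose a *
      ((2 * M).choose a * ((a ^ 8) ^ a * ((2 * M) ^ 8) ^ (4 * M - a))) : ℕ) : ℝ) ≤
      (1 / 3) ^ a * (((2 * M) ^ 8) ^ (4 * M) : ℕ) := by
    intro a ha
    have h1 : (64 : ℝ) ^ a * (((4 * M).choose a *
        ((2 * M).choose a * ((a ^ 8) ^ a * ((2 * M) ^ 8) ^ (4 * M - a))) : ℕ) : ℝ) ≤
        18 ^ a * ((((2 * M) ^ 8) ^ (4 * M) : ℕ) : ℝ) := by
      exact_mod_cast tm1a_term M a (Finset.mem_Icc.1 ha).2
    have h2 : (18 : ℝ) ^ a ≤ 64 ^ a * (1 / 3) ^ a := by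
      rw [← mul_pow]
      exact pow_le_pow_left₀ (by norm_num) (by norm_num) a
    have h3 : (0 : ℝ) < 64 ^ a := by positivity
    have h4 := h1.trans (mul_le_mul_of_nonneg_right h2 hK.le)
    rw [mul_assoc] at h4
    exact le_of_mul_le_mul_left h4 h3
  have hgeo : ∀ m : ℕ, ∑ a ∈ Finset.Icc 1 m, ((1 : ℝ) / 3) ^ a = (1 - (1 / 3) ^ m) / 2 := by
    intro m
    induction m with
    | zero => simp
    | succ m ih =>
      rw [Finset.sum_Icc_succ_top (by omega), ih, pow_succ]
      ring
  have h5 : ((((2 * M) ^ 8) ^ (4 * M) : ℕ) : ℝ) ≤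
      ∑ a ∈ Finset.Icc 1 M, (1 / 3 : ℝ) ^ a * (((2 * M) ^ 8) ^ (4 * M) : ℕ) := by
    refine le_trans ?_ (Finset.sum_le_sum hterm)
    exact_mod_cast hcard
  rw [← Finset.sum_mul, hgeo M] at h5
  have h6 : (0 : ℝ) < (1 / 3) ^ M := by positivity
  nlinarith

/-- the functions with all values on `A` in `B` (twenty values) -/
private def tm1bE {X Y : Type*} [Fintype X] [DecidableEq X] [Fintype Y] [DecidableEq Y]
    (A : Finset X) (B : Finset Y) : Finset (X → Fin 20 → Y) :=
  Fintype.piFinset fun x => Fintype.piFinset fun _ => if x ∈ A then B else univ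

private theorem tm1b_mem {X Y : Type*} [Fintype X] [DecidableEq X] [Fintype Y] [DecidableEq Y]
    (A : Finset X) (B : Finset Y) (F : X → Fin 20 → Y) :
    F ∈ tm1bE A B ↔ ∀ x ∈ A, ∀ i, F x i ∈ B := by
  unfold tm1bE
  rw [Fintype.mem_piFinset]
  constructor
  · intro h x hx i
    have h1 := Fintype.mem_piFinset.1 (h x) i
    rwa [if_pos hx] at h1
  · intro h x
    rw [Fintype.mem_piFinset]
    intro i
    by_cases hx : x ∈ A
    · rw [if_pos hx]
      exact h x hx i
    · rw [if_neg hx]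
      exact mem_univ _

private theorem tm1b_card {X Y : Type*} [Fintype X] [DecidableEq X] [Fintype Y] [DecidableEq Y]
    (A : Finset X) (B : Finset Y) :
    (tm1bE A B).card = (B.card ^ 20) ^ A.card *
      (Fintype.card Y ^ 20) ^ (Fintype.card X - A.card) := by
  unfold tm1bE
  rw [Fintype.card_piFinset]
  have h1 : ∀ x : X, (Fintype.piFinset fun _ : Fin 20 => if x ∈ A then B else univ).card =
      if x ∈ A then B.card ^ 20 else Fintype.card Y ^ 20 := by
    intro x
    rw [Fintype.card_piFinset, Finset.prod_const, Finset.card_univ, Fintype.card_fin]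
    split_ifs
    · rfl
    · rw [Finset.card_univ]
  rw [Finset.prod_congr rfl fun x _ => h1 x, Finset.prod_ite, Finset.prod_const,
    Finset.prod_const]
  have h2 : (univ.filter fun x => x ∈ A) = A := by
    ext x
    simp
  have h3 : (univ.filter fun x => x ∉ A) = univ \ A := by
    ext x
    simp
  rw [h2, h3, Finset.card_sdiff_of_subset (Finset.subset_univ A), Finset.card_univ]

theorem dense (M : ℕ) (hM : 1 ≤ M) : ∃ F : Fin (3 * M) → Fin 20 → Fin (4 * M),
    ∀ (A : Finset (Fin (3 * M))) (B : Finset (Fin (4 * M))), A.card = M → B.card = M →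
      ∃ x ∈ A, ∃ i, F x i ∈ B := by
  classical
  by_contra hcon
  push Not at hcon
  have hcov : (univ : Finset (Fin (3 * M) → Fin 20 → Fin (4 * M))) ⊆
      (powersetCard M (univ : Finset (Fin (3 * M)))).biUnion fun A =>
        (powersetCard M (univ : Finset (Fin (4 * M)))).biUnion fun B => tm1bE A Bᶜ := by
    intro F _
    obtain ⟨A, B, hA, hB, hF⟩ := hcon F
    rw [Finset.mem_biUnion]
    refine ⟨A, Finset.mem_powersetCard.2 ⟨Finset.subset_univ _, hA⟩, ?_⟩
    rw [Finset.mem_biUnion]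
    refine ⟨B, Finset.mem_powersetCard.2 ⟨Finset.subset_univ _, hB⟩, ?_⟩
    rw [tm1b_mem]
    intro x hx i
    rw [Finset.mem_compl]
    exact hF x hx i
  have h1 := Finset.card_le_card hcov
  have h2 : (univ : Finset (Fin (3 * M) → Fin 20 → Fin (4 * M))).card =
      ((4 * M) ^ 20) ^ (3 * M) := by
    rw [Finset.card_univ, Fintype.card_fun, Fintype.card_fun, Fintype.card_fin,
      Fintype.card_fin, Fintype.card_fin]
  rw [h2] at h1
  have h3 : ∀ A ∈ powersetCard M (univ : Finset (Fin (3 * M))),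
      ((powersetCard M (univ : Finset (Fin (4 * M)))).biUnion fun B => tm1bE A Bᶜ).card ≤
        2 ^ (4 * M) * (((3 * M) ^ 20) ^ M * ((4 * M) ^ 20) ^ (2 * M)) := by
    intro A hA
    refine Finset.card_biUnion_le.trans ?_
    have h4 : ∀ B ∈ powersetCard M (univ : Finset (Fin (4 * M))),
        (tm1bE A Bᶜ).card = ((3 * M) ^ 20) ^ M * ((4 * M) ^ 20) ^ (2 * M) := by
      intro B hB
      rw [tm1b_card, (Finset.mem_powersetCard.1 hA).2, Finset.card_compl,
        (Finset.mem_powersetCard.1 hB).2, Fintype.card_fin, Fintype.card_fin]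
      have e1 : 4 * M - M = 3 * M := by omega
      have e2 : 3 * M - M = 2 * M := by omega
      rw [e1, e2]
    rw [Finset.sum_congr rfl h4, Finset.sum_const, Finset.card_powersetCard, Finset.card_univ,
      Fintype.card_fin, smul_eq_mul]
    exact Nat.mul_le_mul_right _ (Nat.choose_le_two_pow _ _)
  have h5 : ((4 * M) ^ 20) ^ (3 * M) ≤
      2 ^ (3 * M) * (2 ^ (4 * M) * (((3 * M) ^ 20) ^ M * ((4 * M) ^ 20) ^ (2 * M))) := by
    refine h1.trans (Finset.card_biUnion_le.trans ((Finset.sum_le_sum h3).trans ?_))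
    rw [Finset.sum_const, Finset.card_powersetCard, Finset.card_univ, Fintype.card_fin,
      smul_eq_mul]
    exact Nat.mul_le_mul_right _ (Nat.choose_le_two_pow _ _)
  have h6 : ((4 * M) ^ 20) ^ (3 * M) = ((4 * M) ^ 20) ^ M * ((4 * M) ^ 20) ^ (2 * M) := by
    rw [← pow_add]
    congr 1
    omega
  have h7 : 2 ^ (3 * M) * (2 ^ (4 * M) * (((3 * M) ^ 20) ^ M * ((4 * M) ^ 20) ^ (2 * M))) =
      (2 ^ 7 * 3 ^ 20) ^ M * (M ^ 20) ^ M * ((4 * M) ^ 20) ^ (2 * M) := by
    have e1 : ((3 * M) ^ 20) ^ M = (3 ^ 20) ^ M * (M ^ 20) ^ M := by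
      rw [mul_pow, mul_pow]
    have e2 : (2 ^ 7 * 3 ^ 20) ^ M = 2 ^ (3 * M) * 2 ^ (4 * M) * (3 ^ 20) ^ M := by
      rw [mul_pow, ← pow_mul, ← pow_add]
      congr 2
      ring
    rw [e1, e2]
    ring
  have h8 : ((4 * M) ^ 20) ^ M = (4 ^ 20) ^ M * (M ^ 20) ^ M := by
    rw [mul_pow, mul_pow]
  rw [h6, h7, h8] at h5
  have h9 : 0 < (M ^ 20) ^ M * ((4 * M) ^ 20) ^ (2 * M) := by positivity
  have h10 : (4 ^ 20) ^ M ≤ (2 ^ 7 * 3 ^ 20) ^ M := by
    rw [mul_assoc, mul_assoc] at h5
    exact Nat.le_of_mul_le_mul_right h5 h9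
  have h11 : (2 ^ 7 * 3 ^ 20) ^ M < (4 ^ 20) ^ M :=
    Nat.pow_lt_pow_left (by norm_num) (by omega)
  omega

end SSB
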