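import Pool.Agent.Lib.MP_8a819d_co.BD.Tm1

/-!
# MP_8a819d_co: the template, 2. Hall's theorem

JOB Tm2 (all of this file).

`template_list`: there is, for every `M ≥ 1`, a list `l x` of elements of `Fin (2M) ⊕ Fin (2M)`
(`= Y ⊕ Z`) for every `x : Fin (3M)`, of length at least `3`, with total length at most `116 M`,
such that for every `Z' ⊆ Z` with `M` elements there is an injective choice of elements
`g x ∈ l x` avoiding the elements of `Z` outside `Z'` (as `|Y ∪ Z'| = 3M` the choice is a bijection).

Proof. Let `F1` (restriction of `expander` to `Fin (3M) ⊆ Fin (4M)`, values in `Y = Fin (2M)`), `F2`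
(`dense`, values in `Fin (4M) ≃ Y ⊕ Z`, `finSumFinEquiv` and a cast), `F3 : Fin (4M) → Fin 8 → Fin (2M)
⊆ Fin (3M)` (`expander`; the domain `Fin (4M) ≃ Y ⊕ Z`). The list of `x`: the 8 values of `F1 x`
(in `Y`), the 20 values of `F2 x`, and all `w` such that `x ∈ F3 w` (e.g. the filtered list or
`Finset.toList`). Total length at most `28 * 3M + 8 * 4M = 116 M`.
Let `|Z'| = M` and let `t x` be the set of elements of `l x` in `W' = Y ∪ Z'`. Hall's theorem
(`Finset.all_card_le_biUnion_card_iff_exists_injective`): let `A ⊆ Fin (3M)`, `N(A) = ⋃ t x`.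
* `|A| ≤ M`: the values of `F1` on `A` give `|N(A)| ≥ |A|`.
* `|A| > M`: suppose `|N(A)| < |A|` and let `B = W' \ N(A)`, `|B| = 3M - |N(A)| > 3M - |A|`. No
  element of `B` is in a list of an element of `A`. If `|B| ≥ M`, take subsets of `A` and `B` with
  exactly `M` elements: contradiction with `dense`. If `|B| < M`: the values of `F3` on `B` are in
  the complement of `A` (if `x ∈ F3 w`, `w ∈ l x`), so `|B| ≤ 3M - |A|` by `expander`: contradiction.
-/

set_option autoImplicit false

namespace SSB

open Finset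

/-- double counting of the incidences of `F` -/
private theorem tm2_sum {α β : Type} [Fintype α] [Fintype β] [DecidableEq α] [DecidableEq β]
    (F : β → Fin 8 → α) :
    ∑ x : α, (univ.filter (fun w : β => ∃ i, F w i = x)).card ≤ 8 * Fintype.card β := by
  have h1 : ∑ x : α, (univ.filter (fun w : β => ∃ i, F w i = x)).card
      = ∑ w : β, (univ.filter (fun x : α => ∃ i, F w i = x)).card := by
    simp only [card_filter]
    exact Finset.sum_comm
  rw [h1]
  have h2 : ∀ w ∈ (univ : Finset β), (univ.filter (fun x : α => ∃ i, F w i = x)).card ≤ 8 := by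
    intro w _
    have h3 : univ.filter (fun x : α => ∃ i, F w i = x) ⊆ univ.image (F w) := by
      intro x hx
      rw [mem_filter] at hx
      obtain ⟨_, i, hi⟩ := hx
      rw [mem_image]
      exact ⟨i, mem_univ i, hi⟩
    calc (univ.filter (fun x : α => ∃ i, F w i = x)).card ≤ (univ.image (F w)).card :=
          card_le_card h3
      _ ≤ (univ : Finset (Fin 8)).card := card_image_le
      _ = 8 := by simp
  calc ∑ w : β, (univ.filter (fun x : α => ∃ i, F w i = x)).card
      ≤ ∑ _w : β, 8 := Finset.sum_le_sum h2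
    _ = 8 * Fintype.card β := by
        rw [Finset.sum_const, smul_eq_mul, Finset.card_univ, mul_comm]

theorem template_list (M : ℕ) (hM : 1 ≤ M) : ∃ l : Fin (3 * M) → List (Fin (2 * M) ⊕ Fin (2 * M)),
    (∀ x, 3 ≤ (l x).length) ∧ ∑ x, (l x).length ≤ 116 * M ∧
    ∀ Z : Finset (Fin (2 * M)), Z.card = M →
      ∃ g : Fin (3 * M) → Fin (2 * M) ⊕ Fin (2 * M), Function.Injective g ∧ (∀ x, g x ∈ l x) ∧
        ∀ x z, g x = Sum.inr z → z ∈ Z := by
  classical
  obtain ⟨E, hE⟩ := expander M hM
  obtain ⟨G, hG⟩ := dense M hM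
  have h34 : 3 * M ≤ 4 * M := by omega
  have h23 : 2 * M ≤ 3 * M := by omega
  have h22 : 2 * M + 2 * M = 4 * M := by omega
  obtain ⟨e⟩ : Nonempty (Fin (2 * M) ⊕ Fin (2 * M) ≃ Fin (4 * M)) :=
    ⟨finSumFinEquiv.trans (finCongr h22)⟩
  obtain ⟨F1, hF1⟩ : ∃ F1 : Fin (3 * M) → Fin 8 → Fin (2 * M) ⊕ Fin (2 * M),
      F1 = fun x i => Sum.inl (E (Fin.castLE h34 x) i) := ⟨_, rfl⟩
  obtain ⟨F2, hF2⟩ : ∃ F2 : Fin (3 * M) → Fin 20 → Fin (2 * M) ⊕ Fin (2 * M),
      F2 = fun x i => e.symm (G x i) := ⟨_, rfl⟩
  obtain ⟨F3, hF3⟩ : ∃ F3 : Fin (2 * M) ⊕ Fin (2 * M) → Fin 8 → Fin (3 * M),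
      F3 = fun w i => Fin.castLE h23 (E (e w) i) := ⟨_, rfl⟩
  obtain ⟨l, hl⟩ : ∃ l : Fin (3 * M) → List (Fin (2 * M) ⊕ Fin (2 * M)),
      l = fun x => List.ofFn (F1 x) ++ List.ofFn (F2 x) ++
        (univ.filter (fun w => ∃ i, F3 w i = x)).toList := ⟨_, rfl⟩
  have hlen : ∀ x, (l x).length = 28 + (univ.filter (fun w => ∃ i, F3 w i = x)).card := by
    intro x
    rw [hl]
    simp only [List.length_append, List.length_ofFn, Finset.length_toList]
  refine ⟨l, ?_, ?_, ?_⟩
  · intro x
    rw [hlen x]
    omega
  · have h1 : ∑ x, (l x).length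
        = ∑ x : Fin (3 * M), (28 + (univ.filter (fun w => ∃ i, F3 w i = x)).card) :=
      Finset.sum_congr rfl (fun x _ => hlen x)
    rw [h1, Finset.sum_add_distrib, Finset.sum_const, Finset.card_univ, Fintype.card_fin,
      smul_eq_mul]
    have h2 := tm2_sum F3
    rw [Fintype.card_sum, Fintype.card_fin] at h2
    omega
  · intro Z hZ
    -- the elements allowed
    obtain ⟨W, hW⟩ : ∃ W : Finset (Fin (2 * M) ⊕ Fin (2 * M)),
        W = (univ : Finset (Fin (2 * M))).disjSum Z := ⟨_, rfl⟩
    have hWc : W.card = 3 * M := by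
      rw [hW, Finset.card_disjSum, Finset.card_univ, Fintype.card_fin, hZ]
      omega
    have hWl : ∀ y, Sum.inl y ∈ W := by
      intro y
      rw [hW, Finset.inl_mem_disjSum]
      exact mem_univ y
    have hWr : ∀ z, Sum.inr z ∈ W → z ∈ Z := by
      intro z hz
      rw [hW, Finset.inr_mem_disjSum] at hz
      exact hz
    obtain ⟨t, ht⟩ : ∃ t : Fin (3 * M) → Finset (Fin (2 * M) ⊕ Fin (2 * M)),
        t = fun x => (l x).toFinset ∩ W := ⟨_, rfl⟩
    have hmemt : ∀ x w, w ∈ t x ↔ ((∃ i, F1 x i = w) ∨ (∃ i, F2 x i = w) ∨ ∃ i, F3 w i = x) ∧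
        w ∈ W := by
      intro x w
      rw [ht, hl]
      simp only [mem_inter, List.mem_toFinset, List.mem_append, List.mem_ofFn, Finset.mem_toList,
        mem_filter, mem_univ, true_and, or_assoc]
    have hall : ∀ A : Finset (Fin (3 * M)), A.card ≤ (A.biUnion t).card := by
      intro A
      by_cases hA : A.card ≤ M
      · -- the values of `F1`
        have h1 := hE (A.map (Fin.castLEEmb h34)) (by rw [card_map]; exact hA)
        rw [card_map] at h1
        refine h1.trans ?_
        refine Finset.card_le_card_of_injOn (fun y => Sum.inl y) ?_ ?_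
        · intro y hy
          rw [mem_coe, mem_biUnion] at hy
          obtain ⟨x', hx', hy⟩ := hy
          rw [mem_map] at hx'
          obtain ⟨x, hx, rfl⟩ := hx'
          rw [mem_image] at hy
          obtain ⟨i, _, hi⟩ := hy
          rw [mem_coe, mem_biUnion]
          refine ⟨x, hx, ?_⟩
          rw [hmemt]
          refine ⟨Or.inl ⟨i, ?_⟩, hWl y⟩
          rw [hF1]
          exact congrArg Sum.inl hi
        · intro y _ y' _ h
          exact Sum.inl_injective h
      · push Not at hA
        by_contra hlt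
        push Not at hlt
        have hA3 : A.card ≤ 3 * M := by
          have h1 := Finset.card_le_univ A
          rwa [Fintype.card_fin] at h1
        have hsub : A.biUnion t ⊆ W := by
          intro w hw
          rw [mem_biUnion] at hw
          obtain ⟨x, _, hw⟩ := hw
          exact ((hmemt x w).1 hw).2
        obtain ⟨B, hB⟩ : ∃ B : Finset (Fin (2 * M) ⊕ Fin (2 * M)), B = W \ A.biUnion t := ⟨_, rfl⟩
        have hBc : B.card = 3 * M - (A.biUnion t).card := by
          rw [hB, Finset.card_sdiff_of_subset hsub, hWc]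
        have hBA : ∀ w ∈ B, ∀ x ∈ A, ¬ ((∃ i, F1 x i = w) ∨ (∃ i, F2 x i = w) ∨
            ∃ i, F3 w i = x) := by
          intro w hw x hx hor
          rw [hB, mem_sdiff] at hw
          refine hw.2 ?_
          rw [mem_biUnion]
          exact ⟨x, hx, (hmemt x w).2 ⟨hor, hw.1⟩⟩
        by_cases hBM : M ≤ B.card
        · -- `dense`
          obtain ⟨A', hA', hA'c⟩ := Finset.exists_subset_card_eq hA.le
          obtain ⟨B', hB', hB'c⟩ := Finset.exists_subset_card_eq hBM
          obtain ⟨x, hx, i, hi⟩ := hG A' (B'.map e.toEmbedding) hA'c (by rw [card_map]; exact hB'c)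
          rw [mem_map] at hi
          obtain ⟨w, hw, hwi⟩ := hi
          refine hBA w (hB' hw) x (hA' hx) (Or.inr (Or.inl ⟨i, ?_⟩))
          rw [hF2]
          change e.symm (G x i) = w
          rw [← hwi]
          exact e.symm_apply_apply w
        · -- `expander`
          push Not at hBM
          have h1 := hE (B.map e.toEmbedding) (by rw [card_map]; exact hBM.le)
          rw [card_map] at h1
          have h2 : ((B.map e.toEmbedding).biUnion (fun x => univ.image (E x))).card ≤
              (Aᶜ).card := by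
            refine Finset.card_le_card_of_injOn (fun y => Fin.castLE h23 y) ?_ ?_
            · intro y hy
              rw [mem_coe, mem_biUnion] at hy
              obtain ⟨x', hx', hy⟩ := hy
              rw [mem_map] at hx'
              obtain ⟨w, hw, rfl⟩ := hx'
              rw [mem_image] at hy
              obtain ⟨i, _, hi⟩ := hy
              rw [mem_coe, mem_compl]
              intro hyA
              refine hBA w hw _ hyA (Or.inr (Or.inr ⟨i, ?_⟩))
              rw [hF3]
              exact congrArg (Fin.castLE h23) hi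
            · intro y _ y' _ h
              exact Fin.castLE_injective h23 h
          rw [Finset.card_compl, Fintype.card_fin] at h2
          omega
    obtain ⟨g, hg, hgt⟩ := (Finset.all_card_le_biUnion_card_iff_exists_injective t).1 hall
    refine ⟨g, hg, ?_, ?_⟩
    · intro x
      have h1 := hgt x
      rw [ht] at h1
      exact List.mem_toFinset.1 (mem_inter.1 h1).1
    · intro x z hz
      have h1 := ((hmemt x (g x)).1 (hgt x)).2
      rw [hz] at h1
      exact hWr z h1

end SSB
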