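import Pool.Agent.Lib.MP_8a819d_co.BD.Piece0

/-!
# MP_8a819d_co: the typed Markov chain, 1. Definitions

`Q` ordinary labels, `L` special labels, `k` a symmetric kernel (from `lemmaF`), `η` the probability
that a vertex of type `P` gets a special label.

* `Hs c`: the labels `y ∈ Q`, `y ≥ 0.6 N`, `y ≠ c`, `|c - y| ∈ Q`; `pu c` the uniform distribution on `Hs c`.
* `mst` the average of `pu c` over `c ∈ L`; `GG c y = mst y * pu y c`; `gg c = ∑ y, GG c y`;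
  `qU y = ∑ c, gg c * pu c y`.
* `VV x = ∑ y, k x y`, `SS = ∑ x, VV x`, `mO = VV / SS`, `JJ c y = k c y / SS - η GG c y`,
  `AA c y = k c y / SS - η gg c pu c y`, `mP = mO - η gg`, `mU = mO - η qU` (on `Q`).
* `MM a`: the law of the label of a vertex of type `a`; `KK a b x y`: the probability that a child of
  type `b` has the label `y` if its parent of type `a` has the label `x`. (A unit which is special has the
  label of its parent as its state.)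
-/

set_option autoImplicit false

namespace SSB

open Finset

def Hs (N : ℕ) (Q : Finset ℕ) (c : ℕ) : Finset ℕ :=
  Q.filter (fun y => 3 * N ≤ 5 * y ∧ y ≠ c ∧ dd c y ∈ Q)

noncomputable def pu (N : ℕ) (Q : Finset ℕ) (c y : ℕ) : ℝ :=
  if y ∈ Hs N Q c then 1 / ((Hs N Q c).card : ℝ) else 0

noncomputable def mst (N : ℕ) (Q L : Finset ℕ) (y : ℕ) : ℝ := (1 / (L.card : ℝ)) * ∑ c ∈ L, pu N Q c y

noncomputable def GG (N : ℕ) (Q L : Finset ℕ) (c y : ℕ) : ℝ := mst N Q L y * pu N Q y c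

noncomputable def gg (N : ℕ) (Q L : Finset ℕ) (c : ℕ) : ℝ := ∑ y ∈ Q, GG N Q L c y

noncomputable def qU (N : ℕ) (Q L : Finset ℕ) (y : ℕ) : ℝ := ∑ c ∈ Q, gg N Q L c * pu N Q c y

noncomputable def VV (Q : Finset ℕ) (k : ℕ → ℕ → ℝ) (x : ℕ) : ℝ := ∑ y ∈ Q, k x y

noncomputable def SS (Q : Finset ℕ) (k : ℕ → ℕ → ℝ) : ℝ := ∑ x ∈ Q, VV Q k x

noncomputable def mO (Q : Finset ℕ) (k : ℕ → ℕ → ℝ) (x : ℕ) : ℝ := VV Q k x / SS Q k

noncomputable def JJ (N : ℕ) (Q L : Finset ℕ) (η : ℝ) (k : ℕ → ℕ → ℝ) (c y : ℕ) : ℝ :=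
  k c y / SS Q k - η * GG N Q L c y

noncomputable def AA (N : ℕ) (Q L : Finset ℕ) (η : ℝ) (k : ℕ → ℕ → ℝ) (c y : ℕ) : ℝ :=
  k c y / SS Q k - η * (gg N Q L c * pu N Q c y)

noncomputable def mP (N : ℕ) (Q L : Finset ℕ) (η : ℝ) (k : ℕ → ℕ → ℝ) (x : ℕ) : ℝ :=
  mO Q k x - η * gg N Q L x

noncomputable def mU (N : ℕ) (Q L : Finset ℕ) (η : ℝ) (k : ℕ → ℕ → ℝ) (x : ℕ) : ℝ :=
  mO Q k x - η * qU N Q L x

noncomputable def MM (N : ℕ) (Q L : Finset ℕ) (η : ℝ) (k : ℕ → ℕ → ℝ) : Ty → ℕ → ℝ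
  | Ty.O, x => mO Q k x
  | Ty.P, x => if x ∈ L then η / L.card else mP N Q L η k x
  | Ty.U, x => if x ∈ L then η / L.card else mU N Q L η k x

noncomputable def KK (N : ℕ) (Q L : Finset ℕ) (prt : ℕ → ℕ) (η : ℝ) (k : ℕ → ℕ → ℝ) :
    Ty → Ty → ℕ → ℕ → ℝ
  | Ty.O, Ty.O, x, y => if VV Q k x = 0 then mO Q k y else k x y / VV Q k x
  | Ty.O, Ty.P, x, y => if mO Q k x = 0 then mO Q k y else
      if y ∈ L then (η / L.card) * pu N Q y x / mO Q k x else JJ N Q L η k y x / mO Q k x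
  | Ty.P, Ty.O, x, y => if x ∈ L then pu N Q x y else
      if mP N Q L η k x = 0 then mO Q k y else JJ N Q L η k x y / mP N Q L η k x
  | Ty.P, Ty.U, x, y => if x ∈ L then (if y = x then 1 else 0) else
      if mP N Q L η k x = 0 then mO Q k y else AA N Q L η k x y / mP N Q L η k x
  | Ty.U, Ty.P, x, y => if x ∈ L then (if y = prt x then 1 else 0) else
      if mU N Q L η k x = 0 then mO Q k y else AA N Q L η k y x / mU N Q L η k x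
  | _, _, _, _ => 0

/-- standing hypotheses on `Q`, `L` -/
structure TQ (N : ℕ) (Q L : Finset ℕ) : Prop where
  big : 10 ^ 6 ≤ N
  Q_sub : Q ⊆ Icc 1 N
  L_sub : L ⊆ Icc 1 N
  QL : Disjoint Q L
  L_ne : L.Nonempty
  Q_card : (N : ℝ) - Q.card ≤ (1 / 1000) * N

/-- standing hypotheses on the kernel -/
structure TK (N : ℕ) (Q L : Finset ℕ) (η C₀ : ℝ) (k : ℕ → ℕ → ℝ) : Prop where
  tq : TQ N Q L
  η_nn : 0 ≤ η
  η_le : η ≤ 1 / 36
  C_ge : 1 ≤ C₀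
  nn : ∀ x y, 0 ≤ k x y
  symm : ∀ x y, k x y = k y x
  supp : ∀ x y, k x y ≠ 0 → x ∈ Q ∧ y ∈ Q ∧ x ≠ y ∧ dd x y ∈ Q
  le : ∀ x y, k x y ≤ C₀ / N
  ge : ∀ x y, x ∈ Q → y ∈ Q → x ≠ y → dd x y ∈ Q → 3 * N ≤ 5 * x → 3 * N ≤ 5 * y → 1 / N ≤ k x y
  V_ge : ∀ x ∈ Q, VV Q k x ≠ 0 → 1 / C₀ ≤ VV Q k x
  S_ge : (N : ℝ) / 2 ≤ SS Q k
  S_le : SS Q k ≤ 2 * N

end SSB
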