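import Pool.Agent.Lib.MP_8a819d_co.BD.Typ1

/-!
# MP_8a819d_co: the typed Markov chain, 2. The auxiliary distributions

JOB Typ2a: the theorems up to `GG_sum_left`. JOB Typ2b: the theorems from `gg_nonneg` on.

* `Hs_card`: for `c ≤ N` the integers in `[0.6 N, N]` are at least `0.4 N - 1` (in number); remove those not in
  `Q` (`≤ N / 1000`), those with `|c - y| ∉ Q` (`|c-y| ∈ [0, N] \ Q`, at most two `y` for each value:
  `≤ 2 (N / 1000 + 1)`; this includes `y = c`). So `|Hs c| ≥ N / 3`.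
* `pu_le`: `pu c y ≤ 3 / N` for `c ≤ N`; `pu_sum`: `∑ y ∈ Q, pu c y = 1` for `c ≤ N`.
* `mst_le`, `mst_sum` average over `c ∈ L ⊆ [1, N]`; `mst y = 0` unless `y ∈ Q`, `y ≥ 0.6 N`.
* `GG_sum_left`: `∑ c ∈ Q, GG c y = mst y` (for `y ≤ N`; for `y ∈ Q`: `∑ c, pu y c = 1`);
  `GG_le`: `≤ 9 / N^2` for `y ≤ N`; `gg_sum : ∑ c ∈ Q, gg c = 1`; `gg_le: gg c ≤ (3/N) ∑ y mst y = 3/N`;
  `gg c = 0` unless `c ∈ Q`, `c ≥ 0.6 N`.
* `qU_sum`, `qU_le`, `qU` supported in `Q ∩ [0.6 N, N]`.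
* differences: `a1 z = ∑ x ∈ Q, ∑ y ∈ Q, [dd x y = z] GG x y`, `a2`, `a3`: at most `6 / N` (for given `y` two `x` at
  most have `dd x y = z`) and `∑ z ∈ Q, a z = 1` (all the pairs in the support have `dd ∈ Q`).
-/

set_option autoImplicit false

namespace SSB

open Finset

variable {N : ℕ} {Q L : Finset ℕ}

private theorem typ2a_card (h : TQ N Q L) {c : ℕ} (hc : c ≤ N) : N ≤ 3 * (Hs N Q c).card := by
  have hq : 999 * N ≤ 1000 * Q.card := by
    have h1 := h.Q_card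
    have h2 : (999 : ℝ) * N ≤ 1000 * Q.card := by linarith
    exact_mod_cast h2
  have hN := h.big
  have hsub : Q ⊆ range (N + 1) := by
    intro y hy
    have := mem_Icc.mp (h.Q_sub hy)
    exact mem_range.mpr (by omega)
  have hcov : Icc ((3 * N + 4) / 5) N ⊆ Hs N Q c ∪ (((Icc 1 N) \ Q) ∪
      (((range (N + 1) \ Q).image fun z => c + z) ∪ ((range (N + 1) \ Q).image fun z => c - z))) := by
    intro y hy
    rw [mem_Icc] at hy
    have hy1 : 3 * N ≤ 5 * y := by omega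
    rw [mem_union, mem_union, mem_union]
    by_cases hyQ : y ∈ Q
    · by_cases hd : dd c y ∈ Q
      · left
        rw [Hs, mem_filter]
        refine ⟨hyQ, hy1, ?_, hd⟩
        rintro rfl
        have h3 : dd y y = 0 := by
          unfold dd
          omega
        rw [h3] at hd
        have := mem_Icc.mp (h.Q_sub hd)
        omega
      · right
        right
        have h4 : dd c y ∈ range (N + 1) \ Q := by
          rw [mem_sdiff, mem_range]
          refine ⟨?_, hd⟩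
          unfold dd
          omega
        rcases le_total c y with hcy | hcy
        · left
          refine mem_image.mpr ⟨dd c y, h4, ?_⟩
          unfold dd
          omega
        · right
          refine mem_image.mpr ⟨dd c y, h4, ?_⟩
          unfold dd
          omega
    · right
      left
      rw [mem_sdiff, mem_Icc]
      exact ⟨⟨by omega, hy.2⟩, hyQ⟩
  have h1 := card_le_card hcov
  have h2 := card_union_le (Hs N Q c) (((Icc 1 N) \ Q) ∪
      (((range (N + 1) \ Q).image fun z => c + z) ∪ ((range (N + 1) \ Q).image fun z => c - z)))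
  have h3 := card_union_le ((Icc 1 N) \ Q) (((range (N + 1) \ Q).image fun z => c + z) ∪
    ((range (N + 1) \ Q).image fun z => c - z))
  have h4 := card_union_le ((range (N + 1) \ Q).image fun z => c + z)
    ((range (N + 1) \ Q).image fun z => c - z)
  have h5 : ((range (N + 1) \ Q).image fun z => c + z).card ≤ (range (N + 1) \ Q).card :=
    card_image_le
  have h6 : ((range (N + 1) \ Q).image fun z => c - z).card ≤ (range (N + 1) \ Q).card :=
    card_image_le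
  have h7 : (range (N + 1) \ Q).card = N + 1 - Q.card := by
    rw [card_sdiff_of_subset hsub, card_range]
  have h8 : ((Icc 1 N) \ Q).card = N - Q.card := by
    rw [card_sdiff_of_subset h.Q_sub, Nat.card_Icc]
    omega
  rw [Nat.card_Icc] at h1
  omega

theorem Hs_card (h : TQ N Q L) {c : ℕ} (hc : c ≤ N) : (N : ℝ) / 3 ≤ (Hs N Q c).card := by
  have h1 := typ2a_card h hc
  have h2 : (N : ℝ) ≤ 3 * (Hs N Q c).card := by exact_mod_cast h1
  linarith

theorem mem_Hs {c y : ℕ} : y ∈ Hs N Q c ↔ y ∈ Q ∧ 3 * N ≤ 5 * y ∧ y ≠ c ∧ dd c y ∈ Q := by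
  rw [Hs, mem_filter]

theorem pu_nonneg (c y : ℕ) : 0 ≤ pu N Q c y := by
  unfold pu
  split_ifs
  · positivity
  · exact le_rfl

theorem pu_le (h : TQ N Q L) {c : ℕ} (hc : c ≤ N) (y : ℕ) : pu N Q c y ≤ 3 / N := by
  have hN : (0 : ℝ) < N := by
    have := h.big
    exact_mod_cast (by omega : 0 < N)
  unfold pu
  split_ifs
  · have h1 := Hs_card h hc
    have h2 : (0 : ℝ) < (Hs N Q c).card := lt_of_lt_of_le (by positivity) h1
    rw [div_le_div_iff₀ h2 hN]
    linarith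
  · positivity

theorem pu_sum (h : TQ N Q L) {c : ℕ} (hc : c ≤ N) : ∑ y ∈ Q, pu N Q c y = 1 := by
  have hN : (0 : ℝ) < N := by
    have := h.big
    exact_mod_cast (by omega : 0 < N)
  have h1 := Hs_card h hc
  have h2 : (0 : ℝ) < (Hs N Q c).card := lt_of_lt_of_le (by positivity) h1
  have h3 : Q ∩ Hs N Q c = Hs N Q c := inter_eq_right.mpr (filter_subset _ _)
  unfold pu
  rw [sum_ite_mem, h3, sum_const, nsmul_eq_mul, mul_one_div_cancel h2.ne']

theorem pu_supp {c y : ℕ} (hp : pu N Q c y ≠ 0) : y ∈ Q ∧ 3 * N ≤ 5 * y ∧ y ≠ c ∧ dd c y ∈ Q := by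
  rw [← mem_Hs]
  by_contra h
  apply hp
  unfold pu
  rw [if_neg h]

theorem mst_nonneg (y : ℕ) : 0 ≤ mst N Q L y := by
  unfold mst
  exact mul_nonneg (by positivity) (sum_nonneg fun c _ => pu_nonneg c y)

theorem mst_le (h : TQ N Q L) (y : ℕ) : mst N Q L y ≤ 3 / N := by
  have hL : (0 : ℝ) < L.card := by exact_mod_cast card_pos.mpr h.L_ne
  unfold mst
  have h1 : ∑ c ∈ L, pu N Q c y ≤ ∑ _c ∈ L, (3 / N : ℝ) :=
    sum_le_sum fun c hc => pu_le h (mem_Icc.mp (h.L_sub hc)).2 y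
  rw [sum_const, nsmul_eq_mul] at h1
  calc 1 / (L.card : ℝ) * ∑ c ∈ L, pu N Q c y ≤ 1 / (L.card : ℝ) * (L.card * (3 / N)) :=
        mul_le_mul_of_nonneg_left h1 (by positivity)
    _ = 3 / N := by
        rw [← mul_assoc, one_div_mul_cancel hL.ne', one_mul]

theorem mst_sum (h : TQ N Q L) : ∑ y ∈ Q, mst N Q L y = 1 := by
  have hL : (0 : ℝ) < L.card := by exact_mod_cast card_pos.mpr h.L_ne
  unfold mst
  rw [← mul_sum, sum_comm, sum_congr rfl fun c hc => pu_sum h (mem_Icc.mp (h.L_sub hc)).2, sum_const,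
    nsmul_eq_mul, mul_one, one_div_mul_cancel hL.ne']

theorem mst_supp {y : ℕ} (hp : mst N Q L y ≠ 0) : y ∈ Q ∧ 3 * N ≤ 5 * y := by
  have h1 : ∃ c ∈ L, pu N Q c y ≠ 0 := by
    by_contra hcon
    push Not at hcon
    apply hp
    unfold mst
    rw [sum_eq_zero hcon, mul_zero]
  obtain ⟨c, -, hc⟩ := h1
  exact ⟨(pu_supp hc).1, (pu_supp hc).2.1⟩

theorem GG_nonneg (c y : ℕ) : 0 ≤ GG N Q L c y := by
  exact mul_nonneg (mst_nonneg y) (pu_nonneg y c)

theorem GG_le (h : TQ N Q L) (c y : ℕ) : GG N Q L c y ≤ 9 / (N : ℝ) ^ 2 := by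
  have hN : (0 : ℝ) < N := by
    have := h.big
    exact_mod_cast (by omega : 0 < N)
  unfold GG
  by_cases h0 : mst N Q L y = 0
  · rw [h0, zero_mul]
    positivity
  · have hy := (mem_Icc.mp (h.Q_sub (mst_supp h0).1)).2
    calc mst N Q L y * pu N Q y c ≤ 3 / N * (3 / N) :=
          mul_le_mul (mst_le h y) (pu_le h hy c) (pu_nonneg y c) (by positivity)
      _ = 9 / (N : ℝ) ^ 2 := by
          field_simp
          norm_num

theorem GG_supp {c y : ℕ} (hp : GG N Q L c y ≠ 0) :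
    c ∈ Q ∧ y ∈ Q ∧ c ≠ y ∧ dd c y ∈ Q ∧ 3 * N ≤ 5 * c ∧ 3 * N ≤ 5 * y := by
  have h1 : mst N Q L y ≠ 0 := fun h0 => hp (by unfold GG; rw [h0, zero_mul])
  have h2 : pu N Q y c ≠ 0 := fun h0 => hp (by unfold GG; rw [h0, mul_zero])
  obtain ⟨h3, h4⟩ := mst_supp h1
  obtain ⟨h5, h6, h7, h8⟩ := pu_supp h2
  exact ⟨h5, h3, h7, by rw [dd_comm]; exact h8, h6, h4⟩

theorem GG_sum_left (h : TQ N Q L) (y : ℕ) : ∑ c ∈ Q, GG N Q L c y = mst N Q L y := by
  unfold GG
  rw [← mul_sum]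
  by_cases h0 : mst N Q L y = 0
  · rw [h0, zero_mul]
  · rw [pu_sum h (mem_Icc.mp (h.Q_sub (mst_supp h0).1)).2, mul_one]

private theorem typ2b_le_N (h : TQ N Q L) {x : ℕ} (hx : x ∈ Q) : x ≤ N :=
  (mem_Icc.1 (h.Q_sub hx)).2

private theorem typ2b_le_N' (h : TQ N Q L) {x : ℕ} (hx : x ∈ L) : x ≤ N :=
  (mem_Icc.1 (h.L_sub hx)).2

private theorem typ2b_ind {d : ℕ} {f : ℝ} (hf : f ≠ 0 → d ∈ Q) :
    ∑ z ∈ Q, (if d = z then f else 0) = f := by
  rw [sum_ite_eq]
  by_cases h0 : f = 0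
  · rw [h0]
    simp
  · rw [if_pos (hf h0)]

private theorem typ2b_two (h : TQ N Q L) {x : ℕ} (hx : x ≤ N) (z : ℕ) :
    ∑ y ∈ Q, (if dd x y = z then pu N Q x y else 0) ≤ 6 / N := by
  rw [← sum_filter]
  have h1 : ∑ y ∈ Q.filter (fun y => dd x y = z), pu N Q x y ≤
      ((Q.filter (fun y => dd x y = z)).card : ℝ) * (3 / N) := by
    rw [← nsmul_eq_mul]
    exact sum_le_card_nsmul _ _ _ fun y _ => pu_le h hx y
  have h2 : (Q.filter (fun y => dd x y = z)).card ≤ 2 := by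
    refine (card_le_card (t := {x - z, x + z}) ?_).trans card_le_two
    intro y hy
    have h3 := (mem_filter.1 hy).2
    unfold dd at h3
    rw [mem_insert, mem_singleton]
    omega
  have h3 : ((Q.filter (fun y => dd x y = z)).card : ℝ) ≤ 2 := by exact_mod_cast h2
  have h4 : (0 : ℝ) ≤ 3 / N := by positivity
  calc _ ≤ _ := h1
    _ ≤ 2 * (3 / N) := mul_le_mul_of_nonneg_right h3 h4
    _ = 6 / N := by ring

theorem gg_nonneg (c : ℕ) : 0 ≤ gg N Q L c := by
  unfold gg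
  exact sum_nonneg fun y _ => GG_nonneg c y

theorem gg_le (h : TQ N Q L) (c : ℕ) : gg N Q L c ≤ 3 / N := by
  unfold gg
  calc ∑ y ∈ Q, GG N Q L c y ≤ ∑ y ∈ Q, mst N Q L y * (3 / N) := by
        refine sum_le_sum fun y hy => ?_
        unfold GG
        exact mul_le_mul_of_nonneg_left (pu_le h (typ2b_le_N h hy) c) (mst_nonneg y)
    _ = 3 / N := by rw [← sum_mul, mst_sum h, one_mul]

theorem gg_sum (h : TQ N Q L) : ∑ c ∈ Q, gg N Q L c = 1 := by
  unfold gg
  rw [sum_comm, sum_congr rfl fun y _ => GG_sum_left h y]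
  exact mst_sum h

theorem gg_supp {c : ℕ} (hp : gg N Q L c ≠ 0) : c ∈ Q ∧ 3 * N ≤ 5 * c := by
  obtain ⟨y, _, hy⟩ := exists_ne_zero_of_sum_ne_zero hp
  have h1 := GG_supp hy
  exact ⟨h1.1, h1.2.2.2.2.1⟩

theorem qU_nonneg (y : ℕ) : 0 ≤ qU N Q L y := by
  unfold qU
  exact sum_nonneg fun c _ => mul_nonneg (gg_nonneg c) (pu_nonneg c y)

theorem qU_le (h : TQ N Q L) (y : ℕ) : qU N Q L y ≤ 3 / N := by
  unfold qU
  calc ∑ c ∈ Q, gg N Q L c * pu N Q c y ≤ ∑ c ∈ Q, gg N Q L c * (3 / N) := by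
        refine sum_le_sum fun c hc => ?_
        exact mul_le_mul_of_nonneg_left (pu_le h (typ2b_le_N h hc) y) (gg_nonneg c)
    _ = 3 / N := by rw [← sum_mul, gg_sum h, one_mul]

theorem qU_sum (h : TQ N Q L) : ∑ y ∈ Q, qU N Q L y = 1 := by
  unfold qU
  rw [sum_comm]
  calc ∑ c ∈ Q, ∑ y ∈ Q, gg N Q L c * pu N Q c y = ∑ c ∈ Q, gg N Q L c := by
        refine sum_congr rfl fun c hc => ?_
        rw [← mul_sum, pu_sum h (typ2b_le_N h hc), mul_one]
    _ = 1 := gg_sum h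

theorem qU_supp {y : ℕ} (hp : qU N Q L y ≠ 0) : y ∈ Q ∧ 3 * N ≤ 5 * y := by
  obtain ⟨c, _, hc⟩ := exists_ne_zero_of_sum_ne_zero hp
  have h1 := pu_supp (right_ne_zero_of_mul hc)
  exact ⟨h1.1, h1.2.1⟩

noncomputable def a1 (N : ℕ) (Q L : Finset ℕ) (z : ℕ) : ℝ :=
  ∑ x ∈ Q, ∑ y ∈ Q, if dd x y = z then GG N Q L x y else 0

noncomputable def a2 (N : ℕ) (Q L : Finset ℕ) (z : ℕ) : ℝ :=
  (1 / (L.card : ℝ)) * ∑ x ∈ L, ∑ y ∈ Q, if dd x y = z then pu N Q x y else 0

noncomputable def a3 (N : ℕ) (Q L : Finset ℕ) (z : ℕ) : ℝ :=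
  ∑ x ∈ Q, ∑ y ∈ Q, if dd x y = z then gg N Q L x * pu N Q x y else 0

theorem a_nonneg (z : ℕ) : 0 ≤ a1 N Q L z ∧ 0 ≤ a2 N Q L z ∧ 0 ≤ a3 N Q L z := by
  refine ⟨sum_nonneg fun x _ => sum_nonneg fun y _ => ?_,
    mul_nonneg (by positivity) (sum_nonneg fun x _ => sum_nonneg fun y _ => ?_),
    sum_nonneg fun x _ => sum_nonneg fun y _ => ?_⟩
  · split_ifs
    · exact GG_nonneg x y
    · exact le_refl _
  · split_ifs
    · exact pu_nonneg x y
    · exact le_refl _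
  · split_ifs
    · exact mul_nonneg (gg_nonneg x) (pu_nonneg x y)
    · exact le_refl _

theorem a_le (h : TQ N Q L) (z : ℕ) :
    a1 N Q L z ≤ 6 / N ∧ a2 N Q L z ≤ 6 / N ∧ a3 N Q L z ≤ 6 / N := by
  have hL : (0 : ℝ) < L.card := by exact_mod_cast h.L_ne.card_pos
  refine ⟨?_, ?_, ?_⟩
  · unfold a1
    rw [sum_comm]
    calc ∑ y ∈ Q, ∑ x ∈ Q, (if dd x y = z then GG N Q L x y else 0) =
        ∑ y ∈ Q, mst N Q L y * ∑ x ∈ Q, (if dd y x = z then pu N Q y x else 0) := by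
          refine sum_congr rfl fun y _ => ?_
          rw [mul_sum]
          refine sum_congr rfl fun x _ => ?_
          rw [dd_comm x y, mul_ite, mul_zero]
          rfl
      _ ≤ ∑ y ∈ Q, mst N Q L y * (6 / N) := by
          refine sum_le_sum fun y hy => ?_
          exact mul_le_mul_of_nonneg_left (typ2b_two h (typ2b_le_N h hy) z) (mst_nonneg y)
      _ = 6 / N := by rw [← sum_mul, mst_sum h, one_mul]
  · unfold a2
    calc (1 / (L.card : ℝ)) * ∑ x ∈ L, ∑ y ∈ Q, (if dd x y = z then pu N Q x y else 0) ≤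
        (1 / (L.card : ℝ)) * ∑ x ∈ L, (6 / N : ℝ) := by
          refine mul_le_mul_of_nonneg_left (sum_le_sum fun x hx => ?_) (by positivity)
          exact typ2b_two h (typ2b_le_N' h hx) z
      _ = 6 / N := by
          rw [sum_const, nsmul_eq_mul]
          field_simp
  · unfold a3
    calc ∑ x ∈ Q, ∑ y ∈ Q, (if dd x y = z then gg N Q L x * pu N Q x y else 0) =
        ∑ x ∈ Q, gg N Q L x * ∑ y ∈ Q, (if dd x y = z then pu N Q x y else 0) := by
          refine sum_congr rfl fun x _ => ?_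
          rw [mul_sum]
          refine sum_congr rfl fun y _ => ?_
          rw [mul_ite, mul_zero]
      _ ≤ ∑ x ∈ Q, gg N Q L x * (6 / N) := by
          refine sum_le_sum fun x hx => ?_
          exact mul_le_mul_of_nonneg_left (typ2b_two h (typ2b_le_N h hx) z) (gg_nonneg x)
      _ = 6 / N := by rw [← sum_mul, gg_sum h, one_mul]

theorem a_sum (h : TQ N Q L) :
    ∑ z ∈ Q, a1 N Q L z = 1 ∧ ∑ z ∈ Q, a2 N Q L z = 1 ∧ ∑ z ∈ Q, a3 N Q L z = 1 := by
  have hL : (0 : ℝ) < L.card := by exact_mod_cast h.L_ne.card_pos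
  have key : ∀ (S : Finset ℕ) (f : ℕ → ℕ → ℝ), (∀ x y, f x y ≠ 0 → dd x y ∈ Q) →
      ∑ z ∈ Q, ∑ x ∈ S, ∑ y ∈ Q, (if dd x y = z then f x y else 0) = ∑ x ∈ S, ∑ y ∈ Q, f x y := by
    intro S f hf
    rw [sum_comm]
    refine sum_congr rfl fun x _ => ?_
    rw [sum_comm]
    exact sum_congr rfl fun y _ => typ2b_ind (hf x y)
  refine ⟨?_, ?_, ?_⟩
  · unfold a1
    rw [key Q _ fun x y hxy => (GG_supp hxy).2.2.2.1]
    exact gg_sum h
  · unfold a2
    rw [← mul_sum, key L _ fun x y hxy => (pu_supp hxy).2.2.2]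
    rw [sum_congr rfl fun x hx => pu_sum h (typ2b_le_N' h hx), sum_const, nsmul_eq_mul]
    field_simp
  · unfold a3
    rw [key Q (fun x y => gg N Q L x * pu N Q x y) fun x y hxy =>
      (pu_supp (right_ne_zero_of_mul hxy)).2.2.2]
    rw [← gg_sum h]
    refine sum_congr rfl fun x hx => ?_
    rw [← mul_sum, pu_sum h (typ2b_le_N h hx), mul_one]

end SSB
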