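import Pool.Agent.Lib.MP_8a819d_co.BD.Typ2

/-!
# MP_8a819d_co: the typed Markov chain, 3. Bounds

JOB Typ3a: the theorems up to `mO_ge`, and `k_div`. JOB Typ3b: the theorems on `JJ`, `AA`, `mP`, `mU`. `h : TK N Q L η C₀ k`.

* `VV` is supported in `Q` (support of `k`), `0 ≤ VV ≤ C₀` (`|Q| ≤ N`), `mO ≤ 2 C₀ / N`, `∑ mO = 1`.
* `mO_ge`: for `x ∈ Q`, `x ≥ 0.6 N`: `VV x ≥ |Hs x| * (1/N) ≥ 1/3`, so `mO x ≥ 1 / (6 N)`.
* `kS_ge`: if `x, y ∈ Q`, `x ≠ y`, `dd x y ∈ Q`, both `≥ 0.6 N`: `k x y / SS ≥ 1 / (2 N^2)`.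
* `JJ_nonneg`: where `GG ≠ 0` (see `GG_supp`) `η GG ≤ 9 / (36 N^2) = 1 / (4 N^2) ≤ k / SS`; elsewhere `JJ = k/SS`.
  The same for `AA` (`gg c pu c y ≤ 9/N^2`, support in `gg_supp`, `pu_supp`).
* `JJ_le`, `AA_le`: `≤ k / SS`.
* `mP_ge`, `mU_ge`: `η gg x ≤ (1/36)(3/N) = 1/(12 N) ≤ mO x / 2` where `gg x ≠ 0`, so `mP x ≥ mO x / 2`.
* sums: `∑ y ∈ Q, JJ x y = mP x`; `∑ x ∈ Q, JJ x y = mO y - η mst y`; `∑ y ∈ Q, AA x y = mP x` (if `gg x ≠ 0` then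
  `x ≤ N` and `∑ y pu x y = 1`); `∑ x ∈ Q, AA x y = mU y`.
-/

set_option autoImplicit false

namespace SSB

open Finset

variable {N : ℕ} {Q L : Finset ℕ} {η C₀ : ℝ} {k : ℕ → ℕ → ℝ}

private theorem typ3a_N (h : TK N Q L η C₀ k) : (0 : ℝ) < N := by
  have h1 : 0 < N := lt_of_lt_of_le (by norm_num) h.tq.big
  exact_mod_cast h1

theorem VV_nonneg (h : TK N Q L η C₀ k) (x : ℕ) : 0 ≤ VV Q k x := by
  exact Finset.sum_nonneg fun y _ => h.nn x y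

theorem VV_le (h : TK N Q L η C₀ k) (x : ℕ) : VV Q k x ≤ C₀ := by
  have hN := typ3a_N h
  have h1 : VV Q k x ≤ ∑ _y ∈ Q, C₀ / (N : ℝ) := Finset.sum_le_sum fun y _ => h.le x y
  rw [Finset.sum_const, nsmul_eq_mul] at h1
  have h2 : (Q.card : ℝ) ≤ N := by
    have h3 := Finset.card_le_card h.tq.Q_sub
    rw [Nat.card_Icc, Nat.add_sub_cancel] at h3
    exact_mod_cast h3
  have h3 : 0 ≤ C₀ / (N : ℝ) := div_nonneg (le_trans zero_le_one h.C_ge) hN.le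
  calc VV Q k x ≤ (Q.card : ℝ) * (C₀ / N) := h1
    _ ≤ N * (C₀ / N) := mul_le_mul_of_nonneg_right h2 h3
    _ = C₀ := by field_simp

theorem VV_supp (h : TK N Q L η C₀ k) {x : ℕ} (hx : x ∉ Q) : VV Q k x = 0 := by
  refine Finset.sum_eq_zero fun y _ => ?_
  by_contra h1
  exact hx (h.supp x y h1).1

theorem SS_pos (h : TK N Q L η C₀ k) : 0 < SS Q k := by
  exact lt_of_lt_of_le (half_pos (typ3a_N h)) h.S_ge

theorem mO_nonneg (h : TK N Q L η C₀ k) (x : ℕ) : 0 ≤ mO Q k x := by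
  exact div_nonneg (VV_nonneg h x) (SS_pos h).le

theorem mO_le (h : TK N Q L η C₀ k) (x : ℕ) : mO Q k x ≤ 2 * C₀ / N := by
  have hN := typ3a_N h
  have h1 : 0 ≤ C₀ := le_trans zero_le_one h.C_ge
  unfold mO
  rw [div_le_div_iff₀ (SS_pos h) hN]
  have h2 : VV Q k x * N ≤ C₀ * N := mul_le_mul_of_nonneg_right (VV_le h x) hN.le
  have h3 : C₀ * ((N : ℝ) / 2) ≤ C₀ * SS Q k := mul_le_mul_of_nonneg_left h.S_ge h1
  linarith

theorem mO_sum (h : TK N Q L η C₀ k) : ∑ x ∈ Q, mO Q k x = 1 := by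
  unfold mO
  rw [← Finset.sum_div]
  exact div_self (SS_pos h).ne'

theorem mO_supp (h : TK N Q L η C₀ k) {x : ℕ} (hx : x ∉ Q) : mO Q k x = 0 := by
  unfold mO
  rw [VV_supp h hx, zero_div]

theorem mO_zero_iff (h : TK N Q L η C₀ k) (x : ℕ) : mO Q k x = 0 ↔ VV Q k x = 0 := by
  unfold mO
  constructor
  · intro h1
    rcases div_eq_zero_iff.mp h1 with h2 | h2
    · exact h2
    · exact absurd h2 (SS_pos h).ne'
  · intro h1
    rw [h1, zero_div]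

theorem k_zero (h : TK N Q L η C₀ k) {x : ℕ} (hx : VV Q k x = 0) (y : ℕ) : k x y = 0 := by
  by_contra h1
  have h2 := (h.supp x y h1).2.1
  exact h1 ((Finset.sum_eq_zero_iff_of_nonneg fun z _ => h.nn x z).mp hx y h2)

theorem mO_ge (h : TK N Q L η C₀ k) {x : ℕ} (hx : x ∈ Q) (hx2 : 3 * N ≤ 5 * x) :
    1 / (6 * (N : ℝ)) ≤ mO Q k x := by
  have hN := typ3a_N h
  have hxN : x ≤ N := (Finset.mem_Icc.mp (h.tq.Q_sub hx)).2
  have h1 := Hs_card h.tq hxN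
  have h2 : ∑ _y ∈ Hs N Q x, 1 / (N : ℝ) ≤ VV Q k x := by
    calc ∑ _y ∈ Hs N Q x, 1 / (N : ℝ) ≤ ∑ y ∈ Hs N Q x, k x y := by
          refine Finset.sum_le_sum fun y hy => ?_
          have h3 := mem_Hs.mp hy
          exact h.ge x y hx h3.1 h3.2.2.1.symm h3.2.2.2 hx2 h3.2.1
      _ ≤ ∑ y ∈ Q, k x y := Finset.sum_le_sum_of_subset_of_nonneg
          (fun y hy => (mem_Hs.mp hy).1) fun y _ _ => h.nn x y
  rw [Finset.sum_const, nsmul_eq_mul] at h2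
  have h4 : 1 / 3 ≤ VV Q k x := by
    refine le_trans ?_ h2
    have h5 : (N : ℝ) / 3 * (1 / N) ≤ ((Hs N Q x).card : ℝ) * (1 / N) :=
      mul_le_mul_of_nonneg_right h1 (by positivity)
    refine le_trans (le_of_eq ?_) h5
    field_simp
  unfold mO
  rw [div_le_div_iff₀ (by positivity) (SS_pos h)]
  have h6 := h.S_le
  have h7 : 1 / 3 * (6 * (N : ℝ)) ≤ VV Q k x * (6 * N) :=
    mul_le_mul_of_nonneg_right h4 (by positivity)
  linarith

private theorem typ3b_N (h : TK N Q L η C₀ k) : (0 : ℝ) < N := by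
  have h1 : 10 ^ 6 ≤ N := h.tq.big
  have h2 : 0 < N := by omega
  exact_mod_cast h2

private theorem typ3b_kS (h : TK N Q L η C₀ k) {x y : ℕ} (hx : x ∈ Q) (hy : y ∈ Q) (hne : x ≠ y)
    (hd : dd x y ∈ Q) (hx2 : 3 * N ≤ 5 * x) (hy2 : 3 * N ≤ 5 * y) :
    1 / (2 * (N : ℝ) ^ 2) ≤ k x y / SS Q k := by
  have hN := typ3b_N h
  have hS := SS_pos h
  have h1 := h.ge x y hx hy hne hd hx2 hy2
  have h2 := h.S_le
  rw [le_div_iff₀ hS]
  calc 1 / (2 * (N : ℝ) ^ 2) * SS Q k ≤ 1 / (2 * (N : ℝ) ^ 2) * (2 * N) :=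
        mul_le_mul_of_nonneg_left h2 (by positivity)
    _ = 1 / N := by field_simp
    _ ≤ k x y := h1

private theorem typ3b_key (h : TK N Q L η C₀ k) {t : ℝ} (ht : t ≤ 9 / (N : ℝ) ^ 2) (ht0 : 0 ≤ t) :
    η * t ≤ 1 / (2 * (N : ℝ) ^ 2) := by
  have hN := typ3b_N h
  calc η * t ≤ (1 / 36) * (9 / (N : ℝ) ^ 2) :=
        mul_le_mul h.η_le ht ht0 (by norm_num)
    _ = (1 / 4) / (N : ℝ) ^ 2 := by ring
    _ ≤ (1 / 2) / (N : ℝ) ^ 2 := by
        apply div_le_div_of_nonneg_right (by norm_num) (by positivity)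
    _ = 1 / (2 * (N : ℝ) ^ 2) := by field_simp

private theorem typ3b_key2 (h : TK N Q L η C₀ k) {t : ℝ} (ht : t ≤ 3 / (N : ℝ)) (ht0 : 0 ≤ t) :
    η * t ≤ 1 / (6 * (N : ℝ)) / 2 := by
  have hN := typ3b_N h
  calc η * t ≤ (1 / 36) * (3 / (N : ℝ)) :=
        mul_le_mul h.η_le ht ht0 (by norm_num)
    _ = 1 / (6 * (N : ℝ)) / 2 := by field_simp; norm_num

private theorem typ3b_leN (h : TK N Q L η C₀ k) {x : ℕ} (hx : x ∈ Q) : x ≤ N :=
  (mem_Icc.1 (h.tq.Q_sub hx)).2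

private theorem typ3b_kS0 (h : TK N Q L η C₀ k) (x y : ℕ) : 0 ≤ k x y / SS Q k :=
  div_nonneg (h.nn x y) (SS_pos h).le

theorem JJ_nonneg (h : TK N Q L η C₀ k) (x y : ℕ) : 0 ≤ JJ N Q L η k x y := by
  unfold JJ
  by_cases hg : GG N Q L x y = 0
  · rw [hg, mul_zero, sub_zero]
    exact typ3b_kS0 h x y
  · obtain ⟨h1, h2, h3, h4, h5, h6⟩ := GG_supp hg
    have h7 := typ3b_kS h h1 h2 h3 h4 h5 h6
    have h8 := typ3b_key h (GG_le h.tq x y) (GG_nonneg x y)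
    linarith

theorem AA_nonneg (h : TK N Q L η C₀ k) (x y : ℕ) : 0 ≤ AA N Q L η k x y := by
  unfold AA
  by_cases hg : gg N Q L x * pu N Q x y = 0
  · rw [hg, mul_zero, sub_zero]
    exact typ3b_kS0 h x y
  · obtain ⟨h1, h5⟩ := gg_supp (left_ne_zero_of_mul hg)
    obtain ⟨h2, h6, h3, h4⟩ := pu_supp (right_ne_zero_of_mul hg)
    have h7 := typ3b_kS h h1 h2 (Ne.symm h3) h4 h5 h6
    have hN := typ3b_N h
    have h9 : gg N Q L x * pu N Q x y ≤ 9 / (N : ℝ) ^ 2 := by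
      calc gg N Q L x * pu N Q x y ≤ (3 / (N : ℝ)) * (3 / (N : ℝ)) :=
            mul_le_mul (gg_le h.tq x) (pu_le h.tq (typ3b_leN h h1) y) (pu_nonneg x y) (by positivity)
        _ = 9 / (N : ℝ) ^ 2 := by field_simp; norm_num
    have h8 := typ3b_key h h9 (mul_nonneg (gg_nonneg x) (pu_nonneg x y))
    linarith

theorem JJ_le (h : TK N Q L η C₀ k) (x y : ℕ) : JJ N Q L η k x y ≤ k x y / SS Q k := by
  unfold JJ
  have := mul_nonneg h.η_nn (GG_nonneg (N := N) (Q := Q) (L := L) x y)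
  linarith

theorem AA_le (h : TK N Q L η C₀ k) (x y : ℕ) : AA N Q L η k x y ≤ k x y / SS Q k := by
  unfold AA
  have := mul_nonneg h.η_nn (mul_nonneg (gg_nonneg (N := N) (Q := Q) (L := L) x)
    (pu_nonneg (N := N) (Q := Q) x y))
  linarith

theorem mP_ge (h : TK N Q L η C₀ k) (x : ℕ) : mO Q k x / 2 ≤ mP N Q L η k x := by
  unfold mP
  by_cases hg : gg N Q L x = 0
  · rw [hg, mul_zero, sub_zero]
    linarith [mO_nonneg h x]
  · obtain ⟨h1, h5⟩ := gg_supp hg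
    have h2 := mO_ge h h1 h5
    have h8 := typ3b_key2 h (gg_le h.tq x) (gg_nonneg x)
    linarith

theorem mU_ge (h : TK N Q L η C₀ k) (x : ℕ) : mO Q k x / 2 ≤ mU N Q L η k x := by
  unfold mU
  by_cases hg : qU N Q L x = 0
  · rw [hg, mul_zero, sub_zero]
    linarith [mO_nonneg h x]
  · obtain ⟨h1, h5⟩ := qU_supp hg
    have h2 := mO_ge h h1 h5
    have h8 := typ3b_key2 h (qU_le h.tq x) (qU_nonneg x)
    linarith

theorem mP_le (h : TK N Q L η C₀ k) (x : ℕ) : mP N Q L η k x ≤ mO Q k x := by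
  unfold mP
  have := mul_nonneg h.η_nn (gg_nonneg (N := N) (Q := Q) (L := L) x)
  linarith

theorem mU_le (h : TK N Q L η C₀ k) (x : ℕ) : mU N Q L η k x ≤ mO Q k x := by
  unfold mU
  have := mul_nonneg h.η_nn (qU_nonneg (N := N) (Q := Q) (L := L) x)
  linarith

theorem JJ_sum_right (h : TK N Q L η C₀ k) (x : ℕ) : ∑ y ∈ Q, JJ N Q L η k x y = mP N Q L η k x := by
  unfold JJ mP mO VV gg
  rw [sum_sub_distrib, mul_sum, sum_div]

theorem JJ_sum_left (h : TK N Q L η C₀ k) (y : ℕ) :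
    ∑ x ∈ Q, JJ N Q L η k x y = mO Q k y - η * mst N Q L y := by
  unfold JJ
  rw [sum_sub_distrib, ← mul_sum, GG_sum_left h.tq y]
  unfold mO VV
  rw [sum_div]
  congr 1
  exact sum_congr rfl (fun x _ => by rw [h.symm x y])

theorem AA_sum_right (h : TK N Q L η C₀ k) (x : ℕ) : ∑ y ∈ Q, AA N Q L η k x y = mP N Q L η k x := by
  unfold AA
  rw [sum_sub_distrib, ← mul_sum, ← mul_sum]
  have h1 : gg N Q L x * ∑ y ∈ Q, pu N Q x y = gg N Q L x := by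
    by_cases hg : gg N Q L x = 0
    · rw [hg, zero_mul]
    · rw [pu_sum h.tq (typ3b_leN h (gg_supp hg).1), mul_one]
  rw [h1]
  unfold mP mO VV
  rw [sum_div]

theorem AA_sum_left (h : TK N Q L η C₀ k) (y : ℕ) : ∑ x ∈ Q, AA N Q L η k x y = mU N Q L η k y := by
  unfold AA
  rw [sum_sub_distrib, ← mul_sum]
  unfold mU mO VV qU
  rw [sum_div]
  congr 1
  exact sum_congr rfl (fun x _ => by rw [h.symm x y])

/-- `k x y / VV x ≤ C₀^2 / N` -/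
theorem k_div (h : TK N Q L η C₀ k) (x y : ℕ) : k x y / VV Q k x ≤ C₀ ^ 2 / N := by
  have hN := typ3a_N h
  have hC : 0 < C₀ := lt_of_lt_of_le one_pos h.C_ge
  by_cases h0 : VV Q k x = 0
  · rw [h0, div_zero]
    positivity
  · have hx : x ∈ Q := by
      by_contra hx
      exact h0 (VV_supp h hx)
    have h1 := h.V_ge x hx h0
    have h2 := h.le x y
    have h3 : 0 < VV Q k x := lt_of_lt_of_le (by positivity) h1
    rw [div_le_iff₀ h3]
    refine le_trans h2 ?_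
    have h4 : C₀ ^ 2 / (N : ℝ) * (1 / C₀) ≤ C₀ ^ 2 / (N : ℝ) * VV Q k x :=
      mul_le_mul_of_nonneg_left h1 (by positivity)
    refine le_trans (le_of_eq ?_) h4
    field_simp

end SSB
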