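import Pool.Agent.Lib.MP_8a819d_co.BD.Typ3

/-!
# MP_8a819d_co: the typed Markov chain, 4. Transition probabilities: sums and consistency

JOB Typ4a: `MM_nonneg`, `MM_supp`, `MM_sum`, `KK_nonneg`, `KK_sum`.
JOB Typ4b: `KK_cons`.

All sums over `range (N + 1)`; all functions of the child (parent) label vanish outside `Q ∪ L` (for
`JJ`, `AA`, `k`: outside `Q`), `Q`, `L` are disjoint subsets of `[1, N]`. So split the sums into `Q` and `L`.

4a. `MM_sum`: type `P`: `∑ Q (mO - η gg) + |L| (η / |L|) = 1 - η + η`; type `U` the same with `qU`.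
`KK_sum` (for every `x`, also `x` outside `Q ∪ L`, where the default law `mO` is used: if `x ∉ Q` then
`VV x = mO x = 0`; `mP x = 0` and `mU x = 0` for `x ∉ Q` since `gg`, `qU` vanish):
* (O,O): `∑ k x y / VV x = 1`, or `∑ mO = 1`.
* (O,P), `mO x ≠ 0`: `∑ y ∈ Q, JJ y x = mO x - η mst x` (`JJ_sum_left`), `∑ y ∈ L, (η/|L|) pu y x = η mst x`. Sum
  `mO x`, divide.
* (P,O): `x ∈ L`: `pu_sum`; `mP x ≠ 0`: `JJ_sum_right`.
* (P,U): `x ∈ L`: the single term `y = x` (`x ≤ N`); otherwise `AA_sum_right`.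
* (U,P): `x ∈ L`: the single term `y = prt x ∈ L`; otherwise `∑ y, AA y x = mU x` (`AA_sum_left`).
4b. `KK_cons`: `∑ x, MM a x * KK a b x y = MM b y` for `y ≤ N`:
* (O,O): `mO x * (k x y / VV x) = k x y / SS` (also if `VV x = 0`, `k_zero`); the sum is `VV y / SS`.
* (O,P): `y ∈ Q`: `mO x * (JJ y x / mO x) = JJ y x` if `mO x ≠ 0`; if `mO x = 0` both sides vanish (`mO x = 0`
  gives `k y x = 0`, and `GG y x ≠ 0` would give `x ∈ Q`, `x ≥ 0.6 N`, so `mO x > 0` by `mO_ge`). Sum
  `JJ_sum_right = mP y`. `y ∈ L`: `mO x * ((η/|L|) pu y x / mO x) = (η/|L|) pu y x` (if `mO x = 0` then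
  `pu y x = 0` by `pu_supp`, `mO_ge`, and the default term is multiplied by `0`); sum `η/|L|`.
  `y ∉ Q ∪ L`: everything is `0` (`JJ y x = 0`, `mP y = 0`).
* (P,O): `y ∈ Q`: `∑ x ∈ Q, JJ x y + ∑ x ∈ L, (η/|L|) pu x y = mO y - η mst y + η mst y`. (if `mP x = 0` then
  `mO x = 0` by `mP_ge` and `JJ x y = 0`.)
* (P,U): `y ∈ Q`: `∑ x ∈ Q AA x y = mU y` (the special `x ∈ L` contribute only to `y = x ∈ L`); `y ∈ L`: only
  `x = y`: `η/|L|`.
* (U,P): `y ∈ Q`: `∑ x ∈ Q, AA y x = mP y`; `y ∈ L`: only `x = prt y`.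
-/

set_option autoImplicit false

namespace SSB

open Finset

variable {N t : ℕ} {Q L : Finset ℕ} {rp prt : ℕ → ℕ} {η C₀ : ℝ} {k : ℕ → ℕ → ℝ}

private theorem typ4a_mP_nn (h : TK N Q L η C₀ k) (x : ℕ) : 0 ≤ mP N Q L η k x :=
  (div_nonneg (mO_nonneg h x) zero_le_two).trans (mP_ge h x)

private theorem typ4a_mU_nn (h : TK N Q L η C₀ k) (x : ℕ) : 0 ≤ mU N Q L η k x :=
  (div_nonneg (mO_nonneg h x) zero_le_two).trans (mU_ge h x)

private theorem typ4a_mP_supp (h : TK N Q L η C₀ k) {x : ℕ} (hx : x ∉ Q) :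
    mP N Q L η k x = 0 := by
  have h1 : gg N Q L x = 0 := by
    by_contra hcon
    exact hx (gg_supp hcon).1
  unfold mP
  rw [mO_supp h hx, h1, mul_zero, sub_zero]

private theorem typ4a_mU_supp (h : TK N Q L η C₀ k) {x : ℕ} (hx : x ∉ Q) :
    mU N Q L η k x = 0 := by
  have h1 : qU N Q L x = 0 := by
    by_contra hcon
    exact hx (qU_supp hcon).1
  unfold mU
  rw [mO_supp h hx, h1, mul_zero, sub_zero]

private theorem typ4a_notQ (h : TK N Q L η C₀ k) {x : ℕ} (hx : x ∈ L) : x ∉ Q :=
  fun hq => (Finset.disjoint_left.1 h.tq.QL hq) hx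

private theorem typ4a_notL (h : TK N Q L η C₀ k) {x : ℕ} (hx : x ∈ Q) : x ∉ L :=
  Finset.disjoint_left.1 h.tq.QL hx

private theorem typ4a_le (h : TK N Q L η C₀ k) {x : ℕ} (hx : x ∈ L) : x ≤ N :=
  (Finset.mem_Icc.1 (h.tq.L_sub hx)).2

/-- splitting of the sums -/
private theorem typ4a_split (h : TK N Q L η C₀ k) (f : ℕ → ℝ)
    (hf : ∀ x, x ∉ Q → x ∉ L → f x = 0) :
    ∑ x ∈ range (N + 1), f x = ∑ x ∈ Q, f x + ∑ x ∈ L, f x := by
  rw [← Finset.sum_union h.tq.QL]
  symm
  refine Finset.sum_subset ?_ fun x _ hx => ?_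
  · intro x hx
    rw [Finset.mem_range]
    rcases Finset.mem_union.1 hx with h1 | h1
    · have := (Finset.mem_Icc.1 (h.tq.Q_sub h1)).2
      omega
    · have := (Finset.mem_Icc.1 (h.tq.L_sub h1)).2
      omega
  · rw [Finset.mem_union, not_or] at hx
    exact hf x hx.1 hx.2

/-- sums of functions supported by `Q` -/
private theorem typ4a_splitQ (h : TK N Q L η C₀ k) (f : ℕ → ℝ)
    (hf : ∀ x, x ∉ Q → f x = 0) :
    ∑ x ∈ range (N + 1), f x = ∑ x ∈ Q, f x := by
  rw [typ4a_split h f fun x hx _ => hf x hx,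
    Finset.sum_eq_zero (s := L) fun x hx => hf x (typ4a_notQ h hx), add_zero]

private theorem typ4a_mO_sum (h : TK N Q L η C₀ k) : ∑ x ∈ range (N + 1), mO Q k x = 1 := by
  rw [typ4a_splitQ h _ fun x hx => mO_supp h hx, mO_sum h]

private theorem typ4a_k (h : TK N Q L η C₀ k) {x y : ℕ} (hy : y ∉ Q) :
    k x y = 0 ∧ k y x = 0 := by
  have h1 : k x y = 0 := by
    by_contra hcon
    exact hy (h.supp x y hcon).2.1
  exact ⟨h1, by rw [h.symm, h1]⟩

private theorem typ4a_JJ_right (h : TK N Q L η C₀ k) {x y : ℕ} (hy : y ∉ Q) :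
    JJ N Q L η k x y = 0 := by
  have h1 : GG N Q L x y = 0 := by
    by_contra hcon
    exact hy (GG_supp hcon).2.1
  unfold JJ
  rw [(typ4a_k h hy).1, h1, zero_div, mul_zero, sub_zero]

private theorem typ4a_JJ_left (h : TK N Q L η C₀ k) {x y : ℕ} (hy : y ∉ Q) :
    JJ N Q L η k y x = 0 := by
  have h1 : GG N Q L y x = 0 := by
    by_contra hcon
    exact hy (GG_supp hcon).1
  unfold JJ
  rw [(typ4a_k h hy).2, h1, zero_div, mul_zero, sub_zero]

private theorem typ4a_AA_right (h : TK N Q L η C₀ k) {x y : ℕ} (hy : y ∉ Q) :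
    AA N Q L η k x y = 0 := by
  have h1 : pu N Q x y = 0 := by
    by_contra hcon
    exact hy (pu_supp hcon).1
  unfold AA
  rw [(typ4a_k h hy).1, h1, zero_div, mul_zero, mul_zero, sub_zero]

private theorem typ4a_AA_left (h : TK N Q L η C₀ k) {x y : ℕ} (hy : y ∉ Q) :
    AA N Q L η k y x = 0 := by
  have h1 : gg N Q L y = 0 := by
    by_contra hcon
    exact hy (gg_supp hcon).1
  unfold AA
  rw [(typ4a_k h hy).2, h1, zero_div, zero_mul, mul_zero, sub_zero]

private theorem typ4a_delta {z : ℕ} (hz : z ≤ N) :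
    ∑ y ∈ range (N + 1), (if y = z then (1 : ℝ) else 0) = 1 := by
  rw [Finset.sum_ite_eq' (range (N + 1)) z fun _ => (1 : ℝ),
    if_pos (Finset.mem_range.2 (Nat.lt_succ_of_le hz))]

private theorem typ4a_Lpos (h : TK N Q L η C₀ k) : (0 : ℝ) < L.card :=
  Nat.cast_pos.2 h.tq.L_ne.card_pos

private theorem typ4a_ηL (h : TK N Q L η C₀ k) : 0 ≤ η / (L.card : ℝ) :=
  div_nonneg h.η_nn (Nat.cast_nonneg _)

theorem MM_nonneg (h : TK N Q L η C₀ k) (a : Ty) (x : ℕ) : 0 ≤ MM N Q L η k a x := by
  cases a with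
  | O => exact mO_nonneg h x
  | P =>
    change 0 ≤ if x ∈ L then η / (L.card : ℝ) else mP N Q L η k x
    split_ifs
    · exact typ4a_ηL h
    · exact typ4a_mP_nn h x
  | U =>
    change 0 ≤ if x ∈ L then η / (L.card : ℝ) else mU N Q L η k x
    split_ifs
    · exact typ4a_ηL h
    · exact typ4a_mU_nn h x

/-- the laws live on `Q ∪ L`, that of type `O` on `Q` -/
theorem MM_supp (h : TK N Q L η C₀ k) {a : Ty} {x : ℕ} (hx : MM N Q L η k a x ≠ 0) :
    (x ∈ Q ∧ mO Q k x ≠ 0) ∨ (x ∈ L ∧ a ≠ Ty.O) := by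
  have hO : mO Q k x ≠ 0 → x ∈ Q := fun h1 => by
    by_contra hcon
    exact h1 (mO_supp h hcon)
  by_cases hL : x ∈ L
  · by_cases ha : a = Ty.O
    · subst ha
      left
      exact ⟨hO hx, hx⟩
    · exact Or.inr ⟨hL, ha⟩
  · left
    have h1 : mO Q k x ≠ 0 := by
      intro h0
      apply hx
      cases a with
      | O => exact h0
      | P =>
        change (if x ∈ L then η / (L.card : ℝ) else mP N Q L η k x) = 0
        rw [if_neg hL]
        exact le_antisymm ((mP_le h x).trans_eq h0) (typ4a_mP_nn h x)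
      | U =>
        change (if x ∈ L then η / (L.card : ℝ) else mU N Q L η k x) = 0
        rw [if_neg hL]
        exact le_antisymm ((mU_le h x).trans_eq h0) (typ4a_mU_nn h x)
    exact ⟨hO h1, h1⟩

theorem MM_sum (h : TK N Q L η C₀ k) (a : Ty) : ∑ x ∈ range (N + 1), MM N Q L η k a x = 1 := by
  have hL0 := typ4a_Lpos h
  have hLs : ∑ x ∈ L, (if x ∈ L then η / (L.card : ℝ) else 0) = η := by
    rw [Finset.sum_congr rfl fun x hx => if_pos hx, Finset.sum_const, nsmul_eq_mul]
    field_simp
  cases a with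
  | O => exact typ4a_mO_sum h
  | P =>
    change ∑ x ∈ range (N + 1), (if x ∈ L then η / (L.card : ℝ) else mP N Q L η k x) = 1
    rw [typ4a_split h _ fun x hx hx' => by rw [if_neg hx', typ4a_mP_supp h hx]]
    have h1 : ∑ x ∈ Q, (if x ∈ L then η / (L.card : ℝ) else mP N Q L η k x) = 1 - η := by
      rw [Finset.sum_congr rfl fun x hx => if_neg (typ4a_notL h hx)]
      unfold mP
      rw [Finset.sum_sub_distrib, ← Finset.mul_sum, mO_sum h, gg_sum h.tq, mul_one]
    have h2 : ∑ x ∈ L, (if x ∈ L then η / (L.card : ℝ) else mP N Q L η k x) = η := by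
      refine Eq.trans (Finset.sum_congr rfl fun x hx => ?_) hLs
      rw [if_pos hx, if_pos hx]
    rw [h1, h2, sub_add_cancel]
  | U =>
    change ∑ x ∈ range (N + 1), (if x ∈ L then η / (L.card : ℝ) else mU N Q L η k x) = 1
    rw [typ4a_split h _ fun x hx hx' => by rw [if_neg hx', typ4a_mU_supp h hx]]
    have h1 : ∑ x ∈ Q, (if x ∈ L then η / (L.card : ℝ) else mU N Q L η k x) = 1 - η := by
      rw [Finset.sum_congr rfl fun x hx => if_neg (typ4a_notL h hx)]
      unfold mU
      rw [Finset.sum_sub_distrib, ← Finset.mul_sum, mO_sum h, qU_sum h.tq, mul_one]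
    have h2 : ∑ x ∈ L, (if x ∈ L then η / (L.card : ℝ) else mU N Q L η k x) = η := by
      refine Eq.trans (Finset.sum_congr rfl fun x hx => ?_) hLs
      rw [if_pos hx, if_pos hx]
    rw [h1, h2, sub_add_cancel]

theorem KK_nonneg (h : TK N Q L η C₀ k) (a b : Ty) (x y : ℕ) : 0 ≤ KK N Q L prt η k a b x y := by
  have hm := mO_nonneg h y
  have hd : ∀ z : ℕ, (0 : ℝ) ≤ if y = z then 1 else 0 := by
    intro z
    split_ifs
    · exact zero_le_one
    · exact le_refl _
  cases a with
  | O =>
    cases b with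
    | O =>
      change 0 ≤ if VV Q k x = 0 then mO Q k y else k x y / VV Q k x
      split_ifs
      · exact hm
      · exact div_nonneg (h.nn x y) (VV_nonneg h x)
    | P =>
      change 0 ≤ if mO Q k x = 0 then mO Q k y else
        if y ∈ L then (η / L.card) * pu N Q y x / mO Q k x else JJ N Q L η k y x / mO Q k x
      split_ifs
      · exact hm
      · exact div_nonneg (mul_nonneg (typ4a_ηL h) (pu_nonneg y x)) (mO_nonneg h x)
      · exact div_nonneg (JJ_nonneg h y x) (mO_nonneg h x)
    | U => exact le_refl _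
  | P =>
    cases b with
    | O =>
      change 0 ≤ if x ∈ L then pu N Q x y else
        if mP N Q L η k x = 0 then mO Q k y else JJ N Q L η k x y / mP N Q L η k x
      split_ifs
      · exact pu_nonneg x y
      · exact hm
      · exact div_nonneg (JJ_nonneg h x y) (typ4a_mP_nn h x)
    | P => exact le_refl _
    | U =>
      change 0 ≤ if x ∈ L then (if y = x then 1 else 0) else
        if mP N Q L η k x = 0 then mO Q k y else AA N Q L η k x y / mP N Q L η k x
      by_cases h1 : x ∈ L
      · rw [if_pos h1]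
        exact hd x
      · rw [if_neg h1]
        split_ifs
        · exact hm
        · exact div_nonneg (AA_nonneg h x y) (typ4a_mP_nn h x)
  | U =>
    cases b with
    | O => exact le_refl _
    | P =>
      change 0 ≤ if x ∈ L then (if y = prt x then 1 else 0) else
        if mU N Q L η k x = 0 then mO Q k y else AA N Q L η k y x / mU N Q L η k x
      by_cases h1 : x ∈ L
      · rw [if_pos h1]
        exact hd (prt x)
      · rw [if_neg h1]
        split_ifs
        · exact hm
        · exact div_nonneg (AA_nonneg h y x) (typ4a_mU_nn h x)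
    | U => exact le_refl _

private theorem typ4a_OO (h : TK N Q L η C₀ k) (x : ℕ) :
    ∑ y ∈ range (N + 1), (if VV Q k x = 0 then mO Q k y else k x y / VV Q k x) = 1 := by
  by_cases h0 : VV Q k x = 0
  · simp only [if_pos h0]
    exact typ4a_mO_sum h
  · simp only [if_neg h0]
    rw [typ4a_splitQ h _ fun y hy => by rw [(typ4a_k h hy).1, zero_div], ← Finset.sum_div]
    exact div_self h0

private theorem typ4a_OP (h : TK N Q L η C₀ k) (x : ℕ) :
    ∑ y ∈ range (N + 1), (if mO Q k x = 0 then mO Q k y else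
        if y ∈ L then (η / L.card) * pu N Q y x / mO Q k x else
          JJ N Q L η k y x / mO Q k x) = 1 := by
  by_cases h0 : mO Q k x = 0
  · simp only [if_pos h0]
    exact typ4a_mO_sum h
  · simp only [if_neg h0]
    rw [typ4a_split h _ fun y hy hy' => by rw [if_neg hy', typ4a_JJ_left h hy, zero_div]]
    have h1 : ∑ y ∈ Q, (if y ∈ L then (η / L.card) * pu N Q y x / mO Q k x else
        JJ N Q L η k y x / mO Q k x) = (mO Q k x - η * mst N Q L x) / mO Q k x := by
      rw [Finset.sum_congr rfl fun y hy => if_neg (typ4a_notL h hy), ← Finset.sum_div,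
        JJ_sum_left h]
    have h2 : ∑ y ∈ L, (if y ∈ L then (η / L.card) * pu N Q y x / mO Q k x else
        JJ N Q L η k y x / mO Q k x) = η * mst N Q L x / mO Q k x := by
      rw [Finset.sum_congr rfl fun y hy => if_pos hy, ← Finset.sum_div, ← Finset.mul_sum]
      unfold mst
      congr 1
      ring
    rw [h1, h2, ← add_div, sub_add_cancel]
    exact div_self h0

private theorem typ4a_PO (h : TK N Q L η C₀ k) (x : ℕ) :
    ∑ y ∈ range (N + 1), (if x ∈ L then pu N Q x y else
        if mP N Q L η k x = 0 then mO Q k y else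
          JJ N Q L η k x y / mP N Q L η k x) = 1 := by
  by_cases hx : x ∈ L
  · simp only [if_pos hx]
    rw [typ4a_splitQ h _ fun y hy => by
      by_contra hcon
      exact hy (pu_supp hcon).1]
    exact pu_sum h.tq (typ4a_le h hx)
  · simp only [if_neg hx]
    by_cases h0 : mP N Q L η k x = 0
    · simp only [if_pos h0]
      exact typ4a_mO_sum h
    · simp only [if_neg h0]
      rw [typ4a_splitQ h _ fun y hy => by rw [typ4a_JJ_right h hy, zero_div], ← Finset.sum_div,
        JJ_sum_right h]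
      exact div_self h0

private theorem typ4a_PU (h : TK N Q L η C₀ k) (x : ℕ) :
    ∑ y ∈ range (N + 1), (if x ∈ L then (if y = x then 1 else 0) else
        if mP N Q L η k x = 0 then mO Q k y else
          AA N Q L η k x y / mP N Q L η k x) = 1 := by
  by_cases hx : x ∈ L
  · simp only [if_pos hx]
    exact typ4a_delta (typ4a_le h hx)
  · simp only [if_neg hx]
    by_cases h0 : mP N Q L η k x = 0
    · simp only [if_pos h0]
      exact typ4a_mO_sum h
    · simp only [if_neg h0]
      rw [typ4a_splitQ h _ fun y hy => by rw [typ4a_AA_right h hy, zero_div], ← Finset.sum_div,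
        AA_sum_right h]
      exact div_self h0

private theorem typ4a_UP (he : Env N t Q L rp prt) (h : TK N Q L η C₀ k) (x : ℕ) :
    ∑ y ∈ range (N + 1), (if x ∈ L then (if y = prt x then 1 else 0) else
        if mU N Q L η k x = 0 then mO Q k y else
          AA N Q L η k y x / mU N Q L η k x) = 1 := by
  by_cases hx : x ∈ L
  · simp only [if_pos hx]
    exact typ4a_delta (typ4a_le h (he.prt_mem x hx))
  · simp only [if_neg hx]
    by_cases h0 : mU N Q L η k x = 0
    · simp only [if_pos h0]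
      exact typ4a_mO_sum h
    · simp only [if_neg h0]
      rw [typ4a_splitQ h _ fun y hy => by rw [typ4a_AA_left h hy, zero_div], ← Finset.sum_div,
        AA_sum_left h]
      exact div_self h0

theorem KK_sum (he : Env N t Q L rp prt) (h : TK N Q L η C₀ k) {a b : Ty} (hab : okTy a b = true)
    (x : ℕ) : ∑ y ∈ range (N + 1), KK N Q L prt η k a b x y = 1 := by
  cases a with
  | O =>
    cases b with
    | O => exact typ4a_OO h x
    | P => exact typ4a_OP h x
    | U => exact absurd hab (by decide)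
  | P =>
    cases b with
    | O => exact typ4a_PO h x
    | P => exact absurd hab (by decide)
    | U => exact typ4a_PU h x
  | U =>
    cases b with
    | O => exact absurd hab (by decide)
    | P => exact typ4a_UP he h x
    | U => exact absurd hab (by decide)

private theorem typ4b_N_pos (h : TK N Q L η C₀ k) : (0 : ℝ) < N := by
  have h1 := h.tq.big
  have h2 : 0 < N := by omega
  exact_mod_cast h2

private theorem typ4b_mO_ne (h : TK N Q L η C₀ k) {x : ℕ} (hx : x ∈ Q) (hx2 : 3 * N ≤ 5 * x) :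
    mO Q k x ≠ 0 := by
  have h1 := mO_ge h hx hx2
  have h2 : 0 < 1 / (6 * (N : ℝ)) := by
    have := typ4b_N_pos h
    positivity
  intro h3
  rw [h3] at h1
  exact absurd h1 (not_le.2 h2)

private theorem typ4b_pu_zero (h : TK N Q L η C₀ k) {x : ℕ} (hx : mO Q k x = 0) (y : ℕ) :
    pu N Q y x = 0 := by
  by_contra hc
  obtain ⟨h1, h2, -⟩ := pu_supp hc
  exact typ4b_mO_ne h h1 h2 hx

private theorem typ4b_gg_zero (h : TK N Q L η C₀ k) {x : ℕ} (hx : mO Q k x = 0) :
    gg N Q L x = 0 := by
  by_contra hc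
  obtain ⟨h1, h2⟩ := gg_supp hc
  exact typ4b_mO_ne h h1 h2 hx

private theorem typ4b_k_zero (h : TK N Q L η C₀ k) {x : ℕ} (hx : mO Q k x = 0) (y : ℕ) :
    k x y = 0 :=
  k_zero h ((mO_zero_iff h x).1 hx) y

private theorem typ4b_JJ_left (h : TK N Q L η C₀ k) {x : ℕ} (hx : mO Q k x = 0) (y : ℕ) :
    JJ N Q L η k x y = 0 := by
  have h1 : GG N Q L x y = 0 := by
    by_contra hc
    obtain ⟨h1, -, -, -, h2, -⟩ := GG_supp hc
    exact typ4b_mO_ne h h1 h2 hx
  rw [JJ, h1, typ4b_k_zero h hx]
  simp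

private theorem typ4b_JJ_right (h : TK N Q L η C₀ k) {x : ℕ} (hx : mO Q k x = 0) (y : ℕ) :
    JJ N Q L η k y x = 0 := by
  have h1 : GG N Q L y x = 0 := by
    by_contra hc
    obtain ⟨-, h1, -, -, -, h2⟩ := GG_supp hc
    exact typ4b_mO_ne h h1 h2 hx
  rw [JJ, h1, h.symm, typ4b_k_zero h hx]
  simp

private theorem typ4b_AA_left (h : TK N Q L η C₀ k) {x : ℕ} (hx : mO Q k x = 0) (y : ℕ) :
    AA N Q L η k x y = 0 := by
  rw [AA, typ4b_gg_zero h hx, typ4b_k_zero h hx]
  simp

private theorem typ4b_AA_right (h : TK N Q L η C₀ k) {x : ℕ} (hx : mO Q k x = 0) (y : ℕ) :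
    AA N Q L η k y x = 0 := by
  rw [AA, typ4b_pu_zero h hx, h.symm, typ4b_k_zero h hx]
  simp

private theorem typ4b_mP (h : TK N Q L η C₀ k) {x : ℕ} (hx : mP N Q L η k x = 0) :
    mO Q k x = 0 := by
  have h1 := mP_ge h x
  have h2 := mO_nonneg h x
  rw [hx] at h1
  linarith

private theorem typ4b_mU (h : TK N Q L η C₀ k) {x : ℕ} (hx : mU N Q L η k x = 0) :
    mO Q k x = 0 := by
  have h1 := mU_ge h x
  have h2 := mO_nonneg h x
  rw [hx] at h1
  linarith

private theorem typ4b_OO (h : TK N Q L η C₀ k) (x y : ℕ) :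
    MM N Q L η k Ty.O x * KK N Q L prt η k Ty.O Ty.O x y = k x y / SS Q k := by
  change mO Q k x * (if VV Q k x = 0 then mO Q k y else k x y / VV Q k x) = _
  split_ifs with hV
  · rw [(mO_zero_iff h x).2 hV, k_zero h hV]
    simp
  · have := (SS_pos h).ne'
    rw [mO]
    field_simp

private theorem typ4b_OP (h : TK N Q L η C₀ k) (x y : ℕ) :
    MM N Q L η k Ty.O x * KK N Q L prt η k Ty.O Ty.P x y =
      if y ∈ L then (η / L.card) * pu N Q y x else JJ N Q L η k y x := by
  change mO Q k x * (if mO Q k x = 0 then mO Q k y else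
      if y ∈ L then (η / L.card) * pu N Q y x / mO Q k x else JJ N Q L η k y x / mO Q k x) = _
  by_cases hx : mO Q k x = 0
  · rw [typ4b_pu_zero h hx, typ4b_JJ_right h hx, hx]
    simp
  · rw [if_neg hx]
    split_ifs
    · rw [mul_div_assoc', mul_div_cancel_left₀ _ hx]
    · rw [mul_div_assoc', mul_div_cancel_left₀ _ hx]

private theorem typ4b_PO (h : TK N Q L η C₀ k) (x y : ℕ) :
    MM N Q L η k Ty.P x * KK N Q L prt η k Ty.P Ty.O x y =
      if x ∈ L then (η / L.card) * pu N Q x y else JJ N Q L η k x y := by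
  change (if x ∈ L then η / L.card else mP N Q L η k x) * (if x ∈ L then pu N Q x y else
      if mP N Q L η k x = 0 then mO Q k y else JJ N Q L η k x y / mP N Q L η k x) = _
  by_cases hL : x ∈ L
  · rw [if_pos hL, if_pos hL, if_pos hL]
  · rw [if_neg hL, if_neg hL, if_neg hL]
    by_cases hx : mP N Q L η k x = 0
    · rw [typ4b_JJ_left h (typ4b_mP h hx), hx]
      simp
    · rw [if_neg hx, mul_div_assoc', mul_div_cancel_left₀ _ hx]

private theorem typ4b_PU (h : TK N Q L η C₀ k) (x y : ℕ) :
    MM N Q L η k Ty.P x * KK N Q L prt η k Ty.P Ty.U x y =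
      if x ∈ L then (if y = x then η / L.card else 0) else AA N Q L η k x y := by
  change (if x ∈ L then η / L.card else mP N Q L η k x) * (if x ∈ L then (if y = x then 1 else 0) else
      if mP N Q L η k x = 0 then mO Q k y else AA N Q L η k x y / mP N Q L η k x) = _
  by_cases hL : x ∈ L
  · rw [if_pos hL, if_pos hL, if_pos hL]
    split_ifs <;> simp
  · rw [if_neg hL, if_neg hL, if_neg hL]
    by_cases hx : mP N Q L η k x = 0
    · rw [typ4b_AA_left h (typ4b_mP h hx), hx]
      simp
    · rw [if_neg hx, mul_div_assoc', mul_div_cancel_left₀ _ hx]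

private theorem typ4b_UP (h : TK N Q L η C₀ k) (x y : ℕ) :
    MM N Q L η k Ty.U x * KK N Q L prt η k Ty.U Ty.P x y =
      if x ∈ L then (if y = prt x then η / L.card else 0) else AA N Q L η k y x := by
  change (if x ∈ L then η / L.card else mU N Q L η k x) *
    (if x ∈ L then (if y = prt x then 1 else 0) else
      if mU N Q L η k x = 0 then mO Q k y else AA N Q L η k y x / mU N Q L η k x) = _
  by_cases hL : x ∈ L
  · rw [if_pos hL, if_pos hL, if_pos hL]
    split_ifs <;> simp
  · rw [if_neg hL, if_neg hL, if_neg hL]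
    by_cases hx : mU N Q L η k x = 0
    · rw [typ4b_AA_right h (typ4b_mU h hx), hx]
      simp
    · rw [if_neg hx, mul_div_assoc', mul_div_cancel_left₀ _ hx]

private theorem typ4b_sub (h : TK N Q L η C₀ k) : Q ⊆ range (N + 1) := by
  intro x hx
  have h1 := mem_Icc.1 (h.tq.Q_sub hx)
  exact mem_range.2 (by omega)

private theorem typ4b_subL (h : TK N Q L η C₀ k) : L ⊆ range (N + 1) := by
  intro x hx
  have h1 := mem_Icc.1 (h.tq.L_sub hx)
  exact mem_range.2 (by omega)

private theorem typ4b_sumQ (h : TK N Q L η C₀ k) {f : ℕ → ℝ} (hf : ∀ x, f x ≠ 0 → x ∈ Q) :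
    ∑ x ∈ range (N + 1), f x = ∑ x ∈ Q, f x := by
  refine (sum_subset (typ4b_sub h) fun x _ hx => ?_).symm
  by_contra hc
  exact hx (hf x hc)

private theorem typ4b_sumL (h : TK N Q L η C₀ k) (f : ℕ → ℝ) :
    ∑ x ∈ range (N + 1), (if x ∈ L then f x else 0) = ∑ x ∈ L, f x := by
  rw [← sum_filter]
  refine sum_congr ?_ fun _ _ => rfl
  ext x
  rw [mem_filter]
  exact ⟨fun hx => hx.2, fun hx => ⟨typ4b_subL h hx, hx⟩⟩

private theorem typ4b_JJ_supp (h : TK N Q L η C₀ k) {x y : ℕ} (hx : JJ N Q L η k x y ≠ 0) :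
    x ∈ Q ∧ y ∈ Q := by
  by_cases hk : k x y = 0
  · have hG : GG N Q L x y ≠ 0 := by
      intro hG
      rw [JJ, hk, hG] at hx
      simp at hx
    exact ⟨(GG_supp hG).1, (GG_supp hG).2.1⟩
  · exact ⟨(h.supp x y hk).1, (h.supp x y hk).2.1⟩

private theorem typ4b_AA_supp (h : TK N Q L η C₀ k) {x y : ℕ} (hx : AA N Q L η k x y ≠ 0) :
    x ∈ Q ∧ y ∈ Q := by
  by_cases hk : k x y = 0
  · have hG : gg N Q L x * pu N Q x y ≠ 0 := by
      intro hG
      rw [AA, hk, hG] at hx
      simp at hx
    exact ⟨(gg_supp (left_ne_zero_of_mul hG)).1, (pu_supp (right_ne_zero_of_mul hG)).1⟩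
  · exact ⟨(h.supp x y hk).1, (h.supp x y hk).2.1⟩

private theorem typ4b_notQ (h : TK N Q L η C₀ k) {x : ℕ} (hx : x ∈ L) : x ∉ Q := fun hq =>
  (Finset.disjoint_left.1 h.tq.QL) hq hx

theorem KK_cons (he : Env N t Q L rp prt) (h : TK N Q L η C₀ k) {a b : Ty} (hab : okTy a b = true)
    {y : ℕ} (hy : y ≤ N) :
    ∑ x ∈ range (N + 1), MM N Q L η k a x * KK N Q L prt η k a b x y = MM N Q L η k b y := by
  have hyr : y ∈ range (N + 1) := mem_range.2 (by omega)
  cases a <;> cases b <;> first | (simp [okTy] at hab; done) | skip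
  · -- (O, O)
    rw [sum_congr rfl fun x _ => typ4b_OO h x y, typ4b_sumQ h (f := fun x => k x y / SS Q k) ?_]
    · change _ = mO Q k y
      rw [mO, VV, sum_div]
      exact sum_congr rfl fun x _ => by rw [h.symm]
    · intro x hx
      have hk : k x y ≠ 0 := by
        intro hk
        rw [hk] at hx
        simp at hx
      exact (h.supp x y hk).1
  · -- (O, P)
    rw [sum_congr rfl fun x _ => typ4b_OP h x y]
    change _ = if y ∈ L then η / L.card else mP N Q L η k y
    by_cases hL : y ∈ L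
    · rw [if_pos hL, sum_congr rfl fun x _ => if_pos hL, ← mul_sum,
        typ4b_sumQ h (f := fun x => pu N Q y x) (fun x hx => (pu_supp hx).1), pu_sum h.tq hy, mul_one]
    · rw [if_neg hL, sum_congr rfl fun x _ => if_neg hL,
        typ4b_sumQ h (f := fun x => JJ N Q L η k y x) (fun x hx => (typ4b_JJ_supp h hx).2),
        JJ_sum_right h]
  · -- (P, O)
    rw [sum_congr rfl fun x _ => typ4b_PO h x y]
    change _ = mO Q k y
    have h1 : ∀ x, (if x ∈ L then (η / L.card) * pu N Q x y else JJ N Q L η k x y) =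
        (if x ∈ L then (η / L.card) * pu N Q x y else 0) + JJ N Q L η k x y := by
      intro x
      by_cases hL : x ∈ L
      · rw [if_pos hL, if_pos hL]
        have h2 : JJ N Q L η k x y = 0 := by
          by_contra hc
          exact typ4b_notQ h hL (typ4b_JJ_supp h hc).1
        rw [h2, add_zero]
      · rw [if_neg hL, if_neg hL, zero_add]
    rw [sum_congr rfl fun x _ => h1 x, sum_add_distrib,
      typ4b_sumL h (fun x => (η / L.card) * pu N Q x y),
      typ4b_sumQ h (f := fun x => JJ N Q L η k x y) (fun x hx => (typ4b_JJ_supp h hx).1),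
      JJ_sum_left h, ← mul_sum, mst]
    ring
  · -- (P, U)
    rw [sum_congr rfl fun x _ => typ4b_PU h x y]
    change _ = if y ∈ L then η / L.card else mU N Q L η k y
    have h1 : ∀ x, (if x ∈ L then (if y = x then η / L.card else 0) else AA N Q L η k x y) =
        (if x ∈ L then (if y = x then η / L.card else 0) else 0) + AA N Q L η k x y := by
      intro x
      by_cases hL : x ∈ L
      · rw [if_pos hL, if_pos hL]
        have h2 : AA N Q L η k x y = 0 := by
          by_contra hc
          exact typ4b_notQ h hL (typ4b_AA_supp h hc).1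
        rw [h2, add_zero]
      · rw [if_neg hL, if_neg hL, zero_add]
    rw [sum_congr rfl fun x _ => h1 x, sum_add_distrib,
      typ4b_sumL h (fun x => if y = x then η / L.card else 0),
      typ4b_sumQ h (f := fun x => AA N Q L η k x y) (fun x hx => (typ4b_AA_supp h hx).1),
      AA_sum_left h, sum_ite_eq]
    by_cases hL : y ∈ L
    · have h3 : mU N Q L η k y = 0 := by
        have h4 : qU N Q L y = 0 := by
          by_contra hc
          exact typ4b_notQ h hL (qU_supp hc).1
        rw [mU, mO_supp h (typ4b_notQ h hL), h4]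
        simp
      rw [if_pos hL, if_pos hL, h3, add_zero]
    · rw [if_neg hL, if_neg hL, zero_add]
  · -- (U, P)
    rw [sum_congr rfl fun x _ => typ4b_UP h x y]
    change _ = if y ∈ L then η / L.card else mP N Q L η k y
    have h1 : ∀ x, (if x ∈ L then (if y = prt x then η / L.card else 0) else AA N Q L η k y x) =
        (if x ∈ L then (if y = prt x then η / L.card else 0) else 0) + AA N Q L η k y x := by
      intro x
      by_cases hL : x ∈ L
      · rw [if_pos hL, if_pos hL]
        have h2 : AA N Q L η k y x = 0 := by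
          by_contra hc
          exact typ4b_notQ h hL (typ4b_AA_supp h hc).2
        rw [h2, add_zero]
      · rw [if_neg hL, if_neg hL, zero_add]
    have h5 : ∀ x ∈ L, (if y = prt x then η / (L.card : ℝ) else 0) =
        if x = prt y ∧ y ∈ L then η / (L.card : ℝ) else 0 := by
      intro x hx
      by_cases hyx : y = prt x
      · have h6 : x = prt y ∧ y ∈ L := by
          rw [hyx]
          exact ⟨(he.prt_prt x hx).symm, he.prt_mem x hx⟩
        rw [if_pos hyx, if_pos h6]
      · have h6 : ¬ (x = prt y ∧ y ∈ L) := by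
          rintro ⟨h7, h8⟩
          exact hyx (by rw [h7, he.prt_prt y h8])
        rw [if_neg hyx, if_neg h6]
    rw [sum_congr rfl fun x _ => h1 x, sum_add_distrib,
      typ4b_sumL h (fun x => if y = prt x then η / L.card else 0),
      typ4b_sumQ h (f := fun x => AA N Q L η k y x) (fun x hx => (typ4b_AA_supp h hx).2),
      AA_sum_right h, sum_congr rfl h5]
    by_cases hL : y ∈ L
    · have h3 : mP N Q L η k y = 0 := by
        have h4 : gg N Q L y = 0 := by
          by_contra hc
          exact typ4b_notQ h hL (gg_supp hc).1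
        rw [mP, mO_supp h (typ4b_notQ h hL), h4]
        simp
      rw [if_pos hL, h3, add_zero]
      simp only [hL, and_true]
      rw [sum_ite_eq', if_pos (he.prt_mem y hL)]
    · rw [if_neg hL]
      simp only [hL, and_false, if_false, sum_const_zero, zero_add]

end SSB
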