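import Pool.Agent.Lib.MP_8a819d_co.BD.Typ4

/-!
# MP_8a819d_co: the typed Markov chain, 5. Joint laws and bounds

JOB Typ5a: `joint_*` (five formulas), `KK_rule`.
JOB Typ5b: `MM_le`, `KK_le`, `bdK`, `bdJ`, `bdS`.

5a. The product `MM a x * KK a b x y`:
* (O,O): `k x y / SS`; (O,P): `JJ y x` for `y ∉ L`, `(η/|L|) pu y x` for `y ∈ L`;
* (P,O): `JJ x y` for `x ∉ L`, `(η/|L|) pu x y` for `x ∈ L`; (P,U): `AA x y` for `x ∉ L`, `(η/|L|) [y = x]` for
  `x ∈ L`; (U,P): `AA y x` for `x ∉ L`, `(η/|L|) [y = prt x]` for `x ∈ L`.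
(These computations are as in `KK_cons` of Typ4: where `mO x = 0`, `mP x = 0` or `mU x = 0` the
functions `k`, `JJ`, `AA`, `pu _ x` vanish.)
`KK_rule`: the support of these functions (`TK.supp`, `GG_supp`, `pu_supp`, `gg_supp`; `JJ x y ≠ 0` implies
`k x y ≠ 0` or `GG x y ≠ 0`, both give `x, y, dd x y ∈ Q`).
5b. Let `C = 2 C₀^2 + 18 c` where `η / |L| ≤ c / N`, `c ≥ 1`. `MM a x ≤ C / N`: `mO ≤ 2 C₀ / N`, `η/|L| ≤ c / N`.
`KK_le`: `KK a b x y ≤ C / N` except in the deterministic cases (a,b) = (P,U), (U,P) with `x ∈ L`: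
`k x y / VV x ≤ C₀^2/N`, `mO y ≤ 2 C₀/N`, `JJ y x / mO x ≤ k y x / VV x`, `(η/|L|) pu y x / mO x ≤ (c/N)(3/N)(6N)` (if
`pu y x ≠ 0` then `x ≥ 0.6 N` and `mO x ≥ 1/(6N)`), `JJ x y / mP x ≤ 2 k x y / VV x`, etc.
`bdK`: `z ∈ us a b x y` implies `y = z` or `dd x y = z` or (`y ∈ L` and `rp y = z`, so `y = z` or `y = prt z`): at most
`4` values of `y` (`dd x y = z` has at most two solutions); in the deterministic cases `us = ∅`.
`bdJ`: for `z ≠ z'`, both in `us a b x y`: `{z, z'} = us a b x y` is `{y, dd x y}` or `{rp y, dd x y}` with `y ∈ L`; `y` takes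
at most 4 values, then `x` at most 2 for each choice: at most `16` pairs `(x, y)`, each with
`MM KK ≤ (C/N)^2`.
`bdS`: `y = dd x y`, `y ∈ Q`, means `x = 2 y` or `x = 0` (and `MM a 0 = 0`): `∑ x MM a x * KK (x, x/2) ≤ C / N`; in the
deterministic cases `y ∈ L` is not in `Q`.
-/

set_option autoImplicit false

namespace SSB

open Finset

variable {N t : ℕ} {Q L : Finset ℕ} {rp prt : ℕ → ℕ} {η C₀ : ℝ} {k : ℕ → ℕ → ℝ}

private theorem typ5a_N_pos (h : TK N Q L η C₀ k) : (0 : ℝ) < N := by
  have h1 := h.tq.big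
  have h2 : 0 < N := by omega
  exact_mod_cast h2

private theorem typ5a_mO_ne (h : TK N Q L η C₀ k) {x : ℕ} (hx : x ∈ Q) (hx2 : 3 * N ≤ 5 * x) :
    mO Q k x ≠ 0 := by
  have h1 := mO_ge h hx hx2
  have h2 : 0 < 1 / (6 * (N : ℝ)) := by
    have := typ5a_N_pos h
    positivity
  intro h3
  rw [h3] at h1
  exact absurd h1 (not_le.2 h2)

private theorem typ5a_pu_zero (h : TK N Q L η C₀ k) {x : ℕ} (hx : mO Q k x = 0) (y : ℕ) :
    pu N Q y x = 0 := by
  by_contra hc
  obtain ⟨h1, h2, -⟩ := pu_supp hc
  exact typ5a_mO_ne h h1 h2 hx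

private theorem typ5a_gg_zero (h : TK N Q L η C₀ k) {x : ℕ} (hx : mO Q k x = 0) :
    gg N Q L x = 0 := by
  by_contra hc
  obtain ⟨h1, h2⟩ := gg_supp hc
  exact typ5a_mO_ne h h1 h2 hx

private theorem typ5a_k_zero (h : TK N Q L η C₀ k) {x : ℕ} (hx : mO Q k x = 0) (y : ℕ) :
    k x y = 0 :=
  k_zero h ((mO_zero_iff h x).1 hx) y

private theorem typ5a_JJ_left (h : TK N Q L η C₀ k) {x : ℕ} (hx : mO Q k x = 0) (y : ℕ) :
    JJ N Q L η k x y = 0 := by
  have h1 : GG N Q L x y = 0 := by
    by_contra hc
    obtain ⟨h1, -, -, -, h2, -⟩ := GG_supp hc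
    exact typ5a_mO_ne h h1 h2 hx
  rw [JJ, h1, typ5a_k_zero h hx]
  simp

private theorem typ5a_JJ_right (h : TK N Q L η C₀ k) {x : ℕ} (hx : mO Q k x = 0) (y : ℕ) :
    JJ N Q L η k y x = 0 := by
  have h1 : GG N Q L y x = 0 := by
    by_contra hc
    obtain ⟨-, h1, -, -, -, h2⟩ := GG_supp hc
    exact typ5a_mO_ne h h1 h2 hx
  rw [JJ, h1, h.symm, typ5a_k_zero h hx]
  simp

private theorem typ5a_AA_left (h : TK N Q L η C₀ k) {x : ℕ} (hx : mO Q k x = 0) (y : ℕ) :
    AA N Q L η k x y = 0 := by
  rw [AA, typ5a_gg_zero h hx, typ5a_k_zero h hx]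
  simp

private theorem typ5a_AA_right (h : TK N Q L η C₀ k) {x : ℕ} (hx : mO Q k x = 0) (y : ℕ) :
    AA N Q L η k y x = 0 := by
  rw [AA, typ5a_pu_zero h hx, h.symm, typ5a_k_zero h hx]
  simp

private theorem typ5a_mP (h : TK N Q L η C₀ k) {x : ℕ} (hx : mP N Q L η k x = 0) :
    mO Q k x = 0 := by
  have h1 := mP_ge h x
  have h2 := mO_nonneg h x
  rw [hx] at h1
  linarith

private theorem typ5a_mU (h : TK N Q L η C₀ k) {x : ℕ} (hx : mU N Q L η k x = 0) :
    mO Q k x = 0 := by
  have h1 := mU_ge h x
  have h2 := mO_nonneg h x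
  rw [hx] at h1
  linarith

theorem joint_OO (h : TK N Q L η C₀ k) (x y : ℕ) :
    MM N Q L η k Ty.O x * KK N Q L prt η k Ty.O Ty.O x y = k x y / SS Q k := by
  change mO Q k x * (if VV Q k x = 0 then mO Q k y else k x y / VV Q k x) = _
  split_ifs with hV
  · rw [(mO_zero_iff h x).2 hV, k_zero h hV]
    simp
  · have := (SS_pos h).ne'
    rw [mO]
    field_simp

theorem joint_OP (h : TK N Q L η C₀ k) (x y : ℕ) :
    MM N Q L η k Ty.O x * KK N Q L prt η k Ty.O Ty.P x y =
      if y ∈ L then (η / L.card) * pu N Q y x else JJ N Q L η k y x := by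
  change mO Q k x * (if mO Q k x = 0 then mO Q k y else
      if y ∈ L then (η / L.card) * pu N Q y x / mO Q k x else JJ N Q L η k y x / mO Q k x) = _
  by_cases hx : mO Q k x = 0
  · rw [typ5a_pu_zero h hx, typ5a_JJ_right h hx, hx]
    simp
  · rw [if_neg hx]
    split_ifs
    · rw [mul_div_assoc', mul_div_cancel_left₀ _ hx]
    · rw [mul_div_assoc', mul_div_cancel_left₀ _ hx]

theorem joint_PO (h : TK N Q L η C₀ k) (x y : ℕ) :
    MM N Q L η k Ty.P x * KK N Q L prt η k Ty.P Ty.O x y =
      if x ∈ L then (η / L.card) * pu N Q x y else JJ N Q L η k x y := by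
  change (if x ∈ L then η / L.card else mP N Q L η k x) * (if x ∈ L then pu N Q x y else
      if mP N Q L η k x = 0 then mO Q k y else JJ N Q L η k x y / mP N Q L η k x) = _
  by_cases hL : x ∈ L
  · rw [if_pos hL, if_pos hL, if_pos hL]
  · rw [if_neg hL, if_neg hL, if_neg hL]
    by_cases hx : mP N Q L η k x = 0
    · rw [typ5a_JJ_left h (typ5a_mP h hx), hx]
      simp
    · rw [if_neg hx, mul_div_assoc', mul_div_cancel_left₀ _ hx]

theorem joint_PU (h : TK N Q L η C₀ k) (x y : ℕ) :
    MM N Q L η k Ty.P x * KK N Q L prt η k Ty.P Ty.U x y =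
      if x ∈ L then (if y = x then η / L.card else 0) else AA N Q L η k x y := by
  change (if x ∈ L then η / L.card else mP N Q L η k x) * (if x ∈ L then (if y = x then 1 else 0) else
      if mP N Q L η k x = 0 then mO Q k y else AA N Q L η k x y / mP N Q L η k x) = _
  by_cases hL : x ∈ L
  · rw [if_pos hL, if_pos hL, if_pos hL]
    split_ifs <;> simp
  · rw [if_neg hL, if_neg hL, if_neg hL]
    by_cases hx : mP N Q L η k x = 0
    · rw [typ5a_AA_left h (typ5a_mP h hx), hx]
      simp
    · rw [if_neg hx, mul_div_assoc', mul_div_cancel_left₀ _ hx]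

theorem joint_UP (h : TK N Q L η C₀ k) (x y : ℕ) :
    MM N Q L η k Ty.U x * KK N Q L prt η k Ty.U Ty.P x y =
      if x ∈ L then (if y = prt x then η / L.card else 0) else AA N Q L η k y x := by
  change (if x ∈ L then η / L.card else mU N Q L η k x) *
    (if x ∈ L then (if y = prt x then 1 else 0) else
      if mU N Q L η k x = 0 then mO Q k y else AA N Q L η k y x / mU N Q L η k x) = _
  by_cases hL : x ∈ L
  · rw [if_pos hL, if_pos hL, if_pos hL]
    split_ifs <;> simp
  · rw [if_neg hL, if_neg hL, if_neg hL]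
    by_cases hx : mU N Q L η k x = 0
    · rw [typ5a_AA_right h (typ5a_mU h hx), hx]
      simp
    · rw [if_neg hx, mul_div_assoc', mul_div_cancel_left₀ _ hx]

private theorem typ5a_JJ_supp' (h : TK N Q L η C₀ k) {x y : ℕ} (hx : JJ N Q L η k x y ≠ 0) :
    x ∈ Q ∧ y ∈ Q ∧ dd x y ∈ Q := by
  by_cases hk : k x y = 0
  · have hG : GG N Q L x y ≠ 0 := by
      intro hG
      rw [JJ, hk, hG] at hx
      simp at hx
    exact ⟨(GG_supp hG).1, (GG_supp hG).2.1, (GG_supp hG).2.2.2.1⟩
  · exact ⟨(h.supp x y hk).1, (h.supp x y hk).2.1, (h.supp x y hk).2.2.2⟩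

private theorem typ5a_AA_supp' (h : TK N Q L η C₀ k) {x y : ℕ} (hx : AA N Q L η k x y ≠ 0) :
    x ∈ Q ∧ y ∈ Q ∧ dd x y ∈ Q := by
  by_cases hk : k x y = 0
  · have hG : gg N Q L x * pu N Q x y ≠ 0 := by
      intro hG
      rw [AA, hk, hG] at hx
      simp at hx
    exact ⟨(gg_supp (left_ne_zero_of_mul hG)).1, (pu_supp (right_ne_zero_of_mul hG)).1,
      (pu_supp (right_ne_zero_of_mul hG)).2.2.2⟩
  · exact ⟨(h.supp x y hk).1, (h.supp x y hk).2.1, (h.supp x y hk).2.2.2⟩

theorem KK_rule (h : TK N Q L η C₀ k) {a b : Ty} (hab : okTy a b = true) {x y : ℕ}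
    (hxy : MM N Q L η k a x * KK N Q L prt η k a b x y ≠ 0) : rule Q L prt a b x y := by
  cases a <;> cases b <;> first | (simp [okTy] at hab; done) | skip
  · rw [joint_OO h] at hxy
    have hk : k x y ≠ 0 := by
      intro hk
      rw [hk] at hxy
      simp at hxy
    exact ⟨(h.supp x y hk).1, (h.supp x y hk).2.1, (h.supp x y hk).2.2.2⟩
  · rw [joint_OP h] at hxy
    by_cases hL : y ∈ L
    · rw [if_pos hL] at hxy
      have h1 := pu_supp (right_ne_zero_of_mul hxy)
      exact ⟨h1.1, Or.inr hL, by rw [dd_comm]; exact h1.2.2.2⟩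
    · rw [if_neg hL] at hxy
      obtain ⟨h1, h2, h3⟩ := typ5a_JJ_supp' h hxy
      exact ⟨h2, Or.inl h1, by rw [dd_comm]; exact h3⟩
  · rw [joint_PO h] at hxy
    by_cases hL : x ∈ L
    · rw [if_pos hL] at hxy
      have h1 := pu_supp (right_ne_zero_of_mul hxy)
      exact ⟨Or.inr hL, h1.1, h1.2.2.2⟩
    · rw [if_neg hL] at hxy
      obtain ⟨h1, h2, h3⟩ := typ5a_JJ_supp' h hxy
      exact ⟨Or.inl h1, h2, h3⟩
  · rw [joint_PU h] at hxy
    by_cases hL : x ∈ L
    · rw [if_pos hL] at hxy
      by_cases hyx : y = x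
      · exact Or.inr ⟨hL, hyx⟩
      · rw [if_neg hyx] at hxy
        exact absurd rfl hxy
    · rw [if_neg hL] at hxy
      exact Or.inl (typ5a_AA_supp' h hxy)
  · rw [joint_UP h] at hxy
    by_cases hL : x ∈ L
    · rw [if_pos hL] at hxy
      by_cases hyx : y = prt x
      · exact Or.inr ⟨hL, hyx⟩
      · rw [if_neg hyx] at hxy
        exact absurd rfl hxy
    · rw [if_neg hL] at hxy
      obtain ⟨h1, h2, h3⟩ := typ5a_AA_supp' h hxy
      exact Or.inl ⟨h2, h1, by rw [dd_comm]; exact h3⟩

private theorem few {S : Finset ℕ} {f : ℕ → ℝ} {B : ℝ} (hB : 0 ≤ B) (n : ℕ) {m : ℕ}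
    (hS : S.card ≤ m) (hf : ∀ y, f y ≤ if y ∈ S then B else 0) :
    ∑ y ∈ range n, f y ≤ m * B := by
  calc ∑ y ∈ range n, f y ≤ ∑ y ∈ range n, (if y ∈ S then B else 0) :=
        Finset.sum_le_sum (fun y _ => hf y)
    _ = ((range n).filter (fun y => y ∈ S)).card * B := by
        rw [← Finset.sum_filter, Finset.sum_const, nsmul_eq_mul]
    _ ≤ m * B := by
        apply mul_le_mul_of_nonneg_right _ hB
        have h1 : ((range n).filter (fun y => y ∈ S)).card ≤ S.card :=
          Finset.card_le_card (fun y hy => (Finset.mem_filter.1 hy).2)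
        exact_mod_cast h1.trans hS

private theorem N_pos (h : TK N Q L η C₀ k) : (0 : ℝ) < N := by
  have h1 := h.tq.big
  have h2 : 0 < N := by omega
  exact_mod_cast h2

private theorem C_sq (h : TK N Q L η C₀ k) : C₀ ≤ C₀ ^ 2 := by
  have h1 := h.C_ge
  nlinarith

private theorem mO_le' (h : TK N Q L η C₀ k) {c : ℝ} (hc : 1 ≤ c) (x : ℕ) :
    mO Q k x ≤ (2 * C₀ ^ 2 + 18 * c) / N := by
  refine (mO_le h x).trans ?_
  apply div_le_div_of_nonneg_right _ (N_pos h).le
  have h1 := C_sq h
  linarith

theorem MM_le (h : TK N Q L η C₀ k) {c : ℝ} (hc : 1 ≤ c) (hη : η / L.card ≤ c / N) (a : Ty) (x : ℕ) :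
    MM N Q L η k a x ≤ (2 * C₀ ^ 2 + 18 * c) / N := by
  have h2 : c / N ≤ (2 * C₀ ^ 2 + 18 * c) / N := by
    apply div_le_div_of_nonneg_right _ (N_pos h).le
    nlinarith [sq_nonneg C₀]
  cases a with
  | O => exact mO_le' h hc x
  | P =>
    show (if x ∈ L then η / L.card else mP N Q L η k x) ≤ _
    split_ifs with hx
    · exact hη.trans h2
    · exact (mP_le h x).trans (mO_le' h hc x)
  | U =>
    show (if x ∈ L then η / L.card else mU N Q L η k x) ≤ _
    split_ifs with hx
    · exact hη.trans h2
    · exact (mU_le h x).trans (mO_le' h hc x)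

private theorem quo (h : TK N Q L η C₀ k) {c : ℝ} (hc : 1 ≤ c) {x y : ℕ} {J m : ℝ}
    (hJ : J ≤ k x y / SS Q k) (hm : mO Q k x / 2 ≤ m) (hmO : mO Q k x ≠ 0) :
    J / m ≤ (2 * C₀ ^ 2 + 18 * c) / N := by
  have hS := SS_pos h
  have hpos : 0 < mO Q k x := lt_of_le_of_ne (mO_nonneg h x) (Ne.symm hmO)
  have h1 : J / m ≤ (k x y / SS Q k) / (mO Q k x / 2) :=
    div_le_div₀ (div_nonneg (h.nn x y) hS.le) hJ (by positivity) hm
  have hV : VV Q k x ≠ 0 := fun hv => hmO ((mO_zero_iff h x).2 hv)
  have h2 : (k x y / SS Q k) / (mO Q k x / 2) = 2 * (k x y / VV Q k x) := by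
    unfold mO
    have hS' := hS.ne'
    field_simp
  have h3 := k_div h x y
  have h4 : 2 * (C₀ ^ 2 / N) ≤ (2 * C₀ ^ 2 + 18 * c) / N := by
    rw [← mul_div_assoc]
    apply div_le_div_of_nonneg_right _ (N_pos h).le
    linarith
  linarith

theorem KK_le (h : TK N Q L η C₀ k) {c : ℝ} (hc : 1 ≤ c) (hη : η / L.card ≤ c / N) {a b : Ty}
    (hab : okTy a b = true) {x : ℕ} (hx : x ∈ L → a = Ty.O ∨ b = Ty.O) (y : ℕ) :
    KK N Q L prt η k a b x y ≤ (2 * C₀ ^ 2 + 18 * c) / N := by
  have hN := N_pos h
  have hη0 := h.η_nn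
  cases a <;> cases b <;> first | exact absurd hab (by decide) | skip
  · -- O, O
    show (if VV Q k x = 0 then mO Q k y else k x y / VV Q k x) ≤ _
    split_ifs with hv
    · exact mO_le' h hc y
    · refine (k_div h x y).trans ?_
      apply div_le_div_of_nonneg_right _ hN.le
      nlinarith [sq_nonneg C₀]
  · -- O, P
    show (if mO Q k x = 0 then mO Q k y else
      if y ∈ L then (η / L.card) * pu N Q y x / mO Q k x else JJ N Q L η k y x / mO Q k x) ≤ _
    split_ifs with hv hy
    · exact mO_le' h hc y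
    · have hpos : 0 < mO Q k x := lt_of_le_of_ne (mO_nonneg h x) (Ne.symm hv)
      by_cases hp : pu N Q y x = 0
      · rw [hp, mul_zero, zero_div]
        apply div_nonneg _ hN.le
        nlinarith [sq_nonneg C₀]
      · obtain ⟨hxQ, hx6, _, _⟩ := pu_supp hp
        have h1 := mO_ge h hxQ hx6
        have hyN : y ≤ N := (Finset.mem_Icc.1 (h.tq.L_sub hy)).2
        have h2 := pu_le h.tq hyN x
        have h3 : (0 : ℝ) ≤ pu N Q y x := pu_nonneg y x
        have h4 : (0 : ℝ) ≤ η / L.card := div_nonneg hη0 (Nat.cast_nonneg _)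
        have h5 : (η / L.card) * pu N Q y x ≤ (c / N) * (3 / N) :=
          mul_le_mul hη h2 h3 (h4.trans hη)
        have h6 : (η / L.card) * pu N Q y x / mO Q k x ≤ (c / N) * (3 / N) / (1 / (6 * (N : ℝ))) :=
          div_le_div₀ (by positivity) h5 (by positivity) h1
        have h7 : (c / N) * (3 / N) / (1 / (6 * (N : ℝ))) = 18 * c / N := by
          have hN' := hN.ne'
          field_simp
          ring
        rw [h7] at h6
        refine h6.trans ?_
        apply div_le_div_of_nonneg_right _ hN.le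
        nlinarith [sq_nonneg C₀]
    · apply quo h hc (x := x) (y := y) _ _ hv
      · rw [h.symm x y]
        exact JJ_le h y x
      · have := mO_nonneg h x
        linarith
  · -- P, O
    show (if x ∈ L then pu N Q x y else
      if mP N Q L η k x = 0 then mO Q k y else JJ N Q L η k x y / mP N Q L η k x) ≤ _
    split_ifs with hxL hv
    · have hxN : x ≤ N := (Finset.mem_Icc.1 (h.tq.L_sub hxL)).2
      refine (pu_le h.tq hxN y).trans ?_
      apply div_le_div_of_nonneg_right _ hN.le
      nlinarith [sq_nonneg C₀]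
    · exact mO_le' h hc y
    · apply quo h hc (JJ_le h x y) (mP_ge h x)
      intro h0
      have h1 := mP_ge h x
      have h2 := mP_le h x
      rw [h0] at h1 h2
      apply hv
      linarith
  · -- P, U
    have hxL : x ∉ L := fun hxL => by
      rcases hx hxL with h1 | h1 <;> exact absurd h1 (by decide)
    show (if x ∈ L then (if y = x then 1 else 0) else
      if mP N Q L η k x = 0 then mO Q k y else AA N Q L η k x y / mP N Q L η k x) ≤ _
    rw [if_neg hxL]
    split_ifs with hv
    · exact mO_le' h hc y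
    · apply quo h hc (AA_le h x y) (mP_ge h x)
      intro h0
      have h1 := mP_ge h x
      have h2 := mP_le h x
      rw [h0] at h1 h2
      apply hv
      linarith
  · -- U, P
    have hxL : x ∉ L := fun hxL => by
      rcases hx hxL with h1 | h1 <;> exact absurd h1 (by decide)
    show (if x ∈ L then (if y = prt x then 1 else 0) else
      if mU N Q L η k x = 0 then mO Q k y else AA N Q L η k y x / mU N Q L η k x) ≤ _
    rw [if_neg hxL]
    split_ifs with hv
    · exact mO_le' h hc y
    · apply quo h hc (x := x) (y := y) _ (mU_ge h x)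
      · intro h0
        have h1 := mU_ge h x
        have h2 := mU_le h x
        rw [h0] at h1 h2
        apply hv
        linarith
      · rw [h.symm x y]
        exact AA_le h y x

private theorem us_rep (he : Env N t Q L rp prt) (h : TK N Q L η C₀ k) {a b : Ty}
    (hab : okTy a b = true) {x y : ℕ} (hK : KK N Q L prt η k a b x y ≠ 0) :
    ∃ y', (∀ z ∈ us Q rp a b x y, z = y' ∨ z = dd x y) ∧ (y = y' ∨ y = prt y') := by
  cases a <;> cases b <;> first | exact absurd hab (by decide) | skip
  · refine ⟨y, fun z hz => ?_, Or.inl rfl⟩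
    have hz' : z ∈ ({y, dd x y} : Finset ℕ) := hz
    simpa using hz'
  · by_cases hyQ : y ∈ Q
    · refine ⟨y, fun z hz => ?_, Or.inl rfl⟩
      have hz' : z ∈ (if y ∈ Q then ({y, dd x y} : Finset ℕ) else {rp y, dd x y}) := hz
      rw [if_pos hyQ] at hz'
      simpa using hz'
    · by_cases hyL : y ∈ L
      · refine ⟨rp y, fun z hz => ?_, ?_⟩
        · have hz' : z ∈ (if y ∈ Q then ({y, dd x y} : Finset ℕ) else {rp y, dd x y}) := hz
          rw [if_neg hyQ] at hz'
          simpa using hz'
        · rcases he.rp_or y hyL with h1 | h1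
          · exact Or.inl h1.symm
          · right
            rw [h1, he.prt_prt y hyL]
      · exfalso
        apply hK
        show (if mO Q k x = 0 then mO Q k y else
          if y ∈ L then (η / L.card) * pu N Q y x / mO Q k x else JJ N Q L η k y x / mO Q k x) = 0
        rw [if_neg hyL]
        have h1 : JJ N Q L η k y x = 0 := by
          have h2 : k y x = 0 := by
            by_contra h3
            exact hyQ (h.supp y x h3).1
          have h4 : GG N Q L y x = 0 := by
            by_contra h3
            exact hyQ (GG_supp h3).1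
          unfold JJ
          rw [h2, h4]
          simp
        rw [h1, mO_supp h hyQ, zero_div]
        simp
  · refine ⟨y, fun z hz => ?_, Or.inl rfl⟩
    have hz' : z ∈ ({y, dd x y} : Finset ℕ) := hz
    simpa using hz'
  · refine ⟨y, fun z hz => ?_, Or.inl rfl⟩
    have hz' : z ∈ (if x ∈ Q then ({y, dd x y} : Finset ℕ) else ∅) := hz
    split_ifs at hz' with hx
    · simpa using hz'
    · exact absurd hz' (Finset.notMem_empty z)
  · refine ⟨y, fun z hz => ?_, Or.inl rfl⟩
    have hz' : z ∈ (if x ∈ Q then ({y, dd x y} : Finset ℕ) else ∅) := hz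
    split_ifs at hz' with hx
    · simpa using hz'
    · exact absurd hz' (Finset.notMem_empty z)

private theorem us_nonL (he : Env N t Q L rp prt) {a b : Ty} (hab : okTy a b = true) {x y z : ℕ}
    (hz : z ∈ us Q rp a b x y) : x ∈ L → a = Ty.O ∨ b = Ty.O := by
  intro hxL
  have hxQ : x ∉ Q := fun hxQ => (Finset.disjoint_left.1 he.QL) hxQ hxL
  cases a <;> cases b <;> first | exact absurd hab (by decide) | skip
  · exact Or.inl rfl
  · exact Or.inl rfl
  · exact Or.inr rfl
  · exfalso
    have hz' : z ∈ (if x ∈ Q then ({y, dd x y} : Finset ℕ) else ∅) := hz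
    rw [if_neg hxQ] at hz'
    exact absurd hz' (Finset.notMem_empty z)
  · exfalso
    have hz' : z ∈ (if x ∈ Q then ({y, dd x y} : Finset ℕ) else ∅) := hz
    rw [if_neg hxQ] at hz'
    exact absurd hz' (Finset.notMem_empty z)

private theorem B_nonneg (h : TK N Q L η C₀ k) {c : ℝ} (hc : 1 ≤ c) :
    0 ≤ (2 * C₀ ^ 2 + 18 * c) / N := by
  apply div_nonneg _ (N_pos h).le
  nlinarith [sq_nonneg C₀]

/-- a label is used by a child with probability `O(1/N)`, whatever the label of the parent -/
theorem bdK (he : Env N t Q L rp prt) (h : TK N Q L η C₀ k) {c : ℝ} (hc : 1 ≤ c)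
    (hη : η / L.card ≤ c / N) {a b : Ty} (hab : okTy a b = true) (x z : ℕ) :
    ∑ y ∈ range (N + 1), (if z ∈ us Q rp a b x y then KK N Q L prt η k a b x y else 0) ≤
      4 * (2 * C₀ ^ 2 + 18 * c) / N := by
  have hB := B_nonneg h hc
  have key := few (S := {z, prt z, x + z, x - z})
    (f := fun y => if z ∈ us Q rp a b x y then KK N Q L prt η k a b x y else 0) hB (N + 1)
    (m := 4) Finset.card_le_four ?_
  · refine key.trans (le_of_eq ?_)
    push_cast
    ring
  · intro y
    show (if z ∈ us Q rp a b x y then KK N Q L prt η k a b x y else 0) ≤ _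
    by_cases hz : z ∈ us Q rp a b x y
    · rw [if_pos hz]
      by_cases hK : KK N Q L prt η k a b x y = 0
      · rw [hK]
        split_ifs
        · exact hB
        · exact le_rfl
      · obtain ⟨y', h1, h2⟩ := us_rep he h hab hK
        have h3 : y ∈ ({z, prt z, x + z, x - z} : Finset ℕ) := by
          simp only [Finset.mem_insert, Finset.mem_singleton]
          rcases h1 z hz with h4 | h4
          · rw [h4]
            rcases h2 with h5 | h5
            · exact Or.inl h5
            · exact Or.inr (Or.inl h5)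
          · unfold dd at h4
            right
            right
            omega
        rw [if_pos h3]
        exact KK_le h hc hη hab (us_nonL he hab hz) y
    · rw [if_neg hz]
      split_ifs
      · exact hB
      · exact le_rfl

/-- two labels are used by one child with probability `O(1/N^2)` -/
theorem bdJ (he : Env N t Q L rp prt) (h : TK N Q L η C₀ k) {c : ℝ} (hc : 1 ≤ c)
    (hη : η / L.card ≤ c / N) {a b : Ty} (hab : okTy a b = true) {z z' : ℕ} (hz : z ≠ z') :
    ∑ x ∈ range (N + 1), ∑ y ∈ range (N + 1),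
      (if z ∈ us Q rp a b x y ∧ z' ∈ us Q rp a b x y then
        MM N Q L η k a x * KK N Q L prt η k a b x y else 0) ≤
      16 * ((2 * C₀ ^ 2 + 18 * c) / N) ^ 2 := by
  have hB := B_nonneg h hc
  set B : ℝ := (2 * C₀ ^ 2 + 18 * c) / N with hBdef
  have hB2 : 0 ≤ B ^ 2 := sq_nonneg B
  rw [Finset.sum_comm]
  have step : ∀ y, ∑ x ∈ range (N + 1), (if z ∈ us Q rp a b x y ∧ z' ∈ us Q rp a b x y then
        MM N Q L η k a x * KK N Q L prt η k a b x y else 0) ≤
        if y ∈ ({z, prt z, z', prt z'} : Finset ℕ) then 4 * B ^ 2 else 0 := by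
    intro y
    by_cases hy : y ∈ ({z, prt z, z', prt z'} : Finset ℕ)
    · rw [if_pos hy]
      have key := few (S := {y + z, y - z, y + z', y - z'})
        (f := fun x => if z ∈ us Q rp a b x y ∧ z' ∈ us Q rp a b x y then
          MM N Q L η k a x * KK N Q L prt η k a b x y else 0) hB2 (N + 1)
        (m := 4) Finset.card_le_four ?_
      · refine key.trans (le_of_eq ?_)
        push_cast
        ring
      · intro x
        show (if z ∈ us Q rp a b x y ∧ z' ∈ us Q rp a b x y then
          MM N Q L η k a x * KK N Q L prt η k a b x y else 0) ≤ _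
        by_cases hz2 : z ∈ us Q rp a b x y ∧ z' ∈ us Q rp a b x y
        · rw [if_pos hz2]
          by_cases hK : KK N Q L prt η k a b x y = 0
          · rw [hK, mul_zero]
            split_ifs
            · exact hB2
            · exact le_rfl
          · obtain ⟨y', h1, h2⟩ := us_rep he h hab hK
            have h3 : x ∈ ({y + z, y - z, y + z', y - z'} : Finset ℕ) := by
              simp only [Finset.mem_insert, Finset.mem_singleton]
              rcases h1 z hz2.1 with h4 | h4
              · rcases h1 z' hz2.2 with h5 | h5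
                · exact absurd (h4.trans h5.symm) hz
                · unfold dd at h5
                  omega
              · unfold dd at h4
                omega
            rw [if_pos h3, sq]
            exact mul_le_mul (MM_le h hc hη a x) (KK_le h hc hη hab (us_nonL he hab hz2.1) y)
              (KK_nonneg h a b x y) hB
        · rw [if_neg hz2]
          split_ifs
          · exact hB2
          · exact le_rfl
    · rw [if_neg hy]
      apply le_of_eq
      apply Finset.sum_eq_zero
      intro x _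
      split_ifs with hz2
      · by_cases hK : KK N Q L prt η k a b x y = 0
        · rw [hK, mul_zero]
        · exfalso
          obtain ⟨y', h1, h2⟩ := us_rep he h hab hK
          apply hy
          simp only [Finset.mem_insert, Finset.mem_singleton]
          rcases h1 z hz2.1 with h4 | h4
          · rw [h4]
            rcases h2 with h5 | h5
            · exact Or.inl h5
            · exact Or.inr (Or.inl h5)
          · rcases h1 z' hz2.2 with h5 | h5
            · rw [h5]
              rcases h2 with h6 | h6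
              · exact Or.inr (Or.inr (Or.inl h6))
              · exact Or.inr (Or.inr (Or.inr h6))
            · exact absurd (h4.trans h5.symm) hz
      · rfl
  have key := few (S := {z, prt z, z', prt z'})
    (f := fun y => ∑ x ∈ range (N + 1), (if z ∈ us Q rp a b x y ∧ z' ∈ us Q rp a b x y then
        MM N Q L η k a x * KK N Q L prt η k a b x y else 0)) (B := 4 * B ^ 2) (by positivity) (N + 1)
    (m := 4) Finset.card_le_four step
  refine key.trans (le_of_eq ?_)
  push_cast
  ring

theorem bdS (he : Env N t Q L rp prt) (h : TK N Q L η C₀ k) {c : ℝ} (hc : 1 ≤ c)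
    (hη : η / L.card ≤ c / N) {a b : Ty} (hab : okTy a b = true) :
    ∑ x ∈ range (N + 1), ∑ y ∈ range (N + 1),
      (if y ∈ Q ∧ y = dd x y then MM N Q L η k a x * KK N Q L prt η k a b x y else 0) ≤
      (2 * C₀ ^ 2 + 18 * c) / N := by
  have hB := B_nonneg h hc
  set B : ℝ := (2 * C₀ ^ 2 + 18 * c) / N with hBdef
  have step : ∀ x, ∑ y ∈ range (N + 1),
      (if y ∈ Q ∧ y = dd x y then MM N Q L η k a x * KK N Q L prt η k a b x y else 0) ≤
      MM N Q L η k a x * B := by
    intro x
    have hM := MM_nonneg h a x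
    have hMB : 0 ≤ MM N Q L η k a x * B := mul_nonneg hM hB
    by_cases hx0 : MM N Q L η k a x = 0
    · apply le_of_eq
      rw [hx0, zero_mul]
      apply Finset.sum_eq_zero
      intro y _
      rw [zero_mul]
      simp
    · have hxpos : 1 ≤ x := by
        rcases MM_supp h hx0 with h1 | h1
        · exact (Finset.mem_Icc.1 (h.tq.Q_sub h1.1)).1
        · exact (Finset.mem_Icc.1 (h.tq.L_sub h1.1)).1
      have key := few (S := {x / 2})
        (f := fun y => if y ∈ Q ∧ y = dd x y then
          MM N Q L η k a x * KK N Q L prt η k a b x y else 0) hMB (N + 1)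
        (m := 1) (by simp) ?_
      · refine key.trans (le_of_eq ?_)
        push_cast
        ring
      · intro y
        show (if y ∈ Q ∧ y = dd x y then
          MM N Q L η k a x * KK N Q L prt η k a b x y else 0) ≤ _
        by_cases hy : y ∈ Q ∧ y = dd x y
        · rw [if_pos hy]
          have hypos : 1 ≤ y := (Finset.mem_Icc.1 (h.tq.Q_sub hy.1)).1
          have h3 : y ∈ ({x / 2} : Finset ℕ) := by
            rw [Finset.mem_singleton]
            have h4 := hy.2
            unfold dd at h4
            omega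
          rw [if_pos h3]
          by_cases hK : KK N Q L prt η k a b x y = 0
          · rw [hK, mul_zero]
            exact hMB
          · have hcond : x ∈ L → a = Ty.O ∨ b = Ty.O := by
              intro hxL
              have hyL : y ∉ L := fun hyL => (Finset.disjoint_left.1 he.QL) hy.1 hyL
              clear hBdef hx0 hM hMB
              cases a <;> cases b <;> first | exact absurd hab (by decide) | skip
              · exact Or.inl rfl
              · exact Or.inl rfl
              · exact Or.inr rfl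
              · exfalso
                apply hK
                show (if x ∈ L then (if y = x then (1 : ℝ) else 0) else
                  if mP N Q L η k x = 0 then mO Q k y else AA N Q L η k x y / mP N Q L η k x) = 0
                rw [if_pos hxL, if_neg]
                intro hyx
                exact hyL (hyx ▸ hxL)
              · exfalso
                apply hK
                show (if x ∈ L then (if y = prt x then (1 : ℝ) else 0) else
                  if mU N Q L η k x = 0 then mO Q k y else AA N Q L η k y x / mU N Q L η k x) = 0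
                rw [if_pos hxL, if_neg]
                intro hyx
                exact hyL (hyx ▸ he.prt_mem x hxL)
            exact mul_le_mul_of_nonneg_left (KK_le h hc hη hab hcond y) hM
        · rw [if_neg hy]
          split_ifs
          · exact hMB
          · exact le_rfl
  calc ∑ x ∈ range (N + 1), ∑ y ∈ range (N + 1),
      (if y ∈ Q ∧ y = dd x y then MM N Q L η k a x * KK N Q L prt η k a b x y else 0)
      ≤ ∑ x ∈ range (N + 1), MM N Q L η k a x * B := Finset.sum_le_sum (fun x _ => step x)
    _ = B := by rw [← Finset.sum_mul, MM_sum h a, one_mul]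

end SSB
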