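import Pool.Agent.Lib.MP_8a819d_co.BD.Typ5
import Pool.Agent.Lib.MP_8a819d_co.BD.ChD

/-!
# MP_8a819d_co: the typed Markov chain, 6. Loads

JOB Typ6a: `UU_OO`, `UU_OP`, `UU_PO`, `UU_PU`, `UU_UP`. JOB Typ6b: `env_card`, `UU_rep`, `UU_zero`, `dO_sum`.

`M = MM N Q L η k`, `K = KK N Q L prt η k`, `dO z = ∑ x ∈ Q, ∑ y ∈ Q, [dd x y = z] k x y / SS`.
For `z ∈ Q` (use `joint_*` of Typ5; `z ∈ us` implies `z = y` or `z = dd x y`, since `rp y ∈ L` is not in `Q`):
* `UU O O z ≤ mO z + dO z`: the part `y = z` is `∑ x, M x K x z = M O z`, the part `dd x y = z` is `dO z`.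
* `UU O P z ≤ mP z + (dO z - η a1 z + η a2 z)`: `y = z ∈ Q`: `∑ x, JJ z x = mP z`; `dd x y = z`:
  `∑ x ∈ Q, ∑ y ∈ Q, [dd x y = z] JJ y x = dO z - η a1 z` (by symmetry of `dd`) and
  `∑ x ∈ Q, ∑ y ∈ L, [dd x y = z] (η/|L|) pu y x = η a2 z`.
* `UU P O z ≤ mO z + (dO z - η a1 z + η a2 z)`: the part `y = z` is `M O z` by `KK_cons`.
* `UU P U z ≤ mU z + (dO z - η a3 z)`: `us` is nonempty only if `x ∈ Q`; `∑ x ∈ Q, AA x z = mU z`,
  `∑ [dd x y = z] AA x y = dO z - η a3 z`.
* `UU U P z ≤ mP z + (dO z - η a3 z)`.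
`UU_rep`: for `r ∈ L.image rp`: `r ∈ us O P x y` with nonzero joint law `JJ y x` (`y ∈ Q`, `dd x y ∈ Q`) is impossible,
so `y ∈ L`, `rp y = r` (the difference `dd x y` is in `Q` if `pu y x ≠ 0`); the sum over `x` of `(η/|L|) pu y x` is
`η/|L|`; the number of `y ∈ L` with `rp y = r` is `t`: if `r = rp w` then `y = w` or `y = prt w` (`Env.rp_eq`,
`Env.fib`). `UU_zero`: a label used with nonzero joint law is in `Q` or is `rp y`, `y ∈ L`, in the case `(O, P)`.
`env_card`: `|L| = t |L.image rp|` (fibres of `rp` on `L` have `t` elements).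
-/

set_option autoImplicit false

namespace SSB

open Finset

variable {N t : ℕ} {Q L : Finset ℕ} {rp prt : ℕ → ℕ} {η C₀ : ℝ} {k : ℕ → ℕ → ℝ}

noncomputable def dO (Q : Finset ℕ) (k : ℕ → ℕ → ℝ) (z : ℕ) : ℝ :=
  ∑ x ∈ Q, ∑ y ∈ Q, if dd x y = z then k x y / SS Q k else 0

private theorem typ6b_fib (he : Env N t Q L rp prt) {r : ℕ} (hr : r ∈ L.image rp) :
    (L.filter (fun y => rp y = r)).card = t := by
  obtain ⟨w, hw, rfl⟩ := mem_image.1 hr
  have h1 : L.filter (fun y => rp y = rp w) = {w, prt w} := by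
    ext y
    rw [mem_filter, mem_insert, mem_singleton]
    constructor
    · rintro ⟨hy, h2⟩
      exact (he.rp_eq w hw y hy).1 h2.symm
    · intro h2
      have hy : y ∈ L := by
        rcases h2 with h2 | h2
        · rw [h2]; exact hw
        · rw [h2]; exact he.prt_mem w hw
      exact ⟨hy, ((he.rp_eq w hw y hy).2 h2).symm⟩
  rw [h1]
  rcases he.t_le with ht | ht
  · rw [(he.fib w hw).1 ht, ht]
    simp
  · rw [card_pair ((he.fib w hw).2 ht).symm, ht]
/-! ### JOB Typ6a: auxiliary sums -/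

private theorem typ6a_mem {A : Finset ℕ} (hA : A ⊆ Icc 1 N) {x : ℕ} (hx : x ∈ A) :
    x ∈ range (N + 1) := by
  have := mem_Icc.1 (hA hx)
  exact mem_range.2 (by omega)

private theorem typ6a_sum2 {A B : Finset ℕ} (hA : A ⊆ Icc 1 N) (hB : B ⊆ Icc 1 N) (f : ℕ → ℕ → ℝ)
    (hf : ∀ x y, f x y ≠ 0 → x ∈ A ∧ y ∈ B) :
    ∑ x ∈ range (N + 1), ∑ y ∈ range (N + 1), f x y = ∑ x ∈ A, ∑ y ∈ B, f x y := by
  have h1 : ∀ x, ∑ y ∈ B, f x y = ∑ y ∈ range (N + 1), f x y := by
    intro x
    refine Finset.sum_subset (fun y hy => typ6a_mem hB hy) ?_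
    intro y _ hy
    by_contra hne
    exact hy (hf x y hne).2
  rw [Finset.sum_congr rfl (fun x _ => h1 x)]
  refine (Finset.sum_subset (fun y hy => typ6a_mem hA hy) ?_).symm
  intro x _ hx
  refine Finset.sum_eq_zero fun y _ => ?_
  by_contra hne
  exact hx (hf x y hne).1

private theorem typ6a_JJ_supp (h : TK N Q L η C₀ k) {x y : ℕ} (hn : JJ N Q L η k x y ≠ 0) :
    x ∈ Q ∧ y ∈ Q := by
  by_cases hk : k x y = 0
  · have : GG N Q L x y ≠ 0 := by
      intro hg
      exact hn (by unfold JJ; rw [hk, hg]; simp)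
    exact ⟨(GG_supp this).1, (GG_supp this).2.1⟩
  · exact ⟨(h.supp x y hk).1, (h.supp x y hk).2.1⟩

private theorem typ6a_AA_supp (h : TK N Q L η C₀ k) {x y : ℕ} (hn : AA N Q L η k x y ≠ 0) :
    x ∈ Q ∧ y ∈ Q := by
  by_cases hk : k x y = 0
  · have h1 : gg N Q L x ≠ 0 := by
      intro hg
      exact hn (by unfold AA; rw [hk, hg]; simp)
    have h2 : pu N Q x y ≠ 0 := by
      intro hg
      exact hn (by unfold AA; rw [hk, hg]; simp)
    exact ⟨(gg_supp h1).1, (pu_supp h2).1⟩
  · exact ⟨(h.supp x y hk).1, (h.supp x y hk).2.1⟩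

private theorem typ6a_ite {p : Prop} [Decidable p] {a : ℝ} (h : (if p then a else 0) ≠ 0) :
    p ∧ a ≠ 0 := by
  by_cases hp : p
  · rw [if_pos hp] at h
    exact ⟨hp, h⟩
  · rw [if_neg hp] at h
    exact absurd rfl h

private theorem typ6a_k (h : TK N Q L η C₀ k) (z : ℕ) :
    ∑ x ∈ range (N + 1), ∑ y ∈ range (N + 1), (if dd x y = z then k x y / SS Q k else 0) =
      dO Q k z := by
  unfold dO
  refine typ6a_sum2 h.tq.Q_sub h.tq.Q_sub _ ?_
  intro x y hne
  have h1 := (typ6a_ite hne).2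
  have h2 : k x y ≠ 0 := by
    intro hk
    exact h1 (by rw [hk, zero_div])
  exact ⟨(h.supp x y h2).1, (h.supp x y h2).2.1⟩

private theorem typ6a_JJ (h : TK N Q L η C₀ k) (z : ℕ) :
    ∑ x ∈ range (N + 1), ∑ y ∈ range (N + 1), (if dd x y = z then JJ N Q L η k x y else 0) =
      dO Q k z - η * a1 N Q L z := by
  rw [typ6a_sum2 h.tq.Q_sub h.tq.Q_sub _
    (fun x y hne => typ6a_JJ_supp h (typ6a_ite hne).2)]
  unfold dO a1
  rw [Finset.mul_sum, ← Finset.sum_sub_distrib]
  refine Finset.sum_congr rfl fun x _ => ?_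
  rw [Finset.mul_sum, ← Finset.sum_sub_distrib]
  refine Finset.sum_congr rfl fun y _ => ?_
  by_cases hd : dd x y = z
  · rw [if_pos hd, if_pos hd, if_pos hd]
    rfl
  · rw [if_neg hd, if_neg hd, if_neg hd]
    ring

private theorem typ6a_AA (h : TK N Q L η C₀ k) (z : ℕ) :
    ∑ x ∈ range (N + 1), ∑ y ∈ range (N + 1), (if dd x y = z then AA N Q L η k x y else 0) =
      dO Q k z - η * a3 N Q L z := by
  rw [typ6a_sum2 h.tq.Q_sub h.tq.Q_sub _
    (fun x y hne => typ6a_AA_supp h (typ6a_ite hne).2)]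
  unfold dO a3
  rw [Finset.mul_sum, ← Finset.sum_sub_distrib]
  refine Finset.sum_congr rfl fun x _ => ?_
  rw [Finset.mul_sum, ← Finset.sum_sub_distrib]
  refine Finset.sum_congr rfl fun y _ => ?_
  by_cases hd : dd x y = z
  · rw [if_pos hd, if_pos hd, if_pos hd]
    rfl
  · rw [if_neg hd, if_neg hd, if_neg hd]
    ring

private theorem typ6a_L (h : TK N Q L η C₀ k) (z : ℕ) :
    ∑ x ∈ range (N + 1), ∑ y ∈ range (N + 1),
      (if dd x y = z then (if x ∈ L then (η / L.card) * pu N Q x y else 0) else 0) =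
      η * a2 N Q L z := by
  rw [typ6a_sum2 h.tq.L_sub h.tq.Q_sub _ (fun x y hne => by
    have h1 := typ6a_ite (typ6a_ite hne).2
    refine ⟨h1.1, ?_⟩
    have h2 : pu N Q x y ≠ 0 := by
      intro hp
      exact h1.2 (by rw [hp, mul_zero])
    exact (pu_supp h2).1)]
  unfold a2
  rw [← mul_assoc, Finset.mul_sum]
  refine Finset.sum_congr rfl fun x hx => ?_
  rw [Finset.mul_sum]
  refine Finset.sum_congr rfl fun y _ => ?_
  by_cases hd : dd x y = z
  · rw [if_pos hd, if_pos hd, if_pos hx]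
    ring
  · rw [if_neg hd, if_neg hd]
    ring

private theorem typ6a_swap (f : ℕ → ℕ → ℝ) (z : ℕ) :
    ∑ x ∈ range (N + 1), ∑ y ∈ range (N + 1), (if dd x y = z then f y x else 0) =
      ∑ x ∈ range (N + 1), ∑ y ∈ range (N + 1), (if dd x y = z then f x y else 0) := by
  rw [Finset.sum_comm]
  refine Finset.sum_congr rfl fun x _ => Finset.sum_congr rfl fun y _ => ?_
  rw [dd_comm y x]

/-- the split of the load -/
private theorem typ6a_split (he : Env N t Q L rp prt) (h : TK N Q L η C₀ k) {z : ℕ} (hz : z ∈ Q)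
    {a b : Ty} (hab : okTy a b = true) (w : ℕ → ℕ → ℝ) (hw : ∀ x y, 0 ≤ w x y)
    (hs : ∀ x y, z ∈ us Q rp a b x y → y ≠ z →
      MM N Q L η k a x * KK N Q L prt η k a b x y ≠ 0 →
      dd x y = z ∧ MM N Q L η k a x * KK N Q L prt η k a b x y = w x y) :
    UU N Q rp (MM N Q L η k) (KK N Q L prt η k) a b z ≤
      MM N Q L η k b z +
        ∑ x ∈ range (N + 1), ∑ y ∈ range (N + 1), (if dd x y = z then w x y else 0) := by
  have hzN : z ≤ N := (mem_Icc.1 (h.tq.Q_sub hz)).2
  rw [← KK_cons (prt := prt) he h hab hzN]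
  unfold UU
  rw [← Finset.sum_add_distrib]
  refine Finset.sum_le_sum fun x _ => ?_
  have h1 : MM N Q L η k a x * KK N Q L prt η k a b x z =
      ∑ y ∈ range (N + 1), (if y = z then MM N Q L η k a x * KK N Q L prt η k a b x y else 0) := by
    rw [Finset.sum_ite_eq' (range (N + 1)) z]
    rw [if_pos (mem_range.2 (by omega))]
  rw [h1, ← Finset.sum_add_distrib]
  refine Finset.sum_le_sum fun y _ => ?_
  have hnn : 0 ≤ MM N Q L η k a x * KK N Q L prt η k a b x y :=
    mul_nonneg (MM_nonneg h a x) (KK_nonneg h a b x y)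
  have hw0 : 0 ≤ (if dd x y = z then w x y else 0) := by
    by_cases hd : dd x y = z
    · rw [if_pos hd]; exact hw x y
    · rw [if_neg hd]
  by_cases hu : z ∈ us Q rp a b x y
  · rw [if_pos hu]
    by_cases hy : y = z
    · rw [if_pos hy]
      linarith
    · rw [if_neg hy]
      by_cases hne : MM N Q L η k a x * KK N Q L prt η k a b x y = 0
      · rw [hne, zero_add]
        exact hw0
      · obtain ⟨hd, hv⟩ := hs x y hu hy hne
        rw [if_pos hd, hv, zero_add]
  · rw [if_neg hu]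
    by_cases hy : y = z
    · rw [if_pos hy]
      linarith
    · rw [if_neg hy]
      linarith

theorem env_card (he : Env N t Q L rp prt) : L.card = t * (L.image rp).card := by
  rw [card_eq_sum_card_image rp L, sum_congr rfl fun r hr => typ6b_fib he hr, sum_const,
    smul_eq_mul, mul_comm]

theorem UU_OO (he : Env N t Q L rp prt) (h : TK N Q L η C₀ k) {z : ℕ} (hz : z ∈ Q) :
    UU N Q rp (MM N Q L η k) (KK N Q L prt η k) Ty.O Ty.O z ≤ mO Q k z + dO Q k z := by
  have hzL : z ∉ L := fun hl => Finset.disjoint_left.1 h.tq.QL hz hl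
  refine (typ6a_split he h hz (by rfl) (fun x y => k x y / SS Q k)
    (fun x y => div_nonneg (h.nn x y) (SS_pos h).le) ?_).trans ?_
  · intro x y hu hy hne
    have hu' : z ∈ ({y, dd x y} : Finset ℕ) := hu
    rw [mem_insert, mem_singleton] at hu'
    refine ⟨?_, joint_OO h x y⟩
    rcases hu' with h1 | h1
    · exact absurd h1.symm hy
    · exact h1.symm
  · rw [typ6a_k h z]
    exact le_refl _

theorem UU_OP (he : Env N t Q L rp prt) (h : TK N Q L η C₀ k) {z : ℕ} (hz : z ∈ Q) :
    UU N Q rp (MM N Q L η k) (KK N Q L prt η k) Ty.O Ty.P z ≤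
      mP N Q L η k z + (dO Q k z - η * a1 N Q L z + η * a2 N Q L z) := by
  have hzL : z ∉ L := fun hl => Finset.disjoint_left.1 h.tq.QL hz hl
  refine (typ6a_split he h hz (by rfl)
    (fun x y => (if y ∈ L then (η / L.card) * pu N Q y x else 0) + JJ N Q L η k y x)
    (fun x y => ?_) ?_).trans ?_
  · refine add_nonneg ?_ (JJ_nonneg h y x)
    by_cases hy : y ∈ L
    · rw [if_pos hy]
      exact mul_nonneg (div_nonneg h.η_nn (Nat.cast_nonneg _)) (pu_nonneg y x)
    · rw [if_neg hy]
  · intro x y hu hy hne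
    rw [joint_OP h x y] at hne ⊢
    by_cases hyL : y ∈ L
    · have hyQ : y ∉ Q := fun hq => Finset.disjoint_left.1 h.tq.QL hq hyL
      have hu' : z ∈ ({rp y, dd x y} : Finset ℕ) := by
        have hh : us Q rp Ty.O Ty.P x y = {rp y, dd x y} := by
          show (if y ∈ Q then _ else _) = _
          rw [if_neg hyQ]
        rw [hh] at hu
        exact hu
      rw [mem_insert, mem_singleton] at hu'
      have hJ : JJ N Q L η k y x = 0 := by
        by_contra hc
        exact hyQ (typ6a_JJ_supp h hc).1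
      refine ⟨?_, ?_⟩
      · rcases hu' with h1 | h1
        · exact absurd (h1 ▸ he.rp_mem y hyL) hzL
        · exact h1.symm
      · simp only [if_pos hyL, hJ, add_zero]
    · rw [if_neg hyL] at hne
      have hyQ : y ∈ Q := (typ6a_JJ_supp h hne).1
      have hu' : z ∈ ({y, dd x y} : Finset ℕ) := by
        have hh : us Q rp Ty.O Ty.P x y = {y, dd x y} := by
          show (if y ∈ Q then _ else _) = _
          rw [if_pos hyQ]
        rw [hh] at hu
        exact hu
      rw [mem_insert, mem_singleton] at hu'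
      refine ⟨?_, ?_⟩
      · rcases hu' with h1 | h1
        · exact absurd h1.symm hy
        · exact h1.symm
      · simp only [if_neg hyL, zero_add]
  · have e1 : MM N Q L η k Ty.P z = mP N Q L η k z := by
      show (if z ∈ L then _ else _) = _
      rw [if_neg hzL]
    have e2 : ∑ x ∈ range (N + 1), ∑ y ∈ range (N + 1), (if dd x y = z then
        ((if y ∈ L then (η / L.card) * pu N Q y x else 0) + JJ N Q L η k y x) else 0) =
        dO Q k z - η * a1 N Q L z + η * a2 N Q L z := by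
      rw [typ6a_swap (fun x y => (if x ∈ L then (η / L.card) * pu N Q x y else 0) +
        JJ N Q L η k x y) z, ← typ6a_JJ h z, ← typ6a_L h z, ← Finset.sum_add_distrib]
      refine Finset.sum_congr rfl fun x _ => ?_
      rw [← Finset.sum_add_distrib]
      refine Finset.sum_congr rfl fun y _ => ?_
      by_cases hd : dd x y = z
      · rw [if_pos hd, if_pos hd, if_pos hd, add_comm]
      · rw [if_neg hd, if_neg hd, if_neg hd, add_zero]
    rw [e1, e2]

theorem UU_PO (he : Env N t Q L rp prt) (h : TK N Q L η C₀ k) {z : ℕ} (hz : z ∈ Q) :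
    UU N Q rp (MM N Q L η k) (KK N Q L prt η k) Ty.P Ty.O z ≤
      mO Q k z + (dO Q k z - η * a1 N Q L z + η * a2 N Q L z) := by
  have hzL : z ∉ L := fun hl => Finset.disjoint_left.1 h.tq.QL hz hl
  refine (typ6a_split he h hz (by rfl)
    (fun x y => (if x ∈ L then (η / L.card) * pu N Q x y else 0) + JJ N Q L η k x y)
    (fun x y => ?_) ?_).trans ?_
  · refine add_nonneg ?_ (JJ_nonneg h x y)
    by_cases hx : x ∈ L
    · rw [if_pos hx]
      exact mul_nonneg (div_nonneg h.η_nn (Nat.cast_nonneg _)) (pu_nonneg x y)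
    · rw [if_neg hx]
  · intro x y hu hy hne
    have hu' : z ∈ ({y, dd x y} : Finset ℕ) := hu
    rw [mem_insert, mem_singleton] at hu'
    refine ⟨?_, ?_⟩
    · rcases hu' with h1 | h1
      · exact absurd h1.symm hy
      · exact h1.symm
    · rw [joint_PO h x y]
      by_cases hxL : x ∈ L
      · have hJ : JJ N Q L η k x y = 0 := by
          by_contra hc
          exact Finset.disjoint_left.1 h.tq.QL (typ6a_JJ_supp h hc).1 hxL
        simp only [if_pos hxL, hJ, add_zero]
      · simp only [if_neg hxL, zero_add]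
  · have e1 : MM N Q L η k Ty.O z = mO Q k z := rfl
    have e2 : ∑ x ∈ range (N + 1), ∑ y ∈ range (N + 1), (if dd x y = z then
        ((if x ∈ L then (η / L.card) * pu N Q x y else 0) + JJ N Q L η k x y) else 0) =
        dO Q k z - η * a1 N Q L z + η * a2 N Q L z := by
      rw [← typ6a_JJ h z, ← typ6a_L h z, ← Finset.sum_add_distrib]
      refine Finset.sum_congr rfl fun x _ => ?_
      rw [← Finset.sum_add_distrib]
      refine Finset.sum_congr rfl fun y _ => ?_
      by_cases hd : dd x y = z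
      · rw [if_pos hd, if_pos hd, if_pos hd, add_comm]
      · rw [if_neg hd, if_neg hd, if_neg hd, add_zero]
    rw [e1, e2]

theorem UU_PU (he : Env N t Q L rp prt) (h : TK N Q L η C₀ k) {z : ℕ} (hz : z ∈ Q) :
    UU N Q rp (MM N Q L η k) (KK N Q L prt η k) Ty.P Ty.U z ≤
      mU N Q L η k z + (dO Q k z - η * a3 N Q L z) := by
  have hzL : z ∉ L := fun hl => Finset.disjoint_left.1 h.tq.QL hz hl
  refine (typ6a_split he h hz (by rfl) (fun x y => AA N Q L η k x y)
    (fun x y => AA_nonneg h x y) ?_).trans ?_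
  · intro x y hu hy hne
    by_cases hxQ : x ∈ Q
    · have hxL : x ∉ L := fun hl => Finset.disjoint_left.1 h.tq.QL hxQ hl
      have hu' : z ∈ ({y, dd x y} : Finset ℕ) := by
        have hh : us Q rp Ty.P Ty.U x y = {y, dd x y} := by
          show (if x ∈ Q then _ else _) = _
          rw [if_pos hxQ]
        rw [hh] at hu
        exact hu
      rw [mem_insert, mem_singleton] at hu'
      refine ⟨?_, ?_⟩
      · rcases hu' with h1 | h1
        · exact absurd h1.symm hy
        · exact h1.symm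
      · rw [joint_PU h x y, if_neg hxL]
    · have hh : us Q rp Ty.P Ty.U x y = ∅ := by
        show (if x ∈ Q then _ else _) = _
        rw [if_neg hxQ]
      rw [hh] at hu
      exact absurd hu (Finset.notMem_empty z)
  · have e1 : MM N Q L η k Ty.U z = mU N Q L η k z := by
      show (if z ∈ L then _ else _) = _
      rw [if_neg hzL]
    rw [e1, typ6a_AA h z]

theorem UU_UP (he : Env N t Q L rp prt) (h : TK N Q L η C₀ k) {z : ℕ} (hz : z ∈ Q) :
    UU N Q rp (MM N Q L η k) (KK N Q L prt η k) Ty.U Ty.P z ≤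
      mP N Q L η k z + (dO Q k z - η * a3 N Q L z) := by
  have hzL : z ∉ L := fun hl => Finset.disjoint_left.1 h.tq.QL hz hl
  refine (typ6a_split he h hz (by rfl) (fun x y => AA N Q L η k y x)
    (fun x y => AA_nonneg h y x) ?_).trans ?_
  · intro x y hu hy hne
    by_cases hxQ : x ∈ Q
    · have hxL : x ∉ L := fun hl => Finset.disjoint_left.1 h.tq.QL hxQ hl
      have hu' : z ∈ ({y, dd x y} : Finset ℕ) := by
        have hh : us Q rp Ty.U Ty.P x y = {y, dd x y} := by
          show (if x ∈ Q then _ else _) = _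
          rw [if_pos hxQ]
        rw [hh] at hu
        exact hu
      rw [mem_insert, mem_singleton] at hu'
      refine ⟨?_, ?_⟩
      · rcases hu' with h1 | h1
        · exact absurd h1.symm hy
        · exact h1.symm
      · rw [joint_UP h x y, if_neg hxL]
    · have hh : us Q rp Ty.U Ty.P x y = ∅ := by
        show (if x ∈ Q then _ else _) = _
        rw [if_neg hxQ]
      rw [hh] at hu
      exact absurd hu (Finset.notMem_empty z)
  · have e1 : MM N Q L η k Ty.P z = mP N Q L η k z := by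
      show (if z ∈ L then _ else _) = _
      rw [if_neg hzL]
    rw [e1, typ6a_swap (fun x y => AA N Q L η k x y) z, typ6a_AA h z]

private theorem typ6b_sub (h : TK N Q L η C₀ k) : Q ⊆ range (N + 1) := by
  intro x hx
  have h1 := mem_Icc.1 (h.tq.Q_sub hx)
  exact mem_range.2 (by omega)

private theorem typ6b_notQ (h : TK N Q L η C₀ k) {x : ℕ} (hx : x ∈ L) : x ∉ Q := fun hq =>
  (Finset.disjoint_left.1 h.tq.QL) hq hx

private theorem typ6b_JJ_supp (h : TK N Q L η C₀ k) {x y : ℕ} (hx : JJ N Q L η k x y ≠ 0) :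
    x ∈ Q ∧ y ∈ Q ∧ dd x y ∈ Q := by
  by_cases hk : k x y = 0
  · have hG : GG N Q L x y ≠ 0 := by
      intro hG
      rw [JJ, hk, hG] at hx
      simp at hx
    exact ⟨(GG_supp hG).1, (GG_supp hG).2.1, (GG_supp hG).2.2.2.1⟩
  · exact ⟨(h.supp x y hk).1, (h.supp x y hk).2.1, (h.supp x y hk).2.2.2⟩

theorem UU_rep (he : Env N t Q L rp prt) (h : TK N Q L η C₀ k) {r : ℕ} (hr : r ∈ L.image rp) :
    UU N Q rp (MM N Q L η k) (KK N Q L prt η k) Ty.O Ty.P r = t * (η / L.card) := by
  have hrL : r ∈ L := by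
    obtain ⟨w, hw, rfl⟩ := mem_image.1 hr
    exact he.rp_mem w hw
  have hrQ : r ∉ Q := typ6b_notQ h hrL
  have hterm : ∀ x y, (if r ∈ us Q rp Ty.O Ty.P x y then
      MM N Q L η k Ty.O x * KK N Q L prt η k Ty.O Ty.P x y else 0) =
      if y ∈ L.filter (fun y => rp y = r) then (η / L.card) * pu N Q y x else 0 := by
    intro x y
    rw [joint_OP h]
    have hus : us Q rp Ty.O Ty.P x y = if y ∈ Q then {y, dd x y} else {rp y, dd x y} := rfl
    rw [hus]
    by_cases hL : y ∈ L
    · rw [if_neg (typ6b_notQ h hL), if_pos hL]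
      by_cases hry : rp y = r
      · rw [if_pos (mem_filter.2 ⟨hL, hry⟩), if_pos (by rw [hry]; exact mem_insert_self _ _)]
      · have hnf : y ∉ L.filter (fun y => rp y = r) := fun hc => hry (mem_filter.1 hc).2
        rw [if_neg hnf]
        by_cases hd : r ∈ ({rp y, dd x y} : Finset ℕ)
        · rw [if_pos hd]
          rw [mem_insert, mem_singleton] at hd
          rcases hd with hd | hd
          · exact absurd hd.symm hry
          · have h0 : pu N Q y x = 0 := by
              by_contra hc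
              have h2 := (pu_supp hc).2.2.2
              rw [dd_comm, ← hd] at h2
              exact hrQ h2
            rw [h0, mul_zero]
        · rw [if_neg hd]
    · have hnf : y ∉ L.filter (fun y => rp y = r) := fun hc => hL (mem_filter.1 hc).1
      rw [if_neg hL, if_neg hnf]
      by_cases hJ : JJ N Q L η k y x = 0
      · rw [hJ]
        simp
      · obtain ⟨h1, h2, h3⟩ := typ6b_JJ_supp h hJ
        rw [if_pos h1, if_neg]
        intro hc
        rw [mem_insert, mem_singleton] at hc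
        rcases hc with hc | hc
        · exact hrQ (by rw [hc]; exact h1)
        · exact hrQ (by rw [hc, dd_comm]; exact h3)
  have hsub : L.filter (fun y => rp y = r) ⊆ range (N + 1) := by
    intro y hy
    have h1 := mem_Icc.1 (h.tq.L_sub (mem_filter.1 hy).1)
    exact mem_range.2 (by omega)
  rw [UU, sum_congr rfl fun x _ => sum_congr rfl fun y _ => hterm x y, sum_comm]
  have h2 : ∀ y ∈ range (N + 1), (∑ x ∈ range (N + 1),
      if y ∈ L.filter (fun y => rp y = r) then (η / (L.card : ℝ)) * pu N Q y x else 0) =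
      if y ∈ L.filter (fun y => rp y = r) then η / (L.card : ℝ) else 0 := by
    intro y hy
    split_ifs with hc
    · rw [← mul_sum]
      have h3 : ∑ x ∈ range (N + 1), pu N Q y x = ∑ x ∈ Q, pu N Q y x := by
        refine (sum_subset (typ6b_sub h) fun x _ hx => ?_).symm
        by_contra hc
        exact hx (pu_supp hc).1
      rw [h3, pu_sum h.tq (by have := mem_range.1 hy; omega), mul_one]
    · exact sum_const_zero
  rw [sum_congr rfl h2, ← sum_filter]
  have h4 : (range (N + 1)).filter (fun y => y ∈ L.filter (fun y => rp y = r)) =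
      L.filter (fun y => rp y = r) := by
    ext y
    rw [mem_filter]
    exact ⟨fun hy => hy.2, fun hy => ⟨hsub hy, hy⟩⟩
  rw [h4, sum_const, typ6b_fib he hr, nsmul_eq_mul]

theorem UU_zero (he : Env N t Q L rp prt) (h : TK N Q L η C₀ k) {a b : Ty} (hab : okTy a b = true)
    {z : ℕ} (hz : z ∉ Q) (hz2 : z ∈ L.image rp → ¬ (a = Ty.O ∧ b = Ty.P)) :
    UU N Q rp (MM N Q L η k) (KK N Q L prt η k) a b z = 0 := by
  rw [UU]
  refine sum_eq_zero fun x _ => sum_eq_zero fun y _ => ?_
  by_cases hus : z ∈ us Q rp a b x y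
  swap
  · rw [if_neg hus]
  rw [if_pos hus]
  by_contra hne
  have hrule := KK_rule h hab hne
  have key : ∀ {w : ℕ}, w ∈ Q → dd x y ∈ Q → z ∈ ({w, dd x y} : Finset ℕ) → False := by
    intro w hw hd hc
    rw [mem_insert, mem_singleton] at hc
    rcases hc with hc | hc
    · exact hz (by rw [hc]; exact hw)
    · exact hz (by rw [hc]; exact hd)
  cases a <;> cases b <;> first | (simp [okTy] at hab; done) | skip
  · obtain ⟨h1, h2, h3⟩ := hrule
    exact key h2 h3 hus
  · obtain ⟨h1, h2, h3⟩ := hrule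
    have hus' : z ∈ (if y ∈ Q then ({y, dd x y} : Finset ℕ) else {rp y, dd x y}) := hus
    by_cases hyQ : y ∈ Q
    · rw [if_pos hyQ] at hus'
      exact key hyQ h3 hus'
    · rw [if_neg hyQ] at hus'
      have hyL : y ∈ L := h2.resolve_left hyQ
      rw [mem_insert, mem_singleton] at hus'
      rcases hus' with hc | hc
      · exact hz2 (by rw [hc]; exact mem_image_of_mem rp hyL) ⟨rfl, rfl⟩
      · exact hz (by rw [hc]; exact h3)
  · obtain ⟨h1, h2, h3⟩ := hrule
    exact key h2 h3 hus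
  · have hus' : z ∈ (if x ∈ Q then ({y, dd x y} : Finset ℕ) else ∅) := hus
    by_cases hxQ : x ∈ Q
    · rw [if_pos hxQ] at hus'
      rcases hrule with ⟨h1, h2, h3⟩ | ⟨h1, -⟩
      · exact key h2 h3 hus'
      · exact typ6b_notQ h h1 hxQ
    · rw [if_neg hxQ] at hus'
      exact absurd hus' (notMem_empty z)
  · have hus' : z ∈ (if x ∈ Q then ({y, dd x y} : Finset ℕ) else ∅) := hus
    by_cases hxQ : x ∈ Q
    · rw [if_pos hxQ] at hus'
      rcases hrule with ⟨h1, h2, h3⟩ | ⟨h1, -⟩
      · exact key h2 h3 hus'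
      · exact typ6b_notQ h h1 hxQ
    · rw [if_neg hxQ] at hus'
      exact absurd hus' (notMem_empty z)

/-- `∑ z ∈ Q, dO z = 1` -/
theorem dO_sum (h : TK N Q L η C₀ k) : ∑ z ∈ Q, dO Q k z = 1 := by
  have h1 : ∑ z ∈ Q, dO Q k z = ∑ x ∈ Q, ∑ y ∈ Q, k x y / SS Q k := by
    unfold dO
    rw [sum_comm]
    refine sum_congr rfl fun x _ => ?_
    rw [sum_comm]
    refine sum_congr rfl fun y _ => ?_
    rw [sum_ite_eq]
    by_cases hd : dd x y ∈ Q
    · rw [if_pos hd]
    · rw [if_neg hd]
      have hk : k x y = 0 := by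
        by_contra hc
        exact hd (h.supp x y hc).2.2.2
      rw [hk, zero_div]
  rw [h1]
  have h2 : ∑ x ∈ Q, ∑ y ∈ Q, k x y / SS Q k = (∑ x ∈ Q, ∑ y ∈ Q, k x y) / SS Q k := by
    rw [sum_div]
    exact sum_congr rfl fun x _ => (sum_div _ _ _).symm
  rw [h2]
  have h3 : SS Q k = ∑ x ∈ Q, ∑ y ∈ Q, k x y := rfl
  rw [← h3]
  exact div_self (SS_pos h).ne'

end SSB
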